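import Pool.Agent.Lib.MP_181146_gt.HR.SpecA
import Pool.Agent.Lib.MP_181146_gt.HH.DefsT

/-!
# Project HR: the complexes `Q(k, z, D)`

`Gam q ψ`: the group of pairs `(g, r)`, `r i` a lift of `ψ i g`.  `GD G`: the geometric data (chains of a
simplicial set `K` with an action of `G`, the operator `a` of degree `n`, the functional `v` on the
product with `m` circles).  `GD.M z D`: the module with operators obtained by `m` circles;
`MS.gc`, `MS.clf`: the big complex and its Clifford pair.  `DHom`: morphisms of graded modules with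
operators, `DM.ker`: kernels.  `cF K F`: the chains with coefficients in `F`.  `GC.md`: change of the
ring.
-/

set_option autoImplicit false
set_option linter.unusedVariables false

namespace HRx

open HEp HPx

/-! ## A. Change of the ring -/

section

variable {k B : Type} [CommRing k] [CommRing B]

/-- The complex `T` as a complex of modules over `B`, acting through `θ`. -/
def GC.md (T : GC k) (θ : B →+* Module.End k T.V) (hd : ∀ b x, θ b (T.d x) = T.d (θ b x))
    (hG : ∀ b i, ∀ x ∈ T.G i, θ b x ∈ T.G i) : GC B :=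
  letI : Module B T.V := Module.compHom T.V θ
  { V := T.V
    d :=
      { toFun := T.d
        map_add' := T.d.map_add
        map_smul' := fun b x => (hd b x).symm }
    G := fun i =>
      { carrier := {x | x ∈ T.G i}
        add_mem' := fun hx hy => (T.G i).add_mem hx hy
        zero_mem' := (T.G i).zero_mem
        smul_mem' := fun b x hx => hG b i x hx }
    dG := fun i x hx => T.dG i x hx
    dd := fun x => T.dd x }

/-- The Clifford pair over `B`. -/
def Clf.md {T : GC k} {n : ℤ} (c : Clf T n) (θ : B →+* Module.End k T.V)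
    (hd : ∀ b x, θ b (T.d x) = T.d (θ b x)) (hG : ∀ b i, ∀ x ∈ T.G i, θ b x ∈ T.G i)
    (hX : ∀ b x, c.X (θ b x) = θ b (c.X x)) (hΞ : ∀ b x, c.Ξ (θ b x) = θ b (c.Ξ x)) :
    Clf (T.md θ hd hG) n :=
  letI : Module B T.V := Module.compHom T.V θ
  { X :=
      { toFun := c.X
        map_add' := c.X.map_add
        map_smul' := hX }
    Ξ :=
      { toFun := c.Ξ
        map_add' := c.Ξ.map_add
        map_smul' := hΞ }
    XG := fun i x hx => c.XG i x hx
    ΞG := fun i x hx => c.ΞG i x hx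
    Xd := fun x => c.Xd x
    Ξd := fun x => c.Ξd x
    rel := fun i x hx => c.rel i x hx }

end

/-- An action of `G` on a big complex. -/
structure GAct (G : Type) [CommGroup G] {k : Type} [CommRing k] (T : GC k) where
  r : G →* Module.End k T.V
  rd : ∀ g x, r g (T.d x) = T.d (r g x)
  rG : ∀ g i, ∀ x ∈ T.G i, r g x ∈ T.G i

section

variable {G : Type} [CommGroup G] {k : Type} [CommRing k] {T : GC k}

/-- The action of the group ring. -/
noncomputable def GAct.th (A : GAct G T) : MonoidAlgebra k G →+* Module.End k T.V :=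
  (MonoidAlgebra.lift k (Module.End k T.V) G A.r).toRingHom

lemma GAct.th_single (A : GAct G T) (g : G) (r : k) (x : T.V) :
    A.th (MonoidAlgebra.single g r) x = r • A.r g x := by
  change (MonoidAlgebra.lift k (Module.End k T.V) G A.r) (MonoidAlgebra.single g r) x = _
  rw [MonoidAlgebra.lift_single]
  rfl

lemma GAct.th_d (A : GAct G T) (b : MonoidAlgebra k G) (x : T.V) :
    A.th b (T.d x) = T.d (A.th b x) := by
  induction b using MonoidAlgebra.induction_linear with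
  | zero => rw [map_zero, LinearMap.zero_apply, LinearMap.zero_apply, map_zero]
  | add f g hf hg => rw [map_add, LinearMap.add_apply, LinearMap.add_apply, hf, hg, map_add]
  | single g r => rw [A.th_single, A.th_single, A.rd, map_smul]

lemma GAct.th_G (A : GAct G T) (b : MonoidAlgebra k G) (i : ℤ) (x : T.V) (hx : x ∈ T.G i) :
    A.th b x ∈ T.G i := by
  induction b using MonoidAlgebra.induction_linear with
  | zero => rw [map_zero, LinearMap.zero_apply]; exact (T.G i).zero_mem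
  | add f g hf hg => rw [map_add, LinearMap.add_apply]; exact (T.G i).add_mem hf hg
  | single g r => rw [A.th_single]; exact (T.G i).smul_mem _ (A.rG g i x hx)

/-- The complex of modules over the group ring. -/
noncomputable def GAct.gc (A : GAct G T) : GC (MonoidAlgebra k G) := T.md A.th A.th_d A.th_G

end

/-! ## B. The group `Γ` and the geometric data -/

/-- The variable of the circle number `n`: `m - 1 - n`, so the variable `0` belongs to the outermost
circle. -/
def rv (m n : ℕ) : ℕ := if n < m then m - 1 - n else n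

/-- The pairs `(g, r)` with `r i` a lift of `ψ i g`. -/
def Gam {G : Type} [CommGroup G] (q : ℕ) (ψ : ℕ → G →* Multiplicative (ZMod q)) :
    Subgroup (G × Multiplicative (ℕ → ℤ)) where
  carrier := {x | ∀ i, ((Multiplicative.toAdd x.2 i : ℤ) : ZMod q) = Multiplicative.toAdd (ψ i x.1)}
  mul_mem' := fun {x y} hx hy i => by
    change ((Multiplicative.toAdd x.2 i + Multiplicative.toAdd y.2 i : ℤ) : ZMod q) =
      Multiplicative.toAdd (ψ i (x.1 * y.1))
    rw [Int.cast_add, hx i, hy i, map_mul, toAdd_mul]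
  one_mem' := fun i => by
    change ((0 : ℤ) : ZMod q) = Multiplicative.toAdd (ψ i 1)
    rw [Int.cast_zero, map_one, toAdd_one]
  inv_mem' := fun {x} hx i => by
    change ((-(Multiplicative.toAdd x.2 i) : ℤ) : ZMod q) = Multiplicative.toAdd (ψ i (x.1)⁻¹)
    rw [Int.cast_neg, hx i, map_inv, toAdd_inv]

/-- The rotation numbers. -/
def rho {G : Type} [CommGroup G] (q : ℕ) (ψ : ℕ → G →* Multiplicative (ZMod q)) (i : ℕ)
    (h : Gam q ψ) : ℤ := Multiplicative.toAdd h.1.2 i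

lemma rho_one {G : Type} [CommGroup G] (q : ℕ) (ψ : ℕ → G →* Multiplicative (ZMod q)) (i : ℕ) :
    rho q ψ i 1 = 0 := rfl

lemma rho_mul {G : Type} [CommGroup G] (q : ℕ) (ψ : ℕ → G →* Multiplicative (ZMod q)) (i : ℕ)
    (h h' : Gam q ψ) : rho q ψ i (h * h') = rho q ψ i h + rho q ψ i h' := rfl

/-- The lift of `g` with `0 ≤ r i < q`. -/
def lf {G : Type} [CommGroup G] (q : ℕ) [NeZero q] (ψ : ℕ → G →* Multiplicative (ZMod q)) (g : G) :
    Gam q ψ :=
  ⟨(g, Multiplicative.ofAdd fun i => ((Multiplicative.toAdd (ψ i g)).val : ℤ)), fun i => by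
    change (((Multiplicative.toAdd (ψ i g)).val : ℤ) : ZMod q) = Multiplicative.toAdd (ψ i g)
    rw [Int.cast_natCast]
    exact ZMod.natCast_zmod_val _⟩

/-- The vertex component of a functional (the components `.1`, exponent `0`, place `0`). -/
def vx {H : Type} {F : FS H} (q : ℕ) (ix : ℕ → ℕ) (ρ : ℕ → H → ℤ) :
    ∀ n : ℕ, (fit F q ix ρ n).Φ → F.Φ
  | 0, φ => φ
  | n + 1, φ => vx q ix ρ n (φ.1 0 0)

/-- Constant functionals: the component `.1`, exponent `0`, is `ψ`, all other components vanish. -/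
def cst {H : Type} {F : FS H} (q : ℕ) (ix : ℕ → ℕ) (ρ : ℕ → H → ℤ) :
    ∀ n : ℕ, F.Φ → (fit F q ix ρ n).Φ
  | 0, ψ => ψ
  | n + 1, ψ => (fun j _ => if j = 0 then cst q ix ρ n ψ else 0, fun _ _ => 0)

/-- Functionals all of whose components are multiples of `ε`. -/
def Sc {H : Type} {F : FS H} (ε : F.Φ) (q : ℕ) (ix : ℕ → ℕ) (ρ : ℕ → H → ℤ) :
    ∀ n : ℕ, (fit F q ix ρ n).Φ → Prop
  | 0, φ => ∃ r : ℤ, φ = r • ε
  | n + 1, φ => ∀ (j : ℕ) (c : ℤ), Sc ε q ix ρ n (φ.1 j c) ∧ Sc ε q ix ρ n (φ.2 j c)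

/-- A functional on the chains. -/
def toF {H : Type} {K : SS} {α : H → SSHom K K} (φ : (fs0 K α).Φ) : Ch ℤ K →ₗ[ℤ] ℤ := φ

/-- Geometric data. -/
structure GD (G : Type) [CommGroup G] where
  K : SS
  al : G → SSHom K K
  al1 : al 1 = SSHom.id K
  alm : ∀ g h, al (g * h) = (al g).comp (al h)
  m : ℕ
  q : ℕ
  [q0 : NeZero q]
  ψ : ℕ → G →* Multiplicative (ZMod q)
  n : ℕ
  n1 : Odd n
  n2 : 1 < n
  w : ℕ
  nw : n + 1 = 2 * w
  b : ℕ
  nb : n < 2 * b
  κ : (ℕ → ℕ) → ℤ
  κh : ∀ a, κ a ≠ 0 → ∑ i ∈ Finset.range m, a i = w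
  a : Ch ℤ K →ₗ[ℤ] Ch ℤ K
  ad : ∀ y, a (bd ℤ K y) = -bd ℤ K (a y)
  ag : ∀ i, ∀ y ∈ gr ℤ K i, a y ∈ gr ℤ K (i + n)
  aα : ∀ g y, a (cmap ℤ (al g) y) = cmap ℤ (al g) (a y)
  v : (fit (fs0 K (fun h : Gam q ψ => al h.1.1)) q (rv m) (rho q ψ) m).Φ
  vD : v ∈ (fit (fs0 K (fun h : Gam q ψ => al h.1.1)) q (rv m) (rho q ψ) m).Dg n
  vP : v ∈ (fit (fs0 K (fun h : Gam q ψ => al h.1.1)) q (rv m) (rho q ψ) m).Pr
  vr : ∀ h, (fit (fs0 K (fun h : Gam q ψ => al h.1.1)) q (rv m) (rho q ψ) m).tr h v = v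
  vb : (fit (fs0 K (fun h : Gam q ψ => al h.1.1)) q (rv m) (rho q ψ) m).bd v =
    Kf (F := fs0 K (fun h : Gam q ψ => al h.1.1)) (aug ℤ K) q (rv m) (rho q ψ) m κ
  /-- the elements of the group are homotopic to the identity -/
  hom : ∀ g, ∃ B : Ch ℤ K →ₗ[ℤ] Ch ℤ K, (∀ i, ∀ y ∈ gr ℤ K i, B y ∈ gr ℤ K (i + 1)) ∧
    ∀ y, cmap ℤ (al g) y - y = bd ℤ K (B y) + B (bd ℤ K y)
  /-- the homology vanishes in the degrees `0 < i < n` -/
  con : ∃ (w : K.K 0) (s : Ch ℤ K →ₗ[ℤ] Ch ℤ K), (∀ i, ∀ x ∈ gr ℤ K i, s x ∈ gr ℤ K (i + 1)) ∧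
    (∀ i, n ≤ i → ∀ x ∈ gr ℤ K i, s x = 0) ∧
    (∀ x ∈ gr ℤ K 0, bd ℤ K (s x) = x - aug ℤ K x • sx ℤ w) ∧
    ∀ i, 0 < i → i < n → ∀ x ∈ gr ℤ K i, bd ℤ K (s x) + s (bd ℤ K x) = x
  /-- the Clifford relation on the chains -/
  rel : ∀ x : Ch ℤ K →ₗ[ℤ] ℤ, Sup n x → (∀ y, x (bd ℤ K y) = 0) →
    (∀ y ∈ gr ℤ K n, bd ℤ K y = 0 → x y =
      toF (vx (F := fs0 K (fun h : Gam q ψ => al h.1.1)) q (rv m) (rho q ψ) m v) y) →
    ∃ c : Ch ℤ K →ₗ[ℤ] Ch ℤ K, (∀ i, ∀ y ∈ gr ℤ K i, c y ∈ gr ℤ K (i + 1)) ∧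
      ∀ y, a (cap x y) + cap x (a y) = y + (bd ℤ K (c y) + c (bd ℤ K y))

attribute [instance] GD.q0

section

variable {G : Type} [CommGroup G] (g : GD G)

/-- The action of `Γ`. -/
def GD.alH (h : Gam g.q g.ψ) : SSHom g.K g.K := g.al h.1.1

/-- The functionals on the chains. -/
noncomputable abbrev GD.F0 : FS (Gam g.q g.ψ) := fs0 g.K g.alH

/-- The functionals on the product with the circles. -/
noncomputable abbrev GD.F : FS (Gam g.q g.ψ) := fit g.F0 g.q (rv g.m) (rho g.q g.ψ) g.m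

/-- The functional `v`. -/
noncomputable def GD.V : g.F.Φ := g.v

/-- The chain level cocycle (vertex component of `v`). -/
noncomputable def GD.v0 : Ch ℤ g.K →ₗ[ℤ] ℤ :=
  toF (vx (F := fs0 g.K (fun h : Gam g.q g.ψ => g.al h.1.1)) g.q (rv g.m) (rho g.q g.ψ) g.m g.v)

variable {k : Type} [CommRing k] (z : ℕ → k) (D : DM k)

/-- The base. -/
noncomputable abbrev GD.M0 : MS k (Gam g.q g.ψ) g.F0 := ms0 g.K g.alH D g.a

/-- The module with operators obtained by the first `n` circles. -/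
noncomputable abbrev GD.Mn (n : ℕ) : MS k (Gam g.q g.ψ) (fit g.F0 g.q (rv g.m) (rho g.q g.ψ) n) :=
  mit (g.M0 D) g.q g.b (rv g.m) z (rho g.q g.ψ) n

/-- The module with operators. -/
noncomputable abbrev GD.M : MS k (Gam g.q g.ψ) g.F := g.Mn z D g.m

end

/-! ## C. The big complex and its Clifford pair -/

section

variable {k : Type} [CommRing k] {H : Type} {F : FS H}

/-- `δ` is a differential on `Q`. -/
structure Dif (M : MS k H F) : Prop where
  Qd : ∀ x ∈ M.Q, M.δ x ∈ M.Q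
  Gd : ∀ i, ∀ x ∈ M.G i, M.δ x ∈ M.G (i - 1)
  dd : ∀ x ∈ M.Q, M.δ (M.δ x) = 0

/-- The big complex `Q`. -/
def MS.gc (M : MS k H F) (h : Dif M) : GC k where
  V := M.Q
  d := M.δ.restrict h.Qd
  G := fun i => (M.G i).comap M.Q.subtype
  dG := fun i x hx => h.Gd i _ hx
  dd := fun x => Subtype.ext (h.dd x.1 x.2)

/-- `sg Z(v)` and `Ξ` are a Clifford pair. -/
structure MS.CL (M : MS k H F) (v : F.Φ) (n : ℤ) : Prop where
  Xg : ∀ i, ∀ x ∈ M.G i, M.sg (M.Z v x) ∈ M.G (i - n)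
  Wg : ∀ i, ∀ x ∈ M.G i, M.Ξ x ∈ M.G (i + n)
  Xq : ∀ x ∈ M.Q, M.sg (M.Z v x) ∈ M.Q
  Wq : ∀ x ∈ M.Q, M.Ξ x ∈ M.Q
  Xd : ∀ x ∈ M.Q, M.sg (M.Z v (M.δ x)) = -M.δ (M.sg (M.Z v x))
  Wd : ∀ x ∈ M.Q, M.Ξ (M.δ x) = -M.δ (M.Ξ x)
  rel : ∀ i, ∀ x ∈ M.G i, x ∈ M.Q → M.δ x = 0 → ∃ y ∈ M.G (i + 1), y ∈ M.Q ∧
    M.δ y = M.sg (M.Z v (M.Ξ x)) + M.Ξ (M.sg (M.Z v x)) - x

/-- The Clifford pair on `Q`. -/
def MS.clf (M : MS k H F) (h : Dif M) {v : F.Φ} {n : ℤ} (c : M.CL v n) : Clf (M.gc h) n where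
  X := (M.sg * M.Z v).restrict c.Xq
  Ξ := M.Ξ.restrict c.Wq
  XG := fun i x hx => c.Xg i _ hx
  ΞG := fun i x hx => c.Wg i _ hx
  Xd := fun x => Subtype.ext (c.Xd x.1 x.2)
  Ξd := fun x => Subtype.ext (c.Wd x.1 x.2)
  rel := fun i x hx => by
    obtain ⟨y, hy, hq, he⟩ := c.rel i x.1 hx.1 x.2 (congrArg Subtype.val hx.2)
    exact ⟨⟨y, hq⟩, hy, Subtype.ext he⟩

/-- A map of modules with operators, restricted to `Q`. -/
def qm {k' : Type} [CommRing k'] {M : MS k H F} {M' : MS k' H F} (h : Dif M) (h' : Dif M')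
    (f : M.V →+ M'.V) (hf : ∀ x ∈ M.Q, f x ∈ M'.Q) : (M.gc h).V →+ (M'.gc h').V :=
  AddMonoidHom.mk' (fun x => ⟨f x.1, hf x.1 x.2⟩) (fun x y => Subtype.ext (f.map_add x.1 y.1))

/-- `0 → M' → M → M'' → 0` is exact on `Q` (the second map lowers the degree by `w`). -/
structure Ex3 {k' k'' : Type} [CommRing k'] [CommRing k''] {M' : MS k' H F} {M : MS k H F}
    {M'' : MS k'' H F} (w : ℤ) (a : M'.V →+ M.V) (b : M.V →+ M''.V) : Prop where
  aG : ∀ i, ∀ x ∈ M'.G i, a x ∈ M.G i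
  bG : ∀ i, ∀ x ∈ M.G i, b x ∈ M''.G (i - w)
  aQ : ∀ x ∈ M'.Q, a x ∈ M.Q
  bQ : ∀ x ∈ M.Q, b x ∈ M''.Q
  ad : ∀ x, a (M'.δ x) = M.δ (a x)
  bd : ∀ x, b (M.δ x) = M''.δ (b x)
  as : ∀ x, a (M'.sg x) = M.sg (a x)
  bs : ∀ x, b (M.sg x) = M''.sg (b x)
  aY : ∀ i x, a (M'.Y i x) = M.Y i (a x)
  bY : ∀ i x, b (M.Y i x) = M''.Y i (b x)
  inj : ∀ x, a x = 0 → x = 0
  ba : ∀ x, b (a x) = 0
  ex : ∀ i, ∀ x ∈ M.G i, x ∈ M.Q → b x = 0 → ∃ y ∈ M'.G i, y ∈ M'.Q ∧ a y = x
  sur : ∀ i, ∀ x ∈ M''.G (i - w), x ∈ M''.Q → ∃ y ∈ M.G i, y ∈ M.Q ∧ b y = x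

end

section

variable {k : Type} [CommRing k] {H : Type} {F : FS H}

/-- `f` commutes with all operators. -/
structure MC {k' : Type} [CommRing k'] (M : MS k H F) (M' : MS k' H F) (f : M.V →+ M'.V) : Prop where
  fd : ∀ x, f (M.δ x) = M'.δ (f x)
  fs : ∀ x, f (M.sg x) = M'.sg (f x)
  fY : ∀ i x, f (M.Y i x) = M'.Y i (f x)
  fZ : ∀ φ x, f (M.Z φ x) = M'.Z φ (f x)
  fW : ∀ x, f (M.Ξ x) = M'.Ξ (f x)
  fA : ∀ h x, f (M.A h x) = M'.A h (f x)

/-- `E` is a null homotopy of `T` on `Q`. -/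
structure MS.Nul (M : MS k H F) (T E : Module.End k M.V) : Prop where
  EQ : ∀ x ∈ M.Q, E x ∈ M.Q
  EG : ∀ i, ∀ x ∈ M.G i, E x ∈ M.G (i + 1)
  Es : ∀ x, E (M.sg x) = -M.sg (E x)
  EY : ∀ i x, E (M.Y i x) = M.Y i (E x)
  eq : ∀ x ∈ M.Q, M.δ (E x) + E (M.δ x) = T x

end

/-! ### The action of `G` -/

section

variable {k : Type} [CommRing k] {H : Type} {F : FS H} {G : Type} [CommGroup G]

/-- The operators `A (lf g)` on `Q`, with the cocycle `c`. -/
structure MS.GP (M : MS k H F) (lf : G → H) (c : G → G → k) : Prop where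
  AQ : ∀ g, ∀ x ∈ M.Q, M.A (lf g) x ∈ M.Q
  AG : ∀ g i, ∀ x ∈ M.G i, M.A (lf g) x ∈ M.G i
  Ad : ∀ g x, M.A (lf g) (M.δ x) = M.δ (M.A (lf g) x)
  A1 : ∀ x ∈ M.Q, M.A (lf 1) x = x
  AA : ∀ g g', ∀ x ∈ M.Q, M.A (lf g) (M.A (lf g') x) = c g g' • M.A (lf (g * g')) x

/-- The operator `A (lf g)` on `Q`. -/
def MS.vg (M : MS k H F) (h : Dif M) {lf : G → H} {c : G → G → k} (p : M.GP lf c) (g : G) :
    Module.End k (M.gc h).V := (M.A (lf g)).restrict (p.AQ g)

lemma MS.vg_one (M : MS k H F) (h : Dif M) {lf : G → H} {c : G → G → k} (p : M.GP lf c) :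
    M.vg h p 1 = 1 := LinearMap.ext fun x => Subtype.ext (p.A1 x.1 x.2)

lemma MS.vg_mul (M : MS k H F) (h : Dif M) {lf : G → H} {c : G → G → k} (p : M.GP lf c)
    (g g' : G) : M.vg h p g * M.vg h p g' = c g g' • M.vg h p (g * g') :=
  LinearMap.ext fun x => Subtype.ext (p.AA g g' x.1 x.2)

/-- The action of `G` on `Q`, for the trivial cocycle. -/
def MS.ga (M : MS k H F) (h : Dif M) {lf : G → H} (p : M.GP lf (fun _ _ => 1)) :
    GAct G (M.gc h) where
  r :=
    { toFun := M.vg h p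
      map_one' := M.vg_one h p
      map_mul' := fun g g' => by rw [M.vg_mul h p, one_smul] }
  rd := fun g x => Subtype.ext (p.Ad g x.1)
  rG := fun g i x hx => p.AG g i x.1 hx

/-- `sg Z(v)` and `Ξ` commute with `A (lf g)`. -/
structure MS.CA (M : MS k H F) (v : F.Φ) (lf : G → H) : Prop where
  X : ∀ g x, M.sg (M.Z v (M.A (lf g) x)) = M.A (lf g) (M.sg (M.Z v x))
  W : ∀ g x, M.Ξ (M.A (lf g) x) = M.A (lf g) (M.Ξ x)

/-- `Q` as a big complex over `k[G]`. -/
noncomputable def MS.gcG (M : MS k H F) (h : Dif M) {lf : G → H} (p : M.GP lf (fun _ _ => 1)) :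
    GC (MonoidAlgebra k G) := (M.ga h p).gc

lemma MS.XG_th (M : MS k H F) (h : Dif M) {v : F.Φ} {n : ℤ} (c : M.CL v n) {lf : G → H}
    (p : M.GP lf (fun _ _ => 1)) (e : M.CA v lf) (b : MonoidAlgebra k G) (x : (M.gc h).V) :
    (M.clf h c).X ((M.ga h p).th b x) = (M.ga h p).th b ((M.clf h c).X x) ∧
    (M.clf h c).Ξ ((M.ga h p).th b x) = (M.ga h p).th b ((M.clf h c).Ξ x) := by
  induction b using MonoidAlgebra.induction_linear with
  | zero =>
    simp only [map_zero, LinearMap.zero_apply, and_self]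
  | add f g hf hg =>
    simp only [map_add, LinearMap.add_apply, hf.1, hf.2, hg.1, hg.2, and_self]
  | single g r =>
    rw [GAct.th_single, GAct.th_single, GAct.th_single, map_smul, map_smul]
    exact ⟨congrArg (r • ·) (Subtype.ext (e.X g x.1)), congrArg (r • ·) (Subtype.ext (e.W g x.1))⟩

/-- The Clifford pair over `k[G]`. -/
noncomputable def MS.clfG (M : MS k H F) (h : Dif M) {v : F.Φ} {n : ℤ} (c : M.CL v n) {lf : G → H}
    (p : M.GP lf (fun _ _ => 1)) (e : M.CA v lf) : Clf (M.gcG h p) n :=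
  (M.clf h c).md (M.ga h p).th (M.ga h p).th_d (M.ga h p).th_G (fun b x => (M.XG_th h c p e b x).1)
    (fun b x => (M.XG_th h c p e b x).2)

end

section

variable {R : Type} [CommRing R] {H : Type} {F : FS H} {G : Type} [CommGroup G]

/-- The action of the twisted group ring on `Q`. -/
noncomputable def MS.tt (M : MS (PowerSeries R) H F) (h : Dif M) {lf : G → H} (c : HHx.Cocy R G)
    (p : M.GP lf c.c) : HHx.TW c →+* Module.End (PowerSeries R) (M.gc h).V :=
  HHx.TW.act c (M.vg h p) (M.vg_one h p) (M.vg_mul h p)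

lemma MS.tt_sg (M : MS (PowerSeries R) H F) (h : Dif M) {lf : G → H} (c : HHx.Cocy R G)
    (p : M.GP lf c.c) (g : G) (f : PowerSeries R) (x : (M.gc h).V) :
    M.tt h c p (HHx.TW.sg c g f) x = f • M.vg h p g x := by
  change HHx.TW.act0 c (M.vg h p) (HHx.TW.sg c g f) x = _
  rw [HHx.TW.act0_sg]
  rfl

lemma MS.tt_d (M : MS (PowerSeries R) H F) (h : Dif M) {lf : G → H} (c : HHx.Cocy R G)
    (p : M.GP lf c.c) (b : HHx.TW c) (x : (M.gc h).V) :
    M.tt h c p b ((M.gc h).d x) = (M.gc h).d (M.tt h c p b x) := by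
  induction b using HHx.TW.ind c with
  | h0 => rw [map_zero, LinearMap.zero_apply, LinearMap.zero_apply, map_zero]
  | ha f g hf hg => rw [map_add, LinearMap.add_apply, LinearMap.add_apply, hf, hg, map_add]
  | hs g f =>
    rw [M.tt_sg, M.tt_sg, map_smul]
    exact congrArg (f • ·) (Subtype.ext (p.Ad g x.1))

lemma MS.tt_G (M : MS (PowerSeries R) H F) (h : Dif M) {lf : G → H} (c : HHx.Cocy R G)
    (p : M.GP lf c.c) (b : HHx.TW c) (i : ℤ) (x : (M.gc h).V) (hx : x ∈ (M.gc h).G i) :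
    M.tt h c p b x ∈ (M.gc h).G i := by
  induction b using HHx.TW.ind c with
  | h0 => rw [map_zero, LinearMap.zero_apply]; exact ((M.gc h).G i).zero_mem
  | ha f g hf hg => rw [map_add, LinearMap.add_apply]; exact ((M.gc h).G i).add_mem hf hg
  | hs g f => rw [M.tt_sg]; exact ((M.gc h).G i).smul_mem _ (p.AG g i x.1 hx)

/-- `Q` as a big complex over the twisted group ring. -/
noncomputable def MS.gcT (M : MS (PowerSeries R) H F) (h : Dif M) {lf : G → H} (c : HHx.Cocy R G)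
    (p : M.GP lf c.c) : GC (HHx.TW c) := (M.gc h).md (M.tt h c p) (M.tt_d h c p) (M.tt_G h c p)

lemma MS.XT_tt (M : MS (PowerSeries R) H F) (h : Dif M) {v : F.Φ} {n : ℤ} (l : M.CL v n)
    {lf : G → H} (c : HHx.Cocy R G) (p : M.GP lf c.c) (e : M.CA v lf) (b : HHx.TW c)
    (x : (M.gc h).V) :
    (M.clf h l).X (M.tt h c p b x) = M.tt h c p b ((M.clf h l).X x) ∧
    (M.clf h l).Ξ (M.tt h c p b x) = M.tt h c p b ((M.clf h l).Ξ x) := by
  induction b using HHx.TW.ind c with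
  | h0 => simp only [map_zero, LinearMap.zero_apply, and_self]
  | ha f g hf hg => simp only [map_add, LinearMap.add_apply, hf.1, hf.2, hg.1, hg.2, and_self]
  | hs g f =>
    rw [MS.tt_sg, MS.tt_sg, MS.tt_sg, map_smul, map_smul]
    exact ⟨congrArg (f • ·) (Subtype.ext (e.X g x.1)), congrArg (f • ·) (Subtype.ext (e.W g x.1))⟩

/-- The Clifford pair over the twisted group ring. -/
noncomputable def MS.clfT (M : MS (PowerSeries R) H F) (h : Dif M) {v : F.Φ} {n : ℤ} (l : M.CL v n)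
    {lf : G → H} (c : HHx.Cocy R G) (p : M.GP lf c.c) (e : M.CA v lf) : Clf (M.gcT h c p) n :=
  (M.clf h l).md (M.tt h c p) (M.tt_d h c p) (M.tt_G h c p) (fun b x => (M.XT_tt h l c p e b x).1)
    (fun b x => (M.XT_tt h l c p e b x).2)

end

/-! ## D. Graded modules with operators -/

section

variable {k : Type} [CommRing k]

/-- The sequences. -/
abbrev DM.Sq (D : DM k) : Type := ∀ j, D.D j

/-- The operator `Y i` on the sequences. -/
def DM.tY (D : DM k) (i : ℕ) : Module.End k D.Sq :=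
  LinearMap.pi (fun j => D.Y i j ∘ₗ LinearMap.proj (j + 1))

/-- The raising operator on the sequences given by maps `τ j : D j → D (j + 1)`. -/
def DM.up (D : DM k) (τ : ∀ j, D.D j →ₗ[k] D.D (j + 1)) : Module.End k D.Sq where
  toFun u j := match j with
    | 0 => 0
    | j + 1 => τ j (u j)
  map_add' u v := by
    funext j
    cases j with
    | zero => exact (add_zero (0 : D.D 0)).symm
    | succ j => exact (τ j).map_add _ _
  map_smul' r u := by
    funext j
    cases j with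
    | zero => exact (smul_zero r).symm
    | succ j => exact (τ j).map_smul _ _

lemma DM.tY_single (D : DM k) (i j : ℕ) (x : D.D (j + 1)) :
    D.tY i (Pi.single (j + 1) x) = Pi.single j (D.Y i j x) := by
  funext l
  change D.Y i l ((Pi.single (j + 1) x : D.Sq) (l + 1)) = (Pi.single j (D.Y i j x) : D.Sq) l
  by_cases h : l = j
  · subst h
    rw [Pi.single_eq_same, Pi.single_eq_same]
  · rw [Pi.single_eq_of_ne h, Pi.single_eq_of_ne (fun e => h (Nat.succ_injective e)), map_zero]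

lemma DM.tY_single_zero (D : DM k) (i : ℕ) (x : D.D 0) : D.tY i (Pi.single 0 x) = 0 := by
  funext l
  change D.Y i l ((Pi.single 0 x : D.Sq) (l + 1)) = 0
  rw [Pi.single_eq_of_ne (Nat.succ_ne_zero l), map_zero]

/-- The operators commute and `∑ (z i - 1) Y i = 0`, `i < m`. -/
structure DM.Fl (D : DM k) (m : ℕ) (z : ℕ → k) : Prop where
  comm : D.Comm
  cur : ∀ j (x : D.D (j + 1)), ∑ i ∈ Finset.range m, (z i - 1) • D.Y i j x = 0

/-- The kernel of the operator `T` on the sequences. -/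
def DM.ker (D : DM k) (T : Module.End k D.Sq) (hT : ∀ i x, T (D.tY i x) = D.tY i (T x)) : DM k where
  D j := LinearMap.ker (T ∘ₗ LinearMap.single k D.D j)
  Y i j := (D.Y i j).restrict (fun x hx => by
    rw [LinearMap.mem_ker] at hx ⊢
    change T (Pi.single j (D.Y i j x)) = 0
    rw [← D.tY_single, hT]
    change D.tY i (T (Pi.single (j + 1) x)) = 0
    have hx' : T (Pi.single (j + 1) x) = 0 := hx
    rw [hx', map_zero])

end

/-- Morphisms (semilinear). -/
structure DHom {k k' : Type} [CommRing k] [CommRing k'] (σ : k →+* k') (D : DM k) (D' : DM k') where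
  f : ∀ j, D.D j →+ D'.D j
  fs : ∀ j r x, f j (r • x) = σ r • f j x
  fY : ∀ i j x, f j (D.Y i j x) = D'.Y i j (f (j + 1) x)

section

variable {k : Type} [CommRing k]

/-- The inclusion of the kernel. -/
def DM.kerI (D : DM k) (T : Module.End k D.Sq) (hT : ∀ i x, T (D.tY i x) = D.tY i (T x)) :
    DHom (RingHom.id k) (D.ker T hT) D where
  f j := (LinearMap.ker (T ∘ₗ LinearMap.single k D.D j)).subtype.toAddMonoidHom
  fs := fun _ _ _ => rfl
  fY := fun _ _ _ => rfl

/-- Sections `τ i` of the operators `Y i`, `i < m`, commuting with the other operators; the common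
kernel is in degree `0`. -/
structure DM.Cf (D : DM k) (m : ℕ) where
  τ : ℕ → ∀ j, D.D j →ₗ[k] D.D (j + 1)
  sec : ∀ i < m, ∀ j x, D.Y i j (τ i j x) = x
  com : ∀ i < m, ∀ l < m, i ≠ l → ∀ x, D.tY i (D.up (τ l) x) = D.up (τ l) (D.tY i x)
  zer : ∀ j (x : D.D (j + 1)), (∀ i < m, D.Y i j x = 0) → x = 0

variable {k' : Type} [CommRing k']

/-- The map on the chains. -/
noncomputable def DHom.ch {σ : k →+* k'} {D : DM k} {D' : DM k'} (f : DHom σ D D') (K : SS) :
    ChD K D →+ ChD K D' :=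
  AddMonoidHom.mk' (fun h j => Finsupp.mapRange (f.f j) (f.f j).map_zero (h j)) (by
    intro h h'
    funext j
    exact Finsupp.mapRange_add (f.f j).map_add _ _)

/-- The map on the modules with operators, `n` circles. -/
noncomputable def GD.mF {G : Type} [CommGroup G] (g : GD G) {σ : k →+* k'} {D : DM k} {D' : DM k'}
    (f : DHom σ D D') (z : ℕ → k) (z' : ℕ → k') (n : ℕ) : (g.Mn z D n).V →+ (g.Mn z' D' n).V :=
  mitF (M := g.M0 D) (M' := g.M0 D') (f.ch g.K) g.q g.b (rv g.m) z z' (rho g.q g.ψ) n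

/-- The operator of weight `w` on the chains given by the operator `T` on the sequences. -/
noncomputable def opW (K : SS) (D : DM k) (w : ℕ) (T : Module.End k D.Sq) :
    Module.End k (ChD K D) :=
  LinearMap.pi (fun j => Finsupp.mapRange.linearMap
    (LinearMap.proj j ∘ₗ T ∘ₗ LinearMap.single k D.D (j + w)) ∘ₗ LinearMap.proj (j + w))

/-- The chains with values in `N` as chains with values in `D`, through `e : N → D 0`. -/
noncomputable def chZ (K : SS) (D : DM k) {N : Type} [AddCommGroup N] (e : N →+ D.D 0) :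
    ChN K N →+ ChD K D :=
  AddMonoidHom.mk' (fun h => Pi.single 0 (Finsupp.mapRange e e.map_zero h)) (by
    intro h h'
    rw [Finsupp.mapRange_add e.map_add]
    exact Pi.single_add 0 _ _)

end

/-! ## E. One circle: the element supported at the multiples of the period, the sum over a period -/

section

variable {k : Type} [CommRing k] {V : Type} [AddCommGroup V] [Module k V]

/-- The functions supported at the multiples of `q`, with `f (c - q) = u f c`. -/
noncomputable def cirJ (q : ℕ) (u : kˣ) : V →ₗ[k] Cir V where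
  toFun x := (fun c => if (q : ℤ) ∣ c then ((u ^ (-(c / (q : ℤ))) : kˣ) : k) • x else 0, fun _ => 0)
  map_add' x y := by
    refine Prod.ext ?_ ?_
    · funext c
      change (if (q : ℤ) ∣ c then ((u ^ (-(c / (q : ℤ))) : kˣ) : k) • (x + y) else 0) =
        (if (q : ℤ) ∣ c then ((u ^ (-(c / (q : ℤ))) : kˣ) : k) • x else 0) +
        (if (q : ℤ) ∣ c then ((u ^ (-(c / (q : ℤ))) : kˣ) : k) • y else 0)
      split_ifs
      · exact smul_add _ _ _
      · exact (add_zero 0).symm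
    · funext c
      exact (add_zero 0).symm
  map_smul' r x := by
    refine Prod.ext ?_ ?_
    · funext c
      change (if (q : ℤ) ∣ c then ((u ^ (-(c / (q : ℤ))) : kˣ) : k) • (r • x) else 0) =
        r • (if (q : ℤ) ∣ c then ((u ^ (-(c / (q : ℤ))) : kˣ) : k) • x else 0)
      split_ifs
      · exact smul_comm _ _ _
      · exact (smul_zero r).symm
    · funext c
      exact (smul_zero r).symm

/-- The sum over a period. -/
def cirN (q : ℕ) : Cir V →ₗ[k] V where
  toFun f := ∑ c ∈ Finset.range q, f.1 c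
  map_add' f g := Finset.sum_add_distrib
  map_smul' r f := by
    change ∑ c ∈ Finset.range q, r • f.1 c = r • ∑ c ∈ Finset.range q, f.1 c
    exact Finset.smul_sum.symm

end

/-- The iteration of `cirN`. -/
noncomputable def itN {k : Type} [CommRing k] {H : Type} {F : FS H} (M : MS k H F) (q b : ℕ)
    (ix : ℕ → ℕ) (z : ℕ → k) (ρ : ℕ → H → ℤ) : ∀ n : ℕ, (mit M q b ix z ρ n).V →ₗ[k] M.V
  | 0 => LinearMap.id
  | n + 1 => itN M q b ix z ρ n ∘ₗ cirN q

/-- The iteration of `cirJ`. -/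
noncomputable def itJ {k : Type} [CommRing k] {H : Type} {F : FS H} (M : MS k H F) (q b : ℕ)
    (ix : ℕ → ℕ) (u : ℕ → kˣ) (ρ : ℕ → H → ℤ) :
    ∀ n : ℕ, M.V →ₗ[k] (mit M q b ix (fun i => (u i : k)) ρ n).V
  | 0 => LinearMap.id
  | n + 1 => cirJ q (u (ix n)) ∘ₗ itJ M q b ix u ρ n

/-! ## F. The chains with coefficients -/

/-- The projection of the product with the circles to the chains: sum over the places, components
`.1`, degree `0` of `D`. -/
noncomputable def GD.pr {G : Type} [CommGroup G] (g : GD G) {k : Type} [CommRing k] (z : ℕ → k)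
    (D : DM k) {N : Type} [AddCommGroup N] [Module k N] (e : D.D 0 →ₗ[k] N) :
    (g.M z D).V →ₗ[k] ChN g.K N :=
  Finsupp.mapRange.linearMap e ∘ₗ LinearMap.proj 0 ∘ₗ
    itN (g.M0 D) g.q g.b (rv g.m) z (rho g.q g.ψ) g.m

/-- The inclusion of the chains, `e : N → D 0`. -/
noncomputable def GD.io {G : Type} [CommGroup G] (g : GD G) {k : Type} [CommRing k] (u : ℕ → kˣ)
    (D : DM k) {N : Type} [AddCommGroup N] (e : N →+ D.D 0) :
    ChN g.K N →+ (g.M (fun i => (u i : k)) D).V :=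
  (itJ (g.M0 D) g.q g.b (rv g.m) u (rho g.q g.ψ) g.m).toAddMonoidHom.comp (chZ g.K D e)

open Classical in
lemma bd1_apply_ne (k : Type) [CommRing k] {K : SS} (x y : Σ n, K.K n) (h : y.1 + 1 ≠ x.1) :
    bd1 k x y = 0 := by
  rcases x with ⟨n, x⟩
  cases n with
  | zero => rfl
  | succ n =>
    change (∑ i : Fin (n + 2), (-1 : k) ^ (i : ℕ) • sx k (K.act i.succAbove x)) y = 0
    rw [Finsupp.finsetSum_apply]
    refine Finset.sum_eq_zero fun i _ => ?_
    rw [Finsupp.smul_apply, sx, Finsupp.single_apply, if_neg, smul_zero]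
    intro e
    apply h
    rw [← e]

/-- The chains with coefficients in `F`, as a big complex. -/
noncomputable def cF (K : SS) (F : Type) [CommRing F] : GC F where
  V := Ch F K
  d := bd F K
  G := fun i =>
    { carrier := {h | ∀ x, (x.1 : ℤ) ≠ i → h x = 0}
      add_mem' := fun {f g} hf hg x hx => by
        change f x + g x = 0
        rw [hf x hx, hg x hx, add_zero]
      zero_mem' := fun x _ => rfl
      smul_mem' := fun r f hf x hx => by
        change r • f x = 0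
        rw [hf x hx, smul_zero] }
  dG := fun i h hh y hy => by
    change (Finsupp.linearCombination F (bd1 F) h) y = 0
    rw [Finsupp.linearCombination_apply, Finsupp.sum, Finsupp.finsetSum_apply]
    refine Finset.sum_eq_zero fun x _ => ?_
    rw [Finsupp.smul_apply]
    by_cases hx : (x.1 : ℤ) = i
    · rw [bd1_apply_ne, smul_zero]
      intro e
      apply hy
      rw [← hx, ← e]
      push_cast
      ring
    · rw [hh x hx, zero_smul]
  dd := fun x => bd_bd F x

end HRx
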