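import Pool.Agent.Lib.MP_181146_gt.HR.LinS
import Pool.Agent.Lib.MP_181146_gt.HB.SpecB
import Pool.Agent.Lib.MP_181146_gt.HH.SpecZ

/-!
# Project HR, part C: perfectness, the inclusion of the chains

Every statement is a separate task; the proof of each is in the docstring.  Definitions: HR/DefsS.lean
(`GD.Qc`, `GD.Cc`, `GD.QS`, `GD.CS`, `HPk`), HR/DefsQ.lean, HR/DefsR.lean.  Proved and without
hypotheses: everything in HR/AllB.lean (`pMCm`, `pExI`, ..), HR/LinS.lean.
-/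

set_option linter.unusedVariables false
set_option autoImplicit false

namespace HRx

open HEp HPx HBy HAx

/-- **CFo** (from OpN).  The operators `opN` with coefficients in the ring itself.
Proof: `bd F K` is the linear combination of `bd1 F x`, `bd1 F x` the image of `bd1 ℤ x` (`∑ (-1)^i sx`); `opN F A` of
`single x r` is `(A (single x 1)).sum (fun y n => n • single y r)`.  So check both sides on `single x r`
(`Finsupp.lhom_ext`).  The same for `cmap`: `cmap F f (single x r) = single (f x) r`. -/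
def S_CFo : Prop :=
  ∀ (K : SS) (F : Type) [CommRing F],
    (∀ x : Ch F K, (opN F (bd ℤ K) : ChN K F →ₗ[F] ChN K F) x = bd F K x) ∧
    ∀ (f : SSHom K K) (x : Ch F K), (opN F (cmap ℤ f) : ChN K F →ₗ[F] ChN K F) x = cmap F f x

/-- **ExJ** (from ExK).  The exact sequence of ExK for an injective morphism `j` whose image is the kernel of
`T`.  Proof: `bG bQ bd bs bY sur` are those of `pExK` for `D.ker T`; `aG`, `ad`, `as`, `aY` from `DHom.ch_G`,
`DHom.mc`; `aQ`, `bQ` trivial (`Q = ⊤`).  `inj`, `ba`: coefficientwise, `(opW T h) l y = (T (single (l + w) (h (l + w) y))) l`.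
`ex`: by `ex` of ExK every coefficient `x l y` satisfies `T (single l (x l y)) = 0`; `Finsupp.mapRange p` with a
function `p : D l → D' l`, `p 0 = 0`, `j (p u) = u` if `T (single l u) = 0` (classical choice, `hk`). -/
def S_ExJ : Prop :=
  ∀ (G : Type) [CommGroup G] (g : GD G) (k : Type) [CommRing k] (D' D : DM k)
    (j : DHom (RingHom.id k) D' D) (ji : ∀ l x, j.f l x = 0 → x = 0)
    (T : Module.End k D.Sq) (hT : ∀ i x, T (D.tY i x) = D.tY i (T x)) (w : ℕ)
    (hlow : ∀ l < w, ∀ x : D.D l, T (Pi.single l x) = 0)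
    (hhom : ∀ l (x : D.D (l + w)), ∃ y : D.D l, T (Pi.single (l + w) x) = Pi.single l y)
    (hsur : ∀ l (y : D.D l), ∃ x : D.D (l + w), T (Pi.single (l + w) x) = Pi.single l y)
    (hk : ∀ l (x : D.D l), T (Pi.single l x) = 0 ↔ ∃ y, j.f l y = x),
    Ex3 (M' := g.M0 D') (M := g.M0 D) (M'' := g.M0 D) (2 * (w : ℤ)) (j.ch g.K)
      (opW g.K D w T).toAddMonoidHom

/-- **PfK** (from ExJ).  Perfectness descends to kernels.
Proof.  `b := opW g.K D w T` is linear over `k` and commutes with all operators of `g.M0 D`: `MC` (`δ`, `sg`, `Z`, `Ξ`, `A`: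
last item of `pOpN` for the coefficient map `u ↦ (T (single (l + w) u)) l`; `Y`: `bY` of ExJ).  `pExI` (all `z = 1`),
`pExS` give `SES (Q D') (Q D) ((Q D).sh (2 w))` with the maps `qc j` and `qm (mitF b)`.  Both are linear over the
group ring: `GD.ql`, and `GAct.th_map` (`σ = id`, `MonoidAlgebra.mapRingHom_id`; equivariance and `k`-linearity by `pMCm`).
Then HBy.ECx (second part) with HBy.ECs for the shift. -/
def S_PfK : Prop :=
  ∀ (G : Type) [CommGroup G] (g : GD G) (k : Type) [CommRing k] (D' D : DM k)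
    (j : DHom (RingHom.id k) D' D) (ji : ∀ l x, j.f l x = 0 → x = 0)
    (T : Module.End k D.Sq) (hT : ∀ i x, T (D.tY i x) = D.tY i (T x)) (w : ℕ)
    (hlow : ∀ l < w, ∀ x : D.D l, T (Pi.single l x) = 0)
    (hhom : ∀ l (x : D.D (l + w)), ∃ y : D.D l, T (Pi.single (l + w) x) = Pi.single l y)
    (hsur : ∀ l (y : D.D l), ∃ x : D.D (l + w), T (Pi.single (l + w) x) = Pi.single l y)
    (hk : ∀ l (x : D.D l), T (Pi.single l x) = 0 ↔ ∃ y, j.f l y = x) (h' : g.P0 D') (h : g.P0 D),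
    (g.Qc D h).Perf → (g.Qc D' h').Perf

/-- **Prj** (helper32: PrQ).  The projection to the chains. -/
def S_Prj : Prop :=
  ∀ (G : Type) [CommGroup G] (g : GD G) (k : Type) [CommRing k] (D : DM k) (hD : D.Comm)
    (C : D.Cf g.m) (e : D.D 0 →ₗ[k] k) (he : Function.Bijective e) (h : Dif (g.N D)),
    IsQI ((g.N D).gc h) (HAx.CF g.K k)
      ((g.pr (fun _ => (1 : k)) D e ∘ₗ (g.N D).Q.subtype).toAddMonoidHom) ∧
    ∀ i, ∀ y ∈ (HAx.CF g.K k).G i, ∃ x ∈ (g.N D).Q, x ∈ (g.N D).G i ∧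
      g.pr (fun _ => (1 : k)) D e x = y

/-- **SMQ** (helper32: SMod).  The `S`-model. -/
def S_SMQ : Prop :=
  ∀ (G : Type) [CommGroup G] (g : GD G) (F : Type) [CommRing F] (P : HPk g F) (hm : 0 < g.m),
    IsQI P.TS (g.Qc P.Du P.pDu)
      ((g.qc P.pD.p0 P.pDu P.j).comp (g.qs P.z P.zc P.pS P.pD.p0 P.r))

/-- **PrG** (from Prj, CFo).  The projection is linear over the group ring.
Proof: the underlying map is `g.pr (fun _ => 1) D e` on `Q`; it is linear over `k`, and
`pr (A (lf γ) x) = cmap k (al γ) (pr x)` for `x ∈ Q`: in one circle, for `f (c - q) = f c` (`z = 1`), `cirN q (cirA A r f) =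
∑_(0 ≤ c < q) A (f.1 (c - r)) = A (cirN q f)` (sum over a period of a periodic function); induction on `n` gives
`itN (A h x) = opD (cmap (alH h)) (itN x)` on `Q`; then component `0`, `mapRange e` (`pOpN`), CFo.  Linearity over
the group ring: `MonoidAlgebra.induction_linear` (`GAct.th_single`, `HAx.gcI_single`).  Then `Prj` (the propositions
for `(g.N D).gc` and `g.Qc D h`, and for `HAx.CF g.K k` and `g.chK k` are the same).
`HasEC`: HBy.ECq. -/
def S_PrG : Prop :=
  ∀ (G : Type) [CommGroup G] (g : GD G) (k : Type) [CommRing k] (D : DM k) (hD : D.Comm)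
    (C : D.Cf g.m) (e : D.D 0 →ₗ[k] k) (he : Function.Bijective e) (h : g.P0 D),
    (∃ w : (g.Qc D h).V →ₗ[MonoidAlgebra k G] (g.chK k).V, LQI (g.Qc D h) (g.chK k) w ∧
      (∀ i, ∀ y ∈ (g.chK k).G i, ∃ x ∈ (g.Qc D h).G i, w x = y) ∧
      ∀ x : (g.N D).Q, w x = g.pr (fun _ => (1 : k)) D e x.1) ∧
    ∀ c, (g.Qc D h).HasEC c ↔ (g.chK k).HasEC c

/-- **PfS** (from SMQ, HBy.Up, HHx.TGood).  The complex over the twisted group ring is perfect.
Proof: HBy.Up for `φ = TW.phi`, `s = TW.s`, `q` the map of SMQ, semilinear by `GD.qs_smul`, `GD.qc_smul`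
(`MonoidAlgebra.mapRingHom_id`); the three properties of `φ`, `s` are in `HHx.Good` (TGood). -/
def S_PfS : Prop :=
  ∀ (G : Type) [CommGroup G] (g : GD G) (F : Type) [CommRing F] (P : HPk g F) (hm : 0 < g.m),
    (g.Qc P.Du P.pDu).Perf → P.TS.Perf

/-- **IoQ** (from CFo).  The inclusion of the chains.
Proof.  One circle, `x` with `Y x = 0` (`Y` the variable of the circle), `J = cirJ q u`: `J x ∈ cirQ` (`-((c - q)/q) =
-(c/q) + 1`); `cirD (J x) = J (δ x)` (second component: `∑ Y (sg ..) = 0`; `Y sg = sg Y`); `cirM A (J x) = J (A x)`, `cirS (J x) =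
J (sg x)`; `cirX φ (J x) = J (Z (φ.1 0 0) x)` if `φ.1 0` has period `q`: in the first component only the term `j = 0`,
`f.2 = 0`, remains (`Y^j` of a multiple of `x` is zero for `j > 0`), at `c ∈ q ℤ` it is `Z (φ.1 0 c) = Z (φ.1 0 0)`; the second
component is zero because every term contains `Y^(j+1) f.1` or `f.2`.  Degrees: `cirG`.  Base: `x = chZ K D e h =
single 0 (mapRange e h)`: all `Y i x = 0`, `opD A (chZ h) = chZ (opN F A h)` (last item of `pOpN`).
Induction on `n` (the operators `Y i` of the product are `cirM (Y i)`, so `Y i (itJ x) = 0` for all `i`):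
`Z φ (itJ x) = itJ (Z (vx n φ) x)` for `φ ∈ Pr` (`vx`: DefsQ).  For `g.V`: `Z v0 = zD v0 = opD (Xc v0)`, `sg Z v0 =
opD (sgC ∘ Xc v0) = opD (cap v0)` because `v0` is odd: `v0 ∈ Dg n` (the component `.1 0 0` of an element of `Dg n` is in
`Dg n`), `Xc v0 = sgC ∘ cap v0`, `sgC ∘ sgC = id`.  `bd`: CFo. -/
def S_IoQ : Prop :=
  ∀ (G : Type) [CommGroup G] (g : GD G) (k : Type) [CommRing k] (u : ℕ → kˣ) (D : DM k)
    (hD : D.Comm) (F : Type) [CommRing F] (e : F →+ D.D 0),
    (∀ x, g.io u D e x ∈ (g.M (fun i => (u i : k)) D).Q) ∧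
    (∀ i, ∀ x ∈ (HAx.CF g.K F).G i, g.io u D e x ∈ (g.M (fun i => (u i : k)) D).G i) ∧
    (∀ x : Ch F g.K, (g.M (fun i => (u i : k)) D).δ (g.io u D e x) = g.io u D e (bd F g.K x)) ∧
    (∀ x, (g.M (fun i => (u i : k)) D).Ξ (g.io u D e x) =
      g.io u D e ((opN F g.a : ChN g.K F →ₗ[F] ChN g.K F) x)) ∧
    (∀ x, (g.M (fun i => (u i : k)) D).sg ((g.M (fun i => (u i : k)) D).Z g.V (g.io u D e x)) =
      g.io u D e ((opN F (cap g.v0) : ChN g.K F →ₗ[F] ChN g.K F) x)) ∧
    ∀ (r : F) (c : k), (∀ y, e (r * y) = c • e y) → ∀ x, g.io u D e (r • x) = c • g.io u D e x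

/-- **V0d** The functional `v0` and `cap v0` (from CapD, OpN, CFo).
Proof: `vD` gives `v0 ∈ Dg n`; `vb` and `vx (bd v) = bd (vx v)` (induction on the number of circles: the component
`.1 0 0` of `cfB φ` is `bd (φ.1 0 0)`), `vx (Kf ε κ) = κ 0 • ε = 0` (`κh` for `a = 0`: the sum is `0`, `w > 0`).  `cap v0` lowers
degrees by `n` and vanishes in degrees `< n` (HPx.CapD, `pXc1`), `cap v0 (bd y) = - bd (cap v0 y)` (`n` odd), so
`opN F (cap v0 ∘ a)` is a chain map of degree `0` (CFo, `pOpN`). -/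
def S_V0d : Prop :=
  ∀ (G : Type) [CommGroup G] (g : GD G) (F : Type) [CommRing F],
    Sup g.n g.v0 ∧ (∀ y, g.v0 (bd ℤ g.K y) = 0) ∧
    ∃ E1 : En (HAx.CF g.K F), ∀ y : Ch F g.K,
      E1.e y = (opN F (cap g.v0 ∘ₗ g.a) : ChN g.K F →ₗ[F] ChN g.K F) y

/-- **OutI** (from IoQ, V0d, Prj, SMQ).  The inclusion of the chains is a quasi-isomorphism, for `Du` universal.
Proof.  `z i` is a unit (`constantCoeff (z i) = 1`): `z i = u i`.  Choose `x0 ∈ DS.D 0` with `e0 (j (r x0)) = 1`: `he0`, `jk` for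
`l = 0` (the linear form kills `single 0 x`: `DM.tY_single_zero`), `rs`.  `e y := C y • x0`; `ι := io u DS e`, with values in
`Q` (IoQ).  Semilinear: last item of IoQ; `twI r • x` is the action of `C r`: `HHx.TW.act_algebraMap`.  `ι E1 = ES ι`: IoQ
for `Ξ` and for `sg Z V`, `opN (A ∘ B) = opN A ∘ opN B`.  QI: let `Q` be the map of SMQ and `p` the projection of Prj for
`Du`, `e0`: `p (Q (ι h)) = h`: `mF f (io e h) = io (f ∘ e) h` (`mitF (itJ x) = itJ (..)`, induction, `f.fs`), `cirN q (cirJ q 1 x) = x`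
(only `c = 0` in `0 ≤ c < q`), so `pr (io e h) = mapRange (e0 ∘ j ∘ r ∘ e) h = h`.  Two out of three: `p ∘ Q` is a
quasi-isomorphism (composition) and `p Q ι = id`, so `ι` is one. -/
def S_OutI : Prop :=
  ∀ (G : Type) [CommGroup G] (g : GD G) (F : Type) [CommRing F] (P : HPk g F) (hm : 0 < g.m)
    (C : P.Du.Cf g.m) (e0 : P.Du.D 0 →ₗ[F] F) (he0 : Function.Bijective e0),
    ∃ (E1 : En (HAx.CF g.K F)) (ι : (HAx.CF g.K F).V →+ P.TS.V),
      (∀ y : Ch F g.K, E1.e y = (opN F (cap g.v0 ∘ₗ g.a) : ChN g.K F →ₗ[F] ChN g.K F) y) ∧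
      (∀ (r : F) x, ι (r • x) = twI (g.co P.z P.zc) r • ι x) ∧
      IsQI (HAx.CF g.K F) P.TS ι ∧ ∀ x, ι (E1.e x) = P.ES.e (ι x)

end HRx
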