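import Pool.Agent.Lib.MP_181146_gt.HR.R5b
import Pool.Agent.Lib.MP_181146_gt.HR.SpecC

/-!
# Project HR, R5c: the class of the telescope for the kernel of `κ(Y)`, in terms of the chains
-/

set_option autoImplicit false
set_option linter.unusedVariables false

namespace HRx

open HEp HPx HBy HAx

/-- **R5c.** If the chains of `K` with values in `k` have the class `c` over the group ring, then the
telescope of `X Ξ` on `Q(k, 1, D)`, `D` the kernel of `κ(Y)` on `Du`, has the class `c`. -/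
theorem sR5c (hPrG : S_PrG) {k : Type} [CommRing k] {G : Type} [CommGroup G] (g : GD G)
    {D Du : DM k} (j : DHom (RingHom.id k) D Du) (h : g.P1 D) (hu : Du.Comm)
    (ji : ∀ l x, j.f l x = 0 → x = 0)
    (jk : ∀ l (x : Du.D l), g.kY Du (Pi.single l x) = 0 ↔ ∃ y, j.f l y = x)
    (ks : ∀ l (y : Du.D l), ∃ x : Du.D (l + g.w), g.kY Du (Pi.single (l + g.w) x) = Pi.single l y)
    (C : Du.Cf g.m) (e : Du.D 0 →ₗ[k] k) (he : Function.Bijective e) (c : KT (MonoidAlgebra k G))
    (hc : (g.chK k).HasEC c) : (g.Tc D h).HasEC c := by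
  obtain ⟨⟨w, hw, -, -⟩, -⟩ := hPrG G g k Du hu C e he (g.p0 hu)
  obtain ⟨P, u, hQ, hE⟩ := hc
  rw [← hE]
  exact sR5b g j h hu (g.p0 hu) ji jk ks (g.chK k) w hw P u hQ

end HRx
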