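import Pool.Agent.Lib.MP_181146_gt.HR.SpecC

/-!
# Project HR, CFo: the operators `opN` with coefficients in the ring itself
-/

set_option autoImplicit false

namespace HRx

open HEp HPx HBy HAx

/-- Integral chains as chains with coefficients in `F`. -/
private noncomputable def cfC (K : SS) (F : Type) [CommRing F] : Ch ℤ K →+ Ch F K :=
  Finsupp.mapRange.addMonoidHom (Int.castAddHom F)

private lemma cfC_single {K : SS} {F : Type} [CommRing F] (y : Σ n, K.K n) (r : ℤ) :
    cfC K F (Finsupp.single y r) = Finsupp.single y (r : F) := by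
  change Finsupp.mapRange (Int.castAddHom F) (map_zero _) (Finsupp.single y r) = _
  rw [Finsupp.mapRange_single]
  rfl

private lemma cfC_sum {K : SS} {F : Type} [CommRing F] (c : Ch ℤ K) :
    (c.sum (fun y r => r • (Finsupp.lsingle (R := F) y : F →ₗ[F] ChN K F))) 1 = cfC K F c := by
  induction c using Finsupp.induction_linear with
  | zero =>
    rw [Finsupp.sum_zero_index, LinearMap.zero_apply, map_zero]
  | add a b ha hb =>
    rw [Finsupp.sum_add_index' (by intro y; exact zero_smul _ _) (by
      intro y r s; exact add_smul _ _ _), LinearMap.add_apply, ha, hb, map_add]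
  | single y r =>
    have h1 := Finsupp.sum_single_index (a := y) (b := r)
      (h := fun (y : Σ n, K.K n) (r : ℤ) => r • (Finsupp.lsingle (R := F) y : F →ₗ[F] ChN K F))
      (zero_smul _ _)
    rw [h1, cfC_single, LinearMap.smul_apply, Finsupp.lsingle_apply, Finsupp.smul_single,
      zsmul_eq_mul, mul_one]

private lemma cf_opN {K : SS} {F : Type} [CommRing F] (A : Ch ℤ K →ₗ[ℤ] Ch ℤ K) {n : ℕ}
    (x : K.K n) :
    (opN F A : ChN K F →ₗ[F] ChN K F) (sx F x) = cfC K F (A (sx ℤ x)) := by
  rw [← cfC_sum]
  simp only [opN, sx, Finsupp.lsum_single]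

theorem sCFo : S_CFo := by
  intro K F _
  constructor
  · refine fun x => LinearMap.congr_fun (ch_ext (fun n y => ?_)) x
    rw [cf_opN]
    cases n with
    | zero => rw [bd_sx_zero, bd_sx_zero, map_zero]
    | succ n =>
      rw [bd_sx, bd_sx, map_sum]
      refine Finset.sum_congr rfl fun i _ => ?_
      rw [sx, sx, Finsupp.smul_single, Finsupp.smul_single, cfC_single]
      simp
  · refine fun f x => LinearMap.congr_fun (ch_ext (fun n y => ?_)) x
    rw [cf_opN]
    simp only [cmap, sx, Finsupp.lmapDomain_apply, Finsupp.mapDomain_single]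
    rw [cfC_single, Int.cast_one]

end HRx
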