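import Pool.Agent.Lib.MP_181146_gt.HR.SpecC

/-!
# Project HR, module ExJ: the exact sequence for an injective morphism whose image is a kernel
-/

set_option autoImplicit false
set_option linter.unusedVariables false

namespace HRx

open HEp HPx HBy HAx

private lemma ExJ_opW {k : Type} [CommRing k] {K : SS} {D : DM k} {T : Module.End k D.Sq} {w : ℕ}
    (x : ChD K D) (l : ℕ) (s : Σ n, K.K n) :
    (opW K D w T x) l s = (T (Pi.single (l + w) (x (l + w) s))) l := rfl

theorem sExJ : S_ExJ := by
  intro G _ g k _ D' D j ji T hT w hlow hhom hsur hk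
  have hE := pExK G g k D T hT w hlow hhom hsur
  have hm := DHom.mc g j
  refine
    { aG := ?_, bG := hE.bG, aQ := ?_, bQ := hE.bQ, ad := hm.fd, bd := hE.bd, as := hm.fs,
      bs := hE.bs, aY := hm.fY, bY := hE.bY, inj := ?_, ba := ?_, ex := ?_, sur := hE.sur }
  · intro i x hx
    exact DHom.ch_G g j i x hx
  · intro x _
    exact (Submodule.mem_top : _ ∈ (⊤ : Submodule k (ChD g.K D)))
  · intro x hx
    funext l
    ext s
    exact ji l _ (DFunLike.congr_fun (congrFun hx l) s)
  · intro x
    funext l
    ext s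
    have h1 : T (Pi.single (l + w) (j.f (l + w) (x (l + w) s))) = 0 :=
      (hk (l + w) _).2 ⟨_, rfl⟩
    change (T (Pi.single (l + w) (j.f (l + w) (x (l + w) s)))) l = 0
    rw [h1]
    rfl
  · intro i x hx hxQ hb
    classical
    obtain ⟨y, -, -, hy⟩ := hE.ex i x hx hxQ hb
    have h0 : ∀ l s, T (Pi.single l (x l s)) = 0 := by
      intro l s
      have h1 : x l s = (y l s).1 := by
        rw [← hy]
        rfl
      rw [h1]
      exact (y l s).2
    have h2 : ∀ l (u : D.D l), ∃ z : D'.D l, (T (Pi.single l u) = 0 → j.f l z = u) ∧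
        (u = 0 → z = 0) := by
      intro l u
      by_cases hu : u = 0
      · exact ⟨0, fun _ => by rw [map_zero, hu], fun _ => rfl⟩
      · by_cases hT : T (Pi.single l u) = 0
        · obtain ⟨z, hz⟩ := (hk l u).1 hT
          exact ⟨z, fun _ => hz, fun h => absurd h hu⟩
        · exact ⟨0, fun h => absurd h hT, fun _ => rfl⟩
    choose p hp using h2
    have hp0 : ∀ l, p l 0 = 0 := fun l => (hp l 0).2 rfl
    refine ⟨fun l => Finsupp.mapRange (p l) (hp0 l) (x l), ?_,
      (Submodule.mem_top : _ ∈ (⊤ : Submodule k (ChD g.K D'))), ?_⟩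
    · intro l s hs
      change p l (x l s) = 0
      rw [hx l s hs, hp0]
    · funext l
      ext s
      exact (hp l (x l s)).1 (h0 l s)

end HRx
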