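import Pool.Agent.Lib.MP_181146_gt.HR.SpecA

/-!
# Project HR: module OpN (functoriality of `opN`)
-/

set_option autoImplicit false

namespace HRx

open HEp HPx

/-- `c ↦ c ⊗ d`. -/
private noncomputable def onT {K : SS} {N : Type} [AddCommGroup N] (d : N) :
    Ch ℤ K →+ ChN K N :=
  Finsupp.mapRange.addMonoidHom (zmultiplesHom N d)

private lemma onT_apply {K : SS} {N : Type} [AddCommGroup N] (d : N) (c : Ch ℤ K)
    (y : Σ n, K.K n) : onT d c y = c y • d := rfl

private lemma onT_single {K : SS} {N : Type} [AddCommGroup N] (d : N) (y : Σ n, K.K n) (r : ℤ) :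
    onT d (Finsupp.single y r : Ch ℤ K) = Finsupp.single y (r • d) := by
  classical
  ext z
  rw [onT_apply, Finsupp.single_apply, Finsupp.single_apply]
  split_ifs
  · rfl
  · exact zero_smul ℤ d

private lemma onSum {k : Type} [CommRing k] {K : SS} {N : Type} [AddCommGroup N] [Module k N]
    (d : N) (c : Ch ℤ K) :
    (c.sum (fun y r => r • (Finsupp.lsingle (R := k) y : N →ₗ[k] ChN K N))) d = onT d c := by
  induction c using Finsupp.induction_linear with
  | zero =>
    rw [Finsupp.sum_zero_index, LinearMap.zero_apply, map_zero]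
  | add a b ha hb =>
    rw [Finsupp.sum_add_index' (by intro y; exact zero_smul _ _) (by
      intro y r s; exact add_smul _ _ _), LinearMap.add_apply, ha, hb, map_add]
  | single y r =>
    have h1 := Finsupp.sum_single_index (a := y) (b := r)
      (h := fun (y : Σ n, K.K n) (r : ℤ) => r • (Finsupp.lsingle (R := k) y : N →ₗ[k] ChN K N))
      (zero_smul _ _)
    rw [h1, onT_single, LinearMap.smul_apply, Finsupp.lsingle_apply, Finsupp.smul_single]

private lemma opN_single {k : Type} [CommRing k] {K : SS} {N : Type} [AddCommGroup N] [Module k N]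
    (A : Ch ℤ K →ₗ[ℤ] Ch ℤ K) (x : Σ n, K.K n) (d : N) :
    (opN N A : ChN K N →ₗ[k] ChN K N) (Finsupp.single x d) = onT d (A (Finsupp.single x 1)) := by
  rw [← onSum (k := k)]
  simp only [opN, Finsupp.lsum_single]

private lemma opN_T {k : Type} [CommRing k] {K : SS} {N : Type} [AddCommGroup N] [Module k N]
    (A : Ch ℤ K →ₗ[ℤ] Ch ℤ K) (d : N) (c : Ch ℤ K) :
    (opN N A : ChN K N →ₗ[k] ChN K N) (onT d c) = onT d (A c) := by
  induction c using Finsupp.induction_linear with
  | zero => simp only [map_zero]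
  | add a b ha hb => rw [map_add, map_add, ha, hb, map_add, map_add]
  | single y r =>
    have h1 : onT d (Finsupp.single y r : Ch ℤ K) = r • (Finsupp.single y d : ChN K N) := by
      rw [onT_single, Finsupp.smul_single]
    have h2 : (Finsupp.single y r : Ch ℤ K) = r • Finsupp.single y 1 := by
      rw [Finsupp.smul_single, smul_eq_mul, mul_one]
    rw [h1, map_zsmul, opN_single, h2, map_smul, map_zsmul]

private lemma opN_app {k : Type} [CommRing k] {K : SS} {N : Type} [AddCommGroup N] [Module k N]
    (A : Ch ℤ K →ₗ[ℤ] Ch ℤ K) (h : ChN K N) (y : Σ n, K.K n) :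
    (opN N A : ChN K N →ₗ[k] ChN K N) h y =
      ∑ x ∈ h.support, A (Finsupp.single x 1) y • h x := by
  have h1 : (opN N A : ChN K N →ₗ[k] ChN K N) h =
      ∑ x ∈ h.support, onT (h x) (A (Finsupp.single x 1)) := by
    conv_lhs => rw [← Finsupp.sum_single h]
    rw [Finsupp.sum, map_sum]
    exact Finset.sum_congr rfl fun x _ => opN_single A x (h x)
  rw [h1, Finsupp.finsetSum_apply]
  exact Finset.sum_congr rfl fun x _ => onT_apply _ _ _

private lemma mem_gr {K : SS} {i : ℕ} {c : Ch ℤ K} (h : c ∈ gr ℤ K i) (y : Σ n, K.K n)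
    (hy : y.1 ≠ i) : c y = 0 :=
  (Finsupp.mem_supported' ℤ c).1 h y hy

theorem sOpN : S_OpN := by
  intro K k _ N _ _
  refine ⟨?_, ?_, ?_, ?_, ?_, ?_, ?_⟩
  · refine Finsupp.lhom_ext fun x d => ?_
    rw [opN_single, LinearMap.id_apply, onT_single, one_smul, LinearMap.id_apply]
  · intro A B
    refine Finsupp.lhom_ext fun x d => ?_
    rw [opN_single, LinearMap.comp_apply, LinearMap.comp_apply, opN_single, opN_T]
  · intro A B
    exact opN_add N A B
  · intro r A
    refine Finsupp.lhom_ext fun x d => ?_
    rw [opN_single, LinearMap.smul_apply, LinearMap.smul_apply, opN_single, map_zsmul]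
  · intro A i j hA h hh y hy
    rw [opN_app]
    refine Finset.sum_eq_zero fun x _ => ?_
    by_cases hx : x.1 = i
    · have h1 : (Finsupp.single x 1 : Ch ℤ K) ∈ gr ℤ K i :=
        Finsupp.single_mem_supported ℤ 1 hx
      rw [mem_gr (hA _ h1) y hy, zero_smul]
    · rw [hh x hx, smul_zero]
  · intro A i hA h hh
    ext y
    rw [opN_app]
    refine Finset.sum_eq_zero fun x _ => ?_
    by_cases hx : x.1 = i
    · have h1 : (Finsupp.single x 1 : Ch ℤ K) ∈ gr ℤ K i :=
        Finsupp.single_mem_supported ℤ 1 hx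
      rw [hA _ h1, Finsupp.coe_zero, Pi.zero_apply, zero_smul]
    · rw [hh x hx, smul_zero]
  · intro k' _ N' _ _ f A h
    induction h using Finsupp.induction_linear with
    | zero => simp only [map_zero, Finsupp.mapRange_zero]
    | add a b ha hb =>
      rw [map_add, Finsupp.mapRange_add (f.map_add), ha, hb, Finsupp.mapRange_add (f.map_add),
        map_add]
    | single x d =>
      rw [opN_single, Finsupp.mapRange_single, opN_single]
      ext y
      rw [Finsupp.mapRange_apply, onT_apply, onT_apply, map_zsmul]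

end HRx
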