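import Pool.Agent.Lib.MP_181146_gt.HR.SpecC
import Pool.Agent.Lib.MP_181146_gt.HR.OpN

/-!
# Project HR, module IoQ: the inclusion of the chains is compatible with all operators
-/

set_option autoImplicit false

namespace HRx

open HEp HPx HBy HAx

section

variable {k : Type} [CommRing k] {V : Type} [AddCommGroup V] [Module k V]

/-- The coefficient of `cirJ`. -/
private noncomputable def ioq_c (q : ℕ) (u : kˣ) (c : ℤ) : k := ((u ^ (-(c / (q : ℤ))) : kˣ) : k)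

private lemma ioq_J1 (q : ℕ) (u : kˣ) (x : V) (c : ℤ) :
    (cirJ q u x).1 c = if (q : ℤ) ∣ c then ioq_c q u c • x else 0 := rfl

private lemma ioq_J2 (q : ℕ) (u : kˣ) (x : V) (c : ℤ) : (cirJ q u x).2 c = 0 := rfl

private lemma ioq_c_sub (q : ℕ) [NeZero q] (u : kˣ) (c : ℤ) (hc : (q : ℤ) ∣ c) :
    ioq_c q u (c - q) = (u : k) * ioq_c q u c := by
  obtain ⟨t, rfl⟩ := hc
  have hq : (q : ℤ) ≠ 0 := Int.natCast_ne_zero.2 (NeZero.ne q)
  have e : (q : ℤ) * t - q = q * (t - 1) := by ring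
  unfold ioq_c
  rw [e, Int.mul_ediv_cancel_left _ hq, Int.mul_ediv_cancel_left _ hq, ← Units.val_mul,
    show -(t - 1) = 1 + -t by ring, zpow_add, zpow_one]

/-- An operator, applied to a value of `cirJ`. -/
private lemma ioq_ap (q : ℕ) (u : kˣ) (A : Module.End k V) (x : V) (c : ℤ) :
    A ((cirJ q u x).1 c) = (cirJ q u (A x)).1 c := by
  rw [ioq_J1, ioq_J1]
  split_ifs
  · exact map_smul _ _ _
  · exact map_zero _

private lemma ioq_ap0 (q : ℕ) (u : kˣ) (A : Module.End k V) (x : V) (h : A x = 0) (c : ℤ) :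
    A ((cirJ q u x).1 c) = 0 := by
  rw [ioq_ap, h, ioq_J1]
  split_ifs
  · exact smul_zero _
  · rfl

private lemma ioq_M (q : ℕ) (u : kˣ) (A : Module.End k V) (x : V) :
    cirM A (cirJ q u x) = cirJ q u (A x) := by
  refine Prod.ext ?_ ?_
  · funext c
    exact ioq_ap q u A x c
  · funext c
    exact map_zero A

private lemma ioq_S (q : ℕ) (u : kˣ) (sg : Module.End k V) (x : V) :
    cirS sg (cirJ q u x) = cirJ q u (sg x) := by
  refine Prod.ext ?_ ?_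
  · funext c
    exact ioq_ap q u sg x c
  · funext c
    change -sg 0 = 0
    rw [map_zero, neg_zero]

private lemma ioq_D (q : ℕ) (u : kˣ) (δ sg Y : Module.End k V) (x : V) (h : Y (sg x) = 0) :
    cirD q δ sg Y (cirJ q u x) = cirJ q u (δ x) := by
  refine Prod.ext ?_ ?_
  · funext c
    change δ ((cirJ q u x).1 c) + (sg 0 - sg 0) = (cirJ q u (δ x)).1 c
    rw [sub_self, add_zero, ioq_ap]
  · funext c
    change δ 0 + ∑ a ∈ Finset.range q, Y (sg ((cirJ q u x).1 (c - a))) = 0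
    rw [map_zero, zero_add]
    refine Finset.sum_eq_zero fun a _ => ?_
    rw [ioq_ap]
    exact ioq_ap0 q u Y (sg x) h _

private lemma ioq_per {Φ : Type} (q : ℕ) (f : ℤ → Φ) (hf : ∀ c, f (c + q) = f c) (c : ℤ)
    (hc : (q : ℤ) ∣ c) : f c = f 0 := by
  obtain ⟨t, rfl⟩ := hc
  have h : Function.Periodic f (q : ℤ) := hf
  have h1 := (h.int_mul t).eq
  rw [← h1]
  congr 1
  exact mul_comm _ _

private lemma ioq_X {Φ : Type} [AddCommGroup Φ] (q b : ℕ) (u : kˣ) (Y : Module.End k V)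
    (Z : Φ →+ Module.End k V) (tw : Φ →+ Φ) (φ : CF Φ) (x : V) (h : Y x = 0)
    (hφ : ∀ c, φ.1 0 (c + q) = φ.1 0 c) :
    cirX q b Y Z tw φ (cirJ q u x) = cirJ q u (Z (φ.1 0 0) x) := by
  have hp : ∀ (j : ℕ) (c : ℤ), (Y ^ (j + 1)) ((cirJ q u x).1 c) = 0 := by
    intro j c
    rw [pow_succ, Module.End.mul_apply, ioq_ap0 q u Y x h c, map_zero]
  refine Prod.ext ?_ ?_
  · funext c
    change ∑ j ∈ Finset.range (b + 1),
      (Z (φ.1 j c) ((Y ^ j) ((cirJ q u x).1 c)) + Z (φ.2 j c) ((Y ^ j) 0)) =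
      (cirJ q u (Z (φ.1 0 0) x)).1 c
    rw [Finset.sum_eq_single 0]
    · rw [map_zero, map_zero, add_zero, pow_zero, Module.End.one_apply, ioq_ap, ioq_J1, ioq_J1]
      split_ifs with hc
      · rw [ioq_per q (φ.1 0) hφ c hc]
      · rfl
    · intro j _ hj
      obtain ⟨l, rfl⟩ := Nat.exists_eq_succ_of_ne_zero hj
      rw [Nat.succ_eq_add_one, hp, map_zero, map_zero, map_zero, add_zero]
    · intro h0
      exact absurd (Finset.mem_range.2 (Nat.succ_pos b)) h0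
  · funext c
    change ∑ j ∈ Finset.range (b + 1),
      (Z (tw (φ.1 j (c + 1))) ((Y ^ j) 0) +
        ∑ s ∈ Finset.range q, ∑ a ∈ Finset.range s,
          Z (tw (φ.2 j (c - a + s))) ((Y ^ (j + 1)) ((cirJ q u x).1 (c - a)))) = 0
    refine Finset.sum_eq_zero fun j _ => ?_
    rw [map_zero, map_zero, zero_add]
    refine Finset.sum_eq_zero fun s _ => Finset.sum_eq_zero fun a _ => ?_
    rw [hp, map_zero]

private lemma ioq_G (q : ℕ) (u : kˣ) (G : ℤ → Submodule k V) (i : ℤ) (x : V) (hx : x ∈ G i) :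
    cirJ q u x ∈ cirG G i := by
  intro c
  refine ⟨?_, (G (i - 1)).zero_mem⟩
  rw [ioq_J1]
  split_ifs
  · exact (G i).smul_mem _ hx
  · exact (G i).zero_mem

private lemma ioq_Q (q : ℕ) [NeZero q] (u : kˣ) (Q : Submodule k V) (x : V) (hx : x ∈ Q) :
    cirJ q u x ∈ cirQ q (u : k) Q := by
  intro c
  refine ⟨?_, Q.zero_mem, ?_, (smul_zero _).symm⟩
  · rw [ioq_J1]
    split_ifs
    · exact Q.smul_mem _ hx
    · exact Q.zero_mem
  · rw [ioq_J1, ioq_J1]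
    by_cases hc : (q : ℤ) ∣ c
    · rw [if_pos hc, if_pos (dvd_sub_self_right.2 hc), ioq_c_sub q u c hc, mul_smul]
    · rw [if_neg hc, if_neg (fun h => hc (dvd_sub_self_right.1 h)), smul_zero]

end

/-! ## The iteration -/

section

variable {k : Type} [CommRing k] {H : Type} {F : FS H} (M : MS k H F) (q b : ℕ) (ix : ℕ → ℕ)
  (u : ℕ → kˣ) (ρ : ℕ → H → ℤ)

private lemma ioq_iY (i : ℕ) : ∀ (n : ℕ) (x : M.V),
    (mit M q b ix (fun i => (u i : k)) ρ n).Y i (itJ M q b ix u ρ n x) =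
      itJ M q b ix u ρ n (M.Y i x)
  | 0, _ => rfl
  | n + 1, x => by
    change cirM ((mit M q b ix (fun i => (u i : k)) ρ n).Y i)
      (cirJ q (u (ix n)) (itJ M q b ix u ρ n x)) = cirJ q (u (ix n)) (itJ M q b ix u ρ n (M.Y i x))
    rw [ioq_M, ioq_iY i n x]

private lemma ioq_iW : ∀ (n : ℕ) (x : M.V),
    (mit M q b ix (fun i => (u i : k)) ρ n).Ξ (itJ M q b ix u ρ n x) =
      itJ M q b ix u ρ n (M.Ξ x)
  | 0, _ => rfl
  | n + 1, x => by
    change cirM ((mit M q b ix (fun i => (u i : k)) ρ n).Ξ)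
      (cirJ q (u (ix n)) (itJ M q b ix u ρ n x)) = cirJ q (u (ix n)) (itJ M q b ix u ρ n (M.Ξ x))
    rw [ioq_M, ioq_iW n x]

private lemma ioq_iS : ∀ (n : ℕ) (x : M.V),
    (mit M q b ix (fun i => (u i : k)) ρ n).sg (itJ M q b ix u ρ n x) =
      itJ M q b ix u ρ n (M.sg x)
  | 0, _ => rfl
  | n + 1, x => by
    change cirS ((mit M q b ix (fun i => (u i : k)) ρ n).sg)
      (cirJ q (u (ix n)) (itJ M q b ix u ρ n x)) = cirJ q (u (ix n)) (itJ M q b ix u ρ n (M.sg x))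
    rw [ioq_S, ioq_iS n x]

private lemma ioq_iD (x : M.V) (hx : ∀ i, M.Y i (M.sg x) = 0) : ∀ n : ℕ,
    (mit M q b ix (fun i => (u i : k)) ρ n).δ (itJ M q b ix u ρ n x) =
      itJ M q b ix u ρ n (M.δ x)
  | 0 => rfl
  | n + 1 => by
    change cirD q ((mit M q b ix (fun i => (u i : k)) ρ n).δ)
      ((mit M q b ix (fun i => (u i : k)) ρ n).sg)
      ((mit M q b ix (fun i => (u i : k)) ρ n).Y (ix n))
      (cirJ q (u (ix n)) (itJ M q b ix u ρ n x)) = cirJ q (u (ix n)) (itJ M q b ix u ρ n (M.δ x))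
    rw [ioq_D, ioq_iD x hx n]
    rw [ioq_iS, ioq_iY, hx, map_zero]

private lemma ioq_iZ (x : M.V) (hx : ∀ i, M.Y i x = 0) : ∀ (n : ℕ)
    (φ : (fit F q ix ρ n).Φ), φ ∈ (fit F q ix ρ n).Pr →
    (mit M q b ix (fun i => (u i : k)) ρ n).Z φ (itJ M q b ix u ρ n x) =
      itJ M q b ix u ρ n (M.Z (vx q ix ρ n φ) x)
  | 0, _, _ => rfl
  | n + 1, φ, hφ => by
    change cirX q b ((mit M q b ix (fun i => (u i : k)) ρ n).Y (ix n))
      ((mit M q b ix (fun i => (u i : k)) ρ n).Z) (fit F q ix ρ n).tw φ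
      (cirJ q (u (ix n)) (itJ M q b ix u ρ n x)) =
      cirJ q (u (ix n)) (itJ M q b ix u ρ n (M.Z (vx q ix ρ n (φ.1 0 0)) x))
    rw [ioq_X q b (u (ix n)) _ _ _ φ _ (by rw [ioq_iY, hx, map_zero]) (fun c => (hφ 0 c).2.2.1),
      ioq_iZ x hx n (φ.1 0 0) (hφ 0 0).1]

private lemma ioq_iG (i : ℤ) (x : M.V) (hx : x ∈ M.G i) : ∀ n : ℕ,
    itJ M q b ix u ρ n x ∈ (mit M q b ix (fun i => (u i : k)) ρ n).G i
  | 0 => hx
  | n + 1 => ioq_G q (u (ix n)) _ i _ (ioq_iG i x hx n)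

private lemma ioq_iQ [NeZero q] (x : M.V) (hx : x ∈ M.Q) : ∀ n : ℕ,
    itJ M q b ix u ρ n x ∈ (mit M q b ix (fun i => (u i : k)) ρ n).Q
  | 0 => hx
  | n + 1 => ioq_Q q (u (ix n)) _ _ (ioq_iQ x hx n)

private lemma ioq_vx (d : ℤ) : ∀ (n : ℕ) (φ : (fit F q ix ρ n).Φ), φ ∈ (fit F q ix ρ n).Dg d →
    vx q ix ρ n φ ∈ F.Dg d
  | 0, _, hφ => hφ
  | n + 1, φ, hφ => by
    refine ioq_vx d n (φ.1 0 0) ?_
    have h := (hφ 0 0).1
    rw [Nat.cast_zero, mul_zero, sub_zero] at h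
    exact h

end

/-! ## The base -/

section

variable {k : Type} [CommRing k] {K : SS} {D : DM k} {F : Type} [CommRing F] (e : F →+ D.D 0)

private lemma ioq_y (i : ℕ) (h : ChN K F) : yD K D i (chZ K D e h) = 0 := by
  funext j
  change Finsupp.mapRange.linearMap (D.Y i j)
    ((Pi.single 0 (Finsupp.mapRange e e.map_zero h) : ChD K D) (j + 1)) = 0
  rw [Pi.single_eq_of_ne (Nat.succ_ne_zero j), map_zero]

private lemma ioq_o (A : Ch ℤ K →ₗ[ℤ] Ch ℤ K) (h : ChN K F) :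
    opD D A (chZ K D e h) = chZ K D e ((opN F A : ChN K F →ₗ[F] ChN K F) h) := by
  funext j
  change (opN (D.D j) A : ChN K (D.D j) →ₗ[k] ChN K (D.D j))
    ((Pi.single 0 (Finsupp.mapRange e e.map_zero h) : ChD K D) j) =
    (Pi.single 0 (Finsupp.mapRange e e.map_zero ((opN F A : ChN K F →ₗ[F] ChN K F) h)) :
      ChD K D) j
  cases j with
  | zero =>
    rw [Pi.single_eq_same, Pi.single_eq_same]
    exact ((sOpN K F F).2.2.2.2.2.2 k (D.D 0) e A h).symm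
  | succ j =>
    rw [Pi.single_eq_of_ne (Nat.succ_ne_zero j), Pi.single_eq_of_ne (Nat.succ_ne_zero j), map_zero]

end

section

variable {K : SS}

private lemma ioq_odd (n : ℕ) (hn : Odd n) (φ : Ch ℤ K →ₗ[ℤ] ℤ)
    (h : ∀ i : ℕ, (i : ℤ) ≠ (n : ℤ) → ∀ y ∈ gr ℤ K i, φ y = 0) : φ ∘ₗ od ℤ K = φ := by
  apply Finsupp.lhom_ext'
  rintro ⟨i, x⟩
  apply LinearMap.ext_ring
  change φ (od ℤ K (sx ℤ x)) = φ (sx ℤ x)
  rw [od_sx]
  by_cases hi : Odd i
  · rw [if_pos hi]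
  · rw [if_neg hi, map_zero, h i (fun e => hi (by rwa [Int.natCast_inj.1 e])) _ (sx_mem_gr ℤ x)]

private lemma ioq_cap0 : cap (0 : Ch ℤ K →ₗ[ℤ] ℤ) = 0 := by
  apply LinearMap.ext
  intro y
  have h := lx_add (0 : Ch ℤ K →ₗ[ℤ] ℤ) 0 (dl ℤ K y)
  rw [add_zero] at h
  change lx 0 (dl ℤ K y) = 0
  exact left_eq_add.1 h

private lemma ioq_ss (a : Ch ℤ K) : sgC K (sgC K a) = a := by
  change a - (2 : ℤ) • od ℤ K a - (2 : ℤ) • od ℤ K (a - (2 : ℤ) • od ℤ K a) = a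
  rw [map_sub, map_smul, od_od]
  module

private lemma ioq_sX (n : ℕ) (hn : Odd n) (φ : Ch ℤ K →ₗ[ℤ] ℤ)
    (h : ∀ i : ℕ, (i : ℤ) ≠ (n : ℤ) → ∀ y ∈ gr ℤ K i, φ y = 0) :
    sgC K ∘ₗ Xc φ = cap φ := by
  have h1 := ioq_odd n hn φ h
  have h2 : φ ∘ₗ (LinearMap.id - od ℤ K) = 0 := by
    rw [LinearMap.comp_sub, h1, LinearMap.comp_id, sub_self]
  have h3 : Xc φ = sgC K ∘ₗ cap φ := by
    rw [Xc, h2, h1, ioq_cap0, zero_add]
  rw [h3]
  apply LinearMap.ext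
  intro y
  exact ioq_ss _

end

theorem sIoQ (hCFo : S_CFo) : S_IoQ := by
  intro G _ g k _ u D hD F _ e
  have hY : ∀ (x : ChN g.K F) (i : ℕ), (g.M0 D).Y i (chZ g.K D e x) = 0 := fun x i => ioq_y e i x
  have hS : ∀ x : ChN g.K F, (g.M0 D).sg (chZ g.K D e x) =
    chZ g.K D e ((opN F (sgC g.K) : ChN g.K F →ₗ[F] ChN g.K F) x) := fun x => ioq_o e _ x
  refine ⟨?_, ?_, ?_, ?_, ?_, ?_⟩
  · intro x
    exact ioq_iQ (g.M0 D) g.q g.b (rv g.m) u (rho g.q g.ψ) _ trivial g.m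
  · intro i x hx
    refine ioq_iG (g.M0 D) g.q g.b (rv g.m) u (rho g.q g.ψ) i _ ?_ g.m
    have hx' := (Finsupp.mem_supported' F (p := (x : Ch F g.K))).1 hx
    intro j y hy
    cases j with
    | zero =>
      change e (DFunLike.coe (F := Ch F g.K) x y) = 0
      refine (congrArg e (hx' y (fun h => hy ?_))).trans (map_zero e)
      have h' : (y.1 : ℤ) = i := h
      rw [h', Nat.cast_zero, mul_zero, add_zero]
    | succ j =>
      change (Pi.single 0 (Finsupp.mapRange e e.map_zero x) : ChD g.K D) (j + 1) y = 0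
      rw [Pi.single_eq_of_ne (Nat.succ_ne_zero j)]
      rfl
  · intro x
    refine (ioq_iD (g.M0 D) g.q g.b (rv g.m) u (rho g.q g.ψ) (chZ g.K D e x) (fun i =>
      (congrArg ((g.M0 D).Y i) (hS x)).trans (hY _ i)) g.m).trans ?_
    refine congrArg (itJ (g.M0 D) g.q g.b (rv g.m) u (rho g.q g.ψ) g.m) ?_
    exact (ioq_o e (bd ℤ g.K) x).trans (congrArg (chZ g.K D e) ((hCFo g.K F).1 x))
  · intro x
    refine (ioq_iW (g.M0 D) g.q g.b (rv g.m) u (rho g.q g.ψ) g.m (chZ g.K D e x)).trans ?_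
    exact congrArg (itJ (g.M0 D) g.q g.b (rv g.m) u (rho g.q g.ψ) g.m) (ioq_o e g.a x)
  · intro x
    have h0 : ∀ i : ℕ, (i : ℤ) ≠ (g.n : ℤ) → ∀ y ∈ gr ℤ g.K i, g.v0 y = 0 :=
      ioq_vx (F := g.F0) g.q (rv g.m) (rho g.q g.ψ) g.n g.m g.v g.vD
    refine (congrArg (g.M (fun i => (u i : k)) D).sg (ioq_iZ (g.M0 D) g.q g.b (rv g.m) u
      (rho g.q g.ψ) (chZ g.K D e x) (hY x) g.m g.V g.vP)).trans ?_
    refine (ioq_iS (g.M0 D) g.q g.b (rv g.m) u (rho g.q g.ψ) g.m _).trans ?_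
    refine congrArg (itJ (g.M0 D) g.q g.b (rv g.m) u (rho g.q g.ψ) g.m) ?_
    change opD D (sgC g.K) (opD D (Xc g.v0) (chZ g.K D e x)) = _
    rw [ioq_o, ioq_o, ← ioq_sX g.n g.n1 g.v0 h0, (sOpN g.K F F).2.1]
    rfl
  · intro r c hc x
    refine (congrArg (itJ (g.M0 D) g.q g.b (rv g.m) u (rho g.q g.ψ) g.m) ?_).trans
      (map_smul (itJ (g.M0 D) g.q g.b (rv g.m) u (rho g.q g.ψ) g.m) c (chZ g.K D e x))
    funext j
    cases j with
    | zero =>
      change Finsupp.mapRange e e.map_zero (r • x) = c • Finsupp.mapRange e e.map_zero x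
      refine Finsupp.ext fun y => ?_
      change e (r * x y) = c • e (x y)
      exact hc _
    | succ j =>
      change (Pi.single 0 (Finsupp.mapRange e e.map_zero (r • x)) : ChD g.K D) (j + 1) =
        c • (Pi.single 0 (Finsupp.mapRange e e.map_zero x) : ChD g.K D) (j + 1)
      rw [Pi.single_eq_of_ne (Nat.succ_ne_zero j), Pi.single_eq_of_ne (Nat.succ_ne_zero j),
        smul_zero]

end HRx
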