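import Pool.Agent.Lib.MP_181146_gt.HR.SpecC

/-!
# Project HR, part C: OutI, the inclusion of the chains is a quasi-isomorphism
-/

set_option autoImplicit false
set_option linter.unusedVariables false

namespace HRx

open HEp HPx HBy HAx

section Aux

variable {k k' : Type} [CommRing k] [CommRing k']

private lemma oi_cirF {V V' : Type} [AddCommGroup V] [AddCommGroup V'] [Module k V] [Module k' V']
    (f : V →+ V') (q : ℕ) (u : kˣ) (hf : ∀ (n : ℤ) (x : V), f (((u ^ n : kˣ) : k) • x) = f x)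
    (x : V) : cirF f (cirJ q u x) = cirJ q (1 : k'ˣ) (f x) := by
  refine Prod.ext ?_ ?_
  · funext c
    change f (if (q : ℤ) ∣ c then ((u ^ (-(c / (q : ℤ))) : kˣ) : k) • x else 0) =
      if (q : ℤ) ∣ c then (((1 : k'ˣ) ^ (-(c / (q : ℤ))) : k'ˣ) : k') • f x else 0
    split_ifs
    · rw [hf, one_zpow, Units.val_one, one_smul]
    · exact map_zero f
  · funext c
    exact map_zero f

private lemma oi_pow {σ : k →+* k'} (u : kˣ) (hu : σ (u : k) = 1) (l : ℤ) :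
    σ ((u ^ l : kˣ) : k) = 1 := by
  have e : Units.map (σ : k →* k') u = 1 := Units.ext hu
  have e2 : Units.map (σ : k →* k') (u ^ l) = 1 := by rw [map_zpow, e, one_zpow]
  exact congrArg Units.val e2

private lemma oi_mF {G : Type} [CommGroup G] (g : GD G) {σ : k →+* k'} {D : DM k} {D' : DM k'}
    (f : DHom σ D D') (u : ℕ → kˣ) (hu : ∀ i, σ (u i : k) = 1) (x : ChD g.K D) : ∀ n : ℕ,
    g.mF f (fun i => (u i : k)) (fun _ => (1 : k')) n
      (itJ (g.M0 D) g.q g.b (rv g.m) u (rho g.q g.ψ) n x) =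
    itJ (g.M0 D') g.q g.b (rv g.m) (fun _ => (1 : k'ˣ)) (rho g.q g.ψ) n (f.ch g.K x)
  | 0 => rfl
  | n + 1 => by
    have ih := oi_mF g f u hu x n
    have h4 := (g.mF_all f (fun i => (u i : k)) (fun _ => (1 : k')) hu n).2.2.2
    refine (oi_cirF (k := k) (k' := k') (g.mF f (fun i => (u i : k)) (fun _ => (1 : k')) n) g.q
      (u (rv g.m n)) (fun l y => ?_)
      (itJ (g.M0 D) g.q g.b (rv g.m) u (rho g.q g.ψ) n x)).trans (congrArg (cirJ g.q 1) ih)
    rw [h4, oi_pow _ (hu _), one_smul]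

private lemma oi_N {V : Type} [AddCommGroup V] [Module k V] (q : ℕ) (hq : 0 < q) (y : V) :
    cirN (k := k) q (cirJ q (1 : kˣ) y) = y := by
  change ∑ c ∈ Finset.range q, (if (q : ℤ) ∣ ((c : ℕ) : ℤ) then
    (((1 : kˣ) ^ (-(((c : ℕ) : ℤ) / (q : ℤ))) : kˣ) : k) • y else 0) = y
  rw [Finset.sum_eq_single 0]
  · rw [if_pos (by simp), one_zpow, Units.val_one, one_smul]
  · intro c hc h0
    rw [if_neg]
    intro hd
    have h1 : q ∣ c := Int.natCast_dvd_natCast.1 hd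
    exact absurd (Nat.le_of_dvd (Nat.pos_of_ne_zero h0) h1) (not_le.2 (Finset.mem_range.1 hc))
  · intro h
    exact absurd (Finset.mem_range.2 hq) h

private lemma oi_itN {H : Type} {F : FS H} (M : MS k H F) (q b : ℕ) (hq : 0 < q) (ix : ℕ → ℕ)
    (ρ : ℕ → H → ℤ) (x : M.V) : ∀ n : ℕ, itN M q b ix (fun _ => (1 : k)) ρ n
      (itJ M q b ix (fun _ => (1 : kˣ)) ρ n x) = x
  | 0 => rfl
  | n + 1 => (congrArg (itN M q b ix (fun _ => (1 : k)) ρ n)
      (oi_N q hq (itJ M q b ix (fun _ => (1 : kˣ)) ρ n x))).trans (oi_itN M q b hq ix ρ x n)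

private lemma oi_chZ {N : Type} [AddCommGroup N] (K : SS) {σ : k →+* k'} {D : DM k} {D' : DM k'}
    (f : DHom σ D D') (e : N →+ D.D 0) (h : ChN K N) :
    f.ch K (chZ K D e h) = chZ K D' ((f.f 0).comp e) h := by
  funext j
  refine Finsupp.ext fun y => ?_
  change f.f j ((Pi.single 0 (Finsupp.mapRange e e.map_zero h) : ChD K D) j y) =
    (Pi.single 0 (Finsupp.mapRange ((f.f 0).comp e) ((f.f 0).comp e).map_zero h) : ChD K D') j y
  cases j with
  | zero => rw [Pi.single_eq_same, Pi.single_eq_same]; rfl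
  | succ j =>
    rw [Pi.single_eq_of_ne (Nat.succ_ne_zero j), Pi.single_eq_of_ne (Nat.succ_ne_zero j)]
    exact map_zero (f.f (j + 1))

private lemma oi_two {R R' R'' : Type} [CommRing R] [CommRing R'] [CommRing R''] {T1 : GC R}
    {T : GC R'} {T' : GC R''} (ι : T1.V →+ T.V) (q : T.V →+ T'.V) (p : T'.V →+ T1.V)
    (hι : IsCh T1 T ι) (hq : IsQI T T' q) (hp : IsQI T' T1 p) (hid : ∀ x, p (q (ι x)) = x) :
    IsQI T1 T ι := by
  refine ⟨hι, ?_, ?_⟩
  · rintro i x hx ⟨y, hy, hyx⟩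
    refine ⟨p (q y), hp.1.1 _ _ (hq.1.1 _ _ hy), ?_⟩
    rw [← hp.1.2, ← hq.1.2, hyx, hid]
  · rintro i y ⟨hy, hdy⟩
    have h1 : T1.Cyc i (p (q y)) := by
      refine ⟨hp.1.1 _ _ (hq.1.1 _ _ hy), ?_⟩
      rw [← hp.1.2, ← hq.1.2, hdy, map_zero, map_zero]
    refine ⟨p (q y), h1, ?_⟩
    have h2 : T.Cyc i (y - ι (p (q y))) := by
      refine ⟨(T.G i).sub_mem hy (hι.1 _ _ h1.1), ?_⟩
      rw [map_sub, hdy, ← hι.2, h1.2, map_zero, sub_zero]
    refine hq.2.1 i _ h2 (hp.2.1 i _ ⟨hq.1.1 _ _ h2.1, ?_⟩ ?_)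
    · rw [← hq.1.2, h2.2, map_zero]
    · refine ⟨0, (T1.G _).zero_mem, ?_⟩
      rw [map_zero, map_sub, map_sub, hid, sub_self]

end Aux

private lemma oi_key {G : Type} [CommGroup G] (g : GD G) {F : Type} [CommRing F] (hIoQ : S_IoQ)
    (hV0d : S_V0d) (u : ℕ → (PowerSeries F)ˣ) (z : ℕ → PowerSeries F)
    (hu : (fun i => (u i : PowerSeries F)) = z)
    (zc : ∀ i, PowerSeries.constantCoeff (z i) = 1)
    (DS : DM (PowerSeries F)) (hDS : DS.Comm) (D Du : DM F) (hS : g.PS z zc DS) (pD : g.P0 D)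
    (pDu : g.P0 Du) (r : DHom (PowerSeries.constantCoeff (R := F)) DS D)
    (j : DHom (RingHom.id F) D Du) (x0 : DS.D 0) (e0 : Du.D 0 →ₗ[F] F)
    (hx : e0 (j.f 0 (r.f 0 x0)) = 1)
    (hQ : IsQI (g.QS z zc DS hS) (g.Qc Du pDu) ((g.qc pD pDu j).comp (g.qs z zc hS pD r)))
    (hp : IsQI ((g.N Du).gc pDu.dif) (HAx.CF g.K F)
      ((g.pr (fun _ => (1 : F)) Du e0 ∘ₗ (g.N Du).Q.subtype).toAddMonoidHom)) :
    ∃ (E1 : En (HAx.CF g.K F)) (ι : (HAx.CF g.K F).V →+ (g.QS z zc DS hS).V),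
      (∀ y : Ch F g.K, E1.e y = (opN F (cap g.v0 ∘ₗ g.a) : ChN g.K F →ₗ[F] ChN g.K F) y) ∧
      (∀ (r : F) x, ι (r • x) = twI (g.co z zc) r • ι x) ∧
      IsQI (HAx.CF g.K F) (g.QS z zc DS hS) ι ∧
      ∀ x, ι (E1.e x) = (cE (g.CS z zc DS hS)).e (ι x) := by
  subst hu
  obtain ⟨-, -, E1, hE1⟩ := hV0d G g F
  let e : F →+ DS.D 0 := AddMonoidHom.mk' (fun y => PowerSeries.C y • x0)
    (fun y y' => by rw [map_add, add_smul])
  obtain ⟨i1, i2, i3, i4, i5, i6⟩ := hIoQ G g (PowerSeries F) u DS hDS F e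
  let ι : (HAx.CF g.K F).V →+ (g.QS (fun i => (u i : PowerSeries F)) zc DS hS).V :=
    AddMonoidHom.mk' (fun x => (⟨g.io u DS e x, i1 x⟩ :
      (g.M (fun i => (u i : PowerSeries F)) DS).Q)) (fun x y => Subtype.ext (map_add _ x y))
  obtain ⟨-, o2, -, -, -, -, -⟩ := pOpN g.K F F
  have hch : IsCh (HAx.CF g.K F) (g.QS (fun i => (u i : PowerSeries F)) zc DS hS) ι :=
    ⟨fun i x hx => i2 i x hx, fun x => Subtype.ext (i3 x).symm⟩
  -- the composition with the projection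
  have hid : ∀ x : (HAx.CF g.K F).V,
      g.pr (fun _ => (1 : F)) Du e0 (g.mF j (fun _ => (1 : F)) (fun _ => (1 : F)) g.m
        (g.mF r (fun i => (u i : PowerSeries F)) (fun _ => (1 : F)) g.m (g.io u DS e x))) = x := by
    intro x
    have a1 := (oi_mF g r u zc (chZ g.K DS e x) g.m).trans
      (congrArg (itJ (g.M0 D) g.q g.b (rv g.m) (fun _ => (1 : Fˣ)) (rho g.q g.ψ) g.m)
        (oi_chZ g.K r e x))
    have a2 := (oi_mF g j (fun _ => (1 : Fˣ)) (fun _ => rfl)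
      (chZ g.K D ((r.f 0).comp e) x) g.m).trans
      (congrArg (itJ (g.M0 Du) g.q g.b (rv g.m) (fun _ => (1 : Fˣ)) (rho g.q g.ψ) g.m)
        (oi_chZ g.K j ((r.f 0).comp e) x))
    have a3 := (congrArg (g.mF j (fun _ => (1 : F)) (fun _ => (1 : F)) g.m) a1).trans a2
    refine (congrArg (g.pr (fun _ => (1 : F)) Du e0) a3).trans ?_
    have a4 := oi_itN (g.M0 Du) g.q g.b (Nat.pos_of_ne_zero (NeZero.ne g.q)) (rv g.m)
      (rho g.q g.ψ) (chZ g.K Du ((j.f 0).comp ((r.f 0).comp e)) x) g.m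
    refine (congrArg (fun y : ChD g.K Du => Finsupp.mapRange.linearMap e0 (y 0)) a4).trans ?_
    refine Finsupp.ext fun y => ?_
    have a5 : ∀ t : F, e0 (j.f 0 (r.f 0 (PowerSeries.C t • x0))) = t := by
      intro t
      rw [r.fs, j.fs, map_smul, hx, RingHom.id_apply, PowerSeries.constantCoeff_C, smul_eq_mul,
        mul_one]
    change e0 ((Pi.single 0 (Finsupp.mapRange ((j.f 0).comp ((r.f 0).comp e))
      ((j.f 0).comp ((r.f 0).comp e)).map_zero x) : ChD g.K Du) 0 y) = (show Ch F g.K from x) y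
    rw [Pi.single_eq_same]
    exact a5 _
  refine ⟨E1, ι, hE1, ?_, oi_two (T' := g.Qc Du pDu) ι _ _ hch hQ hp hid, ?_⟩
  · intro t x
    have b1 := i6 t (PowerSeries.C t) (fun y => by
      change PowerSeries.C (t * y) • x0 = PowerSeries.C t • (PowerSeries.C y • x0)
      rw [map_mul, mul_smul]) x
    refine (Subtype.ext b1 : ι (t • x) = (PowerSeries.C t •
      (show ((g.M (fun i => (u i : PowerSeries F)) DS).gc hS.dif).V from ι x))).trans ?_
    exact (congrArg (fun f : Module.End (PowerSeries F)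
      ((g.M (fun i => (u i : PowerSeries F)) DS).gc hS.dif).V => f (ι x))
      (HHx.TW.act_algebraMap (g.co (fun i => (u i : PowerSeries F)) zc)
        ((g.M (fun i => (u i : PowerSeries F)) DS).vg hS.dif hS.gp)
        ((g.M (fun i => (u i : PowerSeries F)) DS).vg_one hS.dif hS.gp)
        ((g.M (fun i => (u i : PowerSeries F)) DS).vg_mul hS.dif hS.gp)
        (PowerSeries.C t))).symm
  · intro x
    refine Subtype.ext ?_
    have c1 : E1.e x = (opN F (cap g.v0) : ChN g.K F →ₗ[F] ChN g.K F)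
        ((opN F g.a : ChN g.K F →ₗ[F] ChN g.K F) x) :=
      (hE1 x).trans (LinearMap.congr_fun (o2 (cap g.v0) g.a) x)
    refine (congrArg (g.io u DS e) c1).trans ((i5 _).symm.trans ?_)
    exact congrArg (fun y => (g.M (fun i => (u i : PowerSeries F)) DS).sg
      ((g.M (fun i => (u i : PowerSeries F)) DS).Z g.V y)) (i4 x).symm

theorem sOutI (hIoQ : S_IoQ) (hV0d : S_V0d) (hPrj : S_Prj) (hSMQ : S_SMQ) : S_OutI := by
  intro G _ g F _ P hm C e0 he0
  have hu : ∀ i, IsUnit (P.z i) := fun i => by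
    rw [PowerSeries.isUnit_iff_constantCoeff, P.zc]
    exact isUnit_one
  obtain ⟨w, hw⟩ := he0.2 1
  obtain ⟨y, hy⟩ := (P.jk 0 w).1 (by
    rw [LinearMap.sum_apply]
    refine Finset.sum_eq_zero fun i _ => ?_
    rw [LinearMap.smul_apply, DM.tY_single_zero, smul_zero])
  obtain ⟨x0, hx0⟩ := P.rs 0 y
  exact oi_key g hIoQ hV0d (fun i => (hu i).unit) P.z rfl P.zc P.DS P.fl.comm P.D P.Du P.pS
    P.pD.p0 P.pDu P.r P.j x0 e0 (by rw [hx0, hy, hw]) (hSMQ G g F P hm)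
    (hPrj G g F P.Du P.cDu C e0 he0 P.pDu.dif).1

end HRx
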