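import Pool.Agent.Lib.MP_181146_gt.HR.SpecC
import Pool.Agent.Lib.MP_181146_gt.HB.Seq

/-!
# Project HR, PfK: perfectness descends to kernels
-/

set_option autoImplicit false

namespace HRx

open HEp HPx HBy HAx

section

variable {G : Type} [CommGroup G] (g : GD G) {k : Type} [CommRing k] (D : DM k)

private theorem PfK_mc (w : ℕ) (T : Module.End k D.Sq)
    (hY : ∀ i x, (opW g.K D w T).toAddMonoidHom ((g.M0 D).Y i x) =
      (g.M0 D).Y i ((opW g.K D w T).toAddMonoidHom x)) :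
    MC (g.M0 D) (g.M0 D) (opW g.K D w T).toAddMonoidHom := by
  have h := pOpN g.K k
  refine ⟨fun x => ?_, fun x => ?_, hY, fun φ x => ?_, fun x => ?_, fun γ x => ?_⟩
  · funext j
    exact (h (D.D (j + w))).2.2.2.2.2.2 k (D.D j)
      (LinearMap.proj j ∘ₗ T ∘ₗ LinearMap.single k D.D (j + w)).toAddMonoidHom (bd ℤ g.K) (x (j + w))
  · funext j
    exact (h (D.D (j + w))).2.2.2.2.2.2 k (D.D j)
      (LinearMap.proj j ∘ₗ T ∘ₗ LinearMap.single k D.D (j + w)).toAddMonoidHom (sgC g.K) (x (j + w))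
  · funext j
    exact (h (D.D (j + w))).2.2.2.2.2.2 k (D.D j)
      (LinearMap.proj j ∘ₗ T ∘ₗ LinearMap.single k D.D (j + w)).toAddMonoidHom (Xc φ) (x (j + w))
  · funext j
    exact (h (D.D (j + w))).2.2.2.2.2.2 k (D.D j)
      (LinearMap.proj j ∘ₗ T ∘ₗ LinearMap.single k D.D (j + w)).toAddMonoidHom g.a (x (j + w))
  · funext j
    exact (h (D.D (j + w))).2.2.2.2.2.2 k (D.D j)
      (LinearMap.proj j ∘ₗ T ∘ₗ LinearMap.single k D.D (j + w)).toAddMonoidHom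
      (cmap ℤ (g.alH γ)) (x (j + w))

end

theorem sPfK (hExJ : S_ExJ) : S_PfK := by
  intro G _ g k _ D' D j ji T hT w hlow hhom hsur hk h' h hP
  have e0 := hExJ G g k D' D j ji T hT w hlow hhom hsur hk
  have hmc := PfK_mc g D w T e0.bY
  have hq : 0 < g.q := Nat.pos_of_ne_zero (NeZero.ne g.q)
  have hu : ∀ i : ℕ, IsUnit ((fun _ => 1 : ℕ → k) i) := fun _ => isUnit_one
  have e1 := pExI k k k (Gam g.q g.ψ) g.F0 (g.M0 D') (g.M0 D) (g.M0 D) (2 * (w : ℤ)) (j.ch g.K)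
    (opW g.K D w T).toAddMonoidHom e0 g.q hq g.b (rv g.m) (fun _ => 1) (fun _ => 1) (fun _ => 1)
    hu hu (fun i x => by rw [one_smul, one_smul]) (fun i x => by rw [one_smul, one_smul])
    (rho g.q g.ψ) g.m
  have e2 := pExS k k k (Gam g.q g.ψ) g.F (g.N D') (g.N D) (g.N D) (2 * (w : ℤ)) _ _ e1 h'.dif
    h.dif h.dif
  obtain ⟨m1, -, -, m4⟩ := pMCm k k (Gam g.q g.ψ) g.F0 (g.M0 D) (g.M0 D)
    (opW g.K D w T).toAddMonoidHom hmc g.q g.b (rv g.m) (fun _ => (1 : k)) (fun _ => (1 : k))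
    (fun i x => by rw [one_smul, one_smul]) (rho g.q g.ψ) g.m
  let bq : (g.Qc D h).V →+ (g.Qc D h).V := qm h.dif h.dif _ e1.bQ
  let b : (g.Qc D h).V →ₗ[MonoidAlgebra k G] ((g.Qc D h).sh (2 * (w : ℤ))).V :=
    { toFun := bq
      map_add' := bq.map_add
      map_smul' := fun a x => by
        have h1 := GAct.th_map (σ := RingHom.id k) ((g.N D).ga h.dif h.gp) ((g.N D).ga h.dif h.gp) bq
          (fun r x => Subtype.ext (m4 r r (fun x => (opW g.K D w T).map_smul r x) x.1))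
          (fun γ x => Subtype.ext (m1.fA _ x.1)) a x
        rw [MonoidAlgebra.mapRingHom_id] at h1
        exact h1 }
  have e3 : SES (g.Qc D' h') (g.Qc D h) ((g.Qc D h).sh (2 * (w : ℤ)))
      (g.ql j h' h).toAddMonoidHom b.toAddMonoidHom :=
    ⟨e2.cha, e2.chb, e2.inj, e2.ba, e2.ex, e2.sur⟩
  obtain ⟨U, u, hu⟩ := hP
  have hE : (g.Qc D h).HasEC U.EC := ⟨U, u, hu, rfl⟩
  obtain ⟨U', u', hu', -⟩ := (sECx _ _ _ _ _ _ e3).2.1 _ _ hE ((sECs _ _ _ hE).2 (2 * (w : ℤ)))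
  exact ⟨U', u', hu'⟩

end HRx
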