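import Pool.Agent.Lib.MP_181146_gt.HR.SpecC
import Pool.Agent.Lib.MP_181146_gt.HH.TGood
import Pool.Agent.Lib.MP_181146_gt.HB.Up

/-!
# Project HR, module PfS: the complex over the twisted group ring is perfect
-/

set_option autoImplicit false

namespace HRx

open HEp HPx HBy HAx

section

variable {F G : Type} [CommRing F] [CommGroup G] (c : HHx.Cocy F G)

private lemma PfS_surj : Function.Surjective (HHx.TW.phi c) := by
  intro y
  induction y using MonoidAlgebra.induction_linear with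
  | zero => exact ⟨0, map_zero _⟩
  | add a b ha hb =>
    obtain ⟨x, rfl⟩ := ha
    obtain ⟨y, rfl⟩ := hb
    exact ⟨x + y, map_add _ _ _⟩
  | single g r =>
    refine ⟨HHx.TW.sg c g (PowerSeries.C r), ?_⟩
    rw [HHx.TW.phi_sg, PowerSeries.constantCoeff_C]

private lemma PfS_nzd (x : HHx.TW c) (hx : HHx.TW.s c * x = 0) : x = 0 := by
  apply (HHx.TW.coef c).injective
  rw [map_zero]
  ext1 g
  have h := HHx.TGood.coef_s_mul c x g
  rw [hx, map_zero, Finsupp.zero_apply] at h
  rw [Finsupp.zero_apply]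
  refine PowerSeries.X_mul_cancel ?_
  rw [← h, mul_zero]

/-- Division by `X`, without the constant coefficient. -/
private noncomputable def PfS_sh (f : PowerSeries F) : PowerSeries F :=
  PowerSeries.mk fun n => PowerSeries.coeff (n + 1) f

private lemma PfS_sh_zero : PfS_sh (0 : PowerSeries F) = 0 := by
  ext n
  rw [PfS_sh, PowerSeries.coeff_mk, map_zero, map_zero]

private lemma PfS_X_sh (f : PowerSeries F) (h : PowerSeries.constantCoeff f = 0) :
    (PowerSeries.X : PowerSeries F) * PfS_sh f = f := by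
  have h1 := PowerSeries.eq_X_mul_shift_add_const f
  rw [h, map_zero, add_zero] at h1
  exact h1.symm

private lemma PfS_ker (x : HHx.TW c) : HHx.TW.phi c x = 0 ↔ ∃ y, x = HHx.TW.s c * y := by
  constructor
  · intro hx
    have h1 : ∀ g, PowerSeries.constantCoeff (HHx.TW.coef c x g) = 0 := by
      intro g
      rw [← HHx.TGood.coeff_phi c x g, hx, MonoidAlgebra.coeff_zero, Finsupp.zero_apply]
    refine ⟨(HHx.TW.coef c).symm (Finsupp.mapRange PfS_sh PfS_sh_zero (HHx.TW.coef c x)), ?_⟩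
    apply (HHx.TW.coef c).injective
    ext1 g
    rw [HHx.TGood.coef_s_mul, LinearEquiv.apply_symm_apply, Finsupp.mapRange_apply,
      PfS_X_sh _ (h1 g)]
  · rintro ⟨y, rfl⟩
    rw [map_mul, HHx.TW.phi_s, zero_mul]

end

theorem sPfS (hSMQ : S_SMQ) : S_PfS := by
  intro G _ g F _ P hm hP
  refine HBy.sUp (HHx.TW (g.co P.z P.zc)) (MonoidAlgebra F G) (HHx.TW.phi (g.co P.z P.zc))
    (HHx.TW.s (g.co P.z P.zc)) (PfS_surj _) (PfS_ker _) (PfS_nzd _) P.TS (g.Qc P.Du P.pDu)
    ((g.qc P.pD.p0 P.pDu P.j).comp (g.qs P.z P.zc P.pS P.pD.p0 P.r)) ?_ (hSMQ G g F P hm) hP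
  intro a x
  rw [AddMonoidHom.comp_apply, AddMonoidHom.comp_apply, g.qs_smul P.z P.zc P.r P.pS P.pD.p0 a x,
    g.qc_smul P.j P.pD.p0 P.pDu, MonoidAlgebra.mapRingHom_id]
  rfl

end HRx
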