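import Pool.Agent.Lib.MP_181146_gt.HR.PrQ
import Pool.Agent.Lib.MP_181146_gt.HR.SpecC

/-!
# Project HR: Prj, the projection to the chains
-/

set_option autoImplicit false
set_option linter.unusedVariables false
set_option linter.unusedSectionVars false

namespace HRx

open HEp HPx

section

variable {k : Type} [CommRing k] {H : Type} {F : FS H}

/-- The iterated inclusion, `z = 1`. -/
def itI (M : MS k H F) (q b : ℕ) (ix : ℕ → ℕ) (ρ : ℕ → H → ℤ) :
    ∀ n : ℕ, M.V →ₗ[k] (mit M q b ix (fun _ => (1 : k)) ρ n).V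
  | 0 => LinearMap.id
  | n + 1 => ioC q ∘ₗ itI M q b ix ρ n

lemma ioC_Q1 {V : Type} [AddCommGroup V] [Module k V] (q : ℕ) (Q : Submodule k V) (x : V)
    (hx : x ∈ Q) : ioC (k := k) q x ∈ cirQ q (1 : k) Q := by
  refine fun c => ⟨?_, Q.zero_mem, ?_, (smul_zero _).symm⟩
  · rw [ioC_1]
    split_ifs
    · exact hx
    · exact Q.zero_mem
  · rw [ioC_1, ioC_1, one_smul]
    have : ((q : ℤ) ∣ c - q) ↔ ((q : ℤ) ∣ c) := dvd_sub_self_right
    simp only [this]

lemma ioC_G1 {V : Type} [AddCommGroup V] [Module k V] (q : ℕ) (G : ℤ → Submodule k V) (d : ℤ)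
    (x : V) (hx : x ∈ G d) : ioC (k := k) q x ∈ cirG G d := by
  refine fun c => ⟨?_, (G (d - 1)).zero_mem⟩
  rw [ioC_1]
  split_ifs
  · exact hx
  · exact (G d).zero_mem

lemma cirN_ioC {V : Type} [AddCommGroup V] [Module k V] (q : ℕ) (hq : 0 < q) (x : V) :
    cirN (k := k) q (ioC (k := k) q x) = x := by
  change ∑ c ∈ Finset.range q, (ioC (k := k) q x).1 c = x
  rw [Finset.sum_eq_single 0]
  · rw [ioC_1, if_pos (by simp)]
  · intro a ha hne
    rw [ioC_1, if_neg]
    intro h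
    have h3 := Finset.mem_range.1 ha
    have h4 : q ∣ a := by exact_mod_cast h
    exact hne (Nat.eq_zero_of_dvd_of_lt h4 h3)
  · intro h
    exact absurd (Finset.mem_range.2 hq) h

lemma itI_Q (M : MS k H F) (q b : ℕ) (ix : ℕ → ℕ) (ρ : ℕ → H → ℤ) (n : ℕ) (x : M.V)
    (hx : x ∈ M.Q) : itI M q b ix ρ n x ∈ (mit M q b ix (fun _ => (1 : k)) ρ n).Q := by
  induction n with
  | zero => exact hx
  | succ n ih => exact ioC_Q1 q _ _ ih

lemma itI_G (M : MS k H F) (q b : ℕ) (ix : ℕ → ℕ) (ρ : ℕ → H → ℤ) (n : ℕ) (d : ℤ) (x : M.V)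
    (hx : x ∈ M.G d) : itI M q b ix ρ n x ∈ (mit M q b ix (fun _ => (1 : k)) ρ n).G d := by
  induction n with
  | zero => exact hx
  | succ n ih => exact ioC_G1 q _ d _ ih

lemma itN_itI (M : MS k H F) (q b : ℕ) (hq : 0 < q) (ix : ℕ → ℕ) (ρ : ℕ → H → ℤ) (n : ℕ)
    (x : M.V) : itN M q b ix (fun _ => (1 : k)) ρ n (itI M q b ix ρ n x) = x := by
  induction n with
  | zero => rfl
  | succ n ih =>
    change itN M q b ix (fun _ => (1 : k)) ρ n
      (cirN (k := k) q (ioC (k := k) q (itI M q b ix ρ n x))) = x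
    rw [cirN_ioC q hq]
    exact ih

end

/-- The two versions of the chains. -/
lemma cF_CF (K : SS) (k : Type) [CommRing k] :
    IsQI (cF K k) (HAx.CF K k) (AddMonoidHom.id (Ch k K)) := by
  refine IsQI.of_bij ⟨?_, fun x => rfl⟩ (fun x hx => hx) ?_
  · intro i (x : Ch k K) hx
    exact (Finsupp.mem_supported' k x).2 hx
  · intro i (y : Ch k K) hy
    exact ⟨y, (Finsupp.mem_supported' k y).1 hy, rfl⟩

theorem sPrj : S_Prj := by
  intro G _ g k _ D hD C e he h
  have hq : 0 < g.q := Nat.pos_of_ne_zero (NeZero.ne _)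
  refine ⟨?_, ?_⟩
  · have h1 := (g.prq_QI hD C e he h).cmp (cF_CF g.K k)
    exact h1
  · intro i (y : Ch k g.K) hy
    have hy' := (Finsupp.mem_supported' k y).1 hy
    choose r hr using he.2
    have hr0 : r 0 = 0 := he.1 ((hr 0).trans (map_zero e).symm)
    let x0 : ChD g.K D := Pi.single 0 (Finsupp.mapRange r hr0 y)
    have hx0 : (x0 : (g.M0 D).V) ∈ (g.M0 D).G i := by
      intro j x hx
      cases j with
      | zero =>
        change (Pi.single 0 (Finsupp.mapRange r hr0 y) : ChD g.K D) 0 x = 0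
        rw [Pi.single_eq_same]
        change r (y x) = 0
        rw [hy' x, hr0]
        intro e
        have e' : (x.1 : ℤ) = i := e
        apply hx
        push_cast
        omega
      | succ j =>
        change (Pi.single 0 (Finsupp.mapRange r hr0 y) : ChD g.K D) (j + 1) x = 0
        rw [Pi.single_eq_of_ne (Nat.succ_ne_zero j)]
        rfl
    refine ⟨itI (g.M0 D) g.q g.b (rv g.m) (rho g.q g.ψ) g.m x0,
      itI_Q (g.M0 D) g.q g.b (rv g.m) (rho g.q g.ψ) g.m x0 trivial,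
      itI_G (g.M0 D) g.q g.b (rv g.m) (rho g.q g.ψ) g.m i x0 hx0, ?_⟩
    change Finsupp.mapRange e (map_zero _) ((itN (g.M0 D) g.q g.b (rv g.m) (fun _ => (1 : k))
      (rho g.q g.ψ) g.m (itI (g.M0 D) g.q g.b (rv g.m) (rho g.q g.ψ) g.m x0) : ChD g.K D) 0) = y
    rw [itN_itI (g.M0 D) g.q g.b hq (rv g.m) (rho g.q g.ψ) g.m x0]
    refine Finsupp.ext fun x => ?_
    change e ((Pi.single 0 (Finsupp.mapRange r hr0 y) : ChD g.K D) 0 x) = y x
    rw [Pi.single_eq_same]
    exact hr (y x)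

end HRx
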