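import Pool.Agent.Lib.MP_181146_gt.HR.SpecA

set_option autoImplicit false

/-!
# Project HR, module CirX: functionals on the product with a circle are compatible with the differentials
-/

namespace HRx

open HEp HPx

namespace CirX

section comb

variable {A : Type} [AddCommGroup A]

private lemma tel1 (q : ℕ) (g : ℕ → ℕ → A) :
    ∑ s ∈ Finset.range q, ∑ a ∈ Finset.range s, (g (a + 1) s - g a s) =
      ∑ s ∈ Finset.range q, (g s s - g 0 s) :=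
  Finset.sum_congr rfl fun s _ => Finset.sum_range_sub (fun a => g a s) s

private lemma tel2 (q : ℕ) (u : ℕ → ℕ → A) :
    ∑ s ∈ Finset.range q, ∑ a ∈ Finset.range s, (u a (s + 1) - u a s) =
      ∑ a ∈ Finset.range q, (u a q - u a (a + 1)) := by
  induction q with
  | zero => simp
  | succ q ih =>
    rw [Finset.sum_range_succ, ih, Finset.sum_range_succ, sub_self, add_zero,
      ← Finset.sum_add_distrib]
    exact Finset.sum_congr rfl fun a _ => by abel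

private lemma tel3 (q : ℕ) (v : ℕ → ℕ → A) :
    ∑ s ∈ Finset.range q, ∑ a ∈ Finset.range s, (v (a + 1) (s + 1) - v a s) =
      ∑ a ∈ Finset.range q, (v a q - v 0 (a + 1)) := by
  induction q with
  | zero => simp
  | succ q ih =>
    rw [Finset.sum_range_succ, ih]
    simp only [Finset.sum_sub_distrib]
    rw [Finset.sum_range_succ' (fun a => v a (q + 1)), Finset.sum_range_succ (fun a => v 0 (a + 1))]
    abel

end comb

section one

variable {k : Type} [CommRing k] {V : Type} [AddCommGroup V] [Module k V] {Φ : Type}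
  [AddCommGroup Φ]

private lemma powc (Y s : Module.End k V) (h : ∀ x, Y (s x) = s (Y x)) (j : ℕ) (x : V) :
    (Y ^ j) (s x) = s ((Y ^ j) x) := by
  induction j generalizing x with
  | zero => rfl
  | succ j ih =>
    rw [pow_succ, Module.End.mul_apply, Module.End.mul_apply, h, ih]

private lemma pows (Y : Module.End k V) (j : ℕ) (x : V) : (Y ^ (j + 1)) x = (Y ^ j) (Y x) := by
  rw [pow_succ, Module.End.mul_apply]

/-- The properties which are used. -/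
private structure Hy (δ sg Y : Module.End k V) (Z : Φ →+ Module.End k V) (tw : Φ →+ Φ) : Prop where
  ss : ∀ x, sg (sg x) = x
  sd : ∀ x, sg (δ x) = -δ (sg x)
  Ys : ∀ x, Y (sg x) = sg (Y x)
  Yd : ∀ x, Y (δ x) = δ (Y x)
  YZ : ∀ φ x, Y (Z φ x) = Z φ (Y x)
  Zt : ∀ φ x, Z (tw φ) x = sg (Z φ (sg x))
  tt : ∀ φ, tw (tw φ) = φ

variable {δ sg Y : Module.End k V} {Z : Φ →+ Module.End k V} {tw : Φ →+ Φ}

/-- First component, one exponent. -/
private lemma key1 (h : Hy δ sg Y Z tw) (bd : Φ →+ Φ) (q j : ℕ) (P R : ℤ → Φ)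
    (hP : ∀ c x, Z (P c) (δ x) = δ (Z (P c) x) + sg (Z (bd (P c)) x))
    (hR : ∀ c x, Z (R c) (δ x) = δ (Z (R c) x) + sg (Z (bd (R c)) x)) (f1 f2 : ℤ → V) (c : ℤ) :
    Z (P c) ((Y ^ j) (δ (f1 c) + (sg (f2 (c - 1)) - sg (f2 c)))) +
      Z (R c) ((Y ^ j) (δ (f2 c) + ∑ a ∈ Finset.range q, Y (sg (f1 (c - a))))) =
    δ (Z (P c) ((Y ^ j) (f1 c)) + Z (R c) ((Y ^ j) (f2 c))) +
      (sg (Z (tw (P (c - 1 + 1))) ((Y ^ j) (f2 (c - 1))) +
        ∑ s ∈ Finset.range q, ∑ a ∈ Finset.range s,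
          Z (tw (R (c - 1 - a + s))) ((Y ^ (j + 1)) (f1 (c - 1 - a)))) -
      sg (Z (tw (P (c + 1))) ((Y ^ j) (f2 c)) +
        ∑ s ∈ Finset.range q, ∑ a ∈ Finset.range s,
          Z (tw (R (c - a + s))) ((Y ^ (j + 1)) (f1 (c - a))))) +
      (sg (Z (bd (P c)) ((Y ^ j) (f1 c)) +
        Z (bd (R c) + (tw (P (c + 1)) - tw (P c))) ((Y ^ j) (f2 c))) +
      sg (Z (∑ a ∈ Finset.range q, tw (R (c + a))) ((Y ^ (j + 1)) (f1 c)))) := by
  have e1 : ∀ x, (Y ^ j) (δ x) = δ ((Y ^ j) x) := powc Y δ h.Yd j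
  have e2 : ∀ x, (Y ^ j) (sg x) = sg ((Y ^ j) x) := powc Y sg h.Ys j
  have T := tel1 q (fun a s => Z (R (c - a + s)) (sg ((Y ^ j) (Y (f1 (c - a))))))
  simp only [Finset.sum_sub_distrib] at T
  have T1 : ∑ s ∈ Finset.range q, ∑ a ∈ Finset.range s,
      Z (R (c - 1 - a + s)) (sg ((Y ^ j) (Y (f1 (c - 1 - a))))) =
      ∑ s ∈ Finset.range q, ∑ a ∈ Finset.range s,
        Z (R (c - ((a + 1 : ℕ) : ℤ) + s)) (sg ((Y ^ j) (Y (f1 (c - ((a + 1 : ℕ) : ℤ)))))) := by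
    refine Finset.sum_congr rfl fun s _ => Finset.sum_congr rfl fun a _ => ?_
    have e : c - 1 - (a : ℤ) = c - ((a + 1 : ℕ) : ℤ) := by push_cast; ring
    rw [e]
  have T2 : ∑ s ∈ Finset.range q, Z (R (c - (s : ℤ) + s)) (sg ((Y ^ j) (Y (f1 (c - s))))) =
      ∑ s ∈ Finset.range q, Z (R c) (sg ((Y ^ j) (Y (f1 (c - s))))) := by
    refine Finset.sum_congr rfl fun s _ => ?_
    rw [sub_add_cancel]
  have T3 : ∑ s ∈ Finset.range q, Z (R (c - ((0 : ℕ) : ℤ) + s))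
        (sg ((Y ^ j) (Y (f1 (c - ((0 : ℕ) : ℤ)))))) =
      ∑ s ∈ Finset.range q, Z (R (c + s)) (sg ((Y ^ j) (Y (f1 c)))) := by
    refine Finset.sum_congr rfl fun s _ => ?_
    rw [Nat.cast_zero, sub_zero]
  rw [← T1, T2, T3] at T
  simp only [map_add, map_sub, map_sum, LinearMap.add_apply, LinearMap.sub_apply,
    LinearMap.sum_apply, pows, e1, e2, h.Ys, h.Zt, h.ss, hP, hR, sub_add_cancel]
  have T' := sub_eq_iff_eq_add.1 T
  rw [T']
  abel

/-- Second component, one exponent. -/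
private lemma key2 (h : Hy δ sg Y Z tw) (bd : Φ →+ Φ) (q j : ℕ) (P R : ℤ → Φ)
    (hP : ∀ c x, Z (P c) (δ x) = δ (Z (P c) x) + sg (Z (bd (P c)) x))
    (hR : ∀ c x, Z (R c) (δ x) = δ (Z (R c) x) + sg (Z (bd (R c)) x))
    (hPp : ∀ c, P (c + q) = P c) (hRp : ∀ c, R (c + q) = R c) (f1 f2 : ℤ → V) (c : ℤ) :
    Z (tw (P (c + 1))) ((Y ^ j) (δ (f2 c) + ∑ a ∈ Finset.range q, Y (sg (f1 (c - a))))) +
      ∑ s ∈ Finset.range q, ∑ a ∈ Finset.range s, Z (tw (R (c - a + s)))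
        ((Y ^ (j + 1)) (δ (f1 (c - a)) + (sg (f2 (c - a - 1)) - sg (f2 (c - a))))) =
    δ (Z (tw (P (c + 1))) ((Y ^ j) (f2 c)) +
        ∑ s ∈ Finset.range q, ∑ a ∈ Finset.range s,
          Z (tw (R (c - a + s))) ((Y ^ (j + 1)) (f1 (c - a)))) +
      ∑ a ∈ Finset.range q, Y (sg (Z (P (c - a)) ((Y ^ j) (f1 (c - a))) +
        Z (R (c - a)) ((Y ^ j) (f2 (c - a))))) -
      (sg (Z (tw (bd (P (c + 1)))) ((Y ^ j) (f2 c)) +
        ∑ s ∈ Finset.range q, ∑ a ∈ Finset.range s,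
          Z (tw (bd (R (c - a + s)) + (tw (P (c - a + s + 1)) - tw (P (c - a + s)))))
            ((Y ^ (j + 1)) (f1 (c - a)))) +
      sg (Z (tw (∑ a ∈ Finset.range q, tw (R (c + 1 + a)))) ((Y ^ (j + 1)) (f2 c)))) := by
  have e1 : ∀ x, (Y ^ j) (δ x) = δ ((Y ^ j) x) := powc Y δ h.Yd j
  have e2 : ∀ x, (Y ^ j) (sg x) = sg ((Y ^ j) x) := powc Y sg h.Ys j
  have e3 : ∀ x, Y ((Y ^ j) x) = (Y ^ j) (Y x) := fun x => (powc Y Y (fun _ => rfl) j x).symm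
  have T := tel2 q (fun a s => sg (Z (P (c - a + s)) ((Y ^ j) (Y (f1 (c - a))))))
  have U := tel3 q (fun a s => sg (Z (R (c - a + s)) ((Y ^ j) (Y (f2 (c - a))))))
  simp only [Finset.sum_sub_distrib] at T U
  have T1 : ∑ s ∈ Finset.range q, ∑ a ∈ Finset.range s,
      sg (Z (P (c - a + ((s + 1 : ℕ) : ℤ))) ((Y ^ j) (Y (f1 (c - a))))) =
      ∑ s ∈ Finset.range q, ∑ a ∈ Finset.range s,
        sg (Z (P (c - a + s + 1)) ((Y ^ j) (Y (f1 (c - a))))) := by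
    refine Finset.sum_congr rfl fun s _ => Finset.sum_congr rfl fun a _ => ?_
    rw [Nat.cast_succ, ← add_assoc]
  have T2 : ∑ a ∈ Finset.range q, sg (Z (P (c - (a : ℤ) + q)) ((Y ^ j) (Y (f1 (c - a))))) =
      ∑ a ∈ Finset.range q, sg (Z (P (c - a)) ((Y ^ j) (Y (f1 (c - a))))) := by
    refine Finset.sum_congr rfl fun a _ => ?_
    rw [hPp]
  have T3 : ∑ a ∈ Finset.range q,
      sg (Z (P (c - (a : ℤ) + ((a + 1 : ℕ) : ℤ))) ((Y ^ j) (Y (f1 (c - a))))) =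
      ∑ a ∈ Finset.range q, sg (Z (P (c + 1)) ((Y ^ j) (Y (f1 (c - a))))) := by
    refine Finset.sum_congr rfl fun a _ => ?_
    rw [Nat.cast_succ, ← add_assoc, sub_add_cancel]
  have U1 : ∑ s ∈ Finset.range q, ∑ a ∈ Finset.range s,
      sg (Z (R (c - ((a + 1 : ℕ) : ℤ) + ((s + 1 : ℕ) : ℤ)))
        ((Y ^ j) (Y (f2 (c - ((a + 1 : ℕ) : ℤ)))))) =
      ∑ s ∈ Finset.range q, ∑ a ∈ Finset.range s,
        sg (Z (R (c - a + s)) ((Y ^ j) (Y (f2 (c - a - 1))))) := by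
    refine Finset.sum_congr rfl fun s _ => Finset.sum_congr rfl fun a _ => ?_
    have e : c - ((a + 1 : ℕ) : ℤ) + ((s + 1 : ℕ) : ℤ) = c - a + s := by push_cast; ring
    have e' : c - ((a + 1 : ℕ) : ℤ) = c - a - 1 := by push_cast; ring
    rw [e, e']
  have U2 : ∑ a ∈ Finset.range q, sg (Z (R (c - (a : ℤ) + q)) ((Y ^ j) (Y (f2 (c - a))))) =
      ∑ a ∈ Finset.range q, sg (Z (R (c - a)) ((Y ^ j) (Y (f2 (c - a))))) := by
    refine Finset.sum_congr rfl fun a _ => ?_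
    rw [hRp]
  have U3 : ∑ a ∈ Finset.range q, sg (Z (R (c - ((0 : ℕ) : ℤ) + ((a + 1 : ℕ) : ℤ)))
        ((Y ^ j) (Y (f2 (c - ((0 : ℕ) : ℤ)))))) =
      ∑ a ∈ Finset.range q, sg (Z (R (c + 1 + a)) ((Y ^ j) (Y (f2 c)))) := by
    refine Finset.sum_congr rfl fun a _ => ?_
    have e : c - ((0 : ℕ) : ℤ) + ((a + 1 : ℕ) : ℤ) = c + 1 + a := by push_cast; ring
    rw [e, Nat.cast_zero, sub_zero]
  rw [T1, T2, T3] at T
  rw [U1, U2, U3] at U
  have T' := sub_eq_iff_eq_add.1 T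
  have U' := sub_eq_iff_eq_add.1 U
  simp only [map_add, map_sub, map_sum, map_neg, LinearMap.add_apply, LinearMap.sub_apply,
    LinearMap.sum_apply, pows, e1, e2, e3, h.Ys, h.Yd, h.YZ, h.Zt, h.ss, h.sd, h.tt, hP, hR,
    Finset.sum_add_distrib, Finset.sum_sub_distrib, Finset.sum_neg_distrib]
  rw [T', U']
  abel

private lemma prvS (Y : Module.End k V) (Z : Φ →+ Module.End k V) (b : ℕ) (B h : ℕ → Φ)
    (W : ℕ → V) (hb : h b = 0) (x : V) :
    ∑ j ∈ Finset.range (b + 1), (Z (B j + prv h j) ((Y ^ j) x) + W j) =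
      ∑ j ∈ Finset.range (b + 1), (Z (B j) ((Y ^ j) x) + W j) +
        ∑ j ∈ Finset.range (b + 1), Z (h j) ((Y ^ (j + 1)) x) := by
  have e : ∑ j ∈ Finset.range (b + 1), Z (prv h j) ((Y ^ j) x) =
      ∑ j ∈ Finset.range (b + 1), Z (h j) ((Y ^ (j + 1)) x) := by
    rw [Finset.sum_range_succ', Finset.sum_range_succ, hb]
    simp only [prv, map_zero, LinearMap.zero_apply, add_zero]
  rw [← e, ← Finset.sum_add_distrib]
  refine Finset.sum_congr rfl fun j _ => ?_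
  rw [map_add, LinearMap.add_apply]
  abel

private lemma prvS' (Y : Module.End k V) (Z : Φ →+ Module.End k V) (tw : Φ →+ Φ) (b : ℕ)
    (B h : ℕ → Φ) (W : ℕ → V) (hb : h b = 0) (x : V) :
    ∑ j ∈ Finset.range (b + 1), (Z (tw (B j + prv h j)) ((Y ^ j) x) + W j) =
      ∑ j ∈ Finset.range (b + 1), (Z (tw (B j)) ((Y ^ j) x) + W j) +
        ∑ j ∈ Finset.range (b + 1), Z (tw (h j)) ((Y ^ (j + 1)) x) :=
  prvS Y (Z.comp tw) b B h W hb x

end one

end CirX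

open CirX in
theorem sCirX : S_CirX := by
  intro k _ H _ F hF M n hM q b i z ρ φ hper hb hG
  have h : Hy M.δ M.sg (M.Y i) M.Z F.tw :=
    ⟨hM.ss, hM.sd, hM.Ys i, hM.Yd i, hM.YZ i, hM.Zt, hF.tt⟩
  intro f
  refine Prod.ext ?_ ?_
  · funext c
    change ∑ j ∈ Finset.range (b + 1),
      (M.Z (φ.1 j c) ((M.Y i ^ j) (M.δ (f.1 c) + (M.sg (f.2 (c - 1)) - M.sg (f.2 c)))) +
        M.Z (φ.2 j c) ((M.Y i ^ j) (M.δ (f.2 c) +
          ∑ a ∈ Finset.range q, M.Y i (M.sg (f.1 (c - a)))))) =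
      M.δ (∑ j ∈ Finset.range (b + 1),
        (M.Z (φ.1 j c) ((M.Y i ^ j) (f.1 c)) + M.Z (φ.2 j c) ((M.Y i ^ j) (f.2 c)))) +
      (M.sg (∑ j ∈ Finset.range (b + 1),
        (M.Z (F.tw (φ.1 j (c - 1 + 1))) ((M.Y i ^ j) (f.2 (c - 1))) +
        ∑ s ∈ Finset.range q, ∑ a ∈ Finset.range s,
          M.Z (F.tw (φ.2 j (c - 1 - a + s))) ((M.Y i ^ (j + 1)) (f.1 (c - 1 - a))))) -
      M.sg (∑ j ∈ Finset.range (b + 1),
        (M.Z (F.tw (φ.1 j (c + 1))) ((M.Y i ^ j) (f.2 c)) +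
        ∑ s ∈ Finset.range q, ∑ a ∈ Finset.range s,
          M.Z (F.tw (φ.2 j (c - a + s))) ((M.Y i ^ (j + 1)) (f.1 (c - a)))))) +
      M.sg (∑ j ∈ Finset.range (b + 1),
        (M.Z (F.bd (φ.1 j c) + prv (fun j => ∑ a ∈ Finset.range q, F.tw (φ.2 j (c + a))) j)
          ((M.Y i ^ j) (f.1 c)) +
        M.Z (F.bd (φ.2 j c) + (F.tw (φ.1 j (c + 1)) - F.tw (φ.1 j c))) ((M.Y i ^ j) (f.2 c))))
    rw [prvS (M.Y i) M.Z b _ _ _ (by
      refine Finset.sum_eq_zero fun a _ => ?_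
      rw [(hb b (c + a) le_rfl).2, map_zero])]
    rw [Finset.sum_congr rfl fun j _ => key1 h F.bd q j (fun c => φ.1 j c) (fun c => φ.2 j c)
      (fun c x => (hG j c).1 x) (fun c x => (hG j c).2 x) f.1 f.2 c]
    simp only [Finset.sum_add_distrib, Finset.sum_sub_distrib, map_add, map_sum]
  · funext c
    change ∑ j ∈ Finset.range (b + 1),
      (M.Z (F.tw (φ.1 j (c + 1))) ((M.Y i ^ j) (M.δ (f.2 c) +
          ∑ a ∈ Finset.range q, M.Y i (M.sg (f.1 (c - a))))) +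
        ∑ s ∈ Finset.range q, ∑ a ∈ Finset.range s, M.Z (F.tw (φ.2 j (c - a + s)))
          ((M.Y i ^ (j + 1)) (M.δ (f.1 (c - a)) +
            (M.sg (f.2 (c - a - 1)) - M.sg (f.2 (c - a)))))) =
      M.δ (∑ j ∈ Finset.range (b + 1),
        (M.Z (F.tw (φ.1 j (c + 1))) ((M.Y i ^ j) (f.2 c)) +
        ∑ s ∈ Finset.range q, ∑ a ∈ Finset.range s,
          M.Z (F.tw (φ.2 j (c - a + s))) ((M.Y i ^ (j + 1)) (f.1 (c - a))))) +
      ∑ a ∈ Finset.range q, M.Y i (M.sg (∑ j ∈ Finset.range (b + 1),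
        (M.Z (φ.1 j (c - a)) ((M.Y i ^ j) (f.1 (c - a))) +
          M.Z (φ.2 j (c - a)) ((M.Y i ^ j) (f.2 (c - a)))))) +
      -M.sg (∑ j ∈ Finset.range (b + 1),
        (M.Z (F.tw (F.bd (φ.1 j (c + 1)) +
            prv (fun j => ∑ a ∈ Finset.range q, F.tw (φ.2 j (c + 1 + a))) j))
          ((M.Y i ^ j) (f.2 c)) +
        ∑ s ∈ Finset.range q, ∑ a ∈ Finset.range s,
          M.Z (F.tw (F.bd (φ.2 j (c - a + s)) +
            (F.tw (φ.1 j (c - a + s + 1)) - F.tw (φ.1 j (c - a + s)))))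
            ((M.Y i ^ (j + 1)) (f.1 (c - a)))))
    rw [prvS' (M.Y i) M.Z F.tw b _ _ _ (by
      refine Finset.sum_eq_zero fun a _ => ?_
      rw [(hb b (c + 1 + a) le_rfl).2, map_zero])]
    rw [Finset.sum_congr rfl fun j _ => key2 h F.bd q j (fun c => φ.1 j c) (fun c => φ.2 j c)
      (fun c x => (hG j c).1 x) (fun c x => (hG j c).2 x) (fun c => (hper j c).1)
      (fun c => (hper j c).2) f.1 f.2 c, ← sub_eq_add_neg]
    rw [Finset.sum_sub_distrib, Finset.sum_add_distrib, Finset.sum_add_distrib, ← map_sum,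
      Finset.sum_comm, map_add, ← map_sum, ← map_sum]
    simp only [map_sum]

end HRx
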