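import Pool.Agent.Lib.MP_181146_gt.HR.SpecA

/-!
# Project HR: the square of the differential of the circle construction (S_Cur)
-/

set_option autoImplicit false

namespace HRx

open HEp HPx

section

variable {k : Type} [CommRing k] {H : Type} [Group H] {F : FS H}

private lemma cur_sYs {M : MS k H F} {n : ℤ} (hM : M.OK n) (i : ℕ) (x : M.V) :
    M.sg (M.Y i (M.sg x)) = M.Y i x := by
  rw [hM.Ys, hM.ss]

private lemma cur_Yss {M : MS k H F} {n : ℤ} (hM : M.OK n) (i : ℕ) (x : M.V) :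
    M.Y i (M.sg (M.sg x)) = M.Y i x := by
  rw [hM.ss]

private lemma cur_tel {V : Type} [AddCommGroup V] (g : ℤ → V) (q : ℕ) (c : ℤ) :
    ∑ a ∈ Finset.range q, (g (c - a - 1) - g (c - a)) = g (c - q) - g c := by
  have h := Finset.sum_range_sub (fun a : ℕ => g (c - a)) q
  simp only [Nat.cast_zero, sub_zero] at h
  rw [← h]
  refine Finset.sum_congr rfl fun a _ => ?_
  have e : c - (a : ℤ) - 1 = c - ((a + 1 : ℕ) : ℤ) := by
    rw [Nat.cast_add, Nat.cast_one]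
    ring
  rw [e]

end

theorem sCur : S_Cur := by
  intro k _ H _ F M n hM q b i z ρ f hf c
  have hY : ∀ x : M.V, M.Y i (z • x) = z • M.Y i x := fun x => map_smul _ _ _
  refine ⟨?_, ?_⟩
  · change M.δ (M.δ (f.1 c) + (M.sg (f.2 (c - 1)) - M.sg (f.2 c))) +
      (M.sg (M.δ (f.2 (c - 1)) + ∑ a ∈ Finset.range q, M.Y i (M.sg (f.1 (c - 1 - a)))) -
        M.sg (M.δ (f.2 c) + ∑ a ∈ Finset.range q, M.Y i (M.sg (f.1 (c - a))))) =
      M.δ (M.δ (f.1 c)) + (z - 1) • M.Y i (f.1 c)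
    have h1 : ∑ a ∈ Finset.range q, (M.Y i (f.1 (c - a - 1)) - M.Y i (f.1 (c - a))) =
        M.Y i (f.1 (c - q)) - M.Y i (f.1 c) := cur_tel (fun t => M.Y i (f.1 t)) q c
    have h2 : ∑ a ∈ Finset.range q, M.Y i (f.1 (c - 1 - a)) =
        ∑ a ∈ Finset.range q, M.Y i (f.1 (c - a - 1)) := by
      refine Finset.sum_congr rfl fun a _ => ?_
      have e : c - 1 - (a : ℤ) = c - a - 1 := by ring
      rw [e]
    rw [Finset.sum_sub_distrib] at h1
    simp only [map_add, map_sub, map_sum, hM.sd, cur_sYs hM]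
    rw [h2, (hf c).2.2.1] at *
    rw [hY] at h1
    rw [sub_smul, one_smul, ← h1]
    abel
  · change M.δ (M.δ (f.2 c) + ∑ a ∈ Finset.range q, M.Y i (M.sg (f.1 (c - a)))) +
      ∑ a ∈ Finset.range q, M.Y i (M.sg (M.δ (f.1 (c - a)) +
        (M.sg (f.2 (c - a - 1)) - M.sg (f.2 (c - a))))) =
      M.δ (M.δ (f.2 c)) + (z - 1) • M.Y i (f.2 c)
    have h1 : ∑ a ∈ Finset.range q, (M.Y i (f.2 (c - a - 1)) - M.Y i (f.2 (c - a))) =
        M.Y i (f.2 (c - q)) - M.Y i (f.2 c) := cur_tel (fun t => M.Y i (f.2 t)) q c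
    rw [(hf c).2.2.2, hY] at h1
    simp only [map_add, map_sub, map_sum, hM.sd, cur_Yss hM, map_neg, hM.Yd,
      Finset.sum_add_distrib, Finset.sum_neg_distrib]
    rw [h1, sub_smul, one_smul]
    abel

end HRx
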