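import Pool.Agent.Lib.MP_181146_gt.HR.SpecB

/-!
# Project HR, module Dec: decomposition of the functional `v`
-/

set_option autoImplicit false

namespace HRx

open HEp HPx

/-! ## Operators applied to all components -/

section

variable {H : Type} {F : FS H} (q : ℕ) (ix : ℕ → ℕ) (ρ : ℕ → H → ℤ)

/-- The operator `S`, applied to all components. -/
private def decL (S : F.Φ →+ F.Φ) : ∀ n : ℕ, (fit F q ix ρ n).Φ →+ (fit F q ix ρ n).Φ
  | 0 => S
  | n + 1 => AddMonoidHom.mk' (fun φ => (fun j c => decL S n (φ.1 j c),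
      fun j c => decL S n (φ.2 j c))) (by
      intro φ ψ
      refine Prod.ext ?_ ?_ <;>
      · funext j c
        exact (decL S n).map_add _ _)

private lemma decL_tw {S : F.Φ →+ F.Φ} (hS : ∀ φ, S (F.tw φ) = -F.tw (S φ)) (n : ℕ) :
    ∀ φ : (fit F q ix ρ n).Φ, decL q ix ρ S n ((fit F q ix ρ n).tw φ) =
      -(fit F q ix ρ n).tw (decL q ix ρ S n φ) := by
  induction n with
  | zero => exact hS
  | succ n ih =>
    intro φ
    refine Prod.ext ?_ ?_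
    · funext j c
      exact ih (φ.1 j c)
    · funext j c
      change decL q ix ρ S n (-(fit F q ix ρ n).tw (φ.2 j c)) =
        -(-(fit F q ix ρ n).tw (decL q ix ρ S n (φ.2 j c)))
      rw [map_neg, ih]

private lemma decL_bd {S R : F.Φ →+ F.Φ} (hS : ∀ φ, S (F.tw φ) = -F.tw (S φ))
    (hR : ∀ φ, S (F.bd φ) + F.bd (S φ) = φ - R φ) (n : ℕ) :
    ∀ φ : (fit F q ix ρ n).Φ, decL q ix ρ S n ((fit F q ix ρ n).bd φ) +
      (fit F q ix ρ n).bd (decL q ix ρ S n φ) = φ - decL q ix ρ R n φ := by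
  induction n with
  | zero => exact hR
  | succ n ih =>
    intro φ
    refine Prod.ext ?_ ?_
    · funext j c
      cases j with
      | zero =>
        change decL q ix ρ S n ((fit F q ix ρ n).bd (φ.1 0 c) + 0) +
          ((fit F q ix ρ n).bd (decL q ix ρ S n (φ.1 0 c)) + 0) =
          φ.1 0 c - decL q ix ρ R n (φ.1 0 c)
        rw [add_zero, add_zero, ih]
      | succ j =>
        change decL q ix ρ S n ((fit F q ix ρ n).bd (φ.1 (j + 1) c) +
            ∑ a ∈ Finset.range q, (fit F q ix ρ n).tw (φ.2 j (c + a))) +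
          ((fit F q ix ρ n).bd (decL q ix ρ S n (φ.1 (j + 1) c)) +
            ∑ a ∈ Finset.range q, (fit F q ix ρ n).tw (decL q ix ρ S n (φ.2 j (c + a)))) =
          φ.1 (j + 1) c - decL q ix ρ R n (φ.1 (j + 1) c)
        rw [map_add, map_sum, ← ih (φ.1 (j + 1) c)]
        simp only [decL_tw q ix ρ hS n, Finset.sum_neg_distrib]
        abel
    · funext j c
      change decL q ix ρ S n ((fit F q ix ρ n).bd (φ.2 j c) +
          ((fit F q ix ρ n).tw (φ.1 j (c + 1)) - (fit F q ix ρ n).tw (φ.1 j c))) +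
        ((fit F q ix ρ n).bd (decL q ix ρ S n (φ.2 j c)) +
          ((fit F q ix ρ n).tw (decL q ix ρ S n (φ.1 j (c + 1))) -
            (fit F q ix ρ n).tw (decL q ix ρ S n (φ.1 j c)))) =
        φ.2 j c - decL q ix ρ R n (φ.2 j c)
      rw [map_add, map_sub, decL_tw q ix ρ hS n, decL_tw q ix ρ hS n, ← ih (φ.2 j c)]
      abel

private lemma decL_Pr {S : F.Φ →+ F.Φ} (hS : ∀ φ ∈ F.Pr, S φ ∈ F.Pr) (n : ℕ) :
    ∀ φ ∈ (fit F q ix ρ n).Pr, decL q ix ρ S n φ ∈ (fit F q ix ρ n).Pr := by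
  induction n with
  | zero => exact hS
  | succ n ih =>
    intro φ hφ j c
    obtain ⟨h1, h2, h3, h4⟩ := hφ j c
    exact ⟨ih _ h1, ih _ h2, congrArg (decL q ix ρ S n) h3, congrArg (decL q ix ρ S n) h4⟩

private lemma decL_Dg {S : F.Φ →+ F.Φ} (hS : ∀ d, ∀ φ ∈ F.Dg d, S φ ∈ F.Dg (d - 1)) (n : ℕ) :
    ∀ d, ∀ φ ∈ (fit F q ix ρ n).Dg d, decL q ix ρ S n φ ∈ (fit F q ix ρ n).Dg (d - 1) := by
  induction n with
  | zero => exact hS
  | succ n ih =>
    intro d φ hφ j c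
    obtain ⟨h1, h2⟩ := hφ j c
    have e1 : d - 1 - 2 * (j : ℤ) = d - 2 * (j : ℤ) - 1 := by ring
    rw [e1]
    exact ⟨ih _ _ h1, ih _ _ h2⟩

/-! ## Scalar functionals -/

variable (ε : F.Φ)

private lemma decS_zero (n : ℕ) : Sc ε q ix ρ n 0 := by
  induction n with
  | zero => exact ⟨0, (zero_smul ℤ ε).symm⟩
  | succ n ih => exact fun j c => ⟨ih, ih⟩

private lemma decS_sub (n : ℕ) : ∀ φ ψ : (fit F q ix ρ n).Φ, Sc ε q ix ρ n φ → Sc ε q ix ρ n ψ →
    Sc ε q ix ρ n (φ - ψ) := by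
  induction n with
  | zero =>
    rintro φ ψ ⟨r, rfl⟩ ⟨s, rfl⟩
    exact ⟨r - s, (sub_smul r s ε).symm⟩
  | succ n ih =>
    intro φ ψ h h' j c
    exact ⟨ih _ _ (h j c).1 (h' j c).1, ih _ _ (h j c).2 (h' j c).2⟩

private lemma decS_neg (n : ℕ) (φ : (fit F q ix ρ n).Φ) (h : Sc ε q ix ρ n φ) :
    Sc ε q ix ρ n (-φ) := by
  rw [← zero_sub]
  exact decS_sub q ix ρ ε n _ _ (decS_zero q ix ρ ε n) h

private lemma decS_add (n : ℕ) (φ ψ : (fit F q ix ρ n).Φ) (h : Sc ε q ix ρ n φ)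
    (h' : Sc ε q ix ρ n ψ) : Sc ε q ix ρ n (φ + ψ) := by
  rw [← sub_neg_eq_add]
  exact decS_sub q ix ρ ε n _ _ h (decS_neg q ix ρ ε n _ h')

private lemma decS_sum (n : ℕ) {ι : Type} (s : Finset ι) (f : ι → (fit F q ix ρ n).Φ)
    (h : ∀ i ∈ s, Sc ε q ix ρ n (f i)) : Sc ε q ix ρ n (∑ i ∈ s, f i) :=
  Finset.sum_induction f (fun φ => Sc ε q ix ρ n φ) (fun φ ψ => decS_add q ix ρ ε n φ ψ)
    (decS_zero q ix ρ ε n) h

variable {ε}

private lemma decS_tw (hε : F.tw ε = ε) (n : ℕ) : ∀ φ : (fit F q ix ρ n).Φ, Sc ε q ix ρ n φ →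
    Sc ε q ix ρ n ((fit F q ix ρ n).tw φ) := by
  induction n with
  | zero =>
    rintro φ ⟨r, rfl⟩
    refine ⟨r, ?_⟩
    change F.tw (r • ε) = r • ε
    rw [map_zsmul, hε]
  | succ n ih =>
    intro φ h j c
    exact ⟨ih _ (h j c).1, decS_neg q ix ρ ε n _ (ih _ (h j c).2)⟩

private lemma decS_bd (hε : F.tw ε = ε) (hε' : F.bd ε = 0) (n : ℕ) :
    ∀ φ : (fit F q ix ρ n).Φ, Sc ε q ix ρ n φ → Sc ε q ix ρ n ((fit F q ix ρ n).bd φ) := by
  induction n with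
  | zero =>
    rintro φ ⟨r, rfl⟩
    refine ⟨0, ?_⟩
    change F.bd (r • ε) = (0 : ℤ) • ε
    rw [map_zsmul, hε', smul_zero, zero_smul]
  | succ n ih =>
    intro φ h j c
    refine ⟨decS_add q ix ρ ε n _ _ (ih _ (h j c).1) ?_,
      decS_add q ix ρ ε n _ _ (ih _ (h j c).2) (decS_sub q ix ρ ε n _ _
        (decS_tw q ix ρ hε n _ (h j (c + 1)).1) (decS_tw q ix ρ hε n _ (h j c).1))⟩
    cases j with
    | zero => exact decS_zero q ix ρ ε n
    | succ j =>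
      exact decS_sum q ix ρ ε n _ _ fun a _ => decS_tw q ix ρ hε n _ (h j (c + a)).2

private lemma decS_Kf (n : ℕ) : ∀ κ : (ℕ → ℕ) → ℤ, Sc ε q ix ρ n (Kf ε q ix ρ n κ) := by
  induction n with
  | zero => exact fun κ => ⟨κ 0, rfl⟩
  | succ n ih => exact fun κ j c => ⟨ih _, decS_zero q ix ρ ε n⟩

private lemma decL_Kf {S : F.Φ →+ F.Φ} (hS : S ε = 0) (n : ℕ) : ∀ κ : (ℕ → ℕ) → ℤ,
    decL q ix ρ S n (Kf ε q ix ρ n κ) = 0 := by
  induction n with
  | zero =>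
    intro κ
    change S (κ 0 • ε) = 0
    rw [map_zsmul, hS, smul_zero]
  | succ n ih =>
    intro κ
    refine Prod.ext ?_ ?_
    · funext j c
      exact ih _
    · funext j c
      exact map_zero (decL q ix ρ S n)

/-- On functionals of low degree `R` has scalar values. -/
private lemma decS_low {R : F.Φ →+ F.Φ} {n0 : ℤ}
    (hR : ∀ d < n0, ∀ φ ∈ F.Dg d, ∃ r : ℤ, R φ = r • ε) (n : ℕ) :
    ∀ d < n0, ∀ φ ∈ (fit F q ix ρ n).Dg d, Sc ε q ix ρ n (decL q ix ρ R n φ) := by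
  induction n with
  | zero => exact hR
  | succ n ih =>
    intro d hd φ hφ j c
    obtain ⟨h1, h2⟩ := hφ j c
    exact ⟨ih _ (by omega) _ h1, ih _ (by omega) _ h2⟩

/-! ## The vertex component -/

private lemma decV_bd (n : ℕ) : ∀ φ : (fit F q ix ρ n).Φ,
    vx q ix ρ n ((fit F q ix ρ n).bd φ) = F.bd (vx q ix ρ n φ) := by
  induction n with
  | zero => exact fun φ => rfl
  | succ n ih =>
    intro φ
    change vx q ix ρ n ((fit F q ix ρ n).bd (φ.1 0 0) + 0) = _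
    rw [add_zero]
    exact ih _

private lemma decV_L (S : F.Φ →+ F.Φ) (n : ℕ) : ∀ φ : (fit F q ix ρ n).Φ,
    vx q ix ρ n (decL q ix ρ S n φ) = S (vx q ix ρ n φ) := by
  induction n with
  | zero => exact fun φ => rfl
  | succ n ih => exact fun φ => ih _

private lemma decV_Dg (n : ℕ) : ∀ d, ∀ φ ∈ (fit F q ix ρ n).Dg d, vx q ix ρ n φ ∈ F.Dg d := by
  induction n with
  | zero => exact fun d φ hφ => hφ
  | succ n ih =>
    intro d φ hφ
    have h := (hφ 0 0).1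
    rw [Nat.cast_zero, mul_zero, sub_zero] at h
    exact ih d _ h

private lemma decV_Kf (n : ℕ) : ∀ κ : (ℕ → ℕ) → ℤ, vx q ix ρ n (Kf ε q ix ρ n κ) = κ 0 • ε := by
  induction n with
  | zero => exact fun κ => rfl
  | succ n ih =>
    intro κ
    have h := ih (fun a => κ (Function.update a (ix n) 0))
    have e : Function.update (0 : ℕ → ℕ) (ix n) 0 = 0 := Function.update_eq_self (ix n) (0 : ℕ → ℕ)
    rw [e] at h
    exact h

/-- `R φ` is the sum of a constant functional and a scalar functional. -/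
private lemma decS_top {R : F.Φ →+ F.Φ} {n0 : ℤ} (hε : F.tw ε = ε) (hε' : F.bd ε = 0)
    (htt : ∀ (n : ℕ) (φ : (fit F q ix ρ n).Φ), (fit F q ix ρ n).tw ((fit F q ix ρ n).tw φ) = φ)
    (hR : ∀ d < n0, ∀ φ ∈ F.Dg d, ∃ r : ℤ, R φ = r • ε) (n : ℕ) :
    ∀ φ ∈ (fit F q ix ρ n).Dg n0, Sc ε q ix ρ n ((fit F q ix ρ n).bd (decL q ix ρ R n φ)) →
      Sc ε q ix ρ n (decL q ix ρ R n φ - cst q ix ρ n (vx q ix ρ n (decL q ix ρ R n φ))) := by
  induction n with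
  | zero =>
    intro φ _ _
    change Sc ε q ix ρ 0 (decL q ix ρ R 0 φ - decL q ix ρ R 0 φ)
    rw [sub_self]
    exact decS_zero q ix ρ ε 0
  | succ n ih =>
    intro φ hφ hb
    have h2 : ∀ (j : ℕ) (c : ℤ), Sc ε q ix ρ n (decL q ix ρ R n (φ.2 j c)) := fun j c =>
      decS_low q ix ρ hR n _ (by omega) _ (hφ j c).2
    have h1 : ∀ (j : ℕ) (c : ℤ), Sc ε q ix ρ n (decL q ix ρ R n (φ.1 (j + 1) c)) := fun j c =>
      decS_low q ix ρ hR n _ (by push_cast; omega) _ (hφ (j + 1) c).1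
    have hstep : ∀ c : ℤ, Sc ε q ix ρ n (decL q ix ρ R n (φ.1 0 (c + 1)) -
        decL q ix ρ R n (φ.1 0 c)) := by
      intro c
      have h3 : Sc ε q ix ρ n ((fit F q ix ρ n).bd (decL q ix ρ R n (φ.2 0 c)) +
        ((fit F q ix ρ n).tw (decL q ix ρ R n (φ.1 0 (c + 1))) -
          (fit F q ix ρ n).tw (decL q ix ρ R n (φ.1 0 c)))) := (hb 0 c).2
      have h4 := decS_sub q ix ρ ε n _ _ h3 (decS_bd q ix ρ hε hε' n _ (h2 0 c))
      rw [add_sub_cancel_left, ← map_sub] at h4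
      have h5 := decS_tw q ix ρ hε n _ h4
      rwa [htt] at h5
    have hall : ∀ c : ℤ, Sc ε q ix ρ n (decL q ix ρ R n (φ.1 0 c) -
        decL q ix ρ R n (φ.1 0 0)) := by
      intro c
      induction c using Int.induction_on with
      | zero =>
        rw [sub_self]
        exact decS_zero q ix ρ ε n
      | succ i hi =>
        have h3 := decS_add q ix ρ ε n _ _ (hstep i) hi
        rwa [sub_add_sub_cancel] at h3
      | pred i hi =>
        have h3 := decS_sub q ix ρ ε n _ _ hi (hstep (-(i : ℤ) - 1))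
        rw [sub_add_cancel] at h3
        have e : decL q ix ρ R n (φ.1 0 (-(i : ℤ))) - decL q ix ρ R n (φ.1 0 0) -
            (decL q ix ρ R n (φ.1 0 (-(i : ℤ))) - decL q ix ρ R n (φ.1 0 (-(i : ℤ) - 1))) =
            decL q ix ρ R n (φ.1 0 (-(i : ℤ) - 1)) - decL q ix ρ R n (φ.1 0 0) := by abel
        rwa [e] at h3
    have h00 : φ.1 0 0 ∈ (fit F q ix ρ n).Dg n0 := by
      have h := (hφ 0 0).1
      rwa [Nat.cast_zero, mul_zero, sub_zero] at h
    have hb0 : Sc ε q ix ρ n ((fit F q ix ρ n).bd (decL q ix ρ R n (φ.1 0 0))) := by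
      have h : Sc ε q ix ρ n ((fit F q ix ρ n).bd (decL q ix ρ R n (φ.1 0 0)) + 0) := (hb 0 0).1
      rwa [add_zero] at h
    have hih := ih _ h00 hb0
    intro j c
    constructor
    · cases j with
      | zero =>
        have h3 := decS_add q ix ρ ε n _ _ (hall c) hih
        rw [sub_add_sub_cancel] at h3
        exact h3
      | succ j =>
        have h3 := decS_sub q ix ρ ε n _ _ (h1 j c) (decS_zero q ix ρ ε n)
        exact h3
    · exact decS_sub q ix ρ ε n _ _ (h2 j c) (decS_zero q ix ρ ε n)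

end

/-! ## The chains -/

section

variable {K : SS}

private lemma dec_gr_ind {M : Type} [AddCommGroup M] {f : Ch ℤ K →ₗ[ℤ] M}
    {S : Submodule ℤ M} {m : ℕ} (h : ∀ σ : K.K m, f (sx ℤ σ) ∈ S) {x : Ch ℤ K}
    (hx : x ∈ gr ℤ K m) : f x ∈ S := by
  have hle : gr ℤ K m ≤ S.comap f := by
    rw [gr, Finsupp.supported_eq_span_single, Submodule.span_le]
    rintro _ ⟨⟨m', σ⟩, hσ, rfl⟩
    have hσ' : m' = m := hσ
    subst hσ'
    exact h σ
  exact hle hx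

private lemma dec_gr_eq {M : Type} [AddCommGroup M] {f g : Ch ℤ K →ₗ[ℤ] M} {m : ℕ}
    (h : ∀ σ : K.K m, f (sx ℤ σ) = g (sx ℤ σ)) {x : Ch ℤ K} (hx : x ∈ gr ℤ K m) :
    f x = g x := by
  have := dec_gr_ind (f := f - g) (S := ⊥) (m := m) (fun σ => by
    rw [LinearMap.sub_apply, h σ, sub_self]
    exact Submodule.zero_mem _) hx
  rw [LinearMap.sub_apply, Submodule.mem_bot] at this
  exact sub_eq_zero.1 this

private lemma dec_bd_gr {m : ℕ} {x : Ch ℤ K} (hx : x ∈ gr ℤ K (m + 1)) :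
    bd ℤ K x ∈ gr ℤ K m := by
  refine dec_gr_ind (fun σ => ?_) hx
  rw [bd_sx]
  exact Submodule.sum_mem _ fun i _ => Submodule.smul_mem _ _ (sx_mem_gr ℤ _)

private lemma dec_bd_gr0 {x : Ch ℤ K} (hx : x ∈ gr ℤ K 0) : bd ℤ K x = 0 :=
  dec_gr_eq (g := 0) (fun σ => bd_sx_zero ℤ σ) hx

private lemma dec_aug_gr {m : ℕ} {x : Ch ℤ K} (hx : x ∈ gr ℤ K (m + 1)) : aug ℤ K x = 0 :=
  dec_gr_eq (f := aug ℤ K) (g := 0) (fun σ => aug_sx_succ ℤ σ) hx

private lemma dec_sg_apply (x : Ch ℤ K) : sgC K x = x - (2 : ℤ) • od ℤ K x := rfl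

private lemma dec_sg_sx {n : ℕ} (x : K.K n) :
    sgC K (sx ℤ x) = (((n : ℤ).negOnePow : ℤˣ) : ℤ) • sx ℤ x := by
  rw [dec_sg_apply, od_sx]
  by_cases h : Odd n
  · rw [if_pos h, Int.negOnePow_odd _ (by exact_mod_cast h)]
    push_cast
    module
  · rw [if_neg h, Int.negOnePow_even _ (by
      have := Nat.not_odd_iff_even.1 h
      exact_mod_cast this)]
    push_cast
    module

private lemma dec_sg_gr {n : ℕ} {x : Ch ℤ K} (hx : x ∈ gr ℤ K n) :
    sgC K x = (((n : ℤ).negOnePow : ℤˣ) : ℤ) • x :=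
  dec_gr_eq (f := sgC K) (g := (((n : ℤ).negOnePow : ℤˣ) : ℤ) • LinearMap.id)
    (fun σ => dec_sg_sx σ) hx

/-- `s` anticommutes with the sign operator. -/
private lemma dec_s_sg {s : Ch ℤ K →ₗ[ℤ] Ch ℤ K} (hs : ∀ i, ∀ x ∈ gr ℤ K i, s x ∈ gr ℤ K (i + 1)) :
    sgC K ∘ₗ s = -(s ∘ₗ sgC K) := by
  refine ch_ext fun n x => ?_
  rw [LinearMap.neg_apply, LinearMap.comp_apply, LinearMap.comp_apply, dec_sg_sx,
    dec_sg_gr (hs n _ (sx_mem_gr ℤ x)), map_smul]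
  push_cast
  rw [Int.negOnePow_succ]
  push_cast
  rw [neg_smul]

end

theorem sDec (hFS0 : S_FS0) (hFSc : S_FSc) (_ : S_FMit) : S_Dec := by
  intro G _ g
  -- the functionals
  have hF0 : g.F0.OK := hFS0 _ g.K g.alH g.al1 (fun h h' => g.alm _ _)
  have hF : ∀ n : ℕ, (fit g.F0 g.q (rv g.m) (rho g.q g.ψ) n).OK := by
    intro n
    induction n with
    | zero => exact hF0
    | succ n ih => exact hFSc _ _ ih g.q _ (rho_one g.q g.ψ _) (rho_mul g.q g.ψ _)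
  obtain ⟨w, s, hs, hs0, hsw, hsh⟩ := g.con
  let S : g.F0.Φ →+ g.F0.Φ := AddMonoidHom.mk' (fun φ : Ch ℤ g.K →ₗ[ℤ] ℤ => φ ∘ₗ s) (fun _ _ => rfl)
  let R : g.F0.Φ →+ g.F0.Φ := AddMonoidHom.id _ - (S.comp g.F0.bd + g.F0.bd.comp S)
  have hSt : ∀ φ, S (g.F0.tw φ) = -g.F0.tw (S φ) := by
    intro (φ : Ch ℤ g.K →ₗ[ℤ] ℤ)
    change (φ ∘ₗ sgC g.K) ∘ₗ s = -((φ ∘ₗ s) ∘ₗ sgC g.K)
    rw [LinearMap.comp_assoc, dec_s_sg hs, LinearMap.comp_assoc, LinearMap.comp_neg]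
  have hSR : ∀ φ, S (g.F0.bd φ) + g.F0.bd (S φ) = φ - R φ := by
    intro φ
    change _ = φ - (φ - (S (g.F0.bd φ) + g.F0.bd (S φ)))
    rw [sub_sub_cancel]
  have hRa : ∀ (φ : Ch ℤ g.K →ₗ[ℤ] ℤ) (y : Ch ℤ g.K),
      toF (R φ) y = φ y - (φ (bd ℤ g.K (s y)) + φ (s (bd ℤ g.K y))) := fun φ y => rfl
  have hSε : S (aug ℤ g.K) = 0 := by
    change aug ℤ g.K ∘ₗ s = 0
    refine ch_ext fun n x => ?_
    rw [LinearMap.comp_apply, dec_aug_gr (hs n _ (sx_mem_gr ℤ x)), LinearMap.zero_apply]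
  have hεt : g.F0.tw (aug ℤ g.K) = aug ℤ g.K := by
    change aug ℤ g.K ∘ₗ sgC g.K = aug ℤ g.K
    refine ch_ext fun n x => ?_
    rw [LinearMap.comp_apply, dec_sg_sx, map_smul]
    cases n with
    | zero => rw [Nat.cast_zero, Int.negOnePow_zero, Units.val_one, one_smul]
    | succ n => rw [aug_sx_succ, smul_zero]
  have hεb : g.F0.bd (aug ℤ g.K) = 0 := by
    change aug ℤ g.K ∘ₗ bd ℤ g.K = 0
    refine LinearMap.ext fun x => ?_
    rw [LinearMap.comp_apply, aug_bd, LinearMap.zero_apply]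
  have hSD : ∀ d, ∀ φ ∈ g.F0.Dg d, S φ ∈ g.F0.Dg (d - 1) := by
    intro d φ hφ i hi y hy
    refine hφ (i + 1) (fun h => hi ?_) _ (hs i y hy)
    push_cast at h
    omega
  -- the operator `R` keeps the degree
  have hgr : ∀ (φ : Ch ℤ g.K →ₗ[ℤ] ℤ) (i : ℕ), (∀ y ∈ gr ℤ g.K i, φ y = 0) →
      ∀ y ∈ gr ℤ g.K i, toF (R φ) y = 0 := by
    intro φ i h y hy
    rw [hRa, h y hy, h _ (dec_bd_gr (hs i y hy))]
    cases i with
    | zero => rw [dec_bd_gr0 hy, map_zero, map_zero, add_zero, sub_zero]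
    | succ i => rw [h _ (hs i _ (dec_bd_gr hy)), add_zero, sub_zero]
  have hRl : ∀ d < (g.n : ℤ), ∀ φ ∈ g.F0.Dg d, ∃ r : ℤ, R φ = r • (aug ℤ g.K : g.F0.Φ) := by
    intro d hd (φ : Ch ℤ g.K →ₗ[ℤ] ℤ) hφ
    rcases eq_or_ne d 0 with rfl | hd0
    · refine ⟨φ (sx ℤ w), ?_⟩
      change toF (R φ) = φ (sx ℤ w) • aug ℤ g.K
      refine ch_ext fun i x => ?_
      rw [LinearMap.smul_apply]
      cases i with
      | zero =>
        rw [hRa, hsw _ (sx_mem_gr ℤ x), dec_bd_gr0 (sx_mem_gr ℤ x), map_zero, map_zero, add_zero,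
          map_sub, sub_sub_cancel, map_smul, smul_eq_mul, smul_eq_mul, mul_comm]
      | succ i =>
        rw [aug_sx_succ, smul_zero]
        exact hgr φ (i + 1) (fun y hy => hφ (i + 1) (by push_cast; omega) y hy) _ (sx_mem_gr ℤ x)
    · refine ⟨0, ?_⟩
      rw [zero_smul]
      change toF (R φ) = 0
      refine ch_ext fun i x => ?_
      rw [LinearMap.zero_apply]
      by_cases hi : (i : ℤ) = d
      · rw [hRa, ← map_add, hsh i (by omega) (by omega) _ (sx_mem_gr ℤ x), sub_self]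
      · exact hgr φ i (fun y hy => hφ i hi y hy) _ (sx_mem_gr ℤ x)
  -- the decomposition
  have hbV : g.F.bd g.V =
      Kf (F := g.F0) (aug ℤ g.K) g.q (rv g.m) (rho g.q g.ψ) g.m g.κ := g.vb
  have hVD : g.V ∈ g.F.Dg g.n := g.vD
  have hVP : g.V ∈ g.F.Pr := g.vP
  have hμP := decL_Pr (F := g.F0) (S := S) g.q (rv g.m) (rho g.q g.ψ)
    (fun _ _ => AddSubgroup.mem_top _) g.m g.V hVP
  have hμD := decL_Dg (F := g.F0) g.q (rv g.m) (rho g.q g.ψ) hSD g.m g.n g.V hVD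
  have hmain := decL_bd (F := g.F0) g.q (rv g.m) (rho g.q g.ψ) hSt hSR g.m g.V
  have hK := decL_Kf (F := g.F0) g.q (rv g.m) (rho g.q g.ψ) hSε g.m g.κ
  have hbu : g.F.bd (decL (F := g.F0) g.q (rv g.m) (rho g.q g.ψ) R g.m g.V) = g.F.bd g.V := by
    have h1 : decL (F := g.F0) g.q (rv g.m) (rho g.q g.ψ) R g.m g.V =
        g.V - g.F.bd (decL (F := g.F0) g.q (rv g.m) (rho g.q g.ψ) S g.m g.V) := by
      have h2 : (0 : g.F.Φ) + g.F.bd (decL (F := g.F0) g.q (rv g.m) (rho g.q g.ψ) S g.m g.V) =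
          g.V - decL (F := g.F0) g.q (rv g.m) (rho g.q g.ψ) R g.m g.V := by
        rw [← hmain, hbV, hK]
      rw [zero_add] at h2
      rw [h2, sub_sub_cancel]
    rw [h1, map_sub, (hF g.m).bb _ hμP, sub_zero]
  have hvx := decV_L (F := g.F0) g.q (rv g.m) (rho g.q g.ψ) R g.m g.V
  refine ⟨vx (F := g.F0) g.q (rv g.m) (rho g.q g.ψ) g.m
      (decL (F := g.F0) g.q (rv g.m) (rho g.q g.ψ) R g.m g.V),
    decL (F := g.F0) g.q (rv g.m) (rho g.q g.ψ) S g.m g.V,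
    decL (F := g.F0) g.q (rv g.m) (rho g.q g.ψ) R g.m g.V -
      cst (F := g.F0) g.q (rv g.m) (rho g.q g.ψ) g.m
        (vx (F := g.F0) g.q (rv g.m) (rho g.q g.ψ) g.m
          (decL (F := g.F0) g.q (rv g.m) (rho g.q g.ψ) R g.m g.V)), ?_, ?_, ?_, ?_, hμP, hμD, ?_⟩
  · rw [hbV, hK, zero_add] at hmain
    rw [hmain]
    abel
  · intro i hi y hy
    have h1 := decV_Dg (F := g.F0) g.q (rv g.m) (rho g.q g.ψ) g.m g.n g.V hVD
    have h2 := hgr (vx (F := g.F0) g.q (rv g.m) (rho g.q g.ψ) g.m g.V) i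
      (fun y hy => h1 i (by exact_mod_cast hi) y hy) y hy
    rw [← hvx] at h2
    exact h2
  · intro y
    have h1 := decV_bd (F := g.F0) g.q (rv g.m) (rho g.q g.ψ) g.m
      (decL (F := g.F0) g.q (rv g.m) (rho g.q g.ψ) R g.m g.V)
    have h2 := decV_Kf (F := g.F0) (ε := aug ℤ g.K) g.q (rv g.m) (rho g.q g.ψ) g.m g.κ
    have hκ : g.κ 0 = 0 := by
      by_contra h
      have h3 := g.κh 0 h
      have h4 := g.nw
      simp only [Pi.zero_apply, Finset.sum_const_zero] at h3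
      omega
    rw [hκ, zero_smul] at h2
    rw [hbu, hbV, h2] at h1
    exact (LinearMap.congr_fun (f := (0 : Ch ℤ g.K →ₗ[ℤ] ℤ)) h1 y).symm
  · intro y hy hby
    have h1 := hRa (toF (vx (F := g.F0) g.q (rv g.m) (rho g.q g.ψ) g.m g.V)) y
    rw [hby, hs0 g.n le_rfl y hy] at h1
    simp only [map_zero, add_zero, sub_zero] at h1
    rw [hvx]
    exact h1
  · refine decS_top (F := g.F0) g.q (rv g.m) (rho g.q g.ψ) hεt hεb (fun n => (hF n).tt) hRl g.m g.V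
      hVD ?_
    rw [hbu, hbV]
    exact decS_Kf (F := g.F0) g.q (rv g.m) (rho g.q g.ψ) g.m g.κ

end HRx
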