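import Pool.Agent.Lib.MP_181146_gt.HR.SpecB

/-!
# Project HR, module DifF: the case of all circles
-/

set_option autoImplicit false

namespace HRx

open HEp HPx

theorem sDifF (hDifM : S_DifM) : S_DifF := by
  intro G _ g k _ z D hD
  refine hDifM G g k z D hD.comm g.m (fun j x => ?_)
  rw [← hD.cur j x, ← Finset.sum_range_reflect]
  refine Finset.sum_congr rfl (fun l hl => ?_)
  have hl' : l < g.m := Finset.mem_range.1 hl
  have e : rv g.m (g.m - 1 - l) = l := by
    unfold rv
    rw [if_pos (by omega)]
    omega
  rw [e]

end HRx
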