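import Pool.Agent.Lib.MP_181146_gt.HR.SpecB

/-!
# Project HR: DifM (`δ` is a differential on `Q`)
-/

set_option autoImplicit false

namespace HRx

open HEp HPx

private def difmA {k : Type} [CommRing k] {V : Type} [AddCommGroup V] [Module k V] (c : ℤ) :
    Cir V →ₗ[k] V := LinearMap.proj c ∘ₗ LinearMap.fst k (ℤ → V) (ℤ → V)

private def difmB {k : Type} [CommRing k] {V : Type} [AddCommGroup V] [Module k V] (c : ℤ) :
    Cir V →ₗ[k] V := LinearMap.proj c ∘ₗ LinearMap.snd k (ℤ → V) (ℤ → V)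

private lemma difm_base {k : Type} [CommRing k] (K : SS) (D : DM k) (ix : ℕ → ℕ) (w : ℕ → k)
    (n : ℕ) (hz : ∀ j (x : D.D (j + 1)), ∑ l ∈ Finset.range n, w l • D.Y (ix l) j x = 0)
    (x : ChD K D) : ∑ l ∈ Finset.range n, w l • yD K D (ix l) x = 0 := by
  funext j
  refine Finsupp.ext fun s => ?_
  change ((Finsupp.lapply s : (ChN K (D.D j)) →ₗ[k] D.D j) ∘ₗ
    (LinearMap.proj j : ChD K D →ₗ[k] ChN K (D.D j)))
    (∑ l ∈ Finset.range n, w l • yD K D (ix l) x) = 0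
  rw [map_sum]
  exact hz j (x (j + 1) s)

private lemma difm_iter {k : Type} [CommRing k] {H : Type} {F : FS H} (M : MS k H F) (q b : ℕ)
    (ix : ℕ → ℕ) (z : ℕ → k) (ρ : ℕ → H → ℤ) (w : ℕ → k) (n : ℕ)
    (h0 : ∀ x, ∑ l ∈ Finset.range n, w l • M.Y (ix l) x = 0) (n' : ℕ) :
    ∀ x, ∑ l ∈ Finset.range n, w l • (mit M q b ix z ρ n').Y (ix l) x = 0 := by
  induction n' with
  | zero => exact h0
  | succ n' ih =>
    intro x
    refine Prod.ext (funext fun c => ?_) (funext fun c => ?_)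
    · change difmA (k := k) c
        (∑ l ∈ Finset.range n, w l • (cirM ((mit M q b ix z ρ n').Y (ix l)) x)) = 0
      rw [map_sum]
      exact ih (x.1 c)
    · change difmB (k := k) c
        (∑ l ∈ Finset.range n, w l • (cirM ((mit M q b ix z ρ n').Y (ix l)) x)) = 0
      rw [map_sum]
      exact ih (x.2 c)

theorem sDifM (hOKM : S_OKM) (hFS0 : S_FS0) (hMS0 : S_MS0) (hMitC : S_MitC) : S_DifM := by
  intro G _ g k _ z D hD n hz
  obtain ⟨-, hOK, -⟩ := hOKM G g k z D hD n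
  have h1 : g.alH 1 = SSHom.id g.K := g.al1
  have hα : ∀ h h', g.alH (h * h') = (g.alH h).comp (g.alH h') := fun h h' => g.alm _ _
  have hF : (fs0 g.K g.alH).OK := hFS0 (Gam g.q g.ψ) g.K g.alH h1 hα
  obtain ⟨hM, -, hdd, -⟩ := hMS0 k (Gam g.q g.ψ) g.K g.alH h1 hα D hD g.a g.n g.n1 g.ad g.ag
    (fun h y => g.aα _ y)
  refine ⟨hOK.Qd, hOK.Gd, fun x hx => ?_⟩
  have h2 := hMitC k (Gam g.q g.ψ) g.F0 hF (g.M0 D) g.n hM g.q g.b (rv g.m) z (rho g.q g.ψ)
    (fun i => rho_one _ _ i) (fun i h h' => rho_mul _ _ i h h') hdd n x hx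
  rw [h2]
  exact difm_iter (g.M0 D) g.q g.b (rv g.m) z (rho g.q g.ψ) (fun l => z (rv g.m l) - 1) n
    (difm_base g.K D (rv g.m) (fun l => z (rv g.m l) - 1) n hz) n x

end HRx
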