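import Pool.Agent.Lib.MP_181146_gt.HR.SpecB

/-!
# Project HR, ExB: exact sequences of coefficients give exact sequences of chains
-/

set_option autoImplicit false

namespace HRx

open HEp HPx

private lemma EB_one {S A B C : Type} [AddCommGroup A] [AddCommGroup B] [AddCommGroup C]
    (f' : A →+ B) (f : B →+ C) (ex : ∀ x, f x = 0 → ∃ y, f' y = x) (h : S →₀ B)
    (hh : Finsupp.mapRange f f.map_zero h = 0) :
    ∃ y : S →₀ A, Finsupp.mapRange f' f'.map_zero y = h ∧ ∀ x, h x = 0 → y x = 0 := by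
  classical
  have hx : ∀ x, f (h x) = 0 := fun x => by
    have := DFunLike.congr_fun hh x
    rw [Finsupp.mapRange_apply] at this
    exact this
  have key : ∀ b : B, ∃ a : A, (b = 0 → a = 0) ∧ (f b = 0 → f' a = b) := by
    intro b
    by_cases hb : b = 0
    · exact ⟨0, fun _ => rfl, fun _ => by rw [hb, map_zero]⟩
    · by_cases hf : f b = 0
      · obtain ⟨a, ha⟩ := ex b hf
        exact ⟨a, fun e => absurd e hb, fun _ => ha⟩
      · exact ⟨0, fun _ => rfl, fun e => absurd e hf⟩
  choose p hp0 hp using key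
  refine ⟨Finsupp.mapRange p (hp0 0 rfl) h, ?_, fun x e => ?_⟩
  · ext x
    rw [Finsupp.mapRange_apply, Finsupp.mapRange_apply]
    exact hp _ (hx x)
  · rw [Finsupp.mapRange_apply]
    exact hp0 _ e

private lemma EB_two {S B C : Type} [AddCommGroup B] [AddCommGroup C]
    (f : B →+ C) (sur : ∀ y, ∃ x, f x = y) (h : S →₀ C) :
    ∃ y : S →₀ B, Finsupp.mapRange f f.map_zero y = h ∧ ∀ x, h x = 0 → y x = 0 := by
  classical
  have key : ∀ c : C, ∃ b : B, (c = 0 → b = 0) ∧ f b = c := by
    intro c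
    by_cases hc : c = 0
    · exact ⟨0, fun _ => rfl, by rw [hc, map_zero]⟩
    · obtain ⟨b, hb⟩ := sur c
      exact ⟨b, fun e => absurd e hc, hb⟩
  choose p hp0 hp using key
  refine ⟨Finsupp.mapRange p (hp0 0 rfl) h, ?_, fun x e => ?_⟩
  · ext x
    rw [Finsupp.mapRange_apply, Finsupp.mapRange_apply]
    exact hp _
  · rw [Finsupp.mapRange_apply]
    exact hp0 _ e

private lemma EB_ch {k k' : Type} [CommRing k] [CommRing k'] {σ : k →+* k'} {D : DM k} {D' : DM k'}
    (f : DHom σ D D') (K : SS) (h : ChD K D) (j : ℕ) (x : Σ n, K.K n) :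
    (f.ch K h) j x = f.f j (h j x) := by
  change (Finsupp.mapRange (f.f j) (f.f j).map_zero (h j)) x = _
  rw [Finsupp.mapRange_apply]

private lemma EB_op (hOpN : S_OpN) {k k' : Type} [CommRing k] [CommRing k'] {σ : k →+* k'}
    {D : DM k} {D' : DM k'} (f : DHom σ D D') (K : SS) (A : Ch ℤ K →ₗ[ℤ] Ch ℤ K) (h : ChD K D) :
    f.ch K (opD D A h) = opD D' A (f.ch K h) := by
  funext j
  exact (hOpN K k (D.D j)).2.2.2.2.2.2 k' (D'.D j) (f.f j) A (h j)

private lemma EB_Y {k k' : Type} [CommRing k] [CommRing k'] {σ : k →+* k'}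
    {D : DM k} {D' : DM k'} (f : DHom σ D D') (K : SS) (i : ℕ) (h : ChD K D) :
    f.ch K (yD K D i h) = yD K D' i (f.ch K h) := by
  funext j
  ext x
  change (Finsupp.mapRange (f.f j) (f.f j).map_zero (Finsupp.mapRange (D.Y i j) (map_zero _)
    (h (j + 1)))) x = (Finsupp.mapRange (D'.Y i j) (map_zero _)
    (Finsupp.mapRange (f.f (j + 1)) (f.f (j + 1)).map_zero (h (j + 1)))) x
  rw [Finsupp.mapRange_apply, Finsupp.mapRange_apply, Finsupp.mapRange_apply,
    Finsupp.mapRange_apply, f.fY]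

private lemma EB_G {k k' : Type} [CommRing k] [CommRing k'] {σ : k →+* k'}
    {D : DM k} {D' : DM k'} (f : DHom σ D D') (K : SS) (i : ℤ) (h : ChD K D)
    (hh : h ∈ grD K D i) : f.ch K h ∈ grD K D' i := by
  intro j x hx
  rw [EB_ch, hh j x hx, map_zero]

theorem sExB (hOpN : S_OpN) : S_ExB := by
  intro G _ g k' k k'' _ _ _ D' D D'' σ' σ f' f inj zer ex sur
  refine
    { aG := fun i x hx => EB_G f' g.K i x hx
      bG := fun i x hx => ?_
      aQ := fun _ _ => trivial
      bQ := fun _ _ => trivial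
      ad := fun x => EB_op hOpN f' g.K _ x
      bd := fun x => EB_op hOpN f g.K _ x
      as := fun x => EB_op hOpN f' g.K _ x
      bs := fun x => EB_op hOpN f g.K _ x
      aY := fun i x => EB_Y f' g.K i x
      bY := fun i x => EB_Y f g.K i x
      inj := fun x hx => ?_
      ba := fun x => ?_
      ex := fun i x hx _ h0 => ?_
      sur := fun i x hx _ => ?_ }
  · rw [sub_zero]
    exact EB_G f g.K i x hx
  · funext j
    ext y
    refine inj j _ ?_
    have h1 := DFunLike.congr_fun (congrFun hx j) y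
    rw [← EB_ch f' g.K x j y]
    exact h1
  · funext j
    ext y
    refine (EB_ch f g.K (f'.ch g.K x) j y).trans ?_
    refine (congrArg (f.f j) (EB_ch f' g.K x j y)).trans (zer j _)
  · have h1 : ∀ j, Finsupp.mapRange (f.f j) (f.f j).map_zero ((x : ChD g.K D) j) = 0 :=
      fun j => congrFun h0 j
    choose y hy hy0 using fun j => EB_one (f'.f j) (f.f j) (ex j) ((x : ChD g.K D) j) (h1 j)
    refine ⟨y, fun j z hz => hy0 j z (hx j z hz), trivial, ?_⟩
    funext j
    exact hy j
  · rw [sub_zero] at hx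
    choose y hy hy0 using fun j => EB_two (f.f j) (sur j) ((x : ChD g.K D'') j)
    refine ⟨y, fun j z hz => hy0 j z (hx j z hz), trivial, ?_⟩
    funext j
    exact hy j

end HRx
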