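import Pool.Agent.Lib.MP_181146_gt.HR.SpecB

/-!
# Project HR, module ExC: exactness is preserved by the product with a circle
-/

set_option autoImplicit false
set_option linter.unusedVariables false

namespace HRx

open HEp HPx

private theorem ExC_pow {k k'' V V'' : Type} [CommRing k] [CommRing k''] [AddCommGroup V]
    [Module k V] [AddCommGroup V''] [Module k'' V''] (u : kˣ) (u'' : k''ˣ) (b : V →+ V'')
    (hb : ∀ x, b (u • x) = u'' • b x) (n : ℤ) : ∀ x, b (u ^ n • x) = u'' ^ n • b x := by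
  induction n using Int.induction_on with
  | zero =>
    intro x
    rw [zpow_zero, zpow_zero, one_smul, one_smul]
  | succ n ih =>
    intro x
    rw [zpow_add_one, zpow_add_one, mul_smul, mul_smul, ih, hb]
  | pred n ih =>
    intro x
    have h1 : b (u⁻¹ • x) = u''⁻¹ • b x := by
      rw [eq_inv_smul_iff, ← hb, smul_inv_smul]
    rw [zpow_sub_one, zpow_sub_one, mul_smul, mul_smul, ih, h1]

private theorem ExC_per {k V : Type} [CommRing k] [AddCommGroup V] [Module k V] (u : kˣ)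
    (q : ℤ) (x : ℤ → V) (hx : ∀ c, x (c - q) = u • x c) (r n : ℤ) :
    x (r - q * n) = u ^ n • x r := by
  induction n using Int.induction_on with
  | zero => rw [mul_zero, sub_zero, zpow_zero, one_smul]
  | succ n ih =>
    have e : r - q * ((n : ℤ) + 1) = r - q * n - q := by ring
    rw [e, hx, ih, zpow_add_one, mul_comm, mul_smul]
  | pred n ih =>
    have e : r - q * (-(n : ℤ)) = r - q * (-(n : ℤ) - 1) - q := by ring
    rw [e, hx] at ih
    rw [zpow_sub_one, mul_comm (u ^ (-(n : ℤ))) u⁻¹, mul_smul, ← ih, inv_smul_smul]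

private theorem ExC_sur {k k'' V V'' : Type} [CommRing k] [CommRing k''] [AddCommGroup V]
    [Module k V] [AddCommGroup V''] [Module k'' V''] (u : kˣ) (u'' : k''ˣ) (b : V →+ V'')
    (hb : ∀ x, b (u • x) = u'' • b x) (q : ℤ) (hq : 0 < q) (S T : Submodule k V) (x : ℤ → V'')
    (hx : ∀ c, x (c - q) = u'' • x c) (hy : ∀ c, ∃ y ∈ S, y ∈ T ∧ b y = x c) :
    ∃ y : ℤ → V, (∀ c, y c ∈ S) ∧ (∀ c, y c ∈ T) ∧ (∀ c, y (c - q) = (u : k) • y c) ∧
      ∀ c, b (y c) = x c := by
  choose y0 h1 h2 h3 using hy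
  refine ⟨fun c => ((u ^ (-(c / q)) : kˣ) : k) • y0 (c % q), fun c => S.smul_mem _ (h1 _),
    fun c => T.smul_mem _ (h2 _), fun c => ?_, fun c => ?_⟩
  · have e1 : (c - q) / q = c / q - 1 := by
      have e0 : c - q = c + (-1) * q := by ring
      rw [e0, Int.add_mul_ediv_right _ _ hq.ne']
      ring
    have e2 : (c - q) % q = c % q := by
      rw [Int.sub_emod_right]
    change ((u ^ (-((c - q) / q)) : kˣ) : k) • y0 ((c - q) % q) =
      (u : k) • (((u ^ (-(c / q)) : kˣ) : k) • y0 (c % q))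
    rw [e1, e2, smul_smul, ← Units.val_mul]
    congr 2
    rw [← zpow_one_add]
    congr 1
    ring
  · have h4 : b ((u ^ (-(c / q)) : kˣ) • y0 (c % q)) = (u'' ^ (-(c / q)) : k''ˣ) • x (c % q) := by
      rw [ExC_pow u u'' b hb, h3]
    change b ((u ^ (-(c / q)) : kˣ) • y0 (c % q)) = x c
    rw [h4, ← ExC_per u'' q x hx]
    congr 1
    have h5 := Int.emod_add_mul_ediv c q
    linarith

/-- **ExC.** Exactness is preserved by the product with a circle. -/
theorem sExC : S_ExC := by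
  intro k' k k'' _ _ _ H F M' M M'' w a b h q hq b0 i z' z z'' hz hz'' ha hb ρ
  obtain ⟨u, rfl⟩ := hz
  obtain ⟨u'', rfl⟩ := hz''
  have hq' : (0 : ℤ) < q := by exact_mod_cast hq
  constructor
  · intro j x hx c
    exact ⟨h.aG _ _ (hx c).1, h.aG _ _ (hx c).2⟩
  · intro j x hx c
    refine ⟨h.bG _ _ (hx c).1, ?_⟩
    have h1 := h.bG _ _ (hx c).2
    rw [show j - 1 - w = j - w - 1 by ring] at h1
    exact h1
  · intro x hx c
    obtain ⟨h1, h2, h3, h4⟩ := hx c
    refine ⟨h.aQ _ h1, h.aQ _ h2, ?_, ?_⟩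
    · change a (x.1 (c - q)) = (u : k) • a (x.1 c)
      rw [h3, ha]
    · change a (x.2 (c - q)) = (u : k) • a (x.2 c)
      rw [h4, ha]
  · intro x hx c
    obtain ⟨h1, h2, h3, h4⟩ := hx c
    refine ⟨h.bQ _ h1, h.bQ _ h2, ?_, ?_⟩
    · change b (x.1 (c - q)) = (u'' : k'') • b (x.1 c)
      rw [h3, hb]
    · change b (x.2 (c - q)) = (u'' : k'') • b (x.2 c)
      rw [h4, hb]
  · intro x
    refine Prod.ext ?_ ?_
    · funext c
      change a (M'.δ (x.1 c) + (M'.sg (x.2 (c - 1)) - M'.sg (x.2 c))) =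
        M.δ (a (x.1 c)) + (M.sg (a (x.2 (c - 1))) - M.sg (a (x.2 c)))
      rw [map_add, map_sub, h.ad, h.as, h.as]
    · funext c
      change a (M'.δ (x.2 c) + ∑ l ∈ Finset.range q, M'.Y i (M'.sg (x.1 (c - l)))) =
        M.δ (a (x.2 c)) + ∑ l ∈ Finset.range q, M.Y i (M.sg (a (x.1 (c - l))))
      rw [map_add, map_sum, h.ad]
      congr 1
      exact Finset.sum_congr rfl fun l _ => by rw [h.aY, h.as]
  · intro x
    refine Prod.ext ?_ ?_
    · funext c
      change b (M.δ (x.1 c) + (M.sg (x.2 (c - 1)) - M.sg (x.2 c))) =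
        M''.δ (b (x.1 c)) + (M''.sg (b (x.2 (c - 1))) - M''.sg (b (x.2 c)))
      rw [map_add, map_sub, h.bd, h.bs, h.bs]
    · funext c
      change b (M.δ (x.2 c) + ∑ l ∈ Finset.range q, M.Y i (M.sg (x.1 (c - l)))) =
        M''.δ (b (x.2 c)) + ∑ l ∈ Finset.range q, M''.Y i (M''.sg (b (x.1 (c - l))))
      rw [map_add, map_sum, h.bd]
      congr 1
      exact Finset.sum_congr rfl fun l _ => by rw [h.bY, h.bs]
  · intro x
    refine Prod.ext ?_ ?_
    · funext c
      exact h.as _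
    · funext c
      change a (-M'.sg (x.2 c)) = -M.sg (a (x.2 c))
      rw [map_neg, h.as]
  · intro x
    refine Prod.ext ?_ ?_
    · funext c
      exact h.bs _
    · funext c
      change b (-M.sg (x.2 c)) = -M''.sg (b (x.2 c))
      rw [map_neg, h.bs]
  · intro l x
    refine Prod.ext ?_ ?_
    · funext c
      exact h.aY _ _
    · funext c
      exact h.aY _ _
  · intro l x
    refine Prod.ext ?_ ?_
    · funext c
      exact h.bY _ _
    · funext c
      exact h.bY _ _
  · intro x hx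
    refine Prod.ext ?_ ?_
    · funext c
      exact h.inj _ (congrFun (congrArg Prod.fst hx) c)
    · funext c
      exact h.inj _ (congrFun (congrArg Prod.snd hx) c)
  · intro x
    refine Prod.ext ?_ ?_
    · funext c
      exact h.ba _
    · funext c
      exact h.ba _
  · intro j x hG hQ hx
    have e1 : ∀ c, ∃ y ∈ M'.G j, y ∈ M'.Q ∧ a y = x.1 c := fun c =>
      h.ex j _ (hG c).1 (hQ c).1 (congrFun (congrArg Prod.fst hx) c)
    have e2 : ∀ c, ∃ y ∈ M'.G (j - 1), y ∈ M'.Q ∧ a y = x.2 c := fun c =>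
      h.ex (j - 1) _ (hG c).2 (hQ c).2.1 (congrFun (congrArg Prod.snd hx) c)
    choose y1 f1 g1 h1 using e1
    choose y2 f2 g2 h2 using e2
    refine ⟨(y1, y2), fun c => ⟨f1 c, f2 c⟩, fun c => ⟨g1 c, g2 c, ?_, ?_⟩, ?_⟩
    · change y1 (c - q) = z' • y1 c
      rw [← sub_eq_zero]
      apply h.inj
      rw [map_sub, ha, h1, h1, sub_eq_zero]
      exact (hQ c).2.2.1
    · change y2 (c - q) = z' • y2 c
      rw [← sub_eq_zero]
      apply h.inj
      rw [map_sub, ha, h2, h2, sub_eq_zero]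
      exact (hQ c).2.2.2
    · refine Prod.ext ?_ ?_
      · funext c
        exact h1 c
      · funext c
        exact h2 c
  · intro j x hG hQ
    obtain ⟨y1, f1, g1, p1, h1⟩ := ExC_sur u u'' b hb q hq' (M.G j) M.Q x.1
      (fun c => (hQ c).2.2.1) (fun c => h.sur j _ (hG c).1 (hQ c).1)
    obtain ⟨y2, f2, g2, p2, h2⟩ := ExC_sur u u'' b hb q hq' (M.G (j - 1)) M.Q x.2
      (fun c => (hQ c).2.2.2) (fun c => h.sur (j - 1) _ (by
        have h1 : x.2 c ∈ M''.G (j - w - 1) := (hG c).2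
        rw [show j - 1 - w = j - w - 1 by ring]
        exact h1) (hQ c).2.1)
    refine ⟨(y1, y2), fun c => ⟨f1 c, f2 c⟩, fun c => ⟨g1 c, g2 c, p1 c, p2 c⟩, ?_⟩
    refine Prod.ext ?_ ?_
    · funext c
      exact h1 c
    · funext c
      exact h2 c

end HRx
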