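import Pool.Agent.Lib.MP_181146_gt.HR.SpecB

/-!
# Project HR, module ExI: exactness for the iterated products
-/

set_option autoImplicit false

namespace HRx

open HEp HPx

private lemma ExI_smul {k k' : Type} [CommRing k] [CommRing k'] {H : Type} {F : FS H} {M : MS k H F}
    {M' : MS k' H F} (f : M.V →+ M'.V) (q b : ℕ) (ix : ℕ → ℕ) (z : ℕ → k) (z' : ℕ → k')
    (ρ : ℕ → H → ℤ) (hf : ∀ i x, f (z i • x) = z' i • f x) (n i : ℕ)
    (x : (mit M q b ix z ρ n).V) :
    mitF f q b ix z z' ρ n (z i • x) = z' i • mitF f q b ix z z' ρ n x := by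
  induction n with
  | zero => exact hf i x
  | succ n ih =>
    refine Prod.ext ?_ ?_
    · funext c
      exact ih (x.1 c)
    · funext c
      exact ih (x.2 c)

theorem sExI (hExC : S_ExC) : S_ExI := by
  intro k' k k'' _ _ _ H F M' M M'' w a b h q hq b0 ix z' z z'' hz hz'' ha hb ρ n
  induction n with
  | zero => exact h
  | succ n ih =>
    exact hExC k' k k'' H (fit F q ix ρ n) (mit M' q b0 ix z' ρ n) (mit M q b0 ix z ρ n)
      (mit M'' q b0 ix z'' ρ n) w _ _ ih q hq b0 (ix n) (z' (ix n)) (z (ix n)) (z'' (ix n))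
      (hz _) (hz'' _) (ExI_smul a q b0 ix z' z ρ ha n (ix n))
      (ExI_smul b q b0 ix z z'' ρ hb n (ix n)) (ρ (ix n))

end HRx
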