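import Pool.Agent.Lib.MP_181146_gt.HR.SpecB

/-!
# Project HR: module ExK (the kernel of a surjective operator)
-/

set_option autoImplicit false
set_option linter.unusedVariables false

namespace HRx

open HEp HPx

section

variable {k : Type} [CommRing k] {K : SS} {D : DM k} {T : Module.End k D.Sq} {w : ℕ}

/-- The coefficient map of `opW`. -/
private noncomputable def ExK_L (T : Module.End k D.Sq) (w j : ℕ) : D.D (j + w) →ₗ[k] D.D j :=
  LinearMap.proj j ∘ₗ T ∘ₗ LinearMap.single k D.D (j + w)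

private lemma ExK_L_apply (j : ℕ) (e : D.D (j + w)) :
    ExK_L T w j e = (T (Pi.single (j + w) e)) j := rfl

private lemma ExK_opW (x : ChD K D) (j : ℕ) (s : Σ n, K.K n) :
    (opW K D w T x) j s = ExK_L T w j (x (j + w) s) := rfl

private lemma ExK_mr {N N' : Type} [AddCommGroup N] [Module k N] [AddCommGroup N'] [Module k N']
    (h : S_OpN) (f : N →+ N') (A : Ch ℤ K →ₗ[ℤ] Ch ℤ K) (c : ChN K N) (s : Σ n, K.K n) :
    f ((opN N A : ChN K N →ₗ[k] ChN K N) c s) =
      (opN N' A : ChN K N' →ₗ[k] ChN K N') (Finsupp.mapRange f f.map_zero c) s := by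
  have h1 := (h K k N).2.2.2.2.2.2 k N' f A c
  rw [← h1]
  rfl

private lemma ExK_b (h : S_OpN) (A : Ch ℤ K →ₗ[ℤ] Ch ℤ K) (x : ChD K D) :
    opW K D w T (opD D A x) = opD D A (opW K D w T x) := by
  funext j
  ext s
  exact ExK_mr h (ExK_L T w j).toAddMonoidHom A (x (j + w)) s

private lemma ExK_a (h : S_OpN) (hT : ∀ i x, T (D.tY i x) = D.tY i (T x))
    (A : Ch ℤ K →ₗ[ℤ] Ch ℤ K) (x : ChD K (D.ker T hT)) :
    (D.kerI T hT).ch K (opD (D.ker T hT) A x) = opD D A ((D.kerI T hT).ch K x) := by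
  funext j
  ext s
  exact ExK_mr h ((D.kerI T hT).f j) A (x j) s

private lemma ExK_bY (hT : ∀ i x, T (D.tY i x) = D.tY i (T x)) (i : ℕ) (x : ChD K D) :
    opW K D w T (yD K D i x) = yD K D i (opW K D w T x) := by
  funext j
  ext s
  change (T (Pi.single (j + w) (D.Y i (j + w) (x (j + w + 1) s)))) j =
    D.Y i j ((T (Pi.single (j + 1 + w) (x (j + 1 + w) s))) (j + 1))
  rw [← D.tY_single, hT]
  change D.Y i j ((T (Pi.single (j + w + 1) (x (j + w + 1) s))) (j + 1)) = _
  exact congrArg (fun n => D.Y i j ((T (Pi.single n (x n s))) (j + 1)))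
    (by omega : j + w + 1 = j + 1 + w)

private lemma ExK_mem (hlow : ∀ j < w, ∀ x : D.D j, T (Pi.single j x) = 0)
    (hhom : ∀ j (x : D.D (j + w)), ∃ y : D.D j, T (Pi.single (j + w) x) = Pi.single j y)
    (x : ChD K D) (hx : opW K D w T x = 0) (j : ℕ) (s : Σ n, K.K n) :
    T (Pi.single j (x j s)) = 0 := by
  rcases lt_or_ge j w with h | h
  · exact hlow j h _
  · obtain ⟨l, rfl⟩ : ∃ l, j = l + w := ⟨j - w, by omega⟩
    obtain ⟨y, hy⟩ := hhom l (x (l + w) s)
    have h1 : (T (Pi.single (l + w) (x (l + w) s))) l = 0 := by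
      have h2 : (opW K D w T x) l s = 0 := by
        rw [hx]
        rfl
      exact h2
    rw [hy, Pi.single_eq_same] at h1
    rw [hy, h1, Pi.single_zero]

private lemma ExK_ext {X : ℕ → Type} [∀ n, Zero (X n)] (w : ℕ) (F : ∀ j, X (j + w)) :
    ∃ y : ∀ n, X n, (∀ n < w, y n = 0) ∧ ∀ j, y (j + w) = F j := by
  have h : ∀ n, ∃ z : X n, (n < w → z = 0) ∧ ∀ j, j + w = n → HEq z (F j) := by
    intro n
    rcases lt_or_ge n w with h | h
    · exact ⟨0, fun _ => rfl, fun j hj => by omega⟩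
    · obtain ⟨l, rfl⟩ : ∃ l, n = l + w := ⟨n - w, by omega⟩
      refine ⟨F l, fun hl => by omega, fun j hj => ?_⟩
      obtain rfl : j = l := by omega
      exact HEq.rfl
  choose y hy using h
  exact ⟨y, fun n hn => (hy n).1 hn, fun j => eq_of_heq ((hy (j + w)).2 j rfl)⟩

private lemma ExK_sur (hsur : ∀ j (y : D.D j), ∃ x : D.D (j + w),
      T (Pi.single (j + w) x) = Pi.single j y) (i : ℤ) (x : ChD K D)
    (hx : x ∈ grD K D (i - 2 * (w : ℤ))) : ∃ y ∈ grD K D i, opW K D w T y = x := by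
  classical
  choose p hp using hsur
  let p' : ∀ j, D.D j → D.D (j + w) := fun j e => if e = 0 then 0 else p j e
  have hp0 : ∀ j, p' j 0 = 0 := fun j => if_pos rfl
  have hp' : ∀ j e, T (Pi.single (j + w) (p' j e)) = Pi.single j e := by
    intro j e
    by_cases he : e = 0
    · rw [he, hp0, Pi.single_zero, Pi.single_zero, map_zero]
    · have h1 : p' j e = p j e := if_neg he
      rw [h1, hp]
  obtain ⟨y, hy0, hy⟩ := ExK_ext (X := fun n => ChN K (D.D n)) w
    (fun j => Finsupp.mapRange (p' j) (hp0 j) (x j))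
  refine ⟨y, ?_, ?_⟩
  · intro n s hs
    rcases lt_or_ge n w with h | h
    · rw [hy0 n h]
      rfl
    · obtain ⟨l, rfl⟩ : ∃ l, n = l + w := ⟨n - w, by omega⟩
      rw [hy l]
      change p' l (x l s) = 0
      have h1 : x l s = 0 := hx l s (by push_cast at hs; omega)
      rw [h1, hp0]
  · funext j
    ext s
    change (T (Pi.single (j + w) (y (j + w) s))) j = x j s
    rw [hy j]
    change (T (Pi.single (j + w) (p' j (x j s)))) j = x j s
    rw [hp', Pi.single_eq_same]

end

theorem sExK (hOpN : S_OpN) : S_ExK := by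
  intro G _ g k _ D T hT w hlow hhom hsur
  refine
    { aG := ?_, bG := ?_, aQ := ?_, bQ := ?_, ad := ?_, bd := ?_, as := ?_, bs := ?_, aY := ?_,
      bY := ?_, inj := ?_, ba := ?_, ex := ?_, sur := ?_ }
  · intro i x hx j s hs
    have h1 : x j s = 0 := hx j s hs
    change (x j s).1 = 0
    rw [h1]
    rfl
  · intro i x hx j s hs
    have h1 : x (j + w) s = 0 := hx (j + w) s (by push_cast; omega)
    change ExK_L T w j (x (j + w) s) = 0
    rw [h1, map_zero]
  · intro x _
    exact (Submodule.mem_top : _ ∈ (⊤ : Submodule k (ChD g.K D)))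
  · intro x _
    exact (Submodule.mem_top : _ ∈ (⊤ : Submodule k (ChD g.K D)))
  · intro x
    exact ExK_a hOpN hT (bd ℤ g.K) x
  · intro x
    exact ExK_b hOpN (bd ℤ g.K) x
  · intro x
    exact ExK_a hOpN hT (sgC g.K) x
  · intro x
    exact ExK_b hOpN (sgC g.K) x
  · intro i x
    funext j
    ext s
    rfl
  · intro i x
    exact ExK_bY hT i x
  · intro x hx
    funext j
    ext s
    exact Subtype.ext (DFunLike.congr_fun (congrFun hx j) s)
  · intro x
    funext j
    ext s
    have h1 : T (Pi.single (j + w) (x (j + w) s).1) = 0 := (x (j + w) s).2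
    change (T (Pi.single (j + w) (x (j + w) s).1)) j = 0
    rw [h1]
    rfl
  · intro i x hx _ hb
    have hm := ExK_mem hlow hhom x hb
    refine ⟨fun j => ⟨(x j).support, fun s => ⟨x j s, hm j s⟩, ?_⟩, ?_,
      (Submodule.mem_top : _ ∈ (⊤ : Submodule k (ChD g.K (D.ker T hT)))), ?_⟩
    · intro s
      rw [Finsupp.mem_support_iff]
      constructor
      · intro h1 h2
        exact h1 (congrArg Subtype.val h2)
      · intro h1 h2
        exact h1 (Subtype.ext h2)
    · intro j s hs
      exact Subtype.ext (hx j s hs)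
    · funext j
      ext s
      rfl
  · intro i x hx _
    obtain ⟨y, hy, h1⟩ := ExK_sur (T := T) hsur i x hx
    exact ⟨y, hy, (Submodule.mem_top : _ ∈ (⊤ : Submodule k (ChD g.K D))), h1⟩

end HRx
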