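import Pool.Agent.Lib.MP_181146_gt.HR.SpecA

/-!
# Project HR: FMit (the iterated constructions have the standard properties)
-/

set_option autoImplicit false

namespace HRx

open HEp HPx

theorem sFMit (hFSc : S_FSc) (hMSc : S_MSc) : S_FMit := by
  intro k _ H _ F hF M d hM q b ix z ρ h1 hρ n
  induction n with
  | zero => exact ⟨hF, hM⟩
  | succ n ih =>
    exact ⟨hFSc H _ ih.1 q (ρ (ix n)) (h1 _) (hρ _),
      hMSc k H _ ih.1 _ d ih.2 q b (ix n) (z (ix n)) (ρ (ix n)) (h1 _) (hρ _)⟩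

end HRx
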