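import Pool.Agent.Lib.MP_181146_gt.HR.SpecA

/-!
# Project HR, module `FS0`: the functionals on the chains
-/

set_option autoImplicit false

namespace HRx

open HEp HPx

section

variable {K : SS}

private lemma fs0_gr_ind {M : Type} [AddCommGroup M] {f : Ch ℤ K →ₗ[ℤ] M}
    {S : Submodule ℤ M} {m : ℕ} (h : ∀ σ : K.K m, f (sx ℤ σ) ∈ S) {x : Ch ℤ K}
    (hx : x ∈ gr ℤ K m) : f x ∈ S := by
  have hle : gr ℤ K m ≤ S.comap f := by
    rw [gr, Finsupp.supported_eq_span_single, Submodule.span_le]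
    rintro _ ⟨⟨m', σ⟩, hσ, rfl⟩
    have hσ' : m' = m := hσ
    subst hσ'
    exact h σ
  exact hle hx

private lemma fs0_gr_eq {M : Type} [AddCommGroup M] {f g : Ch ℤ K →ₗ[ℤ] M} {m : ℕ}
    (h : ∀ σ : K.K m, f (sx ℤ σ) = g (sx ℤ σ)) {x : Ch ℤ K} (hx : x ∈ gr ℤ K m) :
    f x = g x := by
  have := fs0_gr_ind (f := f - g) (S := ⊥) (m := m) (fun σ => by
    rw [LinearMap.sub_apply, h σ, sub_self]
    exact Submodule.zero_mem _) hx
  rw [LinearMap.sub_apply, Submodule.mem_bot] at this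
  exact sub_eq_zero.1 this

private lemma fs0_bd_gr {m : ℕ} {x : Ch ℤ K} (hx : x ∈ gr ℤ K (m + 1)) :
    bd ℤ K x ∈ gr ℤ K m := by
  refine fs0_gr_ind (fun σ => ?_) hx
  rw [bd_sx]
  exact Submodule.sum_mem _ fun i _ => Submodule.smul_mem _ _ (sx_mem_gr ℤ _)

private lemma fs0_bd_gr0 {x : Ch ℤ K} (hx : x ∈ gr ℤ K 0) : bd ℤ K x = 0 :=
  fs0_gr_eq (g := 0) (fun σ => bd_sx_zero ℤ σ) hx

private lemma fs0_sg_apply (x : Ch ℤ K) : sgC K x = x - (2 : ℤ) • od ℤ K x := rfl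

private lemma fs0_sg_sg (x : Ch ℤ K) : sgC K (sgC K x) = x := by
  rw [fs0_sg_apply, fs0_sg_apply, map_sub, map_smul, od_od]
  module

private lemma fs0_bd_sg (x : Ch ℤ K) : bd ℤ K (sgC K x) = -sgC K (bd ℤ K x) := by
  rw [fs0_sg_apply, fs0_sg_apply, map_sub, map_smul, od_bd, map_sub]
  module

private lemma fs0_cmap_sg (f : SSHom K K) (x : Ch ℤ K) :
    cmap ℤ f (sgC K x) = sgC K (cmap ℤ f x) := by
  rw [fs0_sg_apply, fs0_sg_apply, map_sub, map_smul, cmap_od]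

private lemma fs0_sg_sx {n : ℕ} (x : K.K n) :
    sgC K (sx ℤ x) = (((n : ℤ).negOnePow : ℤˣ) : ℤ) • sx ℤ x := by
  rw [fs0_sg_apply, od_sx]
  by_cases h : Odd n
  · rw [if_pos h, Int.negOnePow_odd _ (by exact_mod_cast h)]
    push_cast
    module
  · rw [if_neg h, Int.negOnePow_even _ (by
      have := Nat.not_odd_iff_even.1 h
      exact_mod_cast this)]
    push_cast
    module

private lemma fs0_sg_gr {n : ℕ} {x : Ch ℤ K} (hx : x ∈ gr ℤ K n) : sgC K x ∈ gr ℤ K n := by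
  refine fs0_gr_ind (fun σ => ?_) hx
  rw [fs0_sg_sx]
  exact Submodule.smul_mem _ _ (sx_mem_gr ℤ _)

private lemma fs0_cmap_gr (f : SSHom K K) {n : ℕ} {x : Ch ℤ K} (hx : x ∈ gr ℤ K n) :
    cmap ℤ f x ∈ gr ℤ K n := by
  refine fs0_gr_ind (fun σ => ?_) hx
  rw [cmap_sx]
  exact sx_mem_gr ℤ _

end

theorem sFS0 : S_FS0 := by
  intro H _ K α h1 hα
  exact
    { tt := fun (φ : Ch ℤ K →ₗ[ℤ] ℤ) => by
        change (φ ∘ₗ sgC K) ∘ₗ sgC K = φ
        refine LinearMap.ext fun x => ?_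
        rw [LinearMap.comp_apply, LinearMap.comp_apply, fs0_sg_sg]
      tb := fun (φ : Ch ℤ K →ₗ[ℤ] ℤ) => by
        change (φ ∘ₗ bd ℤ K) ∘ₗ sgC K = -((φ ∘ₗ sgC K) ∘ₗ bd ℤ K)
        refine LinearMap.ext fun x => ?_
        rw [LinearMap.neg_apply, LinearMap.comp_apply, LinearMap.comp_apply, LinearMap.comp_apply,
          LinearMap.comp_apply, fs0_bd_sg, map_neg]
      rt := fun h (φ : Ch ℤ K →ₗ[ℤ] ℤ) => by
        change (φ ∘ₗ sgC K) ∘ₗ cmap ℤ (α h) = (φ ∘ₗ cmap ℤ (α h)) ∘ₗ sgC K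
        refine LinearMap.ext fun x => ?_
        rw [LinearMap.comp_apply, LinearMap.comp_apply, LinearMap.comp_apply,
          LinearMap.comp_apply, fs0_cmap_sg]
      rb := fun h (φ : Ch ℤ K →ₗ[ℤ] ℤ) => by
        change (φ ∘ₗ bd ℤ K) ∘ₗ cmap ℤ (α h) = (φ ∘ₗ cmap ℤ (α h)) ∘ₗ bd ℤ K
        refine LinearMap.ext fun x => ?_
        rw [LinearMap.comp_apply, LinearMap.comp_apply, LinearMap.comp_apply,
          LinearMap.comp_apply, cmap_bd]
      r1 := fun (φ : Ch ℤ K →ₗ[ℤ] ℤ) => by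
        change φ ∘ₗ cmap ℤ (α 1) = φ
        refine LinearMap.ext fun x => ?_
        rw [LinearMap.comp_apply, h1, cmap_id]
      rr := fun h h' (φ : Ch ℤ K →ₗ[ℤ] ℤ) => by
        change φ ∘ₗ cmap ℤ (α (h * h')) = (φ ∘ₗ cmap ℤ (α h)) ∘ₗ cmap ℤ (α h')
        refine LinearMap.ext fun x => ?_
        rw [LinearMap.comp_apply, LinearMap.comp_apply, LinearMap.comp_apply, hα, cmap_comp]
      neg := fun d hd (φ : Ch ℤ K →ₗ[ℤ] ℤ) hφ => by
        change φ = 0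
        refine ch_ext fun n x => ?_
        rw [LinearMap.zero_apply]
        exact hφ n (by omega) _ (sx_mem_gr ℤ x)
      Dt := fun d φ hφ i hi y hy => hφ i hi _ (fs0_sg_gr hy)
      Db := fun d (φ : Ch ℤ K →ₗ[ℤ] ℤ) hφ i hi y hy => by
        change φ (bd ℤ K y) = 0
        cases i with
        | zero => rw [fs0_bd_gr0 hy, map_zero]
        | succ i =>
          refine hφ i (fun h => hi ?_) _ (fs0_bd_gr hy)
          push_cast
          rw [h]
      Dr := fun h d φ hφ i hi y hy => hφ i hi _ (fs0_cmap_gr (α h) hy)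
      Ds := fun d (φ : Ch ℤ K →ₗ[ℤ] ℤ) hφ => by
        change φ ∘ₗ sgC K = (d.negOnePow : ℤ) • φ
        refine ch_ext fun n x => ?_
        rw [LinearMap.comp_apply, LinearMap.smul_apply, fs0_sg_sx, map_smul]
        by_cases h : (n : ℤ) = d
        · rw [h]
        · have h0 : φ (sx ℤ x) = 0 := hφ n h _ (sx_mem_gr ℤ x)
          rw [h0, smul_zero, smul_zero]
      Pt := fun _ _ => AddSubgroup.mem_top _
      Pb := fun _ _ => AddSubgroup.mem_top _
      Pr' := fun _ _ _ => AddSubgroup.mem_top _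
      bb := fun (φ : Ch ℤ K →ₗ[ℤ] ℤ) _ => by
        change (φ ∘ₗ bd ℤ K) ∘ₗ bd ℤ K = 0
        refine LinearMap.ext fun x => ?_
        rw [LinearMap.comp_apply, LinearMap.comp_apply, bd_bd, map_zero, LinearMap.zero_apply] }

end HRx
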