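import Pool.Agent.Lib.MP_181146_gt.HR.SpecA

/-!
# Project HR: functionals on the product with a circle
-/

set_option autoImplicit false

namespace HRx

open HEp HPx

private theorem FSc_ext {Φ : Type} {φ ψ : CF Φ} (h1 : ∀ j c, φ.1 j c = ψ.1 j c)
    (h2 : ∀ j c, φ.2 j c = ψ.2 j c) : φ = ψ :=
  Prod.ext (funext fun j => funext fun c => h1 j c) (funext fun j => funext fun c => h2 j c)

private theorem FSc_np (d : ℤ) (j : ℕ) : (d - 2 * (j : ℤ)).negOnePow = d.negOnePow := by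
  rw [sub_eq_add_neg, Int.negOnePow_add, Int.negOnePow_neg, Int.negOnePow_two_mul, mul_one]

private theorem FSc_np2 (d : ℤ) (j : ℕ) :
    ((d - 2 * (j : ℤ) - 1).negOnePow : ℤ) = -(d.negOnePow : ℤ) := by
  rw [Int.negOnePow_sub, FSc_np, Int.negOnePow_one]
  simp

private theorem FSc_tel {Φ : Type} [AddCommGroup Φ] (g : ℤ → Φ) (q : ℕ) (c : ℤ) :
    ∑ a ∈ Finset.range q, (g (c + a + 1) - g (c + a)) = g (c + q) - g c := by
  have h := Finset.sum_range_sub (fun a : ℕ => g (c + a)) q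
  have h2 : ∀ a : ℕ, g (c + ((a + 1 : ℕ) : ℤ)) = g (c + a + 1) := fun a => by
    push_cast
    rw [add_assoc]
  simp only [h2] at h
  rw [h]
  push_cast
  rw [add_zero]

theorem sFSc : S_FSc := by
  intro H _ F hF q ρ h1 hρ
  constructor
  case tt =>
    intro φ
    refine FSc_ext (fun j c => hF.tt _) fun j c => ?_
    change -F.tw (-F.tw (φ.2 j c)) = φ.2 j c
    rw [map_neg, hF.tt, neg_neg]
  case tb =>
    intro φ
    refine FSc_ext (fun j c => ?_) fun j c => ?_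
    · cases j with
      | zero =>
        change F.tw (F.bd (φ.1 0 c) + 0) = -(F.bd (F.tw (φ.1 0 c)) + 0)
        rw [add_zero, add_zero, hF.tb]
      | succ j =>
        change F.tw (F.bd (φ.1 (j + 1) c) + ∑ a ∈ Finset.range q, F.tw (φ.2 j (c + a))) =
          -(F.bd (F.tw (φ.1 (j + 1) c)) + ∑ a ∈ Finset.range q, F.tw (-F.tw (φ.2 j (c + a))))
        simp only [map_add, map_neg, Finset.sum_neg_distrib, map_sum, hF.tt, hF.tb, neg_add, neg_neg]
    · change -F.tw (F.bd (φ.2 j c) + (F.tw (φ.1 j (c + 1)) - F.tw (φ.1 j c))) =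
        -(F.bd (-F.tw (φ.2 j c)) + (F.tw (F.tw (φ.1 j (c + 1))) - F.tw (F.tw (φ.1 j c))))
      simp only [map_add, map_sub, map_neg, hF.tb, hF.tt]
  case rt =>
    intro h φ
    refine FSc_ext (fun j c => hF.rt _ _) fun j c => ?_
    change F.tr h (-F.tw (φ.2 j (c + ρ h))) = -F.tw (F.tr h (φ.2 j (c + ρ h)))
    rw [map_neg, hF.rt]
  case rb =>
    intro h φ
    refine FSc_ext (fun j c => ?_) fun j c => ?_
    · cases j with
      | zero =>
        change F.tr h (F.bd (φ.1 0 (c + ρ h)) + 0) = F.bd (F.tr h (φ.1 0 (c + ρ h))) + 0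
        rw [add_zero, add_zero, hF.rb]
      | succ j =>
        change F.tr h (F.bd (φ.1 (j + 1) (c + ρ h)) +
            ∑ a ∈ Finset.range q, F.tw (φ.2 j (c + ρ h + a))) =
          F.bd (F.tr h (φ.1 (j + 1) (c + ρ h))) +
            ∑ a ∈ Finset.range q, F.tw (F.tr h (φ.2 j (c + a + ρ h)))
        rw [map_add, map_sum, hF.rb]
        refine congrArg _ (Finset.sum_congr rfl fun a _ => ?_)
        rw [hF.rt, add_right_comm]
    · change F.tr h (F.bd (φ.2 j (c + ρ h)) +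
          (F.tw (φ.1 j (c + ρ h + 1)) - F.tw (φ.1 j (c + ρ h)))) =
        F.bd (F.tr h (φ.2 j (c + ρ h))) +
          (F.tw (F.tr h (φ.1 j (c + 1 + ρ h))) - F.tw (F.tr h (φ.1 j (c + ρ h))))
      rw [map_add, map_sub, hF.rb, hF.rt, hF.rt, add_right_comm c 1]
  case r1 =>
    intro φ
    refine FSc_ext (fun j c => ?_) fun j c => ?_
    · change F.tr 1 (φ.1 j (c + ρ 1)) = φ.1 j c
      rw [hF.r1, h1, add_zero]
    · change F.tr 1 (φ.2 j (c + ρ 1)) = φ.2 j c
      rw [hF.r1, h1, add_zero]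
  case rr =>
    intro h h' φ
    refine FSc_ext (fun j c => ?_) fun j c => ?_
    · change F.tr (h * h') (φ.1 j (c + ρ (h * h'))) = F.tr h' (F.tr h (φ.1 j (c + ρ h' + ρ h)))
      rw [hF.rr, hρ, add_assoc, add_comm (ρ h')]
    · change F.tr (h * h') (φ.2 j (c + ρ (h * h'))) = F.tr h' (F.tr h (φ.2 j (c + ρ h' + ρ h)))
      rw [hF.rr, hρ, add_assoc, add_comm (ρ h')]
  case neg =>
    intro d hd φ hφ
    exact FSc_ext (fun j c => hF.neg _ (by omega) _ (hφ j c).1)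
      fun j c => hF.neg _ (by omega) _ (hφ j c).2
  case Dt =>
    intro d φ hφ j c
    exact ⟨hF.Dt _ _ (hφ j c).1, (F.Dg _).neg_mem (hF.Dt _ _ (hφ j c).2)⟩
  case Db =>
    intro d φ hφ j c
    refine ⟨?_, ?_⟩
    · have e1 : d + 1 - 2 * (j : ℤ) = d - 2 * (j : ℤ) + 1 := by ring
      cases j with
      | zero =>
        change F.bd (φ.1 0 c) + 0 ∈ F.Dg (d + 1 - 2 * ((0 : ℕ) : ℤ))
        rw [add_zero, e1]
        exact hF.Db _ _ (hφ 0 c).1
      | succ j =>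
        change F.bd (φ.1 (j + 1) c) + ∑ a ∈ Finset.range q, F.tw (φ.2 j (c + a)) ∈
          F.Dg (d + 1 - 2 * ((j + 1 : ℕ) : ℤ))
        refine (F.Dg _).add_mem ?_ (sum_mem fun a _ => ?_)
        · rw [e1]
          exact hF.Db _ _ (hφ (j + 1) c).1
        · have e2 : d + 1 - 2 * ((j + 1 : ℕ) : ℤ) = d - 2 * (j : ℤ) - 1 := by
            push_cast
            ring
          rw [e2]
          exact hF.Dt _ _ (hφ j _).2
    · have e1 : d + 1 - 2 * (j : ℤ) - 1 = d - 2 * (j : ℤ) - 1 + 1 := by ring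
      have e2 : d + 1 - 2 * (j : ℤ) - 1 = d - 2 * (j : ℤ) := by ring
      change F.bd (φ.2 j c) + (F.tw (φ.1 j (c + 1)) - F.tw (φ.1 j c)) ∈
        F.Dg (d + 1 - 2 * (j : ℤ) - 1)
      refine (F.Dg _).add_mem ?_ ?_
      · rw [e1]
        exact hF.Db _ _ (hφ j c).2
      · rw [e2]
        exact (F.Dg _).sub_mem (hF.Dt _ _ (hφ j _).1) (hF.Dt _ _ (hφ j _).1)
  case Dr =>
    intro h d φ hφ j c
    exact ⟨hF.Dr _ _ _ (hφ j _).1, hF.Dr _ _ _ (hφ j _).2⟩
  case Ds =>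
    intro d φ hφ
    refine FSc_ext (fun j c => ?_) fun j c => ?_
    · change F.tw (φ.1 j c) = (d.negOnePow : ℤ) • φ.1 j c
      rw [hF.Ds _ _ (hφ j c).1, FSc_np]
    · change -F.tw (φ.2 j c) = (d.negOnePow : ℤ) • φ.2 j c
      rw [hF.Ds _ _ (hφ j c).2, FSc_np2, neg_smul, neg_neg]
  case Pt =>
    intro φ hφ j c
    obtain ⟨a1, a2, a3, a4⟩ := hφ j c
    refine ⟨hF.Pt _ a1, F.Pr.neg_mem (hF.Pt _ a2), ?_, ?_⟩
    · change F.tw (φ.1 j (c + q)) = F.tw (φ.1 j c)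
      rw [a3]
    · change -F.tw (φ.2 j (c + q)) = -F.tw (φ.2 j c)
      rw [a4]
  case Pb =>
    intro φ hφ j c
    obtain ⟨a1, a2, a3, a4⟩ := hφ j c
    refine ⟨?_, ?_, ?_, ?_⟩
    · cases j with
      | zero =>
        change F.bd (φ.1 0 c) + 0 ∈ F.Pr
        rw [add_zero]
        exact hF.Pb _ a1
      | succ j =>
        change F.bd (φ.1 (j + 1) c) + ∑ a ∈ Finset.range q, F.tw (φ.2 j (c + a)) ∈ F.Pr
        exact F.Pr.add_mem (hF.Pb _ a1) (sum_mem fun a _ => hF.Pt _ (hφ j _).2.1)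
    · change F.bd (φ.2 j c) + (F.tw (φ.1 j (c + 1)) - F.tw (φ.1 j c)) ∈ F.Pr
      exact F.Pr.add_mem (hF.Pb _ a2)
        (F.Pr.sub_mem (hF.Pt _ (hφ j _).1) (hF.Pt _ (hφ j _).1))
    · cases j with
      | zero =>
        change F.bd (φ.1 0 (c + q)) + 0 = F.bd (φ.1 0 c) + 0
        rw [a3]
      | succ j =>
        change F.bd (φ.1 (j + 1) (c + q)) + ∑ a ∈ Finset.range q, F.tw (φ.2 j (c + q + a)) =
          F.bd (φ.1 (j + 1) c) + ∑ a ∈ Finset.range q, F.tw (φ.2 j (c + a))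
        rw [a3]
        refine congrArg _ (Finset.sum_congr rfl fun a _ => ?_)
        rw [add_right_comm, (hφ j (c + a)).2.2.2]
    · change F.bd (φ.2 j (c + q)) + (F.tw (φ.1 j (c + q + 1)) - F.tw (φ.1 j (c + q))) =
        F.bd (φ.2 j c) + (F.tw (φ.1 j (c + 1)) - F.tw (φ.1 j c))
      rw [a4, a3, add_right_comm, (hφ j (c + 1)).2.2.1]
  case Pr' =>
    intro h φ hφ j c
    obtain ⟨a1, a2, a3, a4⟩ := hφ j (c + ρ h)
    refine ⟨hF.Pr' _ _ a1, hF.Pr' _ _ a2, ?_, ?_⟩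
    · change F.tr h (φ.1 j (c + q + ρ h)) = F.tr h (φ.1 j (c + ρ h))
      rw [add_right_comm, a3]
    · change F.tr h (φ.2 j (c + q + ρ h)) = F.tr h (φ.2 j (c + ρ h))
      rw [add_right_comm, a4]
  case bb =>
    intro φ hφ
    refine FSc_ext (fun j c => ?_) fun j c => ?_
    · cases j with
      | zero =>
        change F.bd (F.bd (φ.1 0 c) + 0) + 0 = 0
        rw [add_zero, add_zero, hF.bb _ (hφ 0 c).1]
      | succ j =>
        change F.bd (F.bd (φ.1 (j + 1) c) + ∑ a ∈ Finset.range q, F.tw (φ.2 j (c + a))) +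
          ∑ a ∈ Finset.range q, F.tw (F.bd (φ.2 j (c + a)) +
            (F.tw (φ.1 j (c + a + 1)) - F.tw (φ.1 j (c + a)))) = 0
        simp only [map_add, map_sub, map_sum, hF.tt, hF.tb, Finset.sum_add_distrib,
          Finset.sum_neg_distrib]
        rw [hF.bb _ (hφ (j + 1) c).1, FSc_tel (fun c => φ.1 j c), (hφ j c).2.2.1]
        abel
    · cases j with
      | zero =>
        change F.bd (F.bd (φ.2 0 c) + (F.tw (φ.1 0 (c + 1)) - F.tw (φ.1 0 c))) +
          (F.tw (F.bd (φ.1 0 (c + 1)) + 0) - F.tw (F.bd (φ.1 0 c) + 0)) = 0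
        simp only [map_add, map_sub, map_zero, hF.tb]
        rw [hF.bb _ (hφ 0 c).2.1]
        abel
      | succ j =>
        change F.bd (F.bd (φ.2 (j + 1) c) + (F.tw (φ.1 (j + 1) (c + 1)) - F.tw (φ.1 (j + 1) c))) +
          (F.tw (F.bd (φ.1 (j + 1) (c + 1)) + ∑ a ∈ Finset.range q, F.tw (φ.2 j (c + 1 + a))) -
            F.tw (F.bd (φ.1 (j + 1) c) + ∑ a ∈ Finset.range q, F.tw (φ.2 j (c + a)))) = 0
        have h := FSc_tel (fun c => φ.2 j c) q c
        rw [Finset.sum_sub_distrib, (hφ j c).2.2.2, sub_self] at h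
        simp only [map_add, map_sub, map_sum, hF.tt, hF.tb]
        rw [hF.bb _ (hφ (j + 1) c).2.1]
        have h' : ∑ a ∈ Finset.range q, φ.2 j (c + 1 + a) = ∑ a ∈ Finset.range q, φ.2 j (c + a + 1) :=
          Finset.sum_congr rfl fun a _ => by rw [add_right_comm]
        rw [h', sub_eq_zero.1 h]
        abel

end HRx
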