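import Pool.Agent.Lib.MP_181146_gt.HR.SpecB

/-!
# Project HR, module GPM: the action of `G` on `Q`
-/

set_option autoImplicit false

namespace HRx

open HEp HPx

/-- `f (c - q e) = z ^ e f c`. -/
private theorem GPM_pow {k V : Type} [CommRing k] [AddCommGroup V] [Module k V] (q : ℕ) (z : k)
    (f : ℤ → V) (hf : ∀ c, f (c - q) = z • f c) (e : ℕ) : ∀ c, f (c - q * e) = z ^ e • f c := by
  induction e with
  | zero =>
    intro c
    rw [Nat.cast_zero, mul_zero, sub_zero, pow_zero, one_smul]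
  | succ e ih =>
    intro c
    have e1 : c - (q : ℤ) * ((e + 1 : ℕ) : ℤ) = c - q * e - q := by
      push_cast
      ring
    rw [e1, hf, ih, smul_smul, pow_succ']

private theorem GPM_lf_one {G : Type} [CommGroup G] (q : ℕ) [NeZero q]
    (ψ : ℕ → G →* Multiplicative (ZMod q)) : lf q ψ 1 = 1 := by
  apply Subtype.ext
  refine Prod.ext rfl ?_
  change (Multiplicative.ofAdd fun i => ((Multiplicative.toAdd (ψ i 1)).val : ℤ)) =
    (Multiplicative.ofAdd (0 : ℕ → ℤ))
  congr 1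
  funext i
  rw [map_one, toAdd_one, ZMod.val_zero, Nat.cast_zero]
  rfl

/-- The elements over `1`. -/
private theorem GPM_A {G : Type} [CommGroup G] (g : GD G) {k : Type} [CommRing k] (z : ℕ → k)
    (D : DM k) (hM : (g.Mn z D 0).OK g.n) (t : Gam g.q g.ψ) (ht : t.1.1 = 1) (e : ℕ → ℕ)
    (hr : ∀ i, rho g.q g.ψ i t = g.q * e i) (n : ℕ) : ∀ f ∈ (g.Mn z D n).Q,
      (g.Mn z D n).A t f = (∏ l ∈ Finset.range n, z (rv g.m l) ^ e (rv g.m l)) • f := by
  induction n with
  | zero =>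
    intro f _
    rw [Finset.range_zero, Finset.prod_empty, one_smul]
    have h1 : (g.Mn z D 0).A t = (g.Mn z D 0).A 1 := by
      change opD D (cmap ℤ (g.al t.1.1)) = opD D (cmap ℤ (g.al 1))
      rw [ht]
    rw [h1]
    exact hM.A1 f
  | succ n ih =>
    intro f hf
    rw [Finset.prod_range_succ, mul_comm, mul_smul]
    refine Prod.ext ?_ ?_
    · funext c
      change (g.Mn z D n).A t (f.1 (c - rho g.q g.ψ (rv g.m n) t)) =
        z (rv g.m n) ^ e (rv g.m n) •
          (∏ l ∈ Finset.range n, z (rv g.m l) ^ e (rv g.m l)) • f.1 c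
      rw [hr, ih _ (hf _).1, GPM_pow g.q (z (rv g.m n)) f.1 (fun c => (hf c).2.2.1), smul_comm]
    · funext c
      change (g.Mn z D n).A t (f.2 (c - rho g.q g.ψ (rv g.m n) t)) =
        z (rv g.m n) ^ e (rv g.m n) •
          (∏ l ∈ Finset.range n, z (rv g.m l) ^ e (rv g.m l)) • f.2 c
      rw [hr, ih _ (hf _).2.1, GPM_pow g.q (z (rv g.m n)) f.2 (fun c => (hf c).2.2.2), smul_comm]

/-- The product over the circles. -/
private theorem GPM_prod {k : Type} [CommRing k] (m : ℕ) (z : ℕ → k) (e : ℕ → ℕ) :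
    ∏ l ∈ Finset.range m, z (rv m l) ^ e (rv m l) = ∏ i : Fin m, z i ^ e i := by
  rw [← Fin.prod_univ_eq_prod_range, ← Finset.prod_range (fun i => z i ^ e i),
    ← Finset.prod_range_reflect (fun i => z i ^ e i) m, Finset.prod_range]
  refine Finset.prod_congr rfl fun i _ => ?_
  have h : rv m (i : ℕ) = m - 1 - (i : ℕ) := if_pos i.2
  rw [h]

theorem sGPM (hOKM : S_OKM) : S_GPM := by
  intro G _ g k _ z D hD
  have hM : (g.M z D).OK g.n := (hOKM G g k z D hD g.m).2.1
  have hM0 : (g.Mn z D 0).OK g.n := (hOKM G g k z D hD 0).2.1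
  refine ⟨⟨fun x => hM.QA _, fun x => hM.GA _, fun x => hM.Ad _, ?_, ?_⟩, ⟨?_, ?_⟩⟩
  · intro x _
    rw [GPM_lf_one]
    exact hM.A1 x
  · intro x y f hf
    set t : Gam g.q g.ψ := (lf g.q g.ψ (x * y))⁻¹ * (lf g.q g.ψ x * lf g.q g.ψ y) with ht
    have h1 : lf g.q g.ψ x * lf g.q g.ψ y = lf g.q g.ψ (x * y) * t := by
      rw [ht, mul_inv_cancel_left]
    have h2 : t.1.1 = 1 := by
      change (x * y)⁻¹ * (x * y) = 1
      exact inv_mul_cancel (x * y)
    have h3 : ∀ i, rho g.q g.ψ i t = g.q * (HHx.carry (g.ψ i) x y : ℕ) := by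
      intro i
      change -((Multiplicative.toAdd (g.ψ i (x * y))).val : ℤ) +
        (((Multiplicative.toAdd (g.ψ i x)).val : ℤ) + ((Multiplicative.toAdd (g.ψ i y)).val : ℤ)) = _
      have h4 := HHx.val_mul_carry (g.ψ i) x y
      have h5 : ((Multiplicative.toAdd (g.ψ i x)).val : ℤ) +
          ((Multiplicative.toAdd (g.ψ i y)).val : ℤ) =
          ((Multiplicative.toAdd (g.ψ i (x * y))).val : ℤ) + g.q * (HHx.carry (g.ψ i) x y : ℕ) := by
        exact_mod_cast h4
      rw [h5]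
      ring
    have h6 := GPM_prod g.m z (fun i => HHx.carry (g.ψ i) x y)
    rw [← hM.AA, h1, hM.AA, GPM_A g z D hM0 t h2 (fun i => HHx.carry (g.ψ i) x y) h3 g.m f hf, h6,
      map_smul]
  · intro x f
    rw [hM.ZA, ← hM.As]
    have h1 : g.F.tr (lf g.q g.ψ x) g.V = g.V := g.vr _
    rw [h1]
  · intro x f
    exact (hM.AΞ _ f).symm

end HRx
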