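import Pool.Agent.Lib.MP_181146_gt.HR.SpecB

/-!
# Project HR: MCm (maps commuting with all operators)
-/

set_option autoImplicit false

namespace HRx

open HEp HPx

section

variable {k k' : Type} [CommRing k] [CommRing k'] {H : Type} {F : FS H} {M : MS k H F}
  {M' : MS k' H F} {f : M.V →+ M'.V}

private lemma MCm_pow (hf : MC M M' f) (i j : ℕ) (x : M.V) :
    f ((M.Y i ^ j) x) = (M'.Y i ^ j) (f x) := by
  induction j with
  | zero => rfl
  | succ j ih =>
    rw [pow_succ', pow_succ', Module.End.mul_apply, Module.End.mul_apply, hf.fY, ih]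

private lemma MCm_circ (hf : MC M M' f) (q b i : ℕ) (z : k) (z' : k') (ρ : H → ℤ) :
    MC (M.circ q b i z ρ) (M'.circ q b i z' ρ) (cirF f) where
  fd := fun x => by
    refine Prod.ext ?_ ?_
    · funext c
      change f (M.δ (x.1 c) + (M.sg (x.2 (c - 1)) - M.sg (x.2 c))) =
        M'.δ (f (x.1 c)) + (M'.sg (f (x.2 (c - 1))) - M'.sg (f (x.2 c)))
      rw [map_add, map_sub, hf.fd, hf.fs, hf.fs]
    · funext c
      change f (M.δ (x.2 c) + ∑ a ∈ Finset.range q, M.Y i (M.sg (x.1 (c - a)))) =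
        M'.δ (f (x.2 c)) + ∑ a ∈ Finset.range q, M'.Y i (M'.sg (f (x.1 (c - a))))
      rw [map_add, map_sum, hf.fd]
      simp only [hf.fY, hf.fs]
  fs := fun x => by
    refine Prod.ext ?_ ?_
    · funext c
      exact hf.fs _
    · funext c
      change f (-M.sg (x.2 c)) = -M'.sg (f (x.2 c))
      rw [map_neg, hf.fs]
  fY := fun j x => by
    refine Prod.ext ?_ ?_ <;>
    · funext c
      exact hf.fY j _
  fZ := fun φ x => by
    refine Prod.ext ?_ ?_
    · funext c
      change f (∑ j ∈ Finset.range (b + 1),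
        (M.Z (φ.1 j c) ((M.Y i ^ j) (x.1 c)) + M.Z (φ.2 j c) ((M.Y i ^ j) (x.2 c)))) =
        ∑ j ∈ Finset.range (b + 1),
        (M'.Z (φ.1 j c) ((M'.Y i ^ j) (f (x.1 c))) + M'.Z (φ.2 j c) ((M'.Y i ^ j) (f (x.2 c))))
      rw [map_sum]
      refine Finset.sum_congr rfl fun j _ => ?_
      rw [map_add, hf.fZ, hf.fZ, MCm_pow hf, MCm_pow hf]
    · funext c
      change f (∑ j ∈ Finset.range (b + 1),
        (M.Z (F.tw (φ.1 j (c + 1))) ((M.Y i ^ j) (x.2 c)) +
          ∑ s ∈ Finset.range q, ∑ a ∈ Finset.range s,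
            M.Z (F.tw (φ.2 j (c - a + s))) ((M.Y i ^ (j + 1)) (x.1 (c - a))))) =
        ∑ j ∈ Finset.range (b + 1),
        (M'.Z (F.tw (φ.1 j (c + 1))) ((M'.Y i ^ j) (f (x.2 c))) +
          ∑ s ∈ Finset.range q, ∑ a ∈ Finset.range s,
            M'.Z (F.tw (φ.2 j (c - a + s))) ((M'.Y i ^ (j + 1)) (f (x.1 (c - a)))))
      rw [map_sum]
      refine Finset.sum_congr rfl fun j _ => ?_
      rw [map_add, hf.fZ, MCm_pow hf, map_sum]
      congr 1
      refine Finset.sum_congr rfl fun s _ => ?_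
      rw [map_sum]
      refine Finset.sum_congr rfl fun a _ => ?_
      rw [hf.fZ, MCm_pow hf]
  fW := fun x => by
    refine Prod.ext ?_ ?_ <;>
    · funext c
      exact hf.fW _
  fA := fun h x => by
    refine Prod.ext ?_ ?_ <;>
    · funext c
      exact hf.fA h _

end

theorem sMCm : S_MCm := by
  intro k k' _ _ H F M M' f hf q b ix z z' hz ρ n
  induction n with
  | zero => exact ⟨hf, fun _ h => h, fun h => h, fun _ _ h => h⟩
  | succ n ih =>
    obtain ⟨h1, h2, h3, h4⟩ := ih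
    refine ⟨MCm_circ h1 q b (ix n) (z (ix n)) (z' (ix n)) (ρ (ix n)), ?_, ?_, ?_⟩
    · intro w hw i x hx c
      refine ⟨h2 w hw i _ (hx c).1, ?_⟩
      have h5 := h2 w hw (i - 1) _ (hx c).2
      have e : i - 1 - w = i - w - 1 := by ring
      rw [e] at h5
      exact h5
    · intro hQ x hx c
      obtain ⟨k1, k2, k3, k4⟩ := hx c
      refine ⟨h3 hQ _ k1, h3 hQ _ k2, ?_, ?_⟩
      · change mitF f q b ix z z' ρ n (x.1 (c - q)) = z' (ix n) • mitF f q b ix z z' ρ n (x.1 c)
        rw [k3, h4 _ _ (hz (ix n))]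
      · change mitF f q b ix z z' ρ n (x.2 (c - q)) = z' (ix n) • mitF f q b ix z z' ρ n (x.2 c)
        rw [k4, h4 _ _ (hz (ix n))]
    · intro r r' hr x
      refine Prod.ext ?_ ?_ <;>
      · funext c
        exact h4 r r' hr _

end HRx
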