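import Pool.Agent.Lib.MP_181146_gt.HR.SpecA

/-!
# Project HR, MHc: maps compatible with all operators induce such maps on the products with a circle
-/

set_option autoImplicit false
set_option linter.unusedVariables false

namespace HRx

open HEp HPx

private lemma mhcPow {k k' : Type} [CommRing k] [CommRing k'] {H : Type} [Group H] {F : FS H}
    {M : MS k H F} {M' : MS k' H F} (f : MHom M M') (i j : ℕ) :
    ∀ x, f.f ((M.Y i ^ j) x) = (M'.Y i ^ j) (f.f x) := by
  induction j with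
  | zero => intro x; rfl
  | succ j ih =>
    intro x
    rw [pow_succ, pow_succ]
    change f.f ((M.Y i ^ j) (M.Y i x)) = (M'.Y i ^ j) (M'.Y i (f.f x))
    rw [ih, f.fY]

theorem sMHc : S_MHc := by
  intro k k' _ _ H _ F M M' f q b i z z' ρ
  refine ⟨⟨cirF f.f, ?_, ?_, ?_, ?_, ?_, ?_, ?_⟩, rfl⟩
  · intro x
    refine Prod.ext ?_ ?_
    · funext c
      change f.f (M.δ (x.1 c) + (M.sg (x.2 (c - 1)) - M.sg (x.2 c))) =
        M'.δ (f.f (x.1 c)) + (M'.sg (f.f (x.2 (c - 1))) - M'.sg (f.f (x.2 c)))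
      rw [map_add, map_sub, f.fd, f.fs, f.fs]
    · funext c
      change f.f (M.δ (x.2 c) + ∑ a ∈ Finset.range q, M.Y i (M.sg (x.1 (c - a)))) =
        M'.δ (f.f (x.2 c)) + ∑ a ∈ Finset.range q, M'.Y i (M'.sg (f.f (x.1 (c - a))))
      rw [map_add, map_sum, f.fd]
      congr 1
      refine Finset.sum_congr rfl fun a _ => ?_
      rw [f.fY, f.fs]
  · intro x
    refine Prod.ext ?_ ?_
    · funext c
      exact f.fs _
    · funext c
      change f.f (-M.sg (x.2 c)) = -M'.sg (f.f (x.2 c))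
      rw [map_neg, f.fs]
  · intro l x
    refine Prod.ext ?_ ?_
    · funext c
      exact f.fY _ _
    · funext c
      exact f.fY _ _
  · intro φ x
    refine Prod.ext ?_ ?_
    · funext c
      change f.f (∑ j ∈ Finset.range (b + 1),
        (M.Z (φ.1 j c) ((M.Y i ^ j) (x.1 c)) + M.Z (φ.2 j c) ((M.Y i ^ j) (x.2 c)))) =
        ∑ j ∈ Finset.range (b + 1),
        (M'.Z (φ.1 j c) ((M'.Y i ^ j) (f.f (x.1 c))) +
          M'.Z (φ.2 j c) ((M'.Y i ^ j) (f.f (x.2 c))))
      rw [map_sum]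
      refine Finset.sum_congr rfl fun j _ => ?_
      rw [map_add, f.fZ, f.fZ, mhcPow f, mhcPow f]
    · funext c
      change f.f (∑ j ∈ Finset.range (b + 1),
        (M.Z (F.tw (φ.1 j (c + 1))) ((M.Y i ^ j) (x.2 c)) +
          ∑ s ∈ Finset.range q, ∑ a ∈ Finset.range s,
            M.Z (F.tw (φ.2 j (c - a + s))) ((M.Y i ^ (j + 1)) (x.1 (c - a))))) =
        ∑ j ∈ Finset.range (b + 1),
        (M'.Z (F.tw (φ.1 j (c + 1))) ((M'.Y i ^ j) (f.f (x.2 c))) +
          ∑ s ∈ Finset.range q, ∑ a ∈ Finset.range s,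
            M'.Z (F.tw (φ.2 j (c - a + s))) ((M'.Y i ^ (j + 1)) (f.f (x.1 (c - a)))))
      rw [map_sum]
      refine Finset.sum_congr rfl fun j _ => ?_
      rw [map_add, f.fZ, mhcPow f, map_sum]
      congr 1
      refine Finset.sum_congr rfl fun s _ => ?_
      rw [map_sum]
      refine Finset.sum_congr rfl fun a _ => ?_
      rw [f.fZ, mhcPow f]
  · intro x
    refine Prod.ext ?_ ?_
    · funext c
      exact f.fΞ _
    · funext c
      exact f.fΞ _
  · intro h x
    refine Prod.ext ?_ ?_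
    · funext c
      exact f.fA _ _
    · funext c
      exact f.fA _ _
  · intro d x hx c
    exact ⟨f.fG _ _ (hx c).1, f.fG _ _ (hx c).2⟩

end HRx
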