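import Pool.Agent.Lib.MP_181146_gt.HR.SpecA

/-!
# Project HR, module `MS0`: the base of the circle construction
-/

set_option autoImplicit false

namespace HRx

open HEp HPx

section

variable {K : SS}

private lemma m0_gr_ind {M : Type} [AddCommGroup M] {f : Ch ℤ K →ₗ[ℤ] M} {S : Submodule ℤ M} {m : ℕ}
    (h : ∀ σ : K.K m, f (sx ℤ σ) ∈ S) {x : Ch ℤ K} (hx : x ∈ gr ℤ K m) : f x ∈ S := by
  have hle : gr ℤ K m ≤ S.comap f := by
    rw [gr, Finsupp.supported_eq_span_single, Submodule.span_le]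
    rintro _ ⟨⟨m', σ⟩, hσ, rfl⟩
    have hσ' : m' = m := hσ
    subst hσ'
    exact h σ
  exact hle hx

private lemma m0_gr_eq {M : Type} [AddCommGroup M] {f g : Ch ℤ K →ₗ[ℤ] M} {m : ℕ}
    (h : ∀ σ : K.K m, f (sx ℤ σ) = g (sx ℤ σ)) {x : Ch ℤ K} (hx : x ∈ gr ℤ K m) : f x = g x := by
  have := m0_gr_ind (f := f - g) (S := ⊥) (m := m) (fun σ => by
    rw [LinearMap.sub_apply, h σ, sub_self]
    exact Submodule.zero_mem _) hx
  rw [LinearMap.sub_apply, Submodule.mem_bot] at this
  exact sub_eq_zero.1 this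

private lemma m0_bd_gr {m : ℕ} {x : Ch ℤ K} (hx : x ∈ gr ℤ K (m + 1)) : bd ℤ K x ∈ gr ℤ K m := by
  refine m0_gr_ind (fun σ => ?_) hx
  rw [bd_sx]
  exact Submodule.sum_mem _ fun i _ => Submodule.smul_mem _ _ (sx_mem_gr ℤ _)

private lemma m0_bd_gr0 {x : Ch ℤ K} (hx : x ∈ gr ℤ K 0) : bd ℤ K x = 0 :=
  m0_gr_eq (g := 0) (fun σ => bd_sx_zero ℤ σ) hx

private lemma m0_cmap_gr (f : SSHom K K) {m : ℕ} {x : Ch ℤ K} (hx : x ∈ gr ℤ K m) :
    cmap ℤ f x ∈ gr ℤ K m := by
  refine m0_gr_ind (fun σ => ?_) hx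
  rw [cmap_sx]
  exact sx_mem_gr ℤ _

private lemma m0_sg_apply (x : Ch ℤ K) : sgC K x = x - (2 : ℤ) • od ℤ K x := rfl

private lemma m0_sg_sx {n : ℕ} (x : K.K n) : sgC K (sx ℤ x) = ((-1 : ℤ) ^ n) • sx ℤ x := by
  rw [m0_sg_apply, od_sx]
  by_cases h : Odd n
  · rw [if_pos h, h.neg_one_pow, two_smul, neg_one_smul]
    abel
  · rw [if_neg h, (Nat.not_odd_iff_even.1 h).neg_one_pow, smul_zero, sub_zero, one_smul]

private lemma m0_sg_gr {m : ℕ} {x : Ch ℤ K} (hx : x ∈ gr ℤ K m) :
    sgC K x = ((-1 : ℤ) ^ m) • x :=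
  m0_gr_eq (f := sgC K) (g := ((-1 : ℤ) ^ m) • LinearMap.id) (fun σ => m0_sg_sx σ) hx

private lemma m0_sg_mem {m : ℕ} {x : Ch ℤ K} (hx : x ∈ gr ℤ K m) : sgC K x ∈ gr ℤ K m := by
  rw [m0_sg_gr hx]
  exact Submodule.smul_mem _ _ hx

private lemma m0_ss : sgC K ∘ₗ sgC K = LinearMap.id := by
  apply ch_ext
  intro n x
  rw [LinearMap.comp_apply, m0_sg_sx, map_smul, m0_sg_sx, smul_smul, ← pow_add,
    (Even.add_self n).neg_one_pow, one_smul]
  rfl

private lemma m0_sd : sgC K ∘ₗ bd ℤ K = -(bd ℤ K ∘ₗ sgC K) := by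
  apply LinearMap.ext
  intro x
  rw [LinearMap.neg_apply, LinearMap.comp_apply, LinearMap.comp_apply, m0_sg_apply, m0_sg_apply,
    od_bd, map_sub, map_sub, map_smul, smul_sub, two_smul]
  abel

private lemma m0_cs (f : SSHom K K) : cmap ℤ f ∘ₗ sgC K = sgC K ∘ₗ cmap ℤ f := by
  apply LinearMap.ext
  intro x
  rw [LinearMap.comp_apply, LinearMap.comp_apply, m0_sg_apply, m0_sg_apply, map_sub, map_smul,
    cmap_od]

private lemma m0_cb (f : SSHom K K) : cmap ℤ f ∘ₗ bd ℤ K = bd ℤ K ∘ₗ cmap ℤ f :=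
  LinearMap.ext fun x => cmap_bd ℤ f x

private lemma m0_as (a : Ch ℤ K →ₗ[ℤ] Ch ℤ K) (n : ℕ) (hn : Odd n)
    (hag : ∀ i, ∀ y ∈ gr ℤ K i, a y ∈ gr ℤ K (i + n)) : a ∘ₗ sgC K = -(sgC K ∘ₗ a) := by
  apply ch_ext
  intro m x
  rw [LinearMap.neg_apply, LinearMap.comp_apply, LinearMap.comp_apply, m0_sg_sx, map_smul,
    m0_sg_gr (hag m _ (sx_mem_gr ℤ x)), pow_add, hn.neg_one_pow, mul_neg_one, neg_smul, neg_neg]

end

section

variable {k : Type} [CommRing k] {K : SS}

private lemma m0_comp (hO : S_OpN) (D : DM k) (A B : Ch ℤ K →ₗ[ℤ] Ch ℤ K) (x : ChD K D) :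
    opD D A (opD D B x) = opD D (A ∘ₗ B) x := by
  funext j
  change (opN (D.D j) A : ChN K (D.D j) →ₗ[k] ChN K (D.D j)) (opN (D.D j) B (x j)) =
    opN (D.D j) (A ∘ₗ B) (x j)
  rw [(hO K k (D.D j)).2.1 A B]
  rfl

private lemma m0_id (hO : S_OpN) (D : DM k) (x : ChD K D) : opD D LinearMap.id x = x := by
  funext j
  change (opN (D.D j) LinearMap.id : ChN K (D.D j) →ₗ[k] ChN K (D.D j)) (x j) = x j
  rw [(hO K k (D.D j)).1]
  rfl

private lemma m0_add (hO : S_OpN) (D : DM k) (A B : Ch ℤ K →ₗ[ℤ] Ch ℤ K) (x : ChD K D) :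
    opD D (A + B) x = opD D A x + opD D B x := by
  funext j
  change (opN (D.D j) (A + B) : ChN K (D.D j) →ₗ[k] ChN K (D.D j)) (x j) =
    opN (D.D j) A (x j) + opN (D.D j) B (x j)
  rw [(hO K k (D.D j)).2.2.1 A B]
  rfl

private lemma m0_smul (hO : S_OpN) (D : DM k) (r : ℤ) (A : Ch ℤ K →ₗ[ℤ] Ch ℤ K) (x : ChD K D) :
    opD D (r • A) x = r • opD D A x := by
  funext j
  change (opN (D.D j) (r • A) : ChN K (D.D j) →ₗ[k] ChN K (D.D j)) (x j) =
    r • opN (D.D j) A (x j)
  rw [(hO K k (D.D j)).2.2.2.1 r A]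
  rfl

private lemma m0_neg (hO : S_OpN) (D : DM k) (A : Ch ℤ K →ₗ[ℤ] Ch ℤ K) (x : ChD K D) :
    opD D (-A) x = -opD D A x := by
  rw [← neg_one_smul ℤ A, m0_smul hO, neg_one_smul]

private lemma m0_zero (D : DM k) (x : ChD K D) (hO : S_OpN) :
    opD D (0 : Ch ℤ K →ₗ[ℤ] Ch ℤ K) x = 0 := by
  rw [← zero_smul ℤ (LinearMap.id : Ch ℤ K →ₗ[ℤ] Ch ℤ K), m0_smul hO, zero_smul]

private lemma m0_Y (hO : S_OpN) (D : DM k) (i : ℕ) (A : Ch ℤ K →ₗ[ℤ] Ch ℤ K) (x : ChD K D) :
    yD K D i (opD D A x) = opD D A (yD K D i x) := by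
  funext j
  exact (hO K k (D.D (j + 1))).2.2.2.2.2.2 k (D.D j) (D.Y i j).toAddMonoidHom A (x (j + 1))

private lemma m0_deg (hO : S_OpN) (D : DM k) (A : Ch ℤ K →ₗ[ℤ] Ch ℤ K) (e : ℤ)
    (h1 : ∀ m m' : ℕ, (m' : ℤ) = m + e → ∀ y ∈ gr ℤ K m, A y ∈ gr ℤ K m')
    (h2 : ∀ m : ℕ, (m : ℤ) + e < 0 → ∀ y ∈ gr ℤ K m, A y = 0) (i : ℤ) (x : ChD K D)
    (hx : x ∈ grD K D i) : opD D A x ∈ grD K D (i + e) := by
  intro j y hy
  change (opN (D.D j) A : ChN K (D.D j) →ₗ[k] ChN K (D.D j)) (x j) y = 0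
  by_cases hi : i - 2 * (j : ℤ) < 0
  · have h0 : x j = 0 := by
      ext z
      exact hx j z (by have h3 : (0 : ℤ) ≤ (z.1 : ℤ) := Int.natCast_nonneg _; omega)
    rw [h0, map_zero]
    rfl
  · obtain ⟨m, hm⟩ := Int.eq_ofNat_of_zero_le (not_lt.1 hi)
    have hs : ∀ z : (Σ n, K.K n), z.1 ≠ m → x j z = 0 := fun z hz => hx j z (by omega)
    by_cases he : (m : ℤ) + e < 0
    · rw [(hO K k (D.D j)).2.2.2.2.2.1 A m (h2 m he) (x j) hs]
      rfl
    · obtain ⟨m', hm'⟩ := Int.eq_ofNat_of_zero_le (not_lt.1 he)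
      exact (hO K k (D.D j)).2.2.2.2.1 A m m' (h1 m m' hm'.symm) (x j) hs y (by omega)

/-- operators of degree `0` -/
private lemma m0_deg0 (hO : S_OpN) (D : DM k) (A : Ch ℤ K →ₗ[ℤ] Ch ℤ K)
    (h1 : ∀ m : ℕ, ∀ y ∈ gr ℤ K m, A y ∈ gr ℤ K m) (i : ℤ) (x : ChD K D)
    (hx : x ∈ grD K D i) : opD D A x ∈ grD K D i := by
  have h := m0_deg hO D A 0 (fun m m' h y hy => by
    have h' : m' = m := by omega
    subst h'
    exact h1 m' y hy) (fun m h => by omega) i x hx
  rwa [add_zero] at h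

private lemma m0_sgn (hO : S_OpN) (D : DM k) (i : ℤ) (x : ChD K D) (hx : x ∈ grD K D i) :
    opD D (sgC K) x = (i.negOnePow : ℤ) • x := by
  funext j
  change (opN (D.D j) (sgC K) : ChN K (D.D j) →ₗ[k] ChN K (D.D j)) (x j) =
    (i.negOnePow : ℤ) • x j
  by_cases hi : i - 2 * (j : ℤ) < 0
  · have h0 : x j = 0 := by
      ext z
      exact hx j z (by have h3 : (0 : ℤ) ≤ (z.1 : ℤ) := Int.natCast_nonneg _; omega)
    rw [h0, map_zero, smul_zero]
  · obtain ⟨m, hm⟩ := Int.eq_ofNat_of_zero_le (not_lt.1 hi)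
    have hs : ∀ z : (Σ n, K.K n), z.1 ≠ m → x j z = 0 := fun z hz => hx j z (by omega)
    have hi' : (i.negOnePow : ℤ) = (-1 : ℤ) ^ m := by
      have h4 : i = (m : ℤ) + (j : ℤ) + (j : ℤ) := by omega
      rw [h4, Int.negOnePow_add, Int.negOnePow_add]
      have h5 : ((m : ℤ).negOnePow : ℤ) = (-1 : ℤ) ^ m := by
        rw [Int.negOnePow_def, zpow_natCast]
        push_cast
        rfl
      have h6 : (((j : ℤ).negOnePow : ℤˣ) * (j : ℤ).negOnePow) = 1 := Int.units_mul_self _
      rw [mul_assoc, h6, mul_one, h5]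
    have h7 := (hO K k (D.D j)).2.2.2.2.2.1 (sgC K + (-((-1 : ℤ) ^ m)) • LinearMap.id) m
      (fun y hy => by
        rw [LinearMap.add_apply, LinearMap.smul_apply, LinearMap.id_apply, m0_sg_gr hy, neg_smul,
          add_neg_cancel]) (x j) hs
    rw [(hO K k (D.D j)).2.2.1, (hO K k (D.D j)).2.2.2.1, (hO K k (D.D j)).1,
      LinearMap.add_apply, LinearMap.smul_apply, LinearMap.id_apply, neg_smul,
      ← sub_eq_add_neg, sub_eq_zero] at h7
    rw [h7, hi']

end

theorem sMS0 (hOpN : S_OpN) (hXc1 : S_Xc1) : S_MS0 := by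
  intro k _ H _ K α h1 hα D hD a n hn had hag haα
  have hc := fun A B x => m0_comp hOpN D (K := K) A B x
  refine ⟨?_, ?_, ?_, ?_⟩
  · exact
      { ss := fun (x : ChD K D) => by
          change opD D (sgC K) (opD D (sgC K) x) = x
          rw [hc, m0_ss, m0_id hOpN]
        sd := fun (x : ChD K D) => by
          change opD D (sgC K) (opD D (bd ℤ K) x) = -opD D (bd ℤ K) (opD D (sgC K) x)
          rw [hc, hc, m0_sd, m0_neg hOpN]
        Ys := fun i (x : ChD K D) => m0_Y hOpN D i _ x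
        Yd := fun i (x : ChD K D) => m0_Y hOpN D i _ x
        YY := fun i j (x : ChD K D) => by
          funext l
          ext y
          exact hD i j l (x (l + 1 + 1) y)
        YZ := fun i φ (x : ChD K D) => m0_Y hOpN D i _ x
        Zt := fun φ (x : ChD K D) => by
          change opD D (Xc (φ ∘ₗ sgC K)) x = opD D (sgC K) (opD D (Xc φ) (opD D (sgC K) x))
          rw [hc, hc]
          congr 2
          apply LinearMap.ext
          intro y
          exact (hXc1 K φ).2.1 y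
        Ξd := fun (x : ChD K D) => by
          change opD D a (opD D (bd ℤ K) x) = -opD D (bd ℤ K) (opD D a x)
          rw [hc, hc, ← m0_neg hOpN]
          congr 2
          apply LinearMap.ext
          intro y
          exact had y
        Ξs := fun (x : ChD K D) => by
          change opD D a (opD D (sgC K) x) = -opD D (sgC K) (opD D a x)
          rw [hc, hc, ← m0_neg hOpN, m0_as a n hn hag]
        ΞY := fun i (x : ChD K D) => (m0_Y hOpN D i _ x).symm
        Ad := fun h (x : ChD K D) => by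
          change opD D (cmap ℤ (α h)) (opD D (bd ℤ K) x) = opD D (bd ℤ K) (opD D (cmap ℤ (α h)) x)
          rw [hc, hc, m0_cb]
        As := fun h (x : ChD K D) => by
          change opD D (cmap ℤ (α h)) (opD D (sgC K) x) = opD D (sgC K) (opD D (cmap ℤ (α h)) x)
          rw [hc, hc, m0_cs]
        AY := fun h i (x : ChD K D) => (m0_Y hOpN D i _ x).symm
        AΞ := fun h (x : ChD K D) => by
          change opD D (cmap ℤ (α h)) (opD D a x) = opD D a (opD D (cmap ℤ (α h)) x)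
          rw [hc, hc]
          congr 2
          apply LinearMap.ext
          intro y
          exact (haα h y).symm
        ZA := fun h φ (x : ChD K D) => by
          change opD D (Xc φ) (opD D (cmap ℤ (α h)) x) =
            opD D (cmap ℤ (α h)) (opD D (Xc (φ ∘ₗ cmap ℤ (α h))) x)
          rw [hc, hc]
          congr 2
          apply LinearMap.ext
          intro y
          exact (hXc1 K φ).2.2.2.1 (α h) y
        A1 := fun (x : ChD K D) => by
          change opD D (cmap ℤ (α 1)) x = x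
          have h2 : cmap ℤ (α 1) = LinearMap.id := by
            rw [h1]
            exact LinearMap.ext fun y => cmap_id ℤ y
          rw [h2, m0_id hOpN]
        AA := fun h h' (x : ChD K D) => by
          change opD D (cmap ℤ (α (h * h'))) x = opD D (cmap ℤ (α h)) (opD D (cmap ℤ (α h')) x)
          rw [hc, hα]
          congr 2
          apply LinearMap.ext
          intro y
          exact cmap_comp ℤ (α h) (α h') y
        Gd := fun i (x : ChD K D) hx => by
          have h := m0_deg hOpN D (bd ℤ K) (-1) (fun m m' hm y hy => by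
            have h' : m = m' + 1 := by omega
            subst h'
            exact m0_bd_gr hy) (fun m hm y hy => by
            have h' : m = 0 := by omega
            subst h'
            exact m0_bd_gr0 hy) i x hx
          exact h
        Gs := fun i (x : ChD K D) hx => m0_deg0 hOpN D (sgC K) (fun m y hy => m0_sg_mem hy) i x hx
        GY := fun l i (x : ChD K D) hx j y hy => by
          change D.Y l j (x (j + 1) y) = 0
          rw [hx (j + 1) y (by push_cast; omega), map_zero]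
        GZ := fun d (φ : Ch ℤ K →ₗ[ℤ] ℤ) hφ i (x : ChD K D) hx => by
          change opD D (Xc φ) x ∈ grD K D (i - d)
          by_cases hd : d < 0
          · have h0 : φ = 0 := by
              apply ch_ext
              intro m y
              exact hφ m (by omega) _ (sx_mem_gr ℤ y)
            have h2 : Xc φ = 0 := by
              have h3 := Xc_add φ φ
              rw [h0, add_zero] at h3
              rw [h0]
              exact left_eq_add.1 h3
            rw [h2, m0_zero D x hOpN]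
            exact Submodule.zero_mem _
          · obtain ⟨e, he⟩ := Int.eq_ofNat_of_zero_le (not_lt.1 hd)
            subst he
            have h3 := (hXc1 K φ).2.2.2.2 e (fun i' hi' y hy => hφ i' (by exact_mod_cast hi') y hy)
            have h := m0_deg hOpN D (Xc φ) (-(e : ℤ)) (fun m m' hm y hy => by
              have h' : m = m' + e := by omega
              subst h'
              exact h3.1 m' y hy) (fun m hm y hy => h3.2 m (by omega) y hy) i x hx
            exact h
        GΞ := fun i (x : ChD K D) hx => by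
          exact m0_deg hOpN D a (n : ℤ) (fun m m' hm y hy => by
            have h' : m' = m + n := by omega
            subst h'
            exact hag m y hy) (fun m hm => by omega) i x hx
        GA := fun h i (x : ChD K D) hx => m0_deg0 hOpN D _ (fun m y hy => m0_cmap_gr _ hy) i x hx
        G0 := fun i hi (x : ChD K D) hx => by
          funext j
          ext y
          exact hx j y (by have h3 : (0 : ℤ) ≤ (y.1 : ℤ) := Int.natCast_nonneg _; omega)
        Gp := fun i (x : ChD K D) hx => m0_sgn hOpN D i x hx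
        Qd := fun _ _ => trivial
        Qs := fun _ _ => trivial
        QY := fun _ _ _ => trivial
        QZ := fun _ _ _ _ => trivial
        QΞ := fun _ _ => trivial
        QA := fun _ _ _ => trivial }
  · intro φ (x : ChD K D)
    change opD D (Xc φ) (opD D (bd ℤ K) x) = opD D (bd ℤ K) (opD D (Xc φ) x) +
      opD D (sgC K) (opD D (Xc (φ ∘ₗ bd ℤ K)) x)
    rw [hc, hc, hc, ← m0_add hOpN]
    congr 2
    apply LinearMap.ext
    intro y
    exact (hXc1 K φ).1 y
  · intro (x : ChD K D)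
    change opD D (bd ℤ K) (opD D (bd ℤ K) x) = 0
    have h2 : bd ℤ K ∘ₗ bd ℤ K = 0 := LinearMap.ext fun y => bd_bd ℤ y
    rw [hc, h2, m0_zero D x hOpN]
  · intro (x : ChD K D)
    change opD D (Xc (aug ℤ K)) x = x
    have h2 : Xc (aug ℤ K) = LinearMap.id :=
      LinearMap.ext fun y => (hXc1 K (aug ℤ K)).2.2.1 y
    rw [h2, m0_id hOpN]

end HRx
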