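import Pool.Agent.Lib.MP_181146_gt.HR.SpecA

/-!
# Project HR: the product of a module with a circle (S_MSc)
-/

set_option autoImplicit false

namespace HRx

open HEp HPx

section

variable {k : Type} [CommRing k] {H : Type} [Group H] {F : FS H}

private lemma msc_pow {V : Type} [AddCommGroup V] [Module k V] (A B : Module.End k V)
    (h : ∀ x, A (B x) = B (A x)) (j : ℕ) (x : V) : (A ^ j) (B x) = B ((A ^ j) x) := by
  induction j generalizing x with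
  | zero => rfl
  | succ j ih =>
    rw [pow_succ, Module.End.mul_apply, Module.End.mul_apply, h, ih]

private lemma msc_ps {M : MS k H F} {n : ℤ} (hM : M.OK n) (i j : ℕ) (x : M.V) :
    (M.Y i ^ j) (M.sg x) = M.sg ((M.Y i ^ j) x) :=
  msc_pow _ _ (hM.Ys i) j x

private lemma msc_pY {M : MS k H F} {n : ℤ} (hM : M.OK n) (i l j : ℕ) (x : M.V) :
    (M.Y i ^ j) (M.Y l x) = M.Y l ((M.Y i ^ j) x) :=
  msc_pow _ _ (hM.YY i l) j x

private lemma msc_pA {M : MS k H F} {n : ℤ} (hM : M.OK n) (i j : ℕ) (h : H) (x : M.V) :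
    (M.Y i ^ j) (M.A h x) = M.A h ((M.Y i ^ j) x) :=
  msc_pow _ _ (fun x => (hM.AY h i x).symm) j x

private lemma msc_pG {M : MS k H F} {n : ℤ} (hM : M.OK n) (i : ℕ) (j : ℕ) (e : ℤ) (x : M.V)
    (hx : x ∈ M.G e) : (M.Y i ^ j) x ∈ M.G (e - 2 * (j : ℤ)) := by
  induction j generalizing x e with
  | zero =>
    have e0 : e - 2 * ((0 : ℕ) : ℤ) = e := by
      rw [Nat.cast_zero]
      ring
    rw [e0]
    exact hx
  | succ j ih =>
    rw [pow_succ, Module.End.mul_apply]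
    have h := ih (e - 2) (M.Y i x) (hM.GY i e x hx)
    have e1 : e - 2 * ((j + 1 : ℕ) : ℤ) = e - 2 - 2 * (j : ℤ) := by
      rw [Nat.cast_add, Nat.cast_one]
      ring
    rw [e1]
    exact h

private lemma msc_pQ {M : MS k H F} {n : ℤ} (hM : M.OK n) (i : ℕ) (j : ℕ) (x : M.V)
    (hx : x ∈ M.Q) : (M.Y i ^ j) x ∈ M.Q := by
  induction j generalizing x with
  | zero => exact hx
  | succ j ih =>
    rw [pow_succ, Module.End.mul_apply]
    exact ih _ (hM.QY i x hx)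

private lemma msc_szs {M : MS k H F} {n : ℤ} (hM : M.OK n) (φ : F.Φ) (x : M.V) :
    M.sg (M.Z φ (M.sg x)) = M.Z (F.tw φ) x := (hM.Zt φ x).symm

private lemma msc_sYs {M : MS k H F} {n : ℤ} (hM : M.OK n) (i : ℕ) (x : M.V) :
    M.sg (M.Y i (M.sg x)) = M.Y i x := by
  rw [hM.Ys, hM.ss]

private lemma msc_ss (M : MS k H F) (n : ℤ) (hM : M.OK n) (q b i : ℕ) (z : k) (ρ : H → ℤ)
    (f : (M.circ q b i z ρ).V) :
    (M.circ q b i z ρ).sg ((M.circ q b i z ρ).sg f) = f := by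
  refine Prod.ext ?_ ?_ <;> funext c
  · exact hM.ss _
  · change -M.sg (-M.sg (f.2 c)) = f.2 c
    rw [map_neg, neg_neg, hM.ss]

private lemma msc_sd (M : MS k H F) (n : ℤ) (hM : M.OK n) (q b i : ℕ) (z : k) (ρ : H → ℤ)
    (f : (M.circ q b i z ρ).V) :
    (M.circ q b i z ρ).sg ((M.circ q b i z ρ).δ f) =
      -(M.circ q b i z ρ).δ ((M.circ q b i z ρ).sg f) := by
  refine Prod.ext ?_ ?_ <;> funext c
  · change M.sg (M.δ (f.1 c) + (M.sg (f.2 (c - 1)) - M.sg (f.2 c))) =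
      -(M.δ (M.sg (f.1 c)) + (M.sg (-M.sg (f.2 (c - 1))) - M.sg (-M.sg (f.2 c))))
    simp only [map_add, map_sub, map_neg, hM.ss, hM.sd]
    abel
  · change -M.sg (M.δ (f.2 c) + ∑ a ∈ Finset.range q, M.Y i (M.sg (f.1 (c - a)))) =
      -(M.δ (-M.sg (f.2 c)) + ∑ a ∈ Finset.range q, M.Y i (M.sg (M.sg (f.1 (c - a)))))
    simp only [map_add, map_sum, map_neg, msc_sYs hM, hM.sd, hM.ss]

private lemma msc_Ys (M : MS k H F) (n : ℤ) (hM : M.OK n) (q b i : ℕ) (z : k) (ρ : H → ℤ)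
    (l : ℕ) (f : (M.circ q b i z ρ).V) :
    (M.circ q b i z ρ).Y l ((M.circ q b i z ρ).sg f) =
      (M.circ q b i z ρ).sg ((M.circ q b i z ρ).Y l f) := by
  refine Prod.ext ?_ ?_ <;> funext c
  · exact hM.Ys _ _
  · change M.Y l (-M.sg (f.2 c)) = -M.sg (M.Y l (f.2 c))
    rw [map_neg, hM.Ys]

private lemma msc_Yd (M : MS k H F) (n : ℤ) (hM : M.OK n) (q b i : ℕ) (z : k) (ρ : H → ℤ)
    (l : ℕ) (f : (M.circ q b i z ρ).V) :
    (M.circ q b i z ρ).Y l ((M.circ q b i z ρ).δ f) =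
      (M.circ q b i z ρ).δ ((M.circ q b i z ρ).Y l f) := by
  refine Prod.ext ?_ ?_ <;> funext c
  · change M.Y l (M.δ (f.1 c) + (M.sg (f.2 (c - 1)) - M.sg (f.2 c))) =
      M.δ (M.Y l (f.1 c)) + (M.sg (M.Y l (f.2 (c - 1))) - M.sg (M.Y l (f.2 c)))
    simp only [map_add, map_sub, hM.Yd, hM.Ys]
  · change M.Y l (M.δ (f.2 c) + ∑ a ∈ Finset.range q, M.Y i (M.sg (f.1 (c - a)))) =
      M.δ (M.Y l (f.2 c)) + ∑ a ∈ Finset.range q, M.Y i (M.sg (M.Y l (f.1 (c - a))))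
    rw [map_add, map_sum, hM.Yd]
    congr 1
    refine Finset.sum_congr rfl fun a _ => ?_
    rw [hM.YY l i, hM.Ys]

private lemma msc_YY (M : MS k H F) (n : ℤ) (hM : M.OK n) (q b i : ℕ) (z : k) (ρ : H → ℤ)
    (l l' : ℕ) (f : (M.circ q b i z ρ).V) :
    (M.circ q b i z ρ).Y l ((M.circ q b i z ρ).Y l' f) =
      (M.circ q b i z ρ).Y l' ((M.circ q b i z ρ).Y l f) := by
  refine Prod.ext ?_ ?_ <;> funext c <;> exact hM.YY _ _ _

private lemma msc_YZ (M : MS k H F) (n : ℤ) (hM : M.OK n) (q b i : ℕ) (z : k) (ρ : H → ℤ)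
    (l : ℕ) (φ : (F.circ q ρ).Φ) (f : (M.circ q b i z ρ).V) :
    (M.circ q b i z ρ).Y l ((M.circ q b i z ρ).Z φ f) =
      (M.circ q b i z ρ).Z φ ((M.circ q b i z ρ).Y l f) := by
  refine Prod.ext ?_ ?_ <;> funext c
  · change M.Y l (∑ j ∈ Finset.range (b + 1),
      (M.Z (φ.1 j c) ((M.Y i ^ j) (f.1 c)) + M.Z (φ.2 j c) ((M.Y i ^ j) (f.2 c)))) =
      ∑ j ∈ Finset.range (b + 1), (M.Z (φ.1 j c) ((M.Y i ^ j) (M.Y l (f.1 c))) +
        M.Z (φ.2 j c) ((M.Y i ^ j) (M.Y l (f.2 c))))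
    simp only [map_sum, map_add, hM.YZ, msc_pY hM]
  · change M.Y l (∑ j ∈ Finset.range (b + 1),
      (M.Z (F.tw (φ.1 j (c + 1))) ((M.Y i ^ j) (f.2 c)) +
        ∑ s ∈ Finset.range q, ∑ a ∈ Finset.range s,
          M.Z (F.tw (φ.2 j (c - a + s))) ((M.Y i ^ (j + 1)) (f.1 (c - a))))) =
      ∑ j ∈ Finset.range (b + 1),
      (M.Z (F.tw (φ.1 j (c + 1))) ((M.Y i ^ j) (M.Y l (f.2 c))) +
        ∑ s ∈ Finset.range q, ∑ a ∈ Finset.range s,
          M.Z (F.tw (φ.2 j (c - a + s))) ((M.Y i ^ (j + 1)) (M.Y l (f.1 (c - a)))))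
    simp only [map_sum, map_add, hM.YZ, msc_pY hM]

private lemma msc_Zt (M : MS k H F) (n : ℤ) (hM : M.OK n) (q b i : ℕ) (z : k)
    (ρ : H → ℤ) (φ : (F.circ q ρ).Φ) (f : (M.circ q b i z ρ).V) :
    (M.circ q b i z ρ).Z ((F.circ q ρ).tw φ) f =
      (M.circ q b i z ρ).sg ((M.circ q b i z ρ).Z φ ((M.circ q b i z ρ).sg f)) := by
  refine Prod.ext ?_ ?_ <;> funext c
  · change ∑ j ∈ Finset.range (b + 1),
      (M.Z (F.tw (φ.1 j c)) ((M.Y i ^ j) (f.1 c)) + M.Z (-F.tw (φ.2 j c)) ((M.Y i ^ j) (f.2 c))) =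
      M.sg (∑ j ∈ Finset.range (b + 1), (M.Z (φ.1 j c) ((M.Y i ^ j) (M.sg (f.1 c))) +
        M.Z (φ.2 j c) ((M.Y i ^ j) (-M.sg (f.2 c)))))
    simp only [map_sum, map_add, map_neg, msc_ps hM, msc_szs hM, LinearMap.neg_apply]
  · change ∑ j ∈ Finset.range (b + 1),
      (M.Z (F.tw (F.tw (φ.1 j (c + 1)))) ((M.Y i ^ j) (f.2 c)) +
        ∑ s ∈ Finset.range q, ∑ a ∈ Finset.range s,
          M.Z (F.tw (-F.tw (φ.2 j (c - a + s)))) ((M.Y i ^ (j + 1)) (f.1 (c - a)))) =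
      -M.sg (∑ j ∈ Finset.range (b + 1),
      (M.Z (F.tw (φ.1 j (c + 1))) ((M.Y i ^ j) (-M.sg (f.2 c))) +
        ∑ s ∈ Finset.range q, ∑ a ∈ Finset.range s,
          M.Z (F.tw (φ.2 j (c - a + s))) ((M.Y i ^ (j + 1)) (M.sg (f.1 (c - a))))))
    rw [map_sum, ← Finset.sum_neg_distrib]
    refine Finset.sum_congr rfl fun j _ => ?_
    simp only [map_sum, map_add, map_neg, msc_ps hM, msc_szs hM, LinearMap.neg_apply, neg_add,
      Finset.sum_neg_distrib, neg_neg]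

private lemma msc_Xd (M : MS k H F) (n : ℤ) (hM : M.OK n) (q b i : ℕ) (z : k) (ρ : H → ℤ)
    (f : (M.circ q b i z ρ).V) :
    (M.circ q b i z ρ).Ξ ((M.circ q b i z ρ).δ f) =
      -(M.circ q b i z ρ).δ ((M.circ q b i z ρ).Ξ f) := by
  refine Prod.ext ?_ ?_ <;> funext c
  · change M.Ξ (M.δ (f.1 c) + (M.sg (f.2 (c - 1)) - M.sg (f.2 c))) =
      -(M.δ (M.Ξ (f.1 c)) + (M.sg (M.Ξ (f.2 (c - 1))) - M.sg (M.Ξ (f.2 c))))
    simp only [map_add, map_sub, hM.Ξd, hM.Ξs]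
    abel
  · change M.Ξ (M.δ (f.2 c) + ∑ a ∈ Finset.range q, M.Y i (M.sg (f.1 (c - a)))) =
      -(M.δ (M.Ξ (f.2 c)) + ∑ a ∈ Finset.range q, M.Y i (M.sg (M.Ξ (f.1 (c - a)))))
    simp only [map_add, map_sum, hM.Ξd, hM.Ξs, hM.ΞY, map_neg, Finset.sum_neg_distrib, neg_add]

private lemma msc_Xs (M : MS k H F) (n : ℤ) (hM : M.OK n) (q b i : ℕ) (z : k) (ρ : H → ℤ)
    (f : (M.circ q b i z ρ).V) :
    (M.circ q b i z ρ).Ξ ((M.circ q b i z ρ).sg f) =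
      -(M.circ q b i z ρ).sg ((M.circ q b i z ρ).Ξ f) := by
  refine Prod.ext ?_ ?_ <;> funext c
  · exact hM.Ξs _
  · change M.Ξ (-M.sg (f.2 c)) = -(-M.sg (M.Ξ (f.2 c)))
    rw [map_neg, hM.Ξs]

private lemma msc_XY (M : MS k H F) (n : ℤ) (hM : M.OK n) (q b i : ℕ) (z : k) (ρ : H → ℤ)
    (l : ℕ) (f : (M.circ q b i z ρ).V) :
    (M.circ q b i z ρ).Ξ ((M.circ q b i z ρ).Y l f) =
      (M.circ q b i z ρ).Y l ((M.circ q b i z ρ).Ξ f) := by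
  refine Prod.ext ?_ ?_ <;> funext c <;> exact hM.ΞY _ _

private lemma msc_Ad (M : MS k H F) (n : ℤ) (hM : M.OK n) (q b i : ℕ) (z : k) (ρ : H → ℤ)
    (h : H) (f : (M.circ q b i z ρ).V) :
    (M.circ q b i z ρ).A h ((M.circ q b i z ρ).δ f) =
      (M.circ q b i z ρ).δ ((M.circ q b i z ρ).A h f) := by
  refine Prod.ext ?_ ?_ <;> funext c
  · change M.A h (M.δ (f.1 (c - ρ h)) + (M.sg (f.2 (c - ρ h - 1)) - M.sg (f.2 (c - ρ h)))) =
      M.δ (M.A h (f.1 (c - ρ h))) + (M.sg (M.A h (f.2 (c - 1 - ρ h))) -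
        M.sg (M.A h (f.2 (c - ρ h))))
    have e : c - 1 - ρ h = c - ρ h - 1 := by ring
    rw [e]
    simp only [map_add, map_sub, hM.Ad, hM.As]
  · change M.A h (M.δ (f.2 (c - ρ h)) +
        ∑ a ∈ Finset.range q, M.Y i (M.sg (f.1 (c - ρ h - a)))) =
      M.δ (M.A h (f.2 (c - ρ h))) +
        ∑ a ∈ Finset.range q, M.Y i (M.sg (M.A h (f.1 (c - a - ρ h))))
    rw [map_add, map_sum, hM.Ad]
    congr 1
    refine Finset.sum_congr rfl fun a _ => ?_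
    have e : c - (a : ℤ) - ρ h = c - ρ h - a := by ring
    rw [e, hM.AY, hM.As]

private lemma msc_As (M : MS k H F) (n : ℤ) (hM : M.OK n) (q b i : ℕ) (z : k) (ρ : H → ℤ)
    (h : H) (f : (M.circ q b i z ρ).V) :
    (M.circ q b i z ρ).A h ((M.circ q b i z ρ).sg f) =
      (M.circ q b i z ρ).sg ((M.circ q b i z ρ).A h f) := by
  refine Prod.ext ?_ ?_ <;> funext c
  · exact hM.As _ _
  · change M.A h (-M.sg (f.2 (c - ρ h))) = -M.sg (M.A h (f.2 (c - ρ h)))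
    rw [map_neg, hM.As]

private lemma msc_AY (M : MS k H F) (n : ℤ) (hM : M.OK n) (q b i : ℕ) (z : k) (ρ : H → ℤ)
    (h : H) (l : ℕ) (f : (M.circ q b i z ρ).V) :
    (M.circ q b i z ρ).A h ((M.circ q b i z ρ).Y l f) =
      (M.circ q b i z ρ).Y l ((M.circ q b i z ρ).A h f) := by
  refine Prod.ext ?_ ?_ <;> funext c <;> exact hM.AY _ _ _

private lemma msc_AX (M : MS k H F) (n : ℤ) (hM : M.OK n) (q b i : ℕ) (z : k) (ρ : H → ℤ)
    (h : H) (f : (M.circ q b i z ρ).V) :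
    (M.circ q b i z ρ).A h ((M.circ q b i z ρ).Ξ f) =
      (M.circ q b i z ρ).Ξ ((M.circ q b i z ρ).A h f) := by
  refine Prod.ext ?_ ?_ <;> funext c <;> exact hM.AΞ _ _

private lemma msc_ZA (hF : F.OK) (M : MS k H F) (n : ℤ) (hM : M.OK n) (q b i : ℕ) (z : k)
    (ρ : H → ℤ) (h : H) (φ : (F.circ q ρ).Φ) (f : (M.circ q b i z ρ).V) :
    (M.circ q b i z ρ).Z φ ((M.circ q b i z ρ).A h f) =
      (M.circ q b i z ρ).A h ((M.circ q b i z ρ).Z ((F.circ q ρ).tr h φ) f) := by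
  refine Prod.ext ?_ ?_ <;> funext c
  · change ∑ j ∈ Finset.range (b + 1), (M.Z (φ.1 j c) ((M.Y i ^ j) (M.A h (f.1 (c - ρ h)))) +
        M.Z (φ.2 j c) ((M.Y i ^ j) (M.A h (f.2 (c - ρ h))))) =
      M.A h (∑ j ∈ Finset.range (b + 1),
        (M.Z (F.tr h (φ.1 j (c - ρ h + ρ h))) ((M.Y i ^ j) (f.1 (c - ρ h))) +
          M.Z (F.tr h (φ.2 j (c - ρ h + ρ h))) ((M.Y i ^ j) (f.2 (c - ρ h)))))
    rw [map_sum]
    refine Finset.sum_congr rfl fun j _ => ?_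
    rw [sub_add_cancel, map_add, msc_pA hM, msc_pA hM, hM.ZA, hM.ZA]
  · change ∑ j ∈ Finset.range (b + 1),
      (M.Z (F.tw (φ.1 j (c + 1))) ((M.Y i ^ j) (M.A h (f.2 (c - ρ h)))) +
        ∑ s ∈ Finset.range q, ∑ a ∈ Finset.range s,
          M.Z (F.tw (φ.2 j (c - a + s))) ((M.Y i ^ (j + 1)) (M.A h (f.1 (c - a - ρ h))))) =
      M.A h (∑ j ∈ Finset.range (b + 1),
        (M.Z (F.tw (F.tr h (φ.1 j (c - ρ h + 1 + ρ h)))) ((M.Y i ^ j) (f.2 (c - ρ h))) +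
          ∑ s ∈ Finset.range q, ∑ a ∈ Finset.range s,
            M.Z (F.tw (F.tr h (φ.2 j (c - ρ h - a + s + ρ h))))
              ((M.Y i ^ (j + 1)) (f.1 (c - ρ h - a)))))
    rw [map_sum]
    refine Finset.sum_congr rfl fun j _ => ?_
    have e : c - ρ h + 1 + ρ h = c + 1 := by ring
    rw [e, map_add, msc_pA hM, hM.ZA, hF.rt, map_sum]
    congr 1
    refine Finset.sum_congr rfl fun s _ => ?_
    rw [map_sum]
    refine Finset.sum_congr rfl fun a _ => ?_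
    have e1 : c - (a : ℤ) - ρ h = c - ρ h - a := by ring
    have e2 : c - ρ h - (a : ℤ) + s + ρ h = c - a + s := by ring
    rw [e1, e2, msc_pA hM, hM.ZA, hF.rt]

private lemma msc_A1 (M : MS k H F) (n : ℤ) (hM : M.OK n) (q b i : ℕ) (z : k) (ρ : H → ℤ)
    (h1 : ρ 1 = 0) (f : (M.circ q b i z ρ).V) : (M.circ q b i z ρ).A 1 f = f := by
  refine Prod.ext ?_ ?_ <;> funext c
  · change M.A 1 (f.1 (c - ρ 1)) = f.1 c
    rw [h1, sub_zero, hM.A1]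
  · change M.A 1 (f.2 (c - ρ 1)) = f.2 c
    rw [h1, sub_zero, hM.A1]

private lemma msc_AA (M : MS k H F) (n : ℤ) (hM : M.OK n) (q b i : ℕ) (z : k) (ρ : H → ℤ)
    (hρ : ∀ h h', ρ (h * h') = ρ h + ρ h') (h h' : H) (f : (M.circ q b i z ρ).V) :
    (M.circ q b i z ρ).A (h * h') f = (M.circ q b i z ρ).A h ((M.circ q b i z ρ).A h' f) := by
  have e : ∀ c : ℤ, c - ρ (h * h') = c - ρ h - ρ h' := by
    intro c
    rw [hρ]
    ring
  refine Prod.ext ?_ ?_ <;> funext c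
  · change M.A (h * h') (f.1 (c - ρ (h * h'))) = M.A h (M.A h' (f.1 (c - ρ h - ρ h')))
    rw [e, hM.AA]
  · change M.A (h * h') (f.2 (c - ρ (h * h'))) = M.A h (M.A h' (f.2 (c - ρ h - ρ h')))
    rw [e, hM.AA]

private lemma msc_Gd (M : MS k H F) (n : ℤ) (hM : M.OK n) (q b i : ℕ) (z : k) (ρ : H → ℤ)
    (e : ℤ) (f : (M.circ q b i z ρ).V) (hf : f ∈ (M.circ q b i z ρ).G e) :
    (M.circ q b i z ρ).δ f ∈ (M.circ q b i z ρ).G (e - 1) := by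
  intro c
  refine ⟨?_, ?_⟩
  · change M.δ (f.1 c) + (M.sg (f.2 (c - 1)) - M.sg (f.2 c)) ∈ M.G (e - 1)
    exact (M.G _).add_mem (hM.Gd _ _ (hf c).1)
      ((M.G _).sub_mem (hM.Gs _ _ (hf (c - 1)).2) (hM.Gs _ _ (hf c).2))
  · change M.δ (f.2 c) + ∑ a ∈ Finset.range q, M.Y i (M.sg (f.1 (c - a))) ∈ M.G (e - 1 - 1)
    refine (M.G _).add_mem (hM.Gd _ _ (hf c).2) (Submodule.sum_mem _ fun a _ => ?_)
    have e1 : e - 1 - 1 = e - 2 := by ring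
    rw [e1]
    exact hM.GY _ _ _ (hM.Gs _ _ (hf (c - a)).1)

private lemma msc_Gs (M : MS k H F) (n : ℤ) (hM : M.OK n) (q b i : ℕ) (z : k) (ρ : H → ℤ)
    (e : ℤ) (f : (M.circ q b i z ρ).V) (hf : f ∈ (M.circ q b i z ρ).G e) :
    (M.circ q b i z ρ).sg f ∈ (M.circ q b i z ρ).G e := by
  intro c
  refine ⟨hM.Gs _ _ (hf c).1, ?_⟩
  exact (M.G _).neg_mem (hM.Gs _ _ (hf c).2)

private lemma msc_GY (M : MS k H F) (n : ℤ) (hM : M.OK n) (q b i : ℕ) (z : k) (ρ : H → ℤ)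
    (l : ℕ) (e : ℤ) (f : (M.circ q b i z ρ).V) (hf : f ∈ (M.circ q b i z ρ).G e) :
    (M.circ q b i z ρ).Y l f ∈ (M.circ q b i z ρ).G (e - 2) := by
  intro c
  refine ⟨hM.GY _ _ _ (hf c).1, ?_⟩
  have e1 : e - 2 - 1 = e - 1 - 2 := by ring
  change M.Y l (f.2 c) ∈ M.G (e - 2 - 1)
  rw [e1]
  exact hM.GY _ _ _ (hf c).2

private lemma msc_GZ (hF : F.OK) (M : MS k H F) (n : ℤ) (hM : M.OK n) (q b i : ℕ) (z : k)
    (ρ : H → ℤ) (d : ℤ) (φ : (F.circ q ρ).Φ) (hφ : φ ∈ (F.circ q ρ).Dg d)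
    (e : ℤ) (f : (M.circ q b i z ρ).V) (hf : f ∈ (M.circ q b i z ρ).G e) :
    (M.circ q b i z ρ).Z φ f ∈ (M.circ q b i z ρ).G (e - d) := by
  intro c
  refine ⟨?_, ?_⟩
  · change ∑ j ∈ Finset.range (b + 1), (M.Z (φ.1 j c) ((M.Y i ^ j) (f.1 c)) +
        M.Z (φ.2 j c) ((M.Y i ^ j) (f.2 c))) ∈ M.G (e - d)
    refine Submodule.sum_mem _ fun j _ => (M.G _).add_mem ?_ ?_
    · have h := hM.GZ _ _ (hφ j c).1 _ _ (msc_pG hM i j _ _ (hf c).1)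
      have e1 : e - 2 * (j : ℤ) - (d - 2 * (j : ℤ)) = e - d := by ring
      rw [e1] at h
      exact h
    · have h := hM.GZ _ _ (hφ j c).2 _ _ (msc_pG hM i j _ _ (hf c).2)
      have e1 : e - 1 - 2 * (j : ℤ) - (d - 2 * (j : ℤ) - 1) = e - d := by ring
      rw [e1] at h
      exact h
  · change ∑ j ∈ Finset.range (b + 1),
      (M.Z (F.tw (φ.1 j (c + 1))) ((M.Y i ^ j) (f.2 c)) +
        ∑ s ∈ Finset.range q, ∑ a ∈ Finset.range s,
          M.Z (F.tw (φ.2 j (c - a + s))) ((M.Y i ^ (j + 1)) (f.1 (c - a)))) ∈ M.G (e - d - 1)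
    refine Submodule.sum_mem _ fun j _ => (M.G _).add_mem ?_
      (Submodule.sum_mem _ fun s _ => Submodule.sum_mem _ fun a _ => ?_)
    · have h := hM.GZ _ _ (hF.Dt _ _ (hφ j (c + 1)).1) _ _ (msc_pG hM i j _ _ (hf c).2)
      have e1 : e - 1 - 2 * (j : ℤ) - (d - 2 * (j : ℤ)) = e - d - 1 := by ring
      rw [e1] at h
      exact h
    · have h := hM.GZ _ _ (hF.Dt _ _ (hφ j (c - a + s)).2) _ _
        (msc_pG hM i (j + 1) _ _ (hf (c - a)).1)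
      have e1 : e - 2 * ((j + 1 : ℕ) : ℤ) - (d - 2 * (j : ℤ) - 1) = e - d - 1 := by
        rw [Nat.cast_add, Nat.cast_one]
        ring
      rw [e1] at h
      exact h

private lemma msc_GX (M : MS k H F) (n : ℤ) (hM : M.OK n) (q b i : ℕ) (z : k) (ρ : H → ℤ)
    (e : ℤ) (f : (M.circ q b i z ρ).V) (hf : f ∈ (M.circ q b i z ρ).G e) :
    (M.circ q b i z ρ).Ξ f ∈ (M.circ q b i z ρ).G (e + n) := by
  intro c
  refine ⟨hM.GΞ _ _ (hf c).1, ?_⟩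
  have e1 : e + n - 1 = e - 1 + n := by ring
  change M.Ξ (f.2 c) ∈ M.G (e + n - 1)
  rw [e1]
  exact hM.GΞ _ _ (hf c).2

private lemma msc_GA (M : MS k H F) (n : ℤ) (hM : M.OK n) (q b i : ℕ) (z : k) (ρ : H → ℤ)
    (h : H) (e : ℤ) (f : (M.circ q b i z ρ).V) (hf : f ∈ (M.circ q b i z ρ).G e) :
    (M.circ q b i z ρ).A h f ∈ (M.circ q b i z ρ).G e := by
  intro c
  exact ⟨hM.GA _ _ _ (hf (c - ρ h)).1, hM.GA _ _ _ (hf (c - ρ h)).2⟩

private lemma msc_G0 (M : MS k H F) (n : ℤ) (hM : M.OK n) (q b i : ℕ) (z : k) (ρ : H → ℤ)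
    (e : ℤ) (he : e < 0) (f : (M.circ q b i z ρ).V) (hf : f ∈ (M.circ q b i z ρ).G e) :
    f = 0 := by
  refine Prod.ext ?_ ?_ <;> funext c
  · exact hM.G0 _ he _ (hf c).1
  · exact hM.G0 (e - 1) (by omega) _ (hf c).2

private lemma msc_Gp (M : MS k H F) (n : ℤ) (hM : M.OK n) (q b i : ℕ) (z : k) (ρ : H → ℤ)
    (e : ℤ) (f : (M.circ q b i z ρ).V) (hf : f ∈ (M.circ q b i z ρ).G e) :
    (M.circ q b i z ρ).sg f = (e.negOnePow : ℤ) • f := by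
  refine Prod.ext ?_ ?_ <;> funext c
  · exact hM.Gp _ _ (hf c).1
  · change -M.sg (f.2 c) = (e.negOnePow : ℤ) • f.2 c
    rw [hM.Gp _ _ (hf c).2, Int.negOnePow_sub, Int.negOnePow_one, mul_neg, mul_one, Units.val_neg,
      neg_smul, neg_neg]

private lemma msc_Qd (M : MS k H F) (n : ℤ) (hM : M.OK n) (q b i : ℕ) (z : k) (ρ : H → ℤ)
    (f : (M.circ q b i z ρ).V) (hf : f ∈ (M.circ q b i z ρ).Q) :
    (M.circ q b i z ρ).δ f ∈ (M.circ q b i z ρ).Q := by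
  intro c
  refine ⟨?_, ?_, ?_, ?_⟩
  · change M.δ (f.1 c) + (M.sg (f.2 (c - 1)) - M.sg (f.2 c)) ∈ M.Q
    exact M.Q.add_mem (hM.Qd _ (hf c).1)
      (M.Q.sub_mem (hM.Qs _ (hf (c - 1)).2.1) (hM.Qs _ (hf c).2.1))
  · change M.δ (f.2 c) + ∑ a ∈ Finset.range q, M.Y i (M.sg (f.1 (c - a))) ∈ M.Q
    exact M.Q.add_mem (hM.Qd _ (hf c).2.1)
      (Submodule.sum_mem _ fun a _ => hM.QY _ _ (hM.Qs _ (hf (c - a)).1))
  · change M.δ (f.1 (c - q)) + (M.sg (f.2 (c - q - 1)) - M.sg (f.2 (c - q))) =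
      z • (M.δ (f.1 c) + (M.sg (f.2 (c - 1)) - M.sg (f.2 c)))
    have e : c - (q : ℤ) - 1 = c - 1 - q := by ring
    rw [e, (hf c).2.2.1, (hf c).2.2.2, (hf (c - 1)).2.2.2]
    simp only [map_smul, smul_add, smul_sub]
  · change M.δ (f.2 (c - q)) + ∑ a ∈ Finset.range q, M.Y i (M.sg (f.1 (c - q - a))) =
      z • (M.δ (f.2 c) + ∑ a ∈ Finset.range q, M.Y i (M.sg (f.1 (c - a))))
    rw [(hf c).2.2.2, smul_add, map_smul, Finset.smul_sum]
    congr 1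
    refine Finset.sum_congr rfl fun a _ => ?_
    have e : c - (q : ℤ) - a = c - a - q := by ring
    rw [e, (hf (c - a)).2.2.1, map_smul, map_smul]

private lemma msc_Qs (M : MS k H F) (n : ℤ) (hM : M.OK n) (q b i : ℕ) (z : k) (ρ : H → ℤ)
    (f : (M.circ q b i z ρ).V) (hf : f ∈ (M.circ q b i z ρ).Q) :
    (M.circ q b i z ρ).sg f ∈ (M.circ q b i z ρ).Q := by
  intro c
  refine ⟨hM.Qs _ (hf c).1, M.Q.neg_mem (hM.Qs _ (hf c).2.1), ?_, ?_⟩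
  · change M.sg (f.1 (c - q)) = z • M.sg (f.1 c)
    rw [(hf c).2.2.1, map_smul]
  · change -M.sg (f.2 (c - q)) = z • -M.sg (f.2 c)
    rw [(hf c).2.2.2, map_smul, smul_neg]

omit [Group H] in
private lemma msc_QM (M : MS k H F) (B : Module.End k M.V) (hB : ∀ x ∈ M.Q, B x ∈ M.Q)
    (q : ℕ) (z : k) (f : Cir M.V) (hf : f ∈ cirQ q z M.Q) : cirM B f ∈ cirQ q z M.Q := by
  intro c
  refine ⟨hB _ (hf c).1, hB _ (hf c).2.1, ?_, ?_⟩
  · change B (f.1 (c - q)) = z • B (f.1 c)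
    rw [(hf c).2.2.1, map_smul]
  · change B (f.2 (c - q)) = z • B (f.2 c)
    rw [(hf c).2.2.2, map_smul]

private lemma msc_QZ (hF : F.OK) (M : MS k H F) (n : ℤ) (hM : M.OK n) (q b i : ℕ) (z : k)
    (ρ : H → ℤ) (φ : (F.circ q ρ).Φ) (hφ : φ ∈ (F.circ q ρ).Pr)
    (f : (M.circ q b i z ρ).V) (hf : f ∈ (M.circ q b i z ρ).Q) :
    (M.circ q b i z ρ).Z φ f ∈ (M.circ q b i z ρ).Q := by
  have p1 : ∀ (j : ℕ) (c : ℤ), φ.1 j (c - q) = φ.1 j c := by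
    intro j c
    have h := (hφ j (c - q)).2.2.1
    rw [sub_add_cancel] at h
    exact h.symm
  have p2 : ∀ (j : ℕ) (c : ℤ), φ.2 j (c - q) = φ.2 j c := by
    intro j c
    have h := (hφ j (c - q)).2.2.2
    rw [sub_add_cancel] at h
    exact h.symm
  intro c
  refine ⟨?_, ?_, ?_, ?_⟩
  · change ∑ j ∈ Finset.range (b + 1), (M.Z (φ.1 j c) ((M.Y i ^ j) (f.1 c)) +
        M.Z (φ.2 j c) ((M.Y i ^ j) (f.2 c))) ∈ M.Q
    exact Submodule.sum_mem _ fun j _ => M.Q.add_mem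
      (hM.QZ _ (hφ j c).1 _ (msc_pQ hM i j _ (hf c).1))
      (hM.QZ _ (hφ j c).2.1 _ (msc_pQ hM i j _ (hf c).2.1))
  · change ∑ j ∈ Finset.range (b + 1),
      (M.Z (F.tw (φ.1 j (c + 1))) ((M.Y i ^ j) (f.2 c)) +
        ∑ s ∈ Finset.range q, ∑ a ∈ Finset.range s,
          M.Z (F.tw (φ.2 j (c - a + s))) ((M.Y i ^ (j + 1)) (f.1 (c - a)))) ∈ M.Q
    exact Submodule.sum_mem _ fun j _ => M.Q.add_mem
      (hM.QZ _ (hF.Pt _ (hφ j (c + 1)).1) _ (msc_pQ hM i j _ (hf c).2.1))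
      (Submodule.sum_mem _ fun s _ => Submodule.sum_mem _ fun a _ =>
        hM.QZ _ (hF.Pt _ (hφ j (c - a + s)).2.1) _ (msc_pQ hM i (j + 1) _ (hf (c - a)).1))
  · change ∑ j ∈ Finset.range (b + 1), (M.Z (φ.1 j (c - q)) ((M.Y i ^ j) (f.1 (c - q))) +
        M.Z (φ.2 j (c - q)) ((M.Y i ^ j) (f.2 (c - q)))) =
      z • ∑ j ∈ Finset.range (b + 1), (M.Z (φ.1 j c) ((M.Y i ^ j) (f.1 c)) +
        M.Z (φ.2 j c) ((M.Y i ^ j) (f.2 c)))
    rw [Finset.smul_sum]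
    refine Finset.sum_congr rfl fun j _ => ?_
    rw [p1, p2, (hf c).2.2.1, (hf c).2.2.2, smul_add]
    simp only [map_smul]
  · change ∑ j ∈ Finset.range (b + 1),
      (M.Z (F.tw (φ.1 j (c - q + 1))) ((M.Y i ^ j) (f.2 (c - q))) +
        ∑ s ∈ Finset.range q, ∑ a ∈ Finset.range s,
          M.Z (F.tw (φ.2 j (c - q - a + s))) ((M.Y i ^ (j + 1)) (f.1 (c - q - a)))) =
      z • ∑ j ∈ Finset.range (b + 1),
      (M.Z (F.tw (φ.1 j (c + 1))) ((M.Y i ^ j) (f.2 c)) +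
        ∑ s ∈ Finset.range q, ∑ a ∈ Finset.range s,
          M.Z (F.tw (φ.2 j (c - a + s))) ((M.Y i ^ (j + 1)) (f.1 (c - a))))
    rw [Finset.smul_sum]
    refine Finset.sum_congr rfl fun j _ => ?_
    have e : c - (q : ℤ) + 1 = c + 1 - q := by ring
    rw [e, p1, (hf c).2.2.2, smul_add, map_smul, map_smul, Finset.smul_sum]
    congr 1
    refine Finset.sum_congr rfl fun s _ => ?_
    rw [Finset.smul_sum]
    refine Finset.sum_congr rfl fun a _ => ?_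
    have e1 : c - (q : ℤ) - a + s = c - a + s - q := by ring
    have e2 : c - (q : ℤ) - a = c - a - q := by ring
    rw [e1, e2, p2, (hf (c - a)).2.2.1, map_smul, map_smul]

private lemma msc_QA (M : MS k H F) (n : ℤ) (hM : M.OK n) (q b i : ℕ) (z : k) (ρ : H → ℤ)
    (h : H) (f : (M.circ q b i z ρ).V) (hf : f ∈ (M.circ q b i z ρ).Q) :
    (M.circ q b i z ρ).A h f ∈ (M.circ q b i z ρ).Q := by
  intro c
  refine ⟨hM.QA _ _ (hf (c - ρ h)).1, hM.QA _ _ (hf (c - ρ h)).2.1, ?_, ?_⟩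
  · change M.A h (f.1 (c - q - ρ h)) = z • M.A h (f.1 (c - ρ h))
    have e : c - (q : ℤ) - ρ h = c - ρ h - q := by ring
    rw [e, (hf (c - ρ h)).2.2.1, map_smul]
  · change M.A h (f.2 (c - q - ρ h)) = z • M.A h (f.2 (c - ρ h))
    have e : c - (q : ℤ) - ρ h = c - ρ h - q := by ring
    rw [e, (hf (c - ρ h)).2.2.2, map_smul]

end

theorem sMSc : S_MSc := by
  intro k _ H _ F hF M n hM q b i z ρ h1 hρ
  exact
    { ss := msc_ss M n hM q b i z ρ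
      sd := msc_sd M n hM q b i z ρ
      Ys := msc_Ys M n hM q b i z ρ
      Yd := msc_Yd M n hM q b i z ρ
      YY := msc_YY M n hM q b i z ρ
      YZ := msc_YZ M n hM q b i z ρ
      Zt := msc_Zt M n hM q b i z ρ
      Ξd := msc_Xd M n hM q b i z ρ
      Ξs := msc_Xs M n hM q b i z ρ
      ΞY := msc_XY M n hM q b i z ρ
      Ad := msc_Ad M n hM q b i z ρ
      As := msc_As M n hM q b i z ρ
      AY := msc_AY M n hM q b i z ρ
      AΞ := msc_AX M n hM q b i z ρ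
      ZA := msc_ZA hF M n hM q b i z ρ
      A1 := msc_A1 M n hM q b i z ρ h1
      AA := msc_AA M n hM q b i z ρ hρ
      Gd := msc_Gd M n hM q b i z ρ
      Gs := msc_Gs M n hM q b i z ρ
      GY := msc_GY M n hM q b i z ρ
      GZ := msc_GZ hF M n hM q b i z ρ
      GΞ := msc_GX M n hM q b i z ρ
      GA := msc_GA M n hM q b i z ρ
      G0 := msc_G0 M n hM q b i z ρ
      Gp := msc_Gp M n hM q b i z ρ
      Qd := msc_Qd M n hM q b i z ρ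
      Qs := msc_Qs M n hM q b i z ρ
      QY := fun l f hf => msc_QM M (M.Y l) (hM.QY l) q z f hf
      QZ := msc_QZ hF M n hM q b i z ρ
      QΞ := fun f hf => msc_QM M M.Ξ hM.QΞ q z f hf
      QA := msc_QA M n hM q b i z ρ }

end HRx
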