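import Pool.Agent.Lib.MP_181146_gt.HR.SpecB

/-!
# Project HR, module MitA: operators of the base on the iterated products
-/

set_option linter.unusedVariables false
set_option autoImplicit false

namespace HRx

open HEp HPx

section

variable {k : Type} [CommRing k] {H : Type} {F : FS H} (M : MS k H F) (q b : ℕ) (ix : ℕ → ℕ)
  (z : ℕ → k) (ρ : ℕ → H → ℤ)

private lemma MitA_one : ∀ (n : ℕ) (x : (mit M q b ix z ρ n).V),
    mitF (M := M) (M' := M) (1 : Module.End k M.V).toAddMonoidHom q b ix z z ρ n x = x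
  | 0, x => rfl
  | n + 1, x => Prod.ext (funext fun c => MitA_one n (x.1 c)) (funext fun c => MitA_one n (x.2 c))

private lemma MitA_mul (A B : Module.End k M.V) : ∀ (n : ℕ) (x : (mit M q b ix z ρ n).V),
    mitF (M := M) (M' := M) (A * B).toAddMonoidHom q b ix z z ρ n x =
      mitF (M := M) (M' := M) A.toAddMonoidHom q b ix z z ρ n
        (mitF (M := M) (M' := M) B.toAddMonoidHom q b ix z z ρ n x)
  | 0, x => rfl
  | n + 1, x => Prod.ext (funext fun c => MitA_mul A B n (x.1 c))
      (funext fun c => MitA_mul A B n (x.2 c))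

private lemma MitA_add (A B : Module.End k M.V) : ∀ (n : ℕ) (x : (mit M q b ix z ρ n).V),
    mitF (M := M) (M' := M) (A + B).toAddMonoidHom q b ix z z ρ n x =
      mitF (M := M) (M' := M) A.toAddMonoidHom q b ix z z ρ n x +
        mitF (M := M) (M' := M) B.toAddMonoidHom q b ix z z ρ n x
  | 0, x => rfl
  | n + 1, x => Prod.ext (funext fun c => MitA_add A B n (x.1 c))
      (funext fun c => MitA_add A B n (x.2 c))

private lemma MitA_smul (r : k) (A : Module.End k M.V) : ∀ (n : ℕ) (x : (mit M q b ix z ρ n).V),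
    mitF (M := M) (M' := M) (r • A).toAddMonoidHom q b ix z z ρ n x =
      r • mitF (M := M) (M' := M) A.toAddMonoidHom q b ix z z ρ n x
  | 0, x => rfl
  | n + 1, x => Prod.ext (funext fun c => MitA_smul r A n (x.1 c))
      (funext fun c => MitA_smul r A n (x.2 c))

private lemma MitA_Y (i : ℕ) : ∀ (n : ℕ) (x : (mit M q b ix z ρ n).V),
    mitF (M := M) (M' := M) (M.Y i).toAddMonoidHom q b ix z z ρ n x = (mit M q b ix z ρ n).Y i x
  | 0, x => rfl
  | n + 1, x => Prod.ext (funext fun c => MitA_Y i n (x.1 c)) (funext fun c => MitA_Y i n (x.2 c))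

private lemma MitA_pow (i n : ℕ) : ∀ (j : ℕ) (x : (mit M q b ix z ρ n).V),
    mitF (M := M) (M' := M) (M.Y i ^ j).toAddMonoidHom q b ix z z ρ n x =
      ((mit M q b ix z ρ n).Y i ^ j) x
  | 0, x => by
    rw [pow_zero, pow_zero, MitA_one]
    rfl
  | j + 1, x => by
    rw [pow_succ, pow_succ, MitA_mul, MitA_Y, MitA_pow i n j]
    rfl

/-- The operators, applied to a fixed element. -/
private def MitAh (n : ℕ) (x : (mit M q b ix z ρ n).V) :
    Module.End k M.V →+ (mit M q b ix z ρ n).V :=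
  AddMonoidHom.mk' (fun A => mitF (M := M) (M' := M) A.toAddMonoidHom q b ix z z ρ n x)
    (fun A B => MitA_add M q b ix z ρ A B n x)

private lemma MitA_Ko (n : ℕ) : ∀ (l : ℕ) (κ : (ℕ → ℕ) → ℤ) (x : (mit M q b ix z ρ n).V),
    mitF (M := M) (M' := M) (Ko M.Y b ix l κ).toAddMonoidHom q b ix z z ρ n x =
      Ko (mit M q b ix z ρ n).Y b ix l κ x
  | 0, κ, x => by
    have h : MitAh M q b ix z ρ n x (κ 0 • (1 : Module.End k M.V)) =
        κ 0 • MitAh M q b ix z ρ n x 1 := map_zsmul _ _ _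
    have h1 : MitAh M q b ix z ρ n x 1 = x := MitA_one M q b ix z ρ n x
    rw [h1] at h
    exact h
  | l + 1, κ, x => by
    have h : MitAh M q b ix z ρ n x (Ko M.Y b ix (l + 1) κ) =
        ∑ j ∈ Finset.range (b + 1), MitAh M q b ix z ρ n x
          (Ko M.Y b ix l (fun a => κ (Function.update a (ix l) j)) * M.Y (ix l) ^ j) :=
      map_sum _ _ _
    refine h.trans ?_
    have h2 : Ko (mit M q b ix z ρ n).Y b ix (l + 1) κ x = ∑ j ∈ Finset.range (b + 1),
        Ko (mit M q b ix z ρ n).Y b ix l (fun a => κ (Function.update a (ix l) j))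
          (((mit M q b ix z ρ n).Y (ix l) ^ j) x) := LinearMap.sum_apply _ _ _
    rw [h2]
    refine Finset.sum_congr rfl fun j _ => ?_
    exact (MitA_mul M q b ix z ρ _ _ n x).trans
      ((MitA_Ko n l _ _).trans (congrArg _ (MitA_pow M q b ix z ρ (ix l) n j x)))

end

theorem sMitA : S_MitA := fun _ _ _ _ M q b ix z ρ n =>
  ⟨MitA_one M q b ix z ρ n, fun A B => MitA_mul M q b ix z ρ A B n,
    fun A B => MitA_add M q b ix z ρ A B n, fun r A => MitA_smul M q b ix z ρ r A n,
    fun i => MitA_Y M q b ix z ρ i n, MitA_Ko M q b ix z ρ n⟩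

end HRx
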