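import Pool.Agent.Lib.MP_181146_gt.HR.SpecA

/-!
# Project HR: MitC (the square of the differential of the iterated construction)
-/

set_option autoImplicit false

namespace HRx

open HEp HPx

private def evA {k : Type} [CommRing k] {V : Type} [AddCommGroup V] [Module k V] (c : ℤ) :
    Cir V →ₗ[k] V := LinearMap.proj c ∘ₗ LinearMap.fst k (ℤ → V) (ℤ → V)

private def evB {k : Type} [CommRing k] {V : Type} [AddCommGroup V] [Module k V] (c : ℤ) :
    Cir V →ₗ[k] V := LinearMap.proj c ∘ₗ LinearMap.snd k (ℤ → V) (ℤ → V)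

private lemma sumA {k : Type} [CommRing k] {V : Type} [AddCommGroup V] [Module k V]
    (Y : ℕ → Module.End k V) (ix : ℕ → ℕ) (w : ℕ → k) (n : ℕ) (x : Cir V) (c : ℤ) :
    (∑ l ∈ Finset.range n, w l • (cirM (Y (ix l)) x)).1 c =
      ∑ l ∈ Finset.range n, w l • Y (ix l) (x.1 c) := by
  change evA (k := k) c (∑ l ∈ Finset.range n, w l • (cirM (Y (ix l)) x)) = _
  rw [map_sum]
  rfl

private lemma sumB {k : Type} [CommRing k] {V : Type} [AddCommGroup V] [Module k V]
    (Y : ℕ → Module.End k V) (ix : ℕ → ℕ) (w : ℕ → k) (n : ℕ) (x : Cir V) (c : ℤ) :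
    (∑ l ∈ Finset.range n, w l • (cirM (Y (ix l)) x)).2 c =
      ∑ l ∈ Finset.range n, w l • Y (ix l) (x.2 c) := by
  change evB (k := k) c (∑ l ∈ Finset.range n, w l • (cirM (Y (ix l)) x)) = _
  rw [map_sum]
  rfl

theorem sMitC (hFMit : S_FMit) (hCur : S_Cur) : S_MitC := by
  intro k _ H _ F hF M d hM q b ix z ρ h1 hρ hdd n
  induction n with
  | zero =>
    intro x _
    rw [Finset.range_zero, Finset.sum_empty]
    exact hdd x
  | succ n ih =>
    intro x hx
    have hN := hFMit k H F hF M d hM q b ix z ρ h1 hρ n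
    have hc := hCur k H (fit F q ix ρ n) (mit M q b ix z ρ n) d hN.2 q b (ix n) (z (ix n))
      (ρ (ix n)) x hx
    have hQ : ∀ c : ℤ, x.1 c ∈ (mit M q b ix z ρ n).Q ∧ x.2 c ∈ (mit M q b ix z ρ n).Q :=
      fun c => ⟨(hx c).1, (hx c).2.1⟩
    refine Prod.ext (funext fun c => ?_) (funext fun c => ?_)
    · refine ((hc c).1).trans ?_
      rw [ih _ (hQ c).1]
      refine Eq.trans ?_ (sumA (mit M q b ix z ρ n).Y ix (fun l => z (ix l) - 1) (n + 1) x c).symm
      rw [Finset.sum_range_succ]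
    · refine ((hc c).2).trans ?_
      rw [ih _ (hQ c).2]
      refine Eq.trans ?_ (sumB (mit M q b ix z ρ n).Y ix (fun l => z (ix l) - 1) (n + 1) x c).symm
      rw [Finset.sum_range_succ]

end HRx
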