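import Pool.Agent.Lib.MP_181146_gt.HR.SpecA

set_option autoImplicit false

/-!
# Project HR, module MitH: maps of the iterated constructions
-/

namespace HRx

open HEp HPx

theorem sMitH (hMHc : S_MHc) : S_MitH := by
  intro k k' _ _ H _ F M M' f σ hσ q b ix z ρ hQ n
  induction n with
  | zero => exact ⟨⟨f, rfl⟩, hσ, hQ⟩
  | succ n ih =>
    obtain ⟨⟨g, hg⟩, h2, h3⟩ := ih
    refine ⟨?_, ?_, ?_⟩
    · obtain ⟨g', hg'⟩ := hMHc k k' H (fit F q ix ρ n) (mit M q b ix z ρ n)
        (mit M' q b ix (fun i => σ (z i)) ρ n) g q b (ix n) (z (ix n)) (σ (z (ix n))) (ρ (ix n))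
      refine ⟨g', ?_⟩
      rw [hg', hg]
      rfl
    · intro r x
      refine Prod.ext ?_ ?_
      · funext c
        exact h2 r (x.1 c)
      · funext c
        exact h2 r (x.2 c)
    · intro x hx c
      obtain ⟨a1, a2, a3, a4⟩ := hx c
      refine ⟨h3 _ a1, h3 _ a2, ?_, ?_⟩
      · exact (congrArg (mitF f.f q b ix z (fun i => σ (z i)) ρ n) a3).trans (h2 _ _)
      · exact (congrArg (mitF f.f q b ix z (fun i => σ (z i)) ρ n) a4).trans (h2 _ _)

end HRx
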