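import Pool.Agent.Lib.MP_181146_gt.HR.SpecA

/-!
# Project HR, module MitK: the functional `κ(y) ε` and the operator `κ(Y)` (helper24)
-/

set_option autoImplicit false

namespace HRx

open HEp HPx

section

variable {k : Type} [CommRing k] {V : Type} [AddCommGroup V] [Module k V]

private lemma cirM_mul (A B : Module.End k V) : cirM A * cirM B = cirM (A * B) := rfl

private lemma cirM_one : cirM (1 : Module.End k V) = 1 := rfl

private lemma cirM_pow (A : Module.End k V) (j : ℕ) : cirM A ^ j = cirM (A ^ j) := by
  induction j with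
  | zero => rw [pow_zero, pow_zero, cirM_one]
  | succ j ih => rw [pow_succ, pow_succ, ih, cirM_mul]

private lemma cirM_zero : cirM (0 : Module.End k V) = 0 := rfl

private lemma cirM_add (A B : Module.End k V) : cirM (A + B) = cirM A + cirM B := rfl

private lemma cirM_sum (s : Finset ℕ) (A : ℕ → Module.End k V) :
    cirM (∑ j ∈ s, A j) = ∑ j ∈ s, cirM (A j) := by
  classical
  induction s using Finset.induction_on with
  | empty => rw [Finset.sum_empty, Finset.sum_empty, cirM_zero]
  | insert a s ha ih => rw [Finset.sum_insert ha, Finset.sum_insert ha, cirM_add, ih]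

private lemma cirM_zsmul (m : ℤ) (A : Module.End k V) : cirM (m • A) = m • cirM A := by
  apply LinearMap.ext
  intro f
  refine Prod.ext ?_ ?_ <;>
  · funext c
    rfl

/-- The operators `κ(Y)` of the product with a circle. -/
private lemma Ko_cir (Y : ℕ → Module.End k V) (b : ℕ) (ix : ℕ → ℕ) (n : ℕ) :
    ∀ κ : (ℕ → ℕ) → ℤ, Ko (fun j => cirM (Y j)) b ix n κ = cirM (Ko Y b ix n κ) := by
  induction n with
  | zero =>
    intro κ
    change κ 0 • (1 : Module.End k (Cir V)) = cirM (κ 0 • (1 : Module.End k V))
    rw [cirM_zsmul, cirM_one]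
  | succ n ih =>
    intro κ
    change ∑ j ∈ Finset.range (b + 1),
      Ko (fun j => cirM (Y j)) b ix n (fun a => κ (Function.update a (ix n) j)) *
        cirM (Y (ix n)) ^ j =
      cirM (∑ j ∈ Finset.range (b + 1),
        Ko Y b ix n (fun a => κ (Function.update a (ix n) j)) * Y (ix n) ^ j)
    rw [cirM_sum]
    refine Finset.sum_congr rfl fun j _ => ?_
    rw [ih, cirM_pow, cirM_mul]

end

theorem sMitK (_hFMit : S_FMit) : S_MitK := by
  intro k _ H _ F hF M d hM q b ix z ρ h1 hρ ε hε hZ n
  induction n with
  | zero =>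
    intro κ
    constructor
    · intro x
      change M.Z (κ 0 • ε) x = (κ 0 • (1 : Module.End k M.V)) x
      rw [map_zsmul]
      exact congrArg (fun y : M.V => κ 0 • y) (hZ x)
    · change F.tw (κ 0 • ε) = κ 0 • ε
      rw [map_zsmul, hε]
  | succ n ih =>
    intro κ
    constructor
    · intro f
      change cirX q b ((mit M q b ix z ρ n).Y (ix n)) (mit M q b ix z ρ n).Z (fit F q ix ρ n).tw
        (fun j _ => Kf ε q ix ρ n (fun a => κ (Function.update a (ix n) j)), fun _ _ => 0) f =
        Ko (fun j => cirM ((mit M q b ix z ρ n).Y j)) b ix (n + 1) κ f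
      rw [Ko_cir]
      refine Prod.ext ?_ ?_
      · funext c
        change ∑ j ∈ Finset.range (b + 1),
          ((mit M q b ix z ρ n).Z (Kf ε q ix ρ n (fun a => κ (Function.update a (ix n) j)))
            (((mit M q b ix z ρ n).Y (ix n) ^ j) (f.1 c)) +
          (mit M q b ix z ρ n).Z 0 (((mit M q b ix z ρ n).Y (ix n) ^ j) (f.2 c))) =
          (∑ j ∈ Finset.range (b + 1),
            Ko (mit M q b ix z ρ n).Y b ix n (fun a => κ (Function.update a (ix n) j)) *
              (mit M q b ix z ρ n).Y (ix n) ^ j) (f.1 c)
        rw [LinearMap.sum_apply]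
        refine Finset.sum_congr rfl fun j _ => ?_
        rw [map_zero, LinearMap.zero_apply, add_zero, (ih _).1]
        rfl
      · funext c
        change ∑ j ∈ Finset.range (b + 1),
          ((mit M q b ix z ρ n).Z ((fit F q ix ρ n).tw
            (Kf ε q ix ρ n (fun a => κ (Function.update a (ix n) j))))
            (((mit M q b ix z ρ n).Y (ix n) ^ j) (f.2 c)) +
          ∑ s ∈ Finset.range q, ∑ a ∈ Finset.range s,
            (mit M q b ix z ρ n).Z ((fit F q ix ρ n).tw 0)
              (((mit M q b ix z ρ n).Y (ix n) ^ (j + 1)) (f.1 (c - a)))) =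
          (∑ j ∈ Finset.range (b + 1),
            Ko (mit M q b ix z ρ n).Y b ix n (fun a => κ (Function.update a (ix n) j)) *
              (mit M q b ix z ρ n).Y (ix n) ^ j) (f.2 c)
        rw [LinearMap.sum_apply]
        refine Finset.sum_congr rfl fun j _ => ?_
        have e1 : ∑ s ∈ Finset.range q, ∑ a ∈ Finset.range s,
            (mit M q b ix z ρ n).Z ((fit F q ix ρ n).tw 0)
              (((mit M q b ix z ρ n).Y (ix n) ^ (j + 1)) (f.1 (c - a))) = 0 := by
          refine Finset.sum_eq_zero fun s _ => Finset.sum_eq_zero fun a _ => ?_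
          rw [map_zero, map_zero, LinearMap.zero_apply]
        rw [e1, add_zero, (ih _).2, (ih _).1]
        rfl
    · refine Prod.ext ?_ ?_
      · funext j c
        exact (ih (fun a => κ (Function.update a (ix n) j))).2
      · funext j c
        change -(fit F q ix ρ n).tw 0 = 0
        rw [map_zero, neg_zero]

end HRx
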