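import Pool.Agent.Lib.MP_181146_gt.HR.SpecA

/-!
# Project HR, module MitKD: degree, periodicity and invariance of the functional `κ(y) ε`
-/

set_option autoImplicit false
set_option linter.unusedVariables false

namespace HRx

open HEp HPx

/-- The sum of the exponents after an update at the last variable. -/
private theorem MitKD_sum {ix : ℕ → ℕ} (hix : Function.Injective ix) (n : ℕ) (a : ℕ → ℕ) (j : ℕ) :
    ∑ l ∈ Finset.range (n + 1), Function.update a (ix n) j (ix l) =
      ∑ l ∈ Finset.range n, a (ix l) + j := by
  rw [Finset.sum_range_succ, Function.update_self]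
  congr 1
  refine Finset.sum_congr rfl fun l hl => ?_
  have hl' : l < n := Finset.mem_range.1 hl
  exact Function.update_of_ne (fun h => hl'.ne (hix h)) _ _

theorem sMitKD : S_MitKD := by
  intro H _ F hF q ix hix ρ ε hε hε' hr n
  induction n with
  | zero =>
    intro w κ hκ
    refine ⟨?_, ?_, ?_⟩
    · change κ 0 • ε ∈ F.Dg (2 * w)
      by_cases h0 : κ 0 = 0
      · rw [h0, zero_smul]
        exact (F.Dg _).zero_mem
      · have h1 := hκ 0 h0
        rw [Finset.range_zero, Finset.sum_empty, Nat.cast_zero] at h1
        rw [← h1, mul_zero]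
        exact (F.Dg 0).zsmul_mem hε _
    · change κ 0 • ε ∈ F.Pr
      exact F.Pr.zsmul_mem hε' _
    · intro h
      change F.tr h (κ 0 • ε) = κ 0 • ε
      rw [map_zsmul, hr]
  | succ n ih =>
    intro w κ hκ
    have key : ∀ j : ℕ, ∀ a, κ (Function.update a (ix n) j) ≠ 0 →
        ((∑ l ∈ Finset.range n, a (ix l) : ℕ) : ℤ) = w - j := by
      intro j a ha
      have h1 := hκ _ ha
      rw [MitKD_sum hix, Nat.cast_add] at h1
      linarith
    refine ⟨?_, ?_, ?_⟩
    · intro j c
      refine ⟨?_, ?_⟩
      · change Kf ε q ix ρ n (fun a => κ (Function.update a (ix n) j)) ∈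
          (fit F q ix ρ n).Dg (2 * w - 2 * (j : ℤ))
        have h1 := (ih (w - j) (fun a => κ (Function.update a (ix n) j)) (key j)).1
        rwa [mul_sub] at h1
      · exact ((fit F q ix ρ n).Dg _).zero_mem
    · intro j c
      refine ⟨?_, ?_, rfl, rfl⟩
      · exact (ih (w - j) (fun a => κ (Function.update a (ix n) j)) (key j)).2.1
      · exact ((fit F q ix ρ n).Pr).zero_mem
    · intro h
      refine Prod.ext ?_ ?_
      · funext j c
        exact (ih (w - j) (fun a => κ (Function.update a (ix n) j)) (key j)).2.2 h
      · funext j c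
        exact map_zero ((fit F q ix ρ n).tr h)

end HRx
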