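import Pool.Agent.Lib.MP_181146_gt.HR.SpecB

/-!
# Project HR: maps of the iterated products (MitR)
-/

set_option autoImplicit false

namespace HRx

open HEp HPx

section

variable {k k' : Type} [CommRing k] [CommRing k'] {H : Type} {F : FS H} {M : MS k H F}
  {M' : MS k' H F} (f : M.V →+ M'.V) (q b : ℕ) (ix : ℕ → ℕ) (z : ℕ → k) (z' : ℕ → k')
  (ρ : ℕ → H → ℤ)

private lemma MitR_z (hz : ∀ i x, f (z i • x) = z' i • f x) (n : ℕ) (i : ℕ)
    (x : (mit M q b ix z ρ n).V) :
    mitF f q b ix z z' ρ n (z i • x) = z' i • mitF f q b ix z z' ρ n x := by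
  induction n with
  | zero => exact hz i x
  | succ n ih =>
    refine Prod.ext ?_ ?_
    · funext c
      exact ih (x.1 c)
    · funext c
      exact ih (x.2 c)

private lemma MitR_Y (j : ℕ) (hY : ∀ x, f (M.Y j x) = M'.Y j (f x)) (n : ℕ)
    (x : (mit M q b ix z ρ n).V) :
    mitF f q b ix z z' ρ n ((mit M q b ix z ρ n).Y j x) =
      (mit M' q b ix z' ρ n).Y j (mitF f q b ix z z' ρ n x) := by
  induction n with
  | zero => exact hY x
  | succ n ih =>
    refine Prod.ext ?_ ?_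
    · funext c
      exact ih (x.1 c)
    · funext c
      exact ih (x.2 c)

private lemma MitR_s (fs : ∀ x, f (M.sg x) = M'.sg (f x)) (n : ℕ)
    (x : (mit M q b ix z ρ n).V) :
    mitF f q b ix z z' ρ n ((mit M q b ix z ρ n).sg x) =
      (mit M' q b ix z' ρ n).sg (mitF f q b ix z z' ρ n x) := by
  induction n with
  | zero => exact fs x
  | succ n ih =>
    refine Prod.ext ?_ ?_
    · funext c
      exact ih (x.1 c)
    · funext c
      change mitF f q b ix z z' ρ n (-((mit M q b ix z ρ n).sg (x.2 c))) =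
        -((mit M' q b ix z' ρ n).sg (mitF f q b ix z z' ρ n (x.2 c)))
      rw [map_neg, ih]

private lemma MitR_d (fd : ∀ x, f (M.δ x) = M'.δ (f x)) (fs : ∀ x, f (M.sg x) = M'.sg (f x))
    (n : ℕ) (fY : ∀ l < n, ∀ x, f (M.Y (ix l) x) = M'.Y (ix l) (f x))
    (x : (mit M q b ix z ρ n).V) :
    mitF f q b ix z z' ρ n ((mit M q b ix z ρ n).δ x) =
      (mit M' q b ix z' ρ n).δ (mitF f q b ix z z' ρ n x) := by
  induction n with
  | zero => exact fd x
  | succ n ih =>
    have ih' := ih (fun l hl => fY l (by omega))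
    have hs := MitR_s f q b ix z z' ρ fs n
    have hY := MitR_Y f q b ix z z' ρ (ix n) (fY n (by omega)) n
    refine Prod.ext ?_ ?_
    · funext c
      change mitF f q b ix z z' ρ n ((mit M q b ix z ρ n).δ (x.1 c) +
        ((mit M q b ix z ρ n).sg (x.2 (c - 1)) - (mit M q b ix z ρ n).sg (x.2 c))) =
        (mit M' q b ix z' ρ n).δ (mitF f q b ix z z' ρ n (x.1 c)) +
          ((mit M' q b ix z' ρ n).sg (mitF f q b ix z z' ρ n (x.2 (c - 1))) -
            (mit M' q b ix z' ρ n).sg (mitF f q b ix z z' ρ n (x.2 c)))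
      rw [map_add, map_sub, ih', hs, hs]
    · funext c
      change mitF f q b ix z z' ρ n ((mit M q b ix z ρ n).δ (x.2 c) +
        ∑ a ∈ Finset.range q, (mit M q b ix z ρ n).Y (ix n)
          ((mit M q b ix z ρ n).sg (x.1 (c - a)))) =
        (mit M' q b ix z' ρ n).δ (mitF f q b ix z z' ρ n (x.2 c)) +
          ∑ a ∈ Finset.range q, (mit M' q b ix z' ρ n).Y (ix n)
            ((mit M' q b ix z' ρ n).sg (mitF f q b ix z z' ρ n (x.1 (c - a))))
      rw [map_add, map_sum, ih']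
      refine congrArg (_ + ·) (Finset.sum_congr rfl fun a _ => ?_)
      rw [hY, hs]

private lemma MitR_G (w : ℤ) (fG : ∀ i, ∀ x ∈ M.G i, f x ∈ M'.G (i - w)) (n : ℕ) (i : ℤ)
    (x : (mit M q b ix z ρ n).V) (hx : x ∈ (mit M q b ix z ρ n).G i) :
    mitF f q b ix z z' ρ n x ∈ (mit M' q b ix z' ρ n).G (i - w) := by
  induction n generalizing i with
  | zero => exact fG i x hx
  | succ n ih =>
    intro c
    have hxc : x.1 c ∈ (mit M q b ix z ρ n).G i ∧ x.2 c ∈ (mit M q b ix z ρ n).G (i - 1) := hx c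
    refine ⟨ih i (x.1 c) hxc.1, ?_⟩
    have h1 := ih (i - 1) (x.2 c) hxc.2
    have e : i - 1 - w = i - w - 1 := by ring
    rw [e] at h1
    exact h1

private lemma MitR_Q (hz : ∀ i x, f (z i • x) = z' i • f x) (fQ : ∀ x ∈ M.Q, f x ∈ M'.Q) (n : ℕ)
    (x : (mit M q b ix z ρ n).V) (hx : x ∈ (mit M q b ix z ρ n).Q) :
    mitF f q b ix z z' ρ n x ∈ (mit M' q b ix z' ρ n).Q := by
  induction n with
  | zero => exact fQ x hx
  | succ n ih =>
    intro c
    obtain ⟨h1, h2, h3, h4⟩ := hx c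
    refine ⟨ih (x.1 c) h1, ih (x.2 c) h2, ?_, ?_⟩
    · exact (congrArg (mitF f q b ix z z' ρ n) h3).trans (MitR_z f q b ix z z' ρ hz n (ix n) (x.1 c))
    · exact (congrArg (mitF f q b ix z z' ρ n) h4).trans (MitR_z f q b ix z z' ρ hz n (ix n) (x.2 c))

end

theorem sMitR : S_MitR := by
  intro k k' _ _ H F M M' f q b ix z z' hz ρ n fd fs fY
  exact ⟨MitR_d f q b ix z z' ρ fd fs n fY, MitR_s f q b ix z z' ρ fs n,
    fun w fG i x hx => MitR_G f q b ix z z' ρ w fG n i x hx,
    fun fQ x hx => MitR_Q f q b ix z z' ρ hz fQ n x hx⟩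

end HRx
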