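import Pool.Agent.Lib.MP_181146_gt.HR.SpecB

/-!
# Project HR, module `NulA`: all `A h - 1` are null homotopic
-/

set_option autoImplicit false

namespace HRx

open HEp HPx

section

variable {K : SS}

private lemma na_gr_ind {M : Type} [AddCommGroup M] {f : Ch ℤ K →ₗ[ℤ] M} {S : Submodule ℤ M} {m : ℕ}
    (h : ∀ σ : K.K m, f (sx ℤ σ) ∈ S) {x : Ch ℤ K} (hx : x ∈ gr ℤ K m) : f x ∈ S := by
  have hle : gr ℤ K m ≤ S.comap f := by
    rw [gr, Finsupp.supported_eq_span_single, Submodule.span_le]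
    rintro _ ⟨⟨m', σ⟩, hσ, rfl⟩
    have hσ' : m' = m := hσ
    subst hσ'
    exact h σ
  exact hle hx

private lemma na_gr_eq {M : Type} [AddCommGroup M] {f g : Ch ℤ K →ₗ[ℤ] M} {m : ℕ}
    (h : ∀ σ : K.K m, f (sx ℤ σ) = g (sx ℤ σ)) {x : Ch ℤ K} (hx : x ∈ gr ℤ K m) : f x = g x := by
  have := na_gr_ind (f := f - g) (S := ⊥) (m := m) (fun σ => by
    rw [LinearMap.sub_apply, h σ, sub_self]
    exact Submodule.zero_mem _) hx
  rw [LinearMap.sub_apply, Submodule.mem_bot] at this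
  exact sub_eq_zero.1 this

private lemma na_sg_sx {n : ℕ} (x : K.K n) : sgC K (sx ℤ x) = ((-1 : ℤ) ^ n) • sx ℤ x := by
  change sx ℤ x - (2 : ℤ) • od ℤ K (sx ℤ x) = _
  rw [od_sx]
  by_cases h : Odd n
  · rw [if_pos h, h.neg_one_pow, two_smul, neg_one_smul]
    abel
  · rw [if_neg h, (Nat.not_odd_iff_even.1 h).neg_one_pow, smul_zero, sub_zero, one_smul]

private lemma na_sg_gr {m : ℕ} {x : Ch ℤ K} (hx : x ∈ gr ℤ K m) :
    sgC K x = ((-1 : ℤ) ^ m) • x :=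
  na_gr_eq (f := sgC K) (g := ((-1 : ℤ) ^ m) • LinearMap.id) (fun σ => na_sg_sx σ) hx

private lemma na_as (B : Ch ℤ K →ₗ[ℤ] Ch ℤ K)
    (hB : ∀ i, ∀ y ∈ gr ℤ K i, B y ∈ gr ℤ K (i + 1)) : B ∘ₗ sgC K = -(sgC K ∘ₗ B) := by
  apply ch_ext
  intro m x
  rw [LinearMap.neg_apply, LinearMap.comp_apply, LinearMap.comp_apply, na_sg_sx, map_smul,
    na_sg_gr (hB m _ (sx_mem_gr ℤ x)), pow_succ, mul_neg_one, neg_smul, neg_neg]

end

section

variable {k : Type} [CommRing k] {K : SS}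

private lemma na_comp (hO : S_OpN) (D : DM k) (A B : Ch ℤ K →ₗ[ℤ] Ch ℤ K) (x : ChD K D) :
    opD D A (opD D B x) = opD D (A ∘ₗ B) x := by
  funext j
  change (opN (D.D j) A : ChN K (D.D j) →ₗ[k] ChN K (D.D j)) (opN (D.D j) B (x j)) =
    opN (D.D j) (A ∘ₗ B) (x j)
  rw [(hO K k (D.D j)).2.1 A B]
  rfl

private lemma na_id (hO : S_OpN) (D : DM k) (x : ChD K D) : opD D LinearMap.id x = x := by
  funext j
  change (opN (D.D j) LinearMap.id : ChN K (D.D j) →ₗ[k] ChN K (D.D j)) (x j) = x j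
  rw [(hO K k (D.D j)).1]
  rfl

private lemma na_add (hO : S_OpN) (D : DM k) (A B : Ch ℤ K →ₗ[ℤ] Ch ℤ K) (x : ChD K D) :
    opD D (A + B) x = opD D A x + opD D B x := by
  funext j
  change (opN (D.D j) (A + B) : ChN K (D.D j) →ₗ[k] ChN K (D.D j)) (x j) =
    opN (D.D j) A (x j) + opN (D.D j) B (x j)
  rw [(hO K k (D.D j)).2.2.1 A B]
  rfl

private lemma na_smul (hO : S_OpN) (D : DM k) (r : ℤ) (A : Ch ℤ K →ₗ[ℤ] Ch ℤ K) (x : ChD K D) :
    opD D (r • A) x = r • opD D A x := by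
  funext j
  change (opN (D.D j) (r • A) : ChN K (D.D j) →ₗ[k] ChN K (D.D j)) (x j) =
    r • opN (D.D j) A (x j)
  rw [(hO K k (D.D j)).2.2.2.1 r A]
  rfl

private lemma na_neg (hO : S_OpN) (D : DM k) (A : Ch ℤ K →ₗ[ℤ] Ch ℤ K) (x : ChD K D) :
    opD D (-A) x = -opD D A x := by
  rw [← neg_one_smul ℤ A, na_smul hO, neg_one_smul]

private lemma na_Y (hO : S_OpN) (D : DM k) (i : ℕ) (A : Ch ℤ K →ₗ[ℤ] Ch ℤ K) (x : ChD K D) :
    yD K D i (opD D A x) = opD D A (yD K D i x) := by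
  funext j
  exact (hO K k (D.D (j + 1))).2.2.2.2.2.2 k (D.D j) (D.Y i j).toAddMonoidHom A (x (j + 1))

private lemma na_deg (hO : S_OpN) (D : DM k) (B : Ch ℤ K →ₗ[ℤ] Ch ℤ K)
    (hB : ∀ i, ∀ y ∈ gr ℤ K i, B y ∈ gr ℤ K (i + 1)) (i : ℤ) (x : ChD K D)
    (hx : x ∈ grD K D i) : opD D B x ∈ grD K D (i + 1) := by
  intro j y hy
  change (opN (D.D j) B : ChN K (D.D j) →ₗ[k] ChN K (D.D j)) (x j) y = 0
  by_cases hi : 0 ≤ i - 2 * (j : ℤ)
  · obtain ⟨m, hm⟩ := Int.eq_ofNat_of_zero_le hi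
    refine (hO K k (D.D j)).2.2.2.2.1 B m (m + 1) (hB m) (x j) (fun s hs => ?_) y (fun e => hy ?_)
    · refine hx j s fun e => hs ?_
      omega
    · rw [e]
      push_cast
      omega
  · have h0 : x j = 0 := by
      apply Finsupp.ext
      intro s
      refine hx j s fun e => hi ?_
      omega
    rw [h0, map_zero]
    rfl

private lemma na_bEs (hO : S_OpN) (D : DM k) (B : Ch ℤ K →ₗ[ℤ] Ch ℤ K)
    (hB : ∀ i, ∀ y ∈ gr ℤ K i, B y ∈ gr ℤ K (i + 1)) (x : ChD K D) :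
    opD D B (opD D (sgC K) x) = -opD D (sgC K) (opD D B x) := by
  rw [na_comp hO, na_comp hO, na_as B hB, na_neg hO]

private lemma na_beq (hO : S_OpN) (D : DM k) (ψ : SSHom K K) (B : Ch ℤ K →ₗ[ℤ] Ch ℤ K)
    (hh : ∀ y, cmap ℤ ψ y - y = bd ℤ K (B y) + B (bd ℤ K y)) (x : ChD K D) :
    opD D (bd ℤ K) (opD D B x) + opD D B (opD D (bd ℤ K) x) = opD D (cmap ℤ ψ) x - x := by
  rw [na_comp hO, na_comp hO, ← na_add hO]
  have e : bd ℤ K ∘ₗ B + B ∘ₗ bd ℤ K = cmap ℤ ψ + -LinearMap.id := by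
    apply LinearMap.ext
    intro y
    rw [LinearMap.add_apply, LinearMap.comp_apply, LinearMap.comp_apply, ← hh y,
      LinearMap.add_apply, LinearMap.neg_apply, LinearMap.id_apply, sub_eq_add_neg]
  rw [e, na_add hO, na_neg hO, na_id hO, sub_eq_add_neg]

/-- the base -/
private lemma na_base (hO : S_OpN) {H : Type} (α : H → SSHom K K) (D : DM k)
    (a : Ch ℤ K →ₗ[ℤ] Ch ℤ K) (h : H) (B : Ch ℤ K →ₗ[ℤ] Ch ℤ K)
    (hB : ∀ i, ∀ y ∈ gr ℤ K i, B y ∈ gr ℤ K (i + 1))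
    (hh : ∀ y, cmap ℤ (α h) y - y = bd ℤ K (B y) + B (bd ℤ K y)) :
    (ms0 K α D a).Nul ((ms0 K α D a).A h - 1) (opD D B) where
  EQ := fun x _ => trivial
  EG := fun i x hx => na_deg hO D B hB i x hx
  Es := fun x => na_bEs hO D B hB x
  EY := fun i x => (na_Y hO D i B x).symm
  eq := fun x _ => na_beq hO D (α h) B hh x

end

section

variable {k : Type} [CommRing k] {H : Type} {F : FS H}

private lemma na_nul_add {M : MS k H F} {T T' E E' : Module.End k M.V} (h : M.Nul T E)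
    (h' : M.Nul T' E') : M.Nul (T + T') (E + E') where
  EQ := fun x hx => M.Q.add_mem (h.EQ x hx) (h'.EQ x hx)
  EG := fun i x hx => (M.G (i + 1)).add_mem (h.EG i x hx) (h'.EG i x hx)
  Es := fun x => by
    rw [LinearMap.add_apply, LinearMap.add_apply, h.Es, h'.Es, map_add, neg_add]
  EY := fun i x => by
    rw [LinearMap.add_apply, LinearMap.add_apply, h.EY, h'.EY, map_add]
  eq := fun x hx => by
    rw [LinearMap.add_apply, LinearMap.add_apply, LinearMap.add_apply, ← h.eq x hx, ← h'.eq x hx,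
      map_add]
    abel

/-- the translation commutes with everything -/
private lemma na_tr (M : MS k H F) (q b i : ℕ) (z : k) (ρ : H → ℤ) (r : ℤ) :
    (∀ x ∈ (M.circ q b i z ρ).Q, (cirA 1 r : Module.End k (Cir M.V)) x ∈ (M.circ q b i z ρ).Q) ∧
    (∀ j, ∀ x ∈ (M.circ q b i z ρ).G j,
      (cirA 1 r : Module.End k (Cir M.V)) x ∈ (M.circ q b i z ρ).G j) ∧
    (∀ x, (cirA 1 r : Module.End k (Cir M.V)) ((M.circ q b i z ρ).sg x) =
      (M.circ q b i z ρ).sg ((cirA 1 r : Module.End k (Cir M.V)) x)) ∧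
    (∀ j x, (cirA 1 r : Module.End k (Cir M.V)) ((M.circ q b i z ρ).Y j x) =
      (M.circ q b i z ρ).Y j ((cirA 1 r : Module.End k (Cir M.V)) x)) ∧
    ∀ x, (cirA 1 r : Module.End k (Cir M.V)) ((M.circ q b i z ρ).δ x) =
      (M.circ q b i z ρ).δ ((cirA 1 r : Module.End k (Cir M.V)) x) := by
  refine ⟨fun x hx c => ?_, fun j x hx c => ?_, fun x => rfl, fun j x => rfl, fun x => ?_⟩
  · obtain ⟨h1, h2, h3, h4⟩ := hx (c - r)
    refine ⟨h1, h2, ?_, ?_⟩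
    · change x.1 (c - q - r) = z • x.1 (c - r)
      rw [sub_right_comm]
      exact h3
    · change x.2 (c - q - r) = z • x.2 (c - r)
      rw [sub_right_comm]
      exact h4
  · exact hx (c - r)
  · refine Prod.ext ?_ ?_
    · funext c
      change M.δ (x.1 (c - r)) + (M.sg (x.2 (c - r - 1)) - M.sg (x.2 (c - r))) =
        M.δ (x.1 (c - r)) + (M.sg (x.2 (c - 1 - r)) - M.sg (x.2 (c - r)))
      rw [sub_right_comm]
    · funext c
      change M.δ (x.2 (c - r)) + ∑ a ∈ Finset.range q, M.Y i (M.sg (x.1 (c - r - a))) =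
        M.δ (x.2 (c - r)) + ∑ a ∈ Finset.range q, M.Y i (M.sg (x.1 (c - a - r)))
      congr 1
      refine Finset.sum_congr rfl fun a _ => ?_
      rw [sub_right_comm]

private lemma na_split {V : Type} [AddCommGroup V] [Module k V] (A : Module.End k V) (r : ℤ) :
    (cirA A r - 1 : Module.End k (Cir V)) = cirM (A - 1) * cirA 1 r + (cirA 1 r - 1) := by
  apply LinearMap.ext
  intro f
  refine Prod.ext ?_ ?_
  · funext c
    change A (f.1 (c - r)) - f.1 c = (A (f.1 (c - r)) - f.1 (c - r)) + (f.1 (c - r) - f.1 c)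
    abel
  · funext c
    change A (f.2 (c - r)) - f.2 c = (A (f.2 (c - r)) - f.2 (c - r)) + (f.2 (c - r) - f.2 c)
    abel

end

theorem sNulA (hNulC : S_NulC) (hOKM : S_OKM) (hOpN : S_OpN) : S_NulA := by
  intro G _ g k _ z D hD n h
  induction n with
  | zero =>
    obtain ⟨B, hB, hh⟩ := g.hom h.1.1
    exact ⟨opD D B, na_base hOpN g.alH D g.a h B hB hh⟩
  | succ n ih =>
    obtain ⟨E, hE⟩ := ih
    have hok := (hOKM G g k z D hD n).2.1
    have hok' := (hOKM G g k z D hD (n + 1)).2.1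
    have h1 := (hNulC k _ _ (g.Mn z D n) g.n hok g.q g.b (rv g.m n) (z (rv g.m n))
      (rho g.q g.ψ (rv g.m n))).1 _ _ hE
    obtain ⟨E2, h2⟩ := (hNulC k _ _ (g.Mn z D n) g.n hok g.q g.b (rv g.m n) (z (rv g.m n))
      (rho g.q g.ψ (rv g.m n))).2.1 (rho g.q g.ψ (rv g.m n) h)
    obtain ⟨t1, t2, t3, t4, t5⟩ := na_tr (g.Mn z D n) g.q g.b (rv g.m n) (z (rv g.m n))
      (rho g.q g.ψ (rv g.m n)) (rho g.q g.ψ (rv g.m n) h)
    have h3 := (hNulC k _ _ (g.Mn z D (n + 1)) g.n hok' g.q g.b (rv g.m n) (z (rv g.m n))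
      (rho g.q g.ψ (rv g.m n))).2.2.2 _ _ (cirA 1 (rho g.q g.ψ (rv g.m n) h)) h1 t1 t2 t3 t4 t5
    have h4 := na_nul_add h3 h2
    have e := na_split ((g.Mn z D n).A h) (rho g.q g.ψ (rv g.m n) h)
    have h5 : (g.Mn z D (n + 1)).A h - 1 = cirM ((g.Mn z D n).A h - 1) *
      cirA 1 (rho g.q g.ψ (rv g.m n) h) + (cirA 1 (rho g.q g.ψ (rv g.m n) h) - 1) := e
    rw [h5]
    exact ⟨_, h4⟩

end HRx
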