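import Pool.Agent.Lib.MP_181146_gt.HR.SpecB

/-!
# Project HR, module NulC: null homotopies and one circle
-/

set_option autoImplicit false
set_option linter.unusedSectionVars false

namespace HRx

open HEp HPx

section

variable {k : Type} [CommRing k] {H : Type} {F : FS H}

private theorem NulC_congr {M : MS k H F} {T T' E : Module.End k M.V} (h : M.Nul T E)
    (hT : ∀ x ∈ M.Q, T x = T' x) : M.Nul T' E where
  EQ := h.EQ
  EG := h.EG
  Es := h.Es
  EY := h.EY
  eq := fun x hx => by rw [h.eq x hx, hT x hx]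

private theorem NulC_zero (M : MS k H F) : M.Nul 0 0 where
  EQ := fun _ _ => M.Q.zero_mem
  EG := fun _ _ _ => (M.G _).zero_mem
  Es := fun x => by simp
  EY := fun i x => by simp
  eq := fun x _ => by simp

private theorem NulC_add {M : MS k H F} {T T' E E' : Module.End k M.V} (h : M.Nul T E)
    (h' : M.Nul T' E') : M.Nul (T + T') (E + E') where
  EQ := fun x hx => M.Q.add_mem (h.EQ x hx) (h'.EQ x hx)
  EG := fun i x hx => (M.G _).add_mem (h.EG i x hx) (h'.EG i x hx)
  Es := fun x => by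
    rw [LinearMap.add_apply, LinearMap.add_apply, h.Es, h'.Es, map_add]
    abel
  EY := fun i x => by
    rw [LinearMap.add_apply, LinearMap.add_apply, h.EY, h'.EY, map_add]
  eq := fun x hx => by
    rw [LinearMap.add_apply, LinearMap.add_apply, LinearMap.add_apply, ← h.eq x hx,
      ← h'.eq x hx, map_add]
    abel

private theorem NulC_neg {M : MS k H F} {T E : Module.End k M.V} (h : M.Nul T E) :
    M.Nul (-T) (-E) where
  EQ := fun x hx => M.Q.neg_mem (h.EQ x hx)
  EG := fun i x hx => (M.G _).neg_mem (h.EG i x hx)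
  Es := fun x => by
    rw [LinearMap.neg_apply, LinearMap.neg_apply, h.Es, map_neg]
  EY := fun i x => by
    rw [LinearMap.neg_apply, LinearMap.neg_apply, h.EY, map_neg]
  eq := fun x hx => by
    rw [LinearMap.neg_apply, LinearMap.neg_apply, LinearMap.neg_apply, ← h.eq x hx, map_neg]
    abel

private theorem NulC_mul {M : MS k H F} {T E B : Module.End k M.V} (h : M.Nul T E)
    (h1 : ∀ x ∈ M.Q, B x ∈ M.Q) (h2 : ∀ i, ∀ x ∈ M.G i, B x ∈ M.G i)
    (h3 : ∀ x, B (M.sg x) = M.sg (B x)) (h4 : ∀ i x, B (M.Y i x) = M.Y i (B x))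
    (h5 : ∀ x, B (M.δ x) = M.δ (B x)) : M.Nul (T * B) (E * B) where
  EQ := fun x hx => h.EQ _ (h1 x hx)
  EG := fun i x hx => h.EG i _ (h2 i x hx)
  Es := fun x => by
    rw [Module.End.mul_apply, Module.End.mul_apply, h3, h.Es]
  EY := fun i x => by
    rw [Module.End.mul_apply, Module.End.mul_apply, h4, h.EY]
  eq := fun x hx => by
    rw [Module.End.mul_apply, Module.End.mul_apply, Module.End.mul_apply, h5, h.eq _ (h1 x hx)]

end

section

variable {k : Type} [CommRing k] {H : Type} [Group H] {F : FS H} {M : MS k H F} {n : ℤ}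

/-- (1) -/
private theorem NulC_cirM {H : Type} {F : FS H} {M : MS k H F} (q b i : ℕ) (z : k) (ρ : H → ℤ)
    {T E : Module.End k M.V}
    (h : M.Nul T E) : (M.circ q b i z ρ).Nul (cirM T) (cirM E) where
  EQ := by
    intro f hf c
    obtain ⟨h1, h2, h3, h4⟩ := hf c
    refine ⟨h.EQ _ h1, h.EQ _ h2, ?_, ?_⟩
    · change E (f.1 (c - q)) = z • E (f.1 c)
      rw [h3, map_smul]
    · change E (f.2 (c - q)) = z • E (f.2 c)
      rw [h4, map_smul]
  EG := by
    intro j f hf c
    obtain ⟨h1, h2⟩ := hf c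
    refine ⟨h.EG _ _ h1, ?_⟩
    have e : j + 1 - 1 = j - 1 + 1 := by ring
    rw [e]
    exact h.EG _ _ h2
  Es := by
    intro f
    refine Prod.ext ?_ ?_
    · funext c
      exact h.Es _
    · funext c
      change E (-M.sg (f.2 c)) = -(-M.sg (E (f.2 c)))
      rw [map_neg, h.Es]
  EY := by
    intro j f
    refine Prod.ext ?_ ?_ <;>
    · funext c
      exact h.EY _ _
  eq := by
    intro f hf
    refine Prod.ext ?_ ?_
    · funext c
      have h1 := h.eq _ (hf c).1
      change M.δ (E (f.1 c)) + (M.sg (E (f.2 (c - 1))) - M.sg (E (f.2 c))) +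
        E (M.δ (f.1 c) + (M.sg (f.2 (c - 1)) - M.sg (f.2 c))) = T (f.1 c)
      rw [← h1, map_add, map_sub, h.Es, h.Es]
      abel
    · funext c
      have h1 := h.eq _ (hf c).2.1
      change M.δ (E (f.2 c)) + ∑ a ∈ Finset.range q, M.Y i (M.sg (E (f.1 (c - a)))) +
        E (M.δ (f.2 c) + ∑ a ∈ Finset.range q, M.Y i (M.sg (f.1 (c - a)))) = T (f.2 c)
      have h2 : E (∑ a ∈ Finset.range q, M.Y i (M.sg (f.1 (c - a)))) =
          -∑ a ∈ Finset.range q, M.Y i (M.sg (E (f.1 (c - a)))) := by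
        rw [map_sum, ← Finset.sum_neg_distrib]
        refine Finset.sum_congr rfl fun a _ => ?_
        rw [h.EY, h.Es, map_neg]
      rw [← h1, map_add, h2]
      abel

/-- The homotopy for the translation by one. -/
private def NulC_E (sg : Module.End k M.V) : Module.End k (Cir M.V) where
  toFun f := (fun _ => 0, fun c => sg (f.1 c))
  map_add' f g := by
    refine Prod.ext ?_ ?_
    · funext c
      exact (add_zero 0).symm
    · funext c
      exact sg.map_add _ _
  map_smul' r f := by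
    refine Prod.ext ?_ ?_
    · funext c
      exact (smul_zero r).symm
    · funext c
      exact sg.map_smul _ _

private theorem NulC_one (hM : M.OK n) (q b i : ℕ) (z : k) (ρ : H → ℤ) :
    (M.circ q b i z ρ).Nul (cirA 1 1 - 1) (NulC_E M.sg) where
  EQ := by
    intro f hf c
    obtain ⟨h1, h2, h3, h4⟩ := hf c
    refine ⟨M.Q.zero_mem, hM.Qs _ h1, (smul_zero z).symm, ?_⟩
    change M.sg (f.1 (c - q)) = z • M.sg (f.1 c)
    rw [h3, map_smul]
  EG := by
    intro j f hf c
    obtain ⟨h1, h2⟩ := hf c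
    refine ⟨(M.G _).zero_mem, ?_⟩
    rw [add_sub_cancel_right]
    exact hM.Gs _ _ h1
  Es := by
    intro f
    refine Prod.ext ?_ ?_
    · funext c
      change (0 : M.V) = -M.sg 0
      rw [map_zero, neg_zero]
    · funext c
      change M.sg (M.sg (f.1 c)) = -(-M.sg (M.sg (f.1 c)))
      rw [neg_neg]
  EY := by
    intro j f
    refine Prod.ext ?_ ?_
    · funext c
      change (0 : M.V) = M.Y j 0
      rw [map_zero]
    · funext c
      change M.sg (M.Y j (f.1 c)) = M.Y j (M.sg (f.1 c))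
      rw [hM.Ys]
  eq := by
    intro f _
    refine Prod.ext ?_ ?_
    · funext c
      change M.δ 0 + (M.sg (M.sg (f.1 (c - 1))) - M.sg (M.sg (f.1 c))) + 0 =
        f.1 (c - 1) - f.1 c
      rw [map_zero, hM.ss, hM.ss]
      abel
    · funext c
      change M.δ (M.sg (f.1 c)) + ∑ a ∈ Finset.range q, M.Y i (M.sg (0 : M.V)) +
        M.sg (M.δ (f.1 c) + (M.sg (f.2 (c - 1)) - M.sg (f.2 c))) = f.2 (c - 1) - f.2 c
      have h0 : ∑ a ∈ Finset.range q, M.Y i (M.sg (0 : M.V)) = 0 := by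
        rw [map_zero, map_zero, Finset.sum_const_zero]
      rw [h0, map_add, map_sub, hM.ss, hM.ss, hM.sd]
      abel

/-- multiplication with a translation -/
private theorem NulC_tr (q b i : ℕ) (z : k) (ρ : H → ℤ)
    {T E : Module.End k (M.circ q b i z ρ).V} (h : (M.circ q b i z ρ).Nul T E) (s : ℤ)
    (B : Module.End k (M.circ q b i z ρ).V) (hB : B = cirA 1 s) :
    (M.circ q b i z ρ).Nul (T * B) (E * B) := by
  subst hB
  refine NulC_mul h ?_ ?_ ?_ ?_ ?_
  · intro f hf c
    obtain ⟨h1, h2, h3, h4⟩ := hf (c - s)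
    refine ⟨h1, h2, ?_, ?_⟩
    · change f.1 (c - q - s) = z • f.1 (c - s)
      rw [← h3, sub_right_comm]
    · change f.2 (c - q - s) = z • f.2 (c - s)
      rw [← h4, sub_right_comm]
  · intro j f hf c
    exact hf (c - s)
  · intro f
    rfl
  · intro j f
    rfl
  · intro f
    refine Prod.ext ?_ ?_
    · funext c
      change M.δ (f.1 (c - s)) + (M.sg (f.2 (c - s - 1)) - M.sg (f.2 (c - s))) =
        M.δ (f.1 (c - s)) + (M.sg (f.2 (c - 1 - s)) - M.sg (f.2 (c - s)))
      rw [sub_right_comm]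
    · funext c
      change M.δ (f.2 (c - s)) + ∑ a ∈ Finset.range q, M.Y i (M.sg (f.1 (c - s - a))) =
        M.δ (f.2 (c - s)) + ∑ a ∈ Finset.range q, M.Y i (M.sg (f.1 (c - a - s)))
      congr 1
      refine Finset.sum_congr rfl fun a _ => ?_
      rw [sub_right_comm]

private theorem NulC_step (q b i : ℕ) (z : k) (ρ : H → ℤ) (r s : ℤ)
    (f : (M.circ q b i z ρ).V) :
    ((cirA 1 r - 1) * (cirA 1 s : Module.End k (M.circ q b i z ρ).V) + (cirA 1 s - 1) :
      Module.End k (M.circ q b i z ρ).V) f =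
      (cirA 1 (r + s) - 1 : Module.End k (M.circ q b i z ρ).V) f := by
  refine Prod.ext ?_ ?_
  · funext c
    change f.1 (c - r - s) - f.1 (c - s) + (f.1 (c - s) - f.1 c) = f.1 (c - (r + s)) - f.1 c
    rw [sub_add_sub_cancel, sub_sub]
  · funext c
    change f.2 (c - r - s) - f.2 (c - s) + (f.2 (c - s) - f.2 c) = f.2 (c - (r + s)) - f.2 c
    rw [sub_add_sub_cancel, sub_sub]

private theorem NulC_A0 (q b i : ℕ) (z : k) (ρ : H → ℤ) (f : (M.circ q b i z ρ).V) :
    (0 : Module.End k (M.circ q b i z ρ).V) f =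
      (cirA 1 0 - 1 : Module.End k (M.circ q b i z ρ).V) f := by
  symm
  refine Prod.ext ?_ ?_
  · funext c
    change f.1 (c - 0) - f.1 c = 0
    rw [sub_zero, sub_self]
  · funext c
    change f.2 (c - 0) - f.2 c = 0
    rw [sub_zero, sub_self]

/-- (2) -/
private theorem NulC_all (hM : M.OK n) (q b i : ℕ) (z : k) (ρ : H → ℤ) (r : ℤ) :
    ∃ E, (M.circ q b i z ρ).Nul (cirA 1 r - 1) E := by
  have h1 := NulC_one hM q b i z ρ
  have hm : ∃ E, (M.circ q b i z ρ).Nul (cirA 1 (-1) - 1) E := by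
    have h2 := NulC_neg (NulC_tr q b i z ρ h1 (-1) _ rfl)
    refine ⟨_, NulC_congr h2 fun f _ => ?_⟩
    refine Prod.ext ?_ ?_
    · funext c
      change -(f.1 (c - 1 - -1) - f.1 (c - -1)) = f.1 (c - -1) - f.1 c
      have e : c - 1 - -1 = c := by ring
      rw [e, neg_sub]
    · funext c
      change -(f.2 (c - 1 - -1) - f.2 (c - -1)) = f.2 (c - -1) - f.2 c
      have e : c - 1 - -1 = c := by ring
      rw [e, neg_sub]
  induction r using Int.induction_on with
  | zero =>
    exact ⟨0, NulC_congr (NulC_zero (M.circ q b i z ρ)) fun f _ => NulC_A0 q b i z ρ f⟩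
  | succ r ih =>
    obtain ⟨E, hE⟩ := ih
    have h2 := NulC_add (NulC_tr q b i z ρ hE 1 _ rfl) h1
    exact ⟨_, NulC_congr h2 fun f _ => NulC_step q b i z ρ r 1 f⟩
  | pred r ih =>
    obtain ⟨E, hE⟩ := ih
    obtain ⟨E', hE'⟩ := hm
    have h2 := NulC_add (NulC_tr q b i z ρ hE (-1) _ rfl) hE'
    exact ⟨_, NulC_congr h2 fun f _ => NulC_step q b i z ρ (-(r : ℤ)) (-1) f⟩

end

theorem sNulC : S_NulC := by
  intro k _ H _ F M n hM q b i z ρ
  refine ⟨fun T E h => NulC_cirM q b i z ρ h, NulC_all hM q b i z ρ, ?_,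
    fun T E B h h1 h2 h3 h4 h5 => NulC_mul h h1 h2 h3 h4 h5⟩
  obtain ⟨E, hE⟩ := NulC_all hM q b i z ρ q
  refine ⟨E, NulC_congr hE fun f hf => ?_⟩
  refine Prod.ext ?_ ?_
  · funext c
    change f.1 (c - q) - f.1 c = (z - 1) • f.1 c
    rw [(hf c).2.2.1, sub_smul, one_smul]
  · funext c
    change f.2 (c - q) - f.2 c = (z - 1) • f.2 c
    rw [(hf c).2.2.2, sub_smul, one_smul]

end HRx
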