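import Pool.Agent.Lib.MP_181146_gt.HR.SpecB

/-!
# Project HR, module NulZ: the operators `z i - 1` are null homotopic
-/

set_option autoImplicit false

namespace HRx

open HEp HPx

private lemma cirM_smul_one {k : Type} [CommRing k] {V : Type} [AddCommGroup V] [Module k V]
    (r : k) : cirM (r • (1 : Module.End k V)) = r • (1 : Module.End k (Cir V)) :=
  LinearMap.ext fun _ => rfl

theorem sNulZ (hNulC : S_NulC) (hOKM : S_OKM) : S_NulZ := by
  intro G _ g k _ z D hD n
  induction n with
  | zero =>
    intro l hl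
    exact absurd hl (Nat.not_lt_zero l)
  | succ n ih =>
    intro l hl
    have hC := hNulC k (Gam g.q g.ψ) _ (g.Mn z D n) g.n (hOKM G g k z D hD n).2.1 g.q g.b
      (rv g.m n) (z (rv g.m n)) (rho g.q g.ψ (rv g.m n))
    rcases Nat.lt_succ_iff_lt_or_eq.1 hl with h | h
    · obtain ⟨E, hE⟩ := ih l h
      have h1 := hC.1 _ _ hE
      rw [cirM_smul_one] at h1
      exact ⟨_, h1⟩
    · subst h
      exact hC.2.2.1

end HRx
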