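import Pool.Agent.Lib.MP_181146_gt.HR.SpecB

/-!
# Project HR: OKM

All identities for the products with circles.
-/

set_option autoImplicit false

namespace HRx

open HEp HPx

theorem sOKM (hFS0 : S_FS0) (hMS0 : S_MS0) (hFMit : S_FMit) (hMitG : S_MitG) : S_OKM := by
  intro G _ g k _ z D hD n
  have h1 : g.alH 1 = SSHom.id g.K := g.al1
  have hα : ∀ h h', g.alH (h * h') = (g.alH h).comp (g.alH h') := fun h h' => g.alm h.1.1 h'.1.1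
  have hF : (fs0 g.K g.alH).OK := hFS0 (Gam g.q g.ψ) g.K g.alH h1 hα
  obtain ⟨hM, hG, -, -⟩ := hMS0 k (Gam g.q g.ψ) g.K g.alH h1 hα D hD g.a g.n g.n1 g.ad g.ag
    (fun h y => g.aα h.1.1 y)
  obtain ⟨hA, hB⟩ := hFMit k (Gam g.q g.ψ) (fs0 g.K g.alH) hF (ms0 g.K g.alH D g.a) g.n hM g.q g.b
    (rv g.m) z (rho g.q g.ψ) (rho_one g.q g.ψ) (rho_mul g.q g.ψ) n
  refine ⟨hA, hB, fun φ hP e he hD' => ?_⟩
  exact hMitG k (Gam g.q g.ψ) (fs0 g.K g.alH) hF (ms0 g.K g.alH D g.a) g.n hM g.q g.b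
    (rv g.m) z (rho g.q g.ψ) (rho_one g.q g.ψ) (rho_mul g.q g.ψ) (fun φ _ => hG φ) n e he φ hD' hP

end HRx
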