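import Pool.Agent.Lib.MP_181146_gt.HR.SpecB

/-!
# Project HR: module OpL (linear forms in the operators)
-/

set_option autoImplicit false

namespace HRx

open HEp HPx

section

variable {k : Type} [CommRing k]

private lemma tY_comm {D : DM k} (hD : D.Comm) (i i' : ℕ) (u : D.Sq) :
    D.tY i (D.tY i' u) = D.tY i' (D.tY i u) := by
  funext j
  exact hD i i' j (u (j + 1 + 1))

private lemma lin_apply (D : DM k) (m : ℕ) (l : ℕ → k) (u : D.Sq) :
    (∑ i ∈ Finset.range m, l i • D.tY i) u = ∑ i ∈ Finset.range m, l i • D.tY i u := by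
  rw [LinearMap.sum_apply]
  exact Finset.sum_congr rfl fun i _ => rfl

private lemma lin_single (D : DM k) (m : ℕ) (l : ℕ → k) (j : ℕ) (x : D.D (j + 1)) :
    (∑ i ∈ Finset.range m, l i • D.tY i) (Pi.single (j + 1) x) =
      Pi.single j (∑ i ∈ Finset.range m, l i • D.Y i j x) := by
  have h1 : (Pi.single j (∑ i ∈ Finset.range m, l i • D.Y i j x) : D.Sq) =
      ∑ i ∈ Finset.range m, l i • (Pi.single j (D.Y i j x) : D.Sq) := by
    have h2 := map_sum (LinearMap.single k D.D j) (fun i => l i • D.Y i j x) (Finset.range m)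
    have h3 : ∀ i, LinearMap.single k D.D j (l i • D.Y i j x) =
        l i • (Pi.single j (D.Y i j x) : D.Sq) := fun i =>
      (LinearMap.single k D.D j).map_smul (l i) (D.Y i j x)
    simp only [h3] at h2
    exact h2
  rw [lin_apply, h1]
  exact Finset.sum_congr rfl fun i _ => by rw [D.tY_single]

end

theorem sOpL : S_OpL := by
  intro K k _ D hD m l
  refine ⟨?_, ?_, ?_, ?_⟩
  · intro i u
    rw [lin_apply, lin_apply, map_sum]
    exact Finset.sum_congr rfl fun i' _ => by rw [map_smul, tY_comm hD]
  · intro x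
    rw [lin_apply]
    exact Finset.sum_eq_zero fun i _ => by rw [D.tY_single_zero, smul_zero]
  · intro j x
    exact lin_single D m l j x
  · refine LinearMap.ext fun h => ?_
    funext j
    refine Finsupp.ext fun y => ?_
    have h1 : (opW K D 1 (∑ i ∈ Finset.range m, l i • D.tY i) h) j y =
        ((∑ i ∈ Finset.range m, l i • D.tY i) (Pi.single (j + 1) (h (j + 1) y)) : D.Sq) j := rfl
    rw [h1, lin_single, Pi.single_eq_same, LinearMap.sum_apply]
    rw [Finset.sum_apply, Finsupp.finsetSum_apply]
    exact Finset.sum_congr rfl fun i _ => rfl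

end HRx
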