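import Pool.Agent.Lib.MP_181146_gt.HR.SpecB

/-!
# Project HR, module RelI: the Clifford relation for a constant functional of odd degree
-/

set_option autoImplicit false
set_option linter.unusedVariables false

namespace HRx

open HEp HPx

/-- The sign of the constant functionals. -/
private theorem RelI_tw {H : Type} (F : FS H) (q : ℕ) (ix : ℕ → ℕ) (ρ : ℕ → H → ℤ) (ψ : F.Φ)
    (hψ : F.tw ψ = -ψ) (n : ℕ) :
    (fit F q ix ρ n).tw (cst q ix ρ n ψ) = -cst q ix ρ n ψ := by
  induction n with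
  | zero => exact hψ
  | succ n ih =>
    refine Prod.ext ?_ ?_
    · funext j c
      change (fit F q ix ρ n).tw (if j = 0 then cst q ix ρ n ψ else 0) =
        -(if j = 0 then cst q ix ρ n ψ else 0)
      split_ifs
      · exact ih
      · rw [map_zero, neg_zero]
    · funext j c
      change -(fit F q ix ρ n).tw 0 = -0
      rw [map_zero]

/-- The operator `sg Z` of a constant functional on the product with a circle. -/
private theorem RelI_sz {k : Type} [CommRing k] {H : Type} {F : FS H} (M : MS k H F) (q b i : ℕ)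
    (z : k) (ρ : H → ℤ) (φ : F.Φ) (hφ : F.tw φ = -φ) :
    (M.circ q b i z ρ).sg * (M.circ q b i z ρ).Z
      (((fun j _ => if j = 0 then φ else 0, fun _ _ => 0) : CF F.Φ)) = cirM (M.sg * M.Z φ) := by
  apply LinearMap.ext
  intro f
  have hZ0 : ∀ x, M.Z 0 x = 0 := fun x => by rw [map_zero, LinearMap.zero_apply]
  refine Prod.ext ?_ ?_
  · funext c
    change M.sg (∑ j ∈ Finset.range (b + 1),
      (M.Z (if j = 0 then φ else 0) ((M.Y i ^ j) (f.1 c)) + M.Z 0 ((M.Y i ^ j) (f.2 c)))) =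
      M.sg (M.Z φ (f.1 c))
    congr 1
    rw [Finset.sum_range_succ', Finset.sum_eq_zero, zero_add, if_pos rfl, hZ0, add_zero, pow_zero]
    · rfl
    · intro j _
      rw [if_neg (Nat.succ_ne_zero j), hZ0, hZ0, add_zero]
  · funext c
    change -M.sg (∑ j ∈ Finset.range (b + 1),
      (M.Z (F.tw (if j = 0 then φ else 0)) ((M.Y i ^ j) (f.2 c)) +
        ∑ s ∈ Finset.range q, ∑ a ∈ Finset.range s,
          M.Z (F.tw 0) ((M.Y i ^ (j + 1)) (f.1 (c - a))))) = M.sg (M.Z φ (f.2 c))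
    have h0 : ∀ j, ∑ s ∈ Finset.range q, ∑ a ∈ Finset.range s,
          M.Z (F.tw 0) ((M.Y i ^ (j + 1)) (f.1 (c - a))) = 0 := by
      intro j
      refine Finset.sum_eq_zero fun s _ => Finset.sum_eq_zero fun a _ => ?_
      rw [map_zero, hZ0]
    have h1 : ∑ j ∈ Finset.range (b + 1),
      (M.Z (F.tw (if j = 0 then φ else 0)) ((M.Y i ^ j) (f.2 c)) +
        ∑ s ∈ Finset.range q, ∑ a ∈ Finset.range s,
          M.Z (F.tw 0) ((M.Y i ^ (j + 1)) (f.1 (c - a)))) = -M.Z φ (f.2 c) := by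
      rw [Finset.sum_range_succ', Finset.sum_eq_zero, zero_add, if_pos rfl, h0, add_zero, pow_zero,
        hφ, map_neg, LinearMap.neg_apply]
      · rfl
      · intro j _
        rw [if_neg (Nat.succ_ne_zero j), h0, add_zero, map_zero, hZ0]
    rw [h1, map_neg, neg_neg]

theorem sRelI (hNulC : S_NulC) (hFMit : S_FMit) : S_RelI := by
  intro k _ H _ F hF M d hM q b ix z ρ h1 hρ ψ hψ hN n
  induction n with
  | zero => exact hN
  | succ n ih =>
    obtain ⟨E, hE⟩ := ih
    have hok := (hFMit k H F hF M d hM q b ix z ρ h1 hρ n).2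
    have h2 := (hNulC k H (fit F q ix ρ n) (mit M q b ix z ρ n) d hok q b (ix n) (z (ix n))
      (ρ (ix n))).1 _ E hE
    have h3 := RelI_sz (mit M q b ix z ρ n) q b (ix n) (z (ix n)) (ρ (ix n)) (cst q ix ρ n ψ)
      (RelI_tw F q ix ρ ψ hψ n)
    have h4 : (mit M q b ix z ρ (n + 1)).sg *
        (mit M q b ix z ρ (n + 1)).Z (cst q ix ρ (n + 1) ψ) * (mit M q b ix z ρ (n + 1)).Ξ +
        (mit M q b ix z ρ (n + 1)).Ξ * (mit M q b ix z ρ (n + 1)).sg *
          (mit M q b ix z ρ (n + 1)).Z (cst q ix ρ (n + 1) ψ) - 1 =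
        cirM ((mit M q b ix z ρ n).sg * (mit M q b ix z ρ n).Z (cst q ix ρ n ψ) *
          (mit M q b ix z ρ n).Ξ + (mit M q b ix z ρ n).Ξ * (mit M q b ix z ρ n).sg *
          (mit M q b ix z ρ n).Z (cst q ix ρ n ψ) - 1) := by
      have h5 : (mit M q b ix z ρ (n + 1)).sg *
        (mit M q b ix z ρ (n + 1)).Z (cst q ix ρ (n + 1) ψ) =
        cirM ((mit M q b ix z ρ n).sg * (mit M q b ix z ρ n).Z (cst q ix ρ n ψ)) := h3
      rw [mul_assoc (mit M q b ix z ρ (n + 1)).Ξ, h5]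
      rfl
    exact ⟨cirM E, ⟨h2.EQ, h2.EG, h2.Es, h2.EY, fun x hx =>
      (h2.eq x hx).trans (LinearMap.congr_fun h4 x).symm⟩⟩

end HRx
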