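import Pool.Agent.Lib.MP_181146_gt.HR.SpecB

/-!
# Project HR: scalar functionals commute with `Ξ`
-/

set_option autoImplicit false

namespace HRx

open HEp HPx

private theorem ScZ_neg {H : Type} {F : FS H} (ε : F.Φ) (q : ℕ) (ix : ℕ → ℕ) (ρ : ℕ → H → ℤ) :
    ∀ (n : ℕ) (φ : (fit F q ix ρ n).Φ), Sc ε q ix ρ n φ → Sc ε q ix ρ n (-φ)
  | 0, φ, h => by
    obtain ⟨r, hr⟩ := h
    exact ⟨-r, (congrArg (fun x : F.Φ => -x) hr).trans (neg_smul r ε).symm⟩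
  | n + 1, φ, h => fun j c =>
    ⟨ScZ_neg ε q ix ρ n _ (h j c).1, ScZ_neg ε q ix ρ n _ (h j c).2⟩

private theorem ScZ_tw {H : Type} {F : FS H} (ε : F.Φ) (hε : F.tw ε = ε) (q : ℕ) (ix : ℕ → ℕ)
    (ρ : ℕ → H → ℤ) :
    ∀ (n : ℕ) (φ : (fit F q ix ρ n).Φ), Sc ε q ix ρ n φ → Sc ε q ix ρ n ((fit F q ix ρ n).tw φ)
  | 0, φ, h => by
    obtain ⟨r, hr⟩ := h
    refine ⟨r, (congrArg F.tw hr).trans ?_⟩
    rw [map_zsmul, hε]
  | n + 1, φ, h => fun j c =>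
    ⟨ScZ_tw ε hε q ix ρ n _ (h j c).1,
      ScZ_neg ε q ix ρ n _ (ScZ_tw ε hε q ix ρ n _ (h j c).2)⟩

section

variable {k : Type} [CommRing k] {H : Type} {F : FS H} (M : MS k H F)
  (hY : ∀ i x, M.Ξ (M.Y i x) = M.Y i (M.Ξ x)) (q b : ℕ) (ix : ℕ → ℕ) (z : ℕ → k) (ρ : ℕ → H → ℤ)

include hY in
private theorem ScZ_Y : ∀ (n i : ℕ) (x : (mit M q b ix z ρ n).V),
    (mit M q b ix z ρ n).Ξ ((mit M q b ix z ρ n).Y i x) =
      (mit M q b ix z ρ n).Y i ((mit M q b ix z ρ n).Ξ x)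
  | 0, i, x => hY i x
  | n + 1, i, x => Prod.ext (funext fun c => ScZ_Y n i (x.1 c)) (funext fun c => ScZ_Y n i (x.2 c))

include hY in
private theorem ScZ_Yp (n i : ℕ) : ∀ (j : ℕ) (x : (mit M q b ix z ρ n).V),
    ((mit M q b ix z ρ n).Y i ^ j) ((mit M q b ix z ρ n).Ξ x) =
      (mit M q b ix z ρ n).Ξ (((mit M q b ix z ρ n).Y i ^ j) x)
  | 0, x => by simp only [pow_zero, Module.End.one_apply]
  | j + 1, x => by
    rw [pow_succ', Module.End.mul_apply, Module.End.mul_apply, ScZ_Yp n i j x,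
      ScZ_Y M hY q b ix z ρ]

include hY in
private theorem ScZ_Z (ε : F.Φ) (hε : F.tw ε = ε) (hZ : ∀ x, M.Z ε x = x) :
    ∀ (n : ℕ) (φ : (fit F q ix ρ n).Φ), Sc ε q ix ρ n φ → ∀ x : (mit M q b ix z ρ n).V,
      (mit M q b ix z ρ n).Z φ ((mit M q b ix z ρ n).Ξ x) =
        (mit M q b ix z ρ n).Ξ ((mit M q b ix z ρ n).Z φ x)
  | 0, φ, h, x => by
    obtain ⟨r, hr⟩ := h
    have h1 : ∀ y : M.V, M.Z φ y = r • y := by
      intro y
      have h2 : M.Z φ = r • M.Z ε := (congrArg M.Z hr).trans (map_zsmul M.Z r ε)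
      rw [h2, LinearMap.smul_apply, hZ]
    change M.Z φ (M.Ξ x) = M.Ξ (M.Z φ x)
    rw [h1, h1, map_zsmul]
  | n + 1, φ, h, x => by
    have ih := ScZ_Z ε hε hZ n
    refine Prod.ext (funext fun c => ?_) (funext fun c => ?_)
    · change ∑ j ∈ Finset.range (b + 1),
        ((mit M q b ix z ρ n).Z (φ.1 j c)
            (((mit M q b ix z ρ n).Y (ix n) ^ j) ((mit M q b ix z ρ n).Ξ (x.1 c))) +
          (mit M q b ix z ρ n).Z (φ.2 j c)
            (((mit M q b ix z ρ n).Y (ix n) ^ j) ((mit M q b ix z ρ n).Ξ (x.2 c)))) =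
        (mit M q b ix z ρ n).Ξ (∑ j ∈ Finset.range (b + 1),
        ((mit M q b ix z ρ n).Z (φ.1 j c) (((mit M q b ix z ρ n).Y (ix n) ^ j) (x.1 c)) +
          (mit M q b ix z ρ n).Z (φ.2 j c) (((mit M q b ix z ρ n).Y (ix n) ^ j) (x.2 c))))
      rw [map_sum]
      refine Finset.sum_congr rfl fun j _ => ?_
      rw [map_add, ScZ_Yp M hY q b ix z ρ, ScZ_Yp M hY q b ix z ρ, ih _ (h j c).1,
        ih _ (h j c).2]
    · change ∑ j ∈ Finset.range (b + 1),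
        ((mit M q b ix z ρ n).Z ((fit F q ix ρ n).tw (φ.1 j (c + 1)))
            (((mit M q b ix z ρ n).Y (ix n) ^ j) ((mit M q b ix z ρ n).Ξ (x.2 c))) +
          ∑ s ∈ Finset.range q, ∑ a ∈ Finset.range s,
            (mit M q b ix z ρ n).Z ((fit F q ix ρ n).tw (φ.2 j (c - a + s)))
              (((mit M q b ix z ρ n).Y (ix n) ^ (j + 1))
                ((mit M q b ix z ρ n).Ξ (x.1 (c - a))))) =
        (mit M q b ix z ρ n).Ξ (∑ j ∈ Finset.range (b + 1),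
        ((mit M q b ix z ρ n).Z ((fit F q ix ρ n).tw (φ.1 j (c + 1)))
            (((mit M q b ix z ρ n).Y (ix n) ^ j) (x.2 c)) +
          ∑ s ∈ Finset.range q, ∑ a ∈ Finset.range s,
            (mit M q b ix z ρ n).Z ((fit F q ix ρ n).tw (φ.2 j (c - a + s)))
              (((mit M q b ix z ρ n).Y (ix n) ^ (j + 1)) (x.1 (c - a)))))
      rw [map_sum]
      refine Finset.sum_congr rfl fun j _ => ?_
      rw [map_add, map_sum, ScZ_Yp M hY q b ix z ρ,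
        ih _ (ScZ_tw ε hε q ix ρ n _ (h j (c + 1)).1)]
      refine congrArg _ (Finset.sum_congr rfl fun s _ => ?_)
      rw [map_sum]
      refine Finset.sum_congr rfl fun a _ => ?_
      rw [ScZ_Yp M hY q b ix z ρ, ih _ (ScZ_tw ε hε q ix ρ n _ (h j (c - a + s)).2)]

end

theorem sScZ : S_ScZ := fun _ _ _ _ _ _ M _ hM q b ix z ρ ε hε hZ n φ hφ =>
  ⟨ScZ_tw ε hε q ix ρ n φ hφ, ScZ_Z M hM.ΞY q b ix z ρ ε hε hZ n φ hφ⟩

end HRx
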