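import Pool.Agent.Lib.MP_181146_gt.HR.SpecB

set_option autoImplicit false
set_option linter.unusedVariables false

namespace HRx

open HEp HPx

private lemma xun_aug_od (K : SS) (y : Ch ℤ K) : aug ℤ K (od ℤ K y) = 0 := by
  induction y using Finsupp.induction_linear with
  | zero => rw [map_zero, map_zero]
  | add a b ha hb => rw [map_add, map_add, ha, hb, add_zero]
  | single x r =>
    rw [od, Finsupp.linearCombination_single, map_smul]
    split_ifs with h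
    · rw [aug, Finsupp.linearCombination_single, if_neg, smul_zero, smul_zero]
      intro h0
      rw [h0] at h
      exact absurd h (by decide)
    · rw [map_zero, smul_zero]

private lemma xun_aug_sg (K : SS) : aug ℤ K ∘ₗ sgC K = aug ℤ K := by
  apply LinearMap.ext
  intro y
  change aug ℤ K (y - (2 : ℤ) • od ℤ K y) = aug ℤ K y
  rw [map_sub, map_smul, xun_aug_od, smul_zero, sub_zero]

theorem sXUn (hOKM : S_OKM) (hMitK : S_MitK) (hFS0 : S_FS0) (hMS0 : S_MS0) : S_XUn := by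
  intro G _ g k _ z D hD
  obtain ⟨hF, hM, hG⟩ := hOKM G g k z D hD g.m
  have hal1 : g.alH 1 = SSHom.id g.K := g.al1
  have halm : ∀ h h', g.alH (h * h') = (g.alH h).comp (g.alH h') := fun h h' => g.alm h.1.1 h'.1.1
  have hF0 : g.F0.OK := hFS0 (Gam g.q g.ψ) g.K g.alH hal1 halm
  obtain ⟨hM0, _, _, hZ0⟩ := hMS0 k (Gam g.q g.ψ) g.K g.alH hal1 halm D hD g.a g.n g.n1 g.ad g.ag
    (fun h y => g.aα h.1.1 y)
  have hK := (hMitK k (Gam g.q g.ψ) g.F0 hF0 (g.M0 D) g.n hM0 g.q g.b (rv g.m) z (rho g.q g.ψ)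
    (rho_one g.q g.ψ) (rho_mul g.q g.ψ) (aug ℤ g.K) (xun_aug_sg g.K) hZ0 g.m g.κ).1
  have hb : g.F.bd g.V = Kf (F := g.F0) (aug ℤ g.K) g.q (rv g.m) (rho g.q g.ψ) g.m g.κ := g.vb
  have hGV : (g.M z D).Good g.V := hG g.V g.vP g.n (by exact_mod_cast g.nb) g.vD
  refine ⟨fun x => ?_, fun i x => ?_, fun x hx => hM.Qs _ (hM.QZ _ g.vP _ hx),
    fun i x hx => hM.Gs _ _ (hM.GZ _ _ g.vD _ _ hx)⟩
  · rw [hGV x, map_add, hM.sd, hM.ss, hb, hK x]
  · rw [← hM.YZ, ← hM.Ys]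

end HRx
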