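import Pool.Agent.Lib.MP_181146_gt.HR.SpecA
import Pool.Agent.Lib.MP_181146_gt.HP.SpecP

/-!
# Project HR: module Xc1 (the operators of the functionals on the chains)
-/

set_option autoImplicit false

namespace HRx

open scoped TensorProduct
open HEp HPx

private noncomputable def XX {K : SS} (φ : Ch ℤ K →ₗ[ℤ] ℤ) : Ch ℤ K ⊗[ℤ] Ch ℤ K →ₗ[ℤ] Ch ℤ K :=
  lx (φ ∘ₗ (LinearMap.id - od ℤ K)) + sgC K ∘ₗ lx (φ ∘ₗ od ℤ K)

private lemma XX_tmul {K : SS} (φ : Ch ℤ K →ₗ[ℤ] ℤ) (a b : Ch ℤ K) :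
    XX φ (a ⊗ₜ[ℤ] b) = φ (a - od ℤ K a) • b + φ (od ℤ K a) • sgC K b := by
  change lx (φ ∘ₗ (LinearMap.id - od ℤ K)) (a ⊗ₜ[ℤ] b) +
    sgC K (lx (φ ∘ₗ od ℤ K) (a ⊗ₜ[ℤ] b)) = _
  rw [lx_tmul, lx_tmul, map_smul]
  rfl

private lemma Xc_XX {K : SS} (φ : Ch ℤ K →ₗ[ℤ] ℤ) (y : Ch ℤ K) : Xc φ y = XX φ (dl ℤ K y) := rfl

private lemma sgC_app {K : SS} (a : Ch ℤ K) : sgC K a = a - (2 : ℤ) • od ℤ K a := rfl

private lemma sgC_sgC {K : SS} (a : Ch ℤ K) : sgC K (sgC K a) = a := by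
  rw [sgC_app (sgC K a), sgC_app, map_sub, map_smul, od_od]
  module

private lemma od_e {K : SS} (a : Ch ℤ K) : od ℤ K (a - od ℤ K a) = 0 := by
  rw [map_sub, od_od, sub_self]

private lemma sgC_e {K : SS} (a : Ch ℤ K) : sgC K (a - od ℤ K a) = a - od ℤ K a := by
  rw [sgC_app (a - od ℤ K a), od_e, smul_zero, sub_zero]

private lemma sgC_od {K : SS} (a : Ch ℤ K) : sgC K (od ℤ K a) = -od ℤ K a := by
  rw [sgC_app (od ℤ K a), od_od]
  module

private lemma od_sgC {K : SS} (a : Ch ℤ K) : od ℤ K (sgC K a) = -od ℤ K a := by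
  rw [sgC_app, map_sub, map_smul, od_od]
  module

private lemma e_sgC {K : SS} (a : Ch ℤ K) : sgC K a - od ℤ K (sgC K a) = a - od ℤ K a := by
  rw [od_sgC, sgC_app]
  module

private lemma sgC_bd {K : SS} (a : Ch ℤ K) : sgC K (bd ℤ K a) = -bd ℤ K (sgC K a) := by
  rw [sgC_app, sgC_app, od_bd, map_sub, map_sub, map_smul]
  module

private lemma od_app {K : SS} (b : Ch ℤ K) (y : Σ n, K.K n) :
    od ℤ K b y = if Odd y.1 then b y else 0 := by
  classical
  induction b using Finsupp.induction_linear with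
  | zero => simp only [map_zero, Finsupp.coe_zero, Pi.zero_apply, ite_self]
  | add a b ha hb =>
    rw [map_add, Finsupp.add_apply, ha, hb, Finsupp.add_apply]
    split_ifs
    · rfl
    · rfl
  | single x r =>
    rw [od, Finsupp.linearCombination_single]
    by_cases hx : Odd x.1
    · rw [if_pos hx, Finsupp.smul_single, smul_eq_mul, mul_one, Finsupp.single_apply]
      by_cases hxy : x = y
      · rw [if_pos hxy, if_pos (hxy ▸ hx)]
      · rw [if_neg hxy, ite_self]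
    · rw [if_neg hx, smul_zero, Finsupp.coe_zero, Pi.zero_apply, Finsupp.single_apply]
      by_cases hxy : x = y
      · rw [if_neg (hxy ▸ hx)]
      · rw [if_neg hxy, ite_self]

private lemma od_gr {K : SS} {q : ℕ} {b : Ch ℤ K} (h : b ∈ gr ℤ K q) : od ℤ K b ∈ gr ℤ K q := by
  refine (Finsupp.mem_supported' ℤ _).2 fun y hy => ?_
  rw [od_app, (Finsupp.mem_supported' ℤ b).1 h y hy, ite_self]

private lemma sgC_gr {K : SS} {q : ℕ} {b : Ch ℤ K} (h : b ∈ gr ℤ K q) : sgC K b ∈ gr ℤ K q := by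
  rw [sgC_app]
  exact Submodule.sub_mem _ h (Submodule.smul_mem _ _ (od_gr h))

private lemma XX_D {K : SS} (φ : Ch ℤ K →ₗ[ℤ] ℤ) (z : Ch ℤ K ⊗[ℤ] Ch ℤ K) :
    XX φ (((chDG ℤ K).tens (chDG ℤ K)).d z) =
      bd ℤ K (XX φ z) + sgC K (XX (φ ∘ₗ bd ℤ K) z) := by
  induction z with
  | zero => simp only [map_zero, add_zero]
  | add u v hu hv =>
    rw [map_add, map_add, hu, hv, map_add, map_add, map_add, map_add]
    abel
  | tmul a b =>
    have h1 : ((chDG ℤ K).tens (chDG ℤ K)).d (a ⊗ₜ b) =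
      bd ℤ K a ⊗ₜ[ℤ] b + sgC K a ⊗ₜ[ℤ] bd ℤ K b := rfl
    refine (congrArg (XX φ) h1).trans ?_
    have h2 : bd ℤ K a - od ℤ K (bd ℤ K a) = bd ℤ K (od ℤ K a) := by
      rw [od_bd, map_sub]
      abel
    rw [map_add, XX_tmul, XX_tmul, XX_tmul, XX_tmul, h2, od_bd, e_sgC, od_sgC, sgC_bd, map_add,
      map_add, map_smul, map_smul, map_smul, map_smul, sgC_sgC, LinearMap.comp_apply,
      LinearMap.comp_apply, map_neg]
    module

private lemma XX_sg {K : SS} (φ : Ch ℤ K →ₗ[ℤ] ℤ) (z : Ch ℤ K ⊗[ℤ] Ch ℤ K) :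
    XX (φ ∘ₗ sgC K) z = sgC K (XX φ (((chDG ℤ K).tens (chDG ℤ K)).sg z)) := by
  induction z with
  | zero => simp only [map_zero]
  | add u v hu hv => rw [map_add, map_add, hu, hv, map_add, map_add]
  | tmul a b =>
    have h1 : ((chDG ℤ K).tens (chDG ℤ K)).sg (a ⊗ₜ b) = sgC K a ⊗ₜ[ℤ] sgC K b :=
      DG.tens_sg (chDG ℤ K) (chDG ℤ K) a b
    refine Eq.trans ?_ (congrArg (fun t => sgC K (XX φ t)) h1).symm
    rw [XX_tmul, XX_tmul, LinearMap.comp_apply, LinearMap.comp_apply, sgC_e, sgC_od, e_sgC, od_sgC,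
      map_add, map_smul, map_smul, sgC_sgC]

private lemma XX_nat {K : SS} (φ : Ch ℤ K →ₗ[ℤ] ℤ) (ψ : SSHom K K) (z : Ch ℤ K ⊗[ℤ] Ch ℤ K) :
    XX φ (TensorProduct.map (cmap ℤ ψ) (cmap ℤ ψ) z) = cmap ℤ ψ (XX (φ ∘ₗ cmap ℤ ψ) z) := by
  induction z with
  | zero => simp only [map_zero]
  | add u v hu hv => rw [map_add, map_add, hu, hv, map_add, map_add]
  | tmul a b =>
    rw [TensorProduct.map_tmul, XX_tmul, XX_tmul, map_add, map_smul, map_smul,
      LinearMap.comp_apply, LinearMap.comp_apply, map_sub (cmap ℤ ψ), cmap_od, sgC_app, sgC_app,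
      map_sub (cmap ℤ ψ), map_smul (cmap ℤ ψ), cmap_od]

private lemma XX_aug {K : SS} (z : Ch ℤ K ⊗[ℤ] Ch ℤ K) : XX (aug ℤ K) z = lx (aug ℤ K) z := by
  have h0 : ∀ a : Ch ℤ K, aug ℤ K (od ℤ K a) = 0 := by
    intro a
    have : aug ℤ K ∘ₗ od ℤ K = 0 := ch_ext fun n x => by
      rw [LinearMap.comp_apply, od_sx, LinearMap.zero_apply]
      split_ifs with h
      · cases n with
        | zero => exact absurd h (by decide)
        | succ n => exact aug_sx_succ ℤ x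
      · exact map_zero _
    exact LinearMap.congr_fun this a
  induction z with
  | zero => simp only [map_zero]
  | add u v hu hv => rw [map_add, map_add, hu, hv]
  | tmul a b => rw [XX_tmul, lx_tmul, map_sub, h0, sub_zero, zero_smul, add_zero]

theorem sXc1 (_hCapD : HPx.S_CapD) (hDlC : HEp.S_DlC) (hDlG : HEp.S_DlG) : S_Xc1 := by
  intro K φ
  obtain ⟨hcm, hgr, -, hnat⟩ := hDlG ℤ K
  refine ⟨fun y => ?_, fun y => ?_, fun y => ?_, fun ψ y => ?_, fun n hn => ⟨fun i y hy => ?_,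
    fun i hi y hy => ?_⟩⟩
  · rw [Xc_XX, Xc_XX, Xc_XX, ← XX_D]
    exact congrArg (XX φ) (hcm.d y)
  · rw [Xc_XX, Xc_XX, XX_sg]
    have h1 : dl ℤ K (sgC K y) = ((chDG ℤ K).tens (chDG ℤ K)).sg (dl ℤ K y) := by
      have h2 : dl ℤ K (od ℤ K y) = ((chDG ℤ K).tens (chDG ℤ K)).P (dl ℤ K y) := hcm.P y
      rw [sgC_app, map_sub, map_smul, h2]
      rfl
    rw [h1]
  · rw [Xc_XX, XX_aug]
    exact (hDlC ℤ K y).1
  · rw [Xc_XX, Xc_XX, ← hnat K ψ y]
    exact XX_nat φ ψ _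
  · rw [Xc_XX]
    refine Submodule.span_induction (p := fun z _ => XX φ z ∈ gr ℤ K i) ?_ ?_ ?_ ?_ (hgr _ y hy)
    · rintro z ⟨p, q, a, b, hpq, ha, hb, rfl⟩
      rw [XX_tmul]
      by_cases hp : p = n
      · have hq : q = i := by omega
        rw [hq] at hb
        exact Submodule.add_mem _ (Submodule.smul_mem _ _ hb) (Submodule.smul_mem _ _ (sgC_gr hb))
      · rw [hn p hp _ (Submodule.sub_mem _ ha (od_gr ha)), hn p hp _ (od_gr ha), zero_smul,
          zero_smul, add_zero]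
        exact Submodule.zero_mem _
    · rw [map_zero]
      exact Submodule.zero_mem _
    · intro u v _ _ hu hv
      rw [map_add]
      exact Submodule.add_mem _ hu hv
    · intro c u _ hu
      rw [map_smul]
      exact Submodule.smul_mem _ _ hu
  · rw [Xc_XX]
    refine Submodule.span_induction (p := fun z _ => XX φ z = 0) ?_ ?_ ?_ ?_ (hgr _ y hy)
    · rintro z ⟨p, q, a, b, hpq, ha, hb, rfl⟩
      have hp : p ≠ n := by omega
      rw [XX_tmul, hn p hp _ (Submodule.sub_mem _ ha (od_gr ha)), hn p hp _ (od_gr ha), zero_smul,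
        zero_smul, add_zero]
    · rw [map_zero]
    · intro u v _ _ hu hv
      rw [map_add, hu, hv, add_zero]
    · intro c u _ hu
      rw [map_smul, hu, smul_zero]

end HRx
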