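import Pool.Agent.Lib.MP_181146_gt.HR.CLM
import Pool.Agent.Lib.MP_181146_gt.HR.CirX
import Pool.Agent.Lib.MP_181146_gt.HR.Cur
import Pool.Agent.Lib.MP_181146_gt.HR.Dec
import Pool.Agent.Lib.MP_181146_gt.HR.DifF
import Pool.Agent.Lib.MP_181146_gt.HR.DifM
import Pool.Agent.Lib.MP_181146_gt.HR.ExB
import Pool.Agent.Lib.MP_181146_gt.HR.ExC
import Pool.Agent.Lib.MP_181146_gt.HR.ExI
import Pool.Agent.Lib.MP_181146_gt.HR.ExK
import Pool.Agent.Lib.MP_181146_gt.HR.ExS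
import Pool.Agent.Lib.MP_181146_gt.HR.FMit
import Pool.Agent.Lib.MP_181146_gt.HR.FS0
import Pool.Agent.Lib.MP_181146_gt.HR.FSc
import Pool.Agent.Lib.MP_181146_gt.HR.GPM
import Pool.Agent.Lib.MP_181146_gt.HR.MCm
import Pool.Agent.Lib.MP_181146_gt.HR.MHc
import Pool.Agent.Lib.MP_181146_gt.HR.MS0
import Pool.Agent.Lib.MP_181146_gt.HR.MSc
import Pool.Agent.Lib.MP_181146_gt.HR.MitA
import Pool.Agent.Lib.MP_181146_gt.HR.MitC
import Pool.Agent.Lib.MP_181146_gt.HR.MitG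
import Pool.Agent.Lib.MP_181146_gt.HR.MitH
import Pool.Agent.Lib.MP_181146_gt.HR.MitK
import Pool.Agent.Lib.MP_181146_gt.HR.MitKD
import Pool.Agent.Lib.MP_181146_gt.HR.MitR
import Pool.Agent.Lib.MP_181146_gt.HR.NulA
import Pool.Agent.Lib.MP_181146_gt.HR.NulC
import Pool.Agent.Lib.MP_181146_gt.HR.NulZ
import Pool.Agent.Lib.MP_181146_gt.HR.OKM
import Pool.Agent.Lib.MP_181146_gt.HR.OpL
import Pool.Agent.Lib.MP_181146_gt.HR.OpN
import Pool.Agent.Lib.MP_181146_gt.HR.OpY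
import Pool.Agent.Lib.MP_181146_gt.HR.RelI
import Pool.Agent.Lib.MP_181146_gt.HR.ScZ
import Pool.Agent.Lib.MP_181146_gt.HR.XUn
import Pool.Agent.Lib.MP_181146_gt.HR.Xc1
import Pool.Agent.Lib.MP_181146_gt.HP.CapD
import Pool.Agent.Lib.MP_181146_gt.HE.AwD
import Pool.Agent.Lib.MP_181146_gt.HE.AwG
import Pool.Agent.Lib.MP_181146_gt.HE.DlC
import Pool.Agent.Lib.MP_181146_gt.HE.DlG

/-!
# Project HR: the theorems of SpecA and SpecB, without hypotheses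
-/

set_option autoImplicit false

namespace HRx

theorem pOpN : S_OpN := sOpN
theorem pXc1 : S_Xc1 :=
  sXc1 (HPx.sCapD (HEp.sDlG HEp.sAwD HEp.sAwG)) HEp.sDlC (HEp.sDlG HEp.sAwD HEp.sAwG)
theorem pFS0 : S_FS0 := sFS0
theorem pFSc : S_FSc := sFSc
theorem pMSc : S_MSc := sMSc
theorem pMS0 : S_MS0 := sMS0 pOpN pXc1
theorem pFMit : S_FMit := sFMit pFSc pMSc
theorem pCirX : S_CirX := sCirX
theorem pCur : S_Cur := sCur
theorem pMHc : S_MHc := sMHc
theorem pMitG : S_MitG := sMitG pFMit pCirX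
theorem pMitC : S_MitC := sMitC pFMit pCur
theorem pMitH : S_MitH := sMitH pMHc
theorem pMitK : S_MitK := sMitK pFMit
theorem pMitKD : S_MitKD := sMitKD
theorem pMitR : S_MitR := sMitR
theorem pMitA : S_MitA := sMitA
theorem pMCm : S_MCm := sMCm
theorem pOKM : S_OKM := sOKM pFS0 pMS0 pFMit pMitG
theorem pDifM : S_DifM := sDifM pOKM pFS0 pMS0 pMitC
theorem pDifF : S_DifF := sDifF pDifM
theorem pExB : S_ExB := sExB pOpN
theorem pExC : S_ExC := sExC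
theorem pExI : S_ExI := sExI pExC
theorem pExK : S_ExK := sExK pOpN
theorem pExS : S_ExS := sExS
theorem pGPM : S_GPM := sGPM pOKM
theorem pNulC : S_NulC := sNulC
theorem pNulZ : S_NulZ := sNulZ pNulC pOKM
theorem pNulA : S_NulA := sNulA pNulC pOKM pOpN
theorem pOpL : S_OpL := sOpL
theorem pOpY : S_OpY := sOpY
theorem pRelI : S_RelI := sRelI pNulC pFMit
theorem pScZ : S_ScZ := sScZ
theorem pXUn : S_XUn := sXUn pOKM pMitK pFS0 pMS0
theorem pDec : S_Dec := sDec pFS0 pFSc pFMit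
theorem pCLM : S_CLM := sCLM pOKM pDec pScZ pRelI pMitK pOpN pXc1 pFS0 pMS0

end HRx
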