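import Pool.Agent.Lib.MP_181146_gt.HR.PrB
import Pool.Agent.Lib.MP_181146_gt.HR.AllB

/-!
# Project HR, part (c2): the projection of `Q(k, 1, D)` onto the chains is a quasi-isomorphism
-/

set_option autoImplicit false
set_option linter.unusedVariables false
set_option linter.unusedSectionVars false

namespace HRx

open HEp HPx

lemma rv_lt (m l : ℕ) (h : l < m) : rv m l < m := by
  rw [rv, if_pos h]
  omega

lemma rv_inj (m l l' : ℕ) (h : l < m) (h' : l' < m) (e : rv m l = rv m l') : l = l' := by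
  rw [rv, if_pos h, rv, if_pos h'] at e
  omega

lemma rv_rv (m l : ℕ) (h : l < m) : rv m (rv m l) = l := by
  have h1 := rv_lt m l h
  rw [rv, if_pos h1, rv, if_pos h]
  omega

section

variable {G : Type} [CommGroup G] (g : GD G) {k : Type} [CommRing k] (D : DM k)

lemma GD.basM (z : ℕ → k) (hD : D.Comm) (n : ℕ) : Bas (g.Mn z D n) :=
  (pOKM G g k z D hD n).2.1.bas

lemma GD.difM1 (hD : D.Comm) (n : ℕ) : Dif (g.Mn (fun _ => (1 : k)) D n) :=
  pDifM G g k _ D hD n fun j x => Finset.sum_eq_zero fun i _ => by rw [sub_self, zero_smul]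

/-- The projection of `Q(k, 1, D)` onto the chains. -/
noncomputable def GD.prq (h : Dif (g.M (fun _ => (1 : k)) D)) (e : D.D 0 →ₗ[k] k) :
    ((g.M (fun _ => (1 : k)) D).gc h).V →+ (cF g.K k).V :=
  (g.pr (fun _ => (1 : k)) D e).toAddMonoidHom.comp
    (g.M (fun _ => (1 : k)) D).Q.subtype.toAddMonoidHom

lemma GD.prq_apply (h : Dif (g.M (fun _ => (1 : k)) D)) (e : D.D 0 →ₗ[k] k)
    (x : ((g.M (fun _ => (1 : k)) D).gc h).V) :
    g.prq D h e x = g.pr (fun _ => (1 : k)) D e x.1 := rfl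

variable {D}

/-- **The projection onto the chains is a quasi-isomorphism.** -/
theorem GD.prq_QI (hD : D.Comm) (C : D.Cf g.m) (e : D.D 0 →ₗ[k] k)
    (he : Function.Bijective e) (h : Dif (g.M (fun _ => (1 : k)) D)) :
    IsQI ((g.M (fun _ => (1 : k)) D).gc h) (cF g.K k) (g.prq D h e) := by
  have hq : 0 < g.q := Nat.pos_of_ne_zero (NeZero.ne _)
  have hB := g.basM D (fun _ => (1 : k)) hD
  have hDn := g.difM1 D hD
  have hτ : ∀ i < g.m, Sec (g.M0 D) g.m i (upC g.K D (C.τ i)) := fun i hi =>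
    upC_Sec g.alH g.a g.m i (C.τ i) (C.sec i hi) (fun l hl hli x => C.com l hl i hi hli x)
  obtain ⟨p, hp, hpe⟩ := piE_QI (g.M0 D) g.q g.b hq (rv g.m) (rho g.q g.ψ) g.m hB hDn
    (fun l hl => rv_lt g.m l hl) (fun l hl l' hl' e => rv_inj g.m l l' hl hl' e)
    (fun i => upC g.K D (C.τ i)) hτ g.m le_rfl
  -- the last map
  have hK : ∀ (x : (g.M0 D).V), x ∈ KK (g.M0 D) g.q g.b (rv g.m) (fun _ => (1 : k)) (rho g.q g.ψ)
      g.m 0 0 → ∀ j y, (x : ChD g.K D) (j + 1) y = 0 := by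
    intro x hx j y
    refine C.zer j _ fun i hi => ?_
    have h1 := hx.2 (rv g.m i) (Nat.zero_le _) (rv_lt g.m i hi)
    rw [rv_rv g.m i hi] at h1
    have h2 := congrFun h1 j
    exact DFunLike.congr_fun h2 y
  let p2 : ((mit (g.M0 D) g.q g.b (rv g.m) (fun _ => (1 : k)) (rho g.q g.ψ) 0).kc (hDn 0)
      (KK (g.M0 D) g.q g.b (rv g.m) (fun _ => (1 : k)) (rho g.q g.ψ) g.m 0 0)
      (KK_KC (g.M0 D) g.q g.b (rv g.m) (fun _ => (1 : k)) (rho g.q g.ψ) g.m 0 0 (hB 0))).V →+
      (cF g.K k).V :=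
    AddMonoidHom.mk' (fun x => Finsupp.mapRange e (map_zero _) ((x.1 : ChD g.K D) 0)) (by
      intro x y
      exact Finsupp.mapRange_add (map_add _) _ _)
  have hp2 : IsQI ((mit (g.M0 D) g.q g.b (rv g.m) (fun _ => (1 : k)) (rho g.q g.ψ) 0).kc (hDn 0)
      (KK (g.M0 D) g.q g.b (rv g.m) (fun _ => (1 : k)) (rho g.q g.ψ) g.m 0 0)
      (KK_KC (g.M0 D) g.q g.b (rv g.m) (fun _ => (1 : k)) (rho g.q g.ψ) g.m 0 0 (hB 0)))
      (cF g.K k) p2 := by
    refine IsQI.of_bij ⟨?_, ?_⟩ ?_ ?_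
    · intro d x hx y hy
      change e ((x.1 : ChD g.K D) 0 y) = 0
      have h1 : (x.1 : ChD g.K D) 0 y = 0 := by
        refine hx 0 y ?_
        intro e
        apply hy
        push_cast at e
        omega
      rw [h1, map_zero]
    · intro x
      change Finsupp.mapRange e (map_zero _) (opN (k := k) (D.D 0) (bd ℤ g.K)
        ((x.1 : ChD g.K D) 0)) = bd k g.K (Finsupp.mapRange e (map_zero _) ((x.1 : ChD g.K D) 0))
      rw [bd_opN k g.K]
      exact (sOpN g.K k (D.D 0)).2.2.2.2.2.2 k k e.toAddMonoidHom (bd ℤ g.K)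
        ((x.1 : ChD g.K D) 0)
    · intro x hx
      refine Subtype.ext ?_
      funext j
      refine Finsupp.ext fun y => ?_
      cases j with
      | zero =>
        apply he.1
        have h6 : (Finsupp.mapRange e (map_zero _) ((x.1 : ChD g.K D) 0) : Ch k g.K) = 0 := hx
        have h5 : e ((x.1 : ChD g.K D) 0 y) = 0 := DFunLike.congr_fun h6 y
        exact h5.trans (map_zero e).symm
      | succ j => exact hK x.1 x.2 j y
    · intro d (y : Ch k g.K) hy
      choose r hr using he.2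
      have hr0 : r 0 = 0 := he.1 ((hr 0).trans (map_zero e).symm)
      have hmem : (Pi.single 0 (Finsupp.mapRange r hr0 y) : ChD g.K D) ∈
          KK (g.M0 D) g.q g.b (rv g.m) (fun _ => (1 : k)) (rho g.q g.ψ) g.m 0 0 := by
        refine ⟨trivial, fun l _ _ => ?_⟩
        funext j
        refine Finsupp.ext fun x => ?_
        change D.Y _ j ((Pi.single 0 (Finsupp.mapRange r hr0 y) : ChD g.K D) (j + 1) x) = 0
        rw [Pi.single_eq_of_ne (Nat.succ_ne_zero j)]
        exact map_zero _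
      refine ⟨⟨Pi.single 0 (Finsupp.mapRange r hr0 y), hmem⟩, ?_, ?_⟩
      · intro j x hx
        cases j with
        | zero =>
          change (Pi.single 0 (Finsupp.mapRange r hr0 y) : ChD g.K D) 0 x = 0
          rw [Pi.single_eq_same]
          change r (y x) = 0
          rw [hy x, hr0]
          intro e
          apply hx
          push_cast
          omega
        | succ j =>
          change (Pi.single 0 (Finsupp.mapRange r hr0 y) : ChD g.K D) (j + 1) x = 0
          rw [Pi.single_eq_of_ne (Nat.succ_ne_zero j)]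
          rfl
      · refine Finsupp.ext fun x => ?_
        change e ((Pi.single 0 (Finsupp.mapRange r hr0 y) : ChD g.K D) 0 x) = y x
        rw [Pi.single_eq_same]
        exact hr (y x)
  -- the first map
  let p0 : ((g.M (fun _ => (1 : k)) D).gc h).V →+
      ((mit (g.M0 D) g.q g.b (rv g.m) (fun _ => (1 : k)) (rho g.q g.ψ) g.m).kc (hDn g.m)
      (KK (g.M0 D) g.q g.b (rv g.m) (fun _ => (1 : k)) (rho g.q g.ψ) g.m g.m g.m)
      (KK_KC (g.M0 D) g.q g.b (rv g.m) (fun _ => (1 : k)) (rho g.q g.ψ) g.m g.m g.m (hB g.m))).V :=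
    AddMonoidHom.mk' (fun x => ⟨x.1, x.2, fun l h1 h2 => absurd h2 (not_lt.2 h1)⟩)
      (fun x y => rfl)
  have hp0 : IsQI ((g.M (fun _ => (1 : k)) D).gc h)
      ((mit (g.M0 D) g.q g.b (rv g.m) (fun _ => (1 : k)) (rho g.q g.ψ) g.m).kc (hDn g.m)
      (KK (g.M0 D) g.q g.b (rv g.m) (fun _ => (1 : k)) (rho g.q g.ψ) g.m g.m g.m)
      (KK_KC (g.M0 D) g.q g.b (rv g.m) (fun _ => (1 : k)) (rho g.q g.ψ) g.m g.m g.m (hB g.m)))
      p0 := by
    refine IsQI.of_bij ⟨fun d x hx => hx, fun x => rfl⟩ ?_ ?_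
    · intro x hx
      have h5 : (p0 x).1 = 0 := by
        rw [hx]
        rfl
      exact Subtype.ext h5
    · intro d y hy
      exact ⟨⟨y.1, y.2.1⟩, hy, rfl⟩
  have hall := (hp0.cmp hp).cmp hp2
  have hfe : p2.comp (p.comp p0) = g.prq D h e := by
    refine AddMonoidHom.ext fun x => ?_
    have h1 := hpe (p0 x)
    change Finsupp.mapRange e (map_zero _) (((p (p0 x)).1 : ChD g.K D) 0) =
      Finsupp.mapRange e (map_zero _) ((itN (g.M0 D) g.q g.b (rv g.m) (fun _ => (1 : k))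
        (rho g.q g.ψ) g.m x.1 : ChD g.K D) 0)
    rw [h1]
    exact congrArg (Finsupp.mapRange e (map_zero _)) (EE_zero g.alH g.a (rv g.m) C.τ g.m _)
  rw [← hfe]
  exact hall

end

end HRx
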