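import Pool.Agent.Lib.MP_181146_gt.HR.PrU
import Pool.Agent.Lib.MP_181146_gt.HR.PrQ
import Pool.Agent.Lib.MP_181146_gt.HR.SpecC

/-!
# Project HR: SMQ, the `S`-model
-/

set_option autoImplicit false
set_option linter.unusedVariables false
set_option linter.unusedSectionVars false

namespace HRx

open HEp HPx

section

variable {S : Type} [CommRing S] {H : Type} {F : FS H} {k : Type} [CommRing k]

lemma Red.of_Ex3 {M : MS S H F} {M' : MS k H F} {s : S} {a : M.V →+ M.V}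
    (ha : ∀ x, a x = s • x) {red : M.V →+ M'.V}
    (E : Ex3 (M' := M) (M := M) (M'' := M') 0 a red) : Red M M' s red where
  d := E.bd
  g := E.bs
  G := fun i x hx => by
    have h := E.bG i x hx
    rwa [sub_zero] at h
  Q := E.bQ
  s0 := fun x => by rw [← ha, E.ba]
  inj := fun x hx => E.inj x (by rw [ha, hx])
  ker := fun i x hx hQ h0 => by
    obtain ⟨y, hy, hyQ, e⟩ := E.ex i x hx hQ h0
    exact ⟨y, hy, hyQ, by rw [← ha, e]⟩
  sur := fun i y hy hyQ => by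
    obtain ⟨x, hx, hxQ, e⟩ := E.sur i y (by rw [sub_zero]; exact hy) hyQ
    exact ⟨x, hx, hxQ, e⟩

lemma mitF_smul {M : MS S H F} {a : M.V →+ M.V} {s : S} (ha : ∀ x, a x = s • x) (q b : ℕ)
    (ix : ℕ → ℕ) (z : ℕ → S) (ρ : ℕ → H → ℤ) (n : ℕ) (x : (mit M q b ix z ρ n).V) :
    mitF (M := M) (M' := M) a q b ix z z ρ n x = s • x := by
  induction n with
  | zero => exact ha x
  | succ n ih =>
    refine Prod.ext ?_ ?_ <;>
    · funext c
      exact ih _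

/-- The `S`-model lemma with `z` instead of a unit. -/
theorem smod_QI' (A : MS S H F) (hA : Bas A) (M : MS k H F) (N : MS k H F) (hN : Bas N) (s : S)
    (red : A.V →+ M.V) (hr : Red A M s red) (j : M.V →+ N.V) (q b i m : ℕ) (hq : 0 < q)
    (z : S) (hzu : IsUnit z) (hz : z = 1 + s) (ρ : H → ℤ) (τ : Module.End k N.V)
    (hτ : Sec N m i τ)
    (jd : ∀ x, j (M.δ x) = N.δ (j x)) (jG : ∀ d, ∀ x ∈ M.G d, j x ∈ N.G d)
    (jQ : ∀ x ∈ M.Q, j x ∈ N.Q) (hb : BJ M N j i τ)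
    (hcA : Dif (A.circ q b i z ρ)) (hcN : Dif (N.circ q b i 1 ρ)) (hM : Dif M) (hNd : Dif N)
    (P : ((A.circ q b i z ρ).gc hcA).V →+ ((N.circ q b i 1 ρ).gc hcN).V)
    (hP : IsCh ((A.circ q b i z ρ).gc hcA) ((N.circ q b i 1 ρ).gc hcN) P)
    (hP1 : ∀ f c, (P f).1.1 c = j (red (f.1.1 c))) :
    IsQI ((A.circ q b i z ρ).gc hcA) ((N.circ q b i 1 ρ).gc hcN) P := by
  obtain ⟨u, rfl⟩ := hzu
  exact smod_QI A hA M N hN s red hr j q b i m hq u hz ρ τ hτ jd jG jQ (fun x _ => hb.inj x)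
    hb.sur hcA hcN hM hNd P hP hP1

end

section

variable {G : Type} [CommGroup G] (g : GD G) {S F : Type} [CommRing S] [CommRing F]

theorem smod_n (DS : DM S) (D Du : DM F) (cS : DS.Comm) (cD : D.Comm) (cDu : Du.Comm)
    (σ : S →+* F) (z : ℕ → S) (s : S) (hσ : ∀ i, σ (z i) = 1) (hz : ∀ i, IsUnit (z i))
    (z0 : z 0 = 1 + s) (r : DHom σ DS D) (rs : ∀ l y, ∃ x, r.f l x = y)
    (rk : ∀ l x, r.f l x = 0 → ∃ y, x = s • y) (sx : ∀ l (x : DS.D l), s • x = 0 → x = 0)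
    (j : DHom (RingHom.id F) D Du) (ji : ∀ l x, j.f l x = 0 → x = 0) (lam : ℕ → F)
    (l0 : lam 0 = 1) (hm : 0 < g.m)
    (jk : ∀ l (x : Du.D l), (∑ i ∈ Finset.range g.m, lam i • Du.tY i) (Pi.single l x) = 0 ↔
      ∃ y, j.f l y = x)
    (τ : ∀ l, Du.D l →ₗ[F] Du.D (l + 1)) (ts : ∀ l x, Du.Y 0 l (τ l x) = x)
    (tc : ∀ i, 0 < i → i < g.m → ∀ x, Du.tY i (Du.up τ x) = Du.up τ (Du.tY i x))
    (n : ℕ) (hn : rv g.m n = 0) (hlt : ∀ l < n, rv g.m l < g.m) (hne : ∀ l < n, rv g.m l ≠ 0)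
    (N : ℕ) (hN : N = n + 1)
    (hcA : Dif (g.Mn z DS N)) (hcN : Dif (g.Mn (fun _ => (1 : F)) Du N))
    (P : ((g.Mn z DS N).gc hcA).V →+ ((g.Mn (fun _ => (1 : F)) Du N).gc hcN).V)
    (hP : IsCh ((g.Mn z DS N).gc hcA) ((g.Mn (fun _ => (1 : F)) Du N).gc hcN) P)
    (hP1 : ∀ f, (P f).1 = g.mF j (fun _ => (1 : F)) (fun _ => (1 : F)) N
      (g.mF r z (fun _ => (1 : F)) N f.1)) :
    IsQI ((g.Mn z DS N).gc hcA) ((g.Mn (fun _ => (1 : F)) Du N).gc hcN) P := by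
  subst hN
  have hq : 0 < g.q := Nat.pos_of_ne_zero (NeZero.ne _)
  have hs : σ s = 0 := by
    have h := hσ 0
    rw [z0, map_add, map_one] at h
    exact add_eq_left.1 h
  -- the reduction
  let f' : DHom (RingHom.id S) DS DS :=
    { f := fun l => (s • (1 : Module.End S (DS.D l))).toAddMonoidHom
      fs := fun l c x => by
        change s • (c • x) = c • (s • x)
        exact smul_comm _ _ _
      fY := fun i l x => by
        change s • DS.Y i l x = DS.Y i l (s • x)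
        rw [map_smul] }
  have hf' : ∀ x, f'.ch g.K x = s • x := by
    intro x
    funext l
    refine Finsupp.ext fun y => ?_
    rfl
  have hE := pExB G g S S F DS DS D (RingHom.id S) σ f' r (fun l x hx => sx l x hx)
    (fun l x => by
      change r.f l (s • x) = 0
      rw [r.fs, hs, zero_smul])
    (fun l x hx => by
      obtain ⟨y, hy⟩ := rk l x hx
      exact ⟨y, hy.symm⟩) rs
  have hEI := pExI S S F _ _ (g.M0 DS) (g.M0 DS) (g.M0 D) 0 (f'.ch g.K) (r.ch g.K) hE g.q hq g.b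
    (rv g.m) z z (fun _ => (1 : F)) hz (fun _ => isUnit_one)
    (fun i x => DHom.ch_smul g f' (z i) x)
    (fun i x => by
      have h := DHom.ch_smul g r (z i) x
      rw [hσ] at h
      exact h) (rho g.q g.ψ) n
  have hR : Red (g.Mn z DS n) (g.Mn (fun _ => (1 : F)) D n) s (g.mF r z (fun _ => (1 : F)) n) :=
    Red.of_Ex3 (mitF_smul hf' g.q g.b (rv g.m) z (rho g.q g.ψ) n) hEI
  -- the section
  have hSec : Sec (g.M0 Du) g.m (rv g.m n) (upC g.K Du τ) := by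
    rw [hn]
    exact upC_Sec g.alH g.a g.m 0 τ ts (fun l hl hl0 x => tc l (Nat.pos_of_ne_zero hl0) hl x)
  have hSec' := hSec.mit g.q g.b (rv g.m) (fun _ => (1 : F)) (rho g.q g.ψ) n hlt
    (fun l hl => by rw [hn]; exact hne l hl)
  have hBJ : BJ (g.M0 D) (g.M0 Du) (j.ch g.K) (rv g.m n) (upC g.K Du τ) := by
    rw [hn]
    exact BJ_base j g.m lam τ g.K g.alH g.a ji hm l0 jk ts tc
  have hBJ' := hBJ.mit g.q g.b (rv g.m) (rho g.q g.ψ) n
  obtain ⟨j1, j2, j3, j4⟩ := g.mF_all j (fun _ => (1 : F)) (fun _ => (1 : F)) (fun _ => rfl) n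
  exact smod_QI' (g.Mn z DS n) (g.basM DS z cS n) (g.Mn (fun _ => (1 : F)) D n)
    (g.Mn (fun _ => (1 : F)) Du n) (g.basM Du _ cDu n) s
    (g.mF r z (fun _ => (1 : F)) n) hR
    (g.mF j (fun _ => (1 : F)) (fun _ => (1 : F)) n) g.q g.b (rv g.m n) g.m hq (z (rv g.m n))
    (hz _) (by rw [hn]; exact z0) (rho g.q g.ψ (rv g.m n)) _ hSec' j1.fd j2 j3 hBJ' hcA hcN
    (g.difM1 D cD n) (g.difM1 Du cDu n) P hP
    (fun f c => congrFun (congrArg Prod.fst (hP1 f)) c)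

end

theorem sSMQ : S_SMQ := by
  intro G _ g F _ P hm
  obtain ⟨n, hn⟩ : ∃ n, g.m = n + 1 := ⟨g.m - 1, by omega⟩
  have hu : ∀ i, IsUnit (P.z i) := by
    intro i
    rw [PowerSeries.isUnit_iff_constantCoeff, P.zc]
    exact isUnit_one
  refine smod_n g P.DS P.D P.Du P.fl.comm P.cD P.cDu (PowerSeries.constantCoeff (R := F)) P.z
    PowerSeries.X P.zc hu P.z0 P.r P.rs P.rk P.sx P.j P.ji P.lam P.l0 hm P.jk P.τ P.ts P.tc n
    ?_ ?_ ?_ g.m hn P.pS.dif P.pDu.dif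
    ((g.qc P.pD.p0 P.pDu P.j).comp (g.qs P.z P.zc P.pS P.pD.p0 P.r)) ?_ ?_
  · rw [rv, if_pos (by omega), hn]
    omega
  · intro l hl
    exact rv_lt g.m l (by omega)
  · intro l hl
    rw [rv, if_pos (by omega)]
    omega
  · obtain ⟨a1, a2, a3, a4⟩ := g.mF_all P.r P.z (fun _ => (1 : F)) P.zc g.m
    obtain ⟨b1, b2, b3, b4⟩ := g.mF_all P.j (fun _ => (1 : F)) (fun _ => (1 : F))
      (fun _ => rfl) g.m
    refine ⟨fun i x hx => b2 i _ (a2 i _ hx), fun x => Subtype.ext ?_⟩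
    change g.mF P.j _ _ g.m (g.mF P.r _ _ g.m ((g.M P.z P.DS).δ x.1)) =
      (g.M (fun _ => (1 : F)) P.Du).δ (g.mF P.j _ _ g.m (g.mF P.r _ _ g.m x.1))
    rw [a1.fd, b1.fd]
  · intro f
    rfl

end HRx
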