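import Pool.Agent.Lib.MP_181146_gt.HR.SpecC

/-!
# Project HR, part C: V0d, the functional `v0` and the operator `cap v0`
-/

set_option autoImplicit false

namespace HRx

open HEp HPx HBy HAx

private lemma v0d_Dg {H : Type} {F : FS H} (q : ℕ) (ix : ℕ → ℕ) (ρ : ℕ → H → ℤ) :
    ∀ (n : ℕ) (d : ℤ), ∀ φ ∈ (fit F q ix ρ n).Dg d, vx q ix ρ n φ ∈ F.Dg d
  | 0, d, φ, h => h
  | n + 1, d, φ, h => by
    have h1 := (h 0 0).1
    have e : d - 2 * ((0 : ℕ) : ℤ) = d := by simp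
    rw [e] at h1
    exact v0d_Dg q ix ρ n d _ h1

private lemma v0d_bd {H : Type} {F : FS H} (q : ℕ) (ix : ℕ → ℕ) (ρ : ℕ → H → ℤ) :
    ∀ (n : ℕ) (φ : (fit F q ix ρ n).Φ), vx q ix ρ n ((fit F q ix ρ n).bd φ) =
      F.bd (vx q ix ρ n φ)
  | 0, φ => rfl
  | n + 1, φ => by
    change vx q ix ρ n ((fit F q ix ρ n).bd (φ.1 0 0) + 0) = F.bd (vx q ix ρ n (φ.1 0 0))
    rw [add_zero]
    exact v0d_bd q ix ρ n _

private lemma v0d_Kf {H : Type} {F : FS H} (ε : F.Φ) (q : ℕ) (ix : ℕ → ℕ) (ρ : ℕ → H → ℤ) :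
    ∀ (n : ℕ) (κ : (ℕ → ℕ) → ℤ), vx q ix ρ n (Kf ε q ix ρ n κ) = κ 0 • ε
  | 0, κ => rfl
  | n + 1, κ => by
    change vx q ix ρ n (Kf ε q ix ρ n (fun a => κ (Function.update a (ix n) 0))) = κ 0 • ε
    rw [v0d_Kf ε q ix ρ n]
    change κ (Function.update 0 (ix n) 0) • ε = κ 0 • ε
    have e : Function.update (0 : ℕ → ℕ) (ix n) 0 = 0 := Function.update_eq_self (ix n) (0 : ℕ → ℕ)
    rw [e]

private lemma v0d_0 {H : Type} {F : FS H} (ε : F.Φ) (q : ℕ) (ix : ℕ → ℕ) (ρ : ℕ → H → ℤ)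
    (n : ℕ) (κ : (ℕ → ℕ) → ℤ) (hκ : κ 0 = 0) (v : (fit F q ix ρ n).Φ)
    (hv : (fit F q ix ρ n).bd v = Kf ε q ix ρ n κ) : F.bd (vx q ix ρ n v) = 0 := by
  rw [← v0d_bd, hv, v0d_Kf, hκ, zero_smul]

theorem sV0d (hCFo : S_CFo) : S_V0d := by
  intro G _ g F _
  have h1 : Sup g.n g.v0 := by
    intro i hi y hy
    have h := v0d_Dg g.q (rv g.m) (rho g.q g.ψ) g.m g.n g.v g.vD
    exact h i (fun e => hi (by exact_mod_cast e)) y hy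
  have h2 : ∀ y, g.v0 (bd ℤ g.K y) = 0 := by
    intro y
    have hκ : g.κ 0 = 0 := by
      by_contra hne
      have h3 := g.κh 0 hne
      have h4 : ∑ i ∈ Finset.range g.m, (0 : ℕ → ℕ) i = 0 := Finset.sum_eq_zero fun _ _ => rfl
      rw [h4] at h3
      have h5 := g.nw
      have h6 := g.n2
      omega
    exact LinearMap.congr_fun (v0d_0 (F := fs0 g.K (fun h : Gam g.q g.ψ => g.al h.1.1)) (aug ℤ g.K)
      g.q (rv g.m) (rho g.q g.ψ) g.m g.κ hκ g.v g.vb) y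
  refine ⟨h1, h2, ?_⟩
  obtain ⟨c1, c2, c3, -⟩ := HPx.sCapD (HEp.sDlG HEp.sAwD HEp.sAwG) ℤ g.K g.n g.v0 h1
  have hz : g.v0 ∘ₗ bd ℤ g.K = 0 := LinearMap.ext h2
  have hc : ∀ y, cap g.v0 (bd ℤ g.K y) = -bd ℤ g.K (cap g.v0 y) := by
    intro y
    rw [c1, hz, g.n1.neg_one_pow, neg_one_smul]
    have e : cap (0 : Ch ℤ g.K →ₗ[ℤ] ℤ) y = 0 := by
      have e2 : ∀ z, lx (0 : Ch ℤ g.K →ₗ[ℤ] ℤ) z = 0 := by
        intro z
        have h := lx_add (0 : Ch ℤ g.K →ₗ[ℤ] ℤ) 0 z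
        rw [add_zero] at h
        exact left_eq_add.1 h
      exact e2 _
    rw [e, zero_add]
  have hA : ∀ y, (cap g.v0 ∘ₗ g.a) (bd ℤ g.K y) = bd ℤ g.K ((cap g.v0 ∘ₗ g.a) y) := by
    intro y
    rw [LinearMap.comp_apply, LinearMap.comp_apply, g.ad, map_neg, hc, neg_neg]
  obtain ⟨-, o2, -, -, o5, -, -⟩ := pOpN g.K F F
  refine ⟨⟨opN F (cap g.v0 ∘ₗ g.a), ?_, ?_⟩, fun y => rfl⟩
  · intro i (x : Ch F g.K) (hx : x ∈ Finsupp.supported F F {x : Σ n, g.K.K n | (x.1 : ℤ) = i})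
    have hx' : ∀ y : Σ n, g.K.K n, ¬ (y.1 : ℤ) = i → x y = 0 :=
      fun y hy => (Finsupp.mem_supported' F _).1 hx y hy
    refine (Finsupp.mem_supported' F _).2 fun y hy => ?_
    rcases lt_or_ge i 0 with hi | hi
    · have h0 : x = 0 := Finsupp.ext fun y => hx' y (fun e => by omega)
      have h3 := map_zero (opN F (cap g.v0 ∘ₗ g.a) : ChN g.K F →ₗ[F] ChN g.K F)
      rw [h0]
      exact DFunLike.congr_fun h3 y
    · obtain ⟨j, rfl⟩ := Int.eq_ofNat_of_zero_le hi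
      refine o5 (cap g.v0 ∘ₗ g.a) j j (fun z hz => c2 j _ (g.ag j z hz)) x
        (fun z hz => hx' z (fun e => hz (by exact_mod_cast e))) y (fun e => hy ?_)
      change (y.1 : ℤ) = (j : ℤ)
      rw [e]
  · intro x
    have e1 : (HAx.CF g.K F).d x = (opN F (bd ℤ g.K) : ChN g.K F →ₗ[F] ChN g.K F) x :=
      ((hCFo g.K F).1 x).symm
    have e2 : ∀ z : ChN g.K F, (HAx.CF g.K F).d z =
      (opN F (bd ℤ g.K) : ChN g.K F →ₗ[F] ChN g.K F) z := fun z => ((hCFo g.K F).1 z).symm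
    have e3 : (cap g.v0 ∘ₗ g.a) ∘ₗ bd ℤ g.K = bd ℤ g.K ∘ₗ (cap g.v0 ∘ₗ g.a) :=
      LinearMap.ext hA
    have e4 := o2 (cap g.v0 ∘ₗ g.a) (bd ℤ g.K)
    have e5 := o2 (bd ℤ g.K) (cap g.v0 ∘ₗ g.a)
    refine (congrArg _ e1).trans (Eq.trans ?_ (e2 _).symm)
    refine (LinearMap.congr_fun e4 x).symm.trans (Eq.trans ?_ (LinearMap.congr_fun e5 x))
    rw [e3]

end HRx
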