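import Pool.Agent.Lib.MP_181146_gt.HE.DefsG

/-!
# Project HR: big complexes

`GC R`: a differential module with a family of submodules (degrees); no dependent types, so shifts
cost nothing.  `QI`: quasi-isomorphisms.  `Fin X T`: `T` has a bounded model by finitely generated
projective modules.  `Tel T e`: the telescope of an endomorphism.
-/

set_option autoImplicit false

namespace HRx

open HEp

/-- A differential module with a family of submodules `G i` (the elements of degree `i`). -/
structure GC (R : Type) [CommRing R] where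
  V : Type
  [ac : AddCommGroup V]
  [mo : Module R V]
  d : V →ₗ[R] V
  G : ℤ → Submodule R V
  dG : ∀ i x, x ∈ G i → d x ∈ G (i - 1)
  dd : ∀ x, d (d x) = 0

attribute [instance] GC.ac GC.mo

section

variable {R : Type} [CommRing R]

/-- `x` is a cycle of degree `i`. -/
def GC.Cyc (T : GC R) (i : ℤ) (x : T.V) : Prop := x ∈ T.G i ∧ T.d x = 0

/-- `x` is a boundary of degree `i`. -/
def GC.Bdy (T : GC R) (i : ℤ) (x : T.V) : Prop := ∃ y ∈ T.G (i + 1), T.d y = x

/-- The homology vanishes. -/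
def GC.Acy (T : GC R) : Prop := ∀ i x, T.Cyc i x → T.Bdy i x

/-- Degrees `< 0` vanish. -/
def GC.Pos (T : GC R) : Prop := ∀ i, i < 0 → ∀ x ∈ T.G i, x = 0

/-- The same differential module with the degrees shifted: `x` has degree `i` in `T.sh p` if it has
degree `i - p` in `T`. -/
def GC.sh (T : GC R) (p : ℤ) : GC R where
  V := T.V
  d := T.d
  G := fun i => T.G (i - p)
  dG := fun i x hx => by
    have h := T.dG (i - p) x hx
    have e : i - 1 - p = i - p - 1 := by ring
    rw [e]
    exact h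
  dd := T.dd

/-- The same module with the differential `-d`. -/
def GC.ng (T : GC R) : GC R where
  V := T.V
  d := -T.d
  G := T.G
  dG := fun i x hx => by
    rw [LinearMap.neg_apply]
    exact (T.G (i - 1)).neg_mem (T.dG i x hx)
  dd := fun x => by
    rw [LinearMap.neg_apply, LinearMap.neg_apply, map_neg, T.dd, neg_zero, neg_zero]

end

/-- `f` is a chain map of degree `0` (additive; the coefficient rings may be different). -/
def IsCh {R R' : Type} [CommRing R] [CommRing R'] (T : GC R) (T' : GC R') (f : T.V →+ T'.V) : Prop :=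
  (∀ i, ∀ x ∈ T.G i, f x ∈ T'.G i) ∧ ∀ x, f (T.d x) = T'.d (f x)

/-- `f` induces isomorphisms in homology. -/
def IsQI {R R' : Type} [CommRing R] [CommRing R'] (T : GC R) (T' : GC R') (f : T.V →+ T'.V) : Prop :=
  IsCh T T' f ∧ (∀ i x, T.Cyc i x → T'.Bdy i (f x) → T.Bdy i x) ∧
    ∀ i y, T'.Cyc i y → ∃ x, T.Cyc i x ∧ T'.Bdy i (y - f x)

/-- `0 → T' → T → T'' → 0` is exact in every degree. -/
structure SES {R R' R'' : Type} [CommRing R] [CommRing R'] [CommRing R''] (T' : GC R') (T : GC R)
    (T'' : GC R'') (a : T'.V →+ T.V) (b : T.V →+ T''.V) : Prop where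
  cha : IsCh T' T a
  chb : IsCh T T'' b
  inj : ∀ x, a x = 0 → x = 0
  ba : ∀ x, b (a x) = 0
  ex : ∀ i, ∀ x ∈ T.G i, b x = 0 → ∃ y ∈ T'.G i, a y = x
  sur : ∀ i, ∀ z ∈ T''.G i, ∃ x ∈ T.G i, b x = z

section

variable {R : Type} [CommRing R]

/-- A chain map from a bounded complex of finitely generated projective modules to `T`. -/
structure FMap (U : ZCx R) (T : GC R) where
  f : ∀ i : ℤ, U.P i →ₗ[R] T.V
  fG : ∀ i x, f i x ∈ T.G i
  fd : ∀ i x, f (i - 1) (U.d i (i - 1) x) = T.d (f i x)

/-- `f` is a quasi-isomorphism. -/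
def FMap.QI {U : ZCx R} {T : GC R} (F : FMap U T) : Prop :=
  (∀ i (x : U.P i), U.Cyc i x → T.Bdy i (F.f i x) → U.Bdy i x) ∧
  ∀ i (y : T.V), T.Cyc i y → ∃ x : U.P i, U.Cyc i x ∧ T.Bdy i (y - F.f i x)

/-- `T` has a bounded model by finitely generated projective modules, of Euler class `x`. -/
def GC.HasEC (T : GC R) (x : KT R) : Prop := ∃ (U : ZCx R) (F : FMap U T), F.QI ∧ U.EC = x

/-- `T` has a bounded model by finitely generated projective modules. -/
def GC.Perf (T : GC R) : Prop := ∃ (U : ZCx R) (F : FMap U T), F.QI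

/-- A bounded complex of finitely generated projective modules as a big complex. -/
def ofZ (U : ZCx R) : GC R where
  V := ∀ i, U.P i
  d := LinearMap.pi (fun j => U.d (j + 1) j ∘ₗ LinearMap.proj (j + 1))
  G := fun i =>
    { carrier := {x | ∀ j, j ≠ i → x j = 0}
      add_mem' := fun {x y} hx hy j hj => by
        change x j + y j = 0
        rw [hx j hj, hy j hj, add_zero]
      zero_mem' := fun j _ => rfl
      smul_mem' := fun c x hx j hj => by
        change c • x j = 0
        rw [hx j hj, smul_zero] }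
  dG := fun i x hx j hj => by
    change U.d (j + 1) j (x (j + 1)) = 0
    rw [hx (j + 1) (by omega), map_zero]
  dd := fun x => by
    funext j
    change U.d (j + 1) j (U.d (j + 1 + 1) (j + 1) (x (j + 1 + 1))) = 0
    exact U.dd _ _ _ _

/-- The telescope of the endomorphism `e` of degree `0`: pairs `(x, y)` of finite sequences, `y` of
degree one less, `d (x, y) = (d x + y - shift (e y), - d y)`. -/
noncomputable def Tel (T : GC R) (e : T.V →ₗ[R] T.V) (he : ∀ i, ∀ x ∈ T.G i, e x ∈ T.G i)
    (hed : ∀ x, e (T.d x) = T.d (e x)) : GC R where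
  V := (ℕ →₀ T.V) × (ℕ →₀ T.V)
  d := LinearMap.prod
    (Finsupp.mapRange.linearMap T.d ∘ₗ LinearMap.fst R _ _ + LinearMap.snd R _ _ -
      Finsupp.lmapDomain T.V R Nat.succ ∘ₗ Finsupp.mapRange.linearMap e ∘ₗ LinearMap.snd R _ _)
    (-(Finsupp.mapRange.linearMap T.d ∘ₗ LinearMap.snd R _ _))
  G := fun i =>
    { carrier := {x | (∀ k, x.1 k ∈ T.G i) ∧ ∀ k, x.2 k ∈ T.G (i - 1)}
      add_mem' := fun {x y} hx hy =>
        ⟨fun k => (T.G i).add_mem (hx.1 k) (hy.1 k), fun k => (T.G (i - 1)).add_mem (hx.2 k) (hy.2 k)⟩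
      zero_mem' := ⟨fun _ => (T.G i).zero_mem, fun _ => (T.G (i - 1)).zero_mem⟩
      smul_mem' := fun c x hx =>
        ⟨fun k => (T.G i).smul_mem c (hx.1 k), fun k => (T.G (i - 1)).smul_mem c (hx.2 k)⟩ }
  dG := by
    rintro i ⟨x, y⟩ ⟨hx, hy⟩
    refine ⟨fun k => ?_, fun k => ?_⟩
    · change T.d (x k) + y k - Finsupp.mapDomain Nat.succ (Finsupp.mapRange e (map_zero e) y) k ∈
        T.G (i - 1)
      refine (T.G (i - 1)).sub_mem ((T.G (i - 1)).add_mem (T.dG i _ (hx k)) (hy k)) ?_
      cases k with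
      | zero =>
        rw [Finsupp.mapDomain_of_notMem_range]
        · exact (T.G (i - 1)).zero_mem
        · rintro ⟨j, hj⟩
          exact Nat.succ_ne_zero j hj
      | succ k =>
        rw [Finsupp.mapDomain_apply Nat.succ_injective]
        exact he _ _ (hy k)
    · change -(T.d (y k)) ∈ T.G (i - 1 - 1)
      exact (T.G (i - 1 - 1)).neg_mem (T.dG (i - 1) _ (hy k))
  dd := by
    rintro ⟨x, y⟩
    have h1 : Finsupp.mapRange.linearMap (α := ℕ) T.d
        (Finsupp.lmapDomain T.V R Nat.succ (Finsupp.mapRange.linearMap (α := ℕ) e y)) =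
        Finsupp.lmapDomain T.V R Nat.succ (Finsupp.mapRange.linearMap (α := ℕ) e
          (Finsupp.mapRange.linearMap (α := ℕ) T.d y)) := by
      ext k
      change T.d (Finsupp.mapDomain Nat.succ (Finsupp.mapRange e (map_zero e) y) k) =
        Finsupp.mapDomain Nat.succ (Finsupp.mapRange e (map_zero e)
          (Finsupp.mapRange T.d (map_zero T.d) y)) k
      cases k with
      | zero =>
        rw [Finsupp.mapDomain_of_notMem_range, Finsupp.mapDomain_of_notMem_range, map_zero] <;>
        · rintro ⟨j, hj⟩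
          exact Nat.succ_ne_zero j hj
      | succ k =>
        rw [Finsupp.mapDomain_apply Nat.succ_injective, Finsupp.mapDomain_apply Nat.succ_injective]
        exact (hed (y k)).symm
    refine Prod.ext ?_ ?_
    · change Finsupp.mapRange.linearMap (α := ℕ) T.d
        (Finsupp.mapRange.linearMap (α := ℕ) T.d x + y -
          Finsupp.lmapDomain T.V R Nat.succ (Finsupp.mapRange.linearMap (α := ℕ) e y)) +
        (-(Finsupp.mapRange.linearMap (α := ℕ) T.d y)) -
        Finsupp.lmapDomain T.V R Nat.succ (Finsupp.mapRange.linearMap (α := ℕ) e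
          (-(Finsupp.mapRange.linearMap (α := ℕ) T.d y))) = 0
      rw [map_sub, map_add, h1, map_neg, map_neg]
      have h2 : Finsupp.mapRange.linearMap (α := ℕ) T.d (Finsupp.mapRange.linearMap (α := ℕ) T.d x) =
          0 := by
        ext k
        exact T.dd (x k)
      rw [h2]
      abel
    · change -(Finsupp.mapRange.linearMap (α := ℕ) T.d
        (-(Finsupp.mapRange.linearMap (α := ℕ) T.d y))) = 0
      rw [map_neg, neg_neg]
      ext k
      exact T.dd (y k)

/-! ## Clifford pairs -/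

/-- A Clifford pair: operators `X` of degree `-n` and `Ξ` of degree `n`, anticommuting with `d`, with
`X Ξ + Ξ X = 1` in homology. -/
structure Clf (T : GC R) (n : ℤ) where
  X : T.V →ₗ[R] T.V
  Ξ : T.V →ₗ[R] T.V
  XG : ∀ i, ∀ x ∈ T.G i, X x ∈ T.G (i - n)
  ΞG : ∀ i, ∀ x ∈ T.G i, Ξ x ∈ T.G (i + n)
  Xd : ∀ x, X (T.d x) = -T.d (X x)
  Ξd : ∀ x, Ξ (T.d x) = -T.d (Ξ x)
  rel : ∀ i x, T.Cyc i x → T.Bdy i (X (Ξ x) + Ξ (X x) - x)

/-- The element `∑_(j < N) C(2 N - 1, j) p^(2 N - 1 - j) q^j` of a ring. -/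
def eps {A : Type} [Ring A] (N : ℕ) (p q : A) : A :=
  ∑ j ∈ Finset.range N, ((2 * N - 1).choose j : A) * (p ^ (2 * N - 1 - j) * q ^ j)

/-- The operator `e'' = ε(XΞ, ΞX)` of degree `0`. -/
noncomputable def Clf.e {T : GC R} {n : ℤ} (c : Clf T n) (N : ℕ) : T.V →ₗ[R] T.V :=
  eps (A := Module.End R T.V) N (c.X * c.Ξ) (c.Ξ * c.X)

end

end HRx
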