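import Pool.Agent.Lib.MP_181146_gt.HR.NullQ

/-!
# Project HR, part (c4): the base.  The elements of the group act on the chains with values in `D` by
operators which are homotopic to the identity.
-/

set_option autoImplicit false
set_option linter.unusedVariables false

namespace HRx

open HEp HPx

section

variable {K : SS}

private lemma nb_gr_ind {M : Type} [AddCommGroup M] {f : Ch ℤ K →ₗ[ℤ] M} {S : Submodule ℤ M} {m : ℕ}
    (h : ∀ σ : K.K m, f (sx ℤ σ) ∈ S) {x : Ch ℤ K} (hx : x ∈ gr ℤ K m) : f x ∈ S := by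
  have hle : gr ℤ K m ≤ S.comap f := by
    rw [gr, Finsupp.supported_eq_span_single, Submodule.span_le]
    rintro _ ⟨⟨m', σ⟩, hσ, rfl⟩
    have hσ' : m' = m := hσ
    subst hσ'
    exact h σ
  exact hle hx

private lemma nb_gr_eq {M : Type} [AddCommGroup M] {f g : Ch ℤ K →ₗ[ℤ] M} {m : ℕ}
    (h : ∀ σ : K.K m, f (sx ℤ σ) = g (sx ℤ σ)) {x : Ch ℤ K} (hx : x ∈ gr ℤ K m) : f x = g x := by
  have := nb_gr_ind (f := f - g) (S := ⊥) (m := m) (fun σ => by
    rw [LinearMap.sub_apply, h σ, sub_self]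
    exact Submodule.zero_mem _) hx
  rw [LinearMap.sub_apply, Submodule.mem_bot] at this
  exact sub_eq_zero.1 this

private lemma nb_sg_apply (x : Ch ℤ K) : sgC K x = x - (2 : ℤ) • od ℤ K x := rfl

private lemma nb_sg_sx {n : ℕ} (x : K.K n) : sgC K (sx ℤ x) = ((-1 : ℤ) ^ n) • sx ℤ x := by
  rw [nb_sg_apply, od_sx]
  by_cases h : Odd n
  · rw [if_pos h, h.neg_one_pow, two_smul, neg_one_smul]
    abel
  · rw [if_neg h, (Nat.not_odd_iff_even.1 h).neg_one_pow, smul_zero, sub_zero, one_smul]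

private lemma nb_sg_gr {m : ℕ} {x : Ch ℤ K} (hx : x ∈ gr ℤ K m) :
    sgC K x = ((-1 : ℤ) ^ m) • x :=
  nb_gr_eq (f := sgC K) (g := ((-1 : ℤ) ^ m) • LinearMap.id) (fun σ => nb_sg_sx σ) hx

private lemma nb_as (a : Ch ℤ K →ₗ[ℤ] Ch ℤ K) 
    (hag : ∀ i, ∀ y ∈ gr ℤ K i, a y ∈ gr ℤ K (i + 1)) : a ∘ₗ sgC K = -(sgC K ∘ₗ a) := by
  apply ch_ext
  intro m x
  rw [LinearMap.neg_apply, LinearMap.comp_apply, LinearMap.comp_apply, nb_sg_sx, map_smul,
    nb_sg_gr (hag m _ (sx_mem_gr ℤ x)), pow_add, pow_one, mul_neg_one, neg_smul, neg_neg]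

end

section

variable {k : Type} [CommRing k] {K : SS}

private lemma nb_comp (D : DM k) (A B : Ch ℤ K →ₗ[ℤ] Ch ℤ K) (x : ChD K D) :
    opD D A (opD D B x) = opD D (A ∘ₗ B) x := by
  funext j
  change (opN (D.D j) A : ChN K (D.D j) →ₗ[k] ChN K (D.D j)) (opN (D.D j) B (x j)) =
    opN (D.D j) (A ∘ₗ B) (x j)
  rw [(sOpN K k (D.D j)).2.1 A B]
  rfl

private lemma nb_id (D : DM k) (x : ChD K D) : opD D LinearMap.id x = x := by
  funext j
  change (opN (D.D j) LinearMap.id : ChN K (D.D j) →ₗ[k] ChN K (D.D j)) (x j) = x j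
  rw [(sOpN K k (D.D j)).1]
  rfl

private lemma nb_add (D : DM k) (A B : Ch ℤ K →ₗ[ℤ] Ch ℤ K) (x : ChD K D) :
    opD D (A + B) x = opD D A x + opD D B x := by
  funext j
  change (opN (D.D j) (A + B) : ChN K (D.D j) →ₗ[k] ChN K (D.D j)) (x j) =
    opN (D.D j) A (x j) + opN (D.D j) B (x j)
  rw [(sOpN K k (D.D j)).2.2.1 A B]
  rfl

private lemma nb_smul (D : DM k) (r : ℤ) (A : Ch ℤ K →ₗ[ℤ] Ch ℤ K) (x : ChD K D) :
    opD D (r • A) x = r • opD D A x := by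
  funext j
  change (opN (D.D j) (r • A) : ChN K (D.D j) →ₗ[k] ChN K (D.D j)) (x j) =
    r • opN (D.D j) A (x j)
  rw [(sOpN K k (D.D j)).2.2.2.1 r A]
  rfl

private lemma nb_neg (D : DM k) (A : Ch ℤ K →ₗ[ℤ] Ch ℤ K) (x : ChD K D) :
    opD D (-A) x = -opD D A x := by
  rw [← neg_one_smul ℤ A, nb_smul, neg_one_smul]

private lemma nb_Y (D : DM k) (i : ℕ) (A : Ch ℤ K →ₗ[ℤ] Ch ℤ K) (x : ChD K D) :
    yD K D i (opD D A x) = opD D A (yD K D i x) := by
  funext j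
  exact (sOpN K k (D.D (j + 1))).2.2.2.2.2.2 k (D.D j) (D.Y i j).toAddMonoidHom A (x (j + 1))

private lemma nb_deg (D : DM k) (A : Ch ℤ K →ₗ[ℤ] Ch ℤ K)
    (h1 : ∀ m : ℕ, ∀ y ∈ gr ℤ K m, A y ∈ gr ℤ K (m + 1)) (i : ℤ) (x : ChD K D)
    (hx : x ∈ grD K D i) : opD D A x ∈ grD K D (i + 1) := by
  intro j y hy
  change (opN (D.D j) A : ChN K (D.D j) →ₗ[k] ChN K (D.D j)) (x j) y = 0
  by_cases hi : i - 2 * (j : ℤ) < 0
  · have h0 : x j = 0 := by
      ext z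
      exact hx j z (by have h3 : (0 : ℤ) ≤ (z.1 : ℤ) := Int.natCast_nonneg _; omega)
    rw [h0, map_zero]
    rfl
  · obtain ⟨m, hm⟩ := Int.eq_ofNat_of_zero_le (not_lt.1 hi)
    have hs : ∀ z : (Σ n, K.K n), z.1 ≠ m → x j z = 0 := fun z hz => hx j z (by omega)
    exact (sOpN K k (D.D j)).2.2.2.2.1 A m (m + 1) (h1 m) (x j) hs y (by omega)

/-- The base. -/
theorem nul_ms0 (H : Type) (α : H → SSHom K K) (D : DM k) (a : Ch ℤ K →ₗ[ℤ] Ch ℤ K) (g : H)
    (B : Ch ℤ K →ₗ[ℤ] Ch ℤ K) (hB : ∀ c, cmap ℤ (α g) c - c = bd ℤ K (B c) + B (bd ℤ K c))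
    (hBg : ∀ i, ∀ c ∈ gr ℤ K i, B c ∈ gr ℤ K (i + 1)) :
    (ms0 K α D a : MS k H (fs0 K α)).NuQ
      (opD D (cmap ℤ (α g)) - 1 : Module.End k (ChD K D)) (opD D B) where
  e := fun (x : ChD K D) _ => by
    change opD D (bd ℤ K) (opD D B x) + opD D B (opD D (bd ℤ K) x) =
      (opD D (cmap ℤ (α g)) x - x : ChD K D)
    have e1 : cmap ℤ (α g) = bd ℤ K ∘ₗ B + B ∘ₗ bd ℤ K + LinearMap.id := by
      apply LinearMap.ext
      intro c
      rw [LinearMap.add_apply, LinearMap.add_apply, LinearMap.comp_apply, LinearMap.comp_apply,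
        ← hB c, LinearMap.id_apply, sub_add_cancel]
    rw [e1, nb_add, nb_add, nb_comp, nb_comp, nb_id, add_sub_cancel_right]
  s := fun (x : ChD K D) => by
    change opD D (sgC K) (opD D B x) = -opD D B (opD D (sgC K) x)
    rw [nb_comp, nb_comp, nb_as B hBg, nb_neg, neg_neg]
  Y := fun i (x : ChD K D) => (nb_Y D i B x).symm
  Q := fun (x : ChD K D) _ => trivial
  G := fun i (x : ChD K D) hx => nb_deg D B hBg i x hx

end

/-- The elements of the group are homotopic to the identity. -/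
theorem htp_act {G : Type} [CommGroup G] {E : Type} [TopologicalSpace E] [PathConnectedSpace E]
    (D : HTx.Mlt G E) (g : G) : ∃ B : Ch ℤ (Sing E) →ₗ[ℤ] Ch ℤ (Sing E),
      (∀ c, cmap ℤ (SingMap (D.act g)) c - c = bd ℤ (Sing E) (B c) + B (bd ℤ (Sing E) c)) ∧
      ∀ i, ∀ c ∈ gr ℤ (Sing E) i, B c ∈ gr ℤ (Sing E) (i + 1) := by
  obtain ⟨γ⟩ := PathConnectedSpace.joined D.v (D.act g D.v)
  let mv : C(E, E) := D.m.comp ((ContinuousMap.const E D.v).prodMk (ContinuousMap.id E))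
  let gv : C(E, E) := (D.act g).comp mv
  obtain ⟨B1, h1, g1, -⟩ := sSHE ℤ E E D.B (ContinuousMap.id E) mv (fun x => D.B0 x)
    (fun x => D.B1 x)
  let F2 : C(unitInterval × E, E) :=
    D.m.comp ((γ.toContinuousMap.comp ContinuousMap.fst).prodMk ContinuousMap.snd)
  obtain ⟨B2, h2, g2, -⟩ := sSHE ℤ E E F2 mv gv (fun x => by
      change D.m (γ 0, x) = D.m (D.v, x)
      rw [γ.source]) (fun x => by
      change D.m (γ 1, x) = D.act g (D.m (D.v, x))
      rw [γ.target, D.m1])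
  have hgr : ∀ i, ∀ c ∈ gr ℤ (Sing E) i, cmap ℤ (SingMap (D.act g)) c ∈ gr ℤ (Sing E) i := by
    intro i c hc
    refine nb_gr_ind (f := cmap ℤ (SingMap (D.act g))) (fun σ => ?_) hc
    rw [cmap_sx]
    exact sx_mem_gr ℤ _
  refine ⟨B1 + B2 - cmap ℤ (SingMap (D.act g)) ∘ₗ B1, fun c => ?_, fun i c hc => ?_⟩
  · have e1 := h1 c
    have e2 := h2 c
    have e3 : cmap ℤ (SingMap gv) c = cmap ℤ (SingMap (D.act g)) (cmap ℤ (SingMap mv) c) :=
      cmap_comp ℤ (SingMap (D.act g)) (SingMap mv) c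
    have e4 : cmap ℤ (SingMap (ContinuousMap.id E)) c = c := cmap_id ℤ c
    have e5 := congrArg (cmap ℤ (SingMap (D.act g))) e1
    rw [e4, map_sub, map_add, cmap_bd] at e5
    rw [e4] at e1
    rw [e3] at e2
    simp only [LinearMap.sub_apply, LinearMap.add_apply, LinearMap.comp_apply, map_add, map_sub]
    have e6 : cmap ℤ (SingMap (D.act g)) c - c =
        (cmap ℤ (SingMap mv) c - c) + (cmap ℤ (SingMap (D.act g)) (cmap ℤ (SingMap mv) c) -
          cmap ℤ (SingMap mv) c) - (cmap ℤ (SingMap (D.act g)) (cmap ℤ (SingMap mv) c) -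
          cmap ℤ (SingMap (D.act g)) c) := by abel
    rw [e6, e1, e2, e5]
    abel
  · exact Submodule.sub_mem _ (Submodule.add_mem _ (g1 i c hc) (g2 i c hc))
      (hgr (i + 1) _ (g1 i c hc))

end HRx
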