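import Pool.Agent.Lib.MP_181146_gt.HR.SpecC
import Pool.Agent.Lib.MP_181146_gt.HB.Lift

/-!
# Project HR, PrG: the projection to the chains is linear over the group ring
-/

set_option autoImplicit false
set_option linter.unusedVariables false

namespace HRx

open HEp HPx HBy HAx

/-- The sum over a period of a periodic function. -/
private lemma per_sum {V : Type} [AddCommGroup V] (q : ℕ) (F : ℤ → V) (hF : ∀ c, F (c - q) = F c)
    (r : ℤ) : ∑ c ∈ Finset.range q, F ((c : ℤ) - r) = ∑ c ∈ Finset.range q, F (c : ℤ) := by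
  have h1 : ∀ r : ℤ, ∑ c ∈ Finset.range q, F ((c : ℤ) - (r + 1)) =
      ∑ c ∈ Finset.range q, F ((c : ℤ) - r) := by
    intro r
    have h2 := Finset.sum_range_succ (fun c : ℕ => F ((c : ℤ) - (r + 1))) q
    have h3 := Finset.sum_range_succ' (fun c : ℕ => F ((c : ℤ) - (r + 1))) q
    have h4 : F ((q : ℤ) - (r + 1)) = F (((0 : ℕ) : ℤ) - (r + 1)) := by
      rw [← hF ((q : ℤ) - (r + 1))]
      congr 1
      push_cast
      ring
    have h5 : ∑ c ∈ Finset.range q, F (((c + 1 : ℕ) : ℤ) - (r + 1)) =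
        ∑ c ∈ Finset.range q, F ((c : ℤ) - r) := by
      refine Finset.sum_congr rfl fun c _ => ?_
      congr 1
      push_cast
      ring
    rw [h2, h4, h5] at h3
    exact add_right_cancel h3
  induction r using Int.induction_on with
  | zero => simp only [sub_zero]
  | succ r ih => rw [h1, ih]
  | pred r ih =>
    rw [← h1 (-(r : ℤ) - 1), sub_add_cancel]
    exact ih

section

variable {G : Type} [CommGroup G] (g : GD G) {k : Type} [CommRing k] (D : DM k)

private lemma itN_A (n : ℕ) (h : Gam g.q g.ψ) (x : (g.Mn (fun _ => (1 : k)) D n).V)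
    (hx : x ∈ (g.Mn (fun _ => (1 : k)) D n).Q) :
    itN (g.M0 D) g.q g.b (rv g.m) (fun _ => (1 : k)) (rho g.q g.ψ) n
      ((g.Mn (fun _ => (1 : k)) D n).A h x) =
    opD D (cmap ℤ (g.alH h))
      (itN (g.M0 D) g.q g.b (rv g.m) (fun _ => (1 : k)) (rho g.q g.ψ) n x) := by
  induction n with
  | zero => rfl
  | succ n ih =>
    have hx' : ∀ c : ℤ, x.1 c ∈ (g.Mn (fun _ => (1 : k)) D n).Q ∧ x.1 (c - g.q) = x.1 c := by
      intro c
      obtain ⟨h1, -, h2, -⟩ := hx c
      exact ⟨h1, h2.trans (one_smul k _)⟩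
    change itN (g.M0 D) g.q g.b (rv g.m) (fun _ => (1 : k)) (rho g.q g.ψ) n
      (∑ c ∈ Finset.range g.q, (g.Mn (fun _ => (1 : k)) D n).A h
        (x.1 ((c : ℤ) - rho g.q g.ψ (rv g.m n) h))) =
      opD D (cmap ℤ (g.alH h)) (itN (g.M0 D) g.q g.b (rv g.m) (fun _ => (1 : k)) (rho g.q g.ψ) n
        (∑ c ∈ Finset.range g.q, x.1 (c : ℤ)))
    rw [per_sum g.q (fun c => (g.Mn (fun _ => (1 : k)) D n).A h (x.1 c))
      (fun c => congrArg _ (hx' c).2), ← map_sum]
    exact ih _ (Submodule.sum_mem _ fun c _ => (hx' c).1)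

end

theorem sPrG (hPrj : S_Prj) (hCFo : S_CFo) : S_PrG := by
  intro G _ g k _ D hD C e he h
  obtain ⟨hQ, hS⟩ := hPrj G g k D hD C e he h.dif
  have hA : ∀ (γ : Gam g.q g.ψ) (x : (g.N D).V), x ∈ (g.N D).Q →
      g.pr (fun _ => (1 : k)) D e ((g.N D).A γ x) =
        (cmap k (g.alH γ) : Ch k g.K →ₗ[k] Ch k g.K) (g.pr (fun _ => (1 : k)) D e x) := by
    intro γ x hx
    have h1 := itN_A g D g.m γ x hx
    have h2 := (pOpN g.K k (D.D 0)).2.2.2.2.2.2 k k e.toAddMonoidHom (cmap ℤ (g.alH γ))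
      (itN (g.M0 D) g.q g.b (rv g.m) (fun _ => (1 : k)) (rho g.q g.ψ) g.m x 0)
    have h3 := (hCFo g.K k).2 (g.alH γ) (g.pr (fun _ => (1 : k)) D e x)
    refine Eq.trans ?_ h3
    refine Eq.trans ?_ h2
    exact congrArg (fun y : ChD g.K D => Finsupp.mapRange e e.map_zero (y 0)) h1
  let p : (g.Qc D h).V →+ (g.chK k).V :=
    (g.pr (fun _ => (1 : k)) D e ∘ₗ (g.N D).Q.subtype).toAddMonoidHom
  have hp : ∀ (b : MonoidAlgebra k G) (x : (g.Qc D h).V), p (b • x) = b • p x := by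
    intro b x
    induction b using MonoidAlgebra.induction_linear with
    | zero => rw [zero_smul, zero_smul, map_zero]
    | add a b ha hb => rw [add_smul, add_smul, map_add, ha, hb]
    | single γ r =>
      refine (congrArg p (GAct.th_single ((g.N D).ga h.dif h.gp) γ r x)).trans ?_
      refine Eq.trans ?_ (HAx.gcI_single (HAx.CF g.K k) (HAx.cfA k g.al g.al1 g.alm) γ r (p x)).symm
      refine (map_smul (g.pr (fun _ => (1 : k)) D e) r _).trans ?_
      exact congrArg (r • ·) (hA (lf g.q g.ψ γ) x.1 x.2)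
  let w : (g.Qc D h).V →ₗ[MonoidAlgebra k G] (g.chK k).V :=
    { toFun := p
      map_add' := p.map_add
      map_smul' := hp }
  have hw : LQI (g.Qc D h) (g.chK k) w :=
    ⟨⟨fun i x hx => hQ.1.1 i x hx, fun x => hQ.1.2 x⟩, fun i x hx hb => hQ.2.1 i x hx hb,
      fun i y hy => hQ.2.2 i y hy⟩
  refine ⟨⟨w, hw, ?_, fun x => rfl⟩, ?_⟩
  · intro i y hy
    obtain ⟨x, hx1, hx2, hx3⟩ := hS i y hy
    exact ⟨⟨x, hx1⟩, hx2, hx3⟩
  · intro c
    exact sECq _ _ _ w hw c

end HRx
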