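import Pool.Agent.Lib.MP_181146_gt.HR.CFo
import Pool.Agent.Lib.MP_181146_gt.HR.ExJ
import Pool.Agent.Lib.MP_181146_gt.HR.PfK
import Pool.Agent.Lib.MP_181146_gt.HR.PrG
import Pool.Agent.Lib.MP_181146_gt.HR.Prj
import Pool.Agent.Lib.MP_181146_gt.HR.SMQ
import Pool.Agent.Lib.MP_181146_gt.HR.PfS
import Pool.Agent.Lib.MP_181146_gt.HR.IoQ
import Pool.Agent.Lib.MP_181146_gt.HR.V0d
import Pool.Agent.Lib.MP_181146_gt.HR.OutI

/-!
# Project HR: the theorems of SpecC, without hypotheses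
-/

set_option autoImplicit false

namespace HRx

theorem pCFo : S_CFo := sCFo
theorem pExJ : S_ExJ := sExJ
theorem pPfK : S_PfK := sPfK pExJ
theorem pPrj : S_Prj := sPrj
theorem pSMQ : S_SMQ := sSMQ
theorem pPrG : S_PrG := sPrG pPrj pCFo
theorem pPfS : S_PfS := sPfS pSMQ
theorem pIoQ : S_IoQ := sIoQ pCFo
theorem pV0d : S_V0d := sV0d pCFo
theorem pOutI : S_OutI := sOutI pIoQ pV0d pPrj pSMQ

end HRx
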