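import Pool.Agent.Lib.MP_181146_gt.HR.SpecB

/-!
# Project HR, module `CLM`: the Clifford pair on `Q`
-/

set_option autoImplicit false

namespace HRx

open HEp HPx

/-! ## The chains -/

section

variable {K : SS}

private lemma clm_gr_ind {M : Type} [AddCommGroup M] {f : Ch ℤ K →ₗ[ℤ] M} {S : Submodule ℤ M}
    {m : ℕ} (h : ∀ σ : K.K m, f (sx ℤ σ) ∈ S) {x : Ch ℤ K} (hx : x ∈ gr ℤ K m) : f x ∈ S := by
  have hle : gr ℤ K m ≤ S.comap f := by
    rw [gr, Finsupp.supported_eq_span_single, Submodule.span_le]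
    rintro _ ⟨⟨m', σ⟩, hσ, rfl⟩
    have hσ' : m' = m := hσ
    subst hσ'
    exact h σ
  exact hle hx

private lemma clm_gr_eq {M : Type} [AddCommGroup M] {f g : Ch ℤ K →ₗ[ℤ] M} {m : ℕ}
    (h : ∀ σ : K.K m, f (sx ℤ σ) = g (sx ℤ σ)) {x : Ch ℤ K} (hx : x ∈ gr ℤ K m) : f x = g x := by
  have := clm_gr_ind (f := f - g) (S := ⊥) (m := m) (fun σ => by
    rw [LinearMap.sub_apply, h σ, sub_self]
    exact Submodule.zero_mem _) hx
  rw [LinearMap.sub_apply, Submodule.mem_bot] at this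
  exact sub_eq_zero.1 this

private lemma clm_sg_apply (x : Ch ℤ K) : sgC K x = x - (2 : ℤ) • od ℤ K x := rfl

private lemma clm_sg_sx {n : ℕ} (x : K.K n) : sgC K (sx ℤ x) = ((-1 : ℤ) ^ n) • sx ℤ x := by
  rw [clm_sg_apply, od_sx]
  by_cases h : Odd n
  · rw [if_pos h, h.neg_one_pow, two_smul, neg_one_smul]
    abel
  · rw [if_neg h, (Nat.not_odd_iff_even.1 h).neg_one_pow, smul_zero, sub_zero, one_smul]

private lemma clm_sg_gr {m : ℕ} {x : Ch ℤ K} (hx : x ∈ gr ℤ K m) :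
    sgC K x = ((-1 : ℤ) ^ m) • x :=
  clm_gr_eq (f := sgC K) (g := ((-1 : ℤ) ^ m) • LinearMap.id) (fun σ => clm_sg_sx σ) hx

private lemma clm_sg_sg (x : Ch ℤ K) : sgC K (sgC K x) = x := by
  rw [clm_sg_apply, clm_sg_apply, map_sub, map_smul, od_od]
  module

private lemma clm_as (a : Ch ℤ K →ₗ[ℤ] Ch ℤ K)
    (hag : ∀ i, ∀ y ∈ gr ℤ K i, a y ∈ gr ℤ K (i + 1)) : a ∘ₗ sgC K = -(sgC K ∘ₗ a) := by
  apply ch_ext
  intro m x
  rw [LinearMap.neg_apply, LinearMap.comp_apply, LinearMap.comp_apply, clm_sg_sx, map_smul,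
    clm_sg_gr (hag m _ (sx_mem_gr ℤ x)), pow_succ, mul_neg_one, neg_smul, neg_neg]

private lemma clm_psi {n : ℕ} (hn : Odd n) {ψ : Ch ℤ K →ₗ[ℤ] ℤ} (hψ : Sup n ψ) :
    ψ ∘ₗ od ℤ K = ψ := by
  apply ch_ext
  intro m x
  rw [LinearMap.comp_apply, od_sx]
  by_cases h : m = n
  · rw [if_pos (h ▸ hn)]
  · rw [hψ m h _ (sx_mem_gr ℤ x)]
    split_ifs
    · exact hψ m h _ (sx_mem_gr ℤ x)
    · exact map_zero ψ

private lemma clm_psi_sg {n : ℕ} (hn : Odd n) {ψ : Ch ℤ K →ₗ[ℤ] ℤ} (hψ : Sup n ψ) :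
    ψ ∘ₗ sgC K = -ψ := by
  apply LinearMap.ext
  intro x
  have h := LinearMap.congr_fun (clm_psi hn hψ) x
  rw [LinearMap.comp_apply] at h
  rw [LinearMap.comp_apply, clm_sg_apply, map_sub, map_smul, h, LinearMap.neg_apply]
  rw [two_smul]
  ring

private lemma clm_lx0 (z : TensorProduct ℤ (Ch ℤ K) (Ch ℤ K)) :
    lx (0 : Ch ℤ K →ₗ[ℤ] ℤ) z = 0 := by
  have h := lx_add (0 : Ch ℤ K →ₗ[ℤ] ℤ) 0 z
  rw [add_zero] at h
  exact left_eq_add.1 h

private lemma clm_sgX {n : ℕ} (hn : Odd n) {ψ : Ch ℤ K →ₗ[ℤ] ℤ} (hψ : Sup n ψ) :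
    sgC K ∘ₗ Xc ψ = cap ψ := by
  apply LinearMap.ext
  intro y
  have h1 : ψ ∘ₗ (LinearMap.id - od ℤ K) = 0 := by
    rw [LinearMap.comp_sub, clm_psi hn hψ, LinearMap.comp_id, sub_self]
  have h2 : cap (ψ ∘ₗ (LinearMap.id - od ℤ K)) y = 0 := by
    rw [h1]
    exact clm_lx0 _
  rw [LinearMap.comp_apply]
  change sgC K (cap (ψ ∘ₗ (LinearMap.id - od ℤ K)) y + sgC K (cap (ψ ∘ₗ od ℤ K) y)) = cap ψ y
  rw [h2, zero_add, clm_sg_sg, clm_psi hn hψ]

private lemma clm_aug : aug ℤ K ∘ₗ sgC K = aug ℤ K := by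
  apply ch_ext
  intro m x
  rw [LinearMap.comp_apply, clm_sg_sx, map_smul]
  cases m with
  | zero => rw [pow_zero, one_smul]
  | succ m => rw [aug_sx_succ, smul_zero]

end

/-! ## The chains with coefficients -/

section

variable {k : Type} [CommRing k] {K : SS}

private lemma clm_comp (hO : S_OpN) (D : DM k) (A B : Ch ℤ K →ₗ[ℤ] Ch ℤ K) (x : ChD K D) :
    opD D A (opD D B x) = opD D (A ∘ₗ B) x := by
  funext j
  change (opN (D.D j) A : ChN K (D.D j) →ₗ[k] ChN K (D.D j)) (opN (D.D j) B (x j)) =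
    opN (D.D j) (A ∘ₗ B) (x j)
  rw [(hO K k (D.D j)).2.1 A B]
  rfl

private lemma clm_id (hO : S_OpN) (D : DM k) (x : ChD K D) : opD D LinearMap.id x = x := by
  funext j
  change (opN (D.D j) LinearMap.id : ChN K (D.D j) →ₗ[k] ChN K (D.D j)) (x j) = x j
  rw [(hO K k (D.D j)).1]
  rfl

private lemma clm_add (hO : S_OpN) (D : DM k) (A B : Ch ℤ K →ₗ[ℤ] Ch ℤ K) (x : ChD K D) :
    opD D (A + B) x = opD D A x + opD D B x := by
  funext j
  change (opN (D.D j) (A + B) : ChN K (D.D j) →ₗ[k] ChN K (D.D j)) (x j) =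
    opN (D.D j) A (x j) + opN (D.D j) B (x j)
  rw [(hO K k (D.D j)).2.2.1 A B]
  rfl

private lemma clm_neg (hO : S_OpN) (D : DM k) (A : Ch ℤ K →ₗ[ℤ] Ch ℤ K) (x : ChD K D) :
    opD D (-A) x = -opD D A x := by
  rw [← neg_one_smul ℤ A]
  funext j
  change (opN (D.D j) ((-1 : ℤ) • A) : ChN K (D.D j) →ₗ[k] ChN K (D.D j)) (x j) =
    -(opN (D.D j) A (x j))
  rw [(hO K k (D.D j)).2.2.2.1 (-1) A, LinearMap.smul_apply, neg_one_smul]

private lemma clm_Y (hO : S_OpN) (D : DM k) (i : ℕ) (A : Ch ℤ K →ₗ[ℤ] Ch ℤ K) (x : ChD K D) :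
    yD K D i (opD D A x) = opD D A (yD K D i x) := by
  funext j
  exact (hO K k (D.D (j + 1))).2.2.2.2.2.2 k (D.D j) (D.Y i j).toAddMonoidHom A (x (j + 1))

private lemma clm_deg (hO : S_OpN) (D : DM k) (A : Ch ℤ K →ₗ[ℤ] Ch ℤ K)
    (h1 : ∀ m : ℕ, ∀ y ∈ gr ℤ K m, A y ∈ gr ℤ K (m + 1)) (i : ℤ) (x : ChD K D)
    (hx : x ∈ grD K D i) : opD D A x ∈ grD K D (i + 1) := by
  intro j y hy
  change (opN (D.D j) A : ChN K (D.D j) →ₗ[k] ChN K (D.D j)) (x j) y = 0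
  by_cases hi : i - 2 * (j : ℤ) < 0
  · have h0 : x j = 0 := by
      ext z
      exact hx j z (by have h3 : (0 : ℤ) ≤ (z.1 : ℤ) := Int.natCast_nonneg _; omega)
    rw [h0, map_zero]
    rfl
  · obtain ⟨m, hm⟩ := Int.eq_ofNat_of_zero_le (not_lt.1 hi)
    have hs : ∀ z : (Σ n, K.K n), z.1 ≠ m → x j z = 0 := fun z hz => hx j z (by omega)
    exact (hO K k (D.D j)).2.2.2.2.1 A m (m + 1) (h1 m) (x j) hs y (by
      intro h
      apply hy
      rw [h]
      push_cast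
      omega)

end

/-! ## The operators `κ(Y)` -/

private lemma clm_Ko {k : Type} [CommRing k] {V W : Type} [AddCommGroup V] [Module k V]
    [AddCommGroup W] [Module k W] (Y : ℕ → Module.End k V) (Y' : ℕ → Module.End k W)
    (f : V →ₗ[k] W) (hf : ∀ i v, f (Y i v) = Y' i (f v)) (b : ℕ) (ix : ℕ → ℕ) (n : ℕ) :
    ∀ (κ : (ℕ → ℕ) → ℤ) (v : V), f (Ko Y b ix n κ v) = Ko Y' b ix n κ (f v) := by
  induction n with
  | zero =>
    intro κ v
    change f (κ 0 • v) = κ 0 • f v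
    exact map_zsmul f _ _
  | succ n ih =>
    intro κ v
    have hp : ∀ (i j : ℕ) (v : V), f ((Y i ^ j) v) = (Y' i ^ j) (f v) := by
      intro i j
      induction j with
      | zero => intro v; rfl
      | succ j ihj =>
        intro v
        rw [pow_succ, pow_succ, Module.End.mul_apply, Module.End.mul_apply, ihj, hf]
    change f ((∑ j ∈ Finset.range (b + 1),
      Ko Y b ix n (fun a => κ (Function.update a (ix n) j)) * Y (ix n) ^ j) v) =
      (∑ j ∈ Finset.range (b + 1),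
        Ko Y' b ix n (fun a => κ (Function.update a (ix n) j)) * Y' (ix n) ^ j) (f v)
    rw [LinearMap.sum_apply, LinearMap.sum_apply, map_sum]
    refine Finset.sum_congr rfl fun j _ => ?_
    rw [Module.End.mul_apply, Module.End.mul_apply, ih, hp]

private lemma clm_Ko0 {k : Type} [CommRing k] {H : Type} {F : FS H} (M : MS k H F) (q b : ℕ)
    (ix : ℕ → ℕ) (z : ℕ → k) (ρ : ℕ → H → ℤ) (m : ℕ) (κ : (ℕ → ℕ) → ℤ)
    (h0 : ∀ x, Ko M.Y b ix m κ x = 0) (n : ℕ) :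
    ∀ x, Ko (mit M q b ix z ρ n).Y b ix m κ x = 0 := by
  induction n with
  | zero => exact h0
  | succ n ih =>
    intro x
    refine Prod.ext ?_ ?_
    · funext c
      let f : Cir (mit M q b ix z ρ n).V →ₗ[k] (mit M q b ix z ρ n).V :=
        { toFun := fun y => y.1 c
          map_add' := fun _ _ => rfl
          map_smul' := fun _ _ => rfl }
      have h := clm_Ko (mit M q b ix z ρ (n + 1)).Y (mit M q b ix z ρ n).Y f (fun _ _ => rfl) b ix m
        κ x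
      rw [ih] at h
      exact h
    · funext c
      let f : Cir (mit M q b ix z ρ n).V →ₗ[k] (mit M q b ix z ρ n).V :=
        { toFun := fun y => y.2 c
          map_add' := fun _ _ => rfl
          map_smul' := fun _ _ => rfl }
      have h := clm_Ko (mit M q b ix z ρ (n + 1)).Y (mit M q b ix z ρ n).Y f (fun _ _ => rfl) b ix m
        κ x
      rw [ih] at h
      exact h

private lemma clm_KoD {k : Type} [CommRing k] (K : SS) (D : DM k) (b : ℕ) (ix : ℕ → ℕ) (m : ℕ)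
    (κ : (ℕ → ℕ) → ℤ) (h0 : Ko D.tY b ix m κ = 0) (h : ChD K D) :
    Ko (yD K D) b ix m κ h = 0 := by
  funext j
  ext x
  let f : ChD K D →ₗ[k] D.Sq :=
    { toFun := fun h j => h j x
      map_add' := fun _ _ => rfl
      map_smul' := fun _ _ => rfl }
  have h1 := clm_Ko (yD K D) D.tY f (fun _ _ => rfl) b ix m κ h
  rw [h0, LinearMap.zero_apply] at h1
  exact congrFun h1 j

theorem sCLM (hOKM : S_OKM) (hDec : S_Dec) (hScZ : S_ScZ) (hRelI : S_RelI) (hMitK : S_MitK)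
    (hOpN : S_OpN) (hXc1 : S_Xc1) (hFS0 : S_FS0) (hMS0 : S_MS0) : S_CLM := by
  intro G _ g k _ z D hD hκ
  obtain ⟨hF, hM, hGood⟩ := hOKM G g k z D hD.comm g.m
  have hH1 : g.alH 1 = SSHom.id g.K := g.al1
  have hHm : ∀ h h', g.alH (h * h') = (g.alH h).comp (g.alH h') := fun h h' => g.alm h.1.1 h'.1.1
  have hF0 : g.F0.OK := hFS0 (Gam g.q g.ψ) g.K g.alH hH1 hHm
  obtain ⟨hM0, -, -, hZ0⟩ := hMS0 k (Gam g.q g.ψ) g.K g.alH hH1 hHm D hD.comm g.a g.n g.n1 g.ad g.ag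
    (fun h y => g.aα h.1.1 y)
  have hε : g.F0.tw (aug ℤ g.K) = aug ℤ g.K := clm_aug
  have hvD : g.V ∈ g.F.Dg g.n := g.vD
  have hvP : g.V ∈ g.F.Pr := g.vP
  have hvb : g.F.bd g.V = Kf (F := g.F0) (aug ℤ g.K) g.q (rv g.m) (rho g.q g.ψ) g.m g.κ := g.vb
  have hnb : (g.n : ℤ) < 2 * g.b := by
    have := g.nb
    exact_mod_cast this
  have hKz : ∀ x, (g.M z D).Z (g.F.bd g.V) x = 0 := by
    intro x
    rw [hvb]
    have h := (hMitK k (Gam g.q g.ψ) g.F0 hF0 (g.M0 D) g.n hM0 g.q g.b (rv g.m) z (rho g.q g.ψ)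
      (rho_one g.q g.ψ) (rho_mul g.q g.ψ) (aug ℤ g.K) hε hZ0 g.m g.κ).1 x
    rw [h]
    exact clm_Ko0 (g.M0 D) g.q g.b (rv g.m) z (rho g.q g.ψ) g.m g.κ
      (clm_KoD g.K D g.b (rv g.m) g.m g.κ hκ) g.m x
  have hGv : (g.M z D).Good g.V := hGood g.V hvP g.n hnb hvD
  refine
    { Xg := fun i x hx => hM.Gs _ _ (hM.GZ g.n g.V hvD i x hx)
      Wg := fun i x hx => hM.GΞ i x hx
      Xq := fun x hx => hM.Qs _ (hM.QZ g.V hvP x hx)
      Wq := fun x hx => hM.QΞ x hx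
      Xd := fun x _ => ?_
      Wd := fun x _ => hM.Ξd x
      rel := fun i x hx hxQ hdx => ?_ }
  · rw [hGv x, hKz, map_zero, add_zero, hM.sd]
  · obtain ⟨ψ, μ, σ, hV, hψS, hψb, hψc, hμP, hμD, hσ⟩ := hDec G g
    -- the base
    obtain ⟨c, hc1, hc2⟩ := g.rel ψ hψS hψb hψc
    have hN : ∃ E, (g.M0 D).Nul ((g.M0 D).sg * (g.M0 D).Z ψ * (g.M0 D).Ξ +
        (g.M0 D).Ξ * (g.M0 D).sg * (g.M0 D).Z ψ - 1) E := by
      refine ⟨opD D c,
        { EQ := fun _ _ => trivial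
          EG := fun i x hx => clm_deg hOpN D c hc1 i x hx
          Es := fun (x : ChD g.K D) => ?_
          EY := fun i (x : ChD g.K D) => (clm_Y hOpN D i c x).symm
          eq := fun (x : ChD g.K D) _ => ?_ }⟩
      · change opD D c (opD D (sgC g.K) x) = -opD D (sgC g.K) (opD D c x)
        rw [clm_comp hOpN, clm_comp hOpN, ← clm_neg hOpN, clm_as c hc1]
      · change opD D (bd ℤ g.K) (opD D c x) + opD D c (opD D (bd ℤ g.K) x) =
          opD D (sgC g.K) (opD D (Xc ψ) (opD D g.a x)) +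
            opD D g.a (opD D (sgC g.K) (opD D (Xc ψ) x)) - x
        rw [clm_comp hOpN D (sgC g.K) (Xc ψ), clm_comp hOpN D (sgC g.K) (Xc ψ),
          clm_sgX g.n1 hψS, clm_comp hOpN, clm_comp hOpN, clm_comp hOpN, clm_comp hOpN,
          ← clm_add hOpN, ← clm_add hOpN, eq_sub_iff_add_eq]
        have e : cap ψ ∘ₗ g.a + g.a ∘ₗ cap ψ =
            (bd ℤ g.K ∘ₗ c + c ∘ₗ bd ℤ g.K) + LinearMap.id := by
          apply LinearMap.ext
          intro y
          have h := hc2 y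
          rw [LinearMap.add_apply, LinearMap.add_apply, LinearMap.add_apply,
            LinearMap.comp_apply, LinearMap.comp_apply, LinearMap.comp_apply,
            LinearMap.comp_apply, LinearMap.id_apply, add_comm (cap ψ (g.a y)), h, add_comm y]
        rw [e, clm_add hOpN D _ LinearMap.id, clm_id hOpN]
    obtain ⟨E, hE⟩ := hRelI k (Gam g.q g.ψ) g.F0 hF0 (g.M0 D) g.n hM0 g.q g.b (rv g.m) z
      (rho g.q g.ψ) (rho_one g.q g.ψ) (rho_mul g.q g.ψ) ψ (clm_psi_sg g.n1 hψS) hN g.m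
    have hS := (hScZ k (Gam g.q g.ψ) g.F0 hF0 (g.M0 D) g.n hM0 g.q g.b (rv g.m) z (rho g.q g.ψ)
      (aug ℤ g.K) hε hZ0 g.m σ hσ).2
    have hGm : (g.M z D).Good μ := hGood μ hμP ((g.n : ℤ) - 1) (by linarith) hμD
    have hZV : ∀ x, (g.M z D).Z g.V x =
        (g.M z D).Z (cst (F := g.F0) g.q (rv g.m) (rho g.q g.ψ) g.m ψ) x + (g.M z D).Z σ x +
          (g.M z D).Z (g.F.bd μ) x := by
      intro x
      rw [hV, map_add, map_add]
      rfl
    have hEx := hE.eq x hxQ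
    have hdx' : (mit (g.M0 D) g.q g.b (rv g.m) z (rho g.q g.ψ) g.m).δ x = 0 := hdx
    rw [hdx', map_zero, add_zero] at hEx
    have hbm : ∀ y, (g.M z D).sg ((g.M z D).Z (g.F.bd μ) y) =
        (g.M z D).Z μ ((g.M z D).δ y) - (g.M z D).δ ((g.M z D).Z μ y) := by
      intro y
      rw [hGm y]
      exact (add_sub_cancel_left _ _).symm
    refine ⟨E x + ((g.M z D).Ξ ((g.M z D).Z μ x) - (g.M z D).Z μ ((g.M z D).Ξ x)), ?_, ?_, ?_⟩
    · refine Submodule.add_mem _ (hE.EG i x hx) (Submodule.sub_mem _ ?_ ?_)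
      · have h := hM.GΞ _ _ (hM.GZ ((g.n : ℤ) - 1) μ hμD i x hx)
        have e : i - ((g.n : ℤ) - 1) + g.n = i + 1 := by ring
        rw [e] at h
        exact h
      · have h := hM.GZ ((g.n : ℤ) - 1) μ hμD _ _ (hM.GΞ i x hx)
        have e : i + (g.n : ℤ) - ((g.n : ℤ) - 1) = i + 1 := by ring
        rw [e] at h
        exact h
    · exact Submodule.add_mem _ (hE.EQ x hxQ) (Submodule.sub_mem _
        (hM.QΞ _ (hM.QZ μ hμP x hxQ)) (hM.QZ μ hμP _ (hM.QΞ x hxQ)))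
    · have h1 : (g.M z D).δ ((g.M z D).Ξ x) = 0 := by
        have h := hM.Ξd x
        rw [hdx', map_zero] at h
        exact neg_eq_zero.1 h.symm
      have h2 : (g.M z D).sg ((g.M z D).Ξ ((g.M z D).Z σ x)) =
          -(g.M z D).Ξ ((g.M z D).sg ((g.M z D).Z σ x)) := by
        rw [hM.Ξs, neg_neg]
      have h3 : (g.M z D).δ ((g.M z D).Ξ ((g.M z D).Z μ x)) =
          -(g.M z D).Ξ ((g.M z D).δ ((g.M z D).Z μ x)) := by
        rw [hM.Ξd, neg_neg]
      have h4 : (g.M z D).δ (E x) =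
          (g.M z D).sg ((g.M z D).Z (cst (F := g.F0) g.q (rv g.m) (rho g.q g.ψ) g.m ψ)
            ((g.M z D).Ξ x)) +
          (g.M z D).Ξ ((g.M z D).sg ((g.M z D).Z (cst (F := g.F0) g.q (rv g.m) (rho g.q g.ψ) g.m ψ)
            x)) - x := hEx
      rw [map_add, map_sub, h4, h3, hZV, hZV, map_add, map_add, map_add, map_add, map_add, map_add,
        hbm, hbm, h1, hdx, map_zero, map_sub, map_zero, hS, h2]
      abel

end HRx
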