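import Pool.Agent.Lib.MP_181146_gt.HR.SpecA

/-!
# Project HR, module `Cl5A` (Clifford relation, part 1): partial contractions of functionals

`Pc F C S Π N`: `S` is a contraction of the functionals up to `Π`, and `Π φ ∈ C` for functionals of
degree `< N`.  `fitM S n` is the componentwise extension to the iterated functionals, `Cst C n` the
functionals with all components in `C`.
-/

set_option autoImplicit false

namespace HRx

open HEp HPx

section

variable {Φ : Type} [AddCommGroup Φ]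

/-- Componentwise map of functionals. -/
def cfP (S : Φ →+ Φ) : CF Φ →+ CF Φ :=
  AddMonoidHom.mk' (fun φ => (fun j c => S (φ.1 j c), fun j c => S (φ.2 j c))) (by
    intro φ ψ
    refine Prod.ext ?_ ?_ <;>
    · funext j c
      exact S.map_add _ _)

/-- Functionals with all components in `C`. -/
def cstC (C : AddSubgroup Φ) : AddSubgroup (CF Φ) where
  carrier := {φ | ∀ (j : ℕ) (c : ℤ), φ.1 j c ∈ C ∧ φ.2 j c ∈ C}
  add_mem' := fun h h' j c => ⟨C.add_mem (h j c).1 (h' j c).1, C.add_mem (h j c).2 (h' j c).2⟩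
  zero_mem' := fun _ _ => ⟨C.zero_mem, C.zero_mem⟩
  neg_mem' := fun h j c => ⟨C.neg_mem (h j c).1, C.neg_mem (h j c).2⟩

end

/-- Partial contraction of the functionals. -/
structure Pc {H : Type} (F : FS H) (C : AddSubgroup F.Φ) (S P : F.Φ →+ F.Φ) (N : ℤ) : Prop where
  st : ∀ φ, F.tw (S φ) = -S (F.tw φ)
  sb : ∀ φ, F.bd (S φ) + S (F.bd φ) = φ - P φ
  pt : ∀ φ, F.tw (P φ) = P (F.tw φ)
  pb : ∀ φ, F.bd (P φ) = P (F.bd φ)
  sG : ∀ d, ∀ φ ∈ F.Dg d, S φ ∈ F.Dg (d - 1)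
  pG : ∀ d, ∀ φ ∈ F.Dg d, P φ ∈ F.Dg d
  pC : ∀ d, d < N → ∀ φ ∈ F.Dg d, P φ ∈ C
  sC : ∀ φ ∈ C, S φ = 0
  cT : ∀ φ ∈ C, F.tw φ ∈ C
  cB : ∀ φ ∈ C, F.bd φ ∈ C
  sP : ∀ φ ∈ F.Pr, S φ ∈ F.Pr

private theorem cf_ext {Φ : Type} {φ ψ : CF Φ} (h1 : ∀ j c, φ.1 j c = ψ.1 j c)
    (h2 : ∀ j c, φ.2 j c = ψ.2 j c) : φ = ψ :=
  Prod.ext (funext fun j => funext fun c => h1 j c) (funext fun j => funext fun c => h2 j c)

theorem Pc.circ {H : Type} {F : FS H} {C : AddSubgroup F.Φ} {S P : F.Φ →+ F.Φ} {N : ℤ}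
    (h : Pc F C S P N) (q : ℕ) (ρ : H → ℤ) :
    Pc (F.circ q ρ) (cstC C) (cfP S) (cfP P) N where
  st := by
    intro φ
    refine cf_ext (fun j c => h.st _) fun j c => ?_
    change -F.tw (S (φ.2 j c)) = -S (-F.tw (φ.2 j c))
    rw [h.st, map_neg]
  sb := by
    intro φ
    refine cf_ext (fun j c => ?_) fun j c => ?_
    · cases j with
      | zero =>
        change F.bd (S (φ.1 0 c)) + 0 + S (F.bd (φ.1 0 c) + 0) = φ.1 0 c - P (φ.1 0 c)
        rw [add_zero, add_zero, h.sb]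
      | succ j =>
        change F.bd (S (φ.1 (j + 1) c)) + ∑ a ∈ Finset.range q, F.tw (S (φ.2 j (c + a))) +
          S (F.bd (φ.1 (j + 1) c) + ∑ a ∈ Finset.range q, F.tw (φ.2 j (c + a))) =
          φ.1 (j + 1) c - P (φ.1 (j + 1) c)
        rw [← h.sb, map_add, map_sum]
        have e : ∑ a ∈ Finset.range q, F.tw (S (φ.2 j (c + a))) =
            -∑ a ∈ Finset.range q, S (F.tw (φ.2 j (c + a))) := by
          rw [← Finset.sum_neg_distrib]
          exact Finset.sum_congr rfl fun a _ => h.st _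
        rw [e]
        abel
    · change F.bd (S (φ.2 j c)) + (F.tw (S (φ.1 j (c + 1))) - F.tw (S (φ.1 j c))) +
        S (F.bd (φ.2 j c) + (F.tw (φ.1 j (c + 1)) - F.tw (φ.1 j c))) = φ.2 j c - P (φ.2 j c)
      rw [← h.sb, map_add, map_sub, h.st, h.st]
      abel
  pt := by
    intro φ
    refine cf_ext (fun j c => h.pt _) fun j c => ?_
    change -F.tw (P (φ.2 j c)) = P (-F.tw (φ.2 j c))
    rw [h.pt, map_neg]
  pb := by
    intro φ
    refine cf_ext (fun j c => ?_) fun j c => ?_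
    · cases j with
      | zero =>
        change F.bd (P (φ.1 0 c)) + 0 = P (F.bd (φ.1 0 c) + 0)
        rw [add_zero, add_zero, h.pb]
      | succ j =>
        change F.bd (P (φ.1 (j + 1) c)) + ∑ a ∈ Finset.range q, F.tw (P (φ.2 j (c + a))) =
          P (F.bd (φ.1 (j + 1) c) + ∑ a ∈ Finset.range q, F.tw (φ.2 j (c + a)))
        rw [map_add, map_sum, h.pb]
        exact congrArg _ (Finset.sum_congr rfl fun a _ => h.pt _)
    · change F.bd (P (φ.2 j c)) + (F.tw (P (φ.1 j (c + 1))) - F.tw (P (φ.1 j c))) =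
        P (F.bd (φ.2 j c) + (F.tw (φ.1 j (c + 1)) - F.tw (φ.1 j c)))
      rw [map_add, map_sub, h.pb, h.pt, h.pt]
  sG := by
    intro d φ hφ j c
    have e : d - 1 - 2 * (j : ℤ) = d - 2 * (j : ℤ) - 1 := by ring
    constructor
    · rw [e]
      exact h.sG _ _ (hφ j c).1
    · rw [e]
      exact h.sG _ _ (hφ j c).2
  pG := fun d φ hφ j c => ⟨h.pG _ _ (hφ j c).1, h.pG _ _ (hφ j c).2⟩
  pC := fun d hd φ hφ j c =>
    ⟨h.pC _ (by omega) _ (hφ j c).1, h.pC _ (by omega) _ (hφ j c).2⟩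
  sC := fun φ hφ => cf_ext (fun j c => h.sC _ (hφ j c).1) fun j c => h.sC _ (hφ j c).2
  cT := fun φ hφ j c => ⟨h.cT _ (hφ j c).1, C.neg_mem (h.cT _ (hφ j c).2)⟩
  cB := by
    intro φ hφ j c
    refine ⟨?_, C.add_mem (h.cB _ (hφ j c).2)
      (C.sub_mem (h.cT _ (hφ j (c + 1)).1) (h.cT _ (hφ j c).1))⟩
    cases j with
    | zero => exact C.add_mem (h.cB _ (hφ 0 c).1) C.zero_mem
    | succ j =>
      exact C.add_mem (h.cB _ (hφ (j + 1) c).1)
        (C.sum_mem fun a _ => h.cT _ (hφ j (c + a)).2)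
  sP := by
    intro φ hφ j c
    obtain ⟨h1, h2, h3, h4⟩ := hφ j c
    refine ⟨h.sP _ h1, h.sP _ h2, ?_, ?_⟩
    · change S (φ.1 j (c + q)) = S (φ.1 j c)
      rw [h3]
    · change S (φ.2 j (c + q)) = S (φ.2 j c)
      rw [h4]

section

variable {H : Type} {F : FS H} (q : ℕ) (ix : ℕ → ℕ) (ρ : ℕ → H → ℤ)

/-- Componentwise map of the iterated functionals. -/
def fitM (S : F.Φ →+ F.Φ) : ∀ n : ℕ, (fit F q ix ρ n).Φ →+ (fit F q ix ρ n).Φ
  | 0 => S
  | n + 1 => cfP (fitM S n)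

/-- The iterated functionals with all components in `C`. -/
def cstM (C : AddSubgroup F.Φ) : ∀ n : ℕ, AddSubgroup (fit F q ix ρ n).Φ
  | 0 => C
  | n + 1 => cstC (cstM C n)

/-- The component on the vertex `0`. -/
def vtM : ∀ n : ℕ, (fit F q ix ρ n).Φ → F.Φ
  | 0, φ => φ
  | n + 1, φ => vtM n (φ.1 0 0)

/-- The functional `u ⊗ ε`. -/
def unM (u : F.Φ) : ∀ n : ℕ, (fit F q ix ρ n).Φ
  | 0 => u
  | n + 1 => (fun j _ => if j = 0 then unM u n else 0, fun _ _ => 0)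

variable {q ix ρ}

theorem Pc.fit {C : AddSubgroup F.Φ} {S P : F.Φ →+ F.Φ} {N : ℤ} (h : Pc F C S P N) :
    ∀ n : ℕ, Pc (fit F q ix ρ n) (cstM q ix ρ C n) (fitM q ix ρ S n) (fitM q ix ρ P n) N
  | 0 => h
  | n + 1 => (Pc.fit h n).circ q (ρ (ix n))

theorem Pc.pc {C : AddSubgroup F.Φ} {S P : F.Φ →+ F.Φ} {N : ℤ} (h : Pc F C S P N) {φ : F.Φ}
    (hφ : φ ∈ C) : P φ ∈ C := by
  have e := h.sb φ
  rw [h.sC φ hφ, h.sC _ (h.cB φ hφ), map_zero, add_zero] at e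
  rw [← sub_eq_zero.1 e.symm]
  exact hφ

theorem vtM_mem {d : ℤ} : ∀ (n : ℕ) (φ : (HRx.fit F q ix ρ n).Φ),
    φ ∈ (HRx.fit F q ix ρ n).Dg d → vtM q ix ρ n φ ∈ F.Dg d
  | 0, φ, h => h
  | n + 1, φ, h => by
    refine vtM_mem n _ ?_
    have h0 := (h 0 0).1
    rwa [Nat.cast_zero, mul_zero, sub_zero] at h0

theorem vtM_cst {C : AddSubgroup F.Φ} : ∀ (n : ℕ) (φ : (HRx.fit F q ix ρ n).Φ),
    φ ∈ cstM q ix ρ C n → vtM q ix ρ n φ ∈ C
  | 0, _, h => h
  | n + 1, _, h => vtM_cst n _ (h 0 0).1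

theorem vtM_bd : ∀ (n : ℕ) (φ : (HRx.fit F q ix ρ n).Φ),
    vtM q ix ρ n ((HRx.fit F q ix ρ n).bd φ) = F.bd (vtM q ix ρ n φ)
  | 0, _ => rfl
  | n + 1, φ => by
    have h := vtM_bd n (φ.1 0 0)
    change vtM q ix ρ n ((HRx.fit F q ix ρ n).bd (φ.1 0 0) + 0) = _
    rw [add_zero]
    exact h

/-- The functional is `u ⊗ ε` up to `C` and the contraction. -/
theorem Pc.key {C : AddSubgroup F.Φ} {S P : F.Φ →+ F.Φ} {N : ℤ} (h : Pc F C S P N)
    (htt : ∀ n (φ : (HRx.fit F q ix ρ n).Φ),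
      (HRx.fit F q ix ρ n).tw ((HRx.fit F q ix ρ n).tw φ) = φ) :
    ∀ (n : ℕ) (φ : (HRx.fit F q ix ρ n).Φ), φ ∈ (HRx.fit F q ix ρ n).Dg N →
      (HRx.fit F q ix ρ n).bd φ ∈ cstM q ix ρ C n →
      fitM q ix ρ P n φ - unM q ix ρ (P (vtM q ix ρ n φ)) n ∈ cstM q ix ρ C n
  | 0, φ, _, _ => by
    change P φ - P φ ∈ C
    rw [sub_self]
    exact C.zero_mem
  | n + 1, φ, hφ, hb => by
    have hn := h.fit (q := q) (ix := ix) (ρ := ρ) n
    have hd0 : φ.1 0 0 ∈ (HRx.fit F q ix ρ n).Dg N := by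
      have h0 := (hφ 0 0).1
      rwa [Nat.cast_zero, mul_zero, sub_zero] at h0
    have hb0 : (HRx.fit F q ix ρ n).bd (φ.1 0 0) ∈ cstM q ix ρ C n := by
      have h0 := (hb 0 0).1
      change (HRx.fit F q ix ρ n).bd (φ.1 0 0) + 0 ∈ _ at h0
      rwa [add_zero] at h0
    have ih := Pc.key h htt n (φ.1 0 0) hd0 hb0
    -- neighbouring vertices
    have hst : ∀ c : ℤ, fitM q ix ρ P n (φ.1 0 (c + 1)) - fitM q ix ρ P n (φ.1 0 c) ∈
        cstM q ix ρ C n := by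
      intro c
      have h1 : (HRx.fit F q ix ρ n).bd (φ.2 0 c) +
          ((HRx.fit F q ix ρ n).tw (φ.1 0 (c + 1)) - (HRx.fit F q ix ρ n).tw (φ.1 0 c)) ∈
          cstM q ix ρ C n := (hb 0 c).2
      have h2 := hn.pc h1
      rw [map_add, map_sub, ← hn.pb, ← hn.pt, ← hn.pt] at h2
      have h3 : (HRx.fit F q ix ρ n).bd (fitM q ix ρ P n (φ.2 0 c)) ∈ cstM q ix ρ C n :=
        hn.cB _ (hn.pC _ (by omega) _ (hφ 0 c).2)
      have h4 := AddSubgroup.sub_mem _ h2 h3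
      rw [add_sub_cancel_left, ← map_sub] at h4
      have h5 := hn.cT _ h4
      rwa [htt] at h5
    have hall : ∀ c : ℤ, fitM q ix ρ P n (φ.1 0 c) - fitM q ix ρ P n (φ.1 0 0) ∈
        cstM q ix ρ C n := by
      intro c
      induction c using Int.induction_on with
      | zero =>
        rw [sub_self]
        exact AddSubgroup.zero_mem _
      | succ c ihc =>
        have e : fitM q ix ρ P n (φ.1 0 ((c : ℤ) + 1)) - fitM q ix ρ P n (φ.1 0 0) =
            (fitM q ix ρ P n (φ.1 0 ((c : ℤ) + 1)) - fitM q ix ρ P n (φ.1 0 (c : ℤ))) +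
            (fitM q ix ρ P n (φ.1 0 (c : ℤ)) - fitM q ix ρ P n (φ.1 0 0)) := by abel
        rw [e]
        exact AddSubgroup.add_mem _ (hst _) ihc
      | pred c ihc =>
        have e : fitM q ix ρ P n (φ.1 0 (-(c : ℤ) - 1)) - fitM q ix ρ P n (φ.1 0 0) =
            (fitM q ix ρ P n (φ.1 0 (-(c : ℤ))) - fitM q ix ρ P n (φ.1 0 0)) -
            (fitM q ix ρ P n (φ.1 0 (-(c : ℤ) - 1 + 1)) -
              fitM q ix ρ P n (φ.1 0 (-(c : ℤ) - 1))) := by
          rw [sub_add_cancel]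
          abel
        rw [e]
        exact AddSubgroup.sub_mem _ ihc (hst _)
    intro j c
    constructor
    · cases j with
      | zero =>
        change fitM q ix ρ P n (φ.1 0 c) -
          (if (0 : ℕ) = 0 then unM q ix ρ (P (vtM q ix ρ n (φ.1 0 0))) n else 0) ∈
            cstM q ix ρ C n
        rw [if_pos rfl]
        have e : fitM q ix ρ P n (φ.1 0 c) - unM q ix ρ (P (vtM q ix ρ n (φ.1 0 0))) n =
            (fitM q ix ρ P n (φ.1 0 c) - fitM q ix ρ P n (φ.1 0 0)) +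
            (fitM q ix ρ P n (φ.1 0 0) - unM q ix ρ (P (vtM q ix ρ n (φ.1 0 0))) n) := by abel
        rw [e]
        exact AddSubgroup.add_mem _ (hall c) ih
      | succ j =>
        change fitM q ix ρ P n (φ.1 (j + 1) c) -
          (if j + 1 = 0 then unM q ix ρ (P (vtM q ix ρ n (φ.1 0 0))) n else 0) ∈
            cstM q ix ρ C n
        rw [if_neg (Nat.succ_ne_zero j), sub_zero]
        exact hn.pC _ (by push_cast; omega) _ (hφ (j + 1) c).1
    · change fitM q ix ρ P n (φ.2 j c) - 0 ∈ cstM q ix ρ C n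
      rw [sub_zero]
      exact hn.pC _ (by omega) _ (hφ j c).2

/-- `S φ` as a functional: the boundary. -/
theorem Pc.bdS {C : AddSubgroup F.Φ} {S P : F.Φ →+ F.Φ} {N : ℤ} (h : Pc F C S P N) {φ : F.Φ}
    (hb : F.bd φ ∈ C) : F.bd (S φ) = φ - P φ := by
  have e := h.sb φ
  rwa [h.sC _ hb, add_zero] at e

end

end HRx
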