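import Pool.Agent.Lib.MP_181146_gt.HR.SpecA

/-!
# Project HR, part A: MitG
-/

set_option autoImplicit false

namespace HRx

open HEp HPx

theorem sMitG (hFMit : S_FMit) (hCirX : S_CirX) : S_MitG := by
  intro k _ H _ F hF M d hM q b ix z ρ h1 hρ hG n
  induction n with
  | zero =>
    intro e he φ hφ hφ'
    exact hG φ hφ'
  | succ n ih =>
    intro e he φ hφ hφ'
    obtain ⟨hFn, hMn⟩ := hFMit k H F hF M d hM q b ix z ρ h1 hρ n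
    have hD : ∀ (j : ℕ) (c : ℤ), φ.1 j c ∈ (fit F q ix ρ n).Dg (e - 2 * (j : ℤ)) ∧
        φ.2 j c ∈ (fit F q ix ρ n).Dg (e - 2 * (j : ℤ) - 1) := hφ
    have hP : ∀ (j : ℕ) (c : ℤ), φ.1 j c ∈ (fit F q ix ρ n).Pr ∧ φ.2 j c ∈ (fit F q ix ρ n).Pr ∧
        φ.1 j (c + q) = φ.1 j c ∧ φ.2 j (c + q) = φ.2 j c := hφ'
    refine hCirX k H (fit F q ix ρ n) hFn (mit M q b ix z ρ n) d hMn q b (ix n) (z (ix n))
      (ρ (ix n)) φ (fun j c => ⟨(hP j c).2.2.1, (hP j c).2.2.2⟩) (fun j c hj => ?_)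
      (fun j c => ⟨ih (e - 2 * (j : ℤ)) (by omega) _ (hD j c).1 (hP j c).1,
        ih (e - 2 * (j : ℤ) - 1) (by omega) _ (hD j c).2 (hP j c).2.1⟩)
    exact ⟨hFn.neg _ (by omega) _ (hD j c).1, hFn.neg _ (by omega) _ (hD j c).2⟩

end HRx
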