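import Pool.Agent.Lib.MP_181146_gt.HR.Cl5A
import Pool.Agent.Lib.MP_181146_gt.HR.MitG
import Pool.Agent.Lib.MP_181146_gt.HR.FMit
import Pool.Agent.Lib.MP_181146_gt.HR.CirX
import Pool.Agent.Lib.MP_181146_gt.HR.MSc
import Pool.Agent.Lib.MP_181146_gt.HR.FSc

/-!
# Project HR, module `Cl5B` (Clifford relation, part 2): operators on the iterated construction
-/

set_option autoImplicit false

namespace HRx

open HEp HPx

section

variable {k : Type} [CommRing k] {H : Type} {F : FS H} (M : MS k H F) (q b : ℕ) (ix : ℕ → ℕ)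
  (z : ℕ → k) (ρ : ℕ → H → ℤ)

/-- An operator, applied to all components of the iterated construction. -/
def mM (A : Module.End k M.V) : ∀ n : ℕ, Module.End k (mit M q b ix z ρ n).V
  | 0 => A
  | n + 1 => cirM (mM A n)

variable {M q b ix z ρ}

theorem mM_Xi (n : ℕ) : (mit M q b ix z ρ n).Ξ = mM M q b ix z ρ M.Ξ n := by
  induction n with
  | zero => rfl
  | succ n ih => exact congrArg cirM ih

theorem mM_mul (A B : Module.End k M.V) (n : ℕ) (x : (mit M q b ix z ρ n).V) :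
    mM M q b ix z ρ (A * B) n x = mM M q b ix z ρ A n (mM M q b ix z ρ B n x) := by
  induction n with
  | zero => rfl
  | succ n ih =>
    refine Prod.ext ?_ ?_
    · funext c
      exact ih _
    · funext c
      exact ih _

theorem mM_add (A B : Module.End k M.V) (n : ℕ) (x : (mit M q b ix z ρ n).V) :
    mM M q b ix z ρ (A + B) n x = mM M q b ix z ρ A n x + mM M q b ix z ρ B n x := by
  induction n with
  | zero => rfl
  | succ n ih =>
    refine Prod.ext ?_ ?_
    · funext c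
      exact ih _
    · funext c
      exact ih _

theorem mM_one (n : ℕ) (x : (mit M q b ix z ρ n).V) : mM M q b ix z ρ 1 n x = x := by
  induction n with
  | zero => rfl
  | succ n ih =>
    refine Prod.ext ?_ ?_
    · funext c
      exact ih _
    · funext c
      exact ih _

theorem mM_G {A : Module.End k M.V} {e : ℤ} (hA : ∀ i, ∀ x ∈ M.G i, A x ∈ M.G (i + e)) (n : ℕ) :
    ∀ i, ∀ x ∈ (mit M q b ix z ρ n).G i,
      mM M q b ix z ρ A n x ∈ (mit M q b ix z ρ n).G (i + e) := by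
  induction n with
  | zero => exact hA
  | succ n ih =>
    intro i x hx c
    refine ⟨ih _ _ (hx c).1, ?_⟩
    have h := ih _ _ (hx c).2
    have e' : i - 1 + e = i + e - 1 := by ring
    rw [e'] at h
    exact h

theorem mM_Q {A : Module.End k M.V} (hA : ∀ x ∈ M.Q, A x ∈ M.Q) (n : ℕ) :
    ∀ x ∈ (mit M q b ix z ρ n).Q, mM M q b ix z ρ A n x ∈ (mit M q b ix z ρ n).Q := by
  induction n with
  | zero => exact hA
  | succ n ih =>
    intro x hx c
    obtain ⟨h1, h2, h3, h4⟩ := hx c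
    refine ⟨ih _ h1, ih _ h2, ?_, ?_⟩
    · change mM M q b ix z ρ A n (x.1 (c - q)) = z (ix n) • mM M q b ix z ρ A n (x.1 c)
      rw [h3, map_smul]
    · change mM M q b ix z ρ A n (x.2 (c - q)) = z (ix n) • mM M q b ix z ρ A n (x.2 c)
      rw [h4, map_smul]

/-- An odd operator `h` on the base. -/
structure OdH (M : MS k H F) (h P : Module.End k M.V) : Prop where
  dh : ∀ x, M.δ (h x) + h (M.δ x) = P x
  sh : ∀ x, M.sg (h x) = -h (M.sg x)
  hY : ∀ i x, M.Y i (h x) = h (M.Y i x)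

theorem OdH.circ {M : MS k H F} {h P : Module.End k M.V} (hh : OdH M h P) (q b i : ℕ) (z : k)
    (ρ : H → ℤ) : OdH (M.circ q b i z ρ) (cirM h) (cirM P) where
  dh := by
    intro x
    refine Prod.ext ?_ ?_
    · funext c
      change M.δ (h (x.1 c)) + (M.sg (h (x.2 (c - 1))) - M.sg (h (x.2 c))) +
        h (M.δ (x.1 c) + (M.sg (x.2 (c - 1)) - M.sg (x.2 c))) = P (x.1 c)
      rw [← hh.dh, map_add, map_sub, hh.sh, hh.sh]
      abel
    · funext c
      change M.δ (h (x.2 c)) + ∑ a ∈ Finset.range q, M.Y i (M.sg (h (x.1 (c - a)))) +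
        h (M.δ (x.2 c) + ∑ a ∈ Finset.range q, M.Y i (M.sg (x.1 (c - a)))) = P (x.2 c)
      have e : ∑ a ∈ Finset.range q, M.Y i (M.sg (h (x.1 (c - a)))) =
          -∑ a ∈ Finset.range q, h (M.Y i (M.sg (x.1 (c - a)))) := by
        rw [← Finset.sum_neg_distrib]
        refine Finset.sum_congr rfl fun a _ => ?_
        rw [hh.sh, map_neg, hh.hY]
      rw [← hh.dh, map_add, map_sum, e]
      abel
  sh := by
    intro x
    refine Prod.ext ?_ ?_
    · funext c
      exact hh.sh _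
    · funext c
      change -M.sg (h (x.2 c)) = -h (-M.sg (x.2 c))
      rw [hh.sh, map_neg]
  hY := by
    intro l x
    refine Prod.ext ?_ ?_
    · funext c
      exact hh.hY l _
    · funext c
      exact hh.hY l _

theorem OdH.mit {M : MS k H F} {h P : Module.End k M.V} (hh : OdH M h P) (q b : ℕ) (ix : ℕ → ℕ)
    (z : ℕ → k) (ρ : ℕ → H → ℤ) : ∀ n : ℕ,
    OdH (mit M q b ix z ρ n) (mM M q b ix z ρ h n) (mM M q b ix z ρ P n)
  | 0 => hh
  | n + 1 => (OdH.mit hh q b ix z ρ n).circ q b (ix n) (z (ix n)) (ρ (ix n))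

/-- `tw (u ⊗ ε) = - u ⊗ ε` for odd `u`. -/
theorem unM_tw {u : F.Φ} (hu : F.tw u = -u) (n : ℕ) :
    (fit F q ix ρ n).tw (unM q ix ρ u n) = -unM q ix ρ u n := by
  induction n with
  | zero => exact hu
  | succ n ih =>
    refine Prod.ext ?_ ?_
    · funext j c
      change (fit F q ix ρ n).tw (if j = 0 then unM q ix ρ u n else 0) =
        -(if j = 0 then unM q ix ρ u n else 0)
      split_ifs
      · exact ih
      · rw [map_zero, neg_zero]
    · funext j c
      change -(fit F q ix ρ n).tw 0 = -0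
      rw [map_zero]

/-- The operator of `u ⊗ ε`. -/
theorem unM_Z {u : F.Φ} (hu : F.tw u = -u) (n : ℕ) (x : (mit M q b ix z ρ n).V) :
    (mit M q b ix z ρ n).sg ((mit M q b ix z ρ n).Z (unM q ix ρ u n) x) =
      mM M q b ix z ρ (M.sg * M.Z u) n x := by
  induction n with
  | zero => rfl
  | succ n ih =>
    refine Prod.ext ?_ ?_
    · funext c
      change (HRx.mit M q b ix z ρ n).sg (∑ j ∈ Finset.range (b + 1),
        ((HRx.mit M q b ix z ρ n).Z (if j = 0 then unM q ix ρ u n else 0)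
          (((HRx.mit M q b ix z ρ n).Y (ix n) ^ j) (x.1 c)) +
        (HRx.mit M q b ix z ρ n).Z 0 (((HRx.mit M q b ix z ρ n).Y (ix n) ^ j) (x.2 c)))) =
        mM M q b ix z ρ (M.sg * M.Z u) n (x.1 c)
      rw [← ih, Finset.sum_eq_single 0]
      · rw [if_pos rfl, map_zero, LinearMap.zero_apply, add_zero, pow_zero]
        rfl
      · intro j _ hj
        rw [if_neg hj, map_zero, LinearMap.zero_apply, LinearMap.zero_apply, add_zero]
      · intro h
        exact absurd (Finset.mem_range.2 (Nat.succ_pos b)) h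
    · funext c
      change -(HRx.mit M q b ix z ρ n).sg (∑ j ∈ Finset.range (b + 1),
        ((HRx.mit M q b ix z ρ n).Z ((fit F q ix ρ n).tw (if j = 0 then unM q ix ρ u n else 0))
          (((HRx.mit M q b ix z ρ n).Y (ix n) ^ j) (x.2 c)) +
        ∑ s ∈ Finset.range q, ∑ a ∈ Finset.range s,
          (HRx.mit M q b ix z ρ n).Z ((fit F q ix ρ n).tw 0)
            (((HRx.mit M q b ix z ρ n).Y (ix n) ^ (j + 1)) (x.1 (c - a))))) =
        mM M q b ix z ρ (M.sg * M.Z u) n (x.2 c)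
      rw [← ih, Finset.sum_eq_single 0]
      · rw [if_pos rfl, unM_tw hu, map_neg, LinearMap.neg_apply, pow_zero]
        simp only [map_zero, LinearMap.zero_apply, Finset.sum_const_zero, add_zero, map_neg,
          neg_neg]
        rfl
      · intro j _ hj
        rw [if_neg hj]
        simp only [map_zero, LinearMap.zero_apply, Finset.sum_const_zero, add_zero]
      · intro h
        exact absurd (Finset.mem_range.2 (Nat.succ_pos b)) h

end

section

variable {k : Type} [CommRing k] {H : Type} [Group H] {F : FS H}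

private theorem ypow {M : MS k H F} {N : ℤ} (hM : M.OK N) (i j : ℕ) (x : M.V) :
    M.Ξ ((M.Y i ^ j) x) = (M.Y i ^ j) (M.Ξ x) := by
  induction j generalizing x with
  | zero => rfl
  | succ j ih =>
    rw [pow_succ, Module.End.mul_apply, Module.End.mul_apply, ih, hM.ΞY]

/-- `Z φ` commutes with `Ξ` for `φ` with components in `C`. -/
theorem cstM_Z {M : MS k H F} {N : ℤ} (hM : M.OK N) (hF : F.OK) (q b : ℕ) (ix : ℕ → ℕ)
    (z : ℕ → k) (ρ : ℕ → H → ℤ) (h1 : ∀ i, ρ i 1 = 0)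
    (hρ : ∀ i h h', ρ i (h * h') = ρ i h + ρ i h') {C : AddSubgroup F.Φ} {S P : F.Φ →+ F.Φ}
    {N' : ℤ} (hP : Pc F C S P N') (hC : ∀ φ ∈ C, ∀ x, M.Z φ (M.Ξ x) = M.Ξ (M.Z φ x)) :
    ∀ (n : ℕ) (φ : (fit F q ix ρ n).Φ), φ ∈ cstM q ix ρ C n → ∀ x : (mit M q b ix z ρ n).V,
      (mit M q b ix z ρ n).Z φ ((mit M q b ix z ρ n).Ξ x) =
        (mit M q b ix z ρ n).Ξ ((mit M q b ix z ρ n).Z φ x) := by
  intro n
  induction n with
  | zero => exact hC
  | succ n ih =>
    intro φ hφ x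
    have hMn : (mit M q b ix z ρ n).OK N :=
      (sFMit sFSc sMSc k H F hF M N hM q b ix z ρ h1 hρ n).2
    have hPn := hP.fit (q := q) (ix := ix) (ρ := ρ) n
    refine Prod.ext ?_ ?_
    · funext c
      change ∑ j ∈ Finset.range (b + 1),
        ((mit M q b ix z ρ n).Z (φ.1 j c) (((mit M q b ix z ρ n).Y (ix n) ^ j)
          ((mit M q b ix z ρ n).Ξ (x.1 c))) +
        (mit M q b ix z ρ n).Z (φ.2 j c) (((mit M q b ix z ρ n).Y (ix n) ^ j)
          ((mit M q b ix z ρ n).Ξ (x.2 c)))) =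
        (mit M q b ix z ρ n).Ξ (∑ j ∈ Finset.range (b + 1),
          ((mit M q b ix z ρ n).Z (φ.1 j c) (((mit M q b ix z ρ n).Y (ix n) ^ j) (x.1 c)) +
          (mit M q b ix z ρ n).Z (φ.2 j c) (((mit M q b ix z ρ n).Y (ix n) ^ j) (x.2 c))))
      rw [map_sum]
      refine Finset.sum_congr rfl fun j _ => ?_
      rw [map_add, ← ypow hMn, ← ypow hMn, ih _ (hφ j c).1, ih _ (hφ j c).2]
    · funext c
      change ∑ j ∈ Finset.range (b + 1),
        ((mit M q b ix z ρ n).Z ((fit F q ix ρ n).tw (φ.1 j (c + 1)))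
          (((mit M q b ix z ρ n).Y (ix n) ^ j) ((mit M q b ix z ρ n).Ξ (x.2 c))) +
        ∑ s ∈ Finset.range q, ∑ a ∈ Finset.range s,
          (mit M q b ix z ρ n).Z ((fit F q ix ρ n).tw (φ.2 j (c - a + s)))
            (((mit M q b ix z ρ n).Y (ix n) ^ (j + 1))
              ((mit M q b ix z ρ n).Ξ (x.1 (c - a))))) =
        (mit M q b ix z ρ n).Ξ (∑ j ∈ Finset.range (b + 1),
          ((mit M q b ix z ρ n).Z ((fit F q ix ρ n).tw (φ.1 j (c + 1)))
            (((mit M q b ix z ρ n).Y (ix n) ^ j) (x.2 c)) +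
          ∑ s ∈ Finset.range q, ∑ a ∈ Finset.range s,
            (mit M q b ix z ρ n).Z ((fit F q ix ρ n).tw (φ.2 j (c - a + s)))
              (((mit M q b ix z ρ n).Y (ix n) ^ (j + 1)) (x.1 (c - a)))))
      rw [map_sum]
      refine Finset.sum_congr rfl fun j _ => ?_
      rw [map_add, ← ypow hMn, ih _ (hPn.cT _ (hφ j (c + 1)).1), map_sum]
      refine congrArg _ (Finset.sum_congr rfl fun s _ => ?_)
      rw [map_sum]
      refine Finset.sum_congr rfl fun a _ => ?_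
      rw [← ypow hMn, ih _ (hPn.cT _ (hφ j (c - a + s)).2)]

/-- **The Clifford relation on the iterated construction**, from the relation on the base. -/
theorem clfMit {M : MS k H F} {N : ℤ} (hM : M.OK N) (hF : F.OK) (q b : ℕ) (ix : ℕ → ℕ)
    (z : ℕ → k) (ρ : ℕ → H → ℤ) (h1 : ∀ i, ρ i 1 = 0)
    (hρ : ∀ i h h', ρ i (h * h') = ρ i h + ρ i h') (hG : ∀ φ ∈ F.Pr, M.Good φ)
    {C : AddSubgroup F.Φ} {S P : F.Φ →+ F.Φ} (hP : Pc F C S P N)
    (hC : ∀ φ ∈ C, ∀ x, M.Z φ (M.Ξ x) = M.Ξ (M.Z φ x)) (hb : N - 1 < 2 * b) (n : ℕ)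
    (v : (fit F q ix ρ n).Φ) (hv : v ∈ (fit F q ix ρ n).Dg N) (hv' : v ∈ (fit F q ix ρ n).Pr)
    (hbd : (fit F q ix ρ n).bd v ∈ cstM q ix ρ C n)
    (hu : F.tw (P (vtM q ix ρ n v)) = -P (vtM q ix ρ n v)) (h : Module.End k M.V)
    (hh : OdH M h ((M.sg * M.Z (P (vtM q ix ρ n v))) * M.Ξ +
      M.Ξ * (M.sg * M.Z (P (vtM q ix ρ n v))) - 1))
    (hGh : ∀ i, ∀ x ∈ M.G i, h x ∈ M.G (i + 1)) (hQh : ∀ x ∈ M.Q, h x ∈ M.Q) :
    ∃ W : Module.End k (mit M q b ix z ρ n).V,
      (∀ x ∈ (mit M q b ix z ρ n).Q, W x ∈ (mit M q b ix z ρ n).Q) ∧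
      (∀ i, ∀ x ∈ (mit M q b ix z ρ n).G i, W x ∈ (mit M q b ix z ρ n).G (i + 1)) ∧
      ∀ x, (mit M q b ix z ρ n).sg ((mit M q b ix z ρ n).Z v ((mit M q b ix z ρ n).Ξ x)) +
        (mit M q b ix z ρ n).Ξ ((mit M q b ix z ρ n).sg ((mit M q b ix z ρ n).Z v x)) =
        x + (mit M q b ix z ρ n).δ (W x) + W ((mit M q b ix z ρ n).δ x) := by
  obtain ⟨hFn, hMn⟩ := sFMit sFSc sMSc k H F hF M N hM q b ix z ρ h1 hρ n
  have hPn := hP.fit (q := q) (ix := ix) (ρ := ρ) n
  have htt : ∀ n (φ : (fit F q ix ρ n).Φ),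
      (fit F q ix ρ n).tw ((fit F q ix ρ n).tw φ) = φ := fun n φ =>
    (sFMit sFSc sMSc k H F hF M N hM q b ix z ρ h1 hρ n).1.tt φ
  set u := P (vtM q ix ρ n v) with hudef
  have hkey := hP.key htt n v hv hbd
  rw [← hudef] at hkey
  set μ := fitM q ix ρ S n v with hμ
  have hμd : μ ∈ (fit F q ix ρ n).Dg (N - 1) := hPn.sG _ _ hv
  have hμp : μ ∈ (fit F q ix ρ n).Pr := hPn.sP _ hv'
  have hμb : (fit F q ix ρ n).bd μ = v - fitM q ix ρ P n v := hPn.bdS hbd
  set ψ := fitM q ix ρ P n v - unM q ix ρ u n with hψ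
  have hgood := sMitG (sFMit sFSc sMSc) sCirX k H F hF M N hM q b ix z ρ h1 hρ hG n (N - 1)
    hb μ hμd hμp
  have hdec : v = (fit F q ix ρ n).bd μ + unM q ix ρ u n + ψ := by
    rw [hμb, hψ]
    abel
  have hcm := cstM_Z hM hF q b ix z ρ h1 hρ hP hC n ψ hkey
  have hoh := hh.mit q b ix z ρ n
  have hXi : ∀ y, mM M q b ix z ρ M.Ξ n y = (mit M q b ix z ρ n).Ξ y := fun y => by
    rw [mM_Xi]
  -- the operator of `v`
  have hX : ∀ x, (mit M q b ix z ρ n).sg ((mit M q b ix z ρ n).Z v x) =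
      ((mit M q b ix z ρ n).Z μ ((mit M q b ix z ρ n).δ x) -
        (mit M q b ix z ρ n).δ ((mit M q b ix z ρ n).Z μ x)) +
      mM M q b ix z ρ (M.sg * M.Z u) n x +
      (mit M q b ix z ρ n).sg ((mit M q b ix z ρ n).Z ψ x) := by
    intro x
    have e1 : (mit M q b ix z ρ n).Z v x =
        (mit M q b ix z ρ n).Z ((fit F q ix ρ n).bd μ) x +
          (mit M q b ix z ρ n).Z (unM q ix ρ u n) x + (mit M q b ix z ρ n).Z ψ x := by
      conv_lhs => rw [hdec]
      rw [map_add, map_add]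
      rfl
    have e2 := hgood x
    rw [e1, map_add, map_add, unM_Z hu, e2]
    abel
  refine ⟨(mit M q b ix z ρ n).Ξ * (mit M q b ix z ρ n).Z μ -
    (mit M q b ix z ρ n).Z μ * (mit M q b ix z ρ n).Ξ + mM M q b ix z ρ h n, ?_, ?_, ?_⟩
  · intro x hx
    refine Submodule.add_mem _ (Submodule.sub_mem _ ?_ ?_) (mM_Q hQh n x hx)
    · exact hMn.QΞ _ (hMn.QZ _ hμp _ hx)
    · exact hMn.QZ _ hμp _ (hMn.QΞ _ hx)
  · intro i x hx
    refine Submodule.add_mem _ (Submodule.sub_mem _ ?_ ?_) (mM_G hGh n i x hx)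
    · have h0 := hMn.GΞ _ _ (hMn.GZ _ _ hμd _ _ hx)
      have e : i - (N - 1) + N = i + 1 := by ring
      rw [e] at h0
      exact h0
    · have h0 := hMn.GZ _ _ hμd _ _ (hMn.GΞ _ _ hx)
      have e : i + N - (N - 1) = i + 1 := by ring
      rw [e] at h0
      exact h0
  · intro x
    have e1 := hX ((mit M q b ix z ρ n).Ξ x)
    have e2 := congrArg (mit M q b ix z ρ n).Ξ (hX x)
    have e3 := hoh.dh x
    have e4 : mM M q b ix z ρ (M.sg * M.Z u) n ((mit M q b ix z ρ n).Ξ x) +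
        (mit M q b ix z ρ n).Ξ (mM M q b ix z ρ (M.sg * M.Z u) n x) =
        x + mM M q b ix z ρ ((M.sg * M.Z u) * M.Ξ + M.Ξ * (M.sg * M.Z u) - 1) n x := by
      rw [sub_eq_add_neg, mM_add, mM_add, mM_mul (M.sg * M.Z u) M.Ξ n x,
        mM_mul M.Ξ (M.sg * M.Z u) n x, hXi, hXi]
      have e5 : mM M q b ix z ρ (-1) n x = -x := by
        have e6 := mM_add (M := M) (q := q) (b := b) (ix := ix) (z := z) (ρ := ρ) (-1) 1 n x
        rw [neg_add_cancel, mM_one] at e6
        have e7 : mM M q b ix z ρ 0 n x = 0 := by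
          have e8 := mM_add (M := M) (q := q) (b := b) (ix := ix) (z := z) (ρ := ρ) 0 0 n x
          rw [add_zero] at e8
          exact left_eq_add.1 e8
        rw [e7] at e6
        exact (neg_eq_of_add_eq_zero_left e6.symm).symm
      rw [e5]
      abel
    have e9 : (mit M q b ix z ρ n).sg ((mit M q b ix z ρ n).Z ψ ((mit M q b ix z ρ n).Ξ x)) +
        (mit M q b ix z ρ n).Ξ ((mit M q b ix z ρ n).sg ((mit M q b ix z ρ n).Z ψ x)) = 0 := by
      rw [hcm, hMn.Ξs]
      exact add_neg_cancel _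
    have e10 : (mit M q b ix z ρ n).Ξ ((mit M q b ix z ρ n).Z μ ((mit M q b ix z ρ n).δ x) -
        (mit M q b ix z ρ n).δ ((mit M q b ix z ρ n).Z μ x)) =
        (mit M q b ix z ρ n).Ξ ((mit M q b ix z ρ n).Z μ ((mit M q b ix z ρ n).δ x)) +
          (mit M q b ix z ρ n).δ ((mit M q b ix z ρ n).Ξ ((mit M q b ix z ρ n).Z μ x)) := by
      rw [map_sub, hMn.Ξd]
      exact sub_neg_eq_add _ _
    have e11 : (mit M q b ix z ρ n).Z μ ((mit M q b ix z ρ n).δ ((mit M q b ix z ρ n).Ξ x)) =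
        -(mit M q b ix z ρ n).Z μ ((mit M q b ix z ρ n).Ξ ((mit M q b ix z ρ n).δ x)) := by
      have e12 := hMn.Ξd x
      rw [e12, map_neg]
      exact (neg_neg _).symm
    rw [map_add, map_add, e10] at e2
    rw [e1, e2, e11]
    simp only [LinearMap.add_apply, LinearMap.sub_apply, Module.End.mul_apply, map_add, map_sub]
    rw [← e3] at e4
    have e13 : mM M q b ix z ρ (M.sg * M.Z u) n ((mit M q b ix z ρ n).Ξ x) =
        x + ((mit M q b ix z ρ n).δ (mM M q b ix z ρ h n x) +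
          mM M q b ix z ρ h n ((mit M q b ix z ρ n).δ x)) -
        (mit M q b ix z ρ n).Ξ (mM M q b ix z ρ (M.sg * M.Z u) n x) := by
      rw [← e4]
      abel
    have e14 : (mit M q b ix z ρ n).sg ((mit M q b ix z ρ n).Z ψ ((mit M q b ix z ρ n).Ξ x)) =
        -(mit M q b ix z ρ n).Ξ ((mit M q b ix z ρ n).sg ((mit M q b ix z ρ n).Z ψ x)) :=
      eq_neg_of_add_eq_zero_left e9
    rw [e13, e14]
    abel

end

end HRx
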