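import Pool.Agent.Lib.MP_181146_gt.HR.Cl5B
import Pool.Agent.Lib.MP_181146_gt.HR.MS0
import Pool.Agent.Lib.MP_181146_gt.HR.OpN
import Pool.Agent.Lib.MP_181146_gt.HR.Xc1
import Pool.Agent.Lib.MP_181146_gt.HP.DefsQ

/-!
# Project HR, module `Cl5C` (Clifford relation, part 3): the base

`c5Pc`: a partial contraction of the chains gives a partial contraction of the functionals.
`c5H`: a homotopy for the relation on the chains gives the odd operator on `ms0`.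
-/

set_option autoImplicit false

namespace HRx

open HEp HPx

section

variable {K : SS}

theorem c5_gr_ind {M : Type} [AddCommGroup M] {f : Ch ℤ K →ₗ[ℤ] M} {S : Submodule ℤ M} {m : ℕ}
    (h : ∀ σ : K.K m, f (sx ℤ σ) ∈ S) {x : Ch ℤ K} (hx : x ∈ gr ℤ K m) : f x ∈ S := by
  have hle : gr ℤ K m ≤ S.comap f := by
    rw [gr, Finsupp.supported_eq_span_single, Submodule.span_le]
    rintro _ ⟨⟨m', σ⟩, hσ, rfl⟩
    have hσ' : m' = m := hσ
    subst hσ'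
    exact h σ
  exact hle hx

theorem c5_gr_eq {M : Type} [AddCommGroup M] {f g : Ch ℤ K →ₗ[ℤ] M} {m : ℕ}
    (h : ∀ σ : K.K m, f (sx ℤ σ) = g (sx ℤ σ)) {x : Ch ℤ K} (hx : x ∈ gr ℤ K m) : f x = g x := by
  have := c5_gr_ind (f := f - g) (S := ⊥) (m := m) (fun σ => by
    rw [LinearMap.sub_apply, h σ, sub_self]
    exact Submodule.zero_mem _) hx
  rw [LinearMap.sub_apply, Submodule.mem_bot] at this
  exact sub_eq_zero.1 this

theorem c5_bd_gr {m : ℕ} {x : Ch ℤ K} (hx : x ∈ gr ℤ K (m + 1)) : bd ℤ K x ∈ gr ℤ K m := by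
  refine c5_gr_ind (fun σ => ?_) hx
  rw [bd_sx]
  exact Submodule.sum_mem _ fun i _ => Submodule.smul_mem _ _ (sx_mem_gr ℤ _)

theorem c5_bd_gr0 {x : Ch ℤ K} (hx : x ∈ gr ℤ K 0) : bd ℤ K x = 0 :=
  c5_gr_eq (g := 0) (fun σ => bd_sx_zero ℤ σ) hx

theorem c5_sg_apply (x : Ch ℤ K) : sgC K x = x - (2 : ℤ) • od ℤ K x := rfl

theorem c5_sg_sx {n : ℕ} (x : K.K n) : sgC K (sx ℤ x) = ((-1 : ℤ) ^ n) • sx ℤ x := by
  rw [c5_sg_apply, od_sx]
  by_cases h : Odd n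
  · rw [if_pos h, h.neg_one_pow, two_smul, neg_one_smul]
    abel
  · rw [if_neg h, (Nat.not_odd_iff_even.1 h).neg_one_pow, smul_zero, sub_zero, one_smul]

theorem c5_sg_gr {m : ℕ} {x : Ch ℤ K} (hx : x ∈ gr ℤ K m) :
    sgC K x = ((-1 : ℤ) ^ m) • x :=
  c5_gr_eq (f := sgC K) (g := ((-1 : ℤ) ^ m) • LinearMap.id) (fun σ => c5_sg_sx σ) hx

theorem c5_aug_gr {m : ℕ} {x : Ch ℤ K} (hx : x ∈ gr ℤ K (m + 1)) : aug ℤ K x = 0 :=
  c5_gr_eq (f := aug ℤ K) (g := 0) (fun σ => aug_sx_succ ℤ σ) hx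

theorem c5_aug_sg (x : Ch ℤ K) : aug ℤ K (sgC K x) = aug ℤ K x := by
  have h : aug ℤ K ∘ₗ sgC K = aug ℤ K := ch_ext fun n σ => by
    rw [LinearMap.comp_apply, c5_sg_sx, map_smul]
    cases n with
    | zero => rw [pow_zero, one_smul]
    | succ n => rw [aug_sx_succ, smul_zero]
  exact LinearMap.congr_fun h x

/-- Maps of odd degree anticommute with the sign. -/
theorem c5_sg_odd {s : Ch ℤ K →ₗ[ℤ] Ch ℤ K} {n : ℕ} (hn : Odd n)
    (hs : ∀ i, ∀ x ∈ gr ℤ K i, s x ∈ gr ℤ K (i + n)) (x : Ch ℤ K) :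
    s (sgC K x) = -sgC K (s x) := by
  have h : s ∘ₗ sgC K = -(sgC K ∘ₗ s) := ch_ext fun m σ => by
    rw [LinearMap.neg_apply, LinearMap.comp_apply, LinearMap.comp_apply, c5_sg_sx, map_smul,
      c5_sg_gr (hs m _ (sx_mem_gr ℤ σ)), pow_add, hn.neg_one_pow, mul_neg_one, neg_smul, neg_neg]
  exact LinearMap.congr_fun h x

theorem c5_sg_bd (x : Ch ℤ K) : bd ℤ K (sgC K x) = -sgC K (bd ℤ K x) := by
  rw [c5_sg_apply, c5_sg_apply, od_bd, map_sub, map_smul, map_sub, smul_sub, two_smul, two_smul]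
  abel

/-! ### The projections -/

/-- The projection onto the chains of dimension `m`. -/
noncomputable def pjG (K : SS) (m : ℕ) : Ch ℤ K →ₗ[ℤ] Ch ℤ K :=
  Finsupp.linearCombination ℤ (fun x => if x.1 = m then Finsupp.single x 1 else 0)

theorem pjG_sx {m n : ℕ} (x : K.K n) : pjG K m (sx ℤ x) = if n = m then sx ℤ x else 0 := by
  rw [pjG, sx, Finsupp.linearCombination_single, one_smul]

theorem pjG_gr {m : ℕ} {x : Ch ℤ K} (hx : x ∈ gr ℤ K m) : pjG K m x = x :=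
  c5_gr_eq (f := pjG K m) (g := LinearMap.id) (fun σ => by
    rw [pjG_sx, if_pos rfl]
    rfl) hx

theorem pjG_ne {m n : ℕ} (h : n ≠ m) {x : Ch ℤ K} (hx : x ∈ gr ℤ K n) : pjG K m x = 0 :=
  c5_gr_eq (f := pjG K m) (g := 0) (fun σ => by
    rw [pjG_sx, if_neg h]
    rfl) hx

theorem pjG_mem (m : ℕ) (x : Ch ℤ K) : pjG K m x ∈ gr ℤ K m := by
  have hle : LinearMap.range (pjG K m) ≤ gr ℤ K m := by
    rw [pjG, Finsupp.range_linearCombination, Submodule.span_le]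
    rintro _ ⟨⟨n, σ⟩, rfl⟩
    dsimp only
    split_ifs with h
    · subst h
      exact sx_mem_gr ℤ σ
    · exact Submodule.zero_mem _
  exact hle ⟨x, rfl⟩

theorem pjG_bd (m : ℕ) (x : Ch ℤ K) : pjG K m (bd ℤ K x) = bd ℤ K (pjG K (m + 1) x) := by
  have h : pjG K m ∘ₗ bd ℤ K = bd ℤ K ∘ₗ pjG K (m + 1) := ch_ext fun n σ => by
    rw [LinearMap.comp_apply, LinearMap.comp_apply, pjG_sx]
    cases n with
    | zero => rw [bd_sx_zero, map_zero, if_neg (Nat.succ_ne_zero m).symm, map_zero]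
    | succ n =>
      have hm := c5_bd_gr (sx_mem_gr ℤ σ)
      by_cases hnm : n = m
      · subst hnm
        rw [if_pos rfl, pjG_gr hm]
      · rw [if_neg (fun e => hnm (Nat.succ.inj e)), map_zero, pjG_ne hnm hm]
  exact LinearMap.congr_fun h x

/-- The part of degree `1` of a map. -/
noncomputable def trc1 (κ : Ch ℤ K →ₗ[ℤ] Ch ℤ K) : Ch ℤ K →ₗ[ℤ] Ch ℤ K :=
  Finsupp.linearCombination ℤ (fun x => pjG K (x.1 + 1) (κ (Finsupp.single x 1)))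

theorem trc1_gr (κ : Ch ℤ K →ₗ[ℤ] Ch ℤ K) {m : ℕ} {x : Ch ℤ K} (hx : x ∈ gr ℤ K m) :
    trc1 κ x = pjG K (m + 1) (κ x) :=
  c5_gr_eq (f := trc1 κ) (g := pjG K (m + 1) ∘ₗ κ) (fun σ => by
    rw [trc1, sx, Finsupp.linearCombination_single, one_smul]
    rfl) hx

/-- If `P - 1` of degree `0` is `bd κ + κ bd`, then also with the part of degree `1` of `κ`. -/
theorem trc1_rel {P κ : Ch ℤ K →ₗ[ℤ] Ch ℤ K} (hP : ∀ i, ∀ y ∈ gr ℤ K i, P y ∈ gr ℤ K i)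
    (h : ∀ y, P y = y + (bd ℤ K (κ y) + κ (bd ℤ K y))) (y : Ch ℤ K) :
    P y = y + (bd ℤ K (trc1 κ y) + trc1 κ (bd ℤ K y)) := by
  have e : P = LinearMap.id + (bd ℤ K ∘ₗ trc1 κ + trc1 κ ∘ₗ bd ℤ K) := ch_ext fun n σ => by
    have hσ := sx_mem_gr (K := K) ℤ σ
    have h1 : P (sx ℤ σ) - sx ℤ σ = bd ℤ K (κ (sx ℤ σ)) + κ (bd ℤ K (sx ℤ σ)) := by
      rw [h]
      abel
    have h2 := congrArg (pjG K n) h1
    rw [pjG_gr (Submodule.sub_mem _ (hP n _ hσ) hσ), map_add, pjG_bd, ← trc1_gr κ hσ] at h2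
    have h3 : pjG K n (κ (bd ℤ K (sx ℤ σ))) = trc1 κ (bd ℤ K (sx ℤ σ)) := by
      cases n with
      | zero => rw [bd_sx_zero, map_zero, map_zero, map_zero]
      | succ n => rw [trc1_gr κ (c5_bd_gr hσ)]
    rw [h3] at h2
    rw [LinearMap.add_apply, LinearMap.add_apply, LinearMap.comp_apply, LinearMap.comp_apply,
      LinearMap.id_apply, ← h2]
    abel
  exact LinearMap.congr_fun e y

/-! ### The partial contraction of the functionals -/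

/-- `Π = 1 - bd s - s bd`. -/
noncomputable def piC (s : Ch ℤ K →ₗ[ℤ] Ch ℤ K) : Ch ℤ K →ₗ[ℤ] Ch ℤ K :=
  LinearMap.id - bd ℤ K ∘ₗ s - s ∘ₗ bd ℤ K

theorem piC_apply (s : Ch ℤ K →ₗ[ℤ] Ch ℤ K) (x : Ch ℤ K) :
    piC s x = x - bd ℤ K (s x) - s (bd ℤ K x) := rfl

theorem piC_gr {s : Ch ℤ K →ₗ[ℤ] Ch ℤ K} (hs : ∀ i, ∀ x ∈ gr ℤ K i, s x ∈ gr ℤ K (i + 1))
    {i : ℕ} {x : Ch ℤ K} (hx : x ∈ gr ℤ K i) : piC s x ∈ gr ℤ K i := by
  rw [piC_apply]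
  refine Submodule.sub_mem _ (Submodule.sub_mem _ hx (c5_bd_gr (hs i x hx))) ?_
  cases i with
  | zero =>
    rw [c5_bd_gr0 hx, map_zero]
    exact Submodule.zero_mem _
  | succ i => exact hs i _ (c5_bd_gr hx)

/-- Composition with an endomorphism of the chains. -/
noncomputable def fcM (s : Ch ℤ K →ₗ[ℤ] Ch ℤ K) : (Ch ℤ K →ₗ[ℤ] ℤ) →+ (Ch ℤ K →ₗ[ℤ] ℤ) :=
  AddMonoidHom.mk' (fun φ => φ ∘ₗ s) (fun _ _ => rfl)

theorem c5Pc {H : Type} (α : H → SSHom K K) (v : K.K 0) (n : ℕ)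
    {s : Ch ℤ K →ₗ[ℤ] Ch ℤ K} (hs : ∀ i, ∀ x ∈ gr ℤ K i, s x ∈ gr ℤ K (i + 1))
    (h0 : ∀ x ∈ gr ℤ K 0, bd ℤ K (s x) = x - aug ℤ K x • sx ℤ v)
    (hi : ∀ i, 0 < i → i < n → ∀ x ∈ gr ℤ K i, bd ℤ K (s x) + s (bd ℤ K x) = x) :
    Pc (fs0 K α) (AddSubgroup.zmultiples (aug ℤ K)) (fcM s) (fcM (piC s)) n where
  st := by
    intro (φ : Ch ℤ K →ₗ[ℤ] ℤ)
    apply LinearMap.ext
    intro x
    change φ (s (sgC K x)) = -φ (sgC K (s x))
    rw [c5_sg_odd (n := 1) odd_one hs, map_neg]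
  sb := by
    intro (φ : Ch ℤ K →ₗ[ℤ] ℤ)
    apply LinearMap.ext
    intro x
    change φ (s (bd ℤ K x)) + φ (bd ℤ K (s x)) = φ x - φ (piC s x)
    rw [piC_apply, map_sub, map_sub]
    abel
  pt := by
    intro (φ : Ch ℤ K →ₗ[ℤ] ℤ)
    apply LinearMap.ext
    intro x
    change φ (piC s (sgC K x)) = φ (sgC K (piC s x))
    refine congrArg φ ?_
    rw [piC_apply, piC_apply, c5_sg_odd (n := 1) odd_one hs, c5_sg_bd, map_neg, map_neg,
      c5_sg_odd (n := 1) odd_one hs, c5_sg_bd, map_sub, map_sub, neg_neg, neg_neg]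
  pb := by
    intro (φ : Ch ℤ K →ₗ[ℤ] ℤ)
    apply LinearMap.ext
    intro x
    change φ (piC s (bd ℤ K x)) = φ (bd ℤ K (piC s x))
    rw [piC_apply, piC_apply, map_sub (bd ℤ K), map_sub (bd ℤ K), bd_bd, bd_bd, map_zero,
      sub_zero, sub_zero]
  sG := by
    intro d φ hφ i hi' y hy
    exact hφ (i + 1) (by push_cast; omega) _ (hs i y hy)
  pG := by
    intro d (φ : Ch ℤ K →ₗ[ℤ] ℤ) hφ i hi' y hy
    exact hφ i hi' _ (piC_gr hs hy)
  pC := by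
    intro d hd (φ : Ch ℤ K →ₗ[ℤ] ℤ) hφ
    rw [AddSubgroup.mem_zmultiples_iff]
    have hφ' : ∀ i : ℕ, (i : ℤ) ≠ d → ∀ y ∈ gr ℤ K i, φ y = 0 := hφ
    refine ⟨φ (sx ℤ v), ch_ext fun i σ => ?_⟩
    change φ (sx ℤ v) • aug ℤ K (sx ℤ σ) = φ (piC s (sx ℤ σ))
    have hσ := sx_mem_gr (K := K) ℤ σ
    cases i with
    | zero =>
      rw [piC_apply, bd_sx_zero, map_zero, sub_zero, h0 _ hσ, aug_sx_zero, one_smul,
        sub_sub_cancel, smul_eq_mul, mul_one]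
    | succ i =>
      rw [aug_sx_succ, smul_zero]
      by_cases hid : ((i + 1 : ℕ) : ℤ) = d
      · have h1 := hi (i + 1) (Nat.succ_pos i) (by omega) _ hσ
        have h2 : piC s (sx ℤ σ) = 0 := by
          rw [piC_apply, sub_sub, h1, sub_self]
        rw [h2, map_zero]
      · exact (hφ' (i + 1) hid _ (piC_gr hs hσ)).symm
  sC := by
    intro (φ : Ch ℤ K →ₗ[ℤ] ℤ) hφ
    obtain ⟨r, rfl⟩ := AddSubgroup.mem_zmultiples_iff.1 hφ
    refine ch_ext fun i σ => ?_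
    change r • aug ℤ K (s (sx ℤ σ)) = 0
    rw [c5_aug_gr (hs i _ (sx_mem_gr ℤ σ)), smul_zero]
  cT := by
    intro (φ : Ch ℤ K →ₗ[ℤ] ℤ) hφ
    obtain ⟨r, rfl⟩ := AddSubgroup.mem_zmultiples_iff.1 hφ
    refine AddSubgroup.mem_zmultiples_iff.2 ⟨r, LinearMap.ext fun x => ?_⟩
    change r • aug ℤ K x = r • aug ℤ K (sgC K x)
    rw [c5_aug_sg]
  cB := by
    intro (φ : Ch ℤ K →ₗ[ℤ] ℤ) hφ
    obtain ⟨r, rfl⟩ := AddSubgroup.mem_zmultiples_iff.1 hφ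
    refine AddSubgroup.mem_zmultiples_iff.2 ⟨0, LinearMap.ext fun x => ?_⟩
    change (0 : ℤ) • aug ℤ K x = r • aug ℤ K (bd ℤ K x)
    rw [zero_smul, aug_bd, smul_zero]
  sP := fun _ _ => trivial

/-! ### The operators on the base -/

variable {k : Type} [CommRing k]

theorem opD_comp (D : DM k) (A B : Ch ℤ K →ₗ[ℤ] Ch ℤ K) (x : ChD K D) :
    opD D A (opD D B x) = opD D (A ∘ₗ B) x := by
  funext j
  change (opN (D.D j) A : ChN K (D.D j) →ₗ[k] ChN K (D.D j)) (opN (D.D j) B (x j)) =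
    opN (D.D j) (A ∘ₗ B) (x j)
  rw [(sOpN K k (D.D j)).2.1 A B]
  rfl

theorem opD_id (D : DM k) (x : ChD K D) : opD D LinearMap.id x = x := by
  funext j
  change (opN (D.D j) LinearMap.id : ChN K (D.D j) →ₗ[k] ChN K (D.D j)) (x j) = x j
  rw [(sOpN K k (D.D j)).1]
  rfl

theorem opD_add (D : DM k) (A B : Ch ℤ K →ₗ[ℤ] Ch ℤ K) (x : ChD K D) :
    opD D (A + B) x = opD D A x + opD D B x := by
  funext j
  change (opN (D.D j) (A + B) : ChN K (D.D j) →ₗ[k] ChN K (D.D j)) (x j) =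
    opN (D.D j) A (x j) + opN (D.D j) B (x j)
  rw [(sOpN K k (D.D j)).2.2.1 A B]
  rfl

theorem opD_smul (D : DM k) (r : ℤ) (A : Ch ℤ K →ₗ[ℤ] Ch ℤ K) (x : ChD K D) :
    opD D (r • A) x = r • opD D A x := by
  funext j
  change (opN (D.D j) (r • A) : ChN K (D.D j) →ₗ[k] ChN K (D.D j)) (x j) =
    r • opN (D.D j) A (x j)
  rw [(sOpN K k (D.D j)).2.2.2.1 r A]
  rfl

theorem opD_neg (D : DM k) (A : Ch ℤ K →ₗ[ℤ] Ch ℤ K) (x : ChD K D) :
    opD D (-A) x = -opD D A x := by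
  rw [← neg_one_smul ℤ A, opD_smul, neg_one_smul]

theorem opD_Y (D : DM k) (i : ℕ) (A : Ch ℤ K →ₗ[ℤ] Ch ℤ K) (x : ChD K D) :
    yD K D i (opD D A x) = opD D A (yD K D i x) := by
  funext j
  exact (sOpN K k (D.D (j + 1))).2.2.2.2.2.2 k (D.D j) (D.Y i j).toAddMonoidHom A (x (j + 1))

/-- Operators of degree `e ≥ 0`. -/
theorem opD_deg (D : DM k) {A : Ch ℤ K →ₗ[ℤ] Ch ℤ K} {e : ℕ}
    (h1 : ∀ m, ∀ y ∈ gr ℤ K m, A y ∈ gr ℤ K (m + e)) (i : ℤ) (x : ChD K D)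
    (hx : x ∈ grD K D i) : opD D A x ∈ grD K D (i + e) := by
  intro j y hy
  change (opN (D.D j) A : ChN K (D.D j) →ₗ[k] ChN K (D.D j)) (x j) y = 0
  by_cases hi : i - 2 * (j : ℤ) < 0
  · have h0 : x j = 0 := by
      ext z
      exact hx j z (by have h3 : (0 : ℤ) ≤ (z.1 : ℤ) := Int.natCast_nonneg _; omega)
    rw [h0, map_zero]
    rfl
  · obtain ⟨m, hm⟩ := Int.eq_ofNat_of_zero_le (not_lt.1 hi)
    have hs : ∀ z : (Σ n, K.K n), z.1 ≠ m → x j z = 0 := fun z hz => hx j z (by omega)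
    exact (sOpN K k (D.D j)).2.2.2.2.1 A m (m + e) (h1 m) (x j) hs y (by omega)

/-- `Xc u` for odd `u`. -/
theorem Xc_odd {u : Ch ℤ K →ₗ[ℤ] ℤ} {n : ℕ} (hn : Odd n) (hu : Sup n u) (y : Ch ℤ K) :
    sgC K (Xc u y) = cap u y := by
  have e1 : u ∘ₗ od ℤ K = u := ch_ext fun i σ => by
    rw [LinearMap.comp_apply, od_sx]
    by_cases h : i = n
    · subst h
      rw [if_pos hn]
    · rw [hu i h _ (sx_mem_gr ℤ σ)]
      split_ifs
      · exact hu i h _ (sx_mem_gr ℤ σ)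
      · exact map_zero u
  have e2 : u ∘ₗ (LinearMap.id - od ℤ K) = 0 := by
    rw [LinearMap.comp_sub, e1, LinearMap.comp_id, sub_self]
  have e3 : cap (0 : Ch ℤ K →ₗ[ℤ] ℤ) y = 0 := by
    have h := lx_add (K := K) 0 0 (dl ℤ K y)
    rw [add_zero] at h
    exact left_eq_add.1 h
  have e4 : sgC K (sgC K (cap u y)) = cap u y := by
    have h : sgC K ∘ₗ sgC K = LinearMap.id := ch_ext fun i σ => by
      rw [LinearMap.comp_apply, c5_sg_sx, map_smul, c5_sg_sx, smul_smul, ← pow_add,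
        (Even.add_self i).neg_one_pow, one_smul]
      rfl
    exact LinearMap.congr_fun h _
  rw [Xc, e1, e2, LinearMap.add_apply, LinearMap.comp_apply, e3, zero_add, e4]

/-- The homotopy on the base. -/
theorem c5H {H : Type} (α : H → SSHom K K) (D : DM k) {a κ : Ch ℤ K →ₗ[ℤ] Ch ℤ K} {n : ℕ}
    (hn : Odd n) {u : Ch ℤ K →ₗ[ℤ] ℤ} (hu : Sup n u)
    (hκ : ∀ i, ∀ y ∈ gr ℤ K i, κ y ∈ gr ℤ K (i + 1))
    (h : ∀ y, cap u (a y) + a (cap u y) = y + (bd ℤ K (κ y) + κ (bd ℤ K y))) :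
    OdH (ms0 K α D a : MS k H (fs0 K α)) (opD D κ)
      (((ms0 K α D a : MS k H (fs0 K α)).sg * (ms0 K α D a : MS k H (fs0 K α)).Z u) *
        (ms0 K α D a : MS k H (fs0 K α)).Ξ + (ms0 K α D a : MS k H (fs0 K α)).Ξ *
        ((ms0 K α D a : MS k H (fs0 K α)).sg * (ms0 K α D a : MS k H (fs0 K α)).Z u) - 1) where
  dh := by
    intro (x : ChD K D)
    change opD D (bd ℤ K) (opD D κ x) + opD D κ (opD D (bd ℤ K) x) =
      opD D (sgC K) (opD D (Xc u) (opD D a x)) + opD D a (opD D (sgC K) (opD D (Xc u) x)) - x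
    rw [opD_comp, opD_comp, opD_comp, opD_comp, opD_comp, opD_comp, ← opD_add, ← opD_add]
    have e : (sgC K ∘ₗ Xc u) ∘ₗ a + (a ∘ₗ sgC K) ∘ₗ Xc u =
        LinearMap.id + (bd ℤ K ∘ₗ κ + κ ∘ₗ bd ℤ K) := by
      apply LinearMap.ext
      intro y
      change sgC K (Xc u (a y)) + a (sgC K (Xc u y)) = y + (bd ℤ K (κ y) + κ (bd ℤ K y))
      rw [Xc_odd hn hu, Xc_odd hn hu, h]
    rw [e, opD_add D LinearMap.id, opD_id, opD_add, add_sub_cancel_left]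
  sh := by
    intro (x : ChD K D)
    change opD D (sgC K) (opD D κ x) = -opD D κ (opD D (sgC K) x)
    rw [opD_comp, opD_comp, ← opD_neg]
    have e : sgC K ∘ₗ κ = -(κ ∘ₗ sgC K) := by
      apply LinearMap.ext
      intro y
      change sgC K (κ y) = -κ (sgC K y)
      rw [c5_sg_odd (n := 1) odd_one hκ, neg_neg]
    rw [e]
  hY := fun i x => opD_Y D i κ x

end

end HRx
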