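import Pool.Agent.Lib.MP_181146_gt.HR.Cl5C
import Pool.Agent.Lib.MP_181146_gt.HR.FS0
import Pool.Agent.Lib.MP_181146_gt.HT.RelV

/-!
# Project HR, module `Cl5D`: the Clifford relation on the iterated construction over the singular chains

`S_Cl5`: `M` is the iterated construction over the singular chains of `E`, with `Ξ` the multiplication by
a primitive cycle `c` of odd degree `n`, `V` a periodic functional of degree `n` whose boundary is a
multiple of the augmentation in every component (for instance `κ(y) ε`), with value `1` on `c` at the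
vertex.  Then `X Ξ + Ξ X = 1 + [δ, W]` for `X = sg ∘ Z V`.
-/

set_option autoImplicit false
set_option linter.unusedVariables false

namespace HRx

open scoped TensorProduct
open HEp HPx HTx

/-- Multiplication by the chain `c`. -/
noncomputable def muC {E : Type} [TopologicalSpace E] (e : ∀ p q : ℕ, Ch ℤ ((De p).prod (De q)))
    (m : C(E × E, E)) (c : Ch ℤ (Sing E)) : Ch ℤ (Sing E) →ₗ[ℤ] Ch ℤ (Sing E) :=
  mu ℤ e (SingMul m) ∘ₗ TensorProduct.mk ℤ (Ch ℤ (Sing E)) (Ch ℤ (Sing E)) c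

/-- All components of `κ(y) ε` are multiples of `ε`. -/
theorem Kf_cst {H : Type} {F : FS H} (ε : F.Φ) (q : ℕ) (ix : ℕ → ℕ) (ρ : ℕ → H → ℤ) :
    ∀ (n : ℕ) (κ : (ℕ → ℕ) → ℤ),
      Kf ε q ix ρ n κ ∈ cstM q ix ρ (AddSubgroup.zmultiples ε) n
  | 0, κ => AddSubgroup.mem_zmultiples_iff.2 ⟨κ 0, rfl⟩
  | n + 1, κ => fun j _ =>
    ⟨Kf_cst ε q ix ρ n (fun a => κ (Function.update a (ix n) j)), AddSubgroup.zero_mem _⟩

/-- **Cl5.** The Clifford relation on the iterated construction. -/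
def S_Cl5 : Prop :=
  ∀ (e : ∀ p q : ℕ, Ch ℤ ((De p).prod (De q))) (he : EZ e) (E : Type)
    [TopologicalSpace E] [PathConnectedSpace E] (v : E) (m : C(E × E, E))
    (hA : ContinuousMap.Homotopic (ContinuousMap.id E)
      (m.comp (ContinuousMap.prodMk (ContinuousMap.id E) (ContinuousMap.const E v))))
    (B : C(unitInterval × E, E)) (hB0 : ∀ x, B (0, x) = x) (hB1 : ∀ x, B (1, x) = m (v, x))
    (n : ℕ) (hn : Odd n) (hE : AcE E (vtx v) n) (c : Ch ℤ (Sing E)) (hc : c ∈ gr ℤ (Sing E) n)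
    (hbc : bd ℤ (Sing E) c = 0) (w : Ch ℤ (Sing E) ⊗[ℤ] Ch ℤ (Sing E))
    (hw : dl ℤ (Sing E) c = c ⊗ₜ sx ℤ (vtx v) + sx ℤ (vtx v) ⊗ₜ c +
      ((chDG ℤ (Sing E)).tens (chDG ℤ (Sing E))).d w)
    (k : Type) [CommRing k] (H : Type) [Group H] (α : H → SSHom (Sing E) (Sing E))
    (h1 : α 1 = SSHom.id (Sing E)) (hα : ∀ h h', α (h * h') = (α h).comp (α h'))
    (hmα : ∀ h y, muC e m c (cmap ℤ (α h) y) = cmap ℤ (α h) (muC e m c y))
    (D : DM k) (hD : D.Comm) (q b : ℕ) (ix : ℕ → ℕ) (z : ℕ → k) (ρ : ℕ → H → ℤ)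
    (hρ1 : ∀ i, ρ i 1 = 0) (hρ : ∀ i h h', ρ i (h * h') = ρ i h + ρ i h') (hb : n ≤ 2 * b)
    (N : ℕ) (V : (fit (fs0 (Sing E) α) q ix ρ N).Φ)
    (hV : V ∈ (fit (fs0 (Sing E) α) q ix ρ N).Dg n)
    (hV' : V ∈ (fit (fs0 (Sing E) α) q ix ρ N).Pr)
    (hbV : (fit (fs0 (Sing E) α) q ix ρ N).bd V ∈
      cstM q ix ρ (F := fs0 (Sing E) α) (AddSubgroup.zmultiples (aug ℤ (Sing E))) N)
    (hVc : (show Ch ℤ (Sing E) →ₗ[ℤ] ℤ from vtM q ix ρ (F := fs0 (Sing E) α) N V) c = 1),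
    ∃ W : Module.End k (mit (ms0 (Sing E) α D (muC e m c) : MS k H _) q b ix z ρ N).V,
      (∀ x ∈ (mit (ms0 (Sing E) α D (muC e m c) : MS k H _) q b ix z ρ N).Q,
        W x ∈ (mit (ms0 (Sing E) α D (muC e m c) : MS k H _) q b ix z ρ N).Q) ∧
      (∀ i, ∀ x ∈ (mit (ms0 (Sing E) α D (muC e m c) : MS k H _) q b ix z ρ N).G i,
        W x ∈ (mit (ms0 (Sing E) α D (muC e m c) : MS k H _) q b ix z ρ N).G (i + 1)) ∧
      ∀ x, (mit (ms0 (Sing E) α D (muC e m c) : MS k H _) q b ix z ρ N).sg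
          ((mit (ms0 (Sing E) α D (muC e m c) : MS k H _) q b ix z ρ N).Z V
            ((mit (ms0 (Sing E) α D (muC e m c) : MS k H _) q b ix z ρ N).Ξ x)) +
        (mit (ms0 (Sing E) α D (muC e m c) : MS k H _) q b ix z ρ N).Ξ
          ((mit (ms0 (Sing E) α D (muC e m c) : MS k H _) q b ix z ρ N).sg
            ((mit (ms0 (Sing E) α D (muC e m c) : MS k H _) q b ix z ρ N).Z V x)) =
        x + (mit (ms0 (Sing E) α D (muC e m c) : MS k H _) q b ix z ρ N).δ (W x) +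
          W ((mit (ms0 (Sing E) α D (muC e m c) : MS k H _) q b ix z ρ N).δ x)

theorem sCl5 (hXc1 : S_Xc1) (hRho : S_Rho) (hRelV : S_RelV) (hMuA : S_MuA) : S_Cl5 := by
  intro e he E _ _ v m hA B hB0 hB1 n hn hE c hc hbc w hw k _ H _ α h1 hα hmα D hD q b ix z ρ hρ1
    hρ hb N V hV hV' hbV hVc
  obtain ⟨ma1, ma2, -⟩ := hMuA e he ℤ (Sing E) (SingMul m) n hn c hc hbc
  obtain ⟨s, s1, s2, s3, s4⟩ := hRho ℤ (Sing E) (vtx v) n hn.pos hE.1 hE.2
  have hPc := c5Pc α (vtx v) n s1 s3 s4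
  have hF : (fs0 (Sing E) α).OK := sFS0 H (Sing E) α h1 hα
  obtain ⟨hM, hG, -, -⟩ := sMS0 sOpN hXc1 k H (Sing E) α h1 hα D hD (muC e m c) n hn ma1 ma2 hmα
  obtain ⟨v0, hv0⟩ : ∃ v0 : Ch ℤ (Sing E) →ₗ[ℤ] ℤ,
      v0 = vtM q ix ρ (F := fs0 (Sing E) α) N V := ⟨_, rfl⟩
  -- the vertex component
  have v0d : ∀ i : ℕ, (i : ℤ) ≠ n → ∀ y ∈ gr ℤ (Sing E) i, v0 y = 0 := by
    rw [hv0]
    exact vtM_mem (q := q) (ix := ix) (ρ := ρ) N V hV
  have v0c : v0 c = 1 := by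
    rw [hv0]
    exact hVc
  have v0b : ∀ y, v0 (bd ℤ (Sing E) y) = 0 := by
    have h2 := vtM_cst (q := q) (ix := ix) (ρ := ρ) N _ hbV
    rw [vtM_bd] at h2
    obtain ⟨r, hr⟩ := AddSubgroup.mem_zmultiples_iff.1 h2
    have hr' : r • aug ℤ (Sing E) = v0 ∘ₗ bd ℤ (Sing E) := by
      refine Eq.trans hr ?_
      rw [hv0]
      rfl
    intro y
    have e1 : v0 ∘ₗ bd ℤ (Sing E) = 0 := ch_ext fun i σ => by
      cases i with
      | zero =>
        rw [LinearMap.comp_apply, bd_sx_zero, map_zero]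
        rfl
      | succ i =>
        rw [← hr', LinearMap.smul_apply, aug_sx_succ, smul_zero]
        rfl
    exact LinearMap.congr_fun e1 y
  set u : Ch ℤ (Sing E) →ₗ[ℤ] ℤ := v0 ∘ₗ piC s with hu
  have hun : Sup n u := by
    intro i hi y hy
    exact v0d i (by exact_mod_cast hi) _ (piC_gr s1 hy)
  have hub : ∀ y, u (bd ℤ (Sing E) y) = 0 := by
    intro y
    rw [hu, LinearMap.comp_apply, piC_apply, bd_bd, map_zero, sub_zero, map_sub, v0b, v0b,
      sub_zero]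
  have huc : u c = 1 := by
    rw [hu, LinearMap.comp_apply, piC_apply, hbc, map_zero, sub_zero, map_sub, v0b, v0c, sub_zero]
  obtain ⟨r1, r2, r3, r4, r5, -, κ, hκ, -⟩ := hRelV e he ℤ E v m hA B hB0 hB1 n hn c hc hbc u hun
    hub huc w hw
  have hP : ∀ i, ∀ y ∈ gr ℤ (Sing E) i,
      (cap u ∘ₗ muC e m c + muC e m c ∘ₗ cap u) y ∈ gr ℤ (Sing E) i := by
    intro i y hy
    refine Submodule.add_mem _ (r4 i _ (ma2 i y hy)) ?_
    by_cases hin : i < n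
    · have h0 : cap u y = 0 := r5 i hin y hy
      rw [LinearMap.comp_apply, h0, map_zero]
      exact Submodule.zero_mem _
    · obtain ⟨j, rfl⟩ := Nat.exists_eq_add_of_le' (not_lt.1 hin)
      exact ma2 j _ (r4 j y hy)
  have hrel : ∀ y, (cap u ∘ₗ muC e m c + muC e m c ∘ₗ cap u) y =
      y + (bd ℤ (Sing E) (κ y) + κ (bd ℤ (Sing E) y)) := by
    intro y
    rw [← hκ y]
    exact add_comm _ _
  have hOd := c5H (k := k) α D (a := muC e m c) (κ := trc1 κ) hn hun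
    (fun i y hy => by
      rw [trc1_gr κ hy]
      exact pjG_mem _ _) (fun y => trc1_rel hP hrel y)
  have hPu : fcM (piC s) (show Ch ℤ (Sing E) →ₗ[ℤ] ℤ from
      vtM q ix ρ (F := fs0 (Sing E) α) N V) = u := by
    rw [hu, hv0]
    rfl
  have hC : ∀ φ ∈ AddSubgroup.zmultiples (aug ℤ (Sing E)), ∀ x,
      (ms0 (Sing E) α D (muC e m c) : MS k H (fs0 (Sing E) α)).Z φ
        ((ms0 (Sing E) α D (muC e m c) : MS k H (fs0 (Sing E) α)).Ξ x) =
      (ms0 (Sing E) α D (muC e m c) : MS k H (fs0 (Sing E) α)).Ξ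
        ((ms0 (Sing E) α D (muC e m c) : MS k H (fs0 (Sing E) α)).Z φ x) := by
    intro φ hφ x
    obtain ⟨r, rfl⟩ := AddSubgroup.mem_zmultiples_iff.1 hφ
    have hZ : ∀ x, (ms0 (Sing E) α D (muC e m c) : MS k H (fs0 (Sing E) α)).Z
        (aug ℤ (Sing E)) x = x :=
      (sMS0 sOpN hXc1 k H (Sing E) α h1 hα D hD (muC e m c) n hn ma1 ma2 hmα).2.2.2
    have hZr : ∀ x, (ms0 (Sing E) α D (muC e m c) : MS k H (fs0 (Sing E) α)).Z
        (r • aug ℤ (Sing E)) x = r • x := by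
      intro x
      have h2 : (ms0 (Sing E) α D (muC e m c) : MS k H (fs0 (Sing E) α)).Z
          (r • aug ℤ (Sing E)) = r • (ms0 (Sing E) α D (muC e m c) : MS k H (fs0 (Sing E) α)).Z
          (aug ℤ (Sing E)) := map_zsmul _ _ _
      rw [h2, LinearMap.smul_apply, hZ]
    rw [hZr, hZr, map_zsmul]
  refine clfMit (M := (ms0 (Sing E) α D (muC e m c) : MS k H (fs0 (Sing E) α))) (N := (n : ℤ)) hM
    hF q b ix z ρ hρ1 hρ (fun φ _ => hG φ) hPc hC (by omega) N V hV hV' hbV ?_ (opD D (trc1 κ))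
    ?_ ?_ (fun _ _ => trivial)
  · change (fcM (piC s) (show Ch ℤ (Sing E) →ₗ[ℤ] ℤ from
      vtM q ix ρ (F := fs0 (Sing E) α) N V)) ∘ₗ sgC (Sing E) =
      -(fcM (piC s) (show Ch ℤ (Sing E) →ₗ[ℤ] ℤ from vtM q ix ρ (F := fs0 (Sing E) α) N V))
    rw [hPu]
    refine ch_ext fun i σ => ?_
    rw [LinearMap.comp_apply, c5_sg_sx, map_smul, LinearMap.neg_apply]
    by_cases hi : i = n
    · subst hi
      rw [hn.neg_one_pow, neg_one_smul]
    · rw [hun i hi _ (sx_mem_gr ℤ σ), smul_zero, neg_zero]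
  · have e2 : u = fcM (piC s) (vtM q ix ρ (F := fs0 (Sing E) α) N V) := hPu.symm
    rw [e2] at hOd
    exact hOd
  · intro i x hx
    exact opD_deg D (e := 1) (fun j y hy => by
      rw [trc1_gr κ hy]
      exact pjG_mem _ _) i x hx

end HRx
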