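import Pool.Agent.Lib.MP_181146_gt.HR.DefsC
import Pool.Agent.Lib.MP_181146_gt.HP.DefsP

/-!
# Project HR: the circle construction

`FS H`: functionals (on a differential module with an action of the group `H`).  `MS k H F`: a module
`V` over `k` with an odd operator `δ`, the sign operator `sg`, operators `Y i` of degree `-2`,
operators `Z φ` for the functionals `φ`, degrees `G`, a submodule `Q`, an odd operator `Ξ` and an
action `A` of `H`.  `circ`: the product with one circle (pairs of functions on `ℤ`); `fit`, `mit`: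
the iterated constructions.
-/

set_option autoImplicit false
set_option linter.unusedVariables false

namespace HRx

open HEp HPx

/-! ## A. Functionals -/

/-- Functionals. -/
structure FS (H : Type) where
  Φ : Type
  [ac : AddCommGroup Φ]
  tw : Φ →+ Φ
  bd : Φ →+ Φ
  tr : H → Φ →+ Φ
  Dg : ℤ → AddSubgroup Φ
  Pr : AddSubgroup Φ

attribute [instance] FS.ac

/-- The shifted family `0, h 0, h 1, …`. -/
def prv {X : Type} [Zero X] (h : ℕ → X) : ℕ → X
  | 0 => 0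
  | j + 1 => h j

/-- Pairs of families `φ.1 j c`, `φ.2 j c` of functionals: the functionals on the product with the
periodic resolution, `φ.1 j c` on `x^c t_j`, `φ.2 j c` on `x^c e t_j`. -/
abbrev CF (Φ : Type) : Type := (ℕ → ℤ → Φ) × (ℕ → ℤ → Φ)

section

variable {Φ : Type} [AddCommGroup Φ]

/-- Composition with the sign operator. -/
def cfT (tw : Φ →+ Φ) : CF Φ →+ CF Φ :=
  AddMonoidHom.mk' (fun φ => (fun j c => tw (φ.1 j c), fun j c => -tw (φ.2 j c))) (by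
    intro φ ψ
    refine Prod.ext ?_ ?_
    · funext j c
      exact tw.map_add _ _
    · funext j c
      change -tw (φ.2 j c + ψ.2 j c) = -tw (φ.2 j c) + -tw (ψ.2 j c)
      rw [tw.map_add, neg_add])

/-- Composition with the differential, `q` the period. -/
def cfB (q : ℕ) (tw bd : Φ →+ Φ) : CF Φ →+ CF Φ :=
  AddMonoidHom.mk' (fun φ => (fun j c => bd (φ.1 j c) +
      prv (fun j => ∑ a ∈ Finset.range q, tw (φ.2 j (c + a))) j,
    fun j c => bd (φ.2 j c) + (tw (φ.1 j (c + 1)) - tw (φ.1 j c)))) (by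
    intro φ ψ
    refine Prod.ext ?_ ?_
    · funext j c
      cases j with
      | zero =>
        change bd (φ.1 0 c + ψ.1 0 c) + 0 = bd (φ.1 0 c) + 0 + (bd (ψ.1 0 c) + 0)
        rw [bd.map_add, add_zero, add_zero, add_zero]
      | succ j =>
        change bd (φ.1 (j + 1) c + ψ.1 (j + 1) c) +
          ∑ a ∈ Finset.range q, tw (φ.2 j (c + a) + ψ.2 j (c + a)) =
          bd (φ.1 (j + 1) c) + ∑ a ∈ Finset.range q, tw (φ.2 j (c + a)) +
          (bd (ψ.1 (j + 1) c) + ∑ a ∈ Finset.range q, tw (ψ.2 j (c + a)))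
        simp only [map_add, Finset.sum_add_distrib]
        abel
    · funext j c
      change bd (φ.2 j c + ψ.2 j c) + (tw (φ.1 j (c + 1) + ψ.1 j (c + 1)) -
        tw (φ.1 j c + ψ.1 j c)) = bd (φ.2 j c) + (tw (φ.1 j (c + 1)) - tw (φ.1 j c)) +
        (bd (ψ.2 j c) + (tw (ψ.1 j (c + 1)) - tw (ψ.1 j c)))
      simp only [map_add]
      abel)

/-- Transport by a map `tr` and a translation by `r`. -/
def cfR (tr : Φ →+ Φ) (r : ℤ) : CF Φ →+ CF Φ :=
  AddMonoidHom.mk' (fun φ => (fun j c => tr (φ.1 j (c + r)), fun j c => tr (φ.2 j (c + r)))) (by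
    intro φ ψ
    refine Prod.ext ?_ ?_
    · funext j c
      exact tr.map_add _ _
    · funext j c
      exact tr.map_add _ _)

end

/-- Functionals on the product with the periodic resolution of period `q`; `ρ h` is the rotation
number of `h`. -/
def FS.circ {H : Type} (F : FS H) (q : ℕ) (ρ : H → ℤ) : FS H where
  Φ := CF F.Φ
  tw := cfT F.tw
  bd := cfB q F.tw F.bd
  tr := fun h => cfR (F.tr h) (ρ h)
  Dg := fun d =>
    { carrier := {φ | ∀ (j : ℕ) (c : ℤ), φ.1 j c ∈ F.Dg (d - 2 * (j : ℤ)) ∧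
        φ.2 j c ∈ F.Dg (d - 2 * (j : ℤ) - 1)}
      add_mem' := fun {φ ψ} h h' j c =>
        ⟨(F.Dg _).add_mem (h j c).1 (h' j c).1, (F.Dg _).add_mem (h j c).2 (h' j c).2⟩
      zero_mem' := fun j c => ⟨(F.Dg _).zero_mem, (F.Dg _).zero_mem⟩
      neg_mem' := fun {φ} h j c => ⟨(F.Dg _).neg_mem (h j c).1, (F.Dg _).neg_mem (h j c).2⟩ }
  Pr :=
    { carrier := {φ | ∀ (j : ℕ) (c : ℤ), φ.1 j c ∈ F.Pr ∧ φ.2 j c ∈ F.Pr ∧ φ.1 j (c + q) = φ.1 j c ∧
        φ.2 j (c + q) = φ.2 j c}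
      add_mem' := fun {φ ψ} h h' j c => by
        obtain ⟨h1, h2, h3, h4⟩ := h j c
        obtain ⟨k1, k2, k3, k4⟩ := h' j c
        refine ⟨F.Pr.add_mem h1 k1, F.Pr.add_mem h2 k2, ?_, ?_⟩
        · change φ.1 j (c + q) + ψ.1 j (c + q) = φ.1 j c + ψ.1 j c
          rw [h3, k3]
        · change φ.2 j (c + q) + ψ.2 j (c + q) = φ.2 j c + ψ.2 j c
          rw [h4, k4]
      zero_mem' := fun j c => ⟨F.Pr.zero_mem, F.Pr.zero_mem, rfl, rfl⟩
      neg_mem' := fun {φ} h j c => by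
        obtain ⟨h1, h2, h3, h4⟩ := h j c
        refine ⟨F.Pr.neg_mem h1, F.Pr.neg_mem h2, ?_, ?_⟩
        · change -φ.1 j (c + q) = -φ.1 j c
          rw [h3]
        · change -φ.2 j (c + q) = -φ.2 j c
          rw [h4] }

/-! ## B. Modules -/

/-- A module with operators. -/
structure MS (k : Type) [CommRing k] (H : Type) (F : FS H) where
  V : Type
  [ac : AddCommGroup V]
  [mo : Module k V]
  δ : Module.End k V
  sg : Module.End k V
  Y : ℕ → Module.End k V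
  Z : F.Φ →+ Module.End k V
  G : ℤ → Submodule k V
  Q : Submodule k V
  Ξ : Module.End k V
  A : H → Module.End k V

attribute [instance] MS.ac MS.mo

/-- Pairs of functions on `ℤ`: `f.1 c` is the coefficient of `x^c`, `f.2 c` the coefficient of
`x^c e`. -/
abbrev Cir (V : Type) : Type := (ℤ → V) × (ℤ → V)

section

variable {k : Type} [CommRing k] {V : Type} [AddCommGroup V] [Module k V]

/-- An operator, applied to both components. -/
def cirM (A : Module.End k V) : Module.End k (Cir V) where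
  toFun f := (fun c => A (f.1 c), fun c => A (f.2 c))
  map_add' f g := by
    refine Prod.ext ?_ ?_ <;>
    · funext c
      exact A.map_add _ _
  map_smul' r f := by
    refine Prod.ext ?_ ?_ <;>
    · funext c
      exact A.map_smul _ _

/-- The sign operator. -/
def cirS (sg : Module.End k V) : Module.End k (Cir V) where
  toFun f := (fun c => sg (f.1 c), fun c => -sg (f.2 c))
  map_add' f g := by
    refine Prod.ext ?_ ?_
    · funext c
      exact sg.map_add _ _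
    · funext c
      change -sg (f.2 c + g.2 c) = -sg (f.2 c) + -sg (g.2 c)
      rw [map_add, neg_add]
  map_smul' r f := by
    refine Prod.ext ?_ ?_
    · funext c
      exact sg.map_smul _ _
    · funext c
      change -sg (r • f.2 c) = r • -sg (f.2 c)
      rw [map_smul, smul_neg]

/-- The differential, `q` the period. -/
def cirD (q : ℕ) (δ sg Y : Module.End k V) : Module.End k (Cir V) where
  toFun f := (fun c => δ (f.1 c) + (sg (f.2 (c - 1)) - sg (f.2 c)),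
    fun c => δ (f.2 c) + ∑ a ∈ Finset.range q, Y (sg (f.1 (c - a))))
  map_add' f g := by
    refine Prod.ext ?_ ?_
    · funext c
      change δ (f.1 c + g.1 c) + (sg (f.2 (c - 1) + g.2 (c - 1)) - sg (f.2 c + g.2 c)) =
        δ (f.1 c) + (sg (f.2 (c - 1)) - sg (f.2 c)) +
          (δ (g.1 c) + (sg (g.2 (c - 1)) - sg (g.2 c)))
      simp only [map_add]
      abel
    · funext c
      change δ (f.2 c + g.2 c) + ∑ a ∈ Finset.range q, Y (sg (f.1 (c - a) + g.1 (c - a))) =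
        δ (f.2 c) + ∑ a ∈ Finset.range q, Y (sg (f.1 (c - a))) +
          (δ (g.2 c) + ∑ a ∈ Finset.range q, Y (sg (g.1 (c - a))))
      simp only [map_add, Finset.sum_add_distrib]
      abel
  map_smul' r f := by
    refine Prod.ext ?_ ?_
    · funext c
      change δ (r • f.1 c) + (sg (r • f.2 (c - 1)) - sg (r • f.2 c)) =
        r • (δ (f.1 c) + (sg (f.2 (c - 1)) - sg (f.2 c)))
      simp only [map_smul, smul_add, smul_sub]
    · funext c
      change δ (r • f.2 c) + ∑ a ∈ Finset.range q, Y (sg (r • f.1 (c - a))) =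
        r • (δ (f.2 c) + ∑ a ∈ Finset.range q, Y (sg (f.1 (c - a))))
      simp only [map_smul, smul_add, Finset.smul_sum]

/-- The operator of a functional (Cartan-Eilenberg diagonal), `q` the period, `b` a bound for the
exponents of `Y`. -/
def cirXl {Φ : Type} [AddCommGroup Φ] (q b : ℕ) (Y : Module.End k V) (Z : Φ →+ Module.End k V)
    (tw : Φ →+ Φ) (φ : CF Φ) : Module.End k (Cir V) where
  toFun f :=
    (fun c => ∑ j ∈ Finset.range (b + 1),
      (Z (φ.1 j c) ((Y ^ j) (f.1 c)) + Z (φ.2 j c) ((Y ^ j) (f.2 c))),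
    fun c => ∑ j ∈ Finset.range (b + 1),
      (Z (tw (φ.1 j (c + 1))) ((Y ^ j) (f.2 c)) +
        ∑ s ∈ Finset.range q, ∑ a ∈ Finset.range s,
          Z (tw (φ.2 j (c - a + s))) ((Y ^ (j + 1)) (f.1 (c - a)))))
  map_add' f g := by
    refine Prod.ext ?_ ?_
    · funext c
      change ∑ j ∈ Finset.range (b + 1),
        (Z (φ.1 j c) ((Y ^ j) (f.1 c + g.1 c)) + Z (φ.2 j c) ((Y ^ j) (f.2 c + g.2 c))) =
        ∑ j ∈ Finset.range (b + 1),
          (Z (φ.1 j c) ((Y ^ j) (f.1 c)) + Z (φ.2 j c) ((Y ^ j) (f.2 c))) +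
        ∑ j ∈ Finset.range (b + 1),
          (Z (φ.1 j c) ((Y ^ j) (g.1 c)) + Z (φ.2 j c) ((Y ^ j) (g.2 c)))
      rw [← Finset.sum_add_distrib]
      refine Finset.sum_congr rfl fun j _ => ?_
      simp only [map_add]
      abel
    · funext c
      change ∑ j ∈ Finset.range (b + 1),
        (Z (tw (φ.1 j (c + 1))) ((Y ^ j) (f.2 c + g.2 c)) +
        ∑ s ∈ Finset.range q, ∑ a ∈ Finset.range s,
          Z (tw (φ.2 j (c - a + s))) ((Y ^ (j + 1)) (f.1 (c - a) + g.1 (c - a)))) =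
        ∑ j ∈ Finset.range (b + 1),
          (Z (tw (φ.1 j (c + 1))) ((Y ^ j) (f.2 c)) +
          ∑ s ∈ Finset.range q, ∑ a ∈ Finset.range s,
            Z (tw (φ.2 j (c - a + s))) ((Y ^ (j + 1)) (f.1 (c - a)))) +
        ∑ j ∈ Finset.range (b + 1),
          (Z (tw (φ.1 j (c + 1))) ((Y ^ j) (g.2 c)) +
          ∑ s ∈ Finset.range q, ∑ a ∈ Finset.range s,
            Z (tw (φ.2 j (c - a + s))) ((Y ^ (j + 1)) (g.1 (c - a))))
      rw [← Finset.sum_add_distrib]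
      refine Finset.sum_congr rfl fun j _ => ?_
      simp only [map_add, Finset.sum_add_distrib]
      abel
  map_smul' r f := by
    refine Prod.ext ?_ ?_
    · funext c
      change ∑ j ∈ Finset.range (b + 1),
        (Z (φ.1 j c) ((Y ^ j) (r • f.1 c)) + Z (φ.2 j c) ((Y ^ j) (r • f.2 c))) =
        r • ∑ j ∈ Finset.range (b + 1),
          (Z (φ.1 j c) ((Y ^ j) (f.1 c)) + Z (φ.2 j c) ((Y ^ j) (f.2 c)))
      rw [Finset.smul_sum]
      refine Finset.sum_congr rfl fun j _ => ?_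
      simp only [map_smul, smul_add]
    · funext c
      change ∑ j ∈ Finset.range (b + 1),
        (Z (tw (φ.1 j (c + 1))) ((Y ^ j) (r • f.2 c)) +
        ∑ s ∈ Finset.range q, ∑ a ∈ Finset.range s,
          Z (tw (φ.2 j (c - a + s))) ((Y ^ (j + 1)) (r • f.1 (c - a)))) =
        r • ∑ j ∈ Finset.range (b + 1),
          (Z (tw (φ.1 j (c + 1))) ((Y ^ j) (f.2 c)) +
          ∑ s ∈ Finset.range q, ∑ a ∈ Finset.range s,
            Z (tw (φ.2 j (c - a + s))) ((Y ^ (j + 1)) (f.1 (c - a))))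
      rw [Finset.smul_sum]
      refine Finset.sum_congr rfl fun j _ => ?_
      simp only [map_smul, smul_add, Finset.smul_sum]

lemma cirXl_add {Φ : Type} [AddCommGroup Φ] (q b : ℕ) (Y : Module.End k V)
    (Z : Φ →+ Module.End k V) (tw : Φ →+ Φ) (φ ψ : CF Φ) :
    cirXl q b Y Z tw (φ + ψ) = cirXl q b Y Z tw φ + cirXl q b Y Z tw ψ := by
  apply LinearMap.ext
  intro f
  refine Prod.ext ?_ ?_
  · funext c
    change ∑ j ∈ Finset.range (b + 1),
      (Z (φ.1 j c + ψ.1 j c) ((Y ^ j) (f.1 c)) + Z (φ.2 j c + ψ.2 j c) ((Y ^ j) (f.2 c))) =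
      ∑ j ∈ Finset.range (b + 1),
        (Z (φ.1 j c) ((Y ^ j) (f.1 c)) + Z (φ.2 j c) ((Y ^ j) (f.2 c))) +
      ∑ j ∈ Finset.range (b + 1),
        (Z (ψ.1 j c) ((Y ^ j) (f.1 c)) + Z (ψ.2 j c) ((Y ^ j) (f.2 c)))
    rw [← Finset.sum_add_distrib]
    refine Finset.sum_congr rfl fun j _ => ?_
    simp only [map_add, LinearMap.add_apply]
    abel
  · funext c
    change ∑ j ∈ Finset.range (b + 1),
      (Z (tw (φ.1 j (c + 1) + ψ.1 j (c + 1))) ((Y ^ j) (f.2 c)) +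
      ∑ s ∈ Finset.range q, ∑ a ∈ Finset.range s,
        Z (tw (φ.2 j (c - a + s) + ψ.2 j (c - a + s))) ((Y ^ (j + 1)) (f.1 (c - a)))) =
      ∑ j ∈ Finset.range (b + 1),
        (Z (tw (φ.1 j (c + 1))) ((Y ^ j) (f.2 c)) +
        ∑ s ∈ Finset.range q, ∑ a ∈ Finset.range s,
          Z (tw (φ.2 j (c - a + s))) ((Y ^ (j + 1)) (f.1 (c - a)))) +
      ∑ j ∈ Finset.range (b + 1),
        (Z (tw (ψ.1 j (c + 1))) ((Y ^ j) (f.2 c)) +
        ∑ s ∈ Finset.range q, ∑ a ∈ Finset.range s,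
          Z (tw (ψ.2 j (c - a + s))) ((Y ^ (j + 1)) (f.1 (c - a))))
    rw [← Finset.sum_add_distrib]
    refine Finset.sum_congr rfl fun j _ => ?_
    simp only [map_add, LinearMap.add_apply, Finset.sum_add_distrib]
    abel

/-- The operators of the functionals. -/
def cirX {Φ : Type} [AddCommGroup Φ] (q b : ℕ) (Y : Module.End k V) (Z : Φ →+ Module.End k V)
    (tw : Φ →+ Φ) : CF Φ →+ Module.End k (Cir V) :=
  AddMonoidHom.mk' (cirXl q b Y Z tw) (cirXl_add q b Y Z tw)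

/-- An operator and a translation by `r`. -/
def cirA (A : Module.End k V) (r : ℤ) : Module.End k (Cir V) where
  toFun f := (fun c => A (f.1 (c - r)), fun c => A (f.2 (c - r)))
  map_add' f g := by
    refine Prod.ext ?_ ?_ <;>
    · funext c
      exact A.map_add _ _
  map_smul' r f := by
    refine Prod.ext ?_ ?_ <;>
    · funext c
      exact A.map_smul _ _

/-- Degrees: the component `f.2` has degree one less. -/
def cirG (G : ℤ → Submodule k V) (i : ℤ) : Submodule k (Cir V) where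
  carrier := {f | ∀ c, f.1 c ∈ G i ∧ f.2 c ∈ G (i - 1)}
  add_mem' := fun {f g} hf hg c =>
    ⟨(G i).add_mem (hf c).1 (hg c).1, (G (i - 1)).add_mem (hf c).2 (hg c).2⟩
  zero_mem' := fun c => ⟨(G i).zero_mem, (G (i - 1)).zero_mem⟩
  smul_mem' := fun r f hf c =>
    ⟨(G i).smul_mem r (hf c).1, (G (i - 1)).smul_mem r (hf c).2⟩

/-- Functions with values in `Q` and `f (c - q) = z f c`. -/
def cirQ (q : ℕ) (z : k) (Q : Submodule k V) : Submodule k (Cir V) where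
  carrier := {f | ∀ c, f.1 c ∈ Q ∧ f.2 c ∈ Q ∧ f.1 (c - q) = z • f.1 c ∧ f.2 (c - q) = z • f.2 c}
  add_mem' := fun {f g} hf hg c => by
    obtain ⟨h1, h2, h3, h4⟩ := hf c
    obtain ⟨k1, k2, k3, k4⟩ := hg c
    refine ⟨Q.add_mem h1 k1, Q.add_mem h2 k2, ?_, ?_⟩
    · change f.1 (c - q) + g.1 (c - q) = z • (f.1 c + g.1 c)
      rw [h3, k3, smul_add]
    · change f.2 (c - q) + g.2 (c - q) = z • (f.2 c + g.2 c)
      rw [h4, k4, smul_add]
  zero_mem' := fun c => ⟨Q.zero_mem, Q.zero_mem, (smul_zero z).symm, (smul_zero z).symm⟩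
  smul_mem' := fun r f hf c => by
    obtain ⟨h1, h2, h3, h4⟩ := hf c
    refine ⟨Q.smul_mem r h1, Q.smul_mem r h2, ?_, ?_⟩
    · change r • f.1 (c - q) = z • (r • f.1 c)
      rw [h3, smul_comm]
    · change r • f.2 (c - q) = z • (r • f.2 c)
      rw [h4, smul_comm]

end

/-- The product with a circle, whose characteristic class is the variable `Y i`. -/
def MS.circ {k : Type} [CommRing k] {H : Type} {F : FS H} (M : MS k H F) (q b i : ℕ) (z : k)
    (ρ : H → ℤ) : MS k H (F.circ q ρ) where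
  V := Cir M.V
  δ := cirD q M.δ M.sg (M.Y i)
  sg := cirS M.sg
  Y := fun j => cirM (M.Y j)
  Z := cirX q b (M.Y i) M.Z F.tw
  G := cirG M.G
  Q := cirQ q z M.Q
  Ξ := cirM M.Ξ
  A := fun h => cirA (M.A h) (ρ h)

/-- The iterated functionals; `ix n` is the variable of the circle number `n`. -/
def fit {H : Type} (F : FS H) (q : ℕ) (ix : ℕ → ℕ) (ρ : ℕ → H → ℤ) : ℕ → FS H
  | 0 => F
  | n + 1 => (fit F q ix ρ n).circ q (ρ (ix n))

/-- The iterated circle construction. -/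
def mit {k : Type} [CommRing k] {H : Type} {F : FS H} (M : MS k H F) (q b : ℕ) (ix : ℕ → ℕ)
    (z : ℕ → k) (ρ : ℕ → H → ℤ) : ∀ n : ℕ, MS k H (fit F q ix ρ n)
  | 0 => M
  | n + 1 => (mit M q b ix z ρ n).circ q b (ix n) (z (ix n)) (ρ (ix n))

/-! ## C. Properties -/

/-- Properties of functionals. -/
structure FS.OK {H : Type} [Group H] (F : FS H) : Prop where
  tt : ∀ φ, F.tw (F.tw φ) = φ
  tb : ∀ φ, F.tw (F.bd φ) = -F.bd (F.tw φ)
  rt : ∀ h φ, F.tr h (F.tw φ) = F.tw (F.tr h φ)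
  rb : ∀ h φ, F.tr h (F.bd φ) = F.bd (F.tr h φ)
  r1 : ∀ φ, F.tr 1 φ = φ
  rr : ∀ h h' φ, F.tr (h * h') φ = F.tr h' (F.tr h φ)
  neg : ∀ d, d < 0 → ∀ φ ∈ F.Dg d, φ = 0
  Dt : ∀ d, ∀ φ ∈ F.Dg d, F.tw φ ∈ F.Dg d
  Db : ∀ d, ∀ φ ∈ F.Dg d, F.bd φ ∈ F.Dg (d + 1)
  Dr : ∀ h d, ∀ φ ∈ F.Dg d, F.tr h φ ∈ F.Dg d
  Ds : ∀ d, ∀ φ ∈ F.Dg d, F.tw φ = (d.negOnePow : ℤ) • φ
  Pt : ∀ φ ∈ F.Pr, F.tw φ ∈ F.Pr
  Pb : ∀ φ ∈ F.Pr, F.bd φ ∈ F.Pr
  Pr' : ∀ h, ∀ φ ∈ F.Pr, F.tr h φ ∈ F.Pr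
  bb : ∀ φ ∈ F.Pr, F.bd (F.bd φ) = 0

section

variable {k : Type} [CommRing k] {H : Type} [Group H] {F : FS H}

/-- Properties of modules; `n` is the degree of `Ξ`. -/
structure MS.OK (M : MS k H F) (n : ℤ) : Prop where
  ss : ∀ x, M.sg (M.sg x) = x
  sd : ∀ x, M.sg (M.δ x) = -M.δ (M.sg x)
  Ys : ∀ i x, M.Y i (M.sg x) = M.sg (M.Y i x)
  Yd : ∀ i x, M.Y i (M.δ x) = M.δ (M.Y i x)
  YY : ∀ i j x, M.Y i (M.Y j x) = M.Y j (M.Y i x)
  YZ : ∀ i φ x, M.Y i (M.Z φ x) = M.Z φ (M.Y i x)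
  Zt : ∀ φ x, M.Z (F.tw φ) x = M.sg (M.Z φ (M.sg x))
  Ξd : ∀ x, M.Ξ (M.δ x) = -M.δ (M.Ξ x)
  Ξs : ∀ x, M.Ξ (M.sg x) = -M.sg (M.Ξ x)
  ΞY : ∀ i x, M.Ξ (M.Y i x) = M.Y i (M.Ξ x)
  Ad : ∀ h x, M.A h (M.δ x) = M.δ (M.A h x)
  As : ∀ h x, M.A h (M.sg x) = M.sg (M.A h x)
  AY : ∀ h i x, M.A h (M.Y i x) = M.Y i (M.A h x)
  AΞ : ∀ h x, M.A h (M.Ξ x) = M.Ξ (M.A h x)
  ZA : ∀ h φ x, M.Z φ (M.A h x) = M.A h (M.Z (F.tr h φ) x)
  A1 : ∀ x, M.A 1 x = x
  AA : ∀ h h' x, M.A (h * h') x = M.A h (M.A h' x)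
  Gd : ∀ i, ∀ x ∈ M.G i, M.δ x ∈ M.G (i - 1)
  Gs : ∀ i, ∀ x ∈ M.G i, M.sg x ∈ M.G i
  GY : ∀ l i, ∀ x ∈ M.G i, M.Y l x ∈ M.G (i - 2)
  GZ : ∀ d, ∀ φ ∈ F.Dg d, ∀ i, ∀ x ∈ M.G i, M.Z φ x ∈ M.G (i - d)
  GΞ : ∀ i, ∀ x ∈ M.G i, M.Ξ x ∈ M.G (i + n)
  GA : ∀ h i, ∀ x ∈ M.G i, M.A h x ∈ M.G i
  G0 : ∀ i, i < 0 → ∀ x ∈ M.G i, x = 0
  Gp : ∀ i, ∀ x ∈ M.G i, M.sg x = (i.negOnePow : ℤ) • x
  Qd : ∀ x ∈ M.Q, M.δ x ∈ M.Q
  Qs : ∀ x ∈ M.Q, M.sg x ∈ M.Q
  QY : ∀ l, ∀ x ∈ M.Q, M.Y l x ∈ M.Q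
  QZ : ∀ φ ∈ F.Pr, ∀ x ∈ M.Q, M.Z φ x ∈ M.Q
  QΞ : ∀ x ∈ M.Q, M.Ξ x ∈ M.Q
  QA : ∀ h, ∀ x ∈ M.Q, M.A h x ∈ M.Q

/-- `Z φ` is compatible with the differentials. -/
def MS.Good (M : MS k H F) (φ : F.Φ) : Prop :=
  ∀ x, M.Z φ (M.δ x) = M.δ (M.Z φ x) + M.sg (M.Z (F.bd φ) x)

/-- Maps compatible with all operators (additive, the coefficient rings may be different). -/
structure MHom {k' : Type} [CommRing k'] (M : MS k H F) (M' : MS k' H F) where
  f : M.V →+ M'.V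
  fd : ∀ x, f (M.δ x) = M'.δ (f x)
  fs : ∀ x, f (M.sg x) = M'.sg (f x)
  fY : ∀ i x, f (M.Y i x) = M'.Y i (f x)
  fZ : ∀ φ x, f (M.Z φ x) = M'.Z φ (f x)
  fΞ : ∀ x, f (M.Ξ x) = M'.Ξ (f x)
  fA : ∀ h x, f (M.A h x) = M'.A h (f x)
  fG : ∀ i, ∀ x ∈ M.G i, f x ∈ M'.G i

/-- A map, applied to both components. -/
def cirF {V V' : Type} [AddCommGroup V] [AddCommGroup V'] (f : V →+ V') : Cir V →+ Cir V' where
  toFun x := (fun c => f (x.1 c), fun c => f (x.2 c))
  map_zero' := by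
    refine Prod.ext ?_ ?_ <;>
    · funext c
      exact f.map_zero
  map_add' x y := by
    refine Prod.ext ?_ ?_ <;>
    · funext c
      exact f.map_add _ _

end

/-- The iteration of `cirF`. -/
def mitF {k k' : Type} [CommRing k] [CommRing k'] {H : Type} {F : FS H} {M : MS k H F}
    {M' : MS k' H F} (f : M.V →+ M'.V) (q b : ℕ) (ix : ℕ → ℕ) (z : ℕ → k) (z' : ℕ → k')
    (ρ : ℕ → H → ℤ) : ∀ n : ℕ, (mit M q b ix z ρ n).V →+ (mit M' q b ix z' ρ n).V
  | 0 => f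
  | n + 1 => cirF (mitF f q b ix z z' ρ n)

/-! ## D. The functional `κ(y) ε` and the operator `κ(Y)` -/

/-- The functional with coefficients `κ a` on `∏ t_i^(a_i)`, `ε` the augmentation. -/
def Kf {H : Type} {F : FS H} (ε : F.Φ) (q : ℕ) (ix : ℕ → ℕ) (ρ : ℕ → H → ℤ) :
    ∀ n : ℕ, ((ℕ → ℕ) → ℤ) → (fit F q ix ρ n).Φ
  | 0, κ => κ 0 • ε
  | n + 1, κ => (fun j _ => Kf ε q ix ρ n (fun a => κ (Function.update a (ix n) j)), fun _ _ => 0)

/-- The operator `∑ κ a ∏ Y_i^(a_i)`, for the variables `ix 0, …, ix (n - 1)` and exponents `≤ b`. -/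
def Ko {k : Type} [CommRing k] {V : Type} [AddCommGroup V] [Module k V] (Y : ℕ → Module.End k V)
    (b : ℕ) (ix : ℕ → ℕ) : ∀ n : ℕ, ((ℕ → ℕ) → ℤ) → Module.End k V
  | 0, κ => κ 0 • 1
  | n + 1, κ => ∑ j ∈ Finset.range (b + 1),
      Ko Y b ix n (fun a => κ (Function.update a (ix n) j)) * Y (ix n) ^ j

/-! ## E. The base: chains of a simplicial set with coefficients -/

/-- Graded modules with operators of degree `-1` (`D j` is placed in degree `2 j`). -/
structure DM (k : Type) [CommRing k] where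
  D : ℕ → Type
  [ac : ∀ j, AddCommGroup (D j)]
  [mo : ∀ j, Module k (D j)]
  Y : ℕ → ∀ j, D (j + 1) →ₗ[k] D j

attribute [instance] DM.ac DM.mo

section

variable {k : Type} [CommRing k]

/-- The operators commute. -/
def DM.Comm (D : DM k) : Prop :=
  ∀ i i' j x, D.Y i j (D.Y i' (j + 1) x) = D.Y i' j (D.Y i (j + 1) x)

/-- The chains with values in `N`. -/
abbrev ChN (K : SS) (N : Type) [Zero N] : Type := (Σ n, K.K n) →₀ N

/-- An endomorphism of the chains, on the chains with values in `N`. -/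
noncomputable def opN {K : SS} (N : Type) [AddCommGroup N] [Module k N]
    (A : Ch ℤ K →ₗ[ℤ] Ch ℤ K) : ChN K N →ₗ[k] ChN K N :=
  Finsupp.lsum k (fun x => (A (Finsupp.single x 1)).sum (fun y r => r • Finsupp.lsingle (R := k) y))

/-- The chains with values in `D`. -/
abbrev ChD (K : SS) (D : DM k) : Type := ∀ j : ℕ, ChN K (D.D j)

/-- An endomorphism of the chains, on the chains with values in `D`. -/
noncomputable def opD {K : SS} (D : DM k) (A : Ch ℤ K →ₗ[ℤ] Ch ℤ K) : Module.End k (ChD K D) :=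
  LinearMap.pi (fun j => opN (D.D j) A ∘ₗ LinearMap.proj j)

/-- The sign operator of the chains. -/
noncomputable def sgC (K : SS) : Ch ℤ K →ₗ[ℤ] Ch ℤ K := LinearMap.id - (2 : ℤ) • od ℤ K

/-- The operator of the functional `φ` on the chains: `cap φ` for `φ` even, `sgC ∘ cap φ` for
`φ` odd. -/
noncomputable def Xc {K : SS} (φ : Ch ℤ K →ₗ[ℤ] ℤ) : Ch ℤ K →ₗ[ℤ] Ch ℤ K :=
  cap (φ ∘ₗ (LinearMap.id - od ℤ K)) + sgC K ∘ₗ cap (φ ∘ₗ od ℤ K)

lemma lx_add {K : SS} (u v : Ch ℤ K →ₗ[ℤ] ℤ) (z : TensorProduct ℤ (Ch ℤ K) (Ch ℤ K)) :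
    lx (u + v) z = lx u z + lx v z := by
  induction z using TensorProduct.induction_on with
  | zero => simp only [map_zero, add_zero]
  | add a b ha hb =>
    rw [map_add, map_add, map_add, ha, hb]
    abel
  | tmul a b => rw [lx_tmul, lx_tmul, lx_tmul, LinearMap.add_apply, add_smul]

lemma Xc_add {K : SS} (φ ψ : Ch ℤ K →ₗ[ℤ] ℤ) : Xc (φ + ψ) = Xc φ + Xc ψ := by
  apply LinearMap.ext
  intro x
  simp only [Xc, cap, LinearMap.add_apply, LinearMap.comp_apply]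
  rw [LinearMap.add_comp, LinearMap.add_comp, lx_add, lx_add, map_add]
  abel

lemma opN_add {K : SS} (N : Type) [AddCommGroup N] [Module k N] (A B : Ch ℤ K →ₗ[ℤ] Ch ℤ K) :
    (opN N (A + B) : ChN K N →ₗ[k] ChN K N) = opN N A + opN N B := by
  apply Finsupp.lhom_ext'
  intro x
  apply LinearMap.ext
  intro d
  simp only [opN, LinearMap.comp_apply, Finsupp.lsingle_apply, Finsupp.lsum_single,
    LinearMap.add_apply]
  rw [Finsupp.sum_add_index' (by intro y; exact zero_smul _ _) (by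
    intro y r s; exact add_smul _ _ _), LinearMap.add_apply]

/-- The operators of the functionals on the chains with values in `D`. -/
noncomputable def zD (K : SS) (D : DM k) : (Ch ℤ K →ₗ[ℤ] ℤ) →+ Module.End k (ChD K D) :=
  AddMonoidHom.mk' (fun φ => opD D (Xc φ)) (by
    intro φ ψ
    rw [Xc_add]
    apply LinearMap.ext
    intro h
    funext j
    change opN (D.D j) (Xc φ + Xc ψ) (h j) = opN (D.D j) (Xc φ) (h j) + opN (D.D j) (Xc ψ) (h j)
    rw [opN_add]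
    rfl)

/-- The functionals on the chains; `α h` is the action of `h`. -/
noncomputable def fs0 {H : Type} (K : SS) (α : H → SSHom K K) : FS H where
  Φ := Ch ℤ K →ₗ[ℤ] ℤ
  tw := AddMonoidHom.mk' (fun φ => φ ∘ₗ sgC K) (fun _ _ => rfl)
  bd := AddMonoidHom.mk' (fun φ => φ ∘ₗ bd ℤ K) (fun _ _ => rfl)
  tr := fun h => AddMonoidHom.mk' (fun φ => φ ∘ₗ cmap ℤ (α h)) (fun _ _ => rfl)
  Dg := fun d =>
    { carrier := {φ | ∀ i : ℕ, (i : ℤ) ≠ d → ∀ y ∈ gr ℤ K i, φ y = 0}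
      add_mem' := fun {φ ψ} h h' i hi y hy => by
        change φ y + ψ y = 0
        rw [h i hi y hy, h' i hi y hy, add_zero]
      zero_mem' := fun i _ y _ => rfl
      neg_mem' := fun {φ} h i hi y hy => by
        change -φ y = 0
        rw [h i hi y hy, neg_zero] }
  Pr := ⊤

/-- The degrees of the chains with values in `D`. -/
def grD (K : SS) (D : DM k) (i : ℤ) : Submodule k (ChD K D) where
  carrier := {h | ∀ (j : ℕ) (x : Σ n, K.K n), (x.1 : ℤ) + 2 * (j : ℤ) ≠ i → h j x = 0}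
  add_mem' := fun {f g} hf hg j x hx => by
    change f j x + g j x = 0
    rw [hf j x hx, hg j x hx, add_zero]
  zero_mem' := fun j x _ => rfl
  smul_mem' := fun r f hf j x hx => by
    change r • f j x = 0
    rw [hf j x hx, smul_zero]

/-- The operator `Y i` on the chains with values in `D`. -/
noncomputable def yD (K : SS) (D : DM k) (i : ℕ) : Module.End k (ChD K D) :=
  LinearMap.pi (fun j => Finsupp.mapRange.linearMap (D.Y i j) ∘ₗ LinearMap.proj (j + 1))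

/-- The base: chains with values in `D`; `a` is the operator `Ξ` on the chains. -/
noncomputable def ms0 {H : Type} (K : SS) (α : H → SSHom K K) (D : DM k)
    (a : Ch ℤ K →ₗ[ℤ] Ch ℤ K) : MS k H (fs0 K α) where
  V := ChD K D
  δ := opD D (bd ℤ K)
  sg := opD D (sgC K)
  Y := yD K D
  Z := zD K D
  G := grD K D
  Q := ⊤
  Ξ := opD D a
  A := fun h => opD D (cmap ℤ (α h))

end

end HRx
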