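import Pool.Agent.Lib.MP_181146_gt.HR.AllB
import Pool.Agent.Lib.MP_181146_gt.HA.SpecA5
import Pool.Agent.Lib.MP_181146_gt.HA.DefsP

/-!
# Project HR, part S: the complexes over the group rings

`g.Qc D h`: the complex `Q(k, 1, D)` over `k[G]`, `g.Cc D h` its Clifford pair, `g.Tc D h` the telescope.
`g.QS z hz D h`: the complex `Q(F⟦X⟧, z, D)` over the twisted group ring, `g.CS z hz D h` its Clifford
pair.  `h` is the list of the properties which are needed for the definition (all proofs of a property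
are equal); they are proved here: `GD.p0`, `GD.p1`, `GD.pS`.
`chK g k`: the chains of `K` with coefficients in `k` over `k[G]`.
`HPk g F`: the modules needed for the class of one linear module.
-/

set_option autoImplicit false
set_option linter.unusedVariables false

namespace HRx

open HEp HPx HBy HAx

section

variable {G : Type} [CommGroup G] (g : GD G) {k : Type} [CommRing k] (D : DM k)

/-- The module with operators for `z = 1`. -/
noncomputable abbrev GD.N : MS k (Gam g.q g.ψ) g.F := g.M (fun _ => (1 : k)) D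

/-- `κ(Y) = 0` on `D`. -/
def GD.K0 : Prop := Ko D.tY g.b (rv g.m) g.m g.κ = 0

/-- The operator `κ(Y)` on the sequences. -/
noncomputable def GD.kY : Module.End k D.Sq := Ko D.tY g.b (rv g.m) g.m g.κ

/-- The properties needed for the complex over the group ring. -/
structure GD.P0 : Prop where
  dif : Dif (g.N D)
  gp : (g.N D).GP (lf g.q g.ψ) (fun _ _ => 1)

/-- The properties needed for the Clifford pair over the group ring. -/
structure GD.P1 : Prop where
  p0 : g.P0 D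
  cl : (g.N D).CL g.V g.n
  ca : (g.N D).CA g.V (lf g.q g.ψ)

variable {D}

lemma GD.fl1 (h : D.Comm) : D.Fl g.m (fun _ => (1 : k)) :=
  ⟨h, fun j x => Finset.sum_eq_zero fun i _ => by rw [sub_self, zero_smul]⟩

theorem GD.p0 (h : D.Comm) : g.P0 D := by
  refine ⟨pDifF G g k _ D (g.fl1 h), ?_⟩
  have h1 := (pGPM G g k (fun _ => (1 : k)) D h).1
  have e : (fun x y => ∏ i : Fin g.m, (1 : k) ^ HHx.carry (g.ψ i) x y) =
      (fun _ _ => (1 : k)) := by
    funext x y
    exact Finset.prod_eq_one fun i _ => one_pow _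
  rw [e] at h1
  exact h1

theorem GD.p1 (h : D.Comm) (hK : g.K0 D) : g.P1 D :=
  ⟨g.p0 h, pCLM G g k _ D (g.fl1 h) hK, (pGPM G g k (fun _ => (1 : k)) D h).2⟩

variable (D)

/-- The complex `Q(k, 1, D)` over `k[G]`. -/
noncomputable def GD.Qc (h : g.P0 D) : GC (MonoidAlgebra k G) := (g.N D).gcG h.dif h.gp

/-- The Clifford pair on `Q(k, 1, D)`, over `k[G]`. -/
noncomputable def GD.Cc (h : g.P1 D) : Clf (g.Qc D h.p0) g.n :=
  (g.N D).clfG h.p0.dif h.cl h.p0.gp h.ca

/-- The telescope of `X Ξ` on `Q(k, 1, D)`. -/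
noncomputable def GD.Tc (h : g.P1 D) : GC (MonoidAlgebra k G) := tel (cE (g.Cc D h))

variable {D} {k' : Type} [CommRing k']

lemma DHom.mc {σ : k →+* k'} {D' : DM k'} (f : DHom σ D D') : MC (g.M0 D) (g.M0 D') (f.ch g.K) := by
  have h := pOpN g.K k
  refine ⟨fun x => ?_, fun x => ?_, fun i x => ?_, fun φ x => ?_, fun x => ?_, fun γ x => ?_⟩
  · funext j
    exact (h (D.D j)).2.2.2.2.2.2 k' (D'.D j) (f.f j) (bd ℤ g.K) (x j)
  · funext j
    exact (h (D.D j)).2.2.2.2.2.2 k' (D'.D j) (f.f j) (sgC g.K) (x j)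
  · funext j
    refine Finsupp.ext fun y => ?_
    exact f.fY i j _
  · funext j
    exact (h (D.D j)).2.2.2.2.2.2 k' (D'.D j) (f.f j) (Xc φ) (x j)
  · funext j
    exact (h (D.D j)).2.2.2.2.2.2 k' (D'.D j) (f.f j) g.a (x j)
  · funext j
    exact (h (D.D j)).2.2.2.2.2.2 k' (D'.D j) (f.f j) (cmap ℤ (g.alH γ)) (x j)

lemma DHom.ch_smul {σ : k →+* k'} {D' : DM k'} (f : DHom σ D D') (r : k) (x : ChD g.K D) :
    f.ch g.K (r • x) = σ r • f.ch g.K x := by
  funext j
  refine Finsupp.ext fun y => ?_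
  exact f.fs j r _

lemma DHom.ch_G {σ : k →+* k'} {D' : DM k'} (f : DHom σ D D') (i : ℤ) (x : ChD g.K D)
    (hx : x ∈ grD g.K D i) : f.ch g.K x ∈ grD g.K D' i := by
  intro j y hy
  change f.f j (x j y) = 0
  rw [hx j y hy, map_zero]

/-- All properties of the maps `mF`. -/
lemma GD.mF_all {σ : k →+* k'} {D' : DM k'} (f : DHom σ D D') (z : ℕ → k) (z' : ℕ → k')
    (hz : ∀ i, σ (z i) = z' i) (n : ℕ) :
    MC (g.Mn z D n) (g.Mn z' D' n) (g.mF f z z' n) ∧
    (∀ i, ∀ x ∈ (g.Mn z D n).G i, g.mF f z z' n x ∈ (g.Mn z' D' n).G i) ∧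
    (∀ x ∈ (g.Mn z D n).Q, g.mF f z z' n x ∈ (g.Mn z' D' n).Q) ∧
    ∀ (r : k) x, g.mF f z z' n (r • x) = σ r • g.mF f z z' n x := by
  obtain ⟨h1, h2, h3, h4⟩ := pMCm k k' _ _ (g.M0 D) (g.M0 D') (f.ch g.K) (DHom.mc g f) g.q g.b
    (rv g.m) z z' (fun i x => by rw [← hz]; exact DHom.ch_smul g f _ _) (rho g.q g.ψ) n
  refine ⟨h1, ?_, h3 fun x _ => trivial, fun r => h4 r (σ r) (DHom.ch_smul g f r)⟩
  intro i x hx
  have h5 := h2 0 (fun i x hx => by rw [sub_zero]; exact DHom.ch_G g f i x hx) i x hx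
  rw [sub_zero] at h5
  exact h5

/-- The map `Q(k, 1, D) → Q(k', 1, D')`. -/
noncomputable def GD.qc {σ : k →+* k'} {D' : DM k'} (h : g.P0 D) (h' : g.P0 D')
    (f : DHom σ D D') : (g.Qc D h).V →+ (g.Qc D' h').V :=
  qm h.dif h'.dif (g.mF f (fun _ => (1 : k)) (fun _ => (1 : k')) g.m)
    (g.mF_all f (fun _ => (1 : k)) (fun _ => (1 : k')) (fun _ => map_one σ) g.m).2.2.1

/-- The chains of `K` with coefficients in `k`, over `k[G]`. -/
noncomputable def GD.chK (k : Type) [CommRing k] : GC (MonoidAlgebra k G) :=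
  HAx.gcG (HAx.CF g.K k) (HAx.cfA k g.al g.al1 g.alm)

end

/-! ## The twisted version -/

section

variable {G : Type} [CommGroup G] (g : GD G) {F : Type} [CommRing F] (z : ℕ → PowerSeries F)
  (hz : ∀ i, PowerSeries.constantCoeff (z i) = 1) (D : DM (PowerSeries F))

/-- The cocycle. -/
noncomputable def GD.co : HHx.Cocy F G :=
  HHx.carryCocy (fun _ : Fin g.m => g.q) (fun i => g.ψ i) (fun i => z i) (fun i => hz i)

/-- The properties needed for the complex and the Clifford pair over the twisted group ring. -/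
structure GD.PS : Prop where
  dif : Dif (g.M z D)
  gp : (g.M z D).GP (lf g.q g.ψ) (g.co z hz).c
  cl : (g.M z D).CL g.V g.n
  ca : (g.M z D).CA g.V (lf g.q g.ψ)

theorem GD.pS (h : D.Fl g.m z) (hK : g.K0 D) : g.PS z hz D :=
  ⟨pDifF G g _ z D h, (pGPM G g _ z D h.comm).1, pCLM G g _ z D h hK, (pGPM G g _ z D h.comm).2⟩

/-- The complex `Q(F⟦X⟧, z, D)` over the twisted group ring. -/
noncomputable def GD.QS (h : g.PS z hz D) : GC (HHx.TW (g.co z hz)) :=
  (g.M z D).gcT h.dif (g.co z hz) h.gp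

/-- The Clifford pair on `Q(F⟦X⟧, z, D)`. -/
noncomputable def GD.CS (h : g.PS z hz D) : Clf (g.QS z hz D h) g.n :=
  (g.M z D).clfT h.dif h.cl (g.co z hz) h.gp h.ca

variable {D}

/-- The map `Q(F⟦X⟧, z, D) → Q(F, 1, D')`. -/
noncomputable def GD.qs {D' : DM F} (h : g.PS z hz D) (h' : g.P0 D')
    (r : DHom (PowerSeries.constantCoeff (R := F)) D D') : (g.QS z hz D h).V →+ (g.Qc D' h').V :=
  qm h.dif h'.dif (g.mF r z (fun _ => (1 : F)) g.m)
    (g.mF_all r z (fun _ => (1 : F)) hz g.m).2.2.1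

end

/-! ## The modules for one linear module -/

/-- The modules: `D` over `F`, its deformation `DS` over `F⟦X⟧` (flat for `z`), `D ⊆ Du` the kernel of
a linear form with coefficient `1` at `Y 0`, `DZ = D` as a module over `ℤ`. -/
structure HPk {G : Type} [CommGroup G] (g : GD G) (F : Type) [CommRing F] where
  DS : DM (PowerSeries F)
  D : DM F
  Du : DM F
  DZ : DM ℤ
  z : ℕ → PowerSeries F
  z0 : z 0 = 1 + PowerSeries.X
  zc : ∀ i, PowerSeries.constantCoeff (z i) = 1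
  fl : DS.Fl g.m z
  cD : D.Comm
  cDu : Du.Comm
  cDZ : DZ.Comm
  kS : g.K0 DS
  kD : g.K0 D
  kZ : g.K0 DZ
  r : DHom (PowerSeries.constantCoeff (R := F)) DS D
  rs : ∀ l y, ∃ x, r.f l x = y
  rk : ∀ l x, r.f l x = 0 → ∃ y, x = (PowerSeries.X : PowerSeries F) • y
  sx : ∀ l (x : DS.D l), (PowerSeries.X : PowerSeries F) • x = 0 → x = 0
  j : DHom (RingHom.id F) D Du
  ji : ∀ l x, j.f l x = 0 → x = 0
  lam : ℕ → F
  l0 : lam 0 = 1
  jk : ∀ l (x : Du.D l), (∑ i ∈ Finset.range g.m, lam i • Du.tY i) (Pi.single l x) = 0 ↔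
    ∃ y, j.f l y = x
  τ : ∀ l, Du.D l →ₗ[F] Du.D (l + 1)
  ts : ∀ l x, Du.Y 0 l (τ l x) = x
  tc : ∀ i, 0 < i → i < g.m → ∀ x, Du.tY i (Du.up τ x) = Du.up τ (Du.tY i x)
  i : DHom (algebraMap ℤ F) DZ D
  ib : ∀ l, Function.Bijective (i.f l)

section

variable {G : Type} [CommGroup G] {g : GD G} {F : Type} [CommRing F] (P : HPk g F)

theorem HPk.pS : g.PS P.z P.zc P.DS := g.pS P.z P.zc P.DS P.fl P.kS
theorem HPk.pD : g.P1 P.D := g.p1 P.cD P.kD
theorem HPk.pDZ : g.P1 P.DZ := g.p1 P.cDZ P.kZ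
theorem HPk.pDu : g.P0 P.Du := g.p0 P.cDu

/-- The complex over the twisted group ring. -/
noncomputable abbrev HPk.TS : GC (HHx.TW (g.co P.z P.zc)) := g.QS P.z P.zc P.DS P.pS

/-- Its endomorphism `X Ξ`. -/
noncomputable abbrev HPk.ES : En P.TS := cE (g.CS P.z P.zc P.DS P.pS)

end

end HRx
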