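import Pool.Agent.Lib.MP_181146_gt.HR.SpecB

/-!
# Project HR, module ExS: exactness on `Q` as a short exact sequence of big complexes
-/

set_option autoImplicit false

namespace HRx

open HEp HPx

theorem sExS : S_ExS := by
  intro k' k k'' _ _ _ H F M' M M'' w a b e h' h h''
  refine ⟨⟨fun i x hx => e.aG i x.1 hx, fun x => Subtype.ext (e.ad x.1)⟩,
    ⟨fun i x hx => e.bG i x.1 hx, fun x => Subtype.ext (e.bd x.1)⟩,
    fun x hx => Subtype.ext (e.inj x.1 (congrArg Subtype.val hx)),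
    fun x => Subtype.ext (e.ba x.1), fun i x hx hb => ?_, fun i z hz => ?_⟩
  · obtain ⟨y, h1, h2, h3⟩ := e.ex i x.1 hx x.2 (congrArg Subtype.val hb)
    exact ⟨⟨y, h2⟩, h1, Subtype.ext h3⟩
  · obtain ⟨y, h1, h2, h3⟩ := e.sur i z.1 hz z.2
    exact ⟨⟨y, h2⟩, h1, Subtype.ext h3⟩

end HRx
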