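import Pool.Agent.Lib.MP_181146_gt.HB.SpecB

/-!
# Project HR, part (c6): the telescope of the kernel of `κ(Y)`

`KD c`: a complex `Tu` which contains `T` as the kernel of an epimorphism `K` of degree `-(n+1)` which
commutes with `d` and is zero on the homology, with operators `X`, `Ξ` which restrict to the Clifford
pair `c` of `T` and satisfy `X d = - d X + K`, `Ξ d = - d Ξ`, `X K = K X`.  If `u : P → Tu` is a model of
`Tu`, then the telescope of `X Ξ` on `T` has a model `P → tel (cE c)`.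
-/

set_option autoImplicit false
set_option linter.unusedVariables false

namespace HRx

open HEp HBy

section

variable {R : Type} [CommRing R]

/-- `T` is the kernel of `K : Tu → Tu`. -/
structure KD {T : GC R} {n : ℤ} (c : Clf T n) (Tu : GC R) where
  j : T.V →ₗ[R] Tu.V
  jd : ∀ x, j (T.d x) = Tu.d (j x)
  jG : ∀ i x, j x ∈ Tu.G i ↔ x ∈ T.G i
  ji : ∀ x, j x = 0 → x = 0
  K : Tu.V →ₗ[R] Tu.V
  Kd : ∀ x, K (Tu.d x) = Tu.d (K x)
  KG : ∀ i, ∀ x ∈ Tu.G i, K x ∈ Tu.G (i - n - 1)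
  Ks : ∀ i, ∀ y ∈ Tu.G i, ∃ x ∈ Tu.G (i + n + 1), K x = y
  Kk : ∀ i, ∀ x ∈ Tu.G i, K x = 0 → ∃ y, j y = x
  Kj : ∀ y, K (j y) = 0
  K0 : ∀ i x, Tu.Cyc i x → Tu.Bdy (i - n - 1) (K x)
  X : Tu.V →ₗ[R] Tu.V
  Ξ : Tu.V →ₗ[R] Tu.V
  XG : ∀ i, ∀ x ∈ Tu.G i, X x ∈ Tu.G (i - n)
  ΞG : ∀ i, ∀ x ∈ Tu.G i, Ξ x ∈ Tu.G (i + n)
  Xd : ∀ x, X (Tu.d x) = -Tu.d (X x) + K x
  Ξd : ∀ x, Ξ (Tu.d x) = -Tu.d (Ξ x)
  XK : ∀ x, X (K x) = K (X x)
  jX : ∀ x, j (c.X x) = X (j x)
  jΞ : ∀ x, j (c.Ξ x) = Ξ (j x)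

variable {T : GC R} {n : ℤ} {c : Clf T n} {Tu : GC R}

private lemma kd_q (D : KD c Tu) (P : ZCx R) (u : FMap P Tu) (i : ℤ) :
    ∃ q : P.P i →ₗ[R] Tu.V, (∀ x, q x ∈ Tu.G (i + n + 1)) ∧ ∀ x, D.K (q x) = u.f i x := by
  have h1 : ∀ x ∈ Tu.G (i + n + 1), D.K x ∈ Tu.G i := by
    intro x hx
    have h := D.KG _ x hx
    have e : i + n + 1 - n - 1 = i := by ring
    rwa [e] at h
  obtain ⟨Kr, hKr⟩ : ∃ Kr : Tu.G (i + n + 1) →ₗ[R] Tu.G i, Kr = D.K.restrict h1 := ⟨_, rfl⟩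
  obtain ⟨ur, hur⟩ : ∃ ur : P.P i →ₗ[R] Tu.G i, ur = (u.f i).codRestrict _ (u.fG i) := ⟨_, rfl⟩
  have hs : Function.Surjective Kr := by
    rintro ⟨y, hy⟩
    obtain ⟨x, hx, hxy⟩ := D.Ks i y hy
    refine ⟨⟨x, hx⟩, ?_⟩
    rw [hKr]
    exact Subtype.ext hxy
  obtain ⟨q, hq⟩ := Module.projective_lifting_property Kr ur hs
  refine ⟨(Tu.G (i + n + 1)).subtype ∘ₗ q, fun x => (q x).2, fun x => ?_⟩
  have h2 : (Kr (q x) : Tu.V) = ur x := by
    rw [← hq]
    rfl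
  rw [hKr, hur] at h2
  exact h2

/-- **Kap.** -/
def S_Kap : Prop :=
  ∀ (R : Type) [CommRing R] (T : GC R) (n : ℤ) (c : Clf T n) (hn : 0 < n) (hT : BdH T) (Tu : GC R)
    (D : KD c Tu) (P : ZCx R) (u : FMap P Tu), u.QI →
    ∃ (w : FMap P T) (hj : LCh T (tel (cE c)) (tj (cE c) 0)), (cmp w (tj (cE c) 0) hj).QI

theorem sKap (hClA : S_ClA) : S_Kap := by
  intro R _ T n c hn hT Tu D P u hu
  choose q hqG hqK using fun i => kd_q D P u i
  -- the map `z`
  have hz : ∀ i, ∃ z : P.P i →ₗ[R] T.V, ∀ x,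
      D.j (z x) = Tu.d (q i x) - q (i - 1) (P.d i (i - 1) x) := by
    intro i
    have h1 : ∀ x, Tu.d (q i x) - q (i - 1) (P.d i (i - 1) x) ∈ LinearMap.range D.j := by
      intro x
      obtain ⟨y, hy⟩ := D.Kk (i + n) (Tu.d (q i x) - q (i - 1) (P.d i (i - 1) x)) (by
        refine (Tu.G (i + n)).sub_mem ?_ ?_
        · have h := Tu.dG _ _ (hqG i x)
          have e : i + n + 1 - 1 = i + n := by ring
          rwa [e] at h
        · have h := hqG (i - 1) (P.d i (i - 1) x)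
          have e : i - 1 + n + 1 = i + n := by ring
          rwa [e] at h) (by
        rw [map_sub, D.Kd, hqK, hqK, u.fd, sub_self])
      exact ⟨y, hy⟩
    have hji : Function.Injective D.j := (injective_iff_map_eq_zero D.j).2 D.ji
    refine ⟨(LinearEquiv.ofInjective D.j hji).symm.toLinearMap ∘ₗ
      ((Tu.d ∘ₗ q i - q (i - 1) ∘ₗ P.d i (i - 1)).codRestrict (LinearMap.range D.j) h1),
      fun x => ?_⟩
    have h2 := LinearEquiv.apply_symm_apply (LinearEquiv.ofInjective D.j hji)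
      ((Tu.d ∘ₗ q i - q (i - 1) ∘ₗ P.d i (i - 1)).codRestrict (LinearMap.range D.j) h1 x)
    exact congrArg Subtype.val h2
  choose z hz using hz
  have hjinj : ∀ x y, D.j x = D.j y → x = y := fun x y h =>
    (injective_iff_map_eq_zero D.j).2 D.ji h
  have hzG : ∀ i x, z i x ∈ T.G (i + n) := by
    intro i x
    rw [← D.jG, hz]
    refine (Tu.G (i + n)).sub_mem ?_ ?_
    · have h := Tu.dG _ _ (hqG i x)
      have e : i + n + 1 - 1 = i + n := by ring
      rwa [e] at h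
    · have h := hqG (i - 1) (P.d i (i - 1) x)
      have e : i - 1 + n + 1 = i + n := by ring
      rwa [e] at h
  have hzd : ∀ i x, z (i - 1) (P.d i (i - 1) x) = -T.d (z i x) := by
    intro i x
    apply hjinj
    rw [hz, P.dd, map_zero, sub_zero, map_neg, D.jd, hz, map_sub, Tu.dd, zero_sub, neg_neg]
  obtain ⟨w, hw⟩ : ∃ w : FMap P T, ∀ i x, w.f i x = c.X (z i x) := by
    refine ⟨⟨fun i => c.X ∘ₗ z i, fun i x => ?_, fun i x => ?_⟩, fun i x => rfl⟩
    · have h := c.XG _ _ (hzG i x)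
      rwa [add_sub_cancel_right] at h
    · change c.X (z (i - 1) (P.d i (i - 1) x)) = T.d (c.X (z i x))
      rw [hzd, map_neg, c.Xd, neg_neg]
  -- cycles
  have hjz : ∀ i x, P.Cyc i x → D.j (z i x) = Tu.d (q i x) := by
    intro i x hx
    rw [hz, hx (i - 1), map_zero, sub_zero]
  have hXz : ∀ i x, P.Cyc i x → D.j (c.X (z i x)) = u.f i x - Tu.d (D.X (q i x)) := by
    intro i x hx
    rw [D.jX, hjz i x hx, D.Xd, hqK]
    abel
  have hcz : ∀ i x, P.Cyc i x → T.Cyc (i + n) (z i x) := by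
    intro i x hx
    refine ⟨hzG i x, ?_⟩
    have h := hzd i x
    rw [hx (i - 1), map_zero] at h
    exact neg_eq_zero.1 h.symm
  have hXc : ∀ t, T.d t = 0 → T.d (c.X t) = 0 := by
    intro t ht
    have h := c.Xd t
    rw [ht, map_zero] at h
    exact neg_eq_zero.1 h.symm
  -- the image of `z`
  have hL : ∀ (i : ℤ) (t : T.V) (b : Tu.V), b ∈ Tu.G (i + n + 1) → T.Cyc (i + n) t →
      D.j t = Tu.d b → ∃ y, P.Cyc i y ∧ T.Bdy (i + n) (t - z i y) := by
    intro i t b hb ht htb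
    have h1 : Tu.Cyc i (D.K b) := by
      refine ⟨?_, ?_⟩
      · have h := D.KG _ b hb
        have e : i + n + 1 - n - 1 = i := by ring
        rwa [e] at h
      · rw [← D.Kd, ← htb, D.Kj]
    obtain ⟨y, hy, e, he, hey⟩ := hu.2 i (D.K b) h1
    obtain ⟨e', he', hee⟩ := D.Ks _ e he
    refine ⟨y, hy, ?_⟩
    have h2 : D.K (b - q i y - Tu.d e') = 0 := by
      rw [map_sub, map_sub, hqK, D.Kd, hee, hey, sub_self]
    have h3 : b - q i y - Tu.d e' ∈ Tu.G (i + n + 1) := by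
      refine (Tu.G _).sub_mem ((Tu.G _).sub_mem hb (hqG i y)) ?_
      have h := Tu.dG _ _ he'
      have e1 : i + 1 + n + 1 - 1 = i + n + 1 := by ring
      rwa [e1] at h
    obtain ⟨s, hs⟩ := D.Kk _ _ h3 h2
    refine ⟨s, ?_, ?_⟩
    · rw [← D.jG, hs]
      exact h3
    · apply hjinj
      rw [D.jd, hs, map_sub, map_sub, Tu.dd, sub_zero, map_sub, htb, hjz i y hy]
  have hfin := hClA R T n c hn hT P w z hcz (fun i x _ => hw i x) ?_ ?_ ?_ ?_
  · obtain ⟨hj, h⟩ := hfin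
    exact ⟨w, hj, h⟩
  · intro i x hx
    have hc1 := hcz i x hx
    refine hL (i + n) (c.Ξ (z i x)) (-D.Ξ (q i x)) ?_ ⟨c.ΞG _ _ hc1.1, ?_⟩ ?_
    · refine (Tu.G _).neg_mem ?_
      have h := D.ΞG _ _ (hqG i x)
      have e : i + n + 1 + n = i + n + n + 1 := by ring
      rwa [e] at h
    · have h := c.Ξd (z i x)
      rw [hc1.2, map_zero] at h
      exact neg_eq_zero.1 h.symm
    · rw [D.jΞ, hjz i x hx, D.Ξd, map_neg]
  · intro i x hx
    have hc1 := hcz i x hx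
    have h1 : T.Cyc (i - n - n + n) (c.X (c.X (z i x))) := by
      refine ⟨?_, hXc _ (hXc _ hc1.2)⟩
      have h := c.XG _ _ (c.XG _ _ hc1.1)
      have e : i + n - n - n = i - n - n + n := by ring
      rwa [e] at h
    obtain ⟨y, hy, s, hs, hsy⟩ := hL (i - n - n) (c.X (c.X (z i x))) (D.X (D.X (q i x))) (by
      have h := D.XG _ _ (D.XG _ _ (hqG i x))
      have e : i + n + 1 - n - n = i - n - n + n + 1 := by ring
      rwa [e] at h) h1 (by
      rw [D.jX, D.jX, hjz i x hx, D.Xd, map_add, map_neg, D.Xd, D.XK]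
      abel)
    refine ⟨y, hy, s, ?_, hsy⟩
    have e : i - n - n + n + 1 = i - n + 1 := by ring
    rwa [e] at hs
  · rintro i x y hx hy ⟨t, ht, hte⟩
    have h1 : Tu.Bdy i (u.f i y) := by
      refine ⟨D.j t - q (i - n) x + D.X (q i y), ?_, ?_⟩
      · refine (Tu.G _).add_mem ((Tu.G _).sub_mem ((D.jG _ _).2 ht) ?_) ?_
        · have h := hqG (i - n) x
          have e : i - n + n + 1 = i + 1 := by ring
          rwa [e] at h
        · have h := D.XG _ _ (hqG i y)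
          have e : i + n + 1 - n = i + 1 := by ring
          rwa [e] at h
      · have h := congrArg D.j hte
        rw [D.jd, map_add, hjz _ x hx, hXz i y hy] at h
        rw [map_add, map_sub, h]
        abel
    have h2 : P.Bdy i y := hu.1 i y hy h1
    refine ⟨?_, h2⟩
    -- `X z y` is a boundary
    have h3 : T.Bdy i (c.X (z i y)) := by
      obtain ⟨k, y', hy'⟩ := h2
      by_cases hk : i + 1 = k
      · subst hk
        have h := w.fd (i + 1) y'
        have e : i + 1 - 1 = i := by ring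
        refine ⟨w.f (i + 1) y', w.fG _ _, ?_⟩
        rw [← h, ← hw, ← hy']
        have hcast : ∀ (i' : ℤ) (hi' : i' = i),
            w.f i' (P.d (i + 1) i' y') = w.f i (P.d (i + 1) i y') := by
          rintro i' rfl
          rfl
        exact hcast _ e
      · rw [P.shape k i hk, LinearMap.zero_apply] at hy'
        rw [← hy', map_zero, map_zero]
        exact ⟨0, (T.G _).zero_mem, map_zero _⟩
    obtain ⟨t2, ht2, hte2⟩ := h3
    have h4 : T.d (t - t2) = z (i - n) x := by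
      rw [map_sub, hte, hte2, add_sub_cancel_right]
    have h5 : Tu.Cyc (i + 1) (q (i - n) x - D.j (t - t2)) := by
      refine ⟨(Tu.G _).sub_mem ?_ ((D.jG _ _).2 ((T.G _).sub_mem ht ht2)), ?_⟩
      · have h := hqG (i - n) x
        have e : i - n + n + 1 = i + 1 := by ring
        rwa [e] at h
      · rw [map_sub, ← D.jd, h4, hjz _ x hx, sub_self]
    have h6 := D.K0 _ _ h5
    rw [map_sub, D.Kj, sub_zero, hqK] at h6
    have e : i + 1 - n - 1 = i - n := by ring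
    rw [e] at h6
    exact hu.1 _ x hx h6
  · intro i t ht
    have h1 : Tu.Cyc i (D.j t) := ⟨(D.jG _ _).2 ht.1, by rw [← D.jd, ht.2, map_zero]⟩
    obtain ⟨y, hy, b, hb, hbe⟩ := hu.2 i (D.j t) h1
    have hc1 := hcz i y hy
    have hXG : c.X (z i y) ∈ T.G i := by
      have h := c.XG _ _ hc1.1
      rwa [add_sub_cancel_right] at h
    have e0 : i - n + n = i := by ring
    obtain ⟨x, hx, s, hs, hsx⟩ := hL (i - n) (t - c.X (z i y)) (b + D.X (q i y)) (by
      have e : i - n + n + 1 = i + 1 := by ring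
      rw [e]
      refine (Tu.G _).add_mem hb ?_
      have h := D.XG _ _ (hqG i y)
      have e : i + n + 1 - n = i + 1 := by ring
      rwa [e] at h) (by
      rw [e0]
      refine ⟨(T.G i).sub_mem ht.1 hXG, ?_⟩
      rw [map_sub, ht.2, hXc _ hc1.2, sub_zero]) (by
      rw [map_sub, hXz i y hy, map_add, hbe]
      abel)
    refine ⟨x, y, hx, hy, s, ?_, ?_⟩
    · rwa [e0] at hs
    · rw [hsx]
      abel

/-- A model lifts through a quasi-isomorphism. -/
theorem lift_QI (hLift : S_Lift) {R : Type} [CommRing R] (T' T : GC R) (w : T'.V →ₗ[R] T.V)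
    (hw : LQI T' T w) (P : ZCx R) (u : FMap P T) (hu : u.QI) : ∃ u' : FMap P T', u'.QI := by
  obtain ⟨u', h, hh⟩ := hLift R T' T w hw P u
  have key : ∀ i x, P.Cyc i x → T.Bdy i (w (u'.f i x) - u.f i x) := by
    intro i x hx
    refine ⟨h i x, hh.1 i x, ?_⟩
    have h1 := hh.2 i x
    rw [hx (i - 1), map_zero, add_zero] at h1
    exact h1.symm
  have hcyc : ∀ i x, P.Cyc i x → T'.Cyc i (u'.f i x) := by
    intro i x hx
    refine ⟨u'.fG i x, ?_⟩
    rw [← u'.fd, hx (i - 1), map_zero]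
  refine ⟨u', ?_, ?_⟩
  · intro i x hx hb
    refine hu.1 i x hx ?_
    obtain ⟨a, ha, hae⟩ := key i x hx
    obtain ⟨b, hb, hbe⟩ := hb
    refine ⟨w b - a, (T.G _).sub_mem (hw.1.1 _ _ hb) ha, ?_⟩
    have h1 : w (T'.d b) = T.d (w b) := hw.1.2 b
    rw [map_sub, hae, ← h1, hbe]
    abel
  · intro i y hy
    have h1 : T.Cyc i (w y) := by
      refine ⟨hw.1.1 _ _ hy.1, ?_⟩
      have h2 : w (T'.d y) = T.d (w y) := hw.1.2 y
      rw [← h2, hy.2, map_zero]
    obtain ⟨x, hx, b, hb, hbe⟩ := hu.2 i _ h1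
    obtain ⟨a, ha, hae⟩ := key i x hx
    refine ⟨x, hx, hw.2.1 i _ ⟨(T'.G _).sub_mem hy.1 (u'.fG i x), ?_⟩ ⟨b - a,
      (T.G _).sub_mem hb ha, ?_⟩⟩
    · rw [map_sub, hy.2, (hcyc i x hx).2, sub_zero]
    · change T.d (b - a) = w (y - u'.f i x)
      rw [map_sub, hbe, hae, map_sub]
      abel

/-- The homology of a complex with a model is bounded. -/
theorem QI_bdH {T : GC R} (P : ZCx R) (u : FMap P T) (hu : u.QI) : BdH T := by
  refine ⟨P.N, fun i x hi hx => ?_⟩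
  obtain ⟨y, hy, b, hb, hbe⟩ := hu.2 i x hx
  haveI := P.bdd i hi
  have h0 : y = 0 := Subsingleton.elim _ _
  rw [h0, map_zero, sub_zero] at hbe
  exact ⟨b, hb, hbe⟩

/-- A quasi-isomorphic complex. -/
theorem LQI_bdH {T T' : GC R} (f : T.V →ₗ[R] T'.V) (hf : LQI T T' f) (h : BdH T') : BdH T := by
  obtain ⟨N, hN⟩ := h
  refine ⟨N, fun i x hi hx => hf.2.1 i x hx (hN i _ hi ⟨hf.1.1 _ _ hx.1, ?_⟩)⟩
  have h2 : f (T.d x) = T'.d (f x) := hf.1.2 x
  change T'.d (f x) = 0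
  rw [← h2, hx.2, map_zero]

/-- The kernel. -/
theorem KD.bdH (D : KD c Tu) (h : BdH Tu) : BdH T := by
  obtain ⟨N, hN⟩ := h
  refine ⟨N + n.natAbs, fun i x hi hx => ?_⟩
  push_cast at hi
  have h1 : (N : ℤ) < |i| := by
    have := abs_nonneg n
    omega
  have h2 : (N : ℤ) < |i - n| := by
    have := abs_sub_abs_le_abs_sub i n
    omega
  obtain ⟨b, hb, hbe⟩ := hN i (D.j x) h1 ⟨(D.jG _ _).2 hx.1, by rw [← D.jd, hx.2, map_zero]⟩
  have h3 : Tu.Cyc (i - n) (D.K b) := by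
    refine ⟨?_, ?_⟩
    · have h := D.KG _ b hb
      have e : i + 1 - n - 1 = i - n := by ring
      rwa [e] at h
    · rw [← D.Kd, hbe, D.Kj]
  obtain ⟨e, he, hee⟩ := hN _ _ h2 h3
  obtain ⟨e', he', hee'⟩ := D.Ks _ e he
  have h4 : b - Tu.d e' ∈ Tu.G (i + 1) := by
    refine (Tu.G _).sub_mem hb ?_
    have h := Tu.dG _ _ he'
    have e1 : i - n + 1 + n + 1 - 1 = i + 1 := by ring
    rwa [e1] at h
  obtain ⟨s, hs⟩ := D.Kk _ _ h4 (by rw [map_sub, D.Kd, hee', hee, sub_self])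
  refine ⟨s, (D.jG _ _).1 (by rw [hs]; exact h4), ?_⟩
  apply (injective_iff_map_eq_zero D.j).2 D.ji
  rw [D.jd, hs, map_sub, Tu.dd, sub_zero, hbe]

/-- The class of the telescope. -/
theorem kap_EC' (hClA : S_ClA) (hLift : S_Lift) {R : Type} [CommRing R] {T : GC R} {n : ℤ}
    (c : Clf T n) (hn : 0 < n) (hT : BdH T) (Tu : GC R) (D : KD c Tu) (T0 : GC R)
    (pr : Tu.V →ₗ[R] T0.V) (hpr : LQI Tu T0 pr) (P : ZCx R) (u : FMap P T0) (hu : u.QI) :
    (tel (cE c)).HasEC P.EC := by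
  obtain ⟨u', hu'⟩ := lift_QI hLift Tu T0 pr hpr P u hu
  obtain ⟨w, hj, h⟩ := sKap hClA R T n c hn hT Tu D P u' hu'
  exact ⟨P, _, h, rfl⟩

/-- The class of the telescope. -/
theorem kap_EC (hClA : S_ClA) (hLift : S_Lift) {R : Type} [CommRing R] {T : GC R} {n : ℤ}
    (c : Clf T n) (hn : 0 < n) (Tu : GC R) (D : KD c Tu) (T0 : GC R)
    (pr : Tu.V →ₗ[R] T0.V) (hpr : LQI Tu T0 pr) (P : ZCx R) (u : FMap P T0) (hu : u.QI) :
    (tel (cE c)).HasEC P.EC :=
  kap_EC' hClA hLift c hn (D.bdH (LQI_bdH pr hpr (QI_bdH P u hu))) Tu D T0 pr hpr P u hu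

end

end HRx
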