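import Pool.Agent.Lib.MP_181146_gt.HR.NulY

/-!
# Project HR: the operator `κ(Y)` is null homotopic (`z = 1`)
-/

set_option autoImplicit false
set_option linter.unusedVariables false
set_option linter.unusedSectionVars false

namespace HRx

open HEp HPx

lemma rv_injF (m : ℕ) : Function.Injective (rv m) := by
  intro a b h
  unfold rv at h
  split_ifs at h <;> omega

lemma rv_sum (m : ℕ) (a : ℕ → ℕ) :
    ∑ i ∈ Finset.range m, a (rv m i) = ∑ i ∈ Finset.range m, a i := by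
  rw [← Finset.sum_range_reflect a m]
  refine Finset.sum_congr rfl fun i hi => ?_
  rw [Finset.mem_range] at hi
  unfold rv
  rw [if_pos hi]

section

variable {k : Type} [CommRing k] {H : Type} [Group H] {F : FS H}

/-- Operators of degree `-t`, commuting with `δ`, `sg`, `Y`. -/
structure MS.Od (M : MS k H F) (t : ℤ) (T : Module.End k M.V) : Prop where
  TQ : ∀ x ∈ M.Q, T x ∈ M.Q
  TG : ∀ i, ∀ x ∈ M.G i, T x ∈ M.G (i - t)
  Ts : ∀ x, T (M.sg x) = M.sg (T x)
  TY : ∀ i x, T (M.Y i x) = M.Y i (T x)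
  Td : ∀ x, T (M.δ x) = M.δ (T x)

lemma MS.Od.zero (M : MS k H F) (t : ℤ) : M.Od t 0 where
  TQ := fun _ _ => M.Q.zero_mem
  TG := fun _ _ _ => (M.G _).zero_mem
  Ts := fun x => by simp
  TY := fun i x => by simp
  Td := fun x => by simp

lemma MS.Od.add {M : MS k H F} {t : ℤ} {T T' : Module.End k M.V} (h : M.Od t T)
    (h' : M.Od t T') : M.Od t (T + T') where
  TQ := fun x hx => M.Q.add_mem (h.TQ x hx) (h'.TQ x hx)
  TG := fun i x hx => (M.G _).add_mem (h.TG i x hx) (h'.TG i x hx)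
  Ts := fun x => by rw [LinearMap.add_apply, LinearMap.add_apply, h.Ts, h'.Ts, map_add]
  TY := fun i x => by rw [LinearMap.add_apply, LinearMap.add_apply, h.TY, h'.TY, map_add]
  Td := fun x => by rw [LinearMap.add_apply, LinearMap.add_apply, h.Td, h'.Td, map_add]

lemma MS.Od.mul {M : MS k H F} {t t' : ℤ} {T T' : Module.End k M.V} (h : M.Od t T)
    (h' : M.Od t' T') : M.Od (t + t') (T * T') where
  TQ := fun x hx => h.TQ _ (h'.TQ x hx)
  TG := fun i x hx => by
    have e : i - (t + t') = i - t' - t := by ring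
    rw [e]
    exact h.TG _ _ (h'.TG i x hx)
  Ts := fun x => by rw [Module.End.mul_apply, Module.End.mul_apply, h'.Ts, h.Ts]
  TY := fun i x => by rw [Module.End.mul_apply, Module.End.mul_apply, h'.TY, h.TY]
  Td := fun x => by rw [Module.End.mul_apply, Module.End.mul_apply, h'.Td, h.Td]

lemma MS.Od.one (M : MS k H F) : M.Od 0 1 where
  TQ := fun _ h => h
  TG := fun i x hx => by rw [sub_zero]; exact hx
  Ts := fun x => rfl
  TY := fun i x => rfl
  Td := fun x => rfl

lemma MS.OK.Y {M : MS k H F} {n : ℤ} (hM : M.OK n) (i : ℕ) : M.Od 2 (M.Y i) where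
  TQ := hM.QY i
  TG := hM.GY i
  Ts := hM.Ys i
  TY := fun j x => hM.YY i j x
  Td := hM.Yd i

lemma MS.OK.Yp {M : MS k H F} {n : ℤ} (hM : M.OK n) (i j : ℕ) :
    M.Od (2 * (j : ℤ)) (M.Y i ^ j) := by
  induction j with
  | zero =>
    rw [pow_zero, Nat.cast_zero, mul_zero]
    exact MS.Od.one M
  | succ j ih =>
    rw [pow_succ]
    have h := ih.mul (hM.Y i)
    have e : 2 * (j : ℤ) + 2 = 2 * ((j + 1 : ℕ) : ℤ) := by push_cast; ring
    rwa [e] at h

lemma upd_hom {ix : ℕ → ℕ} (hix : Function.Injective ix) {n : ℕ} {κ : (ℕ → ℕ) → ℤ} {w : ℤ}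
    (hκ : ∀ a, κ a ≠ 0 → ((∑ l ∈ Finset.range (n + 1), a (ix l) : ℕ) : ℤ) = w) (j : ℕ) :
    ∀ a, κ (Function.update a (ix n) j) ≠ 0 →
      ((∑ l ∈ Finset.range n, a (ix l) : ℕ) : ℤ) = w - j := by
  intro a ha
  have h1 := hκ _ ha
  rw [Finset.sum_range_succ, Function.update_self] at h1
  have h2 : ∑ l ∈ Finset.range n, Function.update a (ix n) j (ix l) =
      ∑ l ∈ Finset.range n, a (ix l) := by
    refine Finset.sum_congr rfl fun l hl => ?_
    rw [Function.update_of_ne]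
    intro e
    exact (Finset.mem_range.1 hl).ne (hix e)
  rw [h2] at h1
  push_cast at h1 ⊢
  linarith

/-- The operator `κ(Y)`, degree, compatibility. -/
lemma Ko_od {M : MS k H F} {d : ℤ} (hM : M.OK d) (b : ℕ) (ix : ℕ → ℕ)
    (hix : Function.Injective ix) (n : ℕ) : ∀ (κ : (ℕ → ℕ) → ℤ) (w : ℤ)
    (_ : ∀ a, κ a ≠ 0 → ((∑ l ∈ Finset.range n, a (ix l) : ℕ) : ℤ) = w),
    M.Od (2 * w) (Ko M.Y b ix n κ) := by
  induction n with
  | zero =>
    intro κ w hκ
    change M.Od (2 * w) (κ 0 • 1)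
    by_cases h0 : κ 0 = 0
    · rw [h0, zero_smul]
      exact MS.Od.zero M _
    · have hw := hκ 0 h0
      rw [Finset.sum_range_zero, Nat.cast_zero] at hw
      rw [← hw, mul_zero]
      exact
        { TQ := fun x hx => M.Q.toAddSubgroup.zsmul_mem hx _
          TG := fun i x hx => by
            rw [sub_zero]
            exact (M.G i).toAddSubgroup.zsmul_mem hx _
          Ts := fun x => (map_zsmul M.sg _ _).symm
          TY := fun i x => (map_zsmul (M.Y i) _ _).symm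
          Td := fun x => (map_zsmul M.δ _ _).symm }
  | succ n ih =>
    intro κ w hκ
    change M.Od (2 * w) (∑ j ∈ Finset.range (b + 1),
      Ko M.Y b ix n (fun a => κ (Function.update a (ix n) j)) * M.Y (ix n) ^ j)
    refine Finset.sum_induction _ (fun T => M.Od (2 * w) T) (fun _ _ h h' => h.add h')
      (MS.Od.zero M _) fun j _ => ?_
    have h := (ih _ (w - j) (upd_hom hix hκ j)).mul (hM.Yp (ix n) j)
    have e : 2 * (w - (j : ℤ)) + 2 * (j : ℤ) = 2 * w := by ring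
    rwa [e] at h

/-- The operator `κ(Y)` is null homotopic for `w > 0`. -/
lemma Ko_nul {M : MS k H F} {d : ℤ} (hM : M.OK d) (b : ℕ) (ix : ℕ → ℕ)
    (hix : Function.Injective ix) (n : ℕ) (hY : ∀ l < n, ∃ E, M.NuD 2 (M.Y (ix l)) E) :
    ∀ (κ : (ℕ → ℕ) → ℤ) (w : ℤ) (_ : 0 < w)
    (_ : ∀ a, κ a ≠ 0 → ((∑ l ∈ Finset.range n, a (ix l) : ℕ) : ℤ) = w),
    ∃ E, M.NuD (2 * w) (Ko M.Y b ix n κ) E := by
  induction n with
  | zero =>
    intro κ w hw hκ
    have h0 : κ 0 = 0 := by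
      by_contra h0
      have h1 := hκ 0 h0
      rw [Finset.sum_range_zero, Nat.cast_zero] at h1
      omega
    refine ⟨0, ?_⟩
    change M.NuD (2 * w) (κ 0 • 1) 0
    rw [h0, zero_smul]
    exact MS.NuD.zero M _
  | succ n ih =>
    intro κ w hw hκ
    change ∃ E, M.NuD (2 * w) (∑ j ∈ Finset.range (b + 1),
      Ko M.Y b ix n (fun a => κ (Function.update a (ix n) j)) * M.Y (ix n) ^ j) E
    refine Finset.sum_induction _ (fun T => ∃ E, M.NuD (2 * w) T E) ?_
      ⟨0, MS.NuD.zero M _⟩ fun j _ => ?_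
    · rintro T T' ⟨E, hE⟩ ⟨E', hE'⟩
      exact ⟨_, hE.add hE'⟩
    cases j with
    | zero =>
      obtain ⟨E, hE⟩ := ih (fun l hl => hY l (hl.trans (Nat.lt_succ_self n))) _ (w - (0 : ℕ))
        (by simpa using hw) (upd_hom hix hκ 0)
      rw [Nat.cast_zero, sub_zero] at hE
      refine ⟨E, ?_⟩
      rw [pow_zero, mul_one]
      exact hE
    | succ j =>
      obtain ⟨E, hE⟩ := hY n (Nat.lt_succ_self n)
      have h1 := Ko_od hM b ix hix n _ (w - ((j + 1 : ℕ) : ℤ)) (upd_hom hix hκ (j + 1))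
      have h2 := h1.mul (hM.Yp (ix n) j)
      have h3 := hE.mul h2.TQ h2.TG h2.Ts h2.TY h2.Td
      have e : 2 + (2 * (w - ((j + 1 : ℕ) : ℤ)) + 2 * (j : ℤ)) = 2 * w := by push_cast; ring
      rw [e] at h3
      refine ⟨_, h3.congr fun x _ => ?_⟩
      rw [Module.End.mul_apply, Module.End.mul_apply, Module.End.mul_apply, pow_succ,
        Module.End.mul_apply]
      have h4 : ∀ x, M.Y (ix n) (Ko M.Y b ix n
          (fun a => κ (Function.update a (ix n) (j + 1))) x) = Ko M.Y b ix n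
          (fun a => κ (Function.update a (ix n) (j + 1))) (M.Y (ix n) x) :=
        fun x => (h1.TY _ _).symm
      rw [h4, ← (hM.Yp (ix n) j).TY]

end

/-- **KapN.** The operator `κ(Y)` is null homotopic. -/
theorem kapN (hOKM : S_OKM) {G : Type} [CommGroup G] (g : GD G) {k : Type} [CommRing k]
    (D : DM k) (hD : D.Comm) :
    ∃ E, (g.M (fun _ => (1 : k)) D).NuD (2 * g.w)
      (Ko (g.M (fun _ => (1 : k)) D).Y g.b (rv g.m) g.m g.κ) E := by
  refine Ko_nul (hOKM G g k (fun _ => 1) D hD g.m).2.1 g.b (rv g.m) (rv_injF g.m) g.m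
    (nulY hOKM g D hD g.m) g.κ g.w ?_ ?_
  · have h1 := g.nw
    have h2 := g.n2
    omega
  · intro a ha
    rw [← g.κh a ha, rv_sum]

end HRx
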