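import Pool.Agent.Lib.MP_181146_gt.HR.DefsS

/-!
# Project HR, LinS: the maps of the complexes are semilinear over the group rings

`GAct.th_map`, `tt_map`: general lemmas.  `GD.qc_ch`, `GD.qc_smul`, `GD.qc_X`, `GD.qc_Xi`, and the same
for `GD.qs`.
-/

set_option autoImplicit false
set_option linter.unusedVariables false

namespace HRx

open HEp HPx HBy HAx

section

variable {G : Type} [CommGroup G] {k k' : Type} [CommRing k] [CommRing k']

/-- Semilinear equivariant maps are semilinear over the group ring. -/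
lemma GAct.th_map {σ : k →+* k'} {T : GC k} {T' : GC k'} (A : GAct G T) (A' : GAct G T')
    (f : T.V →+ T'.V) (hs : ∀ (r : k) x, f (r • x) = σ r • f x)
    (hA : ∀ γ x, f (A.r γ x) = A'.r γ (f x)) (a : MonoidAlgebra k G) (x : T.V) :
    f (A.th a x) = A'.th (MonoidAlgebra.mapRingHom G σ a) (f x) := by
  induction a using MonoidAlgebra.induction_linear with
  | zero => rw [map_zero, map_zero, map_zero, LinearMap.zero_apply, LinearMap.zero_apply, map_zero]
  | add a b ha hb =>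
    rw [map_add, map_add, map_add, LinearMap.add_apply, LinearMap.add_apply, map_add, ha, hb]
  | single γ r =>
    rw [MonoidAlgebra.mapRingHom_single, A.th_single, A'.th_single, hs, hA]

end

section

variable {G : Type} [CommGroup G] {R : Type} [CommRing R] {H : Type} {F : FS H}

/-- Semilinear equivariant maps are semilinear over the twisted group ring. -/
lemma tt_map (M : MS (PowerSeries R) H F) (h : Dif M) {lf : G → H} (c : HHx.Cocy R G)
    (p : M.GP lf c.c) (M' : MS R H F) (h' : Dif M') (p' : M'.GP lf (fun _ _ => 1))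
    (f : (M.gc h).V →+ (M'.gc h').V)
    (hs : ∀ (r : PowerSeries R) x, f (r • x) = PowerSeries.constantCoeff r • f x)
    (hA : ∀ γ x, f (M.vg h p γ x) = M'.vg h' p' γ (f x)) (a : HHx.TW c) (x : (M.gc h).V) :
    f (M.tt h c p a x) = (M'.ga h' p').th (HHx.TW.phi c a) (f x) := by
  induction a using HHx.TW.ind c with
  | h0 => rw [map_zero, map_zero, map_zero, LinearMap.zero_apply, LinearMap.zero_apply, map_zero]
  | ha a b ha hb =>
    rw [map_add, map_add, map_add, LinearMap.add_apply, LinearMap.add_apply, map_add, ha, hb]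
  | hs γ r =>
    rw [HHx.TW.phi_sg, MS.tt_sg, GAct.th_single, hs, hA]
    rfl

end

section

variable {G : Type} [CommGroup G] (g : GD G) {k k' : Type} [CommRing k] [CommRing k'] {σ : k →+* k'}
  {D : DM k} {D' : DM k'} (f : DHom σ D D') (h : g.P0 D) (h' : g.P0 D')

lemma GD.qc_val (x : (g.Qc D h).V) : (show (g.N D').Q from g.qc h h' f x).1 =
    g.mF f (fun _ => (1 : k)) (fun _ => (1 : k')) g.m (show (g.N D).Q from x).1 := rfl

lemma GD.qc_ch : IsCh (g.Qc D h) (g.Qc D' h') (g.qc h h' f) := by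
  obtain ⟨h1, h2, h3, h4⟩ := g.mF_all f (fun _ => (1 : k)) (fun _ => (1 : k')) (fun _ => map_one σ) g.m
  exact ⟨fun i x hx => h2 i _ hx, fun x => Subtype.ext (h1.fd _)⟩

lemma GD.qc_smul (a : MonoidAlgebra k G) (x : (g.Qc D h).V) :
    g.qc h h' f (a • x) = MonoidAlgebra.mapRingHom G σ a • g.qc h h' f x := by
  obtain ⟨h1, h2, h3, h4⟩ := g.mF_all f (fun _ => (1 : k)) (fun _ => (1 : k')) (fun _ => map_one σ) g.m
  exact GAct.th_map (σ := σ) ((g.N D).ga h.dif h.gp) ((g.N D').ga h'.dif h'.gp)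
    (qm h.dif h'.dif (g.mF f (fun _ => (1 : k)) (fun _ => (1 : k')) g.m) h3)
    (fun r x => Subtype.ext (h4 r x.1)) (fun γ x => Subtype.ext (h1.fA _ x.1)) a x

lemma GD.qc_X (p : g.P1 D) (p' : g.P1 D') (x : (g.Qc D p.p0).V) :
    g.qc p.p0 p'.p0 f ((g.Cc D p).X x) = (g.Cc D' p').X (g.qc p.p0 p'.p0 f x) := by
  obtain ⟨h1, h2, h3, h4⟩ := g.mF_all f (fun _ => (1 : k)) (fun _ => (1 : k')) (fun _ => map_one σ) g.m
  refine Subtype.ext ?_
  refine (h1.fs _).trans (congrArg _ ?_)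
  exact h1.fZ g.V _

lemma GD.qc_Xi (p : g.P1 D) (p' : g.P1 D') (x : (g.Qc D p.p0).V) :
    g.qc p.p0 p'.p0 f ((g.Cc D p).Ξ x) = (g.Cc D' p').Ξ (g.qc p.p0 p'.p0 f x) := by
  obtain ⟨h1, h2, h3, h4⟩ := g.mF_all f (fun _ => (1 : k)) (fun _ => (1 : k')) (fun _ => map_one σ) g.m
  exact Subtype.ext (h1.fW _)

lemma GD.qc_e (p : g.P1 D) (p' : g.P1 D') (x : (g.Qc D p.p0).V) :
    g.qc p.p0 p'.p0 f ((cE (g.Cc D p)).e x) = (cE (g.Cc D' p')).e (g.qc p.p0 p'.p0 f x) := by
  rw [cE_apply, cE_apply, g.qc_X f p p', g.qc_Xi f p p']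

end

section

variable {G : Type} [CommGroup G] (g : GD G) {k : Type} [CommRing k]
  {D D' : DM k} (f : DHom (RingHom.id k) D D') (h : g.P0 D) (h' : g.P0 D')

/-- The map of the complexes as a linear map. -/
noncomputable def GD.ql : (g.Qc D h).V →ₗ[MonoidAlgebra k G] (g.Qc D' h').V where
  toFun := g.qc h h' f
  map_add' := (g.qc h h' f).map_add
  map_smul' := fun a x => by
    rw [g.qc_smul f h h' a x, MonoidAlgebra.mapRingHom_id]

lemma GD.ql_apply (x : (g.Qc D h).V) : g.ql f h h' x = g.qc h h' f x := rfl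

lemma GD.ql_toAdd : (g.ql f h h').toAddMonoidHom = g.qc h h' f := rfl

end

/-! ## The twisted version -/

section

variable {G : Type} [CommGroup G] (g : GD G) {F : Type} [CommRing F] (z : ℕ → PowerSeries F)
  (hz : ∀ i, PowerSeries.constantCoeff (z i) = 1) {D : DM (PowerSeries F)} {D' : DM F}
  (r : DHom (PowerSeries.constantCoeff (R := F)) D D')

lemma GD.qs_ch (h : g.PS z hz D) (h' : g.P0 D') :
    IsCh (g.QS z hz D h) (g.Qc D' h') (g.qs z hz h h' r) := by
  obtain ⟨h1, h2, h3, h4⟩ := g.mF_all r z (fun _ => (1 : F)) hz g.m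
  exact ⟨fun i x hx => h2 i _ hx, fun x => Subtype.ext (h1.fd _)⟩

lemma GD.qs_smul (h : g.PS z hz D) (h' : g.P0 D') (a : HHx.TW (g.co z hz)) (x : (g.QS z hz D h).V) :
    g.qs z hz h h' r (a • x) = HHx.TW.phi (g.co z hz) a • g.qs z hz h h' r x := by
  obtain ⟨h1, h2, h3, h4⟩ := g.mF_all r z (fun _ => (1 : F)) hz g.m
  exact tt_map (g.M z D) h.dif (g.co z hz) h.gp (g.N D') h'.dif h'.gp
    (qm h.dif h'.dif (g.mF r z (fun _ => (1 : F)) g.m) h3)
    (fun r x => Subtype.ext (h4 r x.1)) (fun γ x => Subtype.ext (h1.fA _ x.1)) a x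

lemma GD.qs_X (h : g.PS z hz D) (p' : g.P1 D') (x : (g.QS z hz D h).V) :
    g.qs z hz h p'.p0 r ((g.CS z hz D h).X x) = (g.Cc D' p').X (g.qs z hz h p'.p0 r x) := by
  obtain ⟨h1, h2, h3, h4⟩ := g.mF_all r z (fun _ => (1 : F)) hz g.m
  refine Subtype.ext ?_
  refine (h1.fs _).trans (congrArg _ ?_)
  exact h1.fZ g.V _

lemma GD.qs_Xi (h : g.PS z hz D) (p' : g.P1 D') (x : (g.QS z hz D h).V) :
    g.qs z hz h p'.p0 r ((g.CS z hz D h).Ξ x) = (g.Cc D' p').Ξ (g.qs z hz h p'.p0 r x) := by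
  obtain ⟨h1, h2, h3, h4⟩ := g.mF_all r z (fun _ => (1 : F)) hz g.m
  exact Subtype.ext (h1.fW _)

lemma GD.qs_e (h : g.PS z hz D) (p' : g.P1 D') (x : (g.QS z hz D h).V) :
    g.qs z hz h p'.p0 r ((cE (g.CS z hz D h)).e x) = (cE (g.Cc D' p')).e (g.qs z hz h p'.p0 r x) := by
  rw [cE_apply, cE_apply, g.qs_X z hz r h p', g.qs_Xi z hz r h p']

end

end HRx
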