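import Pool.Agent.Lib.MP_181146_gt.HR.SpecB

/-!
# Project HR: the operators `Y` are null-homotopic on the periodic functions (`z = 1`)

`MS.NuD M t T E`: `T = δ E + E δ` on `Q`, `E` of degree `1 - t` (`T` of degree `-t`).
`nulY`: the operators `Y (rv m l)`, `l < n`, on the product with `n` circles, `z = 1`.
-/

set_option autoImplicit false
set_option linter.unusedVariables false
set_option linter.unusedSectionVars false

namespace HRx

open HEp HPx

/-! ### Sums over the end of a period -/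

section

variable {V : Type} [AddCommGroup V]

/-- The sum of `F a`, `r < a < q`. -/
def Wsum (q : ℕ) (F : ℤ → V) (r : ℤ) : V := ∑ a ∈ Finset.range q, if r < (a : ℤ) then F a else 0

lemma Wsum_last (q : ℕ) (F : ℤ → V) : Wsum q F ((q : ℤ) - 1) = 0 := by
  refine Finset.sum_eq_zero fun a ha => ?_
  rw [Finset.mem_range] at ha
  rw [if_neg (by omega)]

lemma Wsum_step (q : ℕ) (F : ℤ → V) (r : ℤ) (h1 : 1 ≤ r) (h2 : r < q) :
    Wsum q F (r - 1) = Wsum q F r + F r := by
  obtain ⟨s, rfl⟩ := Int.eq_ofNat_of_zero_le (by omega : 0 ≤ r)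
  have e1 : F (s : ℤ) = ∑ a ∈ Finset.range q, if a = s then F (a : ℤ) else 0 := by
    rw [Finset.sum_ite_eq' (Finset.range q) s (fun a => F (a : ℤ)),
      if_pos (Finset.mem_range.2 (by omega))]
  rw [e1, Wsum, Wsum, ← Finset.sum_add_distrib]
  refine Finset.sum_congr rfl fun a _ => ?_
  by_cases h3 : (s : ℤ) < a
  · rw [if_pos (by omega), if_pos h3, if_neg (by omega), add_zero]
  · by_cases h4 : a = s
    · rw [if_pos (by omega), if_neg h3, if_pos h4, zero_add]
    · rw [if_neg (by omega), if_neg h3, if_neg h4, add_zero]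

lemma Wsum_zero (q : ℕ) (hq : 0 < q) (F : ℤ → V) :
    Wsum q F 0 + F 0 = ∑ a ∈ Finset.range q, F (a : ℤ) := by
  have e1 : F 0 = ∑ a ∈ Finset.range q, if a = 0 then F (a : ℤ) else 0 := by
    rw [Finset.sum_ite_eq' (Finset.range q) 0 (fun a => F (a : ℤ)),
      if_pos (Finset.mem_range.2 hq)]
    rfl
  rw [e1, Wsum, ← Finset.sum_add_distrib]
  refine Finset.sum_congr rfl fun a _ => ?_
  by_cases h4 : a = 0
  · rw [if_neg (by omega), if_pos h4, zero_add]
  · rw [if_pos (by omega), if_neg h4, add_zero]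

lemma Wsum_tel (q : ℕ) (g : ℤ → V) (r : ℤ) (h1 : 0 ≤ r) (h2 : r < q) :
    Wsum q (fun a => g (a - 1) - g a) r = g r - g ((q : ℤ) - 1) := by
  have key : ∀ j : ℕ, (j : ℤ) < q → Wsum q (fun a => g (a - 1) - g a) ((q : ℤ) - 1 - j) =
      g ((q : ℤ) - 1 - j) - g ((q : ℤ) - 1) := by
    intro j
    induction j with
    | zero =>
      intro _
      rw [Nat.cast_zero, sub_zero, Wsum_last, sub_self]
    | succ j ih =>
      intro hj
      have e1 : (q : ℤ) - 1 - ((j + 1 : ℕ) : ℤ) = (q : ℤ) - 1 - j - 1 := by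
        push_cast
        ring
      rw [e1, Wsum_step q _ _ (by push_cast at hj; omega) (by push_cast at hj; omega),
        ih (by push_cast at hj; omega)]
      abel
  obtain ⟨j, hj⟩ := Int.eq_ofNat_of_zero_le (by omega : 0 ≤ (q : ℤ) - 1 - r)
  have h3 := key j (by omega)
  have e2 : (q : ℤ) - 1 - j = r := by omega
  rwa [e2] at h3

lemma Wsum_add (q : ℕ) (F F' : ℤ → V) (r : ℤ) :
    Wsum q (fun a => F a + F' a) r = Wsum q F r + Wsum q F' r := by
  rw [Wsum, Wsum, Wsum, ← Finset.sum_add_distrib]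
  refine Finset.sum_congr rfl fun a _ => ?_
  split_ifs
  · rfl
  · rw [add_zero]

lemma Wsum_map {V' : Type} [AddCommGroup V'] (A : V →+ V') (q : ℕ) (F : ℤ → V) (r : ℤ) :
    A (Wsum q F r) = Wsum q (fun a => A (F a)) r := by
  rw [Wsum, Wsum, map_sum]
  refine Finset.sum_congr rfl fun a _ => ?_
  split_ifs
  · rfl
  · exact map_zero A

lemma nulY_mod (q : ℕ) (f : ℤ → V) (hf : ∀ c, f (c - q) = f c) (c : ℤ) : f (c % q) = f c := by
  have h1 : Function.Periodic f (q : ℤ) := fun x => by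
    have h := hf (x + q)
    rw [add_sub_cancel_right] at h
    exact h.symm
  have h2 := h1.int_mul (c / q) (c % q)
  rw [← h2]
  congr 1
  have h3 := Int.emod_add_mul_ediv c q
  rw [mul_comm (q : ℤ) (c / q)] at h3
  exact h3

/-- The main identity. -/
lemma Wsum_mod (q : ℕ) (hq : 0 < q) (F : ℤ → V) (hF : ∀ c, F (c - q) = F c) (c : ℤ) :
    Wsum q F ((c - 1) % q) - Wsum q F (c % q) +
      (if (q : ℤ) ∣ c then ∑ a ∈ Finset.range q, F (a : ℤ) else 0) = F c := by
  have hq' : (0 : ℤ) < q := by exact_mod_cast hq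
  by_cases h : (q : ℤ) ∣ c
  · rw [if_pos h]
    have e1 : c % q = 0 := Int.emod_eq_zero_of_dvd h
    have e2 : (c - 1) % q = (q : ℤ) - 1 := by
      obtain ⟨d, rfl⟩ := h
      have e3 : (q : ℤ) * d - 1 = ((q : ℤ) - 1) + q * (d - 1) := by ring
      rw [e3, Int.add_mul_emod_self_left]
      exact Int.emod_eq_of_lt (by omega) (by omega)
    have h5 := nulY_mod q F hF c
    rw [e1] at h5
    rw [e1, e2, Wsum_last, zero_sub, ← Wsum_zero q hq F, ← h5]
    abel
  · rw [if_neg h, add_zero]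
    have h1 := Int.emod_nonneg c hq'.ne'
    have h2 := Int.emod_lt_of_pos c hq'
    have h3 : c % q ≠ 0 := fun e => h (Int.dvd_of_emod_eq_zero e)
    have e2 : (c - 1) % q = c % q - 1 := by
      have e4 := Int.emod_add_mul_ediv c q
      have e3 : c - 1 = (c % q - 1) + q * (c / q) := by omega
      rw [e3, Int.add_mul_emod_self_left]
      exact Int.emod_eq_of_lt (by omega) (by omega)
    rw [e2, Wsum_step q F (c % q) (by omega) h2, add_sub_cancel_left]
    exact nulY_mod q F hF c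

lemma nulY_per (q : ℕ) (hq : 0 < q) (c : ℤ) (x : V) :
    (∑ a ∈ Finset.range q, if (q : ℤ) ∣ c - a then x else 0) = x := by
  have hq' : (0 : ℤ) < q := by exact_mod_cast hq
  have h1 := Int.emod_nonneg c hq'.ne'
  have h2 := Int.emod_lt_of_pos c hq'
  obtain ⟨r, hr⟩ := Int.eq_ofNat_of_zero_le h1
  have hrq : r < q := by omega
  have h4 := Int.emod_add_mul_ediv c q
  have h3 : (∑ a ∈ Finset.range q, if (q : ℤ) ∣ c - a then x else 0) =
      ∑ a ∈ Finset.range q, if a = r then x else 0 := by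
    refine Finset.sum_congr rfl fun a ha => ?_
    rw [Finset.mem_range] at ha
    by_cases h : a = r
    · subst h
      rw [if_pos rfl, if_pos]
      exact ⟨c / q, by omega⟩
    · rw [if_neg h, if_neg]
      rintro ⟨d, hd⟩
      apply h
      have h5 : c = a + q * d := by omega
      have h6 : c % q = a := by
        rw [h5, Int.add_mul_emod_self_left]
        exact Int.emod_eq_of_lt (by omega) (by omega)
      omega
  rw [h3, Finset.sum_ite_eq' (Finset.range q) r (fun _ => x), if_pos (Finset.mem_range.2 hrq)]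

end

/-! ### Null homotopies of operators of degree `-t` -/

section

variable {k : Type} [CommRing k] {H : Type} {F : FS H}

/-- `E` is a null homotopy on `Q` of the operator `T` of degree `-t`. -/
structure MS.NuD (M : MS k H F) (t : ℤ) (T E : Module.End k M.V) : Prop where
  EQ : ∀ x ∈ M.Q, E x ∈ M.Q
  EG : ∀ i, ∀ x ∈ M.G i, E x ∈ M.G (i + 1 - t)
  Es : ∀ x, E (M.sg x) = -M.sg (E x)
  EY : ∀ i x, E (M.Y i x) = M.Y i (E x)
  eq : ∀ x ∈ M.Q, M.δ (E x) + E (M.δ x) = T x

lemma MS.NuD.congr {M : MS k H F} {t : ℤ} {T T' E : Module.End k M.V} (h : M.NuD t T E)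
    (hT : ∀ x ∈ M.Q, T x = T' x) : M.NuD t T' E where
  EQ := h.EQ
  EG := h.EG
  Es := h.Es
  EY := h.EY
  eq := fun x hx => by rw [h.eq x hx, hT x hx]

lemma MS.NuD.zero (M : MS k H F) (t : ℤ) : M.NuD t 0 0 where
  EQ := fun _ _ => M.Q.zero_mem
  EG := fun _ _ _ => (M.G _).zero_mem
  Es := fun x => by simp
  EY := fun i x => by simp
  eq := fun x _ => by simp

lemma MS.NuD.add {M : MS k H F} {t : ℤ} {T T' E E' : Module.End k M.V} (h : M.NuD t T E)
    (h' : M.NuD t T' E') : M.NuD t (T + T') (E + E') where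
  EQ := fun x hx => M.Q.add_mem (h.EQ x hx) (h'.EQ x hx)
  EG := fun i x hx => (M.G _).add_mem (h.EG i x hx) (h'.EG i x hx)
  Es := fun x => by
    rw [LinearMap.add_apply, LinearMap.add_apply, h.Es, h'.Es, map_add]
    abel
  EY := fun i x => by
    rw [LinearMap.add_apply, LinearMap.add_apply, h.EY, h'.EY, map_add]
  eq := fun x hx => by
    rw [LinearMap.add_apply, LinearMap.add_apply, LinearMap.add_apply, ← h.eq x hx,
      ← h'.eq x hx, map_add]
    abel

lemma MS.NuD.mul {M : MS k H F} {t s : ℤ} {T E B : Module.End k M.V} (h : M.NuD t T E)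
    (h1 : ∀ x ∈ M.Q, B x ∈ M.Q) (h2 : ∀ i, ∀ x ∈ M.G i, B x ∈ M.G (i - s))
    (h3 : ∀ x, B (M.sg x) = M.sg (B x)) (h4 : ∀ i x, B (M.Y i x) = M.Y i (B x))
    (h5 : ∀ x, B (M.δ x) = M.δ (B x)) : M.NuD (t + s) (T * B) (E * B) where
  EQ := fun x hx => h.EQ _ (h1 x hx)
  EG := fun i x hx => by
    have e : i + 1 - (t + s) = i - s + 1 - t := by ring
    rw [e]
    exact h.EG _ _ (h2 i x hx)
  Es := fun x => by
    rw [Module.End.mul_apply, Module.End.mul_apply, h3, h.Es]
  EY := fun i x => by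
    rw [Module.End.mul_apply, Module.End.mul_apply, h4, h.EY]
  eq := fun x hx => by
    rw [Module.End.mul_apply, Module.End.mul_apply, Module.End.mul_apply, h5, h.eq _ (h1 x hx)]

/-- One more circle. -/
lemma MS.NuD.circ {M : MS k H F} (q b i : ℕ) (z : k) (ρ : H → ℤ) {t : ℤ}
    {T E : Module.End k M.V} (h : M.NuD t T E) :
    (M.circ q b i z ρ).NuD t (cirM T) (cirM E) where
  EQ := by
    intro f hf c
    obtain ⟨h1, h2, h3, h4⟩ := hf c
    refine ⟨h.EQ _ h1, h.EQ _ h2, ?_, ?_⟩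
    · change E (f.1 (c - q)) = z • E (f.1 c)
      rw [h3, map_smul]
    · change E (f.2 (c - q)) = z • E (f.2 c)
      rw [h4, map_smul]
  EG := by
    intro j f hf c
    obtain ⟨h1, h2⟩ := hf c
    refine ⟨h.EG _ _ h1, ?_⟩
    have e : j + 1 - t - 1 = j - 1 + 1 - t := by ring
    rw [e]
    exact h.EG _ _ h2
  Es := by
    intro f
    refine Prod.ext ?_ ?_
    · funext c
      exact h.Es _
    · funext c
      change E (-M.sg (f.2 c)) = -(-M.sg (E (f.2 c)))
      rw [map_neg, h.Es]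
  EY := by
    intro j f
    refine Prod.ext ?_ ?_ <;>
    · funext c
      exact h.EY _ _
  eq := by
    intro f hf
    refine Prod.ext ?_ ?_
    · funext c
      have h1 := h.eq _ (hf c).1
      change M.δ (E (f.1 c)) + (M.sg (E (f.2 (c - 1))) - M.sg (E (f.2 c))) +
        E (M.δ (f.1 c) + (M.sg (f.2 (c - 1)) - M.sg (f.2 c))) = T (f.1 c)
      rw [← h1, map_add, map_sub, h.Es, h.Es]
      abel
    · funext c
      have h1 := h.eq _ (hf c).2.1
      change M.δ (E (f.2 c)) + ∑ a ∈ Finset.range q, M.Y i (M.sg (E (f.1 (c - a)))) +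
        E (M.δ (f.2 c) + ∑ a ∈ Finset.range q, M.Y i (M.sg (f.1 (c - a)))) = T (f.2 c)
      have h2 : E (∑ a ∈ Finset.range q, M.Y i (M.sg (f.1 (c - a)))) =
          -∑ a ∈ Finset.range q, M.Y i (M.sg (E (f.1 (c - a)))) := by
        rw [map_sum, ← Finset.sum_neg_distrib]
        refine Finset.sum_congr rfl fun a _ => ?_
        rw [h.EY, h.Es, map_neg]
      rw [← h1, map_add, h2]
      abel

end

/-! ### The operator `Y` of the circle -/

section

variable {k : Type} [CommRing k] {V : Type} [AddCommGroup V] [Module k V]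

/-- The homotopy. -/
noncomputable def cirE (q : ℕ) (sg Y : Module.End k V) : Module.End k (Cir V) where
  toFun f := (fun c => if (q : ℤ) ∣ c then sg (f.2 ((q : ℤ) - 1)) else 0,
    fun c => Wsum q (fun a => Y (sg (f.1 a))) (c % q))
  map_add' f g := by
    refine Prod.ext ?_ ?_
    · funext c
      change (if (q : ℤ) ∣ c then sg (f.2 ((q : ℤ) - 1) + g.2 ((q : ℤ) - 1)) else 0) =
        (if (q : ℤ) ∣ c then sg (f.2 ((q : ℤ) - 1)) else 0) +
        (if (q : ℤ) ∣ c then sg (g.2 ((q : ℤ) - 1)) else 0)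
      split_ifs
      · exact map_add _ _ _
      · exact (add_zero 0).symm
    · funext c
      change Wsum q (fun a => Y (sg (f.1 a + g.1 a))) (c % q) =
        Wsum q (fun a => Y (sg (f.1 a))) (c % q) + Wsum q (fun a => Y (sg (g.1 a))) (c % q)
      rw [← Wsum_add]
      congr 1
      funext a
      rw [map_add, map_add]
  map_smul' r f := by
    refine Prod.ext ?_ ?_
    · funext c
      change (if (q : ℤ) ∣ c then sg (r • f.2 ((q : ℤ) - 1)) else 0) =
        r • (if (q : ℤ) ∣ c then sg (f.2 ((q : ℤ) - 1)) else 0)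
      split_ifs
      · exact map_smul _ _ _
      · exact (smul_zero r).symm
    · funext c
      change Wsum q (fun a => Y (sg (r • f.1 a))) (c % q) =
        r • Wsum q (fun a => Y (sg (f.1 a))) (c % q)
      have h := Wsum_map (DistribSMul.toAddMonoidHom V r) q (fun a => Y (sg (f.1 a))) (c % q)
      change r • Wsum q (fun a => Y (sg (f.1 a))) (c % q) =
        Wsum q (fun a => r • Y (sg (f.1 a))) (c % q) at h
      rw [h]
      congr 1
      funext a
      rw [map_smul, map_smul]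

end

section

variable {k : Type} [CommRing k] {H : Type} [Group H] {F : FS H}

/-- The operator `Y` of the circle is null homotopic on the periodic functions. -/
theorem MS.nuY (M : MS k H F) (n : ℤ) (hM : M.OK n) (q b i : ℕ) (hq : 0 < q) (ρ : H → ℤ) :
    (M.circ q b i 1 ρ).NuD 2 ((M.circ q b i 1 ρ).Y i) (cirE q M.sg (M.Y i)) where
  EQ := by
    intro f hf c
    refine ⟨?_, ?_, ?_, ?_⟩
    · change (if (q : ℤ) ∣ c then M.sg (f.2 ((q : ℤ) - 1)) else 0) ∈ M.Q
      split_ifs
      · exact hM.Qs _ (hf _).2.1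
      · exact M.Q.zero_mem
    · change Wsum q (fun a => M.Y i (M.sg (f.1 a))) (c % q) ∈ M.Q
      refine M.Q.sum_mem fun a _ => ?_
      split_ifs
      · exact hM.QY _ _ (hM.Qs _ (hf _).1)
      · exact M.Q.zero_mem
    · change (if (q : ℤ) ∣ c - q then M.sg (f.2 ((q : ℤ) - 1)) else 0) =
        (1 : k) • (if (q : ℤ) ∣ c then M.sg (f.2 ((q : ℤ) - 1)) else 0)
      rw [one_smul]
      have e : (q : ℤ) ∣ c - q ↔ (q : ℤ) ∣ c := by
        rw [dvd_sub_self_right]
      by_cases h : (q : ℤ) ∣ c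
      · rw [if_pos h, if_pos (e.2 h)]
      · rw [if_neg h, if_neg (fun h' => h (e.1 h'))]
    · change Wsum q (fun a => M.Y i (M.sg (f.1 a))) ((c - q) % q) =
        (1 : k) • Wsum q (fun a => M.Y i (M.sg (f.1 a))) (c % q)
      rw [one_smul, Int.sub_emod_right]
  EG := by
    intro j f hf c
    refine ⟨?_, ?_⟩
    · change (if (q : ℤ) ∣ c then M.sg (f.2 ((q : ℤ) - 1)) else 0) ∈ M.G (j + 1 - 2)
      split_ifs
      · have e : j + 1 - 2 = j - 1 := by ring
        rw [e]
        exact hM.Gs _ _ (hf _).2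
      · exact (M.G _).zero_mem
    · change Wsum q (fun a => M.Y i (M.sg (f.1 a))) (c % q) ∈ M.G (j + 1 - 2 - 1)
      have e : j + 1 - 2 - 1 = j - 2 := by ring
      rw [e]
      refine (M.G _).sum_mem fun a _ => ?_
      split_ifs
      · exact hM.GY _ _ _ (hM.Gs _ _ (hf _).1)
      · exact (M.G _).zero_mem
  Es := by
    intro f
    refine Prod.ext ?_ ?_
    · funext c
      change (if (q : ℤ) ∣ c then M.sg (-M.sg (f.2 ((q : ℤ) - 1))) else 0) =
        -M.sg (if (q : ℤ) ∣ c then M.sg (f.2 ((q : ℤ) - 1)) else 0)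
      split_ifs
      · rw [map_neg]
      · rw [map_zero, neg_zero]
    · funext c
      change Wsum q (fun a => M.Y i (M.sg (M.sg (f.1 a)))) (c % q) =
        -(-M.sg (Wsum q (fun a => M.Y i (M.sg (f.1 a))) (c % q)))
      rw [neg_neg]
      have h := Wsum_map M.sg.toAddMonoidHom q (fun a => M.Y i (M.sg (f.1 a))) (c % q)
      refine Eq.trans ?_ h.symm
      congr 1
      funext a
      exact hM.Ys _ _
  EY := by
    intro j f
    refine Prod.ext ?_ ?_
    · funext c
      change (if (q : ℤ) ∣ c then M.sg (M.Y j (f.2 ((q : ℤ) - 1))) else 0) =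
        M.Y j (if (q : ℤ) ∣ c then M.sg (f.2 ((q : ℤ) - 1)) else 0)
      split_ifs
      · rw [hM.Ys]
      · rw [map_zero]
    · funext c
      change Wsum q (fun a => M.Y i (M.sg (M.Y j (f.1 a)))) (c % q) =
        M.Y j (Wsum q (fun a => M.Y i (M.sg (f.1 a))) (c % q))
      have h := Wsum_map (M.Y j).toAddMonoidHom q (fun a => M.Y i (M.sg (f.1 a))) (c % q)
      refine Eq.trans ?_ h.symm
      congr 1
      funext a
      change M.Y i (M.sg (M.Y j (f.1 a))) = M.Y j (M.Y i (M.sg (f.1 a)))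
      rw [hM.YY j i, ← hM.Ys j]
  eq := by
    intro f hf
    refine Prod.ext ?_ ?_
    · funext c
      change M.δ (if (q : ℤ) ∣ c then M.sg (f.2 ((q : ℤ) - 1)) else 0) +
        (M.sg (Wsum q (fun a => M.Y i (M.sg (f.1 a))) ((c - 1) % q)) -
          M.sg (Wsum q (fun a => M.Y i (M.sg (f.1 a))) (c % q))) +
        (if (q : ℤ) ∣ c then M.sg (M.δ (f.2 ((q : ℤ) - 1)) +
          ∑ a ∈ Finset.range q, M.Y i (M.sg (f.1 ((q : ℤ) - 1 - a)))) else 0) = M.Y i (f.1 c)
      have h1 := Wsum_mod q hq (fun a => M.Y i (M.sg (f.1 a))) (fun a => by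
        have h := (hf a).2.2.1
        rw [one_smul] at h
        rw [h]) c
      have h2 := congrArg M.sg h1
      rw [map_add, map_sub] at h2
      have h3 : M.sg (M.Y i (M.sg (f.1 c))) = M.Y i (f.1 c) := by
        rw [← hM.Ys, hM.ss]
      rw [h3] at h2
      rw [← h2]
      by_cases h : (q : ℤ) ∣ c
      · rw [if_pos h, if_pos h, if_pos h, map_add, hM.sd]
        have h4 : ∑ a ∈ Finset.range q, M.Y i (M.sg (f.1 ((q : ℤ) - 1 - a))) =
            ∑ a ∈ Finset.range q, M.Y i (M.sg (f.1 (a : ℤ))) := by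
          rw [← Finset.sum_range_reflect (fun a : ℕ => M.Y i (M.sg (f.1 (a : ℤ)))) q]
          refine Finset.sum_congr rfl fun a ha => ?_
          rw [Finset.mem_range] at ha
          have e : ((q - 1 - a : ℕ) : ℤ) = (q : ℤ) - 1 - a := by omega
          rw [e]
        rw [h4]
        abel
      · rw [if_neg h, if_neg h, if_neg h, map_zero, map_zero, zero_add]
    · funext c
      change M.δ (Wsum q (fun a => M.Y i (M.sg (f.1 a))) (c % q)) +
        ∑ a ∈ Finset.range q, M.Y i (M.sg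
          (if (q : ℤ) ∣ c - a then M.sg (f.2 ((q : ℤ) - 1)) else 0)) +
        Wsum q (fun a => M.Y i (M.sg (M.δ (f.1 a) +
          (M.sg (f.2 (a - 1)) - M.sg (f.2 a))))) (c % q) = M.Y i (f.2 c)
      have hq' : (0 : ℤ) < q := by exact_mod_cast hq
      have h1 : ∑ a ∈ Finset.range q, M.Y i (M.sg
          (if (q : ℤ) ∣ c - a then M.sg (f.2 ((q : ℤ) - 1)) else 0)) =
          M.Y i (f.2 ((q : ℤ) - 1)) := by
        rw [← nulY_per q hq c (M.Y i (f.2 ((q : ℤ) - 1)))]
        refine Finset.sum_congr rfl fun a _ => ?_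
        split_ifs
        · rw [hM.ss]
        · rw [map_zero, map_zero]
      have h2 : (fun a => M.Y i (M.sg (M.δ (f.1 a) + (M.sg (f.2 (a - 1)) - M.sg (f.2 a))))) =
          fun a => -M.δ (M.Y i (M.sg (f.1 a))) +
            ((fun a => M.Y i (f.2 a)) (a - 1) - (fun a => M.Y i (f.2 a)) a) := by
        funext a
        change M.Y i (M.sg (M.δ (f.1 a) + (M.sg (f.2 (a - 1)) - M.sg (f.2 a)))) =
          -M.δ (M.Y i (M.sg (f.1 a))) + (M.Y i (f.2 (a - 1)) - M.Y i (f.2 a))
        rw [map_add, map_sub, hM.ss, hM.ss, hM.sd, map_add, map_sub, map_neg, hM.Yd]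
      rw [h1, h2, Wsum_add (V := M.V) q (fun a => -M.δ (M.Y i (M.sg (f.1 a))))
        (fun a => (fun a => M.Y i (f.2 a)) (a - 1) - (fun a => M.Y i (f.2 a)) a),
        Wsum_tel q (fun a => M.Y i (f.2 a)) (c % q) (Int.emod_nonneg c hq'.ne')
          (Int.emod_lt_of_pos c hq')]
      have h3 := Wsum_map (-M.δ).toAddMonoidHom q (fun a => M.Y i (M.sg (f.1 a))) (c % q)
      change -M.δ (Wsum q (fun a => M.Y i (M.sg (f.1 a))) (c % q)) =
        Wsum q (fun a => -M.δ (M.Y i (M.sg (f.1 a)))) (c % q) at h3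
      rw [← h3]
      have h4 := nulY_mod q (fun a => M.Y i (f.2 a)) (fun a => by
        have h := (hf a).2.2.2
        rw [one_smul] at h
        rw [h]) c
      rw [← h4]
      abel

end

/-- All operators `Y` of the circles are null homotopic. -/
theorem nulY (hOKM : S_OKM) {G : Type} [CommGroup G] (g : GD G) {k : Type} [CommRing k] (D : DM k)
    (hD : D.Comm) (n : ℕ) : ∀ l < n,
    ∃ E, (g.Mn (fun _ => (1 : k)) D n).NuD 2 ((g.Mn (fun _ => (1 : k)) D n).Y (rv g.m l)) E := by
  induction n with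
  | zero =>
    intro l hl
    exact absurd hl (Nat.not_lt_zero l)
  | succ n ih =>
    intro l hl
    rcases Nat.lt_succ_iff_lt_or_eq.1 hl with h | h
    · obtain ⟨E, hE⟩ := ih l h
      exact ⟨_, hE.circ g.q g.b (rv g.m n) 1 (rho g.q g.ψ (rv g.m n))⟩
    · subst h
      exact ⟨_, MS.nuY (g.Mn (fun _ => (1 : k)) D l) g.n
        (hOKM G g k (fun _ => 1) D hD l).2.1 g.q g.b (rv g.m l)
        (Nat.pos_of_ne_zero (NeZero.ne g.q)) (rho g.q g.ψ (rv g.m l))⟩

end HRx
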