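import Pool.Agent.Lib.MP_181146_gt.HR.OpN
import Pool.Agent.Lib.MP_181146_gt.HP.SHE
import Pool.Agent.Lib.MP_181146_gt.HT.SpecT

/-!
# Project HR, part (c4): `z_i - 1` and `A h - 1` are null-homotopic on the periodic functions

`MS.NuQ P h`: on `Q` one has `P = δ h + h δ`, `h` odd of degree `1`, commuting with all `Y i` and
preserving `Q`.  `nul_mitZ`: `z (ix l) - 1`, `l < n`, on `mit .. n`.  `nul_mitA`: `A h - 1` on
`mit .. n` if this holds for the base.  `nul_ms0`: the base (chains with values in `D`).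
-/

set_option autoImplicit false
set_option linter.unusedVariables false

namespace HRx

open HEp HPx

section

variable {k : Type} [CommRing k] {H : Type} {F : FS H}

/-- `P = δ h + h δ` on `Q`. -/
structure MS.NuQ (M : MS k H F) (P h : Module.End k M.V) : Prop where
  e : ∀ x ∈ M.Q, M.δ (h x) + h (M.δ x) = P x
  s : ∀ x, M.sg (h x) = -h (M.sg x)
  Y : ∀ i x, h (M.Y i x) = M.Y i (h x)
  Q : ∀ x ∈ M.Q, h x ∈ M.Q
  G : ∀ i, ∀ x ∈ M.G i, h x ∈ M.G (i + 1)

/-- `B` commutes with all operators. -/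
structure MS.Ev (M : MS k H F) (B : Module.End k M.V) : Prop where
  d : ∀ x, M.δ (B x) = B (M.δ x)
  s : ∀ x, M.sg (B x) = B (M.sg x)
  Y : ∀ i x, B (M.Y i x) = M.Y i (B x)
  Q : ∀ x ∈ M.Q, B x ∈ M.Q
  G : ∀ i, ∀ x ∈ M.G i, B x ∈ M.G i

lemma MS.NuQ.congr {M : MS k H F} {P P' h : Module.End k M.V} (hP : M.NuQ P h)
    (h' : ∀ x ∈ M.Q, P x = P' x) : M.NuQ P' h :=
  ⟨fun x hx => (hP.e x hx).trans (h' x hx), hP.s, hP.Y, hP.Q, hP.G⟩

lemma MS.NuQ.zero (M : MS k H F) : M.NuQ 0 0 where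
  e x _ := by
    change M.δ (0 : M.V) + 0 = 0
    rw [map_zero, add_zero]
  s x := by
    change M.sg (0 : M.V) = -0
    rw [map_zero, neg_zero]
  Y i x := by
    change (0 : M.V) = M.Y i 0
    rw [map_zero]
  Q x _ := M.Q.zero_mem
  G i x _ := (M.G (i + 1)).zero_mem

lemma MS.NuQ.add {M : MS k H F} {P P' h h' : Module.End k M.V} (hP : M.NuQ P h)
    (hP' : M.NuQ P' h') : M.NuQ (P + P') (h + h') where
  e x hx := by
    rw [LinearMap.add_apply, LinearMap.add_apply, LinearMap.add_apply, ← hP.e x hx, ← hP'.e x hx,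
      map_add]
    abel
  s x := by
    rw [LinearMap.add_apply, LinearMap.add_apply, map_add, hP.s, hP'.s, neg_add]
  Y i x := by
    rw [LinearMap.add_apply, LinearMap.add_apply, hP.Y, hP'.Y, map_add]
  Q x hx := M.Q.add_mem (hP.Q x hx) (hP'.Q x hx)
  G i x hx := (M.G (i + 1)).add_mem (hP.G i x hx) (hP'.G i x hx)

lemma MS.NuQ.neg {M : MS k H F} {P h : Module.End k M.V} (hP : M.NuQ P h) :
    M.NuQ (-P) (-h) where
  e x hx := by
    rw [LinearMap.neg_apply, LinearMap.neg_apply, LinearMap.neg_apply, ← hP.e x hx, map_neg,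
      neg_add]
  s x := by
    rw [LinearMap.neg_apply, LinearMap.neg_apply, map_neg, hP.s]
  Y i x := by
    rw [LinearMap.neg_apply, LinearMap.neg_apply, hP.Y, map_neg]
  Q x hx := M.Q.neg_mem (hP.Q x hx)
  G i x hx := (M.G (i + 1)).neg_mem (hP.G i x hx)

lemma MS.NuQ.mul {M : MS k H F} {P h B : Module.End k M.V} (hB : M.Ev B) (hP : M.NuQ P h) :
    M.NuQ (B * P) (B * h) where
  e x hx := by
    rw [Module.End.mul_apply, Module.End.mul_apply, Module.End.mul_apply, hB.d, ← map_add,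
      hP.e x hx]
  s x := by
    rw [Module.End.mul_apply, Module.End.mul_apply, hB.s, hP.s, map_neg]
  Y i x := by
    rw [Module.End.mul_apply, Module.End.mul_apply, hP.Y, hB.Y]
  Q x hx := hB.Q _ (hP.Q x hx)
  G i x hx := hB.G _ _ (hP.G i x hx)

/-- An operator of the module, on the product with a circle. -/
lemma MS.NuQ.circ {M : MS k H F} {P h : Module.End k M.V} (hP : M.NuQ P h) (q b i : ℕ) (z : k)
    (ρ : H → ℤ) : (M.circ q b i z ρ).NuQ (cirM P) (cirM h) where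
  e := by
    rintro ⟨f1, f2⟩ hf
    refine Prod.ext ?_ ?_
    · funext c
      change M.δ (h (f1 c)) + (M.sg (h (f2 (c - 1))) - M.sg (h (f2 c))) +
        h (M.δ (f1 c) + (M.sg (f2 (c - 1)) - M.sg (f2 c))) = P (f1 c)
      rw [← hP.e (f1 c) (hf c).1, hP.s, hP.s, map_add, map_sub]
      abel
    · funext c
      change M.δ (h (f2 c)) + ∑ a ∈ Finset.range q, M.Y i (M.sg (h (f1 (c - a)))) +
        h (M.δ (f2 c) + ∑ a ∈ Finset.range q, M.Y i (M.sg (f1 (c - a)))) = P (f2 c)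
      rw [← hP.e (f2 c) (hf c).2.1, map_add, map_sum]
      have h1 : ∀ a ∈ Finset.range q, h (M.Y i (M.sg (f1 (c - a)))) =
          -M.Y i (M.sg (h (f1 (c - a)))) := by
        intro a _
        rw [hP.Y, hP.s, map_neg, neg_neg]
      rw [Finset.sum_congr rfl h1, Finset.sum_neg_distrib]
      abel
  s := by
    rintro ⟨f1, f2⟩
    refine Prod.ext ?_ ?_
    · funext c
      exact hP.s (f1 c)
    · funext c
      change -M.sg (h (f2 c)) = -h (-M.sg (f2 c))
      rw [hP.s, map_neg]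
  Y := by
    rintro j ⟨f1, f2⟩
    refine Prod.ext ?_ ?_
    · funext c
      exact hP.Y j (f1 c)
    · funext c
      exact hP.Y j (f2 c)
  Q := by
    rintro ⟨f1, f2⟩ hf c
    obtain ⟨h1, h2, h3, h4⟩ := hf c
    refine ⟨hP.Q _ h1, hP.Q _ h2, ?_, ?_⟩
    · change h (f1 (c - q)) = z • h (f1 c)
      rw [← map_smul]
      exact congrArg h h3
    · change h (f2 (c - q)) = z • h (f2 c)
      rw [← map_smul]
      exact congrArg h h4
  G := by
    rintro i ⟨f1, f2⟩ hf c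
    refine ⟨hP.G i _ (hf c).1, ?_⟩
    have h1 := hP.G (i - 1) _ (hf c).2
    have e1 : i - 1 + 1 = i + 1 - 1 := by ring
    rw [e1] at h1
    exact h1

/-- A commuting operator and a translation. -/
lemma MS.Ev.cir {M : MS k H F} {B : Module.End k M.V} (hB : M.Ev B) (q b i : ℕ) (z : k)
    (ρ : H → ℤ) (r : ℤ) : (M.circ q b i z ρ).Ev (cirA B r) where
  d := by
    rintro ⟨f1, f2⟩
    refine Prod.ext ?_ ?_
    · funext c
      change M.δ (B (f1 (c - r))) + (M.sg (B (f2 (c - 1 - r))) - M.sg (B (f2 (c - r)))) =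
        B (M.δ (f1 (c - r)) + (M.sg (f2 (c - r - 1)) - M.sg (f2 (c - r))))
      have e1 : c - 1 - r = c - r - 1 := by ring
      rw [hB.d, hB.s, hB.s, e1, map_add, map_sub]
    · funext c
      change M.δ (B (f2 (c - r))) + ∑ a ∈ Finset.range q, M.Y i (M.sg (B (f1 (c - a - r)))) =
        B (M.δ (f2 (c - r)) + ∑ a ∈ Finset.range q, M.Y i (M.sg (f1 (c - r - a))))
      rw [hB.d, map_add, map_sum]
      refine congrArg _ (Finset.sum_congr rfl fun a _ => ?_)
      have e1 : c - (a : ℤ) - r = c - r - a := by ring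
      rw [hB.s, hB.Y, e1]
  s := by
    rintro ⟨f1, f2⟩
    refine Prod.ext ?_ ?_
    · funext c
      exact hB.s (f1 (c - r))
    · funext c
      change -M.sg (B (f2 (c - r))) = B (-M.sg (f2 (c - r)))
      rw [hB.s, map_neg]
  Y := by
    rintro j ⟨f1, f2⟩
    refine Prod.ext ?_ ?_
    · funext c
      exact hB.Y j (f1 (c - r))
    · funext c
      exact hB.Y j (f2 (c - r))
  Q := by
    rintro ⟨f1, f2⟩ hf c
    obtain ⟨h1, h2, h3, h4⟩ := hf (c - r)
    have e1 : c - (q : ℤ) - r = c - r - q := by ring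
    refine ⟨hB.Q _ h1, hB.Q _ h2, ?_, ?_⟩
    · change B (f1 (c - q - r)) = z • B (f1 (c - r))
      rw [e1, ← map_smul]
      exact congrArg B h3
    · change B (f2 (c - q - r)) = z • B (f2 (c - r))
      rw [e1, ← map_smul]
      exact congrArg B h4
  G := by
    rintro i ⟨f1, f2⟩ hf c
    exact ⟨hB.G i _ (hf (c - r)).1, hB.G (i - 1) _ (hf (c - r)).2⟩

lemma MS.Ev.one (M : MS k H F) : M.Ev 1 :=
  ⟨fun _ => rfl, fun _ => rfl, fun _ _ => rfl, fun _ hx => hx, fun _ _ hx => hx⟩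

end

section

variable {k : Type} [CommRing k] {H : Type} [Group H] {F : FS H}

/-- The homotopy for the translation. -/
def cirH {V : Type} [AddCommGroup V] [Module k V] (sg : Module.End k V) :
    Module.End k (Cir V) where
  toFun f := (fun _ => 0, fun c => sg (f.1 c))
  map_add' f g := by
    refine Prod.ext ?_ ?_
    · funext c
      exact (add_zero (0 : V)).symm
    · funext c
      exact sg.map_add _ _
  map_smul' r f := by
    refine Prod.ext ?_ ?_
    · funext c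
      exact (smul_zero r).symm
    · funext c
      exact sg.map_smul _ _

/-- The translation by `1`. -/
lemma nul_T1 {M : MS k H F} {n : ℤ} (hM : M.OK n) (q b i : ℕ) (z : k) (ρ : H → ℤ) :
    (M.circ q b i z ρ).NuQ (cirA 1 1 - 1) (cirH M.sg) where
  e := by
    rintro ⟨f1, f2⟩ hf
    refine Prod.ext ?_ ?_
    · funext c
      change M.δ 0 + (M.sg (M.sg (f1 (c - 1))) - M.sg (M.sg (f1 c))) + 0 = f1 (c - 1) - f1 c
      rw [hM.ss, hM.ss, map_zero, zero_add, add_zero]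
    · funext c
      change M.δ (M.sg (f1 c)) + ∑ a ∈ Finset.range q, M.Y i (M.sg 0) +
        M.sg (M.δ (f1 c) + (M.sg (f2 (c - 1)) - M.sg (f2 c))) = f2 (c - 1) - f2 c
      rw [map_add, map_sub, hM.sd, hM.ss, hM.ss, map_zero, map_zero, Finset.sum_const_zero]
      abel
  s := by
    rintro ⟨f1, f2⟩
    refine Prod.ext ?_ ?_
    · funext c
      change M.sg 0 = -0
      rw [map_zero, neg_zero]
    · funext c
      rfl
  Y := by
    rintro j ⟨f1, f2⟩
    refine Prod.ext ?_ ?_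
    · funext c
      change (0 : M.V) = M.Y j 0
      rw [map_zero]
    · funext c
      exact (hM.Ys j (f1 c)).symm
  Q := by
    rintro ⟨f1, f2⟩ hf c
    obtain ⟨h1, h2, h3, h4⟩ := hf c
    refine ⟨M.Q.zero_mem, hM.Qs _ h1, (smul_zero z).symm, ?_⟩
    change M.sg (f1 (c - q)) = z • M.sg (f1 c)
    rw [← map_smul]
    exact congrArg M.sg h3
  G := by
    rintro i ⟨f1, f2⟩ hf c
    refine ⟨(M.G (i + 1)).zero_mem, ?_⟩
    change M.sg (f1 c) ∈ M.G (i + 1 - 1)
    rw [add_sub_cancel_right]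
    exact hM.Gs i _ (hf c).1

/-- The translations. -/
lemma nul_T {M : MS k H F} {n : ℤ} (hM : M.OK n) (q b i : ℕ) (z : k) (ρ : H → ℤ) (r : ℤ) :
    ∃ h, (M.circ q b i z ρ).NuQ (cirA 1 r - 1) h := by
  have hA : ∀ r s : ℤ, (cirA (1 : Module.End k M.V) (r + s) : Module.End k (Cir M.V)) =
      cirA 1 r * cirA 1 s := by
    intro r s
    apply LinearMap.ext
    rintro ⟨f1, f2⟩
    refine Prod.ext ?_ ?_ <;>
    · funext c
      first
      | exact congrArg f1 (by ring)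
      | exact congrArg f2 (by ring)
  have h0 : (cirA (1 : Module.End k M.V) 0 : Module.End k (Cir M.V)) = 1 := by
    apply LinearMap.ext
    rintro ⟨f1, f2⟩
    refine Prod.ext ?_ ?_ <;>
    · funext c
      first
      | exact congrArg f1 (by ring)
      | exact congrArg f2 (by ring)
  have hE : ∀ r : ℤ, (M.circ q b i z ρ).Ev (cirA 1 r) := fun r => (MS.Ev.one M).cir q b i z ρ r
  induction r using Int.induction_on with
  | zero =>
    have e1 : (cirA (1 : Module.End k M.V) 0 - 1 : Module.End k (Cir M.V)) = 0 := by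
      rw [h0, sub_self]
    exact ⟨0, (MS.NuQ.zero _).congr fun x _ => (LinearMap.congr_fun e1 x).symm⟩
  | succ r ih =>
    obtain ⟨h, hh⟩ := ih
    refine ⟨_, (((nul_T1 hM q b i z ρ).mul (hE r)).add hh).congr fun x _ => ?_⟩
    have e1 : (cirA (1 : Module.End k M.V) (r : ℤ) * (cirA 1 1 - 1) + (cirA 1 (r : ℤ) - 1) :
        Module.End k (Cir M.V)) = cirA 1 ((r : ℤ) + 1) - 1 := by
      rw [hA, mul_sub, mul_one]
      abel
    exact LinearMap.congr_fun e1 x
  | pred r ih =>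
    obtain ⟨h, hh⟩ := ih
    refine ⟨_, (((nul_T1 hM q b i z ρ).mul (hE (-(r : ℤ) - 1))).neg.add hh).congr fun x _ => ?_⟩
    have e1 : (-(cirA (1 : Module.End k M.V) (-(r : ℤ) - 1) * (cirA 1 1 - 1)) +
        (cirA 1 (-(r : ℤ)) - 1) : Module.End k (Cir M.V)) = cirA 1 (-(r : ℤ) - 1) - 1 := by
      have e2 := hA (-(r : ℤ) - 1) 1
      rw [sub_add_cancel] at e2
      rw [mul_sub, mul_one, ← e2]
      abel
    exact LinearMap.congr_fun e1 x

/-- `z - 1`. -/
lemma nul_z {M : MS k H F} {n : ℤ} (hM : M.OK n) (q b i : ℕ) (z : k) (ρ : H → ℤ) :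
    ∃ h, (M.circ q b i z ρ).NuQ ((z - 1) • 1) h := by
  obtain ⟨h, hh⟩ := nul_T hM q b i z ρ q
  refine ⟨h, hh.congr ?_⟩
  rintro ⟨f1, f2⟩ hf
  refine Prod.ext ?_ ?_
  · funext c
    change f1 (c - q) - f1 c = (z - 1) • f1 c
    rw [sub_smul, one_smul]
    exact congrArg (· - f1 c) (hf c).2.2.1
  · funext c
    change f2 (c - q) - f2 c = (z - 1) • f2 c
    rw [sub_smul, one_smul]
    exact congrArg (· - f2 c) (hf c).2.2.2

/-- An operator of the module and a translation. -/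
lemma nul_A {M : MS k H F} {n : ℤ} (hM : M.OK n) (q b i : ℕ) (z : k) (ρ : H → ℤ)
    {A h : Module.End k M.V} (hA : M.NuQ (A - 1) h) (hE : M.Ev A) (r : ℤ) :
    ∃ h', (M.circ q b i z ρ).NuQ (cirA A r - 1 : Module.End k (Cir M.V)) h' := by
  obtain ⟨h', hh'⟩ := nul_T hM q b i z ρ r
  refine ⟨_, ((hh'.mul (hE.cir q b i z ρ 0)).add (hA.circ q b i z ρ)).congr ?_⟩
  rintro ⟨f1, f2⟩ _
  refine Prod.ext ?_ ?_
  · funext c
    change A (f1 (c - 0 - r) - f1 (c - 0)) + (A (f1 c) - f1 c) = A (f1 (c - r)) - f1 c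
    rw [sub_zero, map_sub]
    abel
  · funext c
    change A (f2 (c - 0 - r) - f2 (c - 0)) + (A (f2 c) - f2 c) = A (f2 (c - r)) - f2 c
    rw [sub_zero, map_sub]
    abel

lemma MS.OK.evA {M : MS k H F} {n : ℤ} (hM : M.OK n) (h : H) : M.Ev (M.A h) :=
  ⟨fun x => (hM.Ad h x).symm, fun x => (hM.As h x).symm, fun i x => hM.AY h i x, hM.QA h, hM.GA h⟩

end

/-- `z (ix l) - 1` is null-homotopic on `Q`, `l < n`. -/
theorem nul_mitZ (hFM : S_FMit) (k : Type) [CommRing k] (H : Type) [Group H] (F : FS H) (hF : F.OK)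
    (M : MS k H F) (d : ℤ) (hM : M.OK d) (q b : ℕ) (ix : ℕ → ℕ) (z : ℕ → k) (ρ : ℕ → H → ℤ)
    (h1 : ∀ i, ρ i 1 = 0) (hρ : ∀ i h h', ρ i (h * h') = ρ i h + ρ i h') (n : ℕ) :
    ∀ l < n, ∃ h, (mit M q b ix z ρ n).NuQ ((z (ix l) - 1) • 1) h := by
  induction n with
  | zero => intro l hl; omega
  | succ n ih =>
    intro l hl
    by_cases hln : l = n
    · subst hln
      exact nul_z (hFM k H F hF M d hM q b ix z ρ h1 hρ l).2 q b (ix l) (z (ix l)) (ρ (ix l))
    · obtain ⟨h, hh⟩ := ih l (by omega)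
      refine ⟨cirM h, (hh.circ q b (ix n) (z (ix n)) (ρ (ix n))).congr ?_⟩
      intro x _
      rfl

/-- `A h - 1` is null-homotopic on `Q`. -/
theorem nul_mitA (hFM : S_FMit) (k : Type) [CommRing k] (H : Type) [Group H] (F : FS H) (hF : F.OK)
    (M : MS k H F) (d : ℤ) (hM : M.OK d) (q b : ℕ) (ix : ℕ → ℕ) (z : ℕ → k) (ρ : ℕ → H → ℤ)
    (h1 : ∀ i, ρ i 1 = 0) (hρ : ∀ i h h', ρ i (h * h') = ρ i h + ρ i h') (g : H)
    (h0 : ∃ h, M.NuQ (M.A g - 1) h) (n : ℕ) :
    ∃ h, (mit M q b ix z ρ n).NuQ ((mit M q b ix z ρ n).A g - 1) h := by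
  induction n with
  | zero => exact h0
  | succ n ih =>
    obtain ⟨h, hh⟩ := ih
    have hO := (hFM k H F hF M d hM q b ix z ρ h1 hρ n).2
    exact nul_A hO q b (ix n) (z (ix n)) (ρ (ix n)) hh (hO.evA g) (ρ (ix n) g)

end HRx
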