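import Pool.Agent.Lib.MP_181146_gt.HR.SpecB

/-!
# Project HR, OpY: the operators `κ(Y)` on sequences and on chains
-/

set_option autoImplicit false

namespace HRx

open HEp HPx

private lemma opy_comm {k : Type} [CommRing k] {V : Type} [AddCommGroup V] [Module k V]
    (Y : ℕ → Module.End k V) (hY : ∀ i j, Commute (Y i) (Y j)) (b : ℕ) (ix : ℕ → ℕ) (n : ℕ) :
    ∀ (κ : (ℕ → ℕ) → ℤ) (i : ℕ), Commute (Ko Y b ix n κ) (Y i) := by
  induction n with
  | zero =>
    intro κ i
    exact (Commute.one_left _).smul_left _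
  | succ n ih =>
    intro κ i
    exact Commute.sum_left _ _ _ fun j _ => (ih _ i).mul_left ((hY _ _).pow_left j)

private lemma opy_int {k : Type} [CommRing k] {V V' : Type} [AddCommGroup V] [Module k V]
    [AddCommGroup V'] [Module k V'] (Y : ℕ → Module.End k V) (Y' : ℕ → Module.End k V')
    (e : V →ₗ[k] V') (he : ∀ i x, e (Y i x) = Y' i (e x)) (b : ℕ) (ix : ℕ → ℕ) (n : ℕ) :
    ∀ (κ : (ℕ → ℕ) → ℤ) (x : V), e (Ko Y b ix n κ x) = Ko Y' b ix n κ (e x) := by
  have hp : ∀ (i m : ℕ) (x : V), e ((Y i ^ m) x) = (Y' i ^ m) (e x) := by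
    intro i m
    induction m with
    | zero => intro x; rfl
    | succ m ih =>
      intro x
      rw [pow_succ', pow_succ', Module.End.mul_apply, Module.End.mul_apply, he, ih]
  induction n with
  | zero =>
    intro κ x
    change e (κ 0 • x) = κ 0 • e x
    exact map_zsmul e _ _
  | succ n ih =>
    intro κ x
    change e ((∑ j ∈ Finset.range (b + 1),
      Ko Y b ix n (fun a => κ (Function.update a (ix n) j)) * Y (ix n) ^ j) x) =
      (∑ j ∈ Finset.range (b + 1),
      Ko Y' b ix n (fun a => κ (Function.update a (ix n) j)) * Y' (ix n) ^ j) (e x)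
    rw [LinearMap.sum_apply, LinearMap.sum_apply, map_sum]
    refine Finset.sum_congr rfl fun j _ => ?_
    rw [Module.End.mul_apply, Module.End.mul_apply, ih, hp]

private lemma opy_pow_loc {k : Type} [CommRing k] (D : DM k) (i m : ℕ) :
    ∀ (u u' : D.Sq) (j : ℕ), u (j + m) = u' (j + m) →
      ((D.tY i ^ m) u) j = ((D.tY i ^ m) u') j := by
  induction m with
  | zero => intro u u' j h; exact h
  | succ m ih =>
    intro u u' j h
    rw [pow_succ', Module.End.mul_apply, Module.End.mul_apply]
    change D.Y i j (((D.tY i ^ m) u) (j + 1)) = D.Y i j (((D.tY i ^ m) u') (j + 1))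
    have e : j + 1 + m = j + (m + 1) := by ring
    rw [ih u u' (j + 1) (by rw [e]; exact h)]

private lemma opy_loc {k : Type} [CommRing k] (D : DM k) (b : ℕ) (ix : ℕ → ℕ)
    (hix : Function.Injective ix) (n : ℕ) :
    ∀ (κ : (ℕ → ℕ) → ℤ) (w : ℤ) (_ : ∀ a, κ a ≠ 0 → ((∑ l ∈ Finset.range n, a (ix l) : ℕ) : ℤ) = w)
      (u u' : D.Sq) (j : ℕ), (∀ j' : ℕ, (j' : ℤ) = j + w → u j' = u' j') →
      (Ko D.tY b ix n κ u) j = (Ko D.tY b ix n κ u') j := by
  induction n with
  | zero =>
    intro κ w hκ u u' j h
    change κ 0 • u j = κ 0 • u' j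
    by_cases h0 : κ 0 = 0
    · rw [h0, zero_smul, zero_smul]
    · have hw := hκ 0 h0
      rw [Finset.sum_range_zero] at hw
      rw [h j (by rw [← hw]; simp)]
  | succ n ih =>
    intro κ w hκ u u' j h
    change ((∑ i ∈ Finset.range (b + 1),
      Ko D.tY b ix n (fun a => κ (Function.update a (ix n) i)) * D.tY (ix n) ^ i) u) j =
      ((∑ i ∈ Finset.range (b + 1),
      Ko D.tY b ix n (fun a => κ (Function.update a (ix n) i)) * D.tY (ix n) ^ i) u') j
    rw [LinearMap.sum_apply, LinearMap.sum_apply, Finset.sum_apply, Finset.sum_apply]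
    refine Finset.sum_congr rfl fun i _ => ?_
    rw [Module.End.mul_apply, Module.End.mul_apply]
    refine ih (fun a => κ (Function.update a (ix n) i)) (w - i) ?_ _ _ j ?_
    · intro a ha
      have h1 := hκ _ ha
      rw [Finset.sum_range_succ, Function.update_self] at h1
      have h2 : ∑ l ∈ Finset.range n, Function.update a (ix n) i (ix l) =
          ∑ l ∈ Finset.range n, a (ix l) := by
        refine Finset.sum_congr rfl fun l hl => ?_
        rw [Function.update_of_ne]
        intro e
        exact (Finset.mem_range.1 hl).ne (hix e)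
      rw [h2] at h1
      push_cast at h1 ⊢
      linarith
    · intro j' hj'
      refine opy_pow_loc D (ix n) i u u' j' (h _ ?_)
      push_cast
      linarith

theorem sOpY : S_OpY := by
  intro K k _ D hD b ix hix n w κ hκ
  have hloc : ∀ (u u' : D.Sq) j, u (j + w) = u' (j + w) →
      (Ko D.tY b ix n κ u) j = (Ko D.tY b ix n κ u') j := by
    intro u u' j h
    refine opy_loc D b ix hix n κ w (fun a ha => by rw [hκ a ha]) u u' j fun j' hj' => ?_
    have e : j' = j + w := by exact_mod_cast hj'
    rw [e]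
    exact h
  refine ⟨?_, hloc, ?_, ?_, ?_⟩
  · intro i u
    have hY : ∀ i j, Commute (D.tY i) (D.tY j) := by
      intro i i'
      refine LinearMap.ext fun u => funext fun j => ?_
      exact hD i i' j (u (j + 1 + 1))
    have h := opy_comm D.tY hY b ix n κ i
    exact LinearMap.congr_fun h u
  · intro j hj x
    funext l
    have h := hloc (Pi.single j x) 0 l (by
      rw [Pi.single_eq_of_ne (by omega)]
      rfl)
    rw [h, map_zero]
  · intro j x
    refine ⟨(Ko D.tY b ix n κ (Pi.single (j + w) x)) j, ?_⟩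
    funext l
    by_cases hl : l = j
    · subst hl
      rw [Pi.single_eq_same]
    · rw [Pi.single_eq_of_ne hl]
      have h := hloc (Pi.single (j + w) x) 0 l (by
        rw [Pi.single_eq_of_ne (by omega)]
        rfl)
      rw [h, map_zero]
      rfl
  · refine LinearMap.ext fun h => funext fun j => Finsupp.ext fun x => ?_
    let e : ChD K D →ₗ[k] D.Sq :=
      LinearMap.pi fun i => Finsupp.lapply x ∘ₗ LinearMap.proj i
    have he : ∀ i y, e (yD K D i y) = D.tY i (e y) := by
      intro i y
      funext l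
      change (Finsupp.mapRange.linearMap (D.Y i l) (y (l + 1))) x = D.Y i l (y (l + 1) x)
      simp
    have h1 := opy_int (yD K D) D.tY e he b ix n κ h
    have h2 : (e (Ko (yD K D) b ix n κ h)) j = (Ko (yD K D) b ix n κ h) j x := rfl
    have h3 : (opW K D w (Ko D.tY b ix n κ) h) j x =
        (Ko D.tY b ix n κ (Pi.single (j + w) (h (j + w) x))) j := by
      change (Finsupp.mapRange.linearMap (LinearMap.proj j ∘ₗ Ko D.tY b ix n κ ∘ₗ
        LinearMap.single k D.D (j + w)) (h (j + w))) x = _
      simp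
    rw [← h2, h1, h3]
    refine hloc _ _ j ?_
    rw [Pi.single_eq_same]
    rfl

end HRx
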