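import Pool.Agent.Lib.MP_181146_gt.HR.PrI
import Pool.Agent.Lib.MP_181146_gt.HR.OpN

/-!
# Project HR, part (c2): the base
-/

set_option autoImplicit false
set_option linter.unusedVariables false
set_option linter.unusedSectionVars false

namespace HRx

open HEp HPx

section Up

variable {k : Type} [CommRing k] (K : SS) (D : DM k)

/-- The raising operator on the chains. -/
noncomputable def upC (τ : ∀ j, D.D j →ₗ[k] D.D (j + 1)) : Module.End k (ChD K D) where
  toFun h := fun j => match j with
    | 0 => 0
    | j + 1 => Finsupp.mapRange (τ j) (map_zero _) (h j)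
  map_add' f g := by
    funext j
    cases j with
    | zero => exact (add_zero (0 : ChN K (D.D 0))).symm
    | succ j => exact Finsupp.mapRange_add (map_add _) _ _
  map_smul' r f := by
    funext j
    cases j with
    | zero => exact (smul_zero r).symm
    | succ j =>
      ext x
      change τ j (r • f j x) = r • τ j (f j x)
      rw [map_smul]

variable {K D}

lemma upC_cf (τ : ∀ j, D.D j →ₗ[k] D.D (j + 1)) (h : ChD K D) (x : Σ n, K.K n) :
    (fun j => upC K D τ h j x) = D.up τ (fun j => h j x) := by
  funext j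
  cases j with
  | zero => rfl
  | succ j => rfl

lemma yD_cf (i : ℕ) (h : ChD K D) (x : Σ n, K.K n) :
    (fun j => yD K D i h j x) = D.tY i (fun j => h j x) := by
  funext j
  rfl

/-- The sections on the chains. -/
theorem upC_Sec {H : Type} (α : H → SSHom K K) (a : Ch ℤ K →ₗ[ℤ] Ch ℤ K) (m i : ℕ)
    (τ : ∀ j, D.D j →ₗ[k] D.D (j + 1)) (sec : ∀ j x, D.Y i j (τ j x) = x)
    (com : ∀ l < m, l ≠ i → ∀ x, D.tY l (D.up τ x) = D.up τ (D.tY l x)) :
    Sec (ms0 K α D a) m i (upC K D τ) where
  sec := by
    intro h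
    funext j
    refine Finsupp.ext fun x => ?_
    exact sec j _
  d := by
    intro h
    funext j
    cases j with
    | zero => exact (map_zero (opN (k := k) (D.D 0) (bd ℤ K))).symm
    | succ j =>
      exact ((sOpN K k (D.D j)).2.2.2.2.2.2 k (D.D (j + 1)) (τ j).toAddMonoidHom (bd ℤ K) (h j))
  s := by
    intro h
    funext j
    cases j with
    | zero => exact (map_zero (opN (k := k) (D.D 0) (sgC K))).symm
    | succ j =>
      exact ((sOpN K k (D.D j)).2.2.2.2.2.2 k (D.D (j + 1)) (τ j).toAddMonoidHom (sgC K) (h j))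
  Y := by
    intro l hl hli (h : ChD K D)
    funext j
    refine Finsupp.ext fun x => ?_
    have h1 := congrFun (upC_cf τ (yD K D l h) x) j
    have h2 := congrFun (yD_cf l (upC K D τ h) x) j
    refine h1.trans ?_
    refine Eq.trans ?_ h2.symm
    rw [yD_cf, upC_cf, com l hl hli]
  Q := fun x hx => hx
  G := by
    intro d h hh j x hx
    cases j with
    | zero => rfl
    | succ j =>
      change τ j (h j x) = 0
      rw [hh j x, map_zero]
      intro e
      apply hx
      push_cast
      omega

/-- The component of degree `0` of `D` is not changed by the projections. -/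
lemma EE_zero {H : Type} (α : H → SSHom K K) (a : Ch ℤ K →ₗ[ℤ] Ch ℤ K) (ix : ℕ → ℕ)
    (τ : ℕ → ∀ j, D.D j →ₗ[k] D.D (j + 1)) (n : ℕ) (h : ChD K D) :
    (EE (ms0 K α D a) ix (fun i => upC K D (τ i)) n h : ChD K D) 0 = h 0 := by
  induction n generalizing h with
  | zero => rfl
  | succ n ih =>
    refine (ih _).trans ?_
    change h 0 - (0 : ChN K (D.D 0)) = h 0
    rw [sub_zero]

end Up

section Bd

lemma sum_lsingle {F : Type} [CommRing F] {K : SS} (c : Ch ℤ K) :
    (c.sum (fun y r => r • (Finsupp.lsingle (R := F) y : F →ₗ[F] ChN K F))) 1 =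
      Finsupp.mapRange.addMonoidHom (Int.castAddHom F) c := by
  induction c using Finsupp.induction_linear with
  | zero =>
    rw [Finsupp.sum_zero_index, LinearMap.zero_apply, map_zero]
  | add a b ha hb =>
    rw [Finsupp.sum_add_index' (by intro y; exact zero_smul _ _) (by
      intro y r s; exact add_smul _ _ _), LinearMap.add_apply, ha, hb, map_add]
  | single y r =>
    have h1 := Finsupp.sum_single_index (a := y) (b := r)
      (h := fun (y : Σ n, K.K n) (r : ℤ) => r • (Finsupp.lsingle (R := F) y : F →ₗ[F] ChN K F))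
      (zero_smul _ _)
    rw [h1, LinearMap.smul_apply, Finsupp.lsingle_apply, Finsupp.smul_single,
      Finsupp.mapRange.addMonoidHom_apply, Finsupp.mapRange_single]
    congr 1
    change r • (1 : F) = (r : F)
    rw [zsmul_eq_mul, mul_one]

/-- The boundary over `F`. -/
theorem bd_opN (F : Type) [CommRing F] (K : SS) : bd F K = (opN F (bd ℤ K) : ChN K F →ₗ[F] ChN K F) := by
  apply Finsupp.lhom_ext'
  rintro ⟨n, x⟩
  apply LinearMap.ext_ring
  change bd F K (Finsupp.single ⟨n, x⟩ 1) =
    (opN F (bd ℤ K) : ChN K F →ₗ[F] ChN K F) (Finsupp.single ⟨n, x⟩ 1)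
  have e : (opN F (bd ℤ K) : ChN K F →ₗ[F] ChN K F) (Finsupp.single ⟨n, x⟩ 1) =
      ((bd ℤ K (Finsupp.single ⟨n, x⟩ 1)).sum
        (fun y r => r • (Finsupp.lsingle (R := F) y : F →ₗ[F] ChN K F))) 1 := by
    simp only [opN, Finsupp.lsum_single]
  rw [e, sum_lsingle, bd, bd, Finsupp.linearCombination_single, Finsupp.linearCombination_single,
    one_smul, one_smul]
  cases n with
  | zero => exact (map_zero _).symm
  | succ n =>
    change ∑ i : Fin (n + 2), (-1 : F) ^ (i : ℕ) • sx F (K.act i.succAbove x) =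
      Finsupp.mapRange.addMonoidHom (Int.castAddHom F)
        (∑ i : Fin (n + 2), (-1 : ℤ) ^ (i : ℕ) • sx ℤ (K.act i.succAbove x))
    rw [map_sum]
    refine Finset.sum_congr rfl fun i _ => ?_
    rw [sx, sx, Finsupp.smul_single, Finsupp.smul_single, Finsupp.mapRange.addMonoidHom_apply,
      Finsupp.mapRange_single]
    congr 1
    change (-1 : F) ^ (i : ℕ) * 1 = (((-1 : ℤ) ^ (i : ℕ) * 1 : ℤ) : F)
    push_cast
    ring

end Bd

end HRx
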