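import Pool.Agent.Lib.MP_181146_gt.HR.DefsQ

/-!
# Project HR, part (c2): one circle with `z = 1`

`prC`, `ioC`, `hC`: projection of the periodic functions onto `ker Y`, inclusion, homotopy, for an
operator `Y` with a section `τ`.
-/

set_option autoImplicit false
set_option linter.unusedVariables false

namespace HRx

open HEp HPx

section Def

variable {k : Type} [CommRing k] {V : Type} [AddCommGroup V] [Module k V]

/-- The sum over one period of the first component. -/
def smC (q : ℕ) : Cir V →ₗ[k] V := cirN q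

/-- The projection onto `ker Y`. -/
def prC (q : ℕ) (τ Y : Module.End k V) : Cir V →ₗ[k] V where
  toFun f := smC (k := k) q f - τ (Y (smC (k := k) q f))
  map_add' f g := by
    rw [map_add, map_add, map_add]
    abel
  map_smul' r f := by
    rw [map_smul, map_smul, map_smul, RingHom.id_apply, smul_sub]

/-- The inclusion: functions supported on the multiples of `q`. -/
def ioC (q : ℕ) : V →ₗ[k] Cir V where
  toFun v := (fun c => if (q : ℤ) ∣ c then v else 0, fun _ => 0)
  map_add' v w := by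
    refine Prod.ext ?_ ?_
    · funext c
      change (if (q : ℤ) ∣ c then v + w else 0) =
        (if (q : ℤ) ∣ c then v else 0) + (if (q : ℤ) ∣ c then w else 0)
      split_ifs
      · rfl
      · rw [add_zero]
    · funext c
      exact (add_zero (0 : V)).symm
  map_smul' r v := by
    refine Prod.ext ?_ ?_
    · funext c
      change (if (q : ℤ) ∣ c then r • v else 0) = r • (if (q : ℤ) ∣ c then v else 0)
      split_ifs
      · rfl
      · rw [smul_zero]
    · funext c
      exact (smul_zero r).symm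

/-- The homotopy. -/
def hC (q : ℕ) (τ sg : Module.End k V) : Cir V →ₗ[k] Cir V where
  toFun f := (fun c => if (q : ℤ) ∣ c then sg (τ (f.2 (c - 1))) else 0,
    fun c => ∑ a ∈ Finset.range q, if c % (q : ℤ) < (a : ℤ) then sg (f.1 a) else 0)
  map_add' f g := by
    refine Prod.ext ?_ ?_
    · funext c
      change (if (q : ℤ) ∣ c then sg (τ (f.2 (c - 1) + g.2 (c - 1))) else 0) =
        (if (q : ℤ) ∣ c then sg (τ (f.2 (c - 1))) else 0) +
          (if (q : ℤ) ∣ c then sg (τ (g.2 (c - 1))) else 0)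
      split_ifs
      · rw [map_add, map_add]
      · rw [add_zero]
    · funext c
      change (∑ a ∈ Finset.range q, if c % (q : ℤ) < (a : ℤ) then sg (f.1 a + g.1 a) else 0) =
        (∑ a ∈ Finset.range q, if c % (q : ℤ) < (a : ℤ) then sg (f.1 a) else 0) +
          ∑ a ∈ Finset.range q, if c % (q : ℤ) < (a : ℤ) then sg (g.1 a) else 0
      rw [← Finset.sum_add_distrib]
      refine Finset.sum_congr rfl fun a _ => ?_
      split_ifs
      · rw [map_add]
      · rw [add_zero]
  map_smul' r f := by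
    refine Prod.ext ?_ ?_
    · funext c
      change (if (q : ℤ) ∣ c then sg (τ (r • f.2 (c - 1))) else 0) =
        r • (if (q : ℤ) ∣ c then sg (τ (f.2 (c - 1))) else 0)
      split_ifs
      · rw [map_smul, map_smul]
      · rw [smul_zero]
    · funext c
      change (∑ a ∈ Finset.range q, if c % (q : ℤ) < (a : ℤ) then sg (r • f.1 a) else 0) =
        r • ∑ a ∈ Finset.range q, if c % (q : ℤ) < (a : ℤ) then sg (f.1 a) else 0
      rw [Finset.smul_sum]
      refine Finset.sum_congr rfl fun a _ => ?_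
      split_ifs
      · rw [map_smul]
      · rw [smul_zero]

lemma smC_apply (q : ℕ) (f : Cir V) : smC (k := k) q f = ∑ c ∈ Finset.range q, f.1 c := rfl

lemma prC_apply (q : ℕ) (τ Y : Module.End k V) (f : Cir V) :
    prC q τ Y f = smC (k := k) q f - τ (Y (smC (k := k) q f)) := rfl

lemma ioC_1 (q : ℕ) (v : V) (c : ℤ) :
    (ioC (k := k) q v).1 c = if (q : ℤ) ∣ c then v else 0 := rfl

lemma ioC_2 (q : ℕ) (v : V) (c : ℤ) : (ioC (k := k) q v).2 c = 0 := rfl

lemma hC_1 (q : ℕ) (τ sg : Module.End k V) (f : Cir V) (c : ℤ) :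
    (hC q τ sg f).1 c = if (q : ℤ) ∣ c then sg (τ (f.2 (c - 1))) else 0 := rfl

lemma hC_2 (q : ℕ) (τ sg : Module.End k V) (f : Cir V) (c : ℤ) :
    (hC q τ sg f).2 c = ∑ a ∈ Finset.range q, if c % (q : ℤ) < (a : ℤ) then sg (f.1 a) else 0 := rfl

lemma cirD_1 (q : ℕ) (δ sg Y : Module.End k V) (f : Cir V) (c : ℤ) :
    (cirD q δ sg Y f).1 c = δ (f.1 c) + (sg (f.2 (c - 1)) - sg (f.2 c)) := rfl

lemma cirD_2 (q : ℕ) (δ sg Y : Module.End k V) (f : Cir V) (c : ℤ) :
    (cirD q δ sg Y f).2 c = δ (f.2 c) + ∑ a ∈ Finset.range q, Y (sg (f.1 (c - a))) := rfl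

end Def

/-! ## Periodic functions -/

section Per

variable {V : Type} [AddCommGroup V]

lemma per_mul (q : ℕ) (u : ℤ → V) (hu : ∀ c, u (c - q) = u c) (t : ℤ) (c : ℤ) :
    u (c + q * t) = u c := by
  have h1 : ∀ (n : ℕ) (c : ℤ), u (c - q * n) = u c := by
    intro n
    induction n with
    | zero => intro c; congr 1; push_cast; ring
    | succ n ih =>
      intro c
      rw [← ih c, ← hu (c - q * n)]
      congr 1
      push_cast
      ring
  obtain ⟨n, rfl | rfl⟩ := t.eq_nat_or_neg
  · have := h1 n (c + q * n)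
    rw [← this]
    congr 1
    ring
  · rw [← h1 n c]
    congr 1
    ring

lemma per_mod (q : ℕ) (u : ℤ → V) (hu : ∀ c, u (c - q) = u c) (c : ℤ) : u (c % q) = u c := by
  have h := per_mul q u hu (c / q) (c % q)
  rw [← h, Int.emod_add_mul_ediv]

lemma per_dvd (q : ℕ) (u : ℤ → V) (hu : ∀ c, u (c - q) = u c) (c d : ℤ) (h : (q : ℤ) ∣ c - d) :
    u c = u d := by
  obtain ⟨t, ht⟩ := h
  have : c = d + q * t := by rw [← ht]; ring
  rw [this, per_mul q u hu]

/-- The sum over one period, in the opposite direction. -/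
lemma per_sum (q : ℕ) (u : ℤ → V) (hu : ∀ c, u (c - q) = u c) (c : ℤ) :
    ∑ a ∈ Finset.range q, u (c - a) = ∑ a ∈ Finset.range q, u a := by
  -- shift invariance of the sum over a window
  have key : ∀ c : ℤ, ∑ a ∈ Finset.range q, u (c - a) = ∑ a ∈ Finset.range q, u (c - 1 - a) := by
    intro c
    have h1 : ∑ a ∈ Finset.range (q + 1), u (c - a) =
        ∑ a ∈ Finset.range q, u (c - a) + u (c - q) := Finset.sum_range_succ _ _
    have h2 : ∑ a ∈ Finset.range (q + 1), u (c - a) =
        ∑ a ∈ Finset.range q, u (c - 1 - a) + u c := by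
      rw [Finset.sum_range_succ']
      congr 1
      · refine Finset.sum_congr rfl fun a _ => ?_
        congr 1
        push_cast
        ring
      · congr 1
        push_cast
        ring
    rw [h1, hu] at h2
    exact add_right_cancel h2
  have key2 : ∀ (n : ℕ) (c : ℤ), ∑ a ∈ Finset.range q, u (c - a) =
      ∑ a ∈ Finset.range q, u (c - n - a) := by
    intro n
    induction n with
    | zero => intro c; refine Finset.sum_congr rfl fun a _ => ?_; congr 1; push_cast; ring
    | succ n ih =>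
      intro c
      rw [ih c, key (c - n)]
      refine Finset.sum_congr rfl fun a _ => ?_
      congr 1
      push_cast
      ring
  have key3 : ∀ c d : ℤ, ∑ a ∈ Finset.range q, u (c - a) = ∑ a ∈ Finset.range q, u (d - a) := by
    intro c d
    rcases le_total c d with h | h
    · obtain ⟨n, hn⟩ := Int.eq_ofNat_of_zero_le (sub_nonneg.2 h)
      rw [key2 n d]
      refine Finset.sum_congr rfl fun a _ => ?_
      congr 1
      have : (d : ℤ) - c = n := hn
      linarith
    · obtain ⟨n, hn⟩ := Int.eq_ofNat_of_zero_le (sub_nonneg.2 h)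
      rw [key2 n c]
      refine Finset.sum_congr rfl fun a _ => ?_
      congr 1
      have : (c : ℤ) - d = n := hn
      linarith
  rw [key3 c ((q : ℤ) - 1)]
  rw [← Finset.sum_range_reflect]
  refine Finset.sum_congr rfl fun a ha => ?_
  congr 1
  have := Finset.mem_range.1 ha
  push_cast [Nat.cast_sub (by omega : a ≤ q - 1), Nat.cast_sub (by omega : 1 ≤ q)]
  ring

/-- Telescoping sum. -/
lemma tel_sum (u : ℤ → V) (r : ℕ) (n : ℕ) (hr : r < n) :
    (∑ a ∈ Finset.range n, if (r : ℤ) < (a : ℤ) then u (a - 1) - u a else 0) =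
      u r - u ((n : ℤ) - 1) := by
  obtain ⟨m, rfl⟩ : ∃ m, n = r + 1 + m := ⟨n - (r + 1), by omega⟩
  induction m with
  | zero =>
    rw [Finset.sum_eq_zero]
    · rw [sub_eq_zero.2]
      congr 1
      push_cast
      ring
    · intro a ha
      have := Finset.mem_range.1 ha
      rw [if_neg (by push_cast; omega)]
  | succ m ih =>
    rw [← add_assoc, Finset.sum_range_succ, ih (by omega), if_pos (by push_cast; omega)]
    have e1 : ((r + 1 + m : ℕ) : ℤ) - 1 = ((r + 1 + m : ℕ) : ℤ) - 1 := rfl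
    have e2 : ((r + 1 + m + 1 : ℕ) : ℤ) - 1 = ((r + 1 + m : ℕ) : ℤ) := by push_cast; ring
    rw [e2]
    abel

end Per

/-! ## The homotopy formula -/

section Main

variable {k : Type} [CommRing k] {V : Type} [AddCommGroup V] [Module k V]
  (q : ℕ) (hq : 0 < q) (δ sg Y τ : Module.End k V) (hss : ∀ x, sg (sg x) = x)
  (hsd : ∀ x, sg (δ x) = -δ (sg x)) (hYs : ∀ x, Y (sg x) = sg (Y x))
  (hYd : ∀ x, Y (δ x) = δ (Y x)) (hτd : ∀ x, τ (δ x) = δ (τ x)) (hτs : ∀ x, τ (sg x) = sg (τ x))
  (hYτ : ∀ x, Y (τ x) = x)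

include hq hss hsd hYs hτd hτs in
lemma hC_first (f : Cir V) (h1 : ∀ c, f.1 (c - q) = f.1 c) (c : ℤ) :
    (cirD q δ sg Y (hC q τ sg f) + hC q τ sg (cirD q δ sg Y f)).1 c =
      f.1 c - (ioC (k := k) q (prC q τ Y f)).1 c := by
  have hq' : (0 : ℤ) < q := by exact_mod_cast hq
  have e1 : (cirD q δ sg Y (hC q τ sg f) + hC q τ sg (cirD q δ sg Y f)).1 c =
      (cirD q δ sg Y (hC q τ sg f)).1 c + (hC q τ sg (cirD q δ sg Y f)).1 c := rfl
  rw [e1, cirD_1, hC_1, hC_1, hC_2, hC_2, ioC_1, cirD_2]
  rw [map_sum, map_sum]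
  -- the difference of the two sums
  have e2 : ∀ d : ℤ, (∑ a ∈ Finset.range q,
      sg (if d % (q : ℤ) < (a : ℤ) then sg (f.1 a) else 0)) =
      ∑ a ∈ Finset.range q, if d % (q : ℤ) < (a : ℤ) then f.1 a else 0 := by
    intro d
    refine Finset.sum_congr rfl fun a _ => ?_
    split_ifs
    · rw [hss]
    · rw [map_zero]
  rw [e2, e2]
  have hr0 : 0 ≤ c % (q : ℤ) := Int.emod_nonneg _ hq'.ne'
  have hr1 : c % (q : ℤ) < q := Int.emod_lt_of_pos _ hq'
  by_cases hc : (q : ℤ) ∣ c
  · rw [if_pos hc, if_pos hc, if_pos hc]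
    have hm : c % (q : ℤ) = 0 := Int.emod_eq_zero_of_dvd hc
    have hm1 : (c - 1) % (q : ℤ) = q - 1 := by
      obtain ⟨t, rfl⟩ := hc
      have : (q : ℤ) * t - 1 = (q - 1) + q * (t - 1) := by ring
      rw [this, Int.add_mul_emod_self_left, Int.emod_eq_of_lt (by omega) (by omega)]
    rw [hm, hm1]
    have s1 : (∑ a ∈ Finset.range q, if (q : ℤ) - 1 < (a : ℤ) then f.1 a else 0) = 0 := by
      refine Finset.sum_eq_zero fun a ha => ?_
      have := Finset.mem_range.1 ha
      rw [if_neg (by omega)]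
    have s2 : (∑ a ∈ Finset.range q, if (0 : ℤ) < (a : ℤ) then f.1 a else 0) =
        (∑ a ∈ Finset.range q, f.1 a) - f.1 0 := by
      obtain ⟨m, rfl⟩ : ∃ m, q = m + 1 := ⟨q - 1, by omega⟩
      rw [Finset.sum_range_succ', Finset.sum_range_succ']
      rw [if_neg (by simp), add_zero]
      have : (((0 : ℕ) : ℤ)) = 0 := rfl
      rw [this, add_sub_cancel_right]
      refine Finset.sum_congr rfl fun a _ => ?_
      rw [if_pos (by push_cast; omega)]
    rw [s1, s2]
    have s3 : (∑ a ∈ Finset.range q, Y (sg (f.1 (c - 1 - a)))) =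
        sg (Y (∑ a ∈ Finset.range q, f.1 a)) := by
      rw [← per_sum q f.1 h1 (c - 1), map_sum, map_sum]
      refine Finset.sum_congr rfl fun a _ => ?_
      rw [hYs]
    rw [s3, map_add, map_add, hτs, hss, prC_apply, smC_apply]
    have s4 : f.1 c = f.1 0 := by
      refine per_dvd q f.1 h1 c 0 ?_
      rwa [sub_zero]
    rw [s4, hτd, hsd]
    abel
  · rw [if_neg hc, if_neg hc, if_neg hc, map_zero]
    have hm : 0 < c % (q : ℤ) := by
      rcases hr0.lt_or_eq with h | h
      · exact h
      · exact absurd (Int.dvd_of_emod_eq_zero h.symm) hc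
    have hm1 : (c - 1) % (q : ℤ) = c % q - 1 := by
      have e : c - 1 = (c % q - 1) + q * (c / q) := by
        have := Int.emod_add_mul_ediv c q
        linarith
      have e3 : (c - 1) % (q : ℤ) = ((c % q - 1) + q * (c / q)) % q := by rw [← e]
      rw [e3, Int.add_mul_emod_self_left, Int.emod_eq_of_lt (by omega) (by omega)]
    rw [hm1, zero_add, add_zero, sub_zero, ← Finset.sum_sub_distrib]
    obtain ⟨r, hr⟩ := Int.eq_ofNat_of_zero_le hr0
    have hr2 : c % (q : ℤ) = (r : ℤ) := hr
    have hrq : r < q := by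
      rw [hr2] at hr1
      exact_mod_cast hr1
    rw [Finset.sum_eq_single r]
    · rw [hr2, if_pos (by omega), if_neg (by omega), sub_zero, ← hr2]
      exact per_mod q f.1 h1 c
    · intro a _ hne
      rw [hr2]
      have : (a : ℤ) ≠ (r : ℤ) := by exact_mod_cast hne
      by_cases h : (r : ℤ) < a
      · rw [if_pos (by omega), if_pos h, sub_self]
      · rw [if_neg (by omega), if_neg h, sub_self]
    · intro h
      exact absurd (Finset.mem_range.2 hrq) h

include hq hss hsd hYτ in
lemma hC_second (f : Cir V) (h2 : ∀ c, f.2 (c - q) = f.2 c) (c : ℤ) :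
    (cirD q δ sg Y (hC q τ sg f) + hC q τ sg (cirD q δ sg Y f)).2 c = f.2 c := by
  have hq' : (0 : ℤ) < q := by exact_mod_cast hq
  have e1 : (cirD q δ sg Y (hC q τ sg f) + hC q τ sg (cirD q δ sg Y f)).2 c =
      (cirD q δ sg Y (hC q τ sg f)).2 c + (hC q τ sg (cirD q δ sg Y f)).2 c := rfl
  rw [e1, cirD_2, hC_2, hC_2]
  have hr0 : 0 ≤ c % (q : ℤ) := Int.emod_nonneg _ hq'.ne'
  have hr1 : c % (q : ℤ) < q := Int.emod_lt_of_pos _ hq'
  obtain ⟨r, hr⟩ := Int.eq_ofNat_of_zero_le hr0
  have hr2 : c % (q : ℤ) = (r : ℤ) := hr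
  have hrq : r < q := by
    rw [hr2] at hr1
    exact_mod_cast hr1
  -- the middle sum
  have s1 : (∑ a ∈ Finset.range q, Y (sg ((hC q τ sg f).1 (c - a)))) = f.2 ((q : ℤ) - 1) := by
    rw [Finset.sum_eq_single r]
    · rw [hC_1, if_pos, hss, hYτ]
      · refine per_dvd q f.2 h2 _ _ ⟨c / q - 1, ?_⟩
        have := Int.emod_add_mul_ediv c q
        rw [hr2] at this
        linear_combination -this
      · refine ⟨c / q, ?_⟩
        have := Int.emod_add_mul_ediv c q
        rw [hr2] at this
        linear_combination -this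
    · intro a ha hne
      rw [hC_1, if_neg, map_zero, map_zero]
      rintro ⟨t, ht⟩
      apply hne
      have h3 := Finset.mem_range.1 ha
      have h4 : c % (q : ℤ) = a := by
        have : c = (a : ℤ) + q * t := by linarith
        rw [this, Int.add_mul_emod_self_left, Int.emod_eq_of_lt (by omega) (by omega)]
      have : (a : ℤ) = r := by rw [← h4, hr2]
      exact_mod_cast this
    · intro h
      exact absurd (Finset.mem_range.2 hrq) h
  rw [s1, map_sum]
  have s2 : (∑ a ∈ Finset.range q, if c % (q : ℤ) < (a : ℤ) then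
      sg ((cirD q δ sg Y f).1 a) else 0) =
      (∑ a ∈ Finset.range q, if (r : ℤ) < (a : ℤ) then f.2 (a - 1) - f.2 a else 0) -
        ∑ a ∈ Finset.range q, δ (if c % (q : ℤ) < (a : ℤ) then sg (f.1 a) else 0) := by
    rw [← Finset.sum_sub_distrib]
    refine Finset.sum_congr rfl fun a _ => ?_
    rw [hr2]
    split_ifs
    · rw [cirD_1, map_add, map_sub, hss, hss, hsd]
      abel
    · rw [map_zero, sub_zero]
  rw [s2, tel_sum f.2 r q hrq]
  have s3 : f.2 (r : ℤ) = f.2 c := by
    rw [← hr2]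
    exact per_mod q f.2 h2 c
  rw [s3]
  abel

include hq hss hsd hYs hτd hτs hYτ in
/-- **The homotopy formula.** -/
theorem hC_htpy (f : Cir V) (h1 : ∀ c, f.1 (c - q) = f.1 c) (h2 : ∀ c, f.2 (c - q) = f.2 c) :
    cirD q δ sg Y (hC q τ sg f) + hC q τ sg (cirD q δ sg Y f) =
      f - ioC (k := k) q (prC q τ Y f) := by
  refine Prod.ext ?_ ?_
  · funext c
    exact hC_first q hq δ sg Y τ hss hsd hYs hτd hτs f h1 c
  · funext c
    rw [hC_second q hq δ sg Y τ hss hsd hYτ f h2 c]
    change f.2 c = f.2 c - (ioC (k := k) q (prC q τ Y f)).2 c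
    rw [ioC_2, sub_zero]

include hYd hτd in
/-- `prC` is a chain map on periodic functions. -/
theorem prC_chain (f : Cir V) (h2 : ∀ c, f.2 (c - q) = f.2 c) :
    prC q τ Y (cirD q δ sg Y f) = δ (prC q τ Y f) := by
  have e : smC (k := k) q (cirD q δ sg Y f) = δ (smC (k := k) q f) := by
    rw [smC_apply, smC_apply, map_sum]
    have : ∀ n : ℕ, ∑ c ∈ Finset.range n, (cirD q δ sg Y f).1 c =
        ∑ c ∈ Finset.range n, δ (f.1 c) + (sg (f.2 (-1)) - sg (f.2 ((n : ℤ) - 1))) := by
      intro n
      induction n with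
      | zero =>
        rw [Finset.sum_range_zero, Finset.sum_range_zero, zero_add]
        have : ((0 : ℕ) : ℤ) - 1 = -1 := by norm_num
        rw [this, sub_self]
      | succ n ih =>
        rw [Finset.sum_range_succ, Finset.sum_range_succ, ih, cirD_1]
        have : ((n + 1 : ℕ) : ℤ) - 1 = (n : ℤ) := by push_cast; ring
        rw [this]
        abel
    rw [this q]
    have h3 : f.2 (-1) = f.2 ((q : ℤ) - 1) := by
      rw [← h2 ((q : ℤ) - 1)]
      congr 1
      ring
    rw [h3, sub_self, add_zero]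
  rw [prC_apply, prC_apply, e, map_sub, hYd, hτd]

include hYs in
/-- `ioC` is a chain map on `ker Y`. -/
theorem ioC_chain (v : V) (hv : Y v = 0) :
    cirD q δ sg Y (ioC (k := k) q v) = ioC (k := k) q (δ v) := by
  refine Prod.ext ?_ ?_
  · funext c
    rw [cirD_1, ioC_2, ioC_2, sub_self, add_zero, ioC_1, ioC_1]
    split_ifs
    · rfl
    · rw [map_zero]
  · funext c
    rw [cirD_2, ioC_2, map_zero, zero_add, ioC_2]
    refine Finset.sum_eq_zero fun a _ => ?_
    rw [ioC_1]
    split_ifs
    · rw [hYs, hv, map_zero]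
    · rw [map_zero, map_zero]

include hq in
/-- `prC` is a left inverse of `ioC` on `ker Y`. -/
theorem prC_ioC (v : V) (hv : Y v = 0) : prC q τ Y (ioC (k := k) q v) = v := by
  have hq' : (0 : ℤ) < q := by exact_mod_cast hq
  have e : smC (k := k) q (ioC (k := k) q v) = v := by
    rw [smC_apply, Finset.sum_eq_single 0]
    · rw [ioC_1, if_pos (by simp)]
    · intro a ha hne
      rw [ioC_1, if_neg]
      rintro ⟨t, ht⟩
      have h3 := Finset.mem_range.1 ha
      have : 0 < a := Nat.pos_of_ne_zero hne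
      have h4 : (0 : ℤ) < t := by
        by_contra h
        have : (q : ℤ) * t ≤ 0 := mul_nonpos_of_nonneg_of_nonpos hq'.le (not_lt.1 h)
        omega
      have h5 : (q : ℤ) ≤ q * t := by nlinarith
      omega
    · intro h
      exact absurd (Finset.mem_range.2 hq) h
  rw [prC_apply, e, hv, map_zero, sub_zero]

/-- `prC` has values in `ker Y`. -/
theorem Y_prC (hYτ : ∀ x, Y (τ x) = x) (f : Cir V) : Y (prC q τ Y f) = 0 := by
  rw [prC_apply, map_sub, hYτ, sub_self]

end Main

end HRx
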