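import Pool.Agent.Lib.MP_181146_gt.HR.PrL

/-!
# Project HR, part (c2): all circles with `z = 1`
-/

set_option autoImplicit false
set_option linter.unusedVariables false
set_option linter.unusedSectionVars false

namespace HRx

open HEp HPx

section It

variable {k : Type} [CommRing k] {H : Type} {F : FS H}

/-- An operator of the base, on all components. -/
def mitE (M : MS k H F) (q b : ℕ) (ix : ℕ → ℕ) (z : ℕ → k) (ρ : ℕ → H → ℤ)
    (A : Module.End k M.V) : ∀ n, Module.End k (mit M q b ix z ρ n).V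
  | 0 => A
  | n + 1 => cirM (mitE M q b ix z ρ A n)

lemma mitE_Y (M : MS k H F) (q b : ℕ) (ix : ℕ → ℕ) (z : ℕ → k) (ρ : ℕ → H → ℤ) (i n : ℕ) :
    mitE M q b ix z ρ (M.Y i) n = (mit M q b ix z ρ n).Y i := by
  induction n with
  | zero => rfl
  | succ n ih =>
    change cirM (mitE M q b ix z ρ (M.Y i) n) = cirM ((mit M q b ix z ρ n).Y i)
    rw [ih]

lemma mitE_F (M : MS k H F) (q b : ℕ) (ix : ℕ → ℕ) (z : ℕ → k) (ρ : ℕ → H → ℤ)
    (A : Module.End k M.V) (n : ℕ) (x : (mit M q b ix z ρ n).V) :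
    mitE M q b ix z ρ A n x = mitF (M := M) (M' := M) A.toAddMonoidHom q b ix z z ρ n x := by
  induction n with
  | zero => rfl
  | succ n ih =>
    refine Prod.ext ?_ ?_ <;>
    · funext c
      exact ih _

lemma itN_mitE (M : MS k H F) (q b : ℕ) (ix : ℕ → ℕ) (z : ℕ → k) (ρ : ℕ → H → ℤ)
    (A : Module.End k M.V) (n : ℕ) (x : (mit M q b ix z ρ n).V) :
    itN M q b ix z ρ n (mitE M q b ix z ρ A n x) = A (itN M q b ix z ρ n x) := by
  induction n with
  | zero => rfl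
  | succ n ih =>
    change itN M q b ix z ρ n (∑ c ∈ Finset.range q, mitE M q b ix z ρ A n (x.1 c)) =
      A (itN M q b ix z ρ n (∑ c ∈ Finset.range q, x.1 c))
    rw [← map_sum (mitE M q b ix z ρ A n)]
    exact ih _

lemma Sec.mit {M : MS k H F} {m i : ℕ} {τ : Module.End k M.V} (hτ : Sec M m i τ) (q b : ℕ)
    (ix : ℕ → ℕ) (z : ℕ → k) (ρ : ℕ → H → ℤ) (n : ℕ) (h1 : ∀ l < n, ix l < m)
    (h2 : ∀ l < n, ix l ≠ i) : Sec (mit M q b ix z ρ n) m i (mitE M q b ix z ρ τ n) := by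
  induction n with
  | zero => exact hτ
  | succ n ih =>
    exact (ih (fun l hl => h1 l (by omega)) (fun l hl => h2 l (by omega))).circ q b (ix n) _ _
      (h1 n (by omega)) (h2 n (by omega))

/-- The elements of `Q` killed by `Y (ix l)`, `j ≤ l < m`. -/
def KK (M : MS k H F) (q b : ℕ) (ix : ℕ → ℕ) (z : ℕ → k) (ρ : ℕ → H → ℤ) (m j n : ℕ) :
    Submodule k (mit M q b ix z ρ n).V where
  carrier := {x | x ∈ (mit M q b ix z ρ n).Q ∧
    ∀ l, j ≤ l → l < m → (mit M q b ix z ρ n).Y (ix l) x = 0}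
  add_mem' := fun {x y} hx hy => ⟨(mit M q b ix z ρ n).Q.add_mem hx.1 hy.1, fun l h1 h2 => by
    rw [map_add, hx.2 l h1 h2, hy.2 l h1 h2, add_zero]⟩
  zero_mem' := ⟨(mit M q b ix z ρ n).Q.zero_mem, fun l _ _ => map_zero _⟩
  smul_mem' := fun r x hx => ⟨(mit M q b ix z ρ n).Q.smul_mem r hx.1, fun l h1 h2 => by
    rw [map_smul, hx.2 l h1 h2, smul_zero]⟩

lemma KK_KC (M : MS k H F) (q b : ℕ) (ix : ℕ → ℕ) (z : ℕ → k) (ρ : ℕ → H → ℤ) (m j n : ℕ)
    (hB : Bas (mit M q b ix z ρ n)) : (mit M q b ix z ρ n).KC (KK M q b ix z ρ m j n) where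
  le := fun x hx => hx.1
  dK := fun x hx => ⟨hB.Qd x hx.1, fun l h1 h2 => by rw [hB.Yd, hx.2 l h1 h2, map_zero]⟩

/-- The product of the projections `1 - τ i Y i`, `i = ix l`, `l < n`. -/
def EE (M : MS k H F) (ix : ℕ → ℕ) (τ : ℕ → Module.End k M.V) : ℕ → Module.End k M.V
  | 0 => 1
  | n + 1 => EE M ix τ n * (1 - τ (ix n) * M.Y (ix n))

/-- **All circles with `z = 1`**: the projection is a quasi-isomorphism. -/
theorem piE_QI (M : MS k H F) (q b : ℕ) (hq : 0 < q) (ix : ℕ → ℕ) (ρ : ℕ → H → ℤ) (m : ℕ)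
    (hB : ∀ n, Bas (mit M q b ix (fun _ => 1) ρ n))
    (hD : ∀ n, Dif (mit M q b ix (fun _ => 1) ρ n))
    (h1 : ∀ l < m, ix l < m) (h2 : ∀ l < m, ∀ l' < m, ix l = ix l' → l = l')
    (τ : ℕ → Module.End k M.V) (hτ : ∀ i < m, Sec M m i (τ i)) (n : ℕ) (hn : n ≤ m) :
    ∃ p : ((mit M q b ix (fun _ => 1) ρ n).kc (hD n) (KK M q b ix (fun _ => 1) ρ m n n)
        (KK_KC M q b ix (fun _ => 1) ρ m n n (hB n))).V →+
      ((mit M q b ix (fun _ => 1) ρ 0).kc (hD 0) (KK M q b ix (fun _ => 1) ρ m 0 0)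
        (KK_KC M q b ix (fun _ => 1) ρ m 0 0 (hB 0))).V,
      IsQI ((mit M q b ix (fun _ => 1) ρ n).kc (hD n) (KK M q b ix (fun _ => 1) ρ m n n)
        (KK_KC M q b ix (fun _ => 1) ρ m n n (hB n)))
      ((mit M q b ix (fun _ => 1) ρ 0).kc (hD 0) (KK M q b ix (fun _ => 1) ρ m 0 0)
        (KK_KC M q b ix (fun _ => 1) ρ m 0 0 (hB 0))) p ∧
      ∀ x, (p x).1 = EE M ix τ n (itN M q b ix (fun _ => 1) ρ n x.1) := by
  induction n with
  | zero =>
    refine ⟨AddMonoidHom.id _, IsQI.of_bij ⟨fun i x hx => hx, fun x => rfl⟩ (fun x hx => hx)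
      (fun i y hy => ⟨y, hy, rfl⟩), fun x => rfl⟩
  | succ n ih =>
    obtain ⟨p, hp, he⟩ := ih (by omega)
    have hS : Sec (mit M q b ix (fun _ => 1) ρ n) m (ix n)
        (mitE M q b ix (fun _ => 1) ρ (τ (ix n)) n) := by
      refine (hτ (ix n) (h1 n (by omega))).mit q b ix _ ρ n (fun l hl => h1 l (by omega)) ?_
      intro l hl he
      have := h2 l (by omega) n (by omega) he
      omega
    have hT : ∀ x ∈ KK M q b ix (fun _ => 1) ρ m (n + 1) n,
        mitE M q b ix (fun _ => 1) ρ (τ (ix n)) n x ∈ KK M q b ix (fun _ => 1) ρ m (n + 1) n := by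
      intro x hx
      refine ⟨hS.Q x hx.1, fun l hl hl' => ?_⟩
      rw [← hS.Y (ix l) (h1 l hl'), hx.2 l hl hl', map_zero]
      intro he
      have := h2 l hl' n (by omega) he
      omega
    have hY : ∀ j, ∀ x ∈ KK M q b ix (fun _ => 1) ρ m (n + 1) n,
        (mit M q b ix (fun _ => 1) ρ n).Y j x ∈ KK M q b ix (fun _ => 1) ρ m (n + 1) n := by
      intro j x hx
      refine ⟨(hB n).QY j x hx.1, fun l hl hl' => ?_⟩
      rw [(hB n).YY, hx.2 l hl hl', map_zero]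
    have hpr : ∀ f ∈ KK M q b ix (fun _ => 1) ρ m (n + 1) (n + 1),
        (mit M q b ix (fun _ => 1) ρ n).pr1 q b (ix n) 1 (ρ (ix n))
          (mitE M q b ix (fun _ => 1) ρ (τ (ix n)) n) f ∈ KK M q b ix (fun _ => 1) ρ m n n := by
      intro f hf
      have hs : (∑ c ∈ Finset.range q, f.1 c) ∈ KK M q b ix (fun _ => 1) ρ m (n + 1) n := by
        refine Submodule.sum_mem _ fun c _ => ⟨(hf.1 c).1, fun l hl hl' => ?_⟩
        exact congrFun (congrArg Prod.fst (hf.2 l hl hl')) c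
      have hm := Submodule.sub_mem _ hs (hT _ (hY (ix n) _ hs))
      refine ⟨hm.1, fun l hl hl' => ?_⟩
      rcases Nat.eq_or_lt_of_le hl with h | h
      · subst h
        change (mit M q b ix (fun _ => 1) ρ n).Y (ix n) (_ - mitE M q b ix (fun _ => 1) ρ (τ (ix n)) n _) = 0
        rw [map_sub, hS.sec, sub_self]
      · exact hm.2 l h hl'
    have hQI := prC_QI (mit M q b ix (fun _ => 1) ρ n) (hB n) m q b (ix n) hq (ρ (ix n))
      (mitE M q b ix (fun _ => 1) ρ (τ (ix n)) n) hS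
      (KK M q b ix (fun _ => 1) ρ m (n + 1) n) (fun x hx => hx.1)
      (KK_KC M q b ix (fun _ => 1) ρ m (n + 1) n (hB n)).dK
      (fun x hx => ⟨(hB n).Qs x hx.1, fun l hl hl' => by
        rw [(hB n).Ys, hx.2 l hl hl', map_zero]⟩) (hY (ix n)) hT
      (KK M q b ix (fun _ => 1) ρ m (n + 1) (n + 1))
      (by
        intro f
        refine ⟨fun hf => ⟨hf.1, fun c => ⟨⟨(hf.1 c).1, fun l hl hl' => ?_⟩,
          ⟨(hf.1 c).2.1, fun l hl hl' => ?_⟩⟩⟩, fun hf => ⟨hf.1, fun l hl hl' => ?_⟩⟩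
        · exact congrFun (congrArg Prod.fst (hf.2 l hl hl')) c
        · exact congrFun (congrArg Prod.snd (hf.2 l hl hl')) c
        · refine Prod.ext ?_ ?_
          · funext c
            exact (hf.2 c).1.2 l hl hl'
          · funext c
            exact (hf.2 c).2.2 l hl hl')
      (KK M q b ix (fun _ => 1) ρ m n n)
      (by
        intro x
        refine ⟨fun hx => ⟨⟨hx.1, fun l hl hl' => hx.2 l (by omega) hl'⟩,
          hx.2 n le_rfl (by omega)⟩, fun hx => ⟨hx.1.1, fun l hl hl' => ?_⟩⟩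
        rcases Nat.eq_or_lt_of_le hl with h | h
        · subst h
          exact hx.2
        · exact hx.1.2 l h hl')
      (hD (n + 1)) (hD n) (KK_KC M q b ix (fun _ => 1) ρ m (n + 1) (n + 1) (hB (n + 1)))
      (KK_KC M q b ix (fun _ => 1) ρ m n n (hB n)) hpr
    refine ⟨p.comp _, hQI.cmp hp, ?_⟩
    intro x
    refine (he _).trans ?_
    change EE M ix τ n (itN M q b ix (fun _ => 1) ρ n ((cirN (k := k) q x.1) -
      mitE M q b ix (fun _ => 1) ρ (τ (ix n)) n ((mit M q b ix (fun _ => 1) ρ n).Y (ix n)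
        (cirN (k := k) q x.1)))) = EE M ix τ n ((1 - τ (ix n) * M.Y (ix n))
          (itN M q b ix (fun _ => 1) ρ n (cirN (k := k) q x.1)))
    rw [map_sub, itN_mitE, ← mitE_Y, itN_mitE]
    rfl

end It

end HRx
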