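import Pool.Agent.Lib.MP_181146_gt.HR.PrC

/-!
# Project HR, part (c2): quasi-isomorphisms, one circle
-/

set_option autoImplicit false
set_option linter.unusedVariables false
set_option linter.unusedSectionVars false

namespace HRx

open HEp HPx

/-! ## Quasi-isomorphisms -/

section QI

variable {R R' R'' : Type} [CommRing R] [CommRing R'] [CommRing R''] {T : GC R} {T' : GC R'}
  {T'' : GC R''}

lemma IsCh.cmp {f : T.V →+ T'.V} {g : T'.V →+ T''.V} (hf : IsCh T T' f) (hg : IsCh T' T'' g) :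
    IsCh T T'' (g.comp f) :=
  ⟨fun i x hx => hg.1 i _ (hf.1 i x hx), fun x => by
    change g (f (T.d x)) = T''.d (g (f x))
    rw [hf.2, hg.2]⟩

lemma IsCh.cyc {f : T.V →+ T'.V} (hf : IsCh T T' f) {i : ℤ} {x : T.V} (hx : T.Cyc i x) :
    T'.Cyc i (f x) :=
  ⟨hf.1 i x hx.1, by rw [← hf.2, hx.2, map_zero]⟩

lemma IsCh.bdy {f : T.V →+ T'.V} (hf : IsCh T T' f) {i : ℤ} {x : T.V} (hx : T.Bdy i x) :
    T'.Bdy i (f x) := by
  obtain ⟨w, hw, e⟩ := hx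
  exact ⟨f w, hf.1 _ w hw, by rw [← hf.2, e]⟩

lemma GC.Bdy.add {i : ℤ} {x y : T.V} (hx : T.Bdy i x) (hy : T.Bdy i y) : T.Bdy i (x + y) := by
  obtain ⟨w, hw, e⟩ := hx
  obtain ⟨w', hw', e'⟩ := hy
  exact ⟨w + w', (T.G _).add_mem hw hw', by rw [map_add, e, e']⟩

lemma GC.Bdy.sub {i : ℤ} {x y : T.V} (hx : T.Bdy i x) (hy : T.Bdy i y) : T.Bdy i (x - y) := by
  obtain ⟨w, hw, e⟩ := hx
  obtain ⟨w', hw', e'⟩ := hy
  exact ⟨w - w', (T.G _).sub_mem hw hw', by rw [map_sub, e, e']⟩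

/-- The composition of two quasi-isomorphisms. -/
lemma IsQI.cmp {f : T.V →+ T'.V} {g : T'.V →+ T''.V} (hf : IsQI T T' f) (hg : IsQI T' T'' g) :
    IsQI T T'' (g.comp f) := by
  refine ⟨hf.1.cmp hg.1, ?_, ?_⟩
  · intro i x hx hb
    exact hf.2.1 i x hx (hg.2.1 i (f x) (hf.1.cyc hx) hb)
  · intro i y hy
    obtain ⟨y', hy', hb⟩ := hg.2.2 i y hy
    obtain ⟨x, hx, hb'⟩ := hf.2.2 i y' hy'
    refine ⟨x, hx, ?_⟩
    have h := hb.add (hg.1.bdy hb')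
    rw [map_sub, sub_add_sub_cancel] at h
    exact h

/-- Two out of three. -/
lemma IsQI.of_cmp {f : T.V →+ T'.V} {g : T'.V →+ T''.V} (hf : IsCh T T' f) (hg : IsQI T' T'' g)
    (h : IsQI T T'' (g.comp f)) : IsQI T T' f := by
  refine ⟨hf, ?_, ?_⟩
  · intro i x hx hb
    exact h.2.1 i x hx (hg.1.bdy hb)
  · intro i y hy
    obtain ⟨x, hx, hb⟩ := h.2.2 i (g y) (hg.1.cyc hy)
    refine ⟨x, hx, hg.2.1 i (y - f x) ⟨(T'.G i).sub_mem hy.1 (hf.1 i x hx.1), ?_⟩ ?_⟩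
    · rw [map_sub, hy.2, ← hf.2, hx.2, map_zero, sub_zero]
    · rw [map_sub]
      exact hb

/-- A strong deformation retraction. -/
lemma IsQI.of_htpy {p : T.V →+ T'.V} (hp : IsCh T T' p) (io : T'.V →+ T.V) (hio : IsCh T' T io)
    (h : T.V →+ T.V) (hG : ∀ i, ∀ x ∈ T.G i, h x ∈ T.G (i + 1))
    (he : ∀ x, T.d (h x) + h (T.d x) = x - io (p x)) (hpi : ∀ y, p (io y) = y) : IsQI T T' p := by
  refine ⟨hp, ?_, ?_⟩
  · rintro i x hx ⟨w, hw, e⟩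
    refine ⟨h x + io w, (T.G _).add_mem (hG i x hx.1) (hio.1 _ w hw), ?_⟩
    have h1 := he x
    rw [hx.2, map_zero, add_zero] at h1
    rw [map_add, h1, ← hio.2, e, sub_add_cancel]
  · intro i y hy
    exact ⟨io y, hio.cyc hy, 0, (T'.G _).zero_mem, by rw [map_zero, hpi, sub_self]⟩

/-- A bijective chain map. -/
lemma IsQI.of_bij {f : T.V →+ T'.V} (hf : IsCh T T' f) (inj : ∀ x, f x = 0 → x = 0)
    (sur : ∀ i, ∀ y ∈ T'.G i, ∃ x ∈ T.G i, f x = y) : IsQI T T' f := by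
  refine ⟨hf, ?_, ?_⟩
  · rintro i x hx ⟨w, hw, e⟩
    obtain ⟨v, hv, e'⟩ := sur _ w hw
    refine ⟨v, hv, ?_⟩
    rw [← sub_eq_zero]
    apply inj
    rw [map_sub, hf.2, e', e, sub_self]
  · intro i y hy
    obtain ⟨v, hv, e'⟩ := sur _ y hy.1
    refine ⟨v, ⟨hv, inj _ ?_⟩, 0, (T'.G _).zero_mem, by rw [map_zero, e', sub_self]⟩
    rw [hf.2, e', hy.2]

end QI

/-! ## Sections of an operator `Y i` -/

section MSs

variable {k : Type} [CommRing k] {H : Type} {F : FS H}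

/-- The complex on a submodule `K` of `Q`. -/
structure MS.KC (M : MS k H F) (K : Submodule k M.V) : Prop where
  le : K ≤ M.Q
  dK : ∀ x ∈ K, M.δ x ∈ K

/-- The complex on a submodule `K` of `Q`. -/
def MS.kc (M : MS k H F) (h : Dif M) (K : Submodule k M.V) (hK : M.KC K) : GC k where
  V := K
  d := M.δ.restrict hK.dK
  G := fun i => (M.G i).comap K.subtype
  dG := fun i x hx => h.Gd i _ hx
  dd := fun x => Subtype.ext (h.dd x.1 (hK.le x.2))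

/-- `τ` is a section of `Y i`, commuting with the other `Y j`, `j < m`. -/
structure Sec (M : MS k H F) (m i : ℕ) (τ : Module.End k M.V) : Prop where
  sec : ∀ x, M.Y i (τ x) = x
  d : ∀ x, τ (M.δ x) = M.δ (τ x)
  s : ∀ x, τ (M.sg x) = M.sg (τ x)
  Y : ∀ j < m, j ≠ i → ∀ x, τ (M.Y j x) = M.Y j (τ x)
  Q : ∀ x ∈ M.Q, τ x ∈ M.Q
  G : ∀ d, ∀ x ∈ M.G d, τ x ∈ M.G (d + 2)

/-- The elementary identities. -/
structure Bas (M : MS k H F) : Prop where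
  ss : ∀ x, M.sg (M.sg x) = x
  sd : ∀ x, M.sg (M.δ x) = -M.δ (M.sg x)
  Ys : ∀ i x, M.Y i (M.sg x) = M.sg (M.Y i x)
  Yd : ∀ i x, M.Y i (M.δ x) = M.δ (M.Y i x)
  YY : ∀ i j x, M.Y i (M.Y j x) = M.Y j (M.Y i x)
  Gd : ∀ i, ∀ x ∈ M.G i, M.δ x ∈ M.G (i - 1)
  Gs : ∀ i, ∀ x ∈ M.G i, M.sg x ∈ M.G i
  GY : ∀ l i, ∀ x ∈ M.G i, M.Y l x ∈ M.G (i - 2)
  Qd : ∀ x ∈ M.Q, M.δ x ∈ M.Q
  Qs : ∀ x ∈ M.Q, M.sg x ∈ M.Q
  QY : ∀ l, ∀ x ∈ M.Q, M.Y l x ∈ M.Q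

lemma MS.OK.bas {M : MS k H F} [Group H] {n : ℤ} (h : M.OK n) : Bas M :=
  ⟨h.ss, h.sd, h.Ys, h.Yd, h.YY, h.Gd, h.Gs, h.GY, h.Qd, h.Qs, h.QY⟩

lemma Sec.circ {M : MS k H F} {m i : ℕ} {τ : Module.End k M.V} (hτ : Sec M m i τ) (q b i0 : ℕ)
    (z : k) (ρ : H → ℤ) (hi0 : i0 < m) (hi : i0 ≠ i) :
    Sec (M.circ q b i0 z ρ) m i (cirM τ) where
  sec x := by
    refine Prod.ext ?_ ?_ <;>
    · funext c
      exact hτ.sec _
  d := by
    intro f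
    refine Prod.ext ?_ ?_
    · funext c
      change τ (M.δ (f.1 c) + (M.sg (f.2 (c - 1)) - M.sg (f.2 c))) =
        M.δ (τ (f.1 c)) + (M.sg (τ (f.2 (c - 1))) - M.sg (τ (f.2 c)))
      rw [map_add, map_sub, hτ.d, hτ.s, hτ.s]
    · funext c
      change τ (M.δ (f.2 c) + ∑ a ∈ Finset.range q, M.Y i0 (M.sg (f.1 (c - a)))) =
        M.δ (τ (f.2 c)) + ∑ a ∈ Finset.range q, M.Y i0 (M.sg (τ (f.1 (c - a))))
      rw [map_add, map_sum, hτ.d]
      congr 1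
      refine Finset.sum_congr rfl fun a _ => ?_
      rw [hτ.Y i0 hi0 hi, hτ.s]
  s := by
    intro f
    refine Prod.ext ?_ ?_
    · funext c
      exact hτ.s _
    · funext c
      change τ (-M.sg (f.2 c)) = -M.sg (τ (f.2 c))
      rw [map_neg, hτ.s]
  Y := by
    intro j hj hji f
    refine Prod.ext ?_ ?_ <;>
    · funext c
      exact hτ.Y j hj hji _
  Q := by
    intro f hf c
    obtain ⟨h1, h2, h3, h4⟩ := hf c
    refine ⟨hτ.Q _ h1, hτ.Q _ h2, ?_, ?_⟩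
    · change τ (f.1 (c - q)) = z • τ (f.1 c)
      rw [h3, map_smul]
    · change τ (f.2 (c - q)) = z • τ (f.2 c)
      rw [h4, map_smul]
  G := by
    intro d f hf c
    refine ⟨hτ.G _ _ (hf c).1, ?_⟩
    have h := hτ.G _ _ (hf c).2
    have e : d - 1 + 2 = d + 2 - 1 := by ring
    rw [e] at h
    exact h

end MSs

/-! ## One circle -/

section One

variable {k : Type} [CommRing k] {H : Type} {F : FS H}

/-- The projection onto the kernel of `Y i`. -/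
def MS.pr1 (M : MS k H F) (q b i : ℕ) (z : k) (ρ : H → ℤ) (τ : Module.End k M.V) :
    (M.circ q b i z ρ).V →ₗ[k] M.V := prC q τ (M.Y i)

/-- The inclusion. -/
def MS.io1 (M : MS k H F) (q b i : ℕ) (z : k) (ρ : H → ℤ) :
    M.V →ₗ[k] (M.circ q b i z ρ).V := ioC q

/-- The homotopy. -/
def MS.h1 (M : MS k H F) (q b i : ℕ) (z : k) (ρ : H → ℤ) (τ : Module.End k M.V) :
    (M.circ q b i z ρ).V →ₗ[k] (M.circ q b i z ρ).V := hC q τ M.sg

/-- Periodicity on `Q`, `z = 1`. -/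
lemma circ_per {M : MS k H F} {q b i : ℕ} {ρ : H → ℤ} {f : (M.circ q b i 1 ρ).V}
    (hf : f ∈ (M.circ q b i 1 ρ).Q) :
    (∀ c, f.1 (c - q) = f.1 c) ∧ ∀ c, f.2 (c - q) = f.2 c :=
  ⟨fun c => (hf c).2.2.1.trans (one_smul k _), fun c => (hf c).2.2.2.trans (one_smul k _)⟩

/-- **One circle with `z = 1`**: the projection onto the kernel of `Y i` is a quasi-isomorphism. -/
theorem prC_QI (M : MS k H F) (hM : Bas M) (m q b i : ℕ) (hq : 0 < q) (ρ : H → ℤ)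
    (τ : Module.End k M.V) (hτ : Sec M m i τ)
    (K0 : Submodule k M.V) (hQ0 : K0 ≤ M.Q) (h0d : ∀ x ∈ K0, M.δ x ∈ K0)
    (h0s : ∀ x ∈ K0, M.sg x ∈ K0) (h0Y : ∀ x ∈ K0, M.Y i x ∈ K0) (h0τ : ∀ x ∈ K0, τ x ∈ K0)
    (K : Submodule k (M.circ q b i 1 ρ).V)
    (hK : ∀ f, f ∈ K ↔ f ∈ (M.circ q b i 1 ρ).Q ∧ ∀ c, f.1 c ∈ K0 ∧ f.2 c ∈ K0)
    (K' : Submodule k M.V) (hK' : ∀ x, x ∈ K' ↔ x ∈ K0 ∧ M.Y i x = 0)
    (hD : Dif (M.circ q b i 1 ρ)) (hD' : Dif M) (hKC : (M.circ q b i 1 ρ).KC K) (hKC' : M.KC K')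
    (hp : ∀ f ∈ K, M.pr1 q b i 1 ρ τ f ∈ K') :
    IsQI ((M.circ q b i 1 ρ).kc hD K hKC) (M.kc hD' K' hKC')
      ((M.pr1 q b i 1 ρ τ).restrict hp).toAddMonoidHom := by
  have hio : ∀ x ∈ K', M.io1 q b i 1 ρ x ∈ K := by
    intro x hx
    rw [hK]
    refine ⟨fun c => ⟨?_, M.Q.zero_mem, ?_, (smul_zero _).symm⟩, fun c => ⟨?_, K0.zero_mem⟩⟩
    · change (ioC (k := k) q x).1 c ∈ M.Q
      rw [ioC_1]
      split_ifs
      · exact hQ0 ((hK' x).1 hx).1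
      · exact M.Q.zero_mem
    · change (ioC (k := k) q x).1 (c - q) = (1 : k) • (ioC (k := k) q x).1 c
      rw [ioC_1, ioC_1, one_smul]
      have : ((q : ℤ) ∣ c - q) ↔ ((q : ℤ) ∣ c) := dvd_sub_self_right
      simp only [this]
    · change (ioC (k := k) q x).1 c ∈ K0
      rw [ioC_1]
      split_ifs
      · exact ((hK' x).1 hx).1
      · exact K0.zero_mem
  have hh : ∀ f ∈ K, M.h1 q b i 1 ρ τ f ∈ K := by
    intro f hf
    rw [hK] at hf ⊢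
    obtain ⟨p1, p2⟩ := circ_per hf.1
    have a1 : ∀ c, (M.h1 q b i 1 ρ τ f).1 c ∈ K0 := by
      intro c
      change (if (q : ℤ) ∣ c then M.sg (τ (f.2 (c - 1))) else 0) ∈ K0
      split_ifs
      · exact h0s _ (h0τ _ (hf.2 _).2)
      · exact K0.zero_mem
    have a2 : ∀ c, (M.h1 q b i 1 ρ τ f).2 c ∈ K0 := by
      intro c
      change (∑ a ∈ Finset.range q, if c % (q : ℤ) < (a : ℤ) then M.sg (f.1 a) else 0) ∈ K0
      refine K0.sum_mem fun a _ => ?_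
      split_ifs
      · exact h0s _ (hf.2 _).1
      · exact K0.zero_mem
    refine ⟨fun c => ⟨hQ0 (a1 c), hQ0 (a2 c), ?_, ?_⟩, fun c => ⟨a1 c, a2 c⟩⟩
    · rw [one_smul]
      change (if (q : ℤ) ∣ c - q then M.sg (τ (f.2 (c - q - 1))) else 0) =
        if (q : ℤ) ∣ c then M.sg (τ (f.2 (c - 1))) else 0
      have : ((q : ℤ) ∣ c - q) ↔ ((q : ℤ) ∣ c) := dvd_sub_self_right
      simp only [this]
      have e : c - (q : ℤ) - 1 = c - 1 - q := by ring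
      rw [e, p2]
    · rw [one_smul]
      change (∑ a ∈ Finset.range q, if (c - q) % (q : ℤ) < (a : ℤ) then M.sg (f.1 a) else 0) =
        ∑ a ∈ Finset.range q, if c % (q : ℤ) < (a : ℤ) then M.sg (f.1 a) else 0
      rw [Int.sub_emod_right]
  refine IsQI.of_htpy (T := (M.circ q b i 1 ρ).kc hD K hKC) (T' := M.kc hD' K' hKC')
    (p := ((M.pr1 q b i 1 ρ τ).restrict hp).toAddMonoidHom) ⟨?_, ?_⟩
    ((M.io1 q b i 1 ρ).restrict hio).toAddMonoidHom ⟨?_, ?_⟩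
    ((M.h1 q b i 1 ρ τ).restrict hh).toAddMonoidHom ?_ ?_ ?_
  · -- degrees of the projection
    intro d f hf
    have h1 : (∑ c ∈ Finset.range q, f.1.1 c) ∈ M.G d :=
      (M.G d).sum_mem fun c _ => (hf c).1
    change (∑ c ∈ Finset.range q, f.1.1 c) - τ (M.Y i (∑ c ∈ Finset.range q, f.1.1 c)) ∈ M.G d
    refine (M.G d).sub_mem h1 ?_
    have h2 := hτ.G _ _ (hM.GY i d _ h1)
    rw [sub_add_cancel] at h2
    exact h2
  · intro f
    refine Subtype.ext ?_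
    exact prC_chain q M.δ M.sg (M.Y i) τ (hM.Yd i) hτ.d f.1 (circ_per (hKC.le f.2)).2
  · -- degrees of the inclusion
    intro d x hx c
    refine ⟨?_, (M.G (d - 1)).zero_mem⟩
    change (ioC (k := k) q x.1).1 c ∈ M.G d
    rw [ioC_1]
    split_ifs
    · exact hx
    · exact (M.G d).zero_mem
  · intro x
    refine Subtype.ext ?_
    exact (ioC_chain q M.δ M.sg (M.Y i) (hM.Ys i) x.1 ((hK' x.1).1 x.2).2).symm
  · -- degrees of the homotopy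
    intro d f hf c
    refine ⟨?_, ?_⟩
    · change (if (q : ℤ) ∣ c then M.sg (τ (f.1.2 (c - 1))) else 0) ∈ M.G (d + 1)
      split_ifs
      · have h1 := hM.Gs _ _ (hτ.G _ _ (hf (c - 1)).2)
        have e : d - 1 + 2 = d + 1 := by ring
        rw [e] at h1
        exact h1
      · exact (M.G _).zero_mem
    · change (∑ a ∈ Finset.range q, if c % (q : ℤ) < (a : ℤ) then M.sg (f.1.1 a) else 0) ∈
        M.G (d + 1 - 1)
      rw [add_sub_cancel_right]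
      refine (M.G d).sum_mem fun a _ => ?_
      split_ifs
      · exact hM.Gs _ _ (hf a).1
      · exact (M.G d).zero_mem
  · intro f
    refine Subtype.ext ?_
    obtain ⟨p1, p2⟩ := circ_per (hKC.le f.2)
    exact hC_htpy q hq M.δ M.sg (M.Y i) τ hM.ss hM.sd (hM.Ys i) hτ.d hτ.s hτ.sec f.1 p1 p2
  · intro x
    refine Subtype.ext ?_
    exact prC_ioC q hq (M.Y i) τ x.1 ((hK' x.1).1 x.2).2

end One

end HRx
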