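import Pool.Agent.Lib.MP_181146_gt.HR.PrS

/-!
# Project HR, part (c3): the `S`-model lemma, one circle
-/

set_option autoImplicit false
set_option linter.unusedVariables false
set_option linter.unusedSectionVars false

namespace HRx

open HEp HPx

section SM

variable {k : Type} [CommRing k] {H : Type} {F : FS H} {S : Type} [CommRing S]

/-- The elements of `Q` killed by `Y i`. -/
def K1 (M : MS k H F) (i : ℕ) : Submodule k M.V where
  carrier := {x | x ∈ M.Q ∧ M.Y i x = 0}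
  add_mem' := fun {x y} hx hy => ⟨M.Q.add_mem hx.1 hy.1, by rw [map_add, hx.2, hy.2, add_zero]⟩
  zero_mem' := ⟨M.Q.zero_mem, map_zero _⟩
  smul_mem' := fun r x hx => ⟨M.Q.smul_mem r hx.1, by rw [map_smul, hx.2, smul_zero]⟩

lemma K1_KC (M : MS k H F) (hB : Bas M) (i : ℕ) : M.KC (K1 M i) where
  le := fun x hx => hx.1
  dK := fun x hx => ⟨hB.Qd x hx.1, by rw [hB.Yd, hx.2, map_zero]⟩

/-- **The `S`-model lemma**, one circle. -/
theorem smod_QI (A : MS S H F) (hA : Bas A) (M : MS k H F) (N : MS k H F) (hN : Bas N) (s : S)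
    (red : A.V →+ M.V) (hr : Red A M s red) (j : M.V →+ N.V) (q b i m : ℕ) (hq : 0 < q)
    (u : Sˣ) (hu : (u : S) = 1 + s) (ρ : H → ℤ) (τ : Module.End k N.V) (hτ : Sec N m i τ)
    (jd : ∀ x, j (M.δ x) = N.δ (j x)) (jG : ∀ d, ∀ x ∈ M.G d, j x ∈ N.G d)
    (jQ : ∀ x ∈ M.Q, j x ∈ N.Q)
    (inj : ∀ x ∈ M.Q, j x - τ (N.Y i (j x)) = 0 → x = 0)
    (sur : ∀ d, ∀ y ∈ N.G d, y ∈ N.Q → N.Y i y = 0 →
      ∃ x ∈ M.G d, x ∈ M.Q ∧ j x - τ (N.Y i (j x)) = y)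
    (hcA : Dif (A.circ q b i (u : S) ρ)) (hcN : Dif (N.circ q b i 1 ρ)) (hM : Dif M) (hNd : Dif N)
    (P : ((A.circ q b i (u : S) ρ).gc hcA).V →+ ((N.circ q b i 1 ρ).gc hcN).V)
    (hP : IsCh ((A.circ q b i (u : S) ρ).gc hcA) ((N.circ q b i 1 ρ).gc hcN) P)
    (hP1 : ∀ f c, (P f).1.1 c = j (red (f.1.1 c))) :
    IsQI ((A.circ q b i (u : S) ρ).gc hcA) ((N.circ q b i 1 ρ).gc hcN) P := by
  have hK1 : ∀ f ∈ (N.circ q b i 1 ρ).Q, N.pr1 q b i 1 ρ τ f ∈ K1 N i := by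
    intro f hf
    have hs : (∑ c ∈ Finset.range q, f.1 c) ∈ N.Q := N.Q.sum_mem fun c _ => (hf c).1
    refine ⟨N.Q.sub_mem hs (hτ.Q _ (hN.QY i _ hs)), ?_⟩
    change N.Y i ((∑ c ∈ Finset.range q, f.1 c) - τ (N.Y i (∑ c ∈ Finset.range q, f.1 c))) = 0
    rw [map_sub, hτ.sec, sub_self]
  have hKC : (N.circ q b i 1 ρ).KC (N.circ q b i 1 ρ).Q := ⟨le_rfl, hcN.Qd⟩
  -- the projection
  have h1 : IsQI ((N.circ q b i 1 ρ).gc hcN) (N.kc hNd (K1 N i) (K1_KC N hN i))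
      ((N.pr1 q b i 1 ρ τ).restrict hK1).toAddMonoidHom :=
    prC_QI N hN m q b i hq ρ τ hτ N.Q le_rfl hN.Qd hN.Qs (hN.QY i) hτ.Q (N.circ q b i 1 ρ).Q
      (fun f => ⟨fun hf => ⟨hf, fun c => ⟨(hf c).1, (hf c).2.1⟩⟩, fun hf => hf.1⟩) (K1 N i)
      (fun x => Iff.rfl) hcN hNd hKC (K1_KC N hN i) hK1
  -- the reduction
  have hpQ : ∀ f ∈ (A.circ q b i (u : S) ρ).Q, red (A.sm q b i (u : S) ρ f) ∈ M.Q := by
    intro f hf
    refine hr.Q _ ?_
    change (∑ c ∈ Finset.range q, f.1 c) ∈ A.Q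
    exact A.Q.sum_mem fun c _ => (hf c).1
  let p2 : ((A.circ q b i (u : S) ρ).gc hcA).V →+ (M.gc hM).V :=
    AddMonoidHom.mk' (fun f => ⟨red (A.sm q b i (u : S) ρ f.1), hpQ f.1 f.2⟩) (fun f g =>
      Subtype.ext (by
        change red (A.sm q b i (u : S) ρ (f.1 + g.1)) =
          red (A.sm q b i (u : S) ρ f.1) + red (A.sm q b i (u : S) ρ g.1)
        rw [map_add, map_add]))
  have h2 : IsQI ((A.circ q b i (u : S) ρ).gc hcA) (M.gc hM) p2 :=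
    circ_red A hA M s red hr q b i hq u hu ρ hcA hM p2 (fun f => rfl)
  -- the isomorphism
  have hRK : ∀ x ∈ M.Q, j x - τ (N.Y i (j x)) ∈ K1 N i := by
    intro x hx
    refine ⟨N.Q.sub_mem (jQ x hx) (hτ.Q _ (hN.QY i _ (jQ x hx))), ?_⟩
    rw [map_sub, hτ.sec, sub_self]
  let p3 : (M.gc hM).V →+ (N.kc hNd (K1 N i) (K1_KC N hN i)).V :=
    AddMonoidHom.mk' (fun x => ⟨j x.1 - τ (N.Y i (j x.1)), hRK x.1 x.2⟩) (fun x y =>
      Subtype.ext (by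
        change j (x.1 + y.1) - τ (N.Y i (j (x.1 + y.1))) =
          (j x.1 - τ (N.Y i (j x.1))) + (j y.1 - τ (N.Y i (j y.1)))
        rw [map_add, map_add, map_add]
        abel))
  have h3 : IsQI (M.gc hM) (N.kc hNd (K1 N i) (K1_KC N hN i)) p3 := by
    refine IsQI.of_bij ⟨?_, ?_⟩ ?_ ?_
    · intro d x hx
      change j x.1 - τ (N.Y i (j x.1)) ∈ N.G d
      have h := hτ.G _ _ (hN.GY i d _ (jG d _ hx))
      rw [sub_add_cancel] at h
      exact (N.G d).sub_mem (jG d _ hx) h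
    · intro x
      refine Subtype.ext ?_
      change j (M.δ x.1) - τ (N.Y i (j (M.δ x.1))) = N.δ (j x.1 - τ (N.Y i (j x.1)))
      rw [jd, hN.Yd, hτ.d, map_sub]
    · intro x hx
      exact Subtype.ext (inj x.1 x.2 (congrArg Subtype.val hx))
    · intro d y hy
      obtain ⟨x, hxG, hxQ, hx⟩ := sur d y.1 hy y.2.1 y.2.2
      exact ⟨⟨x, hxQ⟩, hxG, Subtype.ext hx⟩
  refine IsQI.of_cmp hP h1 ?_
  have he : (((N.pr1 q b i 1 ρ τ).restrict hK1).toAddMonoidHom :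
      ((N.circ q b i 1 ρ).gc hcN).V →+ (N.kc hNd (K1 N i) (K1_KC N hN i)).V).comp P = p3.comp p2 := by
    refine AddMonoidHom.ext fun f => Subtype.ext ?_
    change (∑ c ∈ Finset.range q, (P f).1.1 c) - τ (N.Y i (∑ c ∈ Finset.range q, (P f).1.1 c)) =
      j (red (∑ c ∈ Finset.range q, f.1.1 c)) - τ (N.Y i (j (red (∑ c ∈ Finset.range q, f.1.1 c))))
    have h : (∑ c ∈ Finset.range q, (P f).1.1 c) = j (red (∑ c ∈ Finset.range q, f.1.1 c)) := by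
      rw [map_sum, map_sum]
      exact Finset.sum_congr rfl fun c _ => hP1 f c
    rw [h]
  have h23 := h2.cmp h3
  rw [← he] at h23
  exact h23

end SM

end HRx
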