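import Pool.Agent.Lib.MP_181146_gt.HR.PrL

/-!
# Project HR, part (c3): one circle with `z = 1 + s`
-/

set_option autoImplicit false
set_option linter.unusedVariables false
set_option linter.unusedSectionVars false

namespace HRx

open HEp HPx

section Tw

variable {k : Type} [CommRing k] {V : Type} [AddCommGroup V] [Module k V]

lemma tw_fun (q : ℕ) (u : kˣ) (f : ℤ → V) (hf : ∀ c, f (c - q) = (u : k) • f c) (t : ℤ) :
    ∀ c : ℤ, f (c + q * t) = ((u ^ (-t) : kˣ) : k) • f c := by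
  induction t using Int.induction_on with
  | zero =>
    intro c
    rw [neg_zero, zpow_zero, Units.val_one, one_smul, mul_zero, add_zero]
  | succ t ih =>
    intro c
    have h := hf (c + q * ((t : ℤ) + 1))
    have e : c + q * ((t : ℤ) + 1) - q = c + q * t := by ring
    rw [e, ih c] at h
    have e2 : ((u ^ (-((t : ℤ) + 1)) : kˣ) : k) = ((u⁻¹ : kˣ) : k) * ((u ^ (-(t : ℤ)) : kˣ) : k) := by
      rw [← Units.val_mul, ← zpow_neg_one, ← zpow_add]
      congr 2
      ring
    rw [e2, mul_smul, h, smul_smul, Units.inv_mul, one_smul]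
  | pred t ih =>
    intro c
    have e : c + q * (-(t : ℤ) - 1) = c + q * (-(t : ℤ)) - q := by ring
    have e2 : ((u ^ (-(-(t : ℤ) - 1)) : kˣ) : k) = (u : k) * ((u ^ (-(-(t : ℤ))) : kˣ) : k) := by
      rw [← Units.val_mul, ← zpow_one_add]
      congr 2
      ring
    rw [e, hf, ih c, e2, mul_smul]

/-- Solution of `g (c - 1) - g c = e c` in the functions with `g (c - q) = u g c`. -/
lemma gfun (q : ℕ) (hq : 0 < q) (u : kˣ) (s : k) (hu : (u : k) = 1 + s) (e : ℤ → V)
    (he : ∀ c, e (c - q) = (u : k) • e c) (v : V) (hv : ∑ a ∈ Finset.range q, e a = s • v) :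
    ∃ g : ℤ → V, (∀ c, g (c - q) = (u : k) • g c) ∧ (∀ c, g (c - 1) - g c = e c) ∧
      ∀ K : Submodule k V, (∀ c, e c ∈ K) → v ∈ K → ∀ c, g c ∈ K := by
  have hq' : (0 : ℤ) < q := by exact_mod_cast hq
  let G0 : ℤ → V := fun r => (u : k) • v - ∑ a ∈ Finset.range q, if (a : ℤ) ≤ r then e a else 0
  refine ⟨fun c => ((u ^ (-(c / (q : ℤ))) : kˣ) : k) • G0 (c % q), ?_, ?_, ?_⟩
  · intro c
    change ((u ^ (-((c - q) / (q : ℤ))) : kˣ) : k) • G0 ((c - q) % q) =
      (u : k) • ((u ^ (-(c / (q : ℤ))) : kˣ) : k) • G0 (c % q)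
    have e1 : (c - q) / (q : ℤ) = c / q - 1 := by
      have : c - (q : ℤ) = c + q * (-1) := by ring
      rw [this, Int.add_mul_ediv_left _ _ hq'.ne']
      ring
    rw [Int.sub_emod_right, e1, smul_smul, ← Units.val_mul, ← zpow_one_add]
    congr 3
    ring
  · intro c
    change ((u ^ (-((c - 1) / (q : ℤ))) : kˣ) : k) • G0 ((c - 1) % q) -
      ((u ^ (-(c / (q : ℤ))) : kˣ) : k) • G0 (c % q) = e c
    have hr0 : 0 ≤ c % (q : ℤ) := Int.emod_nonneg _ hq'.ne'
    have hr1 : c % (q : ℤ) < q := Int.emod_lt_of_pos _ hq'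
    by_cases hc : (q : ℤ) ∣ c
    · obtain ⟨t, rfl⟩ := hc
      have hm : ((q : ℤ) * t) % (q : ℤ) = 0 := Int.mul_emod_right _ _
      have hd : ((q : ℤ) * t) / (q : ℤ) = t := Int.mul_ediv_cancel_left _ hq'.ne'
      have e1 : (q : ℤ) * t - 1 = (q - 1) + q * (t - 1) := by ring
      have hm1 : ((q : ℤ) * t - 1) % (q : ℤ) = q - 1 := by
        rw [e1, Int.add_mul_emod_self_left, Int.emod_eq_of_lt (by omega) (by omega)]
      have hd1 : ((q : ℤ) * t - 1) / (q : ℤ) = t - 1 := by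
        rw [e1, Int.add_mul_ediv_left _ _ hq'.ne', Int.ediv_eq_zero_of_lt (by omega) (by omega),
          zero_add]
      rw [hm, hd, hm1, hd1]
      have g1 : G0 ((q : ℤ) - 1) = v := by
        change (u : k) • v - (∑ a ∈ Finset.range q, if (a : ℤ) ≤ (q : ℤ) - 1 then e a else 0) = v
        have : (∑ a ∈ Finset.range q, if (a : ℤ) ≤ (q : ℤ) - 1 then e a else 0) =
            ∑ a ∈ Finset.range q, e a := by
          refine Finset.sum_congr rfl fun a ha => ?_
          have := Finset.mem_range.1 ha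
          rw [if_pos (by omega)]
        rw [this, hv, hu, add_smul, one_smul, add_sub_cancel_right]
      have g2 : G0 0 = (u : k) • v - e 0 := by
        change (u : k) • v - (∑ a ∈ Finset.range q, if (a : ℤ) ≤ 0 then e a else 0) = _
        rw [Finset.sum_eq_single 0]
        · rw [if_pos (by simp)]
          rfl
        · intro a _ ha
          rw [if_neg (by omega)]
        · intro h
          exact absurd (Finset.mem_range.2 hq) h
      have e2 : ((u ^ (-(t - 1)) : kˣ) : k) = ((u ^ (-t) : kˣ) : k) * (u : k) := by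
        rw [← Units.val_mul, ← zpow_add_one]
        congr 2
        ring
      have e3 := tw_fun q u e he t 0
      rw [zero_add] at e3
      rw [g1, g2, e2, mul_smul, smul_sub, sub_sub_cancel, e3]
    · have hm : 0 < c % (q : ℤ) := by
        rcases hr0.lt_or_eq with h | h
        · exact h
        · exact absurd (Int.dvd_of_emod_eq_zero h.symm) hc
      have e1 : c - 1 = (c % q - 1) + q * (c / q) := by
        have := Int.emod_add_mul_ediv c q
        linarith
      have hm1 : (c - 1) % (q : ℤ) = c % q - 1 := by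
        have e3 : (c - 1) % (q : ℤ) = ((c % q - 1) + q * (c / q)) % q := by rw [← e1]
        rw [e3, Int.add_mul_emod_self_left, Int.emod_eq_of_lt (by omega) (by omega)]
      have hd1 : (c - 1) / (q : ℤ) = c / q := by
        have e3 : (c - 1) / (q : ℤ) = ((c % q - 1) + q * (c / q)) / q := by rw [← e1]
        rw [e3, Int.add_mul_ediv_left _ _ hq'.ne', Int.ediv_eq_zero_of_lt (by omega) (by omega),
          zero_add]
      obtain ⟨r, hr⟩ := Int.eq_ofNat_of_zero_le hr0
      have hr2 : c % (q : ℤ) = (r : ℤ) := hr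
      have hrq : r < q := by
        rw [hr2] at hr1
        exact_mod_cast hr1
      have g1 : G0 (c % q - 1) - G0 (c % q) = e r := by
        change ((u : k) • v - (∑ a ∈ Finset.range q, if (a : ℤ) ≤ c % q - 1 then e a else 0)) -
          ((u : k) • v - (∑ a ∈ Finset.range q, if (a : ℤ) ≤ c % q then e a else 0)) = e r
        rw [sub_sub_sub_cancel_left, ← Finset.sum_sub_distrib, Finset.sum_eq_single r]
        · rw [hr2, if_pos le_rfl, if_neg (by omega), sub_zero]
        · intro a _ ha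
          have : (a : ℤ) ≠ (r : ℤ) := by exact_mod_cast ha
          rw [hr2]
          by_cases h : (a : ℤ) ≤ r
          · rw [if_pos h, if_pos (by omega), sub_self]
          · rw [if_neg h, if_neg (by omega), sub_self]
        · intro h
          exact absurd (Finset.mem_range.2 hrq) h
      have e3 := tw_fun q u e he (c / q) (c % q)
      rw [Int.emod_add_mul_ediv] at e3
      rw [hm1, hd1, ← smul_sub, g1, e3, hr2]
  · intro K hK hv c
    refine K.smul_mem _ (K.sub_mem (K.smul_mem _ hv) (K.sum_mem fun a _ => ?_))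
    split_ifs
    · exact hK _
    · exact K.zero_mem

end Tw

section Red

variable {k : Type} [CommRing k] {H : Type} {F : FS H} {k' : Type} [CommRing k']

/-- `red` is the reduction modulo `s`. -/
structure Red (M : MS k H F) (M' : MS k' H F) (s : k) (red : M.V →+ M'.V) : Prop where
  d : ∀ x, red (M.δ x) = M'.δ (red x)
  g : ∀ x, red (M.sg x) = M'.sg (red x)
  G : ∀ i, ∀ x ∈ M.G i, red x ∈ M'.G i
  Q : ∀ x ∈ M.Q, red x ∈ M'.Q
  s0 : ∀ x : M.V, red (s • x) = 0
  inj : ∀ x : M.V, s • x = 0 → x = 0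
  ker : ∀ i, ∀ x ∈ M.G i, x ∈ M.Q → red x = 0 → ∃ y ∈ M.G i, y ∈ M.Q ∧ s • y = x
  sur : ∀ i, ∀ y ∈ M'.G i, y ∈ M'.Q → ∃ x ∈ M.G i, x ∈ M.Q ∧ red x = y

/-- The sum over a period, on the product with a circle. -/
def MS.sm (M : MS k H F) (q b i : ℕ) (z : k) (ρ : H → ℤ) : (M.circ q b i z ρ).V →ₗ[k] M.V :=
  cirN q

/-- The elements supported at the multiples of the period. -/
noncomputable def MS.jo (M : MS k H F) (q b i : ℕ) (u : kˣ) (ρ : H → ℤ) :
    M.V →ₗ[k] (M.circ q b i (u : k) ρ).V := cirJ q u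

lemma MS.jo_1 (M : MS k H F) (q b i : ℕ) (u : kˣ) (ρ : H → ℤ) (x : M.V) (c : ℤ) :
    (M.jo q b i u ρ x).1 c = if (q : ℤ) ∣ c then ((u ^ (-(c / (q : ℤ))) : kˣ) : k) • x else 0 := rfl

lemma MS.jo_2 (M : MS k H F) (q b i : ℕ) (u : kˣ) (ρ : H → ℤ) (x : M.V) (c : ℤ) :
    (M.jo q b i u ρ x).2 c = 0 := rfl

lemma MS.jo_Q (M : MS k H F) (q b i : ℕ) (hq : 0 < q) (u : kˣ) (ρ : H → ℤ) (x : M.V)
    (hx : x ∈ M.Q) : M.jo q b i u ρ x ∈ (M.circ q b i (u : k) ρ).Q := by
  have hq' : (0 : ℤ) < q := by exact_mod_cast hq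
  refine fun c => ⟨?_, M.Q.zero_mem, ?_, (smul_zero _).symm⟩
  · rw [MS.jo_1]
    split_ifs
    · exact M.Q.smul_mem _ hx
    · exact M.Q.zero_mem
  · rw [MS.jo_1, MS.jo_1]
    have h : ((q : ℤ) ∣ c - q) ↔ ((q : ℤ) ∣ c) := dvd_sub_self_right
    simp only [h]
    split_ifs
    · have e1 : (c - q) / (q : ℤ) = c / q - 1 := by
        have : c - (q : ℤ) = c + q * (-1) := by ring
        rw [this, Int.add_mul_ediv_left _ _ hq'.ne']
        ring
      rw [e1, smul_smul, ← Units.val_mul, ← zpow_one_add]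
      congr 3
      ring
    · exact (smul_zero _).symm

lemma MS.sm_jo (M : MS k H F) (q b i : ℕ) (hq : 0 < q) (u : kˣ) (ρ : H → ℤ) (x : M.V) :
    M.sm q b i (u : k) ρ (M.jo q b i u ρ x) = x := by
  have hq' : (0 : ℤ) < q := by exact_mod_cast hq
  change ∑ c ∈ Finset.range q, (M.jo q b i u ρ x).1 c = x
  rw [Finset.sum_eq_single 0]
  · rw [MS.jo_1, if_pos (by simp)]
    simp
  · intro a ha hne
    rw [MS.jo_1, if_neg]
    intro h
    have h3 := Finset.mem_range.1 ha
    have h4 : q ∣ a := by exact_mod_cast h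
    exact hne (Nat.eq_zero_of_dvd_of_lt h4 h3)
  · intro h
    exact absurd (Finset.mem_range.2 hq) h

/-- The sum over a period and the differential. -/
lemma MS.sm_d (M : MS k H F) (q b i : ℕ) (z : k) (ρ : H → ℤ) (s : k) (hz : z = 1 + s)
    (f : (M.circ q b i z ρ).V) (hf : f ∈ (M.circ q b i z ρ).Q) :
    M.sm q b i z ρ ((M.circ q b i z ρ).δ f) =
      M.δ (M.sm q b i z ρ f) + s • M.sg (f.2 ((q : ℤ) - 1)) := by
  have : ∀ n : ℕ, ∑ c ∈ Finset.range n, ((M.circ q b i z ρ).δ f).1 c =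
      ∑ c ∈ Finset.range n, M.δ (f.1 c) + (M.sg (f.2 (-1)) - M.sg (f.2 ((n : ℤ) - 1))) := by
    intro n
    induction n with
    | zero =>
      rw [Finset.sum_range_zero, Finset.sum_range_zero, zero_add]
      have : ((0 : ℕ) : ℤ) - 1 = -1 := by norm_num
      rw [this, sub_self]
    | succ n ih =>
      rw [Finset.sum_range_succ, Finset.sum_range_succ, ih]
      have : ((n + 1 : ℕ) : ℤ) - 1 = (n : ℤ) := by push_cast; ring
      rw [this]
      change _ + (M.δ (f.1 n) + (M.sg (f.2 ((n : ℤ) - 1)) - M.sg (f.2 n))) = _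
      abel
  change ∑ c ∈ Finset.range q, ((M.circ q b i z ρ).δ f).1 c =
    M.δ (∑ c ∈ Finset.range q, f.1 c) + s • M.sg (f.2 ((q : ℤ) - 1))
  have h3 : f.2 (-1) = z • f.2 ((q : ℤ) - 1) := by
    rw [← (hf ((q : ℤ) - 1)).2.2.2]
    have : (q : ℤ) - 1 - q = -1 := by ring
    rw [this]
  rw [this q, map_sum, h3, map_smul, hz, add_smul, one_smul]
  abel

/-- `T - 1` is injective. -/
lemma MS.t1_inj (M : MS k H F) (hM : Bas M) (q b i : ℕ) (z : k) (ρ : H → ℤ) (s : k)
    (hz : z = 1 + s) (inj : ∀ x : M.V, s • x = 0 → x = 0)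
    (f : (M.circ q b i z ρ).V) (hf : f ∈ (M.circ q b i z ρ).Q) (h1 : ∀ c, f.1 c = 0)
    (hd : (M.circ q b i z ρ).δ f = 0) : f = 0 := by
  have h2 : ∀ c, f.2 (c - 1) = f.2 c := by
    intro c
    have h := congrFun (congrArg Prod.fst hd) c
    change M.δ (f.1 c) + (M.sg (f.2 (c - 1)) - M.sg (f.2 c)) = 0 at h
    rw [h1, map_zero, zero_add, ← map_sub] at h
    have h' := congrArg M.sg h
    rw [hM.ss, map_zero] at h'
    exact sub_eq_zero.1 h'
  have h3 : ∀ (n : ℕ) (c : ℤ), f.2 (c - n) = f.2 c := by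
    intro n
    induction n with
    | zero =>
      intro c
      have : c - ((0 : ℕ) : ℤ) = c := by simp
      rw [this]
    | succ n ih =>
      intro c
      have : c - ((n + 1 : ℕ) : ℤ) = c - n - 1 := by push_cast; ring
      rw [this, h2, ih]
  refine Prod.ext ?_ ?_
  · funext c
    exact h1 c
  · funext c
    apply inj
    have h4 := (hf c).2.2.2
    rw [h3, hz, add_smul, one_smul] at h4
    exact left_eq_add.1 h4

/-- **One circle with `z = 1 + s`**: `f ↦ red (∑ f.1 c)` is a quasi-isomorphism. -/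
theorem circ_red (M : MS k H F) (hM : Bas M) (M' : MS k' H F) (s : k) (red : M.V →+ M'.V)
    (hr : Red M M' s red) (q b i : ℕ) (hq : 0 < q) (u : kˣ) (hu : (u : k) = 1 + s) (ρ : H → ℤ)
    (h : Dif (M.circ q b i (u : k) ρ)) (h' : Dif M')
    (p : ((M.circ q b i (u : k) ρ).gc h).V →+ (M'.gc h').V)
    (hp : ∀ f, (p f).1 = red (M.sm q b i (u : k) ρ f.1)) :
    IsQI ((M.circ q b i (u : k) ρ).gc h) (M'.gc h') p := by
  have hch : IsCh ((M.circ q b i (u : k) ρ).gc h) (M'.gc h') p := by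
    refine ⟨?_, ?_⟩
    · intro d f hf
      change (p f).1 ∈ M'.G d
      rw [hp]
      refine hr.G _ _ ?_
      change (∑ c ∈ Finset.range q, f.1.1 c) ∈ M.G d
      exact (M.G d).sum_mem fun c _ => (hf c).1
    · intro f
      refine Subtype.ext ?_
      rw [hp]
      change red (M.sm q b i (u : k) ρ ((M.circ q b i (u : k) ρ).δ f.1)) = M'.δ (p f).1
      rw [hp, M.sm_d q b i (u : k) ρ s hu f.1 f.2, map_add, hr.s0, add_zero, hr.d]
  refine ⟨hch, ?_, ?_⟩
  · rintro d f ⟨hfG, hf0⟩ ⟨y, hyG, hy⟩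
    obtain ⟨x, hxG, hxQ, hx⟩ := hr.sur (d + 1) y.1 hyG y.2
    -- subtract the boundary of `jo x`
    have hjG : M.jo q b i u ρ x ∈ (M.circ q b i (u : k) ρ).G (d + 1) := by
      refine fun c => ⟨?_, (M.G _).zero_mem⟩
      rw [MS.jo_1]
      split_ifs
      · exact (M.G _).smul_mem _ hxG
      · exact (M.G _).zero_mem
    have hjQ := M.jo_Q q b i hq u ρ x hxQ
    set f' : (M.circ q b i (u : k) ρ).V :=
      f.1 - (M.circ q b i (u : k) ρ).δ (M.jo q b i u ρ x) with hf'
    have hf'Q : f' ∈ (M.circ q b i (u : k) ρ).Q :=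
      (M.circ q b i (u : k) ρ).Q.sub_mem f.2 (h.Qd _ hjQ)
    have hf'G : f' ∈ (M.circ q b i (u : k) ρ).G d := by
      refine ((M.circ q b i (u : k) ρ).G d).sub_mem hfG ?_
      have := h.Gd _ _ hjG
      rwa [add_sub_cancel_right] at this
    have hf'd : (M.circ q b i (u : k) ρ).δ f' = 0 := by
      rw [hf', map_sub, h.dd _ hjQ, sub_zero]
      exact congrArg Subtype.val hf0
    have hred : red (M.sm q b i (u : k) ρ f') = 0 := by
      rw [hf', map_sub, map_sub, M.sm_d q b i (u : k) ρ s hu _ hjQ, map_add, hr.s0, add_zero,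
        MS.sm_jo M q b i hq u ρ x, hr.d, hx, ← hp]
      have := congrArg Subtype.val hy
      change M'.δ y.1 = (p f).1 at this
      rw [this, sub_self]
    have hsG : M.sm q b i (u : k) ρ f' ∈ M.G d := by
      change (∑ c ∈ Finset.range q, f'.1 c) ∈ M.G d
      exact (M.G d).sum_mem fun c _ => (hf'G c).1
    have hsQ : M.sm q b i (u : k) ρ f' ∈ M.Q := by
      change (∑ c ∈ Finset.range q, f'.1 c) ∈ M.Q
      exact M.Q.sum_mem fun c _ => (hf'Q c).1
    obtain ⟨w, hwG, hwQ, hw⟩ := hr.ker d _ hsG hsQ hred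
    obtain ⟨g, g1, g2, g3⟩ := gfun q hq u s hu (fun c => M.sg (f'.1 c))
      (fun c => by rw [(hf'Q c).2.2.1, map_smul]) (M.sg w) (by
        rw [← map_sum, ← map_smul, hw]
        rfl)
    have hgQ : ∀ c, g c ∈ M.Q := g3 M.Q (fun c => hM.Qs _ (hf'Q c).1) (hM.Qs _ hwQ)
    have hgG : ∀ c, g c ∈ M.G d := g3 (M.G d) (fun c => hM.Gs _ _ (hf'G c).1) (hM.Gs _ _ hwG)
    let γ : (M.circ q b i (u : k) ρ).V := (fun _ => 0, g)
    have hγQ : γ ∈ (M.circ q b i (u : k) ρ).Q :=
      fun c => ⟨M.Q.zero_mem, hgQ c, (smul_zero _).symm, g1 c⟩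
    have hγG : γ ∈ (M.circ q b i (u : k) ρ).G (d + 1) := by
      refine fun c => ⟨(M.G _).zero_mem, ?_⟩
      rw [add_sub_cancel_right]
      exact hgG c
    have hz : f' - (M.circ q b i (u : k) ρ).δ γ = 0 := by
      refine M.t1_inj hM q b i (u : k) ρ s hu hr.inj _
        ((M.circ q b i (u : k) ρ).Q.sub_mem hf'Q (h.Qd _ hγQ)) ?_ ?_
      · intro c
        change f'.1 c - (M.δ 0 + (M.sg (g (c - 1)) - M.sg (g c))) = 0
        rw [map_zero, zero_add, ← map_sub, g2, hM.ss, sub_self]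
      · rw [map_sub, hf'd, h.dd _ hγQ, sub_zero]
    refine ⟨⟨γ + M.jo q b i u ρ x, (M.circ q b i (u : k) ρ).Q.add_mem hγQ hjQ⟩,
      ((M.circ q b i (u : k) ρ).G (d + 1)).add_mem hγG hjG, Subtype.ext ?_⟩
    change (M.circ q b i (u : k) ρ).δ (γ + M.jo q b i u ρ x) = f.1
    rw [map_add, ← sub_eq_zero.1 hz, hf', sub_add_cancel]
  · rintro d y ⟨hyG, hy0⟩
    obtain ⟨x, hxG, hxQ, hx⟩ := hr.sur d y.1 hyG y.2
    have hdx : red (M.δ x) = 0 := by
      rw [hr.d, hx]
      exact congrArg Subtype.val hy0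
    obtain ⟨w, hwG, hwQ, hw⟩ := hr.ker (d - 1) _ (hM.Gd _ _ hxG) (hM.Qd _ hxQ) hdx
    have hq' : (0 : ℤ) < q := by exact_mod_cast hq
    have hjG : M.jo q b i u ρ x ∈ (M.circ q b i (u : k) ρ).G d := by
      refine fun c => ⟨?_, (M.G _).zero_mem⟩
      rw [MS.jo_1]
      split_ifs
      · exact (M.G _).smul_mem _ hxG
      · exact (M.G _).zero_mem
    have hjQ := M.jo_Q q b i hq u ρ x hxQ
    let η : (M.circ q b i (u : k) ρ).V :=
      (fun _ => 0, fun c => -(((u ^ (-(c / (q : ℤ))) : kˣ) : k) • M.sg w))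
    have hηQ : η ∈ (M.circ q b i (u : k) ρ).Q := by
      refine fun c => ⟨M.Q.zero_mem, M.Q.neg_mem (M.Q.smul_mem _ (hM.Qs _ hwQ)),
        (smul_zero _).symm, ?_⟩
      change -(((u ^ (-((c - q) / (q : ℤ))) : kˣ) : k) • M.sg w) =
        (u : k) • (-(((u ^ (-(c / (q : ℤ))) : kˣ) : k) • M.sg w))
      have e1 : (c - q) / (q : ℤ) = c / q - 1 := by
        have : c - (q : ℤ) = c + q * (-1) := by ring
        rw [this, Int.add_mul_ediv_left _ _ hq'.ne']
        ring
      rw [e1, smul_neg, smul_smul, ← Units.val_mul, ← zpow_one_add]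
      congr 4
      ring
    have hηG : η ∈ (M.circ q b i (u : k) ρ).G d :=
      fun c => ⟨(M.G _).zero_mem, (M.G _).neg_mem ((M.G _).smul_mem _ (hM.Gs _ _ hwG))⟩
    set f : (M.circ q b i (u : k) ρ).V := M.jo q b i u ρ x + η with hf
    have hfQ : f ∈ (M.circ q b i (u : k) ρ).Q := (M.circ q b i (u : k) ρ).Q.add_mem hjQ hηQ
    have hfd : (M.circ q b i (u : k) ρ).δ f = 0 := by
      refine M.t1_inj hM q b i (u : k) ρ s hu hr.inj _ (h.Qd _ hfQ) ?_ (h.dd _ hfQ)
      intro c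
      change M.δ ((M.jo q b i u ρ x).1 c + 0) +
        (M.sg (0 + -(((u ^ (-((c - 1) / (q : ℤ))) : kˣ) : k) • M.sg w)) -
          M.sg (0 + -(((u ^ (-(c / (q : ℤ))) : kˣ) : k) • M.sg w))) = 0
      rw [add_zero, zero_add, zero_add, map_neg, map_neg, map_smul, map_smul, hM.ss, MS.jo_1]
      by_cases hc : (q : ℤ) ∣ c
      · rw [if_pos hc, map_smul, ← hw]
        obtain ⟨t, rfl⟩ := hc
        have hd : ((q : ℤ) * t) / (q : ℤ) = t := Int.mul_ediv_cancel_left _ hq'.ne'
        have e1 : (q : ℤ) * t - 1 = (q - 1) + q * (t - 1) := by ring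
        have hd1 : ((q : ℤ) * t - 1) / (q : ℤ) = t - 1 := by
          rw [e1, Int.add_mul_ediv_left _ _ hq'.ne', Int.ediv_eq_zero_of_lt (by omega) (by omega),
            zero_add]
        rw [hd, hd1]
        have e2 : ((u ^ (-(t - 1)) : kˣ) : k) = ((u ^ (-t) : kˣ) : k) * (1 + s) := by
          rw [← hu, ← Units.val_mul, ← zpow_add_one]
          congr 2
          ring
        rw [e2, mul_add, mul_one, add_smul, mul_smul]
        abel
      · rw [if_neg hc, map_zero, zero_add]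
        have hr0 : 0 ≤ c % (q : ℤ) := Int.emod_nonneg _ hq'.ne'
        have hr1 : c % (q : ℤ) < q := Int.emod_lt_of_pos _ hq'
        have hm : 0 < c % (q : ℤ) := by
          rcases hr0.lt_or_eq with h | h
          · exact h
          · exact absurd (Int.dvd_of_emod_eq_zero h.symm) hc
        have e1 : c - 1 = (c % q - 1) + q * (c / q) := by
          have := Int.emod_add_mul_ediv c q
          linarith
        have hd1 : (c - 1) / (q : ℤ) = c / q := by
          have e3 : (c - 1) / (q : ℤ) = ((c % q - 1) + q * (c / q)) / q := by rw [← e1]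
          rw [e3, Int.add_mul_ediv_left _ _ hq'.ne', Int.ediv_eq_zero_of_lt (by omega) (by omega),
            zero_add]
        rw [hd1, sub_self]
    refine ⟨⟨f, hfQ⟩, ⟨((M.circ q b i (u : k) ρ).G d).add_mem hjG hηG, Subtype.ext hfd⟩, 0,
      ((M'.gc h').G (d + 1)).zero_mem, ?_⟩
    rw [map_zero]
    refine (sub_eq_zero.2 (Subtype.ext ?_)).symm
    refine Eq.trans ?_ (hp ⟨f, hfQ⟩).symm
    change y.1 = red (M.sm q b i (u : k) ρ (M.jo q b i u ρ x + η))
    have h0 : M.sm q b i (u : k) ρ η = 0 := by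
      change ∑ c ∈ Finset.range q, (0 : M.V) = 0
      exact Finset.sum_const_zero
    rw [map_add, h0, add_zero, MS.sm_jo M q b i hq u ρ x, hx]

end Red

end HRx
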