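import Pool.Agent.Lib.MP_181146_gt.HR.PrM
import Pool.Agent.Lib.MP_181146_gt.HR.PrB

/-!
# Project HR, part (c3): `1 - τ Y_0` is an isomorphism from the kernel of a linear form with coefficient
`1` at `Y_0` onto the kernel of `Y_0`
-/

set_option autoImplicit false
set_option linter.unusedVariables false
set_option linter.unusedSectionVars false

namespace HRx

open HEp HPx

/-! ## One circle -/

section BJ

variable {k : Type} [CommRing k] {H : Type} {F : FS H}

/-- `(1 - τ Y i) ∘ j` is bijective onto the kernel of `Y i`. -/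
structure BJ (M : MS k H F) (N : MS k H F) (j : M.V →+ N.V) (i : ℕ) (τ : Module.End k N.V) :
    Prop where
  inj : ∀ x, j x - τ (N.Y i (j x)) = 0 → x = 0
  sur : ∀ d, ∀ y ∈ N.G d, y ∈ N.Q → N.Y i y = 0 →
    ∃ x ∈ M.G d, x ∈ M.Q ∧ j x - τ (N.Y i (j x)) = y

lemma BJ.circ {M N : MS k H F} {j : M.V →+ N.V} {i : ℕ} {τ : Module.End k N.V}
    (h : BJ M N j i τ) (q b i0 : ℕ) (ρ : H → ℤ) :
    BJ (M.circ q b i0 1 ρ) (N.circ q b i0 1 ρ) (cirF j) i (cirM τ) where
  inj := by
    intro f hf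
    refine Prod.ext ?_ ?_
    · funext c
      exact h.inj _ (congrFun (congrArg Prod.fst hf) c)
    · funext c
      exact h.inj _ (congrFun (congrArg Prod.snd hf) c)
  sur := by
    intro d y hy hyQ hY
    have h1 : ∀ c, ∃ x ∈ M.G d, x ∈ M.Q ∧ j x - τ (N.Y i (j x)) = y.1 c := fun c =>
      h.sur d (y.1 c) (hy c).1 (hyQ c).1 (congrFun (congrArg Prod.fst hY) c)
    have h2 : ∀ c, ∃ x ∈ M.G (d - 1), x ∈ M.Q ∧ j x - τ (N.Y i (j x)) = y.2 c := fun c =>
      h.sur (d - 1) (y.2 c) (hy c).2 (hyQ c).2.1 (congrFun (congrArg Prod.snd hY) c)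
    choose x1 a1 b1 c1 using h1
    choose x2 a2 b2 c2 using h2
    have heq : ∀ a a' : M.V, j a - τ (N.Y i (j a)) = j a' - τ (N.Y i (j a')) → a = a' := by
      intro a a' e
      rw [← sub_eq_zero]
      apply h.inj
      rw [map_sub, map_sub, map_sub]
      rw [← sub_eq_zero] at e
      rw [← e]
      abel
    refine ⟨(x1, x2), fun c => ⟨a1 c, a2 c⟩, fun c => ⟨b1 c, b2 c, ?_, ?_⟩, ?_⟩
    · rw [one_smul]
      apply heq
      rw [c1, c1]
      have := (hyQ c).2.2.1
      rw [one_smul] at this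
      exact this
    · rw [one_smul]
      apply heq
      rw [c2, c2]
      have := (hyQ c).2.2.2
      rw [one_smul] at this
      exact this
    · refine Prod.ext ?_ ?_
      · funext c
        exact c1 c
      · funext c
        exact c2 c

lemma BJ.mit {M N : MS k H F} {j : M.V →+ N.V} {i : ℕ} {τ : Module.End k N.V}
    (h : BJ M N j i τ) (q b : ℕ) (ix : ℕ → ℕ) (ρ : ℕ → H → ℤ) (n : ℕ) :
    BJ (mit M q b ix (fun _ => (1 : k)) ρ n) (mit N q b ix (fun _ => (1 : k)) ρ n)
      (mitF j q b ix (fun _ => (1 : k)) (fun _ => (1 : k)) ρ n) i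
      (mitE N q b ix (fun _ => (1 : k)) ρ τ n) := by
  induction n with
  | zero => exact h
  | succ n ih => exact ih.circ q b (ix n) (ρ (ix n))

end BJ

/-! ## The base -/

section DMs

variable {k : Type} [CommRing k] {D : DM k} (m : ℕ) (lam : ℕ → k)
  (τ : ∀ l, D.D l →ₗ[k] D.D (l + 1))

variable (D) in
/-- The part of the linear form without `Y 0`. -/
def Lm (l : ℕ) : D.D (l + 1) →ₗ[k] D.D l :=
  ∑ i ∈ (Finset.range m).erase 0, lam i • D.Y i l

/-- The inverse of `1 + τ Λ`. -/
def Rv : ∀ l, D.D l →ₗ[k] D.D l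
  | 0 => LinearMap.id
  | l + 1 => LinearMap.id - τ l ∘ₗ Rv l ∘ₗ Lm D m lam l

variable (tc : ∀ i, 0 < i → i < m → ∀ x, D.tY i (D.up τ x) = D.up τ (D.tY i x))

include tc

lemma Y_τ0 (i : ℕ) (h0 : 0 < i) (hi : i < m) (v : D.D 0) : D.Y i 0 (τ 0 v) = 0 := by
  have h := congrFun (tc i h0 hi (Pi.single 0 v)) 0
  change D.Y i 0 (τ 0 ((Pi.single 0 v : D.Sq) 0)) = 0 at h
  rw [Pi.single_eq_same] at h
  exact h

lemma Y_τs (i : ℕ) (h0 : 0 < i) (hi : i < m) (l : ℕ) (v : D.D (l + 1)) :
    D.Y i (l + 1) (τ (l + 1) v) = τ l (D.Y i l v) := by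
  have h := congrFun (tc i h0 hi (Pi.single (l + 1) v)) (l + 1)
  change D.Y i (l + 1) (τ (l + 1) ((Pi.single (l + 1) v : D.Sq) (l + 1))) =
    τ l (D.Y i l ((Pi.single (l + 1) v : D.Sq) (l + 1))) at h
  rw [Pi.single_eq_same] at h
  exact h

lemma Lm_τ0 (v : D.D 0) : Lm D m lam 0 (τ 0 v) = 0 := by
  rw [Lm, LinearMap.sum_apply]
  refine Finset.sum_eq_zero fun i hi => ?_
  rw [Finset.mem_erase, Finset.mem_range] at hi
  rw [LinearMap.smul_apply, Y_τ0 m τ tc i (Nat.pos_of_ne_zero hi.1) hi.2, smul_zero]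

lemma Lm_τs (l : ℕ) (v : D.D (l + 1)) :
    Lm D m lam (l + 1) (τ (l + 1) v) = τ l (Lm D m lam l v) := by
  rw [Lm, Lm, LinearMap.sum_apply, LinearMap.sum_apply, map_sum]
  refine Finset.sum_congr rfl fun i hi => ?_
  rw [Finset.mem_erase, Finset.mem_range] at hi
  rw [LinearMap.smul_apply, LinearMap.smul_apply, map_smul,
    Y_τs m τ tc i (Nat.pos_of_ne_zero hi.1) hi.2]

lemma Lm_Rv (l : ℕ) (x : D.D (l + 1)) :
    Lm D m lam l (Rv m lam τ (l + 1) x) = Rv m lam τ l (Lm D m lam l x) := by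
  induction l with
  | zero =>
    change Lm D m lam 0 (x - τ 0 (Lm D m lam 0 x)) = Lm D m lam 0 x
    rw [map_sub, Lm_τ0 m lam τ tc, sub_zero]
  | succ l ih =>
    have h1 : Rv m lam τ (l + 2) x =
        x - τ (l + 1) (Rv m lam τ (l + 1) (Lm D m lam (l + 1) x)) := rfl
    have h2 : Rv m lam τ (l + 1) (Lm D m lam (l + 1) x) = Lm D m lam (l + 1) x -
        τ l (Rv m lam τ l (Lm D m lam l (Lm D m lam (l + 1) x))) := rfl
    rw [h1, map_sub, Lm_τs m lam τ tc, ih, h2]

lemma Rv_eq (l : ℕ) (x : D.D (l + 1)) :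
    Rv m lam τ (l + 1) x + τ l (Lm D m lam l (Rv m lam τ (l + 1) x)) = x := by
  rw [Lm_Rv m lam τ tc]
  change x - τ l (Rv m lam τ l (Lm D m lam l x)) + τ l (Rv m lam τ l (Lm D m lam l x)) = x
  rw [sub_add_cancel]

lemma Lm_inj (l : ℕ) (x : D.D (l + 1)) (hx : x + τ l (Lm D m lam l x) = 0) : x = 0 := by
  induction l with
  | zero =>
    have h := congrArg (Lm D m lam 0) hx
    rw [map_add, Lm_τ0 m lam τ tc, add_zero, map_zero] at h
    rw [h, map_zero, add_zero] at hx
    exact hx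
  | succ l ih =>
    have h := congrArg (Lm D m lam (l + 1)) hx
    rw [map_add, Lm_τs m lam τ tc, map_zero] at h
    have h' := ih _ h
    rw [h', map_zero, add_zero] at hx
    exact hx

end DMs

section Base

variable {k : Type} [CommRing k] {D Du : DM k} (j : DHom (RingHom.id k) D Du) (m : ℕ)
  (hm : 0 < m) (lam : ℕ → k) (l0 : lam 0 = 1)
  (τ : ∀ l, Du.D l →ₗ[k] Du.D (l + 1))

lemma lf_eq {D : DM k} (m : ℕ) (hm : 0 < m) (lam : ℕ → k) (l0 : lam 0 = 1) (l : ℕ)
    (x : D.D (l + 1)) :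
    (∑ i ∈ Finset.range m, lam i • D.tY i) (Pi.single (l + 1) x) =
      Pi.single l (D.Y 0 l x + Lm D m lam l x) := by
  rw [LinearMap.sum_apply, ← Finset.add_sum_erase _ _ (Finset.mem_range.2 hm),
    LinearMap.smul_apply, l0, one_smul, D.tY_single, Pi.single_add]
  congr 1
  rw [Lm, LinearMap.sum_apply]
  refine Eq.trans ?_ (map_sum (LinearMap.single k D.D l) _ _).symm
  refine Finset.sum_congr rfl fun i _ => ?_
  rw [LinearMap.smul_apply, LinearMap.smul_apply, D.tY_single, map_smul, LinearMap.single_apply]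

/-- **The base.** -/
theorem BJ_base {H : Type} (K : SS) (α : H → SSHom K K) (a : Ch ℤ K →ₗ[ℤ] Ch ℤ K)
    (ji : ∀ l x, j.f l x = 0 → x = 0) (hm : 0 < m) (l0 : lam 0 = 1)
    (jk : ∀ l (x : Du.D l), (∑ i ∈ Finset.range m, lam i • Du.tY i) (Pi.single l x) = 0 ↔
      ∃ y, j.f l y = x)
    (ts : ∀ l x, Du.Y 0 l (τ l x) = x)
    (tc : ∀ i, 0 < i → i < m → ∀ x, Du.tY i (Du.up τ x) = Du.up τ (Du.tY i x)) :
    BJ (ms0 K α D a) (ms0 K α Du a) (j.ch K) 0 (upC K Du τ) where
  inj := by
    intro (h : ChD K D) hh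
    funext l
    refine Finsupp.ext fun x => ?_
    apply ji
    have h1 : ∀ l, j.f l (h l x) - (upC K Du τ (yD K Du 0 (j.ch K h)) l x) = 0 := fun l =>
      DFunLike.congr_fun (congrFun hh l) x
    cases l with
    | zero =>
      have h2 := h1 0
      change j.f 0 (h 0 x) - 0 = 0 at h2
      rw [sub_zero] at h2
      exact h2
    | succ l =>
      have h2 := h1 (l + 1)
      change j.f (l + 1) (h (l + 1) x) - τ l (Du.Y 0 l (j.f (l + 1) (h (l + 1) x))) = 0 at h2
      have h3 := (jk (l + 1) (j.f (l + 1) (h (l + 1) x))).2 ⟨_, rfl⟩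
      rw [lf_eq m hm lam l0] at h3
      have h4 := congrFun h3 l
      rw [Pi.single_eq_same] at h4
      have h5 : Du.Y 0 l (j.f (l + 1) (h (l + 1) x)) = -Lm Du m lam l (j.f (l + 1) (h (l + 1) x)) :=
        eq_neg_of_add_eq_zero_left h4
      rw [h5, map_neg, sub_neg_eq_add] at h2
      exact Lm_inj m lam τ tc l _ h2
  sur := by
    intro d (y : ChD K Du) hy _ hY
    have key : ∀ l (v : Du.D l), ∃ w : D.D l, (Du.tY 0 (Pi.single l v) = 0 →
        j.f l w = Rv m lam τ l v) ∧ (v = 0 → w = 0) := by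
      intro l v
      by_cases hv : v = 0
      · refine ⟨0, fun _ => ?_, fun _ => rfl⟩
        rw [hv, map_zero, map_zero]
      · by_cases hv2 : Du.tY 0 (Pi.single l v) = 0
        · have h1 : (∑ i ∈ Finset.range m, lam i • Du.tY i)
              (Pi.single l (Rv m lam τ l v)) = 0 := by
            cases l with
            | zero =>
              rw [LinearMap.sum_apply]
              refine Finset.sum_eq_zero fun i _ => ?_
              rw [LinearMap.smul_apply, Du.tY_single_zero, smul_zero]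
            | succ l =>
              rw [lf_eq m hm lam l0]
              have h2 := Rv_eq m lam τ tc l v
              have h3 := congrArg (Du.Y 0 l) h2
              rw [map_add, ts] at h3
              rw [Du.tY_single] at hv2
              have h4 := congrFun hv2 l
              rw [Pi.single_eq_same] at h4
              rw [h3, h4]
              exact Pi.single_zero _
          obtain ⟨w, hw⟩ := (jk l _).1 h1
          exact ⟨w, fun _ => hw, fun e => absurd e hv⟩
        · exact ⟨0, fun e => absurd e hv2, fun _ => rfl⟩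
    choose p hp hp0 using key
    have hYc : ∀ l x, Du.tY 0 (Pi.single l (y l x)) = 0 := by
      intro l x
      cases l with
      | zero => exact Du.tY_single_zero 0 _
      | succ l =>
        rw [Du.tY_single]
        have h1 : Du.Y 0 l (y (l + 1) x) = 0 := DFunLike.congr_fun (congrFun hY l) x
        rw [h1]
        exact Pi.single_zero _
    refine ⟨(fun l => Finsupp.mapRange (p l) (hp0 l 0 rfl) (y l) : ChD K D), ?_, trivial, ?_⟩
    · intro l x hx
      change p l (y l x) = 0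
      exact hp0 l _ (hy l x hx)
    · funext l
      refine Finsupp.ext fun x => ?_
      cases l with
      | zero =>
        change j.f 0 (p 0 (y 0 x)) - 0 = y 0 x
        rw [sub_zero, hp 0 _ (hYc 0 x)]
        rfl
      | succ l =>
        change j.f (l + 1) (p (l + 1) (y (l + 1) x)) -
          τ l (Du.Y 0 l (j.f (l + 1) (p (l + 1) (y (l + 1) x)))) = y (l + 1) x
        have h6 := hp (l + 1) _ (hYc (l + 1) x)
        have h3 := (jk (l + 1) (j.f (l + 1) (p (l + 1) (y (l + 1) x)))).2 ⟨_, rfl⟩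
        rw [lf_eq m hm lam l0] at h3
        have h4 := congrFun h3 l
        rw [Pi.single_eq_same] at h4
        have h5 : Du.Y 0 l (j.f (l + 1) (p (l + 1) (y (l + 1) x))) =
            -Lm Du m lam l (j.f (l + 1) (p (l + 1) (y (l + 1) x))) :=
          eq_neg_of_add_eq_zero_left h4
        rw [h5, map_neg, sub_neg_eq_add, h6]
        exact Rv_eq m lam τ tc l _

end Base

end HRx
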