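import Pool.Agent.Lib.MP_181146_gt.HR.LinS
import Pool.Agent.Lib.MP_181146_gt.HR.KapN
import Pool.Agent.Lib.MP_181146_gt.HR.Kap
import Pool.Agent.Lib.MP_181146_gt.HB.All

/-!
# Project HR, R5b: the class of the telescope for the kernel of `κ(Y)`

`D → Du` injective with image the kernel of `κ(Y)`, `κ(Y)` onto: the complex `Q(k, 1, D)` is the kernel of
`κ(Y)` on `Q(k, 1, Du)` (`kdQ`).
-/

set_option autoImplicit false
set_option linter.unusedVariables false
set_option linter.unusedSectionVars false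

namespace HRx

open HEp HPx HBy HAx

/-! ## Linear maps over the group ring -/

section

variable {G : Type} [CommGroup G] {k : Type} [CommRing k] {T T' : GC k}

lemma GAct.th_lin (A : GAct G T) (A' : GAct G T') (f : T.V →+ T'.V)
    (h1 : ∀ (r : k) x, f (r • x) = r • f x) (h2 : ∀ g x, f (A.r g x) = A'.r g (f x))
    (b : MonoidAlgebra k G) (x : T.V) : f (A.th b x) = A'.th b (f x) := by
  induction b using MonoidAlgebra.induction_linear with
  | zero => rw [map_zero, map_zero, LinearMap.zero_apply, LinearMap.zero_apply, map_zero]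
  | add a b ha hb =>
    rw [map_add, map_add, LinearMap.add_apply, LinearMap.add_apply, map_add, ha, hb]
  | single g r => rw [A.th_single, A'.th_single, h1, h2]

/-- A map commuting with the group, as a linear map over the group ring. -/
noncomputable def GAct.lin (A : GAct G T) (A' : GAct G T') (f : T.V →+ T'.V)
    (h1 : ∀ (r : k) x, f (r • x) = r • f x) (h2 : ∀ g x, f (A.r g x) = A'.r g (f x)) :
    A.gc.V →ₗ[MonoidAlgebra k G] A'.gc.V where
  toFun := f
  map_add' := f.map_add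
  map_smul' := fun b x => A.th_lin A' f h1 h2 b x

lemma GAct.lin_apply (A : GAct G T) (A' : GAct G T') (f : T.V →+ T'.V)
    (h1 : ∀ (r : k) x, f (r • x) = r • f x) (h2 : ∀ g x, f (A.r g x) = A'.r g (f x)) (x : T.V) :
    A.lin A' f h1 h2 x = f x := rfl

end

/-! ## Operators commuting with `Y` commute with `κ(Y)` -/

lemma Ko_comm {k : Type} [CommRing k] {V : Type} [AddCommGroup V] [Module k V]
    (Y : ℕ → Module.End k V) (B : Module.End k V) (hB : ∀ i x, B (Y i x) = Y i (B x)) (b : ℕ)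
    (ix : ℕ → ℕ) (n : ℕ) : ∀ (κ : (ℕ → ℕ) → ℤ) (x : V),
    B (Ko Y b ix n κ x) = Ko Y b ix n κ (B x) := by
  have hp : ∀ (i j : ℕ) (x : V), B ((Y i ^ j) x) = (Y i ^ j) (B x) := by
    intro i j
    induction j with
    | zero => intro x; rfl
    | succ j ih =>
      intro x
      rw [pow_succ', Module.End.mul_apply, Module.End.mul_apply, hB, ih]
  induction n with
  | zero =>
    intro κ x
    change B (κ 0 • x) = κ 0 • B x
    exact map_zsmul B _ _
  | succ n ih =>
    intro κ x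
    change B ((∑ j ∈ Finset.range (b + 1),
      Ko Y b ix n (fun a => κ (Function.update a (ix n) j)) * Y (ix n) ^ j) x) =
      (∑ j ∈ Finset.range (b + 1),
      Ko Y b ix n (fun a => κ (Function.update a (ix n) j)) * Y (ix n) ^ j) (B x)
    rw [LinearMap.sum_apply, LinearMap.sum_apply, map_sum]
    refine Finset.sum_congr rfl fun j _ => ?_
    rw [Module.End.mul_apply, Module.End.mul_apply, ih, hp]

/-! ## The degrees -/

lemma mitF_G {k k' : Type} [CommRing k] [CommRing k'] {H : Type} {F : FS H} {M : MS k H F}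
    {M' : MS k' H F} (f : M.V →+ M'.V) (q b : ℕ) (ix : ℕ → ℕ) (z : ℕ → k) (z' : ℕ → k')
    (ρ : ℕ → H → ℤ) (hf : ∀ i x, f x ∈ M'.G i ↔ x ∈ M.G i) (n : ℕ) :
    ∀ i x, mitF f q b ix z z' ρ n x ∈ (mit M' q b ix z' ρ n).G i ↔ x ∈ (mit M q b ix z ρ n).G i := by
  induction n with
  | zero => exact hf
  | succ n ih =>
    intro i x
    constructor
    · intro h c
      exact ⟨(ih _ _).1 (h c).1, (ih _ _).1 (h c).2⟩
    · intro h c
      exact ⟨(ih _ _).2 (h c).1, (ih _ _).2 (h c).2⟩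

/-! ## The exact sequence -/

section

variable {k : Type} [CommRing k] {G : Type} [CommGroup G] (g : GD G) {D Du : DM k}
  (j : DHom (RingHom.id k) D Du)

/-- The exact sequence of the base. -/
lemma ex3_base (hu : Du.Comm) (ji : ∀ l x, j.f l x = 0 → x = 0)
    (jk : ∀ l (x : Du.D l), g.kY Du (Pi.single l x) = 0 ↔ ∃ y, j.f l y = x)
    (ks : ∀ l (y : Du.D l), ∃ x : Du.D (l + g.w), g.kY Du (Pi.single (l + g.w) x) = Pi.single l y) :
    Ex3 (M' := g.M0 D) (M := g.M0 Du) (M'' := g.M0 Du) (2 * (g.w : ℤ)) (j.ch g.K)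
      (opW g.K Du g.w (g.kY Du)).toAddMonoidHom := by
  classical
  have hO := pOpY g.K k Du hu g.b (rv g.m) (rv_injF g.m) g.m g.w g.κ (fun a ha => by
    rw [← g.κh a ha]
    exact rv_sum g.m a)
  have e := pExK G g k Du (g.kY Du) hO.1 g.w hO.2.2.1 hO.2.2.2.1 ks
  -- the isomorphism with the kernel
  let φ : DHom (RingHom.id k) D (Du.ker (g.kY Du) hO.1) :=
    { f := fun l => AddMonoidHom.mk' (fun x => ⟨j.f l x, (jk l _).2 ⟨x, rfl⟩⟩)
        (fun x y => Subtype.ext ((j.f l).map_add x y))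
      fs := fun l r x => Subtype.ext (j.fs l r x)
      fY := fun i l x => Subtype.ext (j.fY i l x) }
  have hφ : ∀ x, (Du.kerI (g.kY Du) hO.1).ch g.K (φ.ch g.K x) = j.ch g.K x := by
    intro x
    funext l
    ext s
    rfl
  have hbij : ∀ l, Function.Bijective (φ.f l) := by
    intro l
    refine ⟨(injective_iff_map_eq_zero (φ.f l)).2 fun x hx => ji l x (congrArg Subtype.val hx), ?_⟩
    rintro ⟨y, hy⟩
    obtain ⟨x, hx⟩ := (jk l y).1 hy
    exact ⟨x, Subtype.ext hx⟩
  have hm := DHom.mc g j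
  refine
    { aG := fun i x hx => DHom.ch_G g j i x hx
      bG := e.bG
      aQ := fun _ _ => trivial
      bQ := fun _ _ => trivial
      ad := hm.fd
      bd := e.bd
      as := hm.fs
      bs := e.bs
      aY := hm.fY
      bY := e.bY
      inj := fun x hx => ?_
      ba := fun x => ?_
      ex := fun i x hx hQ h0 => ?_
      sur := e.sur }
  · funext l
    ext s
    refine ji l _ ?_
    exact DFunLike.congr_fun (congrFun hx l) s
  · exact (congrArg (opW g.K Du g.w (g.kY Du)) (hφ x).symm).trans (e.ba (φ.ch g.K x))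
  · obtain ⟨y, hy, -, hyx⟩ := e.ex i x hx hQ h0
    let ψ := fun l => (AddEquiv.ofBijective (φ.f l) (hbij l)).symm
    have hψ : ∀ l z, φ.f l (ψ l z) = z := fun l z =>
      (AddEquiv.ofBijective (φ.f l) (hbij l)).apply_symm_apply z
    refine ⟨fun l => Finsupp.mapRange (ψ l) (map_zero (ψ l)) ((y : ChD g.K _) l), ?_, trivial, ?_⟩
    · intro l s hs
      change ψ l ((y : ChD g.K _) l s) = 0
      have h1 : (y : ChD g.K _) l s = 0 := hy l s hs
      rw [h1, map_zero]
    · refine (hφ _).symm.trans (Eq.trans ?_ hyx)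
      refine congrArg ((Du.kerI (g.kY Du) hO.1).ch g.K) ?_
      funext l
      refine Finsupp.ext fun s => ?_
      exact hψ l _

/-- The exact sequence for the product with the circles. -/
lemma ex3_all (hu : Du.Comm) (ji : ∀ l x, j.f l x = 0 → x = 0)
    (jk : ∀ l (x : Du.D l), g.kY Du (Pi.single l x) = 0 ↔ ∃ y, j.f l y = x)
    (ks : ∀ l (y : Du.D l), ∃ x : Du.D (l + g.w), g.kY Du (Pi.single (l + g.w) x) = Pi.single l y) :
    Ex3 (M' := g.N D) (M := g.N Du) (M'' := g.N Du) (2 * (g.w : ℤ))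
      (g.mF j (fun _ => (1 : k)) (fun _ => (1 : k)) g.m)
      (Ko (g.N Du).Y g.b (rv g.m) g.m g.κ).toAddMonoidHom := by
  have hO := pOpY g.K k Du hu g.b (rv g.m) (rv_injF g.m) g.m g.w g.κ (fun a ha => by
    rw [← g.κh a ha]
    exact rv_sum g.m a)
  have e := pExI k k k _ _ (g.M0 D) (g.M0 Du) (g.M0 Du) (2 * (g.w : ℤ)) (j.ch g.K)
    (opW g.K Du g.w (g.kY Du)).toAddMonoidHom (ex3_base g j hu ji jk ks) g.q
    (Nat.pos_of_ne_zero (NeZero.ne g.q)) g.b (rv g.m) (fun _ => 1) (fun _ => 1) (fun _ => 1)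
    (fun _ => isUnit_one) (fun _ => isUnit_one) (fun i x => by rw [one_smul, one_smul])
    (fun i x => by rw [one_smul, one_smul]) (rho g.q g.ψ) g.m
  have hK : ∀ x, mitF (M := g.M0 Du) (M' := g.M0 Du) (opW g.K Du g.w (g.kY Du)).toAddMonoidHom
      g.q g.b (rv g.m) (fun _ => (1 : k)) (fun _ => (1 : k)) (rho g.q g.ψ) g.m x =
      Ko (g.N Du).Y g.b (rv g.m) g.m g.κ x := by
    intro x
    have h1 := (pMitA k _ _ (g.M0 Du) g.q g.b (rv g.m) (fun _ => (1 : k)) (rho g.q g.ψ)
      g.m).2.2.2.2.2 g.m g.κ x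
    have h3 : (Ko (g.M0 Du).Y g.b (rv g.m) g.m g.κ : Module.End k (g.M0 Du).V) =
        opW g.K Du g.w (g.kY Du) := hO.2.2.2.2
    rw [h3] at h1
    exact h1
  exact
    { aG := e.aG
      bG := fun i x hx => by
        have h := e.bG i x hx
        rw [hK] at h
        exact h
      aQ := e.aQ
      bQ := fun x hx => by
        have h := e.bQ x hx
        rw [hK] at h
        exact h
      ad := e.ad
      bd := fun x => by
        have h := e.bd x
        rw [hK, hK] at h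
        exact h
      as := e.as
      bs := fun x => by
        have h := e.bs x
        rw [hK, hK] at h
        exact h
      aY := e.aY
      bY := fun i x => by
        have h := e.bY i x
        rw [hK, hK] at h
        exact h
      inj := e.inj
      ba := fun x => by
        have h := e.ba x
        rw [hK] at h
        exact h
      ex := fun i x hx hQ h0 => e.ex i x hx hQ (by rw [hK]; exact h0)
      sur := fun i x hx hQ => by
        obtain ⟨y, hy, hyQ, hyx⟩ := e.sur i x hx hQ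
        rw [hK] at hyx
        exact ⟨y, hy, hyQ, hyx⟩ }

end

/-! ## Operators on the complex over the group ring -/

section

variable {k : Type} [CommRing k] {G : Type} [CommGroup G] (g : GD G) {D D' : DM k}

/-- An operator on the module with operators gives an operator on the complex over the group ring. -/
noncomputable def GD.opQ (h : g.P0 D) (T : Module.End k (g.N D).V)
    (hQ : ∀ x ∈ (g.N D).Q, T x ∈ (g.N D).Q)
    (hA : ∀ s x, T ((g.N D).A (lf g.q g.ψ s) x) = (g.N D).A (lf g.q g.ψ s) (T x)) :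
    (g.Qc D h).V →ₗ[MonoidAlgebra k G] (g.Qc D h).V :=
  ((g.N D).ga h.dif h.gp).lin ((g.N D).ga h.dif h.gp) (T.restrict hQ).toAddMonoidHom
    (fun r x => map_smul (T.restrict hQ) r x) (fun s x => Subtype.ext (hA s x.1))

/-- The map of complexes over the group ring given by a morphism of coefficients. -/
noncomputable def GD.qcl (h : g.P0 D) (h' : g.P0 D') (f : DHom (RingHom.id k) D D') :
    (g.Qc D h).V →ₗ[MonoidAlgebra k G] (g.Qc D' h').V :=
  ((g.N D).ga h.dif h.gp).lin ((g.N D').ga h'.dif h'.gp) (g.qc h h' f)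
    (fun r x => Subtype.ext ((g.mF_all f (fun _ => (1 : k)) (fun _ => (1 : k))
      (fun _ => rfl) g.m).2.2.2 r x.1))
    (fun s x => Subtype.ext ((g.mF_all f (fun _ => (1 : k)) (fun _ => (1 : k))
      (fun _ => rfl) g.m).1.fA (lf g.q g.ψ s) x.1))

end

section

variable {k : Type} [CommRing k] {G : Type} [CommGroup G] (g : GD G) {D Du : DM k}
  (j : DHom (RingHom.id k) D Du)

/-- **KD.** `Q(k, 1, D)` is the kernel of `κ(Y)` on `Q(k, 1, Du)`. -/
theorem kdQ (h : g.P1 D) (hu : Du.Comm) (h' : g.P0 Du) (ji : ∀ l x, j.f l x = 0 → x = 0)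
    (jk : ∀ l (x : Du.D l), g.kY Du (Pi.single l x) = 0 ↔ ∃ y, j.f l y = x)
    (ks : ∀ l (y : Du.D l), ∃ x : Du.D (l + g.w), g.kY Du (Pi.single (l + g.w) x) = Pi.single l y) :
    Nonempty (KD (g.Cc D h) (g.Qc Du h')) := by
  have e := ex3_all g j hu ji jk ks
  have hm := g.mF_all j (fun _ => (1 : k)) (fun _ => (1 : k)) (fun _ => rfl) g.m
  have hM := (pOKM G g k (fun _ => (1 : k)) Du hu g.m).2.1
  have hw : ∀ a, g.κ a ≠ 0 → ((∑ l ∈ Finset.range g.m, a (rv g.m l) : ℕ) : ℤ) = g.w := by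
    intro a ha
    rw [← g.κh a ha, rv_sum]
  have hK := Ko_od hM g.b (rv g.m) (rv_injF g.m) g.m g.κ g.w hw
  obtain ⟨E, hE⟩ := kapN pOKM g Du hu
  obtain ⟨hX1, hX2, hX3, hX4⟩ := pXUn G g k (fun _ => (1 : k)) Du hu
  have hGP := (pGPM G g k (fun _ => (1 : k)) Du hu).2
  have hnw := g.nw
  have hGr : ∀ i x, g.mF j (fun _ => (1 : k)) (fun _ => (1 : k)) g.m x ∈ (g.N Du).G i ↔
      x ∈ (g.N D).G i := by
    refine mitF_G (M := g.M0 D) (M' := g.M0 Du) (j.ch g.K) g.q g.b (rv g.m) (fun _ => (1 : k))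
      (fun _ => (1 : k)) (rho g.q g.ψ) ?_ g.m
    intro i x
    refine ⟨fun hx l s hs => ji l _ (hx l s hs), DHom.ch_G g j i x⟩
  refine ⟨
    { j := g.qcl h.p0 h' j
      jd := fun x => Subtype.ext (hm.1.fd x.1)
      jG := fun i x => hGr i x.1
      ji := fun x hx => Subtype.ext (e.inj x.1 (congrArg Subtype.val hx))
      K := g.opQ h' (Ko (g.N Du).Y g.b (rv g.m) g.m g.κ) hK.TQ
        (fun s x => (Ko_comm _ _ (hM.AY (lf g.q g.ψ s)) _ _ _ _ x).symm)
      Kd := fun x => Subtype.ext (hK.Td x.1)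
      KG := fun i x hx => ?_
      Ks := fun i y hy => ?_
      Kk := fun i x hx h0 => ?_
      Kj := fun y => Subtype.ext (e.ba y.1)
      K0 := fun i x hx => ?_
      X := g.opQ h' ((g.N Du).sg * (g.N Du).Z g.V) hX3 (fun s x => hGP.X s x)
      Ξ := g.opQ h' (g.N Du).Ξ hM.QΞ (fun s x => hGP.W s x)
      XG := fun i x hx => hX4 i x.1 hx
      ΞG := fun i x hx => hM.GΞ i x.1 hx
      Xd := fun x => Subtype.ext (hX1 x.1)
      Ξd := fun x => Subtype.ext (hM.Ξd x.1)
      XK := fun x => Subtype.ext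
        (Ko_comm (g.N Du).Y ((g.N Du).sg * (g.N Du).Z g.V) hX2 g.b (rv g.m) g.m g.κ x.1)
      jX := fun x => Subtype.ext ?_
      jΞ := fun x => Subtype.ext (hm.1.fW x.1) }⟩
  · have h1 := hK.TG i x.1 hx
    have e1 : i - 2 * (g.w : ℤ) = i - g.n - 1 := by omega
    rw [e1] at h1
    exact h1
  · have h1 : y.1 ∈ (g.N Du).G (i + g.n + 1 - 2 * (g.w : ℤ)) := by
      have e1 : i + (g.n : ℤ) + 1 - 2 * (g.w : ℤ) = i := by omega
      rw [e1]
      exact hy
    obtain ⟨x, hx, hQ, hxy⟩ := e.sur (i + g.n + 1) y.1 h1 y.2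
    exact ⟨⟨x, hQ⟩, hx, Subtype.ext hxy⟩
  · obtain ⟨y, hy, hQ, hyx⟩ := e.ex i x.1 hx x.2 (congrArg Subtype.val h0)
    exact ⟨⟨y, hQ⟩, Subtype.ext hyx⟩
  · refine ⟨⟨E x.1, hE.EQ x.1 x.2⟩, ?_, Subtype.ext ?_⟩
    · have h1 := hE.EG i x.1 hx.1
      have e1 : i + 1 - 2 * (g.w : ℤ) = i - g.n - 1 + 1 := by omega
      rw [e1] at h1
      exact h1
    · have h1 := hE.eq x.1 x.2
      have h2 : (g.N Du).δ x.1 = 0 := congrArg Subtype.val hx.2
      rw [h2, map_zero, add_zero] at h1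
      exact h1
  · change g.mF j (fun _ => (1 : k)) (fun _ => (1 : k)) g.m ((g.N D).sg ((g.N D).Z g.V x.1)) =
      (g.N Du).sg ((g.N Du).Z g.V (g.mF j (fun _ => (1 : k)) (fun _ => (1 : k)) g.m x.1))
    rw [hm.1.fs, hm.1.fZ]

/-- **R5b.** The class of the telescope. -/
theorem sR5b (h : g.P1 D) (hu : Du.Comm) (h' : g.P0 Du) (ji : ∀ l x, j.f l x = 0 → x = 0)
    (jk : ∀ l (x : Du.D l), g.kY Du (Pi.single l x) = 0 ↔ ∃ y, j.f l y = x)
    (ks : ∀ l (y : Du.D l), ∃ x : Du.D (l + g.w), g.kY Du (Pi.single (l + g.w) x) = Pi.single l y)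
    (T0 : GC (MonoidAlgebra k G)) (pr : (g.Qc Du h').V →ₗ[MonoidAlgebra k G] T0.V)
    (hpr : LQI (g.Qc Du h') T0 pr) (P : ZCx (MonoidAlgebra k G)) (u : FMap P T0) (hP : u.QI) :
    (g.Tc D h).HasEC P.EC := by
  obtain ⟨d⟩ := kdQ g j h hu h' ji jk ks
  have hn : (0 : ℤ) < g.n := by
    have := g.n2
    omega
  exact kap_EC sClA sLift (g.Cc D h) hn (g.Qc Du h') d T0 pr hpr P u hP

end

end HRx
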