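import Pool.Agent.Lib.MP_181146_gt.HR.DefsR
import Pool.Agent.Lib.MP_181146_gt.HE.SpecS

/-!
# Project HR, part A: the circle construction.  Every statement is a separate task; the proof of each
is in the docstring.  (`b` is a bound for the exponents, `q` the period.)
-/

set_option linter.unusedVariables false
set_option autoImplicit false

namespace HRx

open HEp HPx

/-! ## A1. One circle -/

/-- **FSc.** Functionals on the product with a circle.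
Proof: all items componentwise.  `tb`: `tw` anticommutes with `bd`; for the component `.1 (j+1)`:
`tw (∑ tw ψ) = -∑ ...` because the sign of `tw` on the component `.2` is `-tw`.  `Ds`: the component
`.1 j` has degree `d - 2 j`, the component `.2 j` degree `d - 2 j - 1`.  `bb`: for periodic `φ`, `∑_(a<q) (g (c + a + 1) - g (c + a))
= g (c + q) - g c = 0` (`Finset.sum_range_sub`). -/
def S_FSc : Prop :=
  ∀ (H : Type) [Group H] (F : FS H) (hF : F.OK) (q : ℕ) (ρ : H → ℤ) (h1 : ρ 1 = 0)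
    (hρ : ∀ h h', ρ (h * h') = ρ h + ρ h'), (F.circ q ρ).OK

/-- **MSc.** The product of a module with a circle.
Proof: all items componentwise.  `Y i` (and its powers) commutes with `sg`, `δ`, `Z φ`, `Ξ`, `A h` (induction for the
powers `(Y i) ^ j`, degrees: `(Y i)^j` lowers the degree by `2 j`).  `ZA`: `Z φ (A h x) = A h (Z (tr h φ) x)`
under the sums, the translation is absorbed by `tr`; `Zt` for `.2`: `Z (tw (-tw ψ))`, use `tt`.  `GZ`: `Dt`.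
`QZ`: `φ` periodic, `z • ` commutes with all `k`-linear maps; for `φ.2 j (c - q - a + s)` use the
periodicity at `c - q - a + s`. -/
def S_MSc : Prop :=
  ∀ (k : Type) [CommRing k] (H : Type) [Group H] (F : FS H) (hF : F.OK) (M : MS k H F) (n : ℤ)
    (hM : M.OK n) (q b i : ℕ) (z : k) (ρ : H → ℤ) (h1 : ρ 1 = 0)
    (hρ : ∀ h h', ρ (h * h') = ρ h + ρ h'), (M.circ q b i z ρ).OK n

/-- **CirX.** The main computation (checked by computer).  Here `Y = M.Y i`.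
Proof.  Write `P_c = φ.1 j c`, `R_c = φ.2 j c`.  Component `.1` at `c`: on the left
`Z P_c Y^j (δ f1(c) + sg f2(c-1) - sg f2(c)) + Z R_c Y^j (δ f2(c) + ∑_(a<q) Y sg f1(c-a))`; on the right
`δ (Z P_c Y^j f1(c) + Z R_c Y^j f2(c)) + sg (X f).2(c-1) - sg (X f).2(c) + sg (..)`, where the last bracket is
`Z (bd P_c + prv (∑ tw R_(c+a))) Y^j f1(c) + Z (bd R_c + tw P_(c+1) - tw P_c) Y^j f2(c)`.  Use `Good` of `P_c` and `R_c`;
`sg Z (tw P) x = Z P (sg x)`.  The terms with `f2` cancel.  For the terms with `f1` one needs, with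
`W(c,s) = Z (tw R_(c+s))` (`Y^(j+1)` is applied everywhere, the index `j` is shifted by one in the `prv` term,
which is allowed because `φ.1 j = φ.2 j = 0` for `j ≥ b`):
`∑_(s<q) ∑_(a<s) [W at c-1] - ∑_(s<q) ∑_(a<s) [W at c] + ∑_a Z (tw R_(c+a)) f1(c) = ∑_a Z(tw R_c) f1(c-a)` up to `sg`; the two double
sums telescope: `∑_(s<q) ∑_(a<s) g(a+1, s) - g(a, s)` with `g(a,s) = Z (tw R_(c-a+s)) f1(c-a)` after the substitution
`R_(c-1-a+s) f1(c-1-a) = g(a+1,s)`; `g(s,s) = Z (tw R_c) f1(c-s)`, `g(0,s) = Z (tw R_(c+s)) f1(c)`.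
Component `.2` at `c`: similarly; with `g'(a,s) = Z R_(c-a+s) Y^(j+1) f2(..)` the double sums of
`f2(c-a-1) - f2(c-a)` and of `tw P_(c-a+s+1) - tw P_(c-a+s)` telescope after a reindexing of the triangle
`{(a,s) : 0 ≤ a < s < q}` by `(a,s) ↦ (a+1,s+1)`, and the boundary terms `s = q` are rewritten with
the periodicity (compare the identity `∑_(1≤a<b≤q) - ∑_(0≤a<b<q) = ∑_(1≤a<q) (a,q) - ∑_(1≤b<q) (0,b)`).
(It is recommended to treat the three kinds of terms separately: those with `δ` and `bd` (`Good`), those with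
`φ.1`, those with `φ.2`.) -/
def S_CirX : Prop :=
  ∀ (k : Type) [CommRing k] (H : Type) [Group H] (F : FS H) (hF : F.OK) (M : MS k H F) (n : ℤ)
    (hM : M.OK n) (q b i : ℕ) (z : k) (ρ : H → ℤ) (φ : CF F.Φ)
    (hper : ∀ (j : ℕ) (c : ℤ), φ.1 j (c + q) = φ.1 j c ∧ φ.2 j (c + q) = φ.2 j c)
    (hb : ∀ (j : ℕ) (c : ℤ), b ≤ j → φ.1 j c = 0 ∧ φ.2 j c = 0)
    (hG : ∀ (j : ℕ) (c : ℤ), M.Good (φ.1 j c) ∧ M.Good (φ.2 j c)),
    (M.circ q b i z ρ).Good φ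

/-- **Cur.** The square of the differential: `δ² f = (δ² f) + Y (f (· - q) - f)`; so on functions with
`f (c - q) = z f c` it is `δ² + (z - 1) Y`. Proof: `sg δ = - δ sg`; the sums telescope
(`Finset.sum_range_sub'`). -/
def S_Cur : Prop :=
  ∀ (k : Type) [CommRing k] (H : Type) [Group H] (F : FS H) (M : MS k H F) (n : ℤ) (hM : M.OK n)
    (q b i : ℕ) (z : k) (ρ : H → ℤ) (f : (M.circ q b i z ρ).V) (hf : f ∈ (M.circ q b i z ρ).Q)
    (c : ℤ),
    ((M.circ q b i z ρ).δ ((M.circ q b i z ρ).δ f)).1 c =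
      M.δ (M.δ (f.1 c)) + (z - 1) • M.Y i (f.1 c) ∧
    ((M.circ q b i z ρ).δ ((M.circ q b i z ρ).δ f)).2 c =
      M.δ (M.δ (f.2 c)) + (z - 1) • M.Y i (f.2 c)

/-- **MHc.** Maps compatible with all operators induce such maps on the products (componentwise). -/
def S_MHc : Prop :=
  ∀ (k k' : Type) [CommRing k] [CommRing k'] (H : Type) [Group H] (F : FS H) (M : MS k H F)
    (M' : MS k' H F) (f : MHom M M') (q b i : ℕ) (z : k) (z' : k') (ρ : H → ℤ),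
    ∃ g : MHom (M.circ q b i z ρ) (M'.circ q b i z' ρ), g.f = cirF f.f

/-! ## A2. The iteration -/

/-- **FMit** (from FSc, MSc).  Induction on `n`. -/
def S_FMit : Prop :=
  ∀ (k : Type) [CommRing k] (H : Type) [Group H] (F : FS H) (hF : F.OK) (M : MS k H F) (d : ℤ)
    (hM : M.OK d) (q b : ℕ) (ix : ℕ → ℕ) (z : ℕ → k) (ρ : ℕ → H → ℤ) (h1 : ∀ i, ρ i 1 = 0)
    (hρ : ∀ i h h', ρ i (h * h') = ρ i h + ρ i h') (n : ℕ),
    (fit F q ix ρ n).OK ∧ (mit M q b ix z ρ n).OK d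

/-- **MitG** (from FMit, CirX).  All periodic functionals of degree `d < 2 b` are compatible with the
differentials.  Induction on `n`, for all `d`: the components of `φ` are periodic of degree `d - 2 j`,
`d - 2 j - 1`, and vanish if this is negative (`neg`), in particular for `j ≥ b`. -/
def S_MitG : Prop :=
  ∀ (k : Type) [CommRing k] (H : Type) [Group H] (F : FS H) (hF : F.OK) (M : MS k H F) (d : ℤ)
    (hM : M.OK d) (q b : ℕ) (ix : ℕ → ℕ) (z : ℕ → k) (ρ : ℕ → H → ℤ) (h1 : ∀ i, ρ i 1 = 0)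
    (hρ : ∀ i h h', ρ i (h * h') = ρ i h + ρ i h') (hG : ∀ φ ∈ F.Pr, M.Good φ) (n : ℕ) (e : ℤ)
    (he : e < 2 * b) (φ : (fit F q ix ρ n).Φ) (hφ : φ ∈ (fit F q ix ρ n).Dg e)
    (hφ' : φ ∈ (fit F q ix ρ n).Pr), (mit M q b ix z ρ n).Good φ

/-- **MitC** (from FMit, Cur).  The square of the differential on `Q`.  Induction on `n`. -/
def S_MitC : Prop :=
  ∀ (k : Type) [CommRing k] (H : Type) [Group H] (F : FS H) (hF : F.OK) (M : MS k H F) (d : ℤ)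
    (hM : M.OK d) (q b : ℕ) (ix : ℕ → ℕ) (z : ℕ → k) (ρ : ℕ → H → ℤ) (h1 : ∀ i, ρ i 1 = 0)
    (hρ : ∀ i h h', ρ i (h * h') = ρ i h + ρ i h') (hdd : ∀ x, M.δ (M.δ x) = 0) (n : ℕ),
    ∀ x ∈ (mit M q b ix z ρ n).Q, (mit M q b ix z ρ n).δ ((mit M q b ix z ρ n).δ x) =
      ∑ l ∈ Finset.range n, (z (ix l) - 1) • (mit M q b ix z ρ n).Y (ix l) x

/-- **MitK** (from FMit).  The functional `κ(y) ε` and the operator `κ(Y)`, and the degree of the functional.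
Proof: induction on `n`, for all `κ`: `cirX` of `(fun j _ => ψ j, 0)` is `f ↦ ∑_j (Z (ψ j) (Y^j f.1),
Z (tw (ψ j)) (Y^j f.2))`; `tw (Kf ..) = Kf ..` (as `tw ε = ε`); `Z (Kf ..)` and `Ko` on the level `n`, the operators `Y` on the
level `n + 1` are `cirM` of those on the level `n`, `Ko (cirM Y) = cirM (Ko Y)`.  The hypothesis on the exponents is not needed: both
sides only see exponents `≤ b`.  Degree: `κ a ≠ 0` only for `∑_(l<n) a (ix l) = w` gives degree `2 w`. -/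
def S_MitK : Prop :=
  ∀ (k : Type) [CommRing k] (H : Type) [Group H] (F : FS H) (hF : F.OK) (M : MS k H F) (d : ℤ)
    (hM : M.OK d) (q b : ℕ) (ix : ℕ → ℕ) (z : ℕ → k) (ρ : ℕ → H → ℤ) (h1 : ∀ i, ρ i 1 = 0)
    (hρ : ∀ i h h', ρ i (h * h') = ρ i h + ρ i h') (ε : F.Φ) (hε : F.tw ε = ε)
    (hZ : ∀ x, M.Z ε x = x) (n : ℕ) (κ : (ℕ → ℕ) → ℤ),
    (∀ x, (mit M q b ix z ρ n).Z (Kf ε q ix ρ n κ) x = Ko (mit M q b ix z ρ n).Y b ix n κ x) ∧
    (fit F q ix ρ n).tw (Kf ε q ix ρ n κ) = Kf ε q ix ρ n κ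

/-- **MitKD.** Degree, periodicity and invariance of `κ(y) ε`.
Proof: induction on `n` for all `κ`, `w`; for `n = 0`, `κ 0 ≠ 0` implies `w = 0`.  In the step the function
`a ↦ κ (update a (ix n) j)` satisfies the hypothesis for `w - j` if `ix` is injective (replace the hypothesis on `κ` in
the induction by: `κ a ≠ 0 → ∑_(l<n) a (ix l) = w` for all `a`). -/
def S_MitKD : Prop :=
  ∀ (H : Type) [Group H] (F : FS H) (hF : F.OK) (q : ℕ) (ix : ℕ → ℕ) (hix : Function.Injective ix)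
    (ρ : ℕ → H → ℤ) (ε : F.Φ) (hε : ε ∈ F.Dg 0) (hε' : ε ∈ F.Pr) (hr : ∀ h, F.tr h ε = ε)
    (n : ℕ) (w : ℤ) (κ : (ℕ → ℕ) → ℤ)
    (hκ : ∀ a, κ a ≠ 0 → ((∑ l ∈ Finset.range n, a (ix l) : ℕ) : ℤ) = w),
    Kf ε q ix ρ n κ ∈ (fit F q ix ρ n).Dg (2 * w) ∧ Kf ε q ix ρ n κ ∈ (fit F q ix ρ n).Pr ∧
    ∀ h, (fit F q ix ρ n).tr h (Kf ε q ix ρ n κ) = Kf ε q ix ρ n κ

/-- **MitH** (from MHc).  Maps of the bases induce maps of the iterated constructions; `Q` is preserved if `f` is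
semilinear.  Injectivity, surjectivity onto `Q` and exactness are in MitE. -/
def S_MitH : Prop :=
  ∀ (k k' : Type) [CommRing k] [CommRing k'] (H : Type) [Group H] (F : FS H) (M : MS k H F)
    (M' : MS k' H F) (f : MHom M M') (σ : k →+* k') (hσ : ∀ r x, f.f (r • x) = σ r • f.f x)
    (q b : ℕ) (ix : ℕ → ℕ) (z : ℕ → k) (ρ : ℕ → H → ℤ) (hQ : ∀ x ∈ M.Q, f.f x ∈ M'.Q) (n : ℕ),
    (∃ g : MHom (mit M q b ix z ρ n) (mit M' q b ix (fun i => σ (z i)) ρ n),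
      g.f = mitF f.f q b ix z (fun i => σ (z i)) ρ n) ∧
    (∀ r x, mitF f.f q b ix z (fun i => σ (z i)) ρ n (r • x) =
      σ r • mitF f.f q b ix z (fun i => σ (z i)) ρ n x) ∧
    ∀ x ∈ (mit M q b ix z ρ n).Q,
      mitF f.f q b ix z (fun i => σ (z i)) ρ n x ∈ (mit M' q b ix (fun i => σ (z i)) ρ n).Q

/-! ## A3. The base -/

/-- **OpN.** Functoriality of `opN`.  Proof: on `Finsupp.single x d` one has `opN N A (single x d) =
(A (single x 1)).sum (fun y r => single y (r • d))`; the composition: expand `A (B (single x 1))` by linearity. -/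
def S_OpN : Prop :=
  ∀ (K : SS) (k : Type) [CommRing k] (N : Type) [AddCommGroup N] [Module k N],
    ((opN N LinearMap.id : ChN K N →ₗ[k] ChN K N) = LinearMap.id) ∧
    (∀ A B : Ch ℤ K →ₗ[ℤ] Ch ℤ K,
      (opN N (A ∘ₗ B) : ChN K N →ₗ[k] ChN K N) = opN N A ∘ₗ opN N B) ∧
    (∀ A B : Ch ℤ K →ₗ[ℤ] Ch ℤ K,
      (opN N (A + B) : ChN K N →ₗ[k] ChN K N) = opN N A + opN N B) ∧
    (∀ (r : ℤ) (A : Ch ℤ K →ₗ[ℤ] Ch ℤ K),
      (opN N (r • A) : ChN K N →ₗ[k] ChN K N) = r • opN N A) ∧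
    (∀ (A : Ch ℤ K →ₗ[ℤ] Ch ℤ K) (i j : ℕ), (∀ x ∈ gr ℤ K i, A x ∈ gr ℤ K j) →
      ∀ h : ChN K N, (∀ x, x.1 ≠ i → h x = 0) → ∀ x, x.1 ≠ j →
        (opN N A : ChN K N →ₗ[k] ChN K N) h x = 0) ∧
    (∀ (A : Ch ℤ K →ₗ[ℤ] Ch ℤ K) (i : ℕ), (∀ x ∈ gr ℤ K i, A x = 0) →
      ∀ h : ChN K N, (∀ x, x.1 ≠ i → h x = 0) → (opN N A : ChN K N →ₗ[k] ChN K N) h = 0) ∧
    ∀ (k' : Type) [CommRing k'] (N' : Type) [AddCommGroup N'] [Module k' N'] (f : N →+ N')
      (A : Ch ℤ K →ₗ[ℤ] Ch ℤ K) (h : ChN K N),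
      Finsupp.mapRange f f.map_zero ((opN N A : ChN K N →ₗ[k] ChN K N) h) =
        (opN N' A : ChN K N' →ₗ[k'] ChN K N') (Finsupp.mapRange f f.map_zero h)

/-- **Xc1** (from HPx.CapD, HEp.DlC, HEp.DlG).  The operators of the functionals on the chains.
Proof.  `cap` is additive; (1) `cap (ψ) (bd y) = cap (ψ ∘ bd) y + bd (cap (ψ ∘ sgC) y)` for every `ψ` (decompose `ψ` into its parts
supported in one degree on a given `y`, HPx.CapD; or directly from `dl (bd y) = D (dl y)`).  With `ψ` even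
(`ψ ∘ od = 0`) or odd (`ψ ∘ od = ψ`) this gives the claim (`sgC (bd x) = - bd (sgC x)`, `sgC sgC = 1`).  (2) `cap ψ (sgC y)
= ± sgC (cap ψ y)`.  (3) the counit: `cap (aug) = 1` (HEp.DlC).  (4) naturality.  (5) degrees. -/
def S_Xc1 : Prop :=
  ∀ (K : SS) (φ : Ch ℤ K →ₗ[ℤ] ℤ),
    (∀ y, Xc φ (bd ℤ K y) = bd ℤ K (Xc φ y) + sgC K (Xc (φ ∘ₗ bd ℤ K) y)) ∧
    (∀ y, Xc (φ ∘ₗ sgC K) y = sgC K (Xc φ (sgC K y))) ∧
    (∀ y, Xc (aug ℤ K) y = y) ∧
    (∀ (ψ : SSHom K K) (y : Ch ℤ K), Xc φ (cmap ℤ ψ y) = cmap ℤ ψ (Xc (φ ∘ₗ cmap ℤ ψ) y)) ∧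
    ∀ n : ℕ, (∀ i : ℕ, i ≠ n → ∀ y ∈ gr ℤ K i, φ y = 0) →
      (∀ i, ∀ y ∈ gr ℤ K (i + n), Xc φ y ∈ gr ℤ K i) ∧
      ∀ i, i < n → ∀ y ∈ gr ℤ K i, Xc φ y = 0

/-- **FS0.** Functionals on the chains (`od_bd`, `od_od`, `cmap_od`, `cmap_bd`, `bd_bd`, `cmap_comp`). -/
def S_FS0 : Prop :=
  ∀ (H : Type) [Group H] (K : SS) (α : H → SSHom K K) (h1 : α 1 = SSHom.id K)
    (hα : ∀ h h', α (h * h') = (α h).comp (α h')), (fs0 K α).OK

/-- **MS0** (from OpN, Xc1).  The base; `n` is the degree of `Ξ`.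
Proof: OpN for all identities between operators of the chains, Xc1 for `Z`; `Y i` commutes with `opD D A`
(OpN, last item, for the `k`-linear map `D.Y i j`).  Degrees: OpN, items 5 and 6; for `G0`: `x.1 + 2 j = i < 0` is impossible. -/
def S_MS0 : Prop :=
  ∀ (k : Type) [CommRing k] (H : Type) [Group H] (K : SS) (α : H → SSHom K K)
    (h1 : α 1 = SSHom.id K) (hα : ∀ h h', α (h * h') = (α h).comp (α h')) (D : DM k)
    (hD : D.Comm) (a : Ch ℤ K →ₗ[ℤ] Ch ℤ K) (n : ℕ) (hn : Odd n)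
    (had : ∀ y, a (bd ℤ K y) = -bd ℤ K (a y)) (hag : ∀ i, ∀ y ∈ gr ℤ K i, a y ∈ gr ℤ K (i + n))
    (haα : ∀ h y, a (cmap ℤ (α h) y) = cmap ℤ (α h) (a y)),
    (ms0 K α D a : MS k H (fs0 K α)).OK n ∧
    (∀ φ : (fs0 K α).Φ, (ms0 K α D a : MS k H (fs0 K α)).Good φ) ∧
    (∀ x, (ms0 K α D a : MS k H (fs0 K α)).δ ((ms0 K α D a : MS k H (fs0 K α)).δ x) = 0) ∧
    ∀ x, (ms0 K α D a : MS k H (fs0 K α)).Z (aug ℤ K) x = x

end HRx
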