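import Pool.Agent.Lib.MP_181146_gt.HR.DefsQ
import Pool.Agent.Lib.MP_181146_gt.HB.DefsY

/-!
# Project HR, part B: the complexes `Q(k, z, D)`: exactness, null homotopies, the Clifford relation.

Every statement is a separate task; the proof of each is in the docstring.  Definitions: HR/DefsQ.lean,
HR/DefsR.lean.  `q` is the period, `b` a bound for the exponents, `ix n` the variable of the circle
number `n` (`rv m n = m - 1 - n`).
-/

set_option linter.unusedVariables false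
set_option autoImplicit false

namespace HRx

open HEp HPx

/-! ## B1. Functoriality and exactness -/

/-- **MCm.** Maps commuting with all operators induce such maps on the iterated products; degrees and `Q`.
Proof: one circle first (componentwise, all operators of the product are made of those of the base;
`cirQ`: `f (c - q) = z f c` is mapped to `f' (c - q) = z' f' c` by `hz`), then induction on `n`. -/
def S_MCm : Prop :=
  ∀ (k k' : Type) [CommRing k] [CommRing k'] (H : Type) (F : FS H) (M : MS k H F) (M' : MS k' H F)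
    (f : M.V →+ M'.V) (hf : MC M M' f) (q b : ℕ) (ix : ℕ → ℕ) (z : ℕ → k) (z' : ℕ → k')
    (hz : ∀ i x, f (z i • x) = z' i • f x) (ρ : ℕ → H → ℤ) (n : ℕ),
    MC (mit M q b ix z ρ n) (mit M' q b ix z' ρ n) (mitF f q b ix z z' ρ n) ∧
    (∀ w : ℤ, (∀ i, ∀ x ∈ M.G i, f x ∈ M'.G (i - w)) → ∀ i, ∀ x ∈ (mit M q b ix z ρ n).G i,
      mitF f q b ix z z' ρ n x ∈ (mit M' q b ix z' ρ n).G (i - w)) ∧
    ((∀ x ∈ M.Q, f x ∈ M'.Q) → ∀ x ∈ (mit M q b ix z ρ n).Q,
      mitF f q b ix z z' ρ n x ∈ (mit M' q b ix z' ρ n).Q) ∧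
    ∀ (r : k) (r' : k'), (∀ x, f (r • x) = r' • f x) →
      ∀ x, mitF f q b ix z z' ρ n (r • x) = r' • mitF f q b ix z z' ρ n x

/-- **MitR.** Maps commuting with `δ`, `sg` and the operators `Y` of the circles (only).
Proof: the same induction; the differential of the circle number `l` contains only `δ`, `sg` and `Y (ix l)`. -/
def S_MitR : Prop :=
  ∀ (k k' : Type) [CommRing k] [CommRing k'] (H : Type) (F : FS H) (M : MS k H F) (M' : MS k' H F)
    (f : M.V →+ M'.V) (q b : ℕ) (ix : ℕ → ℕ) (z : ℕ → k) (z' : ℕ → k')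
    (hz : ∀ i x, f (z i • x) = z' i • f x) (ρ : ℕ → H → ℤ) (n : ℕ)
    (fd : ∀ x, f (M.δ x) = M'.δ (f x)) (fs : ∀ x, f (M.sg x) = M'.sg (f x))
    (fY : ∀ l < n, ∀ x, f (M.Y (ix l) x) = M'.Y (ix l) (f x)),
    (∀ x, mitF f q b ix z z' ρ n ((mit M q b ix z ρ n).δ x) =
      (mit M' q b ix z' ρ n).δ (mitF f q b ix z z' ρ n x)) ∧
    (∀ x, mitF f q b ix z z' ρ n ((mit M q b ix z ρ n).sg x) =
      (mit M' q b ix z' ρ n).sg (mitF f q b ix z z' ρ n x)) ∧
    (∀ (w : ℤ), (∀ i, ∀ x ∈ M.G i, f x ∈ M'.G (i - w)) → ∀ i, ∀ x ∈ (mit M q b ix z ρ n).G i,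
      mitF f q b ix z z' ρ n x ∈ (mit M' q b ix z' ρ n).G (i - w)) ∧
    ((∀ x ∈ M.Q, f x ∈ M'.Q) → ∀ x ∈ (mit M q b ix z ρ n).Q,
      mitF f q b ix z z' ρ n x ∈ (mit M' q b ix z' ρ n).Q)

/-- **MitA.** Operators of the base.  `mitF` is compatible with sums, products, scalars; `mitF` of `Y i` is
`Y i`.  Proof: induction on `n` (`cirF f = cirM f`, the operators `Y` of the product are `cirM (Y i)`); the last
item from the others, by induction on `l`. -/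
def S_MitA : Prop :=
  ∀ (k : Type) [CommRing k] (H : Type) (F : FS H) (M : MS k H F) (q b : ℕ) (ix : ℕ → ℕ) (z : ℕ → k)
    (ρ : ℕ → H → ℤ) (n : ℕ),
    (∀ x, mitF (M := M) (M' := M) (1 : Module.End k M.V).toAddMonoidHom q b ix z z ρ n x = x) ∧
    (∀ (A B : Module.End k M.V) x,
      mitF (M := M) (M' := M) (A * B).toAddMonoidHom q b ix z z ρ n x =
        mitF (M := M) (M' := M) A.toAddMonoidHom q b ix z z ρ n
          (mitF (M := M) (M' := M) B.toAddMonoidHom q b ix z z ρ n x)) ∧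
    (∀ (A B : Module.End k M.V) x,
      mitF (M := M) (M' := M) (A + B).toAddMonoidHom q b ix z z ρ n x =
        mitF (M := M) (M' := M) A.toAddMonoidHom q b ix z z ρ n x +
          mitF (M := M) (M' := M) B.toAddMonoidHom q b ix z z ρ n x) ∧
    (∀ (r : k) (A : Module.End k M.V) x,
      mitF (M := M) (M' := M) (r • A).toAddMonoidHom q b ix z z ρ n x =
        r • mitF (M := M) (M' := M) A.toAddMonoidHom q b ix z z ρ n x) ∧
    (∀ i x, mitF (M := M) (M' := M) (M.Y i).toAddMonoidHom q b ix z z ρ n x =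
      (mit M q b ix z ρ n).Y i x) ∧
    ∀ (l : ℕ) (κ : (ℕ → ℕ) → ℤ) x,
      mitF (M := M) (M' := M) (Ko M.Y b ix l κ).toAddMonoidHom q b ix z z ρ n x =
        Ko (mit M q b ix z ρ n).Y b ix l κ x

/-- **ExC.** Exactness is preserved by the product with a circle.
Proof.  All commutations and degrees componentwise (`i - w - 1 = i - 1 - w`).  `ex`: choose preimages
componentwise; they satisfy `y (c - q) = z' y c` because `a` is injective.  `sur`: choose preimages `y r`,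
`0 ≤ r < q`, of both components, and put `y c = z^(-(c / q)) y (c % q)` (`Int.emod`, `Int.ediv`, `z` a unit);
`b (y c) = z''^(-(c / q)) x (c % q) = x c` as `x (c - q) = z'' x c` (induction, `z''` a unit). -/
def S_ExC : Prop :=
  ∀ (k' k k'' : Type) [CommRing k'] [CommRing k] [CommRing k''] (H : Type) (F : FS H)
    (M' : MS k' H F) (M : MS k H F) (M'' : MS k'' H F) (w : ℤ) (a : M'.V →+ M.V) (b : M.V →+ M''.V)
    (h : Ex3 w a b) (q : ℕ) (hq : 0 < q) (b0 i : ℕ) (z' : k') (z : k) (z'' : k'')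
    (hz : IsUnit z) (hz'' : IsUnit z'') (ha : ∀ x, a (z' • x) = z • a x)
    (hb : ∀ x, b (z • x) = z'' • b x) (ρ : H → ℤ),
    Ex3 (M' := M'.circ q b0 i z' ρ) (M := M.circ q b0 i z ρ) (M'' := M''.circ q b0 i z'' ρ) w
      (cirF a) (cirF b)

/-- **ExI** (from ExC).  Iteration (induction on `n`; also `mitF a (z' i • x) = z i • mitF a x`). -/
def S_ExI : Prop :=
  ∀ (k' k k'' : Type) [CommRing k'] [CommRing k] [CommRing k''] (H : Type) (F : FS H)
    (M' : MS k' H F) (M : MS k H F) (M'' : MS k'' H F) (w : ℤ) (a : M'.V →+ M.V) (b : M.V →+ M''.V)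
    (h : Ex3 w a b) (q : ℕ) (hq : 0 < q) (b0 : ℕ) (ix : ℕ → ℕ) (z' : ℕ → k') (z : ℕ → k)
    (z'' : ℕ → k'') (hz : ∀ i, IsUnit (z i)) (hz'' : ∀ i, IsUnit (z'' i))
    (ha : ∀ i x, a (z' i • x) = z i • a x) (hb : ∀ i x, b (z i • x) = z'' i • b x)
    (ρ : ℕ → H → ℤ) (n : ℕ),
    Ex3 (M' := mit M' q b0 ix z' ρ n) (M := mit M q b0 ix z ρ n) (M'' := mit M'' q b0 ix z'' ρ n) w
      (mitF a q b0 ix z' z ρ n) (mitF b q b0 ix z z'' ρ n)

/-- **ExS.** Exactness on `Q` as a short exact sequence of big complexes (unfold; the elements of `(M.gc h).V`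
are pairs `(x, x ∈ Q)`). -/
def S_ExS : Prop :=
  ∀ (k' k k'' : Type) [CommRing k'] [CommRing k] [CommRing k''] (H : Type) (F : FS H)
    (M' : MS k' H F) (M : MS k H F) (M'' : MS k'' H F) (w : ℤ) (a : M'.V →+ M.V) (b : M.V →+ M''.V)
    (e : Ex3 w a b) (h' : Dif M') (h : Dif M) (h'' : Dif M''),
    SES (M'.gc h') (M.gc h) ((M''.gc h'').sh w) (qm h' h a e.aQ) (qm h h'' b e.bQ)

/-- **ExB** (from OpN).  Exact sequences of coefficients give exact sequences of chains.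
Proof: componentwise in `j`, coefficientwise in the simplices.  Commutation with `opD` (for `δ`, `sg`): OpN,
last item.  `ex`: `Finsupp.mapRange p` where `p : D j → D' j` is a function with `f' (p x) = x` whenever `f x = 0`,
`p 0 = 0`; `sur` similarly.  Degrees: `mapRange` does not enlarge the support. -/
def S_ExB : Prop :=
  ∀ (G : Type) [CommGroup G] (g : GD G) (k' k k'' : Type) [CommRing k'] [CommRing k] [CommRing k'']
    (D' : DM k') (D : DM k) (D'' : DM k'') (σ' : k' →+* k) (σ : k →+* k'') (f' : DHom σ' D' D)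
    (f : DHom σ D D'') (inj : ∀ j x, f'.f j x = 0 → x = 0) (zer : ∀ j x, f.f j (f'.f j x) = 0)
    (ex : ∀ j x, f.f j x = 0 → ∃ y, f'.f j y = x) (sur : ∀ j y, ∃ x, f.f j x = y),
    Ex3 (M' := g.M0 D') (M := g.M0 D) (M'' := g.M0 D'') 0 (f'.ch g.K) (f.ch g.K)

/-- **OpY.** The operators `κ(Y)` on sequences and on chains, `κ` homogeneous of degree `w`.
Proof: induction on `n`, for all `κ`, `w`: `Ko .. (n + 1) κ = ∑_(j ≤ b) Ko .. n κ_j * Y^j`, `κ_j a = κ (update a (ix n) j)` is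
homogeneous of degree `w - j` for `j ≤ w` and `Ko .. κ_j = 0` for `j > w` (all `κ_j = 0`) (replace the hypothesis by
`κ a ≠ 0 → ∑_(l<n) a (ix l) = w` with `w : ℤ`; `ix` is injective).  `(tY i u) j = Y i j (u (j + 1))`.  To avoid
transports state locality in the form: `(T u) j = (T u') j` if `u (j + w) = u' (j + w)`. -/
def S_OpY : Prop :=
  ∀ (K : SS) (k : Type) [CommRing k] (D : DM k) (hD : D.Comm) (b : ℕ) (ix : ℕ → ℕ)
    (hix : Function.Injective ix) (n w : ℕ) (κ : (ℕ → ℕ) → ℤ)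
    (hκ : ∀ a, κ a ≠ 0 → ∑ l ∈ Finset.range n, a (ix l) = w),
    (∀ i u, Ko D.tY b ix n κ (D.tY i u) = D.tY i (Ko D.tY b ix n κ u)) ∧
    (∀ (u u' : D.Sq) j, u (j + w) = u' (j + w) →
      (Ko D.tY b ix n κ u) j = (Ko D.tY b ix n κ u') j) ∧
    (∀ j < w, ∀ x : D.D j, Ko D.tY b ix n κ (Pi.single j x) = 0) ∧
    (∀ j (x : D.D (j + w)), ∃ y : D.D j,
      Ko D.tY b ix n κ (Pi.single (j + w) x) = Pi.single j y) ∧
    Ko (yD K D) b ix n κ = opW K D w (Ko D.tY b ix n κ)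

/-- **OpL.** Linear forms `∑_(i<m) λ i Y i` on sequences and on chains. -/
def S_OpL : Prop :=
  ∀ (K : SS) (k : Type) [CommRing k] (D : DM k) (hD : D.Comm) (m : ℕ) (l : ℕ → k),
    (∀ i u, (∑ i ∈ Finset.range m, l i • D.tY i) (D.tY i u) =
      D.tY i ((∑ i ∈ Finset.range m, l i • D.tY i) u)) ∧
    (∀ x : D.D 0, (∑ i ∈ Finset.range m, l i • D.tY i) (Pi.single 0 x) = 0) ∧
    (∀ j (x : D.D (j + 1)), (∑ i ∈ Finset.range m, l i • D.tY i) (Pi.single (j + 1) x) =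
      Pi.single j (∑ i ∈ Finset.range m, l i • D.Y i j x)) ∧
    ∑ i ∈ Finset.range m, l i • yD K D i = opW K D 1 (∑ i ∈ Finset.range m, l i • D.tY i)

/-- **ExK** (from OpN).  The kernel of a surjective operator `T` of weight `w`.
Proof.  `(opW h) j x = (T (single (j + w) (h (j + w) x))) j`.  Degrees: `x.1 + 2 (j + w) = i`.  `bY`:
`Y i j (T (single (j + 1 + w) e) (j + 1)) = (tY i (T (single ..))) j = (T (tY i (single (j + 1 + w) e))) j`, and
`j + 1 + w = (j + w) + 1` (generalize the index, `tY_single`).  `ex`: for a coefficient `e = h j x`: if `j < w` then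
`T (single j e) = 0` (`hlow`), and if `j = j' + w` then `T (single j e) = single j' y`, `y = (opW h) j' x = 0`.  `sur`:
choose preimages, the degrees fit: define `h (j + w)` by `mapRange`, `h j = 0` for `j < w` (for a target `y` in
degree `i - 2 w`; the preimage is supported on the support of `y`). -/
def S_ExK : Prop :=
  ∀ (G : Type) [CommGroup G] (g : GD G) (k : Type) [CommRing k] (D : DM k)
    (T : Module.End k D.Sq) (hT : ∀ i x, T (D.tY i x) = D.tY i (T x)) (w : ℕ)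
    (hlow : ∀ j < w, ∀ x : D.D j, T (Pi.single j x) = 0)
    (hhom : ∀ j (x : D.D (j + w)), ∃ y : D.D j, T (Pi.single (j + w) x) = Pi.single j y)
    (hsur : ∀ j (y : D.D j), ∃ x : D.D (j + w), T (Pi.single (j + w) x) = Pi.single j y),
    Ex3 (M' := g.M0 (D.ker T hT)) (M := g.M0 D) (M'' := g.M0 D) (2 * (w : ℤ))
      ((D.kerI T hT).ch g.K) (opW g.K D w T).toAddMonoidHom

/-! ## B2. The geometric data -/

/-- **OKM** (from FS0, MS0, FMit, MitG, OpN, Xc1).  All identities for the products, and `v` is compatible with the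
differentials.
Proof: FS0 and MS0 for `K`, `alH` (`al1`, `alm`), then FMit with `rho_one`, `rho_mul`; MitG for `e = g.n`. -/
def S_OKM : Prop :=
  ∀ (G : Type) [CommGroup G] (g : GD G) (k : Type) [CommRing k] (z : ℕ → k) (D : DM k)
    (hD : D.Comm) (n : ℕ),
    (fit g.F0 g.q (rv g.m) (rho g.q g.ψ) n).OK ∧ (g.Mn z D n).OK g.n ∧
    (∀ φ ∈ (fit g.F0 g.q (rv g.m) (rho g.q g.ψ) n).Pr, ∀ e : ℤ, e < 2 * g.b →
      φ ∈ (fit g.F0 g.q (rv g.m) (rho g.q g.ψ) n).Dg e → (g.Mn z D n).Good φ)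

/-- **DifM** (from OKM, MitC, MS0, OpN).  `δ` is a differential on `Q`.
Proof: `Qd`, `Gd` from OKM; MitC: `δ² = ∑_(l<n) (z (rv m l) - 1) Y (rv m l)` on `Q`; the operator
`∑_(l<n) (z (rv m l) - 1) Y (rv m l)` is `0` on the base by `hz` (coefficientwise), hence on the product (induction:
the operators `Y` of the product are `cirM (Y i)`). -/
def S_DifM : Prop :=
  ∀ (G : Type) [CommGroup G] (g : GD G) (k : Type) [CommRing k] (z : ℕ → k) (D : DM k)
    (hD : D.Comm) (n : ℕ)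
    (hz : ∀ j (x : D.D (j + 1)), ∑ l ∈ Finset.range n,
      (z (rv g.m l) - 1) • D.Y (rv g.m l) j x = 0), Dif (g.Mn z D n)

/-- **DifF** (from DifM).  The case of all circles (`rv m l = m - 1 - l`, `Finset.sum_range_reflect`). -/
def S_DifF : Prop :=
  ∀ (G : Type) [CommGroup G] (g : GD G) (k : Type) [CommRing k] (z : ℕ → k) (D : DM k)
    (hD : D.Fl g.m z), Dif (g.M z D)

/-! ## B3. Null homotopies -/

/-- **NulC.** Null homotopies and one circle.
Proof.  (1) `δ̂ (cirM E f) + cirM E (δ̂ f)`: the terms of the circle cancel because `E sg = - sg E`, `E Y = Y E`.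
(2) For `r = 1`: `E f = (0, sg f.1)`: `δ̂ (0, sg f.1) = (f.1 (c-1) - f.1 c, δ sg f.1)`,
`E (δ̂ f) = (0, sg δ f.1 + f.2 (c-1) - f.2 c)`.  For `r ≥ 0`: `E (1 + x + … + x^(r-1))`, `x = cirA 1 1` commutes with
`δ̂`, `sg`, `Y`, `E`; for `r < 0`: `x^r - 1 = - x^r (x^(-r) - 1)`.  (3) `x^q = z` on `Q`, by (2).  (4) clear. -/
def S_NulC : Prop :=
  ∀ (k : Type) [CommRing k] (H : Type) [Group H] (F : FS H) (M : MS k H F) (n : ℤ) (hM : M.OK n)
    (q b i : ℕ) (z : k) (ρ : H → ℤ),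
    (∀ T E, M.Nul T E → (M.circ q b i z ρ).Nul (cirM T) (cirM E)) ∧
    (∀ r : ℤ, ∃ E, (M.circ q b i z ρ).Nul (cirA 1 r - 1) E) ∧
    (∃ E, (M.circ q b i z ρ).Nul ((z - 1) • 1) E) ∧
    ∀ T E B : Module.End k M.V, M.Nul T E → (∀ x ∈ M.Q, B x ∈ M.Q) →
      (∀ i, ∀ x ∈ M.G i, B x ∈ M.G i) → (∀ x, B (M.sg x) = M.sg (B x)) →
      (∀ i x, B (M.Y i x) = M.Y i (B x)) → (∀ x, B (M.δ x) = M.δ (B x)) → M.Nul (T * B) (E * B)

/-- **NulZ** (from NulC, OKM).  All `z i - 1` are null homotopic: NulC (3) for the circle `l`, then NulC (1)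
(`cirM ((z - 1) • 1) = (z - 1) • 1`), induction on `n`. -/
def S_NulZ : Prop :=
  ∀ (G : Type) [CommGroup G] (g : GD G) (k : Type) [CommRing k] (z : ℕ → k) (D : DM k)
    (hD : D.Comm) (n l : ℕ) (hl : l < n), ∃ E, (g.Mn z D n).Nul ((z (rv g.m l) - 1) • 1) E

/-- **NulA** (from NulC, OKM, OpN).  All `A h - 1` are null homotopic.
Proof: induction on `n`.  Base: `opD B`, `B` of `g.hom` (`opD (cmap - 1) = opD (bd B + B bd)`, `B sgC = - sgC B` by the
degrees; `Q = ⊤`).  Step: `cirA A r - 1 = cirM (A - 1) x^r + (x^r - 1)`, `x^r = cirA 1 r`, NulC (1), (2), (4). -/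
def S_NulA : Prop :=
  ∀ (G : Type) [CommGroup G] (g : GD G) (k : Type) [CommRing k] (z : ℕ → k) (D : DM k)
    (hD : D.Comm) (n : ℕ) (h : Gam g.q g.ψ), ∃ E, (g.Mn z D n).Nul ((g.Mn z D n).A h - 1) E

/-! ## B4. The Clifford relation -/

/-- **ScZ** (from OKM).  Scalar functionals commute with `Ξ`.
Proof: induction on `n`: `tw` preserves `Sc`; `Z (r • ε) = r` on the base (MS0); `cirX` is a sum of operators
`Z (..) Y^j` with scalar functionals. -/
def S_ScZ : Prop :=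
  ∀ (k : Type) [CommRing k] (H : Type) [Group H] (F : FS H) (hF : F.OK) (M : MS k H F) (d : ℤ)
    (hM : M.OK d) (q b : ℕ) (ix : ℕ → ℕ) (z : ℕ → k) (ρ : ℕ → H → ℤ) (ε : F.Φ)
    (hε : F.tw ε = ε) (hZ : ∀ x, M.Z ε x = x) (n : ℕ) (φ : (fit F q ix ρ n).Φ)
    (hφ : Sc ε q ix ρ n φ),
    Sc ε q ix ρ n ((fit F q ix ρ n).tw φ) ∧
    ∀ x, (mit M q b ix z ρ n).Z φ ((mit M q b ix z ρ n).Ξ x) =
      (mit M q b ix z ρ n).Ξ ((mit M q b ix z ρ n).Z φ x)

/-- **RelI** (from NulC, FMit).  The Clifford relation for a constant functional of odd degree.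
Proof: induction on `n`.  `tw (cst ψ) = - cst ψ`; `sg (Z (cst ψ) f) = cirM (sg Z(cst ψ)) f` in one circle: first
component `sg (Z (cst ψ) f.1)` (only `j = 0`), second component `- sg (Z (tw (cst ψ)) f.2) = sg (Z (cst ψ) f.2)`.  So the
operator `T` of the product is `cirM T`, NulC (1). -/
def S_RelI : Prop :=
  ∀ (k : Type) [CommRing k] (H : Type) [Group H] (F : FS H) (hF : F.OK) (M : MS k H F) (d : ℤ)
    (hM : M.OK d) (q b : ℕ) (ix : ℕ → ℕ) (z : ℕ → k) (ρ : ℕ → H → ℤ) (h1 : ∀ i, ρ i 1 = 0)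
    (hρ : ∀ i h h', ρ i (h * h') = ρ i h + ρ i h') (ψ : F.Φ) (hψ : F.tw ψ = -ψ)
    (hN : ∃ E, M.Nul (M.sg * M.Z ψ * M.Ξ + M.Ξ * M.sg * M.Z ψ - 1) E) (n : ℕ),
    ∃ E, (mit M q b ix z ρ n).Nul ((mit M q b ix z ρ n).sg * (mit M q b ix z ρ n).Z (cst q ix ρ n ψ) *
      (mit M q b ix z ρ n).Ξ + (mit M q b ix z ρ n).Ξ * (mit M q b ix z ρ n).sg *
      (mit M q b ix z ρ n).Z (cst q ix ρ n ψ) - 1) E

/-- **Dec** (from FS0, FSc, FMit).  Decomposition of the functional `v` (`w`, `s` of `g.con`, `n₀ = g.n`, `ε = aug`).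
Proof.  On the functionals on the chains let `S φ = φ ∘ s`, `R φ = φ - S (bd φ) - bd (S φ)`.  `S tw = - tw S`, `S ε = 0`,
`R ε = ε`; if `φ ∈ Dg 0` then `R φ = φ(w) ε`; `R φ = 0` for `φ ∈ Dg d`, `0 < d < n₀` or `d < 0`; `R` preserves `Dg`.  Let
`S`, `R` act on all components of the functionals on the product.  (1) `S bd + bd S = 1 - R` on the product, by
`S tw + tw S = 0`.  (2) By induction on `n`: for `φ ∈ Dg d`, `d < n₀`: `R φ ∈ Sc`.  (3) `Sc` is a subgroup, preserved by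
`bd`, `tw`.  (4) By induction on `n`: `u = R φ`, `φ ∈ Dg n₀`, and `bd u ∈ Sc` imply `u - cst (vx u) ∈ Sc`: the components
`u.1 j c`, `j ≥ 1`, and `u.2 j c` are in `Sc` by (2); `(bd u).2 0 c = bd (u.2 0 c) + tw (u.1 0 (c+1) - u.1 0 c)`, so
`u.1 0 (c+1) - u.1 0 c ∈ Sc`, hence `u.1 0 c - u.1 0 0 ∈ Sc` for all `c`; `(bd u).1 0 0 = bd (u.1 0 0)`, so the induction
applies to `u.1 0 0`.  (5) `u = R v`: `v = u + bd (S v) + S (bd v)`, `bd v = Kf ε ..`, `S (Kf ..) = 0`; `bd u = bd v -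
bd (bd (S v)) = bd v ∈ Sc` (`S v ∈ Pr`, `bb`).  `μ = S v`, `ψ = vx u = R v0`, `σ = u - cst ψ`.
(6) `ψ ∘ bd = vx (bd u) = κ(0) ε = 0` by `κh` (`w > 0`).  On a cycle `y ∈ gr n₀`: `ψ y = v0 y - v0 (s (bd y)) -
v0 (bd (s y)) = v0 y` (`s y = 0`). -/
def S_Dec : Prop :=
  ∀ (G : Type) [CommGroup G] (g : GD G), ∃ (ψ : Ch ℤ g.K →ₗ[ℤ] ℤ) (μ σ : g.F.Φ),
    g.V = cst (F := g.F0) g.q (rv g.m) (rho g.q g.ψ) g.m ψ + σ + g.F.bd μ ∧
    Sup g.n ψ ∧ (∀ y, ψ (bd ℤ g.K y) = 0) ∧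
    (∀ y ∈ gr ℤ g.K g.n, bd ℤ g.K y = 0 → ψ y = g.v0 y) ∧ μ ∈ g.F.Pr ∧
    μ ∈ g.F.Dg ((g.n : ℤ) - 1) ∧
    Sc (F := g.F0) (aug ℤ g.K) g.q (rv g.m) (rho g.q g.ψ) g.m σ

/-- **CLM** (from OKM, Dec, ScZ, RelI, MitK, OpN, Xc1, MitA).  The Clifford pair on `Q`, for `κ(Y) = 0` on `D`.
Proof.  Degrees and `Q`: OKM.  `Xd`: `Z v (δ x) = δ (Z v x) + sg (Z (bd v) x)` (Good), `Z (bd v) = κ(Y)` (MitK) and
`κ(Y) = 0` on the product (on the base: `κ(Y)` on chains is coefficientwise `κ(Y)` on sequences: for a simplex `x`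
the map `h ↦ (h j x)_j` intertwines; then induction).  `Ξd`: OKM.
Relation: with `v = cst ψ + σ + bd μ` (Dec): `X = sg Z(cst ψ) + sg Z(σ) + sg Z(bd μ)`.  Base: `M0.sg * M0.Z ψ = opD (cap ψ)`
(`Xc ψ = sgC ∘ cap ψ` for `ψ` odd), so by `g.rel` and OpN `M0.Nul (..) (opD c)` (`c sgC = - sgC c` by the degrees), RelI
gives `E` with `δ E + E δ = sg Z(cst ψ) Ξ + Ξ sg Z(cst ψ) - 1` on `Q`.  `sg Z(σ) Ξ + Ξ sg Z(σ) = 0` (ScZ, `Ξ sg = - sg Ξ`).
`sg Z(bd μ) = Z(μ) δ - δ Z(μ)` (Good for `μ`, `n - 1 < 2 b`), so `sg Z(bd μ) Ξ + Ξ sg Z(bd μ) = δ W + W δ`,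
`W = Ξ Z(μ) - Z(μ) Ξ`.  For a cycle `x` take `y = E x + W x`. -/
def S_CLM : Prop :=
  ∀ (G : Type) [CommGroup G] (g : GD G) (k : Type) [CommRing k] (z : ℕ → k) (D : DM k)
    (hD : D.Fl g.m z) (hκ : Ko D.tY g.b (rv g.m) g.m g.κ = 0), (g.M z D).CL g.V g.n

/-- **XUn** (from OKM, MitK).  Without the condition `κ(Y) = 0`: `X δ = - δ X + κ(Y)` on all elements, `X = sg Z(v)`, and
`X` commutes with all `Y i` and preserves `Q`, degrees. -/
def S_XUn : Prop :=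
  ∀ (G : Type) [CommGroup G] (g : GD G) (k : Type) [CommRing k] (z : ℕ → k) (D : DM k)
    (hD : D.Comm),
    (∀ x, (g.M z D).sg ((g.M z D).Z g.V ((g.M z D).δ x)) =
      -(g.M z D).δ ((g.M z D).sg ((g.M z D).Z g.V x)) +
        Ko (g.M z D).Y g.b (rv g.m) g.m g.κ x) ∧
    (∀ i x, (g.M z D).sg ((g.M z D).Z g.V ((g.M z D).Y i x)) =
      (g.M z D).Y i ((g.M z D).sg ((g.M z D).Z g.V x))) ∧
    (∀ x ∈ (g.M z D).Q, (g.M z D).sg ((g.M z D).Z g.V x) ∈ (g.M z D).Q) ∧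
    ∀ i, ∀ x ∈ (g.M z D).G i, (g.M z D).sg ((g.M z D).Z g.V x) ∈ (g.M z D).G (i - g.n)

/-- **GPM** (from OKM).  The action of `G` on `Q`.
Proof: `A1`, `Ad`, `AG`, `AQ` from OKM (`lf 1 = 1`).  `AA`: `lf x * lf y = lf (x y) * t` with `t.1.1 = 1` and
`rho i t = q e_i`, `e_i = HHx.carry (ψ i) x y` (`HHx.val_mul_carry`).  For such a `t` one has on `Q`:
`(g.Mn z D n).A t f = ∏_(l<n) z (rv m l)^(e (rv m l)) f`, by induction on `n` (on the base `A t = 1` by `al1`;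
`f (c - q e) = z^e f c` by the definition of `cirQ`).  Then `A (lf x) (A (lf y) f) = A (lf (x y)) (A t f)`.
`CA`: `ZA`, `AΞ`, `As` of OKM and `g.vr`. -/
def S_GPM : Prop :=
  ∀ (G : Type) [CommGroup G] (g : GD G) (k : Type) [CommRing k] (z : ℕ → k) (D : DM k)
    (hD : D.Comm),
    (g.M z D).GP (lf g.q g.ψ) (fun x y => ∏ i : Fin g.m, z i ^ HHx.carry (g.ψ i) x y) ∧
    (g.M z D).CA g.V (lf g.q g.ψ)

end HRx
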